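import Pool.Agent.MP_28f8a1_an.H42.Norm
import Pool.Agent.MP_28f8a1_an.H42.Cx

-- part MP_28f8a1_an.H42.Mero
section

/-! Criteria for an isolated singularity to be at most a pole. -/

set_option autoImplicit false

namespace Pool.Agent.MP_28f8a1_an.H42

open MeasureTheory Metric Set Real Filter Topology Polynomial
open scoped ENNReal

theorem mero_of_growth {f : ℂ → ℂ} {δ C : ℝ} {N : ℕ} (hδ : 0 < δ)
    (hf : DifferentiableOn ℂ f (ball 0 δ \ {0}))
    (h : ∀ s ∈ ball (0 : ℂ) δ \ {0}, ‖f s‖ * ‖s‖ ^ N ≤ C) : MeromorphicAt f 0 := by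
  classical
  have hb : ball (0 : ℂ) δ ∈ 𝓝 (0 : ℂ) := ball_mem_nhds _ hδ
  have hg : DifferentiableOn ℂ (fun s => f s * s ^ N) (ball 0 δ \ {0}) :=
    hf.mul (differentiable_pow N).differentiableOn
  have hG := Complex.differentiableOn_update_limUnder_of_bddAbove hb hg ⟨C, by
    rintro _ ⟨s, hs, rfl⟩
    simpa [norm_mul, norm_pow] using h s hs⟩
  have hA := (hG.analyticAt hb).meromorphicAt
  have hP : MeromorphicAt (fun s : ℂ => s ^ N) 0 := (analyticAt_id.pow N).meromorphicAt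
  refine (hA.div hP).congr ?_
  filter_upwards [self_mem_nhdsWithin] with s hs
  have hs' : s ≠ 0 := hs
  have := pow_ne_zero N hs'
  simp only [Pi.div_apply, Function.update_of_ne hs']
  field_simp

theorem growth_of_mero {f : ℂ → ℂ} (hf : MeromorphicAt f 0) :
    ∃ (δ C : ℝ) (N : ℕ), 0 < δ ∧ ∀ s ∈ ball (0 : ℂ) δ \ {0}, ‖f s‖ * ‖s‖ ^ N ≤ C := by
  obtain ⟨N, hN⟩ := hf
  have hc := hN.continuousAt.norm
  have hev := hc.eventually (gt_mem_nhds (lt_add_one _))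
  obtain ⟨δ, hδ, hball⟩ := Metric.eventually_nhds_iff.1 hev
  refine ⟨δ, ‖((0 : ℂ) - 0) ^ N • f 0‖ + 1, N, hδ, fun s hs => ?_⟩
  have := (hball (y := s) hs.1).le
  simpa [norm_mul, norm_pow, mul_comm] using this

theorem t1311_preconn {δ : ℝ} (hδ : 0 < δ) : IsPreconnected (ball (0 : ℂ) δ \ {0}) := by
  have hc : IsPreconnected {z : ℂ | z.re < Real.log δ} :=
    (convex_halfSpace_re_lt _).isPreconnected
  have := hc.image Complex.exp Complex.continuous_exp.continuousOn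
  refine (congrArg IsPreconnected (Set.ext fun s => ?_)).mp this
  constructor
  · rintro ⟨z, hz, rfl⟩
    refine ⟨?_, Complex.exp_ne_zero z⟩
    rw [mem_ball_zero_iff, Complex.norm_exp]
    exact (Real.lt_log_iff_exp_lt hδ).1 hz
  · rintro ⟨h1, h2⟩
    have h2' : s ≠ 0 := h2
    refine ⟨Complex.log s, ?_, Complex.exp_log h2'⟩
    show (Complex.log s).re < Real.log δ
    rw [Complex.log_re]
    exact Real.log_lt_log (norm_pos_iff.2 h2') (mem_ball_zero_iff.1 h1)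

theorem t1311_omit {φ : ℂ → ℂ} {δ r ε : ℝ} {w : ℂ} (hr : 0 < r) (hrδ : r ≤ δ) (hε : 0 < ε)
    (hφ : DifferentiableOn ℂ φ (ball 0 δ \ {0}))
    (h : ∀ s ∈ ball (0 : ℂ) r \ {0}, ε ≤ ‖φ s - w‖) : MeromorphicAt φ 0 := by
  have hne : ∀ s ∈ ball (0 : ℂ) r \ {0}, φ s - w ≠ 0 := fun s hs =>
    norm_pos_iff.1 (hε.trans_le (h s hs))
  have hd : DifferentiableOn ℂ (fun s => (φ s - w)⁻¹) (ball 0 r \ {0}) :=
    ((hφ.mono (sdiff_subset_sdiff_left (ball_subset_ball hrδ))).sub_const w).inv hne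
  have hm : MeromorphicAt (fun s => (φ s - w)⁻¹) 0 :=
    mero_of_growth (C := ε⁻¹) (N := 0) hr hd fun s hs => by
      rw [pow_zero, mul_one, norm_inv]
      exact inv_anti₀ hε (h s hs)
  refine (hm.inv.add (MeromorphicAt.const w 0)).congr (Eventually.of_forall fun s => ?_)
  simp

theorem mero_of_valence {φ : ℂ → ℂ} {δ : ℝ} (hδ : 0 < δ)
    (hφ : DifferentiableOn ℂ φ (ball 0 δ \ {0})) {K : ℕ}
    (h : ∀ w : ℂ, w ≠ 4 → ∀ T : Finset ℂ, (∀ s ∈ T, s ∈ ball (0 : ℂ) δ \ {0} ∧ φ s = w) →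
      T.card ≤ K) : MeromorphicAt φ 0 := by
  classical
  have hU : IsOpen (ball (0 : ℂ) δ \ {0}) := isOpen_ball.sdiff isClosed_singleton
  have han : AnalyticOnNhd ℂ φ (ball 0 δ \ {0}) := hφ.analyticOnNhd hU
  rcases han.is_constant_or_isOpen (t1311_preconn hδ) with ⟨w, hw⟩ | hop
  · exact mero_of_growth (C := ‖w‖) (N := 0) hδ hφ fun s hs => by simp [hw s hs]
  set S : Set ℕ := {n | ∃ w : ℂ, w ≠ 4 ∧ ∃ T : Finset ℂ,
    (∀ s ∈ T, s ∈ ball (0 : ℂ) δ \ {0} ∧ φ s = w) ∧ T.card = n} with hS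
  have hSb : BddAbove S := ⟨K, by
    rintro n ⟨w, hw, T, hT, rfl⟩
    exact h w hw T hT⟩
  have hSn : S.Nonempty := ⟨0, 0, by norm_num, ∅, by simp, rfl⟩
  obtain ⟨w₀, hw₀, T, hT, hTc⟩ := Nat.sSup_mem hSn hSb
  have hmax : ∀ w : ℂ, w ≠ 4 → ∀ T' : Finset ℂ,
      (∀ s ∈ T', s ∈ ball (0 : ℂ) δ \ {0} ∧ φ s = w) → T'.card ≤ T.card :=
    fun w hw T' hT' => hTc ▸ le_csSup hSb ⟨w, hw, T', hT', rfl⟩
  obtain ⟨V, hV, hVd⟩ := T.finite_toSet.t2_separation
  have hr : ∀ᶠ r in 𝓝[>] (0 : ℝ), r < δ ∧ ∀ t ∈ T, r < ‖t‖ := by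
    refine nhdsWithin_le_nhds ((gt_mem_nhds hδ).and
      ((Filter.eventually_all_finset T).2 fun t ht => gt_mem_nhds ?_))
    exact norm_pos_iff.2 (hT t ht).1.2
  obtain ⟨r, ⟨hrδ, hrT⟩, hr0⟩ := (hr.and self_mem_nhdsWithin).exists
  have hr0' : 0 < r := hr0
  have hev : ∀ᶠ w in 𝓝 w₀, w ≠ 4 ∧
      ∀ t ∈ T, w ∈ φ '' (V t ∩ {s | r < ‖s‖} ∩ (ball (0 : ℂ) δ \ {0})) := by
    refine (eventually_ne_nhds hw₀).and ((Filter.eventually_all_finset T).2 fun t ht => ?_)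
    exact (hop _ inter_subset_right
      (((hV t).2.inter (isOpen_lt continuous_const continuous_norm)).inter hU)).mem_nhds
      ⟨t, ⟨⟨(hV t).1, hrT t ht⟩, (hT t ht).1⟩, (hT t ht).2⟩
  obtain ⟨ε, hε, hball⟩ := Metric.eventually_nhds_iff.1 hev
  refine t1311_omit (w := w₀) hr0' hrδ.le hε hφ fun x hx => ?_
  by_contra hlt
  obtain ⟨h4, hall⟩ := hball (y := φ x) (by rw [dist_eq_norm]; exact not_le.1 hlt)
  choose! g hg hgw using hall
  have hinj : Set.InjOn g T := fun a ha b hb hab => by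
    by_contra hne
    exact Set.disjoint_left.1 (hVd ha hb hne) (hg a ha).1.1 (hab ▸ (hg b hb).1.1)
  have hx' : x ∉ T.image g := by
    intro hm
    obtain ⟨t, ht, rfl⟩ := Finset.mem_image.1 hm
    have h1 : r < ‖g t‖ := (hg t ht).1.2
    have h2 := mem_ball_zero_iff.1 hx.1
    linarith
  have := hmax (φ x) h4 (insert x (T.image g)) (fun y hy => by
    rcases Finset.mem_insert.1 hy with rfl | hy
    · exact ⟨⟨ball_subset_ball hrδ.le hx.1, hx.2⟩, rfl⟩
    · obtain ⟨t, ht, rfl⟩ := Finset.mem_image.1 hy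
      exact ⟨(hg t ht).2, hgw t ht⟩)
  rw [Finset.card_insert_of_notMem hx', Finset.card_image_of_injOn hinj] at this
  omega

theorem t1312_iter {f : ℂ → ℂ} {δ r B : ℝ} {N : ℕ} (hδ : 0 < δ) (hr : 0 < r)
    (hf : DifferentiableOn ℂ f (ball 0 δ \ {0}))
    (h : ∀ s : ℂ, s ≠ 0 → ‖s‖ < r →
      ‖f s‖ * ‖s‖ ^ N ≤ 2 * ‖f (8 / 7 * s)‖ * ‖s‖ ^ N + B) : MeromorphicAt f 0 := by
  obtain ⟨ρ, hρ, hρ1, hρδ, hρr⟩ : ∃ ρ : ℝ, 0 < ρ ∧ ρ ≤ 1 ∧ ρ < δ ∧ ρ ≤ r :=
    ⟨min 1 (min (δ / 2) r), by positivity, min_le_left _ _,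
      ((min_le_right _ _).trans (min_le_left _ _)).trans_lt (by linarith),
      (min_le_right _ _).trans (min_le_right _ _)⟩
  have hsub : closedBall (0 : ℂ) ρ \ ball 0 (7 / 8 * ρ) ⊆ ball 0 δ \ {0} := by
    rintro s ⟨h1, h2⟩
    rw [mem_closedBall_zero_iff] at h1
    rw [mem_ball_zero_iff, not_lt] at h2
    refine ⟨mem_ball_zero_iff.2 (h1.trans_lt hρδ), fun h0 => ?_⟩
    rw [mem_singleton_iff.1 h0, norm_zero] at h2
    linarith
  obtain ⟨M, hM⟩ := ((isCompact_closedBall (0 : ℂ) ρ).diff isOpen_ball).exists_bound_of_continuousOn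
    (hf.continuousOn.mono hsub)
  have key : ∀ k : ℕ, ∀ s : ℂ, (7 / 8) ^ (k + 1) * ρ ≤ ‖s‖ → ‖s‖ ≤ ρ →
      ‖f s‖ * ‖s‖ ^ (N + 11) ≤ |M| + 2 * |B| := by
    have base : ∀ s : ℂ, 7 / 8 * ρ ≤ ‖s‖ → ‖s‖ ≤ ρ →
        ‖f s‖ * ‖s‖ ^ (N + 11) ≤ |M| + 2 * |B| := fun s h1 h2 => by
      have h3 := hM s ⟨mem_closedBall_zero_iff.2 h2, by rwa [mem_ball_zero_iff, not_lt]⟩
      have h4 : ‖s‖ ^ (N + 11) ≤ 1 := pow_le_one₀ (norm_nonneg _) (h2.trans hρ1)
      have h5 := mul_le_of_le_one_right (norm_nonneg (f s)) h4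
      linarith [le_abs_self M, abs_nonneg B]
    intro k
    induction k with
    | zero => exact fun s h1 h2 => base s (by simpa using h1) h2
    | succ k ih =>
      intro s h1 h2
      by_cases hb : 7 / 8 * ρ ≤ ‖s‖
      · exact base s hb h2
      push Not at hb
      have hpos : 0 < ‖s‖ := lt_of_lt_of_le (by positivity) h1
      have hn : ‖(8 / 7 : ℂ) * s‖ = 8 / 7 * ‖s‖ := by
        rw [norm_mul]
        norm_num
      have i1 := ih (8 / 7 * s) (by rw [hn]; rw [pow_succ] at h1; linarith) (by rw [hn]; linarith)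
      have i2 := h s (norm_pos_iff.1 hpos) (by linarith)
      rw [hn, mul_pow] at i1
      have i3 : (4 : ℝ) ≤ (8 / 7) ^ (N + 11) :=
        le_trans (by norm_num) (pow_le_pow_right₀ (by norm_num) (Nat.le_add_left 11 N))
      have i4 : ‖s‖ ^ 11 ≤ 1 := pow_le_one₀ hpos.le (h2.trans hρ1)
      have i5 : 0 ≤ ‖f (8 / 7 * s)‖ * ‖s‖ ^ (N + 11) := by positivity
      have i6 : 4 * (‖f (8 / 7 * s)‖ * ‖s‖ ^ (N + 11)) ≤ |M| + 2 * |B| := by nlinarith
      have i7 : B * ‖s‖ ^ 11 ≤ |B| :=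
        (mul_le_mul_of_nonneg_right (le_abs_self B) (by positivity)).trans
          (mul_le_of_le_one_right (abs_nonneg B) i4)
      have i8 := mul_le_mul_of_nonneg_right i2 (show 0 ≤ ‖s‖ ^ 11 by positivity)
      rw [pow_add] at i6 ⊢
      nlinarith [abs_nonneg M]
  refine mero_of_growth (δ := ρ) (C := |M| + 2 * |B|) (N := N + 11) hρ
    (hf.mono (sdiff_subset_sdiff_left (ball_subset_ball hρδ.le))) fun s hs => ?_
  have hpos : 0 < ‖s‖ := norm_pos_iff.2 hs.2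
  obtain ⟨k, hk⟩ := exists_pow_lt_of_lt_one (div_pos hpos hρ) (show (7 / 8 : ℝ) < 1 by norm_num)
  refine key k s ?_ (mem_ball_zero_iff.1 hs.1).le
  rw [lt_div_iff₀ hρ] at hk
  rw [pow_succ]
  nlinarith [mul_pos (pow_pos (show (0 : ℝ) < 7 / 8 by norm_num) k) hρ]

theorem t1312_bd {φ : ℂ → ℂ} {δ C : ℝ} {N : ℕ}
    (h : ∀ s ∈ ball (0 : ℂ) δ \ {0}, ‖φ s‖ * ‖s‖ ^ N ≤ C) {s y : ℂ} (hs : s ≠ 0)
    (h1 : ‖s‖ / 2 ≤ ‖y‖) (h2 : ‖y‖ < δ) : ‖φ y‖ ≤ C * 2 ^ N / ‖s‖ ^ N := by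
  have hpos : 0 < ‖s‖ := norm_pos_iff.2 hs
  have h3 := h y ⟨mem_ball_zero_iff.2 h2, norm_pos_iff.1 (by linarith)⟩
  rw [le_div_iff₀ (by positivity)]
  have h4 : ‖s‖ ^ N ≤ ‖y‖ ^ N * 2 ^ N := by
    rw [← mul_pow]
    exact pow_le_pow_left₀ hpos.le (by linarith) N
  calc ‖φ y‖ * ‖s‖ ^ N ≤ ‖φ y‖ * (‖y‖ ^ N * 2 ^ N) := by gcongr
    _ = ‖φ y‖ * ‖y‖ ^ N * 2 ^ N := by ring
    _ ≤ C * 2 ^ N := by gcongr

theorem t1312_near {s y : ℂ} {t : ℝ} (h : ‖y - s‖ ≤ t) : ‖s‖ - t ≤ ‖y‖ ∧ ‖y‖ ≤ ‖s‖ + t := by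
  have := abs_le.1 ((abs_norm_sub_norm_le y s).trans h)
  constructor <;> linarith [this.1, this.2]

theorem mero_of_ode {G φ : ℂ → ℂ} {δ : ℝ} (hδ : 0 < δ)
    (hG : DifferentiableOn ℂ G (ball 0 δ \ {0})) (hφ : MeromorphicAt φ 0)
    (h : ∀ s ∈ ball (0 : ℂ) δ \ {0}, deriv G s ^ 2 = φ s * G s) : MeromorphicAt G 0 := by
  obtain ⟨δ', C, N, hδ', hC⟩ := growth_of_mero hφ
  refine t1312_iter (r := min 1 (min δ δ' / 2)) (B := C * 2 ^ N) (N := N) hδ (by positivity) hG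
    fun s hs hr => ?_
  have hpos : 0 < ‖s‖ := norm_pos_iff.2 hs
  have r1 := hr.trans_le (min_le_left _ _)
  have r2 := hr.trans_le (min_le_right _ _)
  have r3 := min_le_left δ δ'
  have r4 := min_le_right δ δ'
  have hin : ∀ y ∈ closedBall s (‖s‖ / 7), y ∈ ball (0 : ℂ) δ \ {0} ∧
      ‖φ y‖ ≤ C * 2 ^ N / ‖s‖ ^ N := fun y hy => by
    obtain ⟨n1, n2⟩ := t1312_near (mem_closedBall_iff_norm.1 hy)
    exact ⟨⟨mem_ball_zero_iff.2 (by linarith), norm_pos_iff.1 (by linarith)⟩,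
      t1312_bd hC hs (by linarith) (by linarith)⟩
  have hs' : s ∈ closedBall s (‖s‖ / 7) := mem_closedBall_self (by positivity)
  have hop : IsOpen (ball (0 : ℂ) δ \ {0}) := isOpen_ball.sdiff isClosed_singleton
  have := t39_gron (G := G) (x := s) (y₀ := 8 / 7 * s) (s := ‖s‖ / 7) (K := C * 2 ^ N / ‖s‖ ^ N)
    (m := ‖G (8 / 7 * s)‖) (by linarith) ((norm_nonneg _).trans (hin s hs').2)
    (fun y hy => hG.differentiableAt (hop.mem_nhds (hin y hy).1))
    (fun y hy => by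
      rw [← norm_pow, h y (hin y hy).1, norm_mul]
      exact mul_le_mul_of_nonneg_right (hin y hy).2 (norm_nonneg _))
    (by
      rw [mem_closedBall_iff_norm, show (8 / 7 : ℂ) * s - s = 1 / 7 * s by ring, norm_mul]
      norm_num
      linarith) le_rfl s hs'
  have e := mul_le_mul_of_nonneg_right this (show 0 ≤ ‖s‖ ^ N by positivity)
  rwa [add_mul, div_mul_cancel₀ _ (by positivity)] at e

theorem mero_of_re {A H : ℂ → ℂ} {δ : ℝ} (hδ : 0 < δ)
    (hA : DifferentiableOn ℂ A (ball 0 δ \ {0})) (hH : MeromorphicAt H 0)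
    (h : ∀ s ∈ ball (0 : ℂ) δ \ {0}, -‖H s‖ ≤ (A s).re) : MeromorphicAt A 0 := by
  obtain ⟨δ', C, N, hδ', hC⟩ := growth_of_mero hH
  refine t1312_iter (r := min δ δ' / 2) (B := 3 * (C * 2 ^ N)) (N := N) hδ (by positivity) hA
    fun s hs hr => ?_
  have hpos : 0 < ‖s‖ := norm_pos_iff.2 hs
  have r3 := min_le_left δ δ'
  have r4 := min_le_right δ δ'
  have hn : ‖(8 / 7 : ℂ) * s‖ = 8 / 7 * ‖s‖ := by
    rw [norm_mul]
    norm_num
  set K : ℝ := C * 2 ^ N / ‖s‖ ^ N with hK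
  have hin : ∀ y ∈ ball (8 / 7 * s) (4 / 7 * ‖s‖), y ∈ ball (0 : ℂ) δ \ {0} ∧ ‖H y‖ ≤ K :=
    fun y hy => by
      obtain ⟨n1, n2⟩ := t1312_near (mem_ball_iff_norm.1 hy).le
      rw [hn] at n1 n2
      exact ⟨⟨mem_ball_zero_iff.2 (by linarith), norm_pos_iff.1 (by linarith)⟩,
        t1312_bd hC hs (by linarith) (by linarith)⟩
  have hd : ‖s - 8 / 7 * s‖ = 1 / 7 * ‖s‖ := by
    rw [show s - (8 / 7 : ℂ) * s = -(1 / 7) * s by ring, norm_mul, norm_neg]
    norm_num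
  have hs' : s ∈ ball (8 / 7 * s) (4 / 7 * ‖s‖) := by
    rw [mem_ball_iff_norm, hd]
    linarith
  have hK0 : 0 ≤ K := (norm_nonneg _).trans (hin s hs').2
  have := harnack (P := fun y => A y + K) ((hA.mono fun y hy => (hin y hy).1).add_const _)
    (fun y hy => by
      have := h y (hin y hy).1
      have := (hin y hy).2
      simp only [Complex.add_re, Complex.ofReal_re]
      linarith) hs'
  rw [hd] at this
  have n1 : ‖A s‖ ≤ ‖A s + K‖ + K := by
    have := norm_sub_le (A s + K) (K : ℂ)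
    rwa [add_sub_cancel_right, Complex.norm_real, Real.norm_of_nonneg hK0] at this
  have n2 : ‖A (8 / 7 * s) + K‖ ≤ ‖A (8 / 7 * s)‖ + K := by
    have := norm_add_le (A (8 / 7 * s)) (K : ℂ)
    rwa [Complex.norm_real, Real.norm_of_nonneg hK0] at this
  have n3 : 3 * ‖A s + K‖ ≤ 5 * ‖A (8 / 7 * s) + K‖ := by
    refine le_of_mul_le_mul_left ?_ (show 0 < 1 / 7 * ‖s‖ by positivity)
    linarith
  have n4 : ‖A s‖ ≤ 2 * ‖A (8 / 7 * s)‖ + 3 * K := by linarith [norm_nonneg (A (8 / 7 * s))]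
  have e := mul_le_mul_of_nonneg_right n4 (show 0 ≤ ‖s‖ ^ N by positivity)
  rwa [add_mul, mul_assoc 3 K, hK, div_mul_cancel₀ _ (by positivity)] at e

/-- Leading term and logarithmic derivative of a meromorphic germ that does not vanish. -/
theorem t1313_lead {f : ℂ → ℂ} (hf : MeromorphicAt f 0) (h : meromorphicOrderAt f 0 ≠ ⊤) :
    ∃ (n : ℤ) (κ : ℂ), κ ≠ 0 ∧ Tendsto (fun s => f s / s ^ n) (𝓝[≠] 0) (𝓝 κ) ∧
      Tendsto (fun s => s * deriv f s / f s) (𝓝[≠] 0) (𝓝 n) := by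
  obtain ⟨n, hn⟩ := WithTop.ne_top_iff_exists.1 h
  obtain ⟨g, g1, g2, g3⟩ := (meromorphicOrderAt_eq_int_iff hf).1 hn.symm
  simp only [sub_zero, smul_eq_mul] at g3
  have gc : Tendsto g (𝓝[≠] 0) (𝓝 (g 0)) := g1.continuousAt.continuousWithinAt.tendsto
  refine ⟨n, g 0, g2, gc.congr' ?_, ?_⟩
  · filter_upwards [g3, self_mem_nhdsWithin] with s e hs
    rw [e, mul_div_cancel_left₀ _ (zpow_ne_zero n hs)]
  · have d3 : deriv f =ᶠ[𝓝[≠] 0] deriv fun z => z ^ n * g z := EventuallyEq.nhdsNE_deriv g3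
    have t0 : Tendsto (fun s : ℂ => s) (𝓝[≠] 0) (𝓝 0) := tendsto_id.mono_left nhdsWithin_le_nhds
    have dc : Tendsto (deriv g) (𝓝[≠] 0) (𝓝 (deriv g 0)) :=
      g1.deriv.continuousAt.continuousWithinAt.tendsto
    have t1 := ((t0.mul dc).div gc g2).const_add (n : ℂ)
    rw [zero_mul, zero_div, add_zero] at t1
    refine t1.congr' ?_
    filter_upwards [g3, d3, self_mem_nhdsWithin, gc.eventually_ne g2,
      g1.eventually_analyticAt.filter_mono nhdsWithin_le_nhds] with s e d hs hg ha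
    have hs' : s ≠ 0 := hs
    have hd := ((hasDerivAt_zpow n s (Or.inl hs')).mul ha.differentiableAt.hasDerivAt).deriv
    have hz := zpow_ne_zero n hs'
    rw [e, d]
    change _ = s * deriv ((fun z : ℂ => z ^ n) * g) s / _
    rw [hd, zpow_sub_one₀ hs']
    simp only [Pi.div_apply]
    field_simp

theorem t1313_mem {δ : ℝ} (hδ : 0 < δ) : ball (0 : ℂ) δ \ {0} ∈ 𝓝[≠] (0 : ℂ) :=
  sdiff_mem_nhdsWithin_compl (ball_mem_nhds 0 hδ) _

/-- The vector field is meromorphic. -/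
theorem t1313_mero {R w : ℂ → ℂ} {δ C : ℝ} {c u : ℂ} (hδ : 0 < δ) (hc : c ≠ 0) (hu : u ≠ 0)
    (hR : DifferentiableOn ℂ R (ball 0 δ \ {0})) (hw : DifferentiableOn ℂ w (ball 0 δ \ {0}))
    (hR0 : ∀ s ∈ ball (0 : ℂ) δ \ {0}, R s ≠ 0) (hm : MeromorphicAt R 0)
    (h : ∀ s ∈ ball (0 : ℂ) δ \ {0},
      -(C / ‖R s‖) ≤ (u * (c * s * (2 * deriv w s + w s * deriv R s / R s))).re) :
    MeromorphicAt w 0 := by
  have ho : IsOpen (ball (0 : ℂ) δ \ {0}) := isOpen_ball.sdiff isClosed_singleton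
  have hR' := hR.deriv ho
  have hw' := hw.deriv ho
  have hA : MeromorphicAt (fun s => u * (c * s * (2 * deriv w s + w s * deriv R s / R s))) 0 := by
    refine mero_of_re (H := fun s => (C : ℂ) / R s) hδ ?_ ((MeromorphicAt.const _ _).div hm) ?_
    · exact ((differentiableOn_id.const_mul c).mul
        ((hw'.const_mul 2).add ((hw.mul hR').div hR hR0))).const_mul u
    · intro s hs
      refine le_trans (neg_le_neg ?_) (h s hs)
      rw [norm_div, Complex.norm_real]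
      exact div_le_div_of_nonneg_right (le_abs_self C) (norm_nonneg _)
  have hG : MeromorphicAt (fun s => w s ^ 2 * R s) 0 := by
    refine mero_of_ode (φ := fun s =>
      (u * (c * s * (2 * deriv w s + w s * deriv R s / R s))) ^ 2 * R s / (u * c * s) ^ 2) hδ
      ((hw.pow 2).mul hR) (((hA.pow 2).mul hm).div
        (((MeromorphicAt.const (u * c) _).mul (MeromorphicAt.id _)).pow 2)) ?_
    intro s hs
    have d1 := (hw.differentiableAt (ho.mem_nhds hs)).hasDerivAt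
    have d2 := (hR.differentiableAt (ho.mem_nhds hs)).hasDerivAt
    have hs0 : s ≠ 0 := hs.2
    have hRs := hR0 s hs
    have hd : deriv (fun s => w s ^ 2 * R s) s = 2 * w s * deriv w s * R s + w s ^ 2 * deriv R s := by
      have := ((d1.fun_pow 2).fun_mul d2).deriv
      simpa using this
    rw [hd]
    field_simp
  have hw2 : MeromorphicAt (fun s => w s ^ 2) 0 := by
    refine (hG.div hm).congr ?_
    filter_upwards [t1313_mem hδ] with s hs
    exact mul_div_cancel_right₀ _ (hR0 s hs)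
  obtain ⟨δ', C', N, hδ', hg⟩ := growth_of_mero hw2
  refine mero_of_growth (δ := min (min δ δ') 1) (C := 1 + C') (N := N) (by positivity)
    (hw.mono (sdiff_subset_sdiff_left (ball_subset_ball ((min_le_left _ _).trans (min_le_left _ _)))))
    fun s hs => ?_
  have h1 := hg s ⟨ball_subset_ball ((min_le_left _ _).trans (min_le_right _ _)) hs.1, hs.2⟩
  have h2 : ‖s‖ ^ N ≤ 1 :=
    pow_le_one₀ (norm_nonneg _) ((mem_ball_zero_iff.1 hs.1).le.trans (min_le_right _ _))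
  have h3 : 0 ≤ ‖s‖ ^ N := by positivity
  rw [norm_pow] at h1
  have h4 : ‖w s‖ ≤ 1 + ‖w s‖ ^ 2 := by nlinarith [sq_nonneg (‖w s‖ - 1), norm_nonneg (w s)]
  nlinarith [mul_le_mul_of_nonneg_right h4 h3]

/-- A one-sided bound on the real part bounds the order. -/
theorem t1313_ord {A R : ℂ → ℂ} {C : ℝ} {a κ : ℂ} {i j : ℤ} (hi : i < 0) (ha : a ≠ 0) (hκ : κ ≠ 0)
    (hA : Tendsto (fun s => A s / s ^ i) (𝓝[≠] 0) (𝓝 a))
    (hR : Tendsto (fun s => R s / s ^ j) (𝓝[≠] 0) (𝓝 κ))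
    (h : ∀ᶠ s in 𝓝[≠] (0 : ℂ), -(C / ‖R s‖) ≤ (A s).re) : 0 ≤ i + j := by
  by_contra hij
  obtain ⟨n, hn⟩ : ∃ n : ℕ, i = -(n : ℤ) := ⟨(-i).toNat, by omega⟩
  obtain ⟨m, hm⟩ : ∃ m : ℕ, j = n - (m + 1 : ℕ) := ⟨(-(i + j) - 1).toNat, by omega⟩
  obtain ⟨ζ, hζ⟩ := IsAlgClosed.exists_pow_nat_eq (-a) (show 0 < n by omega)
  have hζ0 : ζ ≠ 0 := by
    rintro rfl
    rw [zero_pow (by omega)] at hζ
    exact ha (neg_eq_zero.1 hζ.symm)
  have t0 : Tendsto (fun r : ℝ => (r : ℂ) * ζ) (𝓝[>] 0) (𝓝[≠] 0) := by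
    refine tendsto_nhdsWithin_iff.2 ⟨?_, ?_⟩
    · have : Continuous fun r : ℝ => (r : ℂ) * ζ := by fun_prop
      simpa using (this.tendsto 0).mono_left nhdsWithin_le_nhds
    · filter_upwards [self_mem_nhdsWithin] with r hr
      exact mul_ne_zero (Complex.ofReal_ne_zero.2 (ne_of_gt hr)) hζ0
  have t1 := (Complex.continuous_re.tendsto _).comp ((hA.comp t0).div_const (-a))
  have t2 : Tendsto (fun r : ℝ => r ^ (m + 1)) (𝓝[>] 0) (𝓝 0) := by
    have : Continuous fun r : ℝ => r ^ (m + 1) := by fun_prop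
    simpa using (this.tendsto 0).mono_left nhdsWithin_le_nhds
  have t3 := ((t2.const_mul (C / ‖ζ ^ j‖)).div (hR.comp t0).norm (norm_ne_zero_iff.2 hκ)).neg
  have := le_of_tendsto_of_tendsto t3 t1 (by
    filter_upwards [t0.eventually h, self_mem_nhdsWithin] with r h1 hr
    have hr' : 0 < r := hr
    have hrc : (r : ℂ) ≠ 0 := Complex.ofReal_ne_zero.2 hr'.ne'
    have e1 : A (r * ζ) / (r * ζ) ^ i / -a = ((r ^ n : ℝ) : ℂ) * A (r * ζ) := by
      rw [hn, zpow_neg, zpow_natCast, mul_pow, hζ]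
      push_cast
      field_simp
    have e2 : C / ‖ζ ^ j‖ * r ^ (m + 1) / ‖R (r * ζ) / (r * ζ) ^ j‖ = r ^ n * (C / ‖R (r * ζ)‖) := by
      have hz : ‖ζ ^ j‖ ≠ 0 := norm_ne_zero_iff.2 (zpow_ne_zero j hζ0)
      have e3 : ‖(r : ℂ) ^ j‖ = r ^ n / r ^ (m + 1) := by
        rw [norm_zpow, Complex.norm_real, Real.norm_of_nonneg hr'.le, hm, zpow_sub₀ hr'.ne',
          zpow_natCast, zpow_natCast]
      rw [mul_zpow, norm_div, norm_mul, e3]
      by_cases hR0 : ‖R (r * ζ)‖ = 0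
      · simp [hR0]
      · field_simp
    simp only [Function.comp, Pi.div_apply]
    rw [e1, e2, Complex.re_ofReal_mul, ← mul_neg]
    exact mul_le_mul_of_nonneg_left h1 (by positivity))
  rw [div_neg, div_self ha] at this
  simp at this
  linarith

/-- A vector field and a quadratic differential at an end of a cylinder. -/
theorem end_lemma {R w : ℂ → ℂ} {δ C : ℝ} {c u : ℂ} (hδ : 0 < δ) (hc : c ≠ 0) (hu : u ≠ 0)
    (hR : DifferentiableOn ℂ R (ball 0 δ \ {0})) (hw : DifferentiableOn ℂ w (ball 0 δ \ {0}))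
    (hR0 : ∀ s ∈ ball (0 : ℂ) δ \ {0}, R s ≠ 0) (hm : MeromorphicAt R 0)
    (h : ∀ s ∈ ball (0 : ℂ) δ \ {0},
      -(C / ‖R s‖) ≤ (u * (c * s * (2 * deriv w s + w s * deriv R s / R s))).re) :
    ∃ (j : ℤ) (κ : ℂ), κ ≠ 0 ∧ Tendsto (fun s => R s / s ^ j) (𝓝[≠] 0) (𝓝 κ) ∧
      ((∃ M : ℝ, ∀ᶠ s in 𝓝[≠] (0 : ℂ), ‖w s‖ ≤ M) ∨ (j ≠ 0 ∧ ∃ β : ℂ,
        Tendsto (fun s => c * s * (2 * deriv w s * R s + w s * deriv R s)) (𝓝[≠] 0) (𝓝 β))) := by
  have hwm := t1313_mero hδ hc hu hR hw hR0 hm h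
  have hU := t1313_mem hδ
  obtain ⟨j, κ, hκ, r1, r2⟩ := t1313_lead hm
    ((meromorphicOrderAt_ne_top_iff_eventually_ne_zero hm).2 (mem_of_superset hU hR0))
  refine ⟨j, κ, hκ, r1, ?_⟩
  by_cases ht : meromorphicOrderAt w 0 = ⊤
  · exact Or.inl ⟨0, (meromorphicOrderAt_eq_top_iff.1 ht).mono fun s hs => by simp [hs]⟩
  obtain ⟨i, a, ha, w1, w2⟩ := t1313_lead hwm ht
  have hw0 := (meromorphicOrderAt_ne_top_iff_eventually_ne_zero hwm).1 ht
  have tp : ∀ n : ℕ, Tendsto (fun s : ℂ => s ^ n) (𝓝[≠] 0) (𝓝 (0 ^ n)) := fun n =>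
    ((continuous_pow n).tendsto 0).mono_left nhdsWithin_le_nhds
  rcases le_or_gt 0 i with hi | hi
  · left
    lift i to ℕ using hi
    have t := (w1.mul (tp i)).norm
    refine ⟨‖a * 0 ^ i‖ + 1, ?_⟩
    filter_upwards [t.eventually_le_const (lt_add_one _), self_mem_nhdsWithin] with s h1 hs
    rwa [zpow_natCast, div_mul_cancel₀ _ (pow_ne_zero i hs)] at h1
  right
  have hL := (w2.const_mul 2).add r2
  have hij : 0 ≤ i + j := by
    by_cases h2 : 2 * i + j = 0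
    · omega
    refine t1313_ord (C := C) (a := u * c * a * (2 * i + j))
      (A := fun s => u * (c * s * (2 * deriv w s + w s * deriv R s / R s))) hi
      (mul_ne_zero (mul_ne_zero (mul_ne_zero hu hc) ha) (by exact_mod_cast h2)) hκ ?_ r1
      (mem_of_superset hU h)
    have t := (w1.const_mul (u * c)).mul hL
    refine t.congr' ?_
    filter_upwards [hw0, hU] with s h1 hs
    have := hR0 s hs
    have hz : s ^ i ≠ 0 := zpow_ne_zero i hs.2
    field_simp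
  obtain ⟨n, hn⟩ : ∃ n : ℕ, i + j = n := ⟨(i + j).toNat, by omega⟩
  refine ⟨by omega, _, ((((w1.mul r1).mul (tp n)).mul hL).const_mul c).congr' ?_⟩
  filter_upwards [hw0, hU] with s h1 hs
  have := hR0 s hs
  have hs0 : s ≠ 0 := hs.2
  have hz : s ^ i ≠ 0 := zpow_ne_zero i hs0
  have hz' : s ^ j ≠ 0 := zpow_ne_zero j hs0
  rw [← zpow_natCast, ← hn, zpow_add₀ hs0]
  field_simp

end Pool.Agent.MP_28f8a1_an.H42

end

-- part MP_28f8a1_an.H42.Sym
section

/-! Entire vector fields that look the same from each of their zeros. -/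

set_option autoImplicit false

namespace Pool.Agent.MP_28f8a1_an.H42

open MeasureTheory Metric Set Real Filter Topology Polynomial
open scoped ENNReal

theorem t78_hom {W : ℂ → ℂ}
    (hs : ∀ x, W x = 0 → ∃ μ : ℂ, μ ≠ 0 ∧ ∀ y, W (x + μ * y) = μ * W y)
    {x μ : ℂ} (hμ : μ ≠ 1) (h : ∀ y, W (x + μ * y) = μ * W y) (y : ℂ) :
    W (μ * y) = μ * W y := by
  have h1 : (1 - μ) ≠ 0 := sub_ne_zero.mpr (Ne.symm hμ)
  have hfix : x + μ * (x / (1 - μ)) = x / (1 - μ) := by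
    field_simp
    ring
  have hz : W (x / (1 - μ)) = 0 := by
    have h2 := h (x / (1 - μ))
    rw [hfix] at h2
    have h3 : (1 - μ) * W (x / (1 - μ)) = 0 := by linear_combination h2
    exact (mul_eq_zero.mp h3).resolve_left h1
  obtain ⟨ν, hν, hy⟩ := hs _ hz
  have h2 := h (x / (1 - μ) + ν * y)
  have h3 : x + μ * (x / (1 - μ) + ν * y) = x / (1 - μ) + ν * (μ * y) := by
    linear_combination hfix
  rw [h3, hy, hy] at h2
  apply mul_left_cancel₀ hν
  linear_combination h2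

theorem t78_per {W : ℂ → ℂ}
    (hs : ∀ x, W x = 0 → ∃ μ : ℂ, μ ≠ 0 ∧ ∀ y, W (x + μ * y) = μ * W y)
    {x : ℂ} (hx : W x = 0) : Function.Periodic W x := by
  obtain ⟨μ, hμ, h⟩ := hs x hx
  intro z
  by_cases h1 : μ = 1
  · have h2 := h z
    rw [h1, one_mul, one_mul, add_comm] at h2
    exact h2
  · have h2 := h (z / μ)
    rw [← t78_hom hs h1 h, mul_div_cancel₀ _ hμ, add_comm] at h2
    exact h2

theorem t78_iso {W : ℂ → ℂ} (hW : Differentiable ℂ W) (h1 : deriv W 0 = 1) :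
    ∃ δ > 0, ∀ z : ℂ, z ≠ 0 → W z = 0 → δ ≤ ‖z‖ := by
  have hd : HasDerivAt W 1 0 := h1 ▸ (hW 0).hasDerivAt
  have h2 := hd.eventually_ne (c := 0) one_ne_zero
  rw [eventually_nhdsWithin_iff, Metric.eventually_nhds_iff] at h2
  obtain ⟨δ, hδ, h3⟩ := h2
  refine ⟨δ, hδ, fun z hz hw => ?_⟩
  by_contra hc
  exact h3 (y := z) (by simpa using hc) hz hw

theorem t78_two {W : ℂ → ℂ} (hW : Differentiable ℂ W) {g c : ℂ} (hg : g ≠ 0)
    (hc : c.im ≠ 0) (pg : Function.Periodic W g) (pc : Function.Periodic W (c * g)) :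
    deriv W 0 = 0 := by
  obtain ⟨M, hM⟩ := (isCompact_closedBall (0 : ℂ) (‖g‖ + ‖c * g‖)).exists_bound_of_continuousOn
    hW.continuous.continuousOn
  have hb : Bornology.IsBounded (range W) := by
    rw [isBounded_iff_forall_norm_le]
    refine ⟨M, ?_⟩
    rintro _ ⟨y, rfl⟩
    obtain ⟨t, ht⟩ : ∃ t : ℝ, t = (y / g).im / c.im := ⟨_, rfl⟩
    obtain ⟨s, hs⟩ : ∃ s : ℝ, s = (y / g).re - t * c.re := ⟨_, rfl⟩
    have hy : y / g = s + t * c := by
      apply Complex.ext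
      · simp [hs]
      · simp only [Complex.add_im, Complex.ofReal_im, Complex.mul_im, Complex.ofReal_re, zero_mul,
          add_zero, zero_add, ht]
        field_simp
    have hy2 : y = s * g + t * (c * g) := by
      rw [div_eq_iff hg] at hy
      rw [hy]
      ring
    have e : W y = W ((Int.fract s : ℝ) * g + (Int.fract t : ℝ) * (c * g)) := by
      have e1 : y = (Int.fract s : ℝ) * g + (Int.fract t : ℝ) * (c * g) + (⌊t⌋ : ℤ) * (c * g)
          + (⌊s⌋ : ℤ) * g := by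
        rw [hy2, Int.fract, Int.fract]
        push_cast
        ring
      exact (congrArg W e1).trans ((pg.int_mul _ _).trans (pc.int_mul _ _))
    rw [e]
    apply hM
    rw [mem_closedBall_zero_iff]
    refine (norm_add_le _ _).trans (add_le_add ?_ ?_)
    · rw [norm_mul, Complex.norm_real, Real.norm_eq_abs, abs_of_nonneg (Int.fract_nonneg s)]
      exact mul_le_of_le_one_left (norm_nonneg _) (Int.fract_lt_one s).le
    · rw [norm_mul, Complex.norm_real, Real.norm_eq_abs, abs_of_nonneg (Int.fract_nonneg t)]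
      exact mul_le_of_le_one_left (norm_nonneg _) (Int.fract_lt_one t).le
  obtain ⟨a, ha⟩ := hW.exists_eq_const_of_bounded hb
  rw [ha]
  exact deriv_const _ _

/-- The zeros form an infinite cyclic group of periods, and all affine symmetries are
translations. -/
theorem sym_periodic {W : ℂ → ℂ} (hW : Differentiable ℂ W) (h0 : W 0 = 0) (h1 : deriv W 0 = 1)
    (hs : ∀ x, W x = 0 → ∃ μ : ℂ, μ ≠ 0 ∧ ∀ y, W (x + μ * y) = μ * W y)
    (hx : ∃ x, x ≠ 0 ∧ W x = 0) :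
    ∃ g : ℂ, g ≠ 0 ∧ (∀ y, W (y + g) = W y) ∧ (∀ x, W x = 0 ↔ ∃ m : ℤ, x = m * g) ∧
      ∀ x μ : ℂ, μ ≠ 0 → (∀ y, W (x + μ * y) = μ * W y) → μ = 1 := by
  obtain ⟨δ, hδ, hiso⟩ := t78_iso hW h1
  obtain ⟨x₀, hx₀, hw₀⟩ := hx
  have hK : IsCompact (closedBall (0 : ℂ) ‖x₀‖ ∩ ({z | δ ≤ ‖z‖} ∩ {z | W z = 0})) :=
    (isCompact_closedBall _ _).inter_right
      ((isClosed_le continuous_const continuous_norm).inter
        (isClosed_eq hW.continuous continuous_const))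
  obtain ⟨g, ⟨hg1, hg2, hg3⟩, hmin⟩ := hK.exists_isMinOn
    ⟨x₀, by simp, hiso _ hx₀ hw₀, hw₀⟩ continuous_norm.continuousOn
  have hg1' : ‖g‖ ≤ ‖x₀‖ := by simpa using hg1
  have hg2' : δ ≤ ‖g‖ := hg2
  have hg3' : W g = 0 := hg3
  have hg : g ≠ 0 := by
    rintro rfl
    simp at hg2'
    linarith
  have hsm : ∀ z : ℂ, W z = 0 → ‖z‖ < ‖g‖ → z = 0 := by
    intro z hz hlt
    by_contra hne
    have h2 : ‖g‖ ≤ ‖z‖ := hmin ⟨by simpa using hlt.le.trans hg1', hiso z hne hz, hz⟩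
    linarith
  have pg : Function.Periodic W g := t78_per hs hg3'
  have hz : ∀ x, W x = 0 ↔ ∃ m : ℤ, x = m * g := by
    intro x
    constructor
    · intro hx
      have px : Function.Periodic W (x / g * g) := by
        rw [div_mul_cancel₀ _ hg]
        exact t78_per hs hx
      have him : (x / g).im = 0 := by
        by_contra hc
        have h2 := t78_two hW hg hc pg px
        rw [h1] at h2
        exact one_ne_zero h2
      obtain ⟨a, ha⟩ : ∃ a : ℝ, x = a * g := by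
        refine ⟨(x / g).re, ?_⟩
        have h2 : x / g = ((x / g).re : ℝ) := by
          apply Complex.ext <;> simp [him]
        rw [← h2, div_mul_cancel₀ _ hg]
      have e1 : x = (Int.fract a : ℝ) * g + (⌊a⌋ : ℤ) * g := by
        rw [ha, Int.fract]
        push_cast
        ring
      have h2 : W ((Int.fract a : ℝ) * g) = 0 := by
        rw [← pg.int_mul ⌊a⌋, ← e1]
        exact hx
      have h3 := hsm _ h2 (by
        rw [norm_mul, Complex.norm_real, Real.norm_eq_abs, abs_of_nonneg (Int.fract_nonneg a)]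
        exact mul_lt_of_lt_one_left (norm_pos_iff.mpr hg) (Int.fract_lt_one a))
      refine ⟨⌊a⌋, ?_⟩
      rw [h3, zero_add] at e1
      exact e1
    · rintro ⟨m, rfl⟩
      have h2 := pg.int_mul m 0
      rw [zero_add] at h2
      rw [h2, h0]
  refine ⟨g, hg, pg, hz, fun x μ hμ h => ?_⟩
  by_contra hne
  have hh := t78_hom hs hne h
  obtain ⟨m, hm⟩ := (hz (μ * g)).mp (by rw [hh, hg3', mul_zero])
  obtain ⟨n, hn⟩ := (hz (g / μ)).mp (by
    have h2 := hh (g / μ)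
    rw [mul_div_cancel₀ _ hμ, hg3'] at h2
    exact (mul_eq_zero.mp h2.symm).resolve_left hμ)
  have hm' : μ = m := mul_right_cancel₀ hg hm
  have hmn : m * n = 1 := by
    have h2 : ((m * n : ℤ) : ℂ) * g = 1 * g := by
      rw [div_eq_iff hμ] at hn
      push_cast
      rw [← hm']
      linear_combination -hn
    exact_mod_cast mul_right_cancel₀ hg h2
  have hm1 : m = -1 := by
    rcases Int.eq_one_or_neg_one_of_mul_eq_one hmn with h2 | h2
    · exact absurd (by rw [hm', h2]; simp) hne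
    · exact h2
  have hμ1 : μ = -1 := by
    rw [hm', hm1]
    simp
  have h2 := hh (g / 2)
  have h3 := pg (μ * (g / 2))
  have h4 : μ * (g / 2) + g = g / 2 := by
    rw [hμ1]
    ring
  rw [h4, h2, hμ1] at h3
  obtain ⟨k, hk⟩ := (hz (g / 2)).mp (by linear_combination h3 / 2)
  have h5 : ((2 * k : ℤ) : ℂ) * g = 1 * g := by
    push_cast
    linear_combination -2 * hk
  have h6 : 2 * k = 1 := by exact_mod_cast mul_right_cancel₀ hg h5
  omega

/-- Behaviour of a periodic entire function in a half-plane: either it leaves given bounds at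
some point, or it is close to a non-zero constant far out. -/
theorem half_plane {V : ℂ → ℂ} (hV : Differentiable ℂ V) (hp : ∀ y, V (y + 1) = V y)
    {m M : ℝ} (hm : 0 < m) {s : ℝ} (hs : s = 1 ∨ s = -1) :
    (∃ y : ℂ, 0 ≤ y.re ∧ y.re ≤ 1 ∧ 2 ≤ s * y.im ∧ (‖V y‖ < m ∨ M < ‖V y‖)) ∨
      ∃ a : ℂ, a ≠ 0 ∧ ∃ T : ℝ, ∀ y : ℂ, T ≤ s * y.im → ‖V y - a‖ ≤ ‖a‖ / 4 := by
  refine or_iff_not_imp_left.2 fun hn => ?_
  push Not at hn
  have hP : Function.Periodic V (1 : ℂ) := hp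
  have hb : ∀ y : ℂ, 2 ≤ s * y.im → m ≤ ‖V y‖ ∧ ‖V y‖ ≤ M := fun y hy => by
    have e : V (y - (⌊y.re⌋ : ℤ) * 1) = V y := (hP.int_mul ⌊y.re⌋).sub_eq y
    rw [← e]
    refine hn _ ?_ ?_ ?_
    · simp
    · simpa using (Int.fract_lt_one y.re).le
    · simpa using hy
  have hss : s * s = 1 := by rcases hs with rfl | rfl <;> norm_num
  have hss' : (s : ℂ) * s = 1 := by exact_mod_cast hss
  have hf : Function.Periodic (fun y : ℂ => V (s * y)) ((1 : ℝ) : ℂ) := fun y => by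
    rcases hs with rfl | rfl
    · simpa using hp y
    · have := hp (-(y + 1))
      simp only [Complex.ofReal_neg, Complex.ofReal_one, neg_mul, one_mul]
      rw [← this]
      congr 1
      ring
  have hev : ∀ᶠ y in comap Complex.im atTop, m ≤ ‖V (s * y)‖ ∧ ‖V (s * y)‖ ≤ M := by
    filter_upwards [preimage_mem_comap (Ici_mem_atTop (2 : ℝ))] with y hy
    refine hb _ ?_
    rw [Complex.im_ofReal_mul, ← mul_assoc, hss, one_mul]
    exact hy
  have hlim := Function.Periodic.tendsto_at_I_inf one_pos hf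
    (Eventually.of_forall fun z => (hV _).comp z (by fun_prop))
    (Asymptotics.IsBigO.of_bound M (hev.mono fun y hy => by simpa using hy.2))
  generalize Function.Periodic.cuspFunction 1 (fun y : ℂ => V (s * y)) 0 = a at hlim
  have : (comap Complex.im atTop).NeBot :=
    (inferInstance : (atTop : Filter ℝ).NeBot).comap_of_surj Complex.im_surjective
  have ha : m ≤ ‖a‖ := ge_of_tendsto hlim.norm (hev.mono fun y hy => hy.1)
  have ha0 : 0 < ‖a‖ := hm.trans_le ha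
  refine ⟨a, norm_pos_iff.1 ha0, ?_⟩
  have h4 := Metric.tendsto_nhds.1 hlim (‖a‖ / 4) (by positivity)
  obtain ⟨T, hT⟩ := eventually_atTop.1 (eventually_comap.1 h4)
  refine ⟨T, fun y hy => ?_⟩
  have h5 := hT _ hy (s * y) (Complex.im_ofReal_mul _ _)
  rw [← mul_assoc, hss', one_mul, dist_eq_norm] at h5
  exact h5.le

/-- Hurwitz, existence of zeros. -/
theorem hurwitz_zero {W : ℂ → ℂ} (hW : Differentiable ℂ W) (h1 : deriv W 0 = 1) {x : ℂ}
    (hx : W x = 0) {ε : ℝ} (hε : 0 < ε) : ∃ η > 0, ∀ w : ℂ → ℂ, Differentiable ℂ w →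
      (∀ y ∈ ball (0 : ℂ) (‖x‖ + 2), ‖w y - W y‖ ≤ η) → ∃ y ∈ ball x ε, w y = 0 := by
  have hA : AnalyticOnNhd ℂ W univ := fun z _ => hW.analyticAt z
  have h1' : ∀ᶠ z in 𝓝[≠] x, W z ≠ 0 :=
    (hA x trivial).eventually_eq_zero_or_eventually_ne_zero.resolve_left fun h => by
      have e : W = 0 := funext fun z =>
        hA.eqOn_zero_of_preconnected_of_eventuallyEq_zero isPreconnected_univ (mem_univ x) h
          (mem_univ z)
      rw [e] at h1
      simp at h1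
  obtain ⟨δ, hδ, h2⟩ := Metric.eventually_nhds_iff.1 (eventually_nhdsWithin_iff.1 h1')
  obtain ⟨r, hr, h3⟩ := exists_between (lt_min hδ (lt_min hε one_half_pos))
  rw [lt_min_iff, lt_min_iff] at h3
  obtain ⟨w₀, hw₀, hmin⟩ := (isCompact_sphere x r).exists_isMinOn
    (NormedSpace.sphere_nonempty.2 hr.le) hW.continuous.continuousOn.norm
  have hm : 0 < ‖W w₀‖ := norm_pos_iff.2 (h2 ((mem_sphere.1 hw₀).trans_lt h3.1) fun h => by
    rw [mem_singleton_iff.1 h, mem_sphere, dist_self] at hw₀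
    exact hr.ne hw₀)
  have hn : ∀ y ∈ closedBall x r, y ∈ ball (0 : ℂ) (‖x‖ + 2) := fun y hy => by
    have := norm_le_norm_add_norm_sub' y x
    rw [mem_closedBall, dist_eq_norm] at hy
    exact mem_ball_zero_iff.2 (by linarith [h3.2.2])
  refine ⟨‖W w₀‖ / 3, by positivity, fun g hg hc => ?_⟩
  obtain ⟨y, hy, hy0⟩ := t37_zero_of_lt (c := x) hr hg.diffContOnCl fun w hw => by
    have a1 := hc x (hn x (mem_closedBall_self hr.le))
    have a2 := hc w (hn w (sphere_subset_closedBall hw))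
    have a3 : ‖W w₀‖ ≤ ‖W w‖ := hmin hw
    have a4 := norm_sub_norm_le (W w) (g w)
    rw [norm_sub_rev] at a4
    rw [hx, sub_zero] at a1
    linarith
  exact ⟨y, ball_subset_ball h3.2.1.le hy, hy0⟩

theorem t1279_lim {l : Filter ℕ} {G : ℂ → ℂ} (hG : Continuous G) {F : ℕ → ℂ → ℂ}
    (hF : ∀ L η : ℝ, 0 < η → ∀ᶠ n in l, ∀ y ∈ ball (0 : ℂ) L, ‖F n y - G y‖ ≤ η)
    {z : ℕ → ℂ} {z₀ : ℂ} (hz : Tendsto z l (𝓝 z₀)) :
    Tendsto (fun n => F n (z n)) l (𝓝 (G z₀)) := by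
  have h1 : Tendsto (fun n => G (z n)) l (𝓝 (G z₀)) := (hG.tendsto z₀).comp hz
  have h2 : Tendsto (fun n => F n (z n) - G (z n)) l (𝓝 0) := by
    refine Metric.tendsto_nhds.2 fun ε hε => ?_
    have h3 : ∀ᶠ n in l, z n ∈ ball (0 : ℂ) (‖z₀‖ + 1) :=
      hz.eventually (isOpen_ball.mem_nhds (by simp))
    filter_upwards [hF (‖z₀‖ + 1) (ε / 2) (by positivity), h3] with n a1 a2
    rw [dist_zero_right]
    linarith [a1 _ a2]
  simpa using h2.add h1

theorem t1279_deriv {l : Filter ℕ} {G : ℂ → ℂ} (hG : Differentiable ℂ G) {F : ℕ → ℂ → ℂ}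
    (dF : ∀ᶠ n in l, Differentiable ℂ (F n))
    (hF : ∀ L η : ℝ, 0 < η → ∀ᶠ n in l, ∀ y ∈ ball (0 : ℂ) L, ‖F n y - G y‖ ≤ η) (L η : ℝ)
    (hη : 0 < η) : ∀ᶠ n in l, ∀ y ∈ ball (0 : ℂ) L, ‖deriv (F n) y - deriv G y‖ ≤ η := by
  filter_upwards [dF, hF (L + 1) η hη] with n a1 a2 y hy
  have h1 := Complex.norm_deriv_le_of_forall_mem_sphere_norm_le (c := y) one_pos
    (a1.sub hG).diffContOnCl fun z hz => a2 z (by
      have := norm_le_norm_add_norm_sub' z y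
      rw [mem_sphere, dist_eq_norm] at hz
      rw [mem_ball_zero_iff] at hy ⊢
      linarith)
  rwa [deriv_sub (a1 y) (hG y), div_one] at h1

/-- Limits of pairs of charts are affine symmetries. -/
theorem pair_limit {l : Filter ℕ} [l.NeBot] {W : ℂ → ℂ} (hW : Differentiable ℂ W)
    {w w' : ℕ → ℂ → ℂ} (dw : ∀ n, Differentiable ℂ (w n))
    (hw : ∀ L η : ℝ, 0 < η → ∀ᶠ n in l, ∀ y ∈ ball (0 : ℂ) L, ‖w n y - W y‖ ≤ η)
    (hw' : ∀ L η : ℝ, 0 < η → ∀ᶠ n in l, ∀ y ∈ ball (0 : ℂ) L, ‖w' n y - W y‖ ≤ η)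
    {x μ : ℕ → ℂ} {x₀ μ₀ : ℂ} (hx : Tendsto x l (𝓝 x₀)) (hμ : Tendsto μ l (𝓝 μ₀))
    (h : ∀ᶠ n in l, μ n ≠ 0 ∧ ∀ y, w n (x n + μ n * y) = μ n * w' n y)
    (h0 : W 0 = 0) (h1 : deriv W 0 = 1) (hne : ∃ x, x ≠ 0 ∧ W x = 0) :
    μ₀ ≠ 0 ∧ ∀ y, W (x₀ + μ₀ * y) = μ₀ * W y := by
  have hz : ∀ y, Tendsto (fun n => x n + μ n * y) l (𝓝 (x₀ + μ₀ * y)) := fun y =>
    hx.add (hμ.mul_const y)
  refine ⟨fun hμ0 => ?_, fun y => tendsto_nhds_unique_of_eventuallyEq
    (t1279_lim hW.continuous hw (hz y))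
    (hμ.mul (t1279_lim hW.continuous hw' (tendsto_const_nhds (x := y))))
    (h.mono fun n hn => hn.2 y)⟩
  have he : ∀ᶠ n in l, w' n = fun y => (μ n)⁻¹ * w n (x n + μ n * y) :=
    h.mono fun n hn => funext fun y => by
      rw [hn.2, ← mul_assoc, inv_mul_cancel₀ hn.1, one_mul]
  have hd : ∀ n y, HasDerivAt (fun y => (μ n)⁻¹ * w n (x n + μ n * y))
      ((μ n)⁻¹ * (deriv (w n) (x n + μ n * y) * μ n)) y := fun n y =>
    ((dw n _).hasDerivAt.comp y
      (by simpa using ((hasDerivAt_id y).const_mul (μ n)).const_add (x n))).const_mul _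
  have dw' : ∀ᶠ n in l, Differentiable ℂ (w' n) := he.mono fun n hn => by
    rw [hn]
    exact fun y => (hd n y).differentiableAt
  have hc : Continuous (deriv W) := hW.deriv.continuous
  have hk : ∀ y, deriv W (x₀ + μ₀ * y) = deriv W y := fun y =>
    tendsto_nhds_unique_of_eventuallyEq
      (t1279_lim hc (t1279_deriv hW (Eventually.of_forall dw) hw) (hz y))
      (t1279_lim hc (t1279_deriv hW dw' hw') (tendsto_const_nhds (x := y))) (by
        filter_upwards [h, he] with n a1 a2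
        have := a1.1
        rw [a2, (hd n y).deriv]
        field_simp)
  have hk1 : ∀ y, deriv W y = 1 := fun y => by
    rw [← hk y, ← h1, ← hk 0, hμ0, zero_mul, zero_mul]
  obtain ⟨x₁, hx₁, hW₁⟩ := hne
  have h5 := is_const_of_deriv_eq_zero (f := fun y => W y - y) (hW.sub differentiable_id)
    (fun y => by
      rw [((hW y).hasDerivAt.fun_sub (hasDerivAt_id' y)).deriv, hk1, sub_self]) x₁ 0
  simp only [hW₁, h0, sub_zero, zero_sub, neg_eq_zero] at h5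
  exact hx₁ h5

end Pool.Agent.MP_28f8a1_an.H42

end

-- part MP_28f8a1_an.H42.Rigid
section

/-! Rigidity of the limit of vector fields and quadratic differentials. -/

set_option autoImplicit false

namespace Pool.Agent.MP_28f8a1_an.H42

open MeasureTheory Metric Set Real Filter Topology Polynomial
open scoped ENNReal

/-- The poles of the limit differential. -/
def Zs (W V : ℂ → ℂ) : Set ℂ := {x | W x = 0 ∧ V x ≠ 0}

/-- An affine symmetry. -/
def Symm (W V : ℂ → ℂ) (x μ : ℂ) : Prop :=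
  μ ≠ 0 ∧ ∀ y, W (x + μ * y) = μ * W y ∧ V (x + μ * y) = V y

/-- The limit objects: a vector field `W`, a differential `R` and `V = W ^ 2 * R`. -/
structure Trio (W V R : ℂ → ℂ) : Prop where
  hW : Differentiable ℂ W
  hV : Differentiable ℂ V
  W0 : W 0 = 0
  W1 : deriv W 0 = 1
  V0 : V 0 = 1
  V1 : deriv V 0 = 0
  hR : DifferentiableOn ℂ R (Zs W V)ᶜ
  eq : ∀ y ∉ Zs W V, W y ^ 2 * R y = V y
  sym : ∀ x ∈ Zs W V, ∃ μ, Symm W V x μ

/-- Bounds for the number of solutions in `S`. -/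
def Cnt (W V R : ℂ → ℂ) (K : ℕ) (S : Set ℂ) : Prop :=
  (∀ T : Finset ℂ, (∀ x ∈ T, x ∈ S \ Zs W V ∧ R x = 0) → T.card < 2 * K) ∧
    ∀ w : ℂ, w ≠ 4 → ∀ T : Finset ℂ,
      (∀ x ∈ T, x ∈ S \ Zs W V ∧ deriv R x ^ 2 = w * R x ^ 3) → T.card < 6 * K

/-- The bound for the negative part of the Lie derivative on disjoint discs in `S`. -/
def Star (W V R : ℂ → ℂ) (u : ℂ) (S : Set ℂ) : Prop :=
  ∃ C : ℝ, ∀ (N : ℕ) (x : ℕ → ℂ) (ε μ : ℕ → ℝ),
    (∀ i < N, ∀ j < N, i ≠ j → Disjoint (ball (x i) (ε i)) (ball (x j) (ε j))) →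
    (∀ i < N, 0 < ε i ∧ 0 < μ i ∧ 2 * ε i ≤ ‖x i‖ ∧ closedBall (x i) (ε i) ⊆ S \ Zs W V ∧
      ∀ y ∈ closedBall (x i) (ε i), μ i ≤ ‖R y‖) →
    ∑ i ∈ Finset.range N, μ i * ε i ^ 2 *
      -(u * (2 * deriv W (x i) + W (x i) * deriv R (x i) / R (x i))).re ≤ C

theorem t1314_mem {W V R : ℂ → ℂ} (h : Trio W V R) {x μ : ℂ} (hs : Symm W V x μ) :
    x ∈ Zs W V := by
  have h1 := hs.2 0
  rw [mul_zero, add_zero, h.W0, h.V0, mul_zero] at h1
  exact ⟨h1.1, by rw [h1.2]; exact one_ne_zero⟩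

theorem t1314_comp {W V : ℂ → ℂ} {x μ x' μ' : ℂ} (h : Symm W V x μ) (h' : Symm W V x' μ') :
    Symm W V (x + μ * x') (μ * μ') := by
  refine ⟨mul_ne_zero h.1 h'.1, fun y => ?_⟩
  have e : x + μ * x' + μ * μ' * y = x + μ * (x' + μ' * y) := by ring
  rw [e, (h.2 _).1, (h.2 _).2, (h'.2 _).1, (h'.2 _).2, mul_assoc]
  exact ⟨rfl, rfl⟩

theorem t1314_inv {W V : ℂ → ℂ} {x μ : ℂ} (h : Symm W V x μ) :
    Symm W V (-(μ⁻¹ * x)) μ⁻¹ := by
  refine ⟨inv_ne_zero h.1, fun y => ?_⟩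
  have h0 := h.1
  have e : x + μ * (-(μ⁻¹ * x) + μ⁻¹ * y) = y := by field_simp; ring
  have h1 := h.2 (-(μ⁻¹ * x) + μ⁻¹ * y)
  rw [e] at h1
  exact ⟨by rw [h1.1, inv_mul_cancel_left₀ h0], h1.2.symm⟩

theorem t1314_same {W V : ℂ → ℂ} {a b μ : ℂ} (h : Symm W V a μ) (h' : Symm W V b μ) :
    Symm W V (a - b) 1 := by
  have h1 := t1314_comp h (t1314_inv h')
  rwa [mul_inv_cancel₀ h.1, mul_neg, mul_inv_cancel_left₀ h.1, ← sub_eq_add_neg] at h1

theorem t1314_per {W V : ℂ → ℂ} {g : ℂ} :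
    Symm W V g 1 ↔ Function.Periodic W g ∧ Function.Periodic V g := by
  simp only [Symm, one_mul, add_comm g, Function.Periodic, forall_and, ne_eq, one_ne_zero,
    not_false_eq_true, true_and]

theorem t1314_deriv {F : ℂ → ℂ} (hF : Differentiable ℂ F) {x μ c : ℂ}
    (h : ∀ y, F (x + μ * y) = c * F y) : μ * deriv F x = c * deriv F 0 := by
  have h1 : HasDerivAt (fun y => F (x + μ * y)) (deriv F (x + μ * 0) * (μ * 1)) 0 :=
    (hF _).hasDerivAt.comp (0 : ℂ) (((hasDerivAt_id' (0 : ℂ)).const_mul μ).const_add x)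
  have h2 : HasDerivAt (fun y => F (x + μ * y)) (c * deriv F 0) 0 := by
    simp only [h]
    exact (hF 0).hasDerivAt.const_mul c
  have h3 := h1.unique h2
  rw [mul_zero, add_zero] at h3
  linear_combination h3

theorem t1314_iso {W : ℂ → ℂ} (hW : Differentiable ℂ W) {x : ℂ} (h1 : deriv W x = 1) :
    ∀ᶠ y in 𝓝 x, y ≠ x → W y ≠ 0 := by
  have hd : HasDerivAt W 1 x := h1 ▸ (hW x).hasDerivAt
  exact eventually_nhdsWithin_iff.1 (hd.eventually_ne (c := 0) one_ne_zero)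

theorem Trio.closed {W V R : ℂ → ℂ} (h : Trio W V R) :
    (∀ x ∈ Zs W V, V x = 1 ∧ deriv V x = 0 ∧ deriv W x = 1) ∧ IsClosed (Zs W V) ∧
      ∀ L : ℝ, (Zs W V ∩ closedBall 0 L).Finite := by
  have h1 : ∀ x ∈ Zs W V, V x = 1 ∧ deriv V x = 0 ∧ deriv W x = 1 := fun x hx => by
    obtain ⟨μ, hμ, hs⟩ := h.sym x hx
    have a1 := (hs 0).2
    have a2 := t1314_deriv h.hV (x := x) (μ := μ) (c := 1) fun y => by rw [(hs y).2, one_mul]
    have a3 := t1314_deriv h.hW fun y => (hs y).1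
    rw [mul_zero, add_zero, h.V0] at a1
    rw [h.V1, mul_zero] at a2
    rw [h.W1] at a3
    exact ⟨a1, (mul_eq_zero.1 a2).resolve_left hμ, mul_left_cancel₀ hμ a3⟩
  have h2 : IsClosed (Zs W V) := by
    have e : Zs W V = {x | W x = 0} ∩ {x | V x = 1} := by
      ext x
      exact ⟨fun hx => ⟨hx.1, (h1 x hx).1⟩, fun hx => ⟨hx.1, by
        rw [show V x = 1 from hx.2]; exact one_ne_zero⟩⟩
    rw [e]
    exact (isClosed_eq h.hW.continuous continuous_const).inter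
      (isClosed_eq h.hV.continuous continuous_const)
  refine ⟨h1, h2, fun L => ?_⟩
  obtain ⟨t, ht, hc⟩ := ((isCompact_closedBall (0 : ℂ) L).inter_left h2).elim_nhds_subcover
    (fun x => {y | y ≠ x → W y ≠ 0}) fun x hx => t1314_iso h.hW (h1 x hx.1).2.2
  refine t.finite_toSet.subset fun y hy => ?_
  obtain ⟨x, hx, hxy⟩ := mem_iUnion₂.1 (hc hy)
  by_contra hn
  exact hxy (fun e => hn (e ▸ hx)) hy.1.1

theorem Trio.exists_B {W V R : ℂ → ℂ} (h : Trio W V R) : ∃ B : ℂ → ℂ, Differentiable ℂ B ∧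
    (∀ y, W y * B y = deriv V y) ∧
      ∀ y ∉ Zs W V, B y = 2 * deriv W y * R y + W y * deriv R y := by
  classical
  obtain ⟨h1, h2, -⟩ := h.closed
  have hV' : Differentiable ℂ (deriv V) := h.hV.deriv
  have key : ∀ y ∉ Zs W V, W y * (2 * deriv W y * R y + W y * deriv R y) = deriv V y := by
    intro y hy
    have n1 := h2.isOpen_compl.mem_nhds hy
    have a1 := ((h.hW y).hasDerivAt.fun_pow 2).fun_mul (h.hR.differentiableAt n1).hasDerivAt
    have a2 : (fun y => W y ^ 2 * R y) =ᶠ[𝓝 y] V := eventually_of_mem n1 fun z hz => h.eq z hz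
    rw [← a2.deriv_eq, a1.deriv]
    push_cast
    ring
  refine ⟨fun y => if y ∈ Zs W V then deriv (deriv V) y else
    2 * deriv W y * R y + W y * deriv R y, fun x => ?_, fun y => ?_, fun y hy => if_neg hy⟩
  · by_cases hx : x ∈ Zs W V
    · obtain ⟨-, a1, a2⟩ := h1 x hx
      have d1 : ∀ {F : ℂ → ℂ}, Differentiable ℂ F → DifferentiableAt ℂ (dslope F x) x :=
        fun hF => ((Complex.differentiableOn_dslope univ_mem).2
          hF.differentiableOn).differentiableAt univ_mem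
      refine ((d1 hV').div (d1 h.hW)
        (by rw [dslope_same, a2]; exact one_ne_zero)).congr_of_eventuallyEq ?_
      filter_upwards [t1314_iso h.hW a2] with y hy
      rw [Pi.div_apply]
      by_cases e : y = x
      · rw [e, if_pos hx, dslope_same, dslope_same, a2, div_one]
      · have hz : y ∉ Zs W V := fun h' => hy e h'.1
        have a3 := hy e
        have a4 : y - x ≠ 0 := sub_ne_zero.2 e
        rw [if_neg hz, dslope_of_ne _ e, dslope_of_ne _ e, slope_def_field, slope_def_field, a1,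
          hx.1, ← key y hz]
        field_simp
        ring
    · have n1 := h2.isOpen_compl.mem_nhds hx
      have a1 := h.hR.differentiableAt n1
      have a2 := (h.hR.deriv h2.isOpen_compl).differentiableAt n1
      refine ((((h.hW.deriv x).const_mul 2).mul a1).add ((h.hW x).mul a2)).congr_of_eventuallyEq ?_
      exact eventually_of_mem n1 fun z hz => if_neg hz
  · by_cases hy : y ∈ Zs W V
    · rw [hy.1, zero_mul, (h1 y hy).2.1]
    · simp only [if_neg hy, key y hy]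

theorem t1314_fin {W V R : ℂ → ℂ} (h : Trio W V R) (h0 : ∀ x, Symm W V x 1 → x = 0) :
    (Zs W V).Finite := by
  by_cases hx : ∀ x ∈ Zs W V, x = 0
  · exact (finite_singleton 0).subset hx
  push Not at hx
  obtain ⟨a, ha, ha0⟩ := hx
  obtain ⟨ν, hν⟩ := h.sym a ha
  have n1 : 1 - ν ≠ 0 := fun e => ha0 (h0 a ((sub_eq_zero.1 e) ▸ hν))
  obtain ⟨y₀, hy⟩ : ∃ y₀, y₀ = a / (1 - ν) := ⟨_, rfl⟩
  have y0 : y₀ ≠ 0 := hy ▸ div_ne_zero ha0 n1
  have a1 : ∀ x μ, Symm W V x μ → x = y₀ * (1 - μ) := fun x μ hs => by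
    have b1 := h0 _ (t1314_same (t1314_comp hs hν) (mul_comm ν μ ▸ t1314_comp hν hs))
    rw [hy]
    field_simp
    linear_combination b1
  have a2 : ∀ μ : ℂ, ‖μ‖ ≤ 1 → y₀ * (1 - μ) ∈ closedBall (0 : ℂ) (‖y₀‖ * 2) := fun μ hμ => by
    rw [mem_closedBall_zero_iff, norm_mul]
    refine mul_le_mul_of_nonneg_left ((norm_sub_le _ _).trans ?_) (norm_nonneg _)
    rw [norm_one]
    linarith
  have a3 : ∀ x μ, Symm W V x μ → 1 ≤ ‖μ‖ := fun x μ hs => by
    by_contra hlt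
    have hlt := not_le.1 hlt
    have b1 : ∀ n : ℕ, ∃ z, Symm W V z (μ ^ n) := fun n => by
      induction n with
      | zero => exact ⟨0, by rw [pow_zero]; exact t1314_per.2 ⟨fun _ => by simp, fun _ => by simp⟩⟩
      | succ n ih =>
        obtain ⟨z, hz⟩ := ih
        exact ⟨_, pow_succ μ n ▸ t1314_comp hz hs⟩
    refine infinite_of_injective_forall_mem (f := fun n : ℕ => y₀ * (1 - μ ^ n))
      (fun m n e => ?_) (fun n => mem_inter ?_ (a2 _ ?_)) (h.closed.2.2 (‖y₀‖ * 2))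
    · have e1 := congrArg norm (sub_right_injective (mul_left_cancel₀ y0 e))
      rw [norm_pow, norm_pow] at e1
      exact pow_right_injective₀ (norm_pos_iff.2 hs.1) hlt.ne e1
    · obtain ⟨z, hz⟩ := b1 n
      exact a1 _ _ hz ▸ t1314_mem h hz
    · rw [norm_pow]
      exact pow_le_one₀ (norm_nonneg _) hlt.le
  refine (h.closed.2.2 (‖y₀‖ * 2)).subset fun x hx => ⟨hx, ?_⟩
  obtain ⟨μ, hs⟩ := h.sym x hx
  have b1 := a3 _ _ (t1314_inv hs)
  rw [norm_inv, one_le_inv₀ (norm_pos_iff.2 hs.1)] at b1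
  exact a1 _ _ hs ▸ a2 μ b1

theorem t1314_gen {W V R : ℂ → ℂ} (h : Trio W V R) {a : ℂ} (ha : Symm W V a 1) (ha0 : a ≠ 0) :
    ∃ g : ℂ, g ≠ 0 ∧ Symm W V g 1 ∧ ∀ x, Symm W V x 1 → ∃ m : ℤ, x = m * g := by
  obtain ⟨g, ⟨g1, g2, g3⟩, hmin⟩ := exists_min_image
    {x | Symm W V x 1 ∧ x ≠ 0 ∧ ‖x‖ ≤ ‖a‖} norm ((h.closed.2.2 ‖a‖).subset fun x hx =>
      ⟨t1314_mem h hx.1, mem_closedBall_zero_iff.2 hx.2.2⟩) ⟨a, ha, ha0, le_rfl⟩
  refine ⟨g, g2, g1, fun x hx => ?_⟩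
  obtain ⟨pg, pg'⟩ := t1314_per.1 g1
  obtain ⟨px, px'⟩ := t1314_per.1 hx
  have him : (x / g).im = 0 := by
    by_contra hc
    have h2 := t78_two h.hW g2 hc pg (by rwa [div_mul_cancel₀ _ g2])
    rw [h.W1] at h2
    exact one_ne_zero h2
  obtain ⟨s, hs⟩ : ∃ s : ℝ, x = s * g := by
    refine ⟨(x / g).re, ?_⟩
    have h2 : x / g = ((x / g).re : ℝ) := by
      apply Complex.ext <;> simp [him]
    rw [← h2, div_mul_cancel₀ _ g2]
  have e1 : x - (⌊s⌋ : ℤ) * g = (Int.fract s : ℝ) * g := by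
    rw [hs, Int.fract]
    push_cast
    ring
  have h3 : Symm W V (x - (⌊s⌋ : ℤ) * g) 1 :=
    t1314_same hx (t1314_per.2 ⟨pg.int_mul _, pg'.int_mul _⟩)
  have h4 : ‖x - (⌊s⌋ : ℤ) * g‖ < ‖g‖ := by
    rw [e1, norm_mul, Complex.norm_real, Real.norm_eq_abs, abs_of_nonneg (Int.fract_nonneg s)]
    exact mul_lt_of_lt_one_left (norm_pos_iff.mpr g2) (Int.fract_lt_one s)
  refine ⟨⌊s⌋, sub_eq_zero.1 ?_⟩
  by_contra hn
  exact absurd (hmin _ ⟨h3, hn, h4.le.trans g3⟩) (not_le.2 h4)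

theorem Trio.struct {W V R : ℂ → ℂ} (h : Trio W V R) : (Zs W V).Finite ∨ ∃ g x₀ : ℂ, g ≠ 0 ∧
    Symm W V g 1 ∧ (∀ x, Symm W V x 1 → ∃ m : ℤ, x = m * g) ∧
    (∀ x μ, Symm W V x μ → μ = 1 ∨ μ = -1) ∧
    ∀ x ∈ Zs W V, ∃ m : ℤ, x = m * g ∨ x = x₀ + m * g := by
  by_cases h0 : ∀ x, Symm W V x 1 → x = 0
  · exact Or.inl (t1314_fin h h0)
  push Not at h0
  obtain ⟨a, ha, ha0⟩ := h0
  obtain ⟨g, g0, g1, g2⟩ := t1314_gen h ha ha0
  have a1 : ∀ x μ, Symm W V x μ → ∃ m : ℤ, μ = m := fun x μ hs => by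
    have b1 := t1314_comp hs g1
    rw [mul_one] at b1
    obtain ⟨m, hm⟩ := g2 _ (t1314_same b1 hs)
    exact ⟨m, mul_right_cancel₀ g0 (by rw [← hm]; ring)⟩
  have a2 : ∀ x μ, Symm W V x μ → μ = 1 ∨ μ = -1 := fun x μ hs => by
    obtain ⟨m, hm⟩ := a1 _ _ hs
    obtain ⟨n, hn⟩ := a1 _ _ (t1314_inv hs)
    have b1 : m * n = 1 := by
      have b2 := mul_inv_cancel₀ hs.1
      rw [hn, hm] at b2
      exact_mod_cast b2
    rcases Int.eq_one_or_neg_one_of_mul_eq_one b1 with e | e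
    · left; rw [hm, e]; simp
    · right; rw [hm, e]; simp
  obtain ⟨x₀, hx₀⟩ : ∃ x₀, ∀ x, Symm W V x (-1) → Symm W V x₀ (-1) := by
    by_cases e : ∃ x, Symm W V x (-1)
    · exact ⟨e.choose, fun _ _ => e.choose_spec⟩
    · exact ⟨0, fun x hx => absurd ⟨x, hx⟩ e⟩
  refine Or.inr ⟨g, x₀, g0, g1, g2, a2, fun x hx => ?_⟩
  obtain ⟨μ, hs⟩ := h.sym x hx
  rcases a2 x μ hs with rfl | rfl
  · obtain ⟨m, hm⟩ := g2 x hs
    exact ⟨m, Or.inl hm⟩
  · obtain ⟨m, hm⟩ := g2 _ (t1314_same hs (hx₀ x hs))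
    exact ⟨m, Or.inr (by rw [← hm]; ring)⟩

theorem t15_far {P : ℂ → Prop} (h : ∀ᶠ y in Bornology.cobounded ℂ, P y) :
    ∃ ρ : ℝ, 1 ≤ ρ ∧ ∀ y, ρ ≤ ‖y‖ → P y := by
  obtain ⟨ρ, -, hρ⟩ := Filter.hasBasis_cobounded_norm.eventually_iff.1 h
  exact ⟨max 1 ρ, le_max_left _ _, fun y hy => hρ ((le_max_right _ _).trans hy)⟩

theorem t15_mem {ρ : ℝ} (hρ : 0 < ρ) {s : ℂ} (hs : s ∈ ball (0 : ℂ) ρ⁻¹ \ {0}) :
    s ≠ 0 ∧ ρ ≤ ‖s⁻¹‖ := by
  have h0 : s ≠ 0 := hs.2
  have h1 : ‖s‖ < ρ⁻¹ := by simpa using hs.1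
  rw [norm_inv]
  exact ⟨h0, (lt_inv_comm₀ (norm_pos_iff.2 h0) hρ).1 h1 |>.le⟩

theorem t15_liou {f : ℂ → ℂ} (hf : Differentiable ℂ f) {M : ℝ}
    (h : ∀ᶠ y in Bornology.cobounded ℂ, ‖f y‖ ≤ M) (x y : ℂ) : f x = f y := by
  obtain ⟨ρ, -, hρ⟩ := t15_far h
  obtain ⟨M', hM'⟩ := (isCompact_closedBall (0 : ℂ) ρ).exists_bound_of_continuousOn
    hf.continuous.continuousOn
  refine hf.apply_eq_apply_of_bounded (isBounded_iff_forall_norm_le.2 ⟨max M M', ?_⟩) x y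
  rintro _ ⟨z, rfl⟩
  rcases le_total ρ ‖z‖ with hz | hz
  · exact (hρ z hz).trans (le_max_left _ _)
  · exact (hM' z (by simpa using hz)).trans (le_max_right _ _)

theorem t15_inv {f : ℂ → ℂ} {s : ℂ} (hs : s ≠ 0) (hf : DifferentiableAt ℂ f s⁻¹) :
    HasDerivAt (fun s => f s⁻¹) (deriv f s⁻¹ * -(s ^ 2)⁻¹) s :=
  hf.hasDerivAt.comp s (hasDerivAt_inv hs)

theorem t15_mero {R : ℂ → ℂ} {ρ : ℝ} (hρ : 0 < ρ) {K : ℕ}
    (hR : ∀ y, ρ ≤ ‖y‖ → AnalyticAt ℂ R y ∧ R y ≠ 0)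
    (hc : ∀ w : ℂ, w ≠ 4 → ∀ T : Finset ℂ,
      (∀ x ∈ T, ρ ≤ ‖x‖ ∧ deriv R x ^ 2 = w * R x ^ 3) → T.card < K) :
    MeromorphicAt (fun s => R s⁻¹ / s ^ 2) 0 := by
  classical
  have hφ : MeromorphicAt (fun s => deriv R s⁻¹ ^ 2 / R s⁻¹ ^ 3) 0 := by
    refine mero_of_valence (inv_pos.2 hρ) (K := K) (fun s hs => ?_) fun w hw T hT => ?_
    · obtain ⟨h0, h1⟩ := t15_mem hρ hs
      obtain ⟨h2, h3⟩ := hR _ h1
      have d1 := (t15_inv h0 h2.differentiableAt).differentiableAt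
      have d2 := (t15_inv h0 h2.deriv.differentiableAt).differentiableAt
      exact ((d2.pow 2).div (d1.pow 3) (pow_ne_zero _ h3)).differentiableWithinAt
    · rw [← Finset.card_image_of_injective T inv_injective]
      refine (hc w hw _ fun x hx => ?_).le
      obtain ⟨s, hs, rfl⟩ := Finset.mem_image.1 hx
      obtain ⟨h4, h5⟩ := hT s hs
      have h1 := (t15_mem hρ h4).2
      exact ⟨h1, (div_eq_iff (pow_ne_zero _ (hR _ h1).2)).1 h5⟩
  have hG : MeromorphicAt (fun s => (R s⁻¹)⁻¹) 0 := by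
    refine mero_of_ode (φ := fun s => deriv R s⁻¹ ^ 2 / R s⁻¹ ^ 3 / s ^ 4) (inv_pos.2 hρ)
      (fun s hs => ?_) (hφ.div (by fun_prop)) fun s hs => ?_
    · obtain ⟨h0, h1⟩ := t15_mem hρ hs
      obtain ⟨h2, h3⟩ := hR _ h1
      exact ((t15_inv h0 h2.differentiableAt).differentiableAt.inv h3).differentiableWithinAt
    · obtain ⟨h0, h1⟩ := t15_mem hρ hs
      obtain ⟨h2, h3⟩ := hR _ h1
      have h4 : HasDerivAt (fun s => (R s⁻¹)⁻¹) _ s := (t15_inv h0 h2.differentiableAt).inv h3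
      rw [h4.deriv]
      field_simp
  have h1 : MeromorphicAt (fun s => R s⁻¹) 0 := by
    have h2 := hG.inv
    rwa [show (fun s : ℂ => (R s⁻¹)⁻¹)⁻¹ = fun s => R s⁻¹ from funext fun s => inv_inv _] at h2
  exact h1.div (by fun_prop)

theorem t15_asym {R : ℂ → ℂ} (hm : MeromorphicAt (fun s => R s⁻¹ / s ^ 2) 0)
    (h0 : ∀ᶠ y in Bornology.cobounded ℂ, R y ≠ 0) : ∃ (n : ℤ) (a : ℝ), 0 < a ∧
      ∀ᶠ y in Bornology.cobounded ℂ, a ≤ ‖R y‖ * ‖y‖ ^ n ∧ ‖R y‖ * ‖y‖ ^ n ≤ 3 * a := by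
  obtain ⟨ρ, hρ1, hρ⟩ := t15_far h0
  have hρ0 : 0 < ρ := by linarith
  have hne : ∀ᶠ s in 𝓝[≠] (0 : ℂ), R s⁻¹ / s ^ 2 ≠ 0 := by
    filter_upwards [sdiff_mem_nhdsWithin_compl (ball_mem_nhds (0 : ℂ) (inv_pos.2 hρ0)) {0}]
      with s hs
    obtain ⟨h1, h2⟩ := t15_mem hρ0 hs
    exact div_ne_zero (hρ _ h2) (pow_ne_zero _ h1)
  obtain ⟨g, hg, hg0, he⟩ := (meromorphicOrderAt_ne_top_iff hm).1
    ((meromorphicOrderAt_ne_top_iff_eventually_ne_zero hm).2 hne)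
  generalize (meromorphicOrderAt (fun s => R s⁻¹ / s ^ 2) 0).untop₀ = j at he
  have hg1 : 0 < ‖g 0‖ := norm_pos_iff.2 hg0
  have hb : ∀ᶠ s in 𝓝 (0 : ℂ), ‖g s‖ ∈ Icc (‖g 0‖ / 2) (3 * (‖g 0‖ / 2)) :=
    hg.continuousAt.norm.eventually (Icc_mem_nhds (by linarith) (by linarith))
  refine ⟨j + 2, ‖g 0‖ / 2, by linarith, ?_⟩
  filter_upwards [tendsto_inv₀_cobounded'.eventually he, tendsto_inv₀_cobounded.eventually hb,
    tendsto_inv₀_cobounded'.eventually self_mem_nhdsWithin] with y h1 h2 h3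
  have hy : y ≠ 0 := fun h => h3 (by simp [h])
  have h4 : g y⁻¹ = R y * y ^ (j + 2) := by
    simp only [inv_inv, sub_zero, smul_eq_mul, inv_zpow, inv_pow, div_inv_eq_mul] at h1
    rw [zpow_add₀ hy, mul_comm (y ^ j), ← mul_assoc, zpow_ofNat, h1]
    field_simp
  rw [h4, norm_mul, norm_zpow] at h2
  exact h2

theorem t15_ratio (n : ℤ) : ∃ c > 0, ∀ y z : ℂ, y ≠ 0 → z ∈ closedBall y (‖y‖ / 4) →
    c * ‖z‖ ^ n ≤ ‖y‖ ^ n := by
  have hc : ContinuousOn (fun t : ℝ => t ^ n) (Icc (3 / 4) (5 / 4)) :=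
    continuousOn_id.zpow₀ n fun t ht => Or.inl (by
      have := ht.1
      exact ne_of_gt (by simp only [id]; linarith))
  obtain ⟨M, hM⟩ := isCompact_Icc.exists_bound_of_continuousOn hc
  have hM0 : 0 < max M 1 := lt_max_of_lt_right one_pos
  refine ⟨(max M 1)⁻¹, inv_pos.2 hM0, fun y z hy hz => ?_⟩
  have h0 := norm_pos_iff.2 hy
  have h1 := abs_le.1 ((abs_norm_sub_norm_le z y).trans (mem_closedBall_iff_norm.1 hz))
  have h2 := hM (‖z‖ / ‖y‖) ⟨by rw [le_div_iff₀ h0]; linarith [h1.1],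
    by rw [div_le_iff₀ h0]; linarith [h1.2]⟩
  have h3 : (‖z‖ / ‖y‖) ^ n ≤ max M 1 := ((le_abs_self _).trans h2).trans (le_max_left _ _)
  rw [div_zpow, div_le_iff₀ (zpow_pos h0 n)] at h3
  rw [inv_mul_le_iff₀ hM0]
  exact h3

theorem t15_der {W R : ℂ → ℂ} {s : ℂ} (hs : s ≠ 0) (hW : DifferentiableAt ℂ W s⁻¹)
    (hR : DifferentiableAt ℂ R s⁻¹) :
    HasDerivAt (fun s => s * W s⁻¹) (W s⁻¹ - deriv W s⁻¹ / s) s ∧
      HasDerivAt (fun s => R s⁻¹ / s ^ 2) (-(deriv R s⁻¹ / s ^ 4) - 2 * R s⁻¹ / s ^ 3) s := by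
  constructor
  · refine ((hasDerivAt_id' s).mul (t15_inv hs hW)).congr_deriv ?_
    field_simp
    ring
  · refine ((t15_inv hs hR).div (hasDerivAt_pow 2 s) (pow_ne_zero 2 hs)).congr_deriv ?_
    field_simp
    ring

theorem t15_one {V : ℂ → ℂ} (hV : Differentiable ℂ V) (h0 : V 0 = 1) (h1 : deriv V 0 = 0) {t : ℂ}
    (ht : ∀ x, V x = 0 → x = t) {ρ c : ℝ} {m : ℕ} (hc : 0 < c)
    (h : ∀ x, ρ ≤ ‖x‖ → c ≤ ‖V x‖ * (1 + ‖x‖) ^ m) (y : ℂ) : V y = 1 := by
  obtain ⟨k, H, hH, hHt, e⟩ := t40_factor hV ⟨0, by simp [h0]⟩ t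
  have hne : ∀ x, H x ≠ 0 := fun x hx => hHt (ht x (by rw [e, hx, mul_zero]) ▸ hx)
  have hPG := t40_zeros ∅ H hH (fun x hx => absurd hx (hne x))
    ⟨ρ, c / (1 + ‖t‖) ^ k, k + m, by positivity, fun x hx => by
      have h2 : ‖x - t‖ ≤ (1 + ‖x‖) * (1 + ‖t‖) := by
        nlinarith [norm_sub_le x t, norm_nonneg x, norm_nonneg t]
      have h3 := pow_le_pow_left₀ (norm_nonneg _) h2 k
      have h4 := h x hx
      rw [e, norm_mul, norm_pow] at h4
      rw [div_le_iff₀ (by positivity)]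
      calc c ≤ ((1 + ‖x‖) * (1 + ‖t‖)) ^ k * ‖H x‖ * (1 + ‖x‖) ^ m := h4.trans (by gcongr)
        _ = _ := by rw [mul_pow]; ring⟩
  have hk := t40_const hH hne hPG
  have e' : V = fun x => (x - t) ^ k * H 0 := funext fun x => by rw [e, hk x 0]
  have hd : HasDerivAt V _ 0 := e' ▸ (((hasDerivAt_id' (0 : ℂ)).sub_const t).pow k).mul_const (H 0)
  rw [hd.deriv] at h1
  rw [e'] at h0 ⊢
  rcases k with _ | k
  · simpa using h0
  · have h2 : (0 - t) ^ k = 0 := by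
      have h3 : ((k + 1 : ℕ) : ℂ) ≠ 0 := Nat.cast_ne_zero.2 k.succ_ne_zero
      exact (mul_eq_zero.1 ((mul_eq_zero.1 ((mul_eq_zero.1 h1).resolve_right
        (hne 0))).resolve_right one_ne_zero)).resolve_left h3
    simp only [pow_succ, h2, zero_mul] at h0
    exact absurd h0 zero_ne_one

theorem Trio.rigid_fin {W V R : ℂ → ℂ} (h : Trio W V R) (hZ : (Zs W V).Finite) {u : ℂ}
    (hu : u ≠ 0) (hc : Cnt W V R hZ.toFinset.card univ) (hs : Star W V R u univ) :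
    ∀ y, V y = 1 := by
  classical
  have hfin : {x | x ∉ Zs W V ∧ R x = 0}.Finite := by
    by_contra hinf
    obtain ⟨T, hT, hcard⟩ := Set.Infinite.exists_subset_card_eq hinf (2 * hZ.toFinset.card)
    have := hc.1 T fun x hx => ⟨⟨trivial, (hT hx).1⟩, (hT hx).2⟩
    omega
  have hfar : ∀ᶠ y in Bornology.cobounded ℂ, y ∉ Zs W V ∧ R y ≠ 0 := by
    filter_upwards [Bornology.isBounded_def.1 (hZ.union hfin).isBounded] with y hy
    simp only [mem_compl_iff, mem_union, mem_ofPred_eq, not_or, not_and] at hy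
    exact ⟨hy.1, hy.2 hy.1⟩
  have han : ∀ y ∉ Zs W V, AnalyticAt ℂ R y := fun y hy =>
    h.hR.analyticAt (hZ.isClosed.isOpen_compl.mem_nhds hy)
  obtain ⟨ρ₀, hρ₀, hf₀⟩ := t15_far hfar
  have hm : MeromorphicAt (fun s => R s⁻¹ / s ^ 2) 0 :=
    t15_mero (ρ := ρ₀) (by linarith) (fun y hy => ⟨han y (hf₀ y hy).1, (hf₀ y hy).2⟩)
      fun w hw T hT => hc.2 w hw T fun x hx => ⟨⟨trivial, (hf₀ x (hT x hx).1).1⟩, (hT x hx).2⟩
  obtain ⟨n, a, ha, hasym⟩ := t15_asym hm (hfar.mono fun y hy => hy.2)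
  obtain ⟨ρ, hρ, hf⟩ := t15_far (hfar.and hasym)
  obtain ⟨c, hc0, hrat⟩ := t15_ratio n
  obtain ⟨C, hC⟩ := hs
  have hρ2 : 0 < 2 * ρ := by linarith
  have hder : ∀ s ∈ ball (0 : ℂ) (2 * ρ)⁻¹ \ {0}, s ≠ 0 ∧ s⁻¹ ∉ Zs W V ∧ R s⁻¹ ≠ 0 ∧
      HasDerivAt (fun s => s * W s⁻¹) (W s⁻¹ - deriv W s⁻¹ / s) s ∧
      HasDerivAt (fun s => R s⁻¹ / s ^ 2) (-(deriv R s⁻¹ / s ^ 4) - 2 * R s⁻¹ / s ^ 3) s := by
    intro s hs
    obtain ⟨h0, h1⟩ := t15_mem hρ2 hs
    have h2 := (hf s⁻¹ (by linarith)).1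
    exact ⟨h0, h2.1, h2.2, t15_der h0 (h.hW _) (han _ h2.1).differentiableAt⟩
  have hstar : ∀ y : ℂ, 2 * ρ ≤ ‖y‖ → c / 3 * ‖R y‖ * (‖y‖ / 4) ^ 2 *
      -(u * (2 * deriv W y + W y * deriv R y / R y)).re ≤ C := by
    intro y hy
    have hy0 : 0 < ‖y‖ := by linarith
    obtain ⟨⟨-, h1⟩, -, h2⟩ := hf y (by linarith)
    have h3 := norm_pos_iff.2 h1
    have hz : ∀ z ∈ closedBall y (‖y‖ / 4), ρ ≤ ‖z‖ := fun z hz => by
      have := abs_le.1 ((abs_norm_sub_norm_le z y).trans (mem_closedBall_iff_norm.1 hz))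
      linarith [this.1]
    have h4 := hC 1 (fun _ => y) (fun _ => ‖y‖ / 4) (fun _ => c / 3 * ‖R y‖)
      (fun i hi j hj hij => absurd (by omega) hij) fun _ _ =>
        ⟨by positivity, by positivity, by linarith,
          fun z hz' => ⟨trivial, (hf z (hz z hz')).1.1⟩, fun z hz' => by
            have h5 := (hf z (hz z hz')).2.1
            have h6 := hrat y z (norm_pos_iff.1 hy0) hz'
            have h7 : 0 < ‖z‖ ^ n := zpow_pos (by linarith [hz z hz']) n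
            refine le_of_mul_le_mul_right ?_ h7
            nlinarith [mul_le_mul_of_nonneg_left h6 h3.le]⟩
    simpa using h4
  obtain ⟨j, κ, -, -, halt⟩ := end_lemma (R := fun s => R s⁻¹ / s ^ 2) (w := fun s => s * W s⁻¹)
    (C := 48 * C / c) (c := -1) (inv_pos.2 hρ2) (by norm_num) hu
    (fun s hs => (hder s hs).2.2.2.2.differentiableAt.differentiableWithinAt)
    (fun s hs => (hder s hs).2.2.2.1.differentiableAt.differentiableWithinAt)
    (fun s hs => div_ne_zero (hder s hs).2.2.1 (pow_ne_zero _ (hder s hs).1)) hm (fun s hs => by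
      obtain ⟨h0, -, h1, h2, h3⟩ := hder s hs
      have h4 := hstar _ (t15_mem hρ2 hs).2
      have h5 : -1 * s * (2 * deriv (fun s => s * W s⁻¹) s + s * W s⁻¹ *
          deriv (fun s => R s⁻¹ / s ^ 2) s / (R s⁻¹ / s ^ 2)) =
          2 * deriv W s⁻¹ + W s⁻¹ * deriv R s⁻¹ / R s⁻¹ := by
        rw [h2.deriv, h3.deriv]
        generalize R s⁻¹ = r at h1 ⊢
        field_simp
        ring
      have h6 : c / 3 * ‖R s⁻¹‖ * (‖s⁻¹‖ / 4) ^ 2 = c / 48 * ‖R s⁻¹ / s ^ 2‖ := by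
        rw [norm_div, norm_pow, norm_inv]
        field_simp
        ring
      have h7 : 0 < ‖R s⁻¹ / s ^ 2‖ := norm_pos_iff.2 (div_ne_zero h1 (pow_ne_zero _ h0))
      rw [h6] at h4
      rw [h5, neg_le, le_div_iff₀ h7, le_div_iff₀ hc0]
      linarith)
  rcases halt with ⟨M, hM⟩ | ⟨-, β, hβ⟩
  · have hD : Differentiable ℂ (dslope W 0) := by
      rw [← differentiableOn_univ]
      exact (Complex.differentiableOn_dslope univ_mem).2 h.hW.differentiableOn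
    have hW : ∀ y, W y = y := fun y => by
      have h1 := t15_liou hD (M := M) (by
        filter_upwards [tendsto_inv₀_cobounded'.eventually hM,
          tendsto_inv₀_cobounded'.eventually self_mem_nhdsWithin] with z h1 h2
        have hz : z ≠ 0 := fun h => h2 (by simp [h])
        rw [dslope_of_ne _ hz, slope_def_module]
        simpa [h.W0] using h1) y 0
      have h2 := sub_smul_dslope W 0 y
      rw [h1, dslope_same, h.W1, h.W0] at h2
      simpa using h2.symm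
    have hZ0 : hZ.toFinset = {0} := by
      ext x
      simp only [Finite.mem_toFinset, Finset.mem_singleton, Zs, mem_ofPred_eq, hW]
      exact ⟨fun hx => hx.1, fun hx => ⟨hx, by simp [hx, h.V0]⟩⟩
    have hzero : ∀ x, V x = 0 → x ∉ Zs W V ∧ R x = 0 := fun x hx => by
      have h1 : x ∉ Zs W V := fun h1 => h1.2 hx
      have h2 := h.eq x h1
      rw [hW, hx] at h2
      refine ⟨h1, (mul_eq_zero.1 h2).resolve_left (pow_ne_zero _ ?_)⟩
      rintro rfl
      rw [h.V0] at hx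
      exact one_ne_zero hx
    obtain ⟨t, ht⟩ : ∃ t, ∀ x, V x = 0 → x = t := by
      by_cases hx : ∃ t, V t = 0
      · obtain ⟨t, ht⟩ := hx
        refine ⟨t, fun x hx => by_contra fun hne => ?_⟩
        have h1 := hc.1 {x, t} fun z hz => by
          rcases Finset.mem_insert.1 hz with rfl | hz
          · exact ⟨⟨trivial, (hzero _ hx).1⟩, (hzero _ hx).2⟩
          · rw [Finset.mem_singleton.1 hz]
            exact ⟨⟨trivial, (hzero _ ht).1⟩, (hzero _ ht).2⟩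
        rw [hZ0, Finset.card_pair hne] at h1
        simp at h1
      · exact ⟨0, fun x h1 => absurd ⟨x, h1⟩ hx⟩
    refine t15_one h.hV h.V0 h.V1 ht (ρ := ρ) (m := n.natAbs) ha fun x hx => ?_
    obtain ⟨⟨h1, -⟩, h2, -⟩ := hf x hx
    have h3 : 1 ≤ ‖x‖ := hρ.trans hx
    have h4 : ‖x‖ ^ n ≤ (1 + ‖x‖) ^ n.natAbs :=
      calc ‖x‖ ^ n ≤ ‖x‖ ^ (n.natAbs : ℤ) := zpow_le_zpow_right₀ h3 Int.le_natAbs
        _ = ‖x‖ ^ n.natAbs := zpow_natCast _ _
        _ ≤ _ := by gcongr; linarith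
    have h5 : ‖R x‖ ≤ ‖V x‖ := by
      rw [← h.eq x h1, hW, norm_mul, norm_pow]
      exact le_mul_of_one_le_left (norm_nonneg _) (one_le_pow₀ h3)
    exact h2.trans (by gcongr)
  · obtain ⟨B, hB, hWB, hBe⟩ := h.exists_B
    have h1 : Tendsto B (Bornology.cobounded ℂ) (𝓝 0) := by
      have h2 := (hβ.comp tendsto_inv₀_cobounded').mul
        ((tendsto_inv₀_cobounded (α := ℂ)).pow 2)
      rw [zero_pow two_ne_zero, mul_zero] at h2
      refine h2.congr' ?_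
      filter_upwards [tendsto_inv₀_cobounded'.eventually
        (sdiff_mem_nhdsWithin_compl (ball_mem_nhds (0 : ℂ) (inv_pos.2 hρ2)) {0})] with y hy
      obtain ⟨h0, h3, -, h4, h5⟩ := hder _ hy
      rw [Function.comp_apply, h4.deriv, h5.deriv]
      rw [inv_inv] at h3 ⊢
      have hy0 : y ≠ 0 := fun h => h0 (by simp [h])
      rw [hBe y h3]
      field_simp
      ring
    rw [Metric.cobounded_eq_cocompact] at h1
    intro y
    rw [is_const_of_deriv_eq_zero h.hV (fun x => by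
      rw [← hWB, hB.apply_eq_of_tendsto_cocompact x h1, mul_zero]) y 0, h.V0]

theorem t1316_ev {p : ℂ → Prop} :
    (∀ᶠ y in comap Complex.im atTop, p y) ↔ ∃ T : ℝ, ∀ y : ℂ, T ≤ y.im → p y := by
  rw [eventually_comap, eventually_atTop]
  constructor
  · rintro ⟨T, hT⟩
    exact ⟨T, fun y hy => hT _ hy y rfl⟩
  · rintro ⟨T, hT⟩
    exact ⟨T, fun b hb y hy => hT y (by rw [hy]; exact hb)⟩

/-- The function of the variable `exp (2 π i y)` attached to `f (g * y)`. -/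
noncomputable def t1316_cf (g : ℂ) (f : ℂ → ℂ) : ℂ → ℂ :=
  Function.Periodic.cuspFunction 1 (fun y => f (g * y))

theorem t1316_per {f : ℂ → ℂ} {g : ℂ} (hp : Function.Periodic f g) :
    Function.Periodic (fun y => f (g * y)) ((1 : ℝ) : ℂ) := by
  intro y
  simp only [Complex.ofReal_one, mul_add, mul_one]
  exact hp _

theorem t1316_val {f : ℂ → ℂ} {g : ℂ} (hp : Function.Periodic f g) (y : ℂ) :
    t1316_cf g f (Function.Periodic.qParam 1 y) = f (g * y) :=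
  Function.Periodic.eq_cuspFunction one_ne_zero (t1316_per hp) y

theorem t1316_cusp {f : ℂ → ℂ} {g : ℂ} (hg : g ≠ 0) (hp : Function.Periodic f g) {y : ℂ}
    (hd : DifferentiableAt ℂ f (g * y)) :
    DifferentiableAt ℂ (t1316_cf g f) (Function.Periodic.qParam 1 y) ∧
      deriv f (g * y) = 2 * π * Complex.I / g * Function.Periodic.qParam 1 y *
        deriv (t1316_cf g f) (Function.Periodic.qParam 1 y) := by
  have h1 : HasDerivAt (fun y => f (g * y)) (deriv f (g * y) * g) y := by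
    have := hd.hasDerivAt.comp y ((hasDerivAt_id y).const_mul g)
    simpa [Function.comp_def] using this
  have h2 : DifferentiableAt ℂ (t1316_cf g f) (Function.Periodic.qParam 1 y) :=
    Function.Periodic.differentiableAt_cuspFunction one_ne_zero (t1316_per hp) h1.differentiableAt
  refine ⟨h2, ?_⟩
  have h3 : HasDerivAt (Function.Periodic.qParam 1)
      (Function.Periodic.qParam 1 y * (2 * π * Complex.I)) y := by
    have h4 : HasDerivAt (fun z : ℂ => 2 * π * Complex.I * z / ((1 : ℝ) : ℂ))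
        (2 * π * Complex.I) y := by
      simpa using (hasDerivAt_id y).const_mul (2 * π * Complex.I)
    exact h4.cexp
  have h5 := h2.hasDerivAt.comp y h3
  have h6 : (t1316_cf g f ∘ Function.Periodic.qParam 1) = fun y => f (g * y) :=
    funext fun z => t1316_val hp z
  rw [h6] at h5
  have h7 := h1.unique h5
  field_simp
  linear_combination h7

theorem t1316_pt {T : ℝ} {s : ℂ} (hs : s ∈ ball (0 : ℂ) (Real.exp (-2 * π * T / 1)) \ {0}) :
    Function.Periodic.qParam 1 (Function.Periodic.invQParam 1 s) = s ∧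
      T < (Function.Periodic.invQParam 1 s).im ∧ |(Function.Periodic.invQParam 1 s).re| ≤ 1 / 2 := by
  have h0 : s ≠ 0 := hs.2
  have h1 := Function.Periodic.qParam_right_inv (h := 1) one_ne_zero h0
  refine ⟨h1, ?_, ?_⟩
  · rw [← Function.Periodic.norm_qParam_lt_iff one_pos, h1]
    simpa using hs.1
  · have h2 : (Function.Periodic.invQParam 1 s).re = s.arg / (2 * π) := by
      have h3 : Function.Periodic.invQParam 1 s =
          ((1 / (2 * π) : ℝ) : ℂ) * (-Complex.I * Complex.log s) := by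
        have hp : (π : ℂ) ≠ 0 := by exact_mod_cast Real.pi_ne_zero
        unfold Function.Periodic.invQParam
        push_cast
        field_simp
        rw [Complex.I_sq]
        ring
      rw [h3, Complex.re_ofReal_mul]
      simp [Complex.log_im]
      ring
    rw [h2, abs_div, abs_of_pos (by positivity : (0 : ℝ) < 2 * π), div_le_iff₀ (by positivity)]
    have := Complex.abs_arg_le_pi s
    linarith

theorem t1316_mero {ρ : ℂ → ℂ} {δ : ℝ} (hδ : 0 < δ) {c : ℂ} (hc : c ≠ 0)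
    (hρ : DifferentiableOn ℂ ρ (ball 0 δ \ {0})) (h0 : ∀ s ∈ ball (0 : ℂ) δ \ {0}, ρ s ≠ 0) {K : ℕ}
    (hv : ∀ w : ℂ, w ≠ 4 → ∀ T : Finset ℂ,
      (∀ s ∈ T, s ∈ ball (0 : ℂ) δ \ {0} ∧ (c * s * deriv ρ s) ^ 2 = w * ρ s ^ 3) → T.card ≤ K) :
    MeromorphicAt ρ 0 := by
  have ho : IsOpen (ball (0 : ℂ) δ \ {0}) := isOpen_ball.sdiff isClosed_singleton
  have hd : DifferentiableOn ℂ (deriv ρ) (ball 0 δ \ {0}) := hρ.deriv ho
  have hφ : MeromorphicAt (fun s => (c * s * deriv ρ s) ^ 2 / ρ s ^ 3) 0 := by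
    refine mero_of_valence hδ (K := K) ?_ ?_
    · refine DifferentiableOn.div ?_ (hρ.pow 3) (fun s hs => pow_ne_zero _ (h0 s hs))
      exact (((differentiableOn_const c).mul differentiableOn_id).mul hd).pow 2
    · intro w hw T hT
      refine hv w hw T (fun s hs => ⟨(hT s hs).1, ?_⟩)
      have h1 := (hT s hs).2
      rw [div_eq_iff (pow_ne_zero _ (h0 s (hT s hs).1))] at h1
      exact h1
  have hψ : MeromorphicAt (fun s => (c * s * deriv ρ s) ^ 2 / ρ s ^ 3 / (c * s) ^ 2) 0 := by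
    have h1 : AnalyticAt ℂ (fun s : ℂ => (c * s) ^ 2) 0 := by fun_prop
    exact hφ.div h1.meromorphicAt
  have hG : MeromorphicAt (fun s => (ρ s)⁻¹) 0 := by
    refine mero_of_ode hδ (hρ.inv h0) hψ (fun s hs => ?_)
    have h1 : HasDerivAt (fun s => (ρ s)⁻¹) (-deriv ρ s / ρ s ^ 2) s :=
      ((hρ.differentiableAt (ho.mem_nhds hs)).hasDerivAt).inv (h0 s hs)
    have h2 := h0 s hs
    have h3 : s ≠ 0 := hs.2
    rw [h1.deriv]
    field_simp
  have h1 := hG.inv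
  have h2 : (fun s => (ρ s)⁻¹)⁻¹ = ρ := by
    funext s
    simp
  rwa [h2] at h1

theorem t1316_asym {ρ : ℂ → ℂ} (hm : MeromorphicAt ρ 0) (h0 : ∀ᶠ s in 𝓝[≠] (0 : ℂ), ρ s ≠ 0) :
    ∃ (j : ℤ) (κ : ℂ), κ ≠ 0 ∧ Tendsto (fun s => ρ s / s ^ j) (𝓝[≠] 0) (𝓝 κ) := by
  obtain ⟨G, h1, h2, h3⟩ := (meromorphicOrderAt_ne_top_iff hm).1
    ((meromorphicOrderAt_ne_top_iff_eventually_ne_zero hm).2 h0)
  refine ⟨(meromorphicOrderAt ρ 0).untop₀, G 0, h2, h1.continuousAt.continuousWithinAt.tendsto.congr' ?_⟩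
  filter_upwards [h3, self_mem_nhdsWithin] with s hs hs0
  have h4 : s ≠ 0 := hs0
  rw [hs, sub_zero, smul_eq_mul, mul_div_cancel_left₀ _ (zpow_ne_zero _ h4)]

/-- Comparison of the values at nearby points. -/
theorem t1316_cmp {r : ℂ → ℂ} {j : ℤ} {κ : ℂ} (hκ : κ ≠ 0)
    (h : Tendsto (fun y => r y / Function.Periodic.qParam 1 y ^ j) (comap Complex.im atTop)
      (𝓝 κ)) : ∃ m T : ℝ, 0 < m ∧ ∀ y z : ℂ, T ≤ y.im → ‖z - y‖ ≤ 1 / 4 → m * ‖r y‖ ≤ ‖r z‖ := by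
  have hk : 0 < ‖κ‖ := norm_pos_iff.2 hκ
  have h1 := h.norm
  obtain ⟨T, hT⟩ := t1316_ev.1
    ((h1.eventually (lt_mem_nhds (show ‖κ‖ / 2 < ‖κ‖ by linarith))).and
      (h1.eventually (gt_mem_nhds (show ‖κ‖ < 2 * ‖κ‖ by linarith))))
  have hq : ∀ y : ℂ, ‖Function.Periodic.qParam 1 y ^ j‖ = Real.exp (-2 * π * y.im * j) := by
    intro y
    rw [norm_zpow, Function.Periodic.norm_qParam, div_one, Real.exp_mul (-2 * π * y.im),
      Real.rpow_intCast]
  refine ⟨Real.exp (-(2 * π * (1 / 4) * |(j : ℝ)|)) / 4, T + 1, by positivity, ?_⟩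
  intro y z hy hz
  have h2 : |z.im - y.im| ≤ 1 / 4 := by
    have := Complex.abs_im_le_norm (z - y)
    rw [Complex.sub_im] at this
    linarith
  have h3 := (hT y (by linarith)).2
  have h4 := (hT z (by linarith [(abs_le.1 h2).1])).1
  rw [norm_div, hq] at h3 h4
  rw [div_lt_iff₀ (Real.exp_pos _)] at h3
  rw [lt_div_iff₀ (Real.exp_pos _)] at h4
  have h5 : Real.exp (-(2 * π * (1 / 4) * |(j : ℝ)|)) * Real.exp (-2 * π * y.im * j) ≤
      Real.exp (-2 * π * z.im * j) := by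
    rw [← Real.exp_add]
    apply Real.exp_le_exp.2
    have h6 : (z.im - y.im) * j ≤ 1 / 4 * |(j : ℝ)| := by
      refine (le_abs_self _).trans ?_
      rw [abs_mul]
      exact mul_le_mul_of_nonneg_right h2 (abs_nonneg _)
    nlinarith [Real.pi_pos]
  have h7 := Real.exp_pos (-(2 * π * (1 / 4) * |(j : ℝ)|))
  nlinarith [mul_lt_mul_of_pos_left h3 h7, mul_le_mul_of_nonneg_left h5 hk.le]

/-- The bound `Star` for points high in the strip. -/
theorem t1316_star {W V R : ℂ → ℂ} {g u : ℂ} (hg : g ≠ 0) {S : Set ℂ} (hs : Star W V R u S)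
    (hS : ∀ y : ℂ, |y.re| < 2 → g * y ∈ S) {T₀ T m : ℝ} (hm : 0 < m)
    (hT : ∀ y : ℂ, T₀ ≤ y.im → g * y ∉ Zs W V ∧ R (g * y) ≠ 0)
    (hc : ∀ y z : ℂ, T ≤ y.im → ‖z - y‖ ≤ 1 / 4 → m * ‖R (g * y)‖ ≤ ‖R (g * z)‖) :
    ∃ C T₁ : ℝ, ∀ (N : ℕ) (y : ℕ → ℂ), (∀ i < N, |(y i).re| ≤ 1 ∧ T₁ ≤ (y i).im) →
      (∀ i < N, ∀ j < N, i ≠ j → 1 ≤ ‖y i - y j‖) →
      ∑ i ∈ Finset.range N, ‖R (g * y i)‖ *
        -(u * (2 * deriv W (g * y i) + W (g * y i) * deriv R (g * y i) / R (g * y i))).re ≤ C := by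
  obtain ⟨C, hC⟩ := hs
  have hg0 : 0 < ‖g‖ := norm_pos_iff.2 hg
  refine ⟨C / (m * (‖g‖ / 4) ^ 2), max (max T (T₀ + 1)) 1, fun N y hy hd => ?_⟩
  have h1 := hC N (fun i => g * y i) (fun _ => ‖g‖ / 4) (fun i => m * ‖R (g * y i)‖) ?_ ?_
  · rw [le_div_iff₀ (by positivity), Finset.sum_mul]
    refine le_trans (le_of_eq (Finset.sum_congr rfl fun i _ => ?_)) h1
    ring
  · intro i hi j hj hij
    apply ball_disjoint_ball
    rw [dist_eq_norm, ← mul_sub, norm_mul]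
    nlinarith [hd i hi j hj hij]
  · intro i hi
    obtain ⟨h2, h3⟩ := hy i hi
    have h4 : T ≤ (y i).im := ((le_max_left _ _).trans (le_max_left _ _)).trans h3
    have h5 : T₀ + 1 ≤ (y i).im := ((le_max_right _ _).trans (le_max_left _ _)).trans h3
    have h6 : 1 ≤ (y i).im := (le_max_right _ _).trans h3
    have h7 : ∀ x ∈ closedBall (g * y i) (‖g‖ / 4), ∃ z, x = g * z ∧ ‖z - y i‖ ≤ 1 / 4 := by
      intro x hx
      refine ⟨x / g, by field_simp, ?_⟩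
      rw [mem_closedBall, dist_eq_norm] at hx
      have h8 : x / g - y i = (x - g * y i) / g := by field_simp
      rw [h8, norm_div, div_le_iff₀ hg0]
      linarith
    refine ⟨by positivity, mul_pos hm (norm_pos_iff.2 (hT _ (by linarith)).2), ?_, ?_, ?_⟩
    · rw [norm_mul]
      have h8 : 1 ≤ ‖y i‖ := h6.trans ((le_abs_self _).trans (Complex.abs_im_le_norm _))
      nlinarith
    · intro x hx
      obtain ⟨z, rfl, hz⟩ := h7 x hx
      have h8 := Complex.abs_im_le_norm (z - y i)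
      have h9 := Complex.abs_re_le_norm (z - y i)
      rw [Complex.sub_im] at h8
      rw [Complex.sub_re] at h9
      refine ⟨hS z ?_, (hT z (by linarith [(abs_le.1 (h8.trans hz)).1])).1⟩
      rw [abs_lt]
      constructor <;> linarith [abs_le.1 (h9.trans hz), abs_le.1 h2]
    · intro x hx
      obtain ⟨z, rfl, hz⟩ := h7 x hx
      exact hc _ _ h4 hz

/-- A nonzero limit is impossible when the argument of `r` turns. -/
theorem t1316_turn {r b : ℂ → ℂ} {j : ℤ} (hj : j ≠ 0) {κ β : ℂ} (hκ : κ ≠ 0)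
    (h : Tendsto (fun y => r y / Function.Periodic.qParam 1 y ^ j) (comap Complex.im atTop)
      (𝓝 κ)) (hb : Tendsto b (comap Complex.im atTop) (𝓝 β)) {C T₁ : ℝ}
    (hC : ∀ (N : ℕ) (y : ℕ → ℂ), (∀ i < N, |(y i).re| ≤ 1 ∧ T₁ ≤ (y i).im) →
      (∀ i < N, ∀ j < N, i ≠ j → 1 ≤ ‖y i - y j‖) →
      ∑ i ∈ Finset.range N, ‖r (y i)‖ * -(b (y i) / r (y i)).re ≤ C) : β = 0 := by
  by_contra hβ
  have hk : 0 < ‖κ‖ := norm_pos_iff.2 hκ
  have hb0 : 0 < ‖β‖ := norm_pos_iff.2 hβ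
  obtain ⟨ζ, hζ⟩ : ∃ ζ : ℂ, ζ = -(β / κ) := ⟨_, rfl⟩
  have hζ0 : ζ ≠ 0 := by
    rw [hζ]
    exact neg_ne_zero.2 (div_ne_zero hβ hκ)
  have hj0 : (j : ℝ) ≠ 0 := by exact_mod_cast hj
  obtain ⟨a, ha⟩ : ∃ a : ℝ, a = ζ.arg / (2 * π * j) := ⟨_, rfl⟩
  have ha1 : |a| ≤ 1 := by
    have h1 : (1 : ℝ) ≤ |(j : ℝ)| := by exact_mod_cast Int.one_le_abs hj
    rw [ha, abs_div, abs_mul, abs_of_pos (by positivity : (0 : ℝ) < 2 * π),
      div_le_one (by positivity)]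
    nlinarith [Complex.abs_arg_le_pi ζ, Real.pi_pos]
  have hq : ∀ y : ℂ, y.re = a → Function.Periodic.qParam 1 y ^ j =
      (Real.exp (-2 * π * y.im * j) : ℝ) * Complex.exp (ζ.arg * Complex.I) := by
    intro y hy
    rw [Function.Periodic.qParam, ← Complex.exp_int_mul, Complex.ofReal_exp, ← Complex.exp_add]
    congr 1
    have h1 : (ζ.arg : ℂ) = 2 * π * j * y.re := by
      rw [hy, ha]
      have hp : (π : ℂ) ≠ 0 := by exact_mod_cast Real.pi_ne_zero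
      have hj1 : (j : ℂ) ≠ 0 := by exact_mod_cast hj
      push_cast
      field_simp
    rw [h1]
    conv_lhs => rw [← Complex.re_add_im y]
    push_cast
    linear_combination (2 * π * j * y.im) * Complex.I_sq
  have he : Complex.exp (ζ.arg * Complex.I) = ζ / (‖ζ‖ : ℝ) := by
    have h1 := Complex.norm_mul_exp_arg_mul_I ζ
    have h2 : ((‖ζ‖ : ℝ) : ℂ) ≠ 0 := by exact_mod_cast norm_ne_zero_iff.2 hζ0
    rw [eq_div_iff h2, mul_comm]
    exact h1
  have hlim : Tendsto (fun y => ‖r y / Function.Periodic.qParam 1 y ^ j‖ *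
      -(b y / (r y / Function.Periodic.qParam 1 y ^ j) / (ζ / (‖ζ‖ : ℝ))).re)
      (comap Complex.im atTop) (𝓝 (‖κ‖ * -(β / κ / (ζ / (‖ζ‖ : ℝ))).re)) :=
    h.norm.mul ((Complex.continuous_re.tendsto _).comp ((hb.div h hκ).div_const _)).neg
  have hval : ‖κ‖ * -(β / κ / (ζ / (‖ζ‖ : ℝ))).re = ‖β‖ := by
    have h1 : β / κ / (ζ / (‖ζ‖ : ℝ)) = ((-‖ζ‖ : ℝ) : ℂ) := by
      have h2 : β / κ = -ζ := by rw [hζ, neg_neg]
      rw [h2]
      push_cast
      field_simp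
    rw [h1, Complex.ofReal_re, neg_neg, hζ, norm_neg, norm_div]
    field_simp
  rw [hval] at hlim
  obtain ⟨T, hT⟩ := t1316_ev.1 (hlim.eventually (lt_mem_nhds (show ‖β‖ / 2 < ‖β‖ by linarith)))
  have hterm : ∀ y : ℂ, y.re = a → T ≤ y.im → ‖β‖ / 2 ≤ ‖r y‖ * -(b y / r y).re := by
    intro y hy hyT
    have h1 := hT y hyT
    rw [hq y hy, he] at h1
    refine h1.le.trans (le_of_eq ?_)
    have hz : 0 < ‖ζ‖ := norm_pos_iff.2 hζ0
    obtain ⟨e, hee⟩ : ∃ e : ℝ, e = Real.exp (-2 * π * y.im * j) := ⟨_, rfl⟩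
    have he0 : 0 < e := by
      rw [hee]
      exact Real.exp_pos _
    rw [← hee]
    have h2 : b y / (r y / ((e : ℂ) * (ζ / (‖ζ‖ : ℝ)))) / (ζ / (‖ζ‖ : ℝ)) =
        (e : ℂ) * (b y / r y) := by
      have h3 : ∀ p q t η : ℂ, η ≠ 0 → p / (q / (t * η)) / η = t * (p / q) := by
        intro p q t η hη
        rw [div_div_eq_mul_div p q, ← mul_assoc, mul_div_right_comm, mul_div_cancel_right₀ _ hη]
        ring
      exact h3 _ _ _ _ (div_ne_zero hζ0 (by exact_mod_cast hz.ne'))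
    rw [h2, Complex.re_ofReal_mul, norm_div, norm_mul, norm_div, Complex.norm_real,
      Complex.norm_real, norm_norm, div_self hz.ne', Real.norm_of_nonneg he0.le]
    field_simp
  obtain ⟨N, hN⟩ := exists_nat_gt (C / (‖β‖ / 2))
  have h1 := hC N (fun i => ⟨a, max T T₁ + i⟩) ?_ ?_
  · have h2 : ∑ _i ∈ Finset.range N, ‖β‖ / 2 ≤ C := by
      refine le_trans (Finset.sum_le_sum fun i _ => hterm _ rfl ?_) h1
      have := le_max_left T T₁
      have h3 : (0 : ℝ) ≤ i := Nat.cast_nonneg i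
      show T ≤ max T T₁ + i
      linarith
    rw [Finset.sum_const, Finset.card_range, nsmul_eq_mul] at h2
    rw [div_lt_iff₀ (by positivity)] at hN
    linarith
  · intro i _
    refine ⟨ha1, ?_⟩
    have := le_max_right T T₁
    have h3 : (0 : ℝ) ≤ i := Nat.cast_nonneg i
    show T₁ ≤ max T T₁ + i
    linarith
  · intro i _ k _ hik
    refine le_trans ?_ (Complex.abs_im_le_norm _)
    rw [Complex.sub_im]
    show 1 ≤ |max T T₁ + i - (max T T₁ + k)|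
    have h2 : max T T₁ + i - (max T T₁ + k) = (((i : ℤ) - k : ℤ) : ℝ) := by
      push_cast
      ring
    rw [h2]
    have h3 : (i : ℤ) - k ≠ 0 := by omega
    exact_mod_cast Int.one_le_abs h3

theorem t1316_height {W V : ℂ → ℂ} {g x₀ : ℂ} (hg : g ≠ 0)
    (h3 : ∀ x ∈ Zs W V, ∃ m : ℤ, x = m * g ∨ x = x₀ + m * g) (y : ℂ)
    (hy : |(x₀ / g).im| + 1 ≤ |y.im|) : g * y ∉ Zs W V := by
  intro h
  obtain ⟨m, hm | hm⟩ := h3 _ h
  · have h1 : y = m := by
      apply mul_left_cancel₀ hg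
      rw [hm, mul_comm]
    rw [h1, Complex.intCast_im, abs_zero] at hy
    linarith [abs_nonneg (x₀ / g).im]
  · have h1 : y = x₀ / g + m := by
      apply mul_left_cancel₀ hg
      rw [hm]
      field_simp
    rw [h1, Complex.add_im, Complex.intCast_im, add_zero] at hy
    linarith

theorem t1316_shift {f : ℂ → ℂ} {g : ℂ} (hp : Function.Periodic f g) (y : ℂ) (m : ℤ) :
    f (g * (y - m)) = f (g * y) := by
  rw [mul_sub, mul_comm g (m : ℂ)]
  exact hp.sub_int_mul_eq m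

/-- The behaviour at the upper end of the cylinder. -/
theorem t1316_end {W V R B : ℂ → ℂ} (h : Trio W V R) {g : ℂ} (hg : g ≠ 0)
    (hWp : Function.Periodic W g) (hRp : Function.Periodic R g) {T₀ : ℝ}
    (hT : ∀ y : ℂ, T₀ ≤ y.im → g * y ∉ Zs W V)
    (hB : ∀ y ∉ Zs W V, B y = 2 * deriv W y * R y + W y * deriv R y) {u : ℂ} (hu : u ≠ 0) {K : ℕ}
    {S : Set ℂ} (hc : Cnt W V R K S) (hs : Star W V R u S)
    (hS : ∀ y : ℂ, |y.re| < 2 → g * y ∈ S) :
    Tendsto (fun y => B (g * y)) (comap Complex.im atTop) (𝓝 0) ∨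
      ∃ M : ℝ, ∀ᶠ y in comap Complex.im atTop, ‖W (g * y)‖ ≤ M := by
  classical
  have hRd : ∀ x ∉ Zs W V, DifferentiableAt ℂ R x := fun x hx =>
    h.hR.differentiableAt (h.closed.2.1.isOpen_compl.mem_nhds hx)
  have hfin : {x | x ∈ S \ Zs W V ∧ R x = 0}.Finite := by
    by_contra hinf
    obtain ⟨T, hT1, hT2⟩ := Set.Infinite.exists_subset_card_eq hinf (2 * K)
    have := hc.1 T (fun x hx => hT1 hx)
    omega
  obtain ⟨T₂, hT₂⟩ := (hfin.image (fun x => (x / g).im)).bddAbove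
  obtain ⟨T₁, hT₁⟩ : ∃ T₁ : ℝ, ∀ y : ℂ, T₁ ≤ y.im → g * y ∉ Zs W V ∧ R (g * y) ≠ 0 := by
    refine ⟨max T₀ (T₂ + 1), fun y hy => ⟨hT y ((le_max_left _ _).trans hy), fun h0 => ?_⟩⟩
    have h1 : (y - (⌊y.re⌋ : ℤ)).im = y.im := by simp
    have h2 : g * (y - (⌊y.re⌋ : ℤ)) ∈ {x | x ∈ S \ Zs W V ∧ R x = 0} := by
      refine ⟨⟨hS _ ?_, hT _ (by rw [h1]; exact (le_max_left _ _).trans hy)⟩, ?_⟩
      · rw [Complex.sub_re, Complex.intCast_re, abs_lt]
        constructor <;> linarith [Int.floor_le y.re, Int.lt_floor_add_one y.re]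
      · rw [t1316_shift hRp, h0]
    have h3 := hT₂ (mem_image_of_mem _ h2)
    rw [mul_div_cancel_left₀ _ hg, h1] at h3
    linarith [(le_max_right _ _).trans hy]
  have hc0 : 2 * π * Complex.I / g ≠ 0 := div_ne_zero Complex.two_pi_I_ne_zero hg
  have hpt : ∀ T : ℝ, T₁ ≤ T → ∀ s ∈ ball (0 : ℂ) (Real.exp (-2 * π * T / 1)) \ {0},
      ∃ y : ℂ, y = Function.Periodic.invQParam 1 s ∧ T < y.im ∧ |y.re| ≤ 1 / 2 ∧
        g * y ∉ Zs W V ∧ R (g * y) ≠ 0 ∧ t1316_cf g R s = R (g * y) ∧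
        t1316_cf g W s = W (g * y) ∧ DifferentiableAt ℂ (t1316_cf g R) s ∧
        DifferentiableAt ℂ (t1316_cf g W) s ∧
        deriv R (g * y) = 2 * π * Complex.I / g * s * deriv (t1316_cf g R) s ∧
        deriv W (g * y) = 2 * π * Complex.I / g * s * deriv (t1316_cf g W) s := by
    intro T hT' s hs
    obtain ⟨h1, h2, h3⟩ := t1316_pt hs
    obtain ⟨h4, h5⟩ := hT₁ _ (hT'.trans h2.le)
    have h6 := t1316_cusp hg hRp (hRd _ h4)
    have h7 := t1316_cusp hg hWp (h.hW (g * Function.Periodic.invQParam 1 s))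
    have h8 := t1316_val hRp (Function.Periodic.invQParam 1 s)
    have h9 := t1316_val hWp (Function.Periodic.invQParam 1 s)
    rw [h1] at h6 h7 h8 h9
    exact ⟨_, rfl, h2, h3, h4, h5, h8, h9, h6.1, h7.1, h6.2, h7.2⟩
  have hρd : ∀ T : ℝ, T₁ ≤ T →
      DifferentiableOn ℂ (t1316_cf g R) (ball (0 : ℂ) (Real.exp (-2 * π * T / 1)) \ {0}) := by
    intro T hT' s hs
    obtain ⟨y, -, -, -, -, -, -, -, h1, -⟩ := hpt T hT' s hs
    exact h1.differentiableWithinAt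
  have hρ0 : ∀ T : ℝ, T₁ ≤ T → ∀ s ∈ ball (0 : ℂ) (Real.exp (-2 * π * T / 1)) \ {0},
      t1316_cf g R s ≠ 0 := by
    intro T hT' s hs
    obtain ⟨y, -, -, -, -, h1, h2, -⟩ := hpt T hT' s hs
    rwa [h2]
  have hm : MeromorphicAt (t1316_cf g R) 0 := by
    refine t1316_mero (Real.exp_pos _) hc0 (hρd T₁ le_rfl) (hρ0 T₁ le_rfl) (K := 6 * K) ?_
    intro w hw F hF
    have h1 := hc.2 w hw (F.image fun s => g * Function.Periodic.invQParam 1 s) ?_
    · rw [Finset.card_image_of_injOn] at h1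
      · exact h1.le
      · intro s hs t ht hst
        have h2 := mul_left_cancel₀ hg hst
        rw [← (t1316_pt (hF s hs).1).1, h2, (t1316_pt (hF t ht).1).1]
    · intro x hx
      obtain ⟨s, hs, rfl⟩ := Finset.mem_image.1 hx
      obtain ⟨y, rfl, -, h2, h3, -, h4, -, -, -, h5, -⟩ := hpt T₁ le_rfl s (hF s hs).1
      refine ⟨⟨hS _ (by linarith), h3⟩, ?_⟩
      rw [h5, ← h4]
      exact (hF s hs).2
  have hq := Function.Periodic.qParam_tendsto (h := 1) one_pos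
  have hasym : ∀ (j : ℤ) (κ : ℂ), Tendsto (fun s => t1316_cf g R s / s ^ j) (𝓝[≠] 0) (𝓝 κ) →
      Tendsto (fun y => R (g * y) / Function.Periodic.qParam 1 y ^ j) (comap Complex.im atTop)
        (𝓝 κ) := by
    intro j κ h1
    refine (h1.comp hq).congr fun y => ?_
    simp only [Function.comp_apply, t1316_val hRp]
  obtain ⟨j₀, κ₀, hκ₀, hj₀⟩ := t1316_asym hm (by
    filter_upwards [sdiff_mem_nhdsWithin_compl (ball_mem_nhds (0 : ℂ)
      (Real.exp_pos (-2 * π * T₁ / 1))) {0}] with s hs using hρ0 T₁ le_rfl s hs)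
  obtain ⟨m, T₃, hm0, hcmp⟩ := t1316_cmp (r := fun y => R (g * y)) hκ₀ (hasym _ _ hj₀)
  obtain ⟨C, T₄, hC⟩ := t1316_star hg hs hS hm0 hT₁ hcmp
  have hT5 : T₁ ≤ max T₁ T₄ := le_max_left _ _
  obtain ⟨j, κ, hκ, hj, hcase⟩ := end_lemma (R := t1316_cf g R) (w := t1316_cf g W) (C := C)
    (Real.exp_pos (-2 * π * max T₁ T₄ / 1)) hc0 hu (hρd _ hT5)
    (by
      intro s hs
      obtain ⟨y, -, -, -, -, -, -, -, -, h1, -⟩ := hpt _ hT5 s hs
      exact h1.differentiableWithinAt)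
    (hρ0 _ hT5) hm
    (by
      intro s hs
      obtain ⟨y, -, h1, h2, -, h3, h4, h5, -, -, h6, h7⟩ := hpt _ hT5 s hs
      have h8 := hC 1 (fun _ => y)
        (fun _ _ => ⟨by linarith, (le_max_right _ _).trans h1.le⟩) (fun i hi k hk hik => by omega)
      rw [Finset.sum_range_one] at h8
      have h9 : 2 * π * Complex.I / g * s * (2 * deriv (t1316_cf g W) s +
          t1316_cf g W s * deriv (t1316_cf g R) s / t1316_cf g R s) =
          2 * deriv W (g * y) + W (g * y) * deriv R (g * y) / R (g * y) := by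
        rw [h6, h7, h4, h5]
        ring
      rw [h9, h4, neg_le, le_div_iff₀ (norm_pos_iff.2 h3), mul_comm]
      exact h8)
  rcases hcase with ⟨M, hM⟩ | ⟨hj0, β, hβ⟩
  · right
    refine ⟨M, ?_⟩
    filter_upwards [hq.eventually hM] with y hy
    rwa [t1316_val hWp] at hy
  · left
    have hBl : Tendsto (fun y => B (g * y)) (comap Complex.im atTop) (𝓝 β) := by
      refine (hβ.comp hq).congr' (t1316_ev.2 ⟨T₁, fun y hy => ?_⟩)
      have h1 := (hT₁ y hy).1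
      simp only [Function.comp_apply]
      rw [hB _ h1, (t1316_cusp hg hRp (hRd _ h1)).2, (t1316_cusp hg hWp (h.hW _)).2,
        t1316_val hRp, t1316_val hWp]
      ring
    have h1 : u * β = 0 := by
      refine t1316_turn (r := fun y => R (g * y)) (b := fun y => u * B (g * y)) hj0 hκ
        (hasym _ _ hj) (hBl.const_mul u) (C := C) (T₁ := max T₁ T₄) ?_
      intro N y hy hd
      refine le_trans (le_of_eq (Finset.sum_congr rfl fun i hi => ?_))
        (hC N y (fun i hi => ⟨(hy i hi).1, (le_max_right _ _).trans (hy i hi).2⟩) hd)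
      obtain ⟨h2, h3⟩ := hT₁ (y i) (hT5.trans (hy i (Finset.mem_range.1 hi)).2)
      rw [hB _ h2]
      congr 3
      field_simp
    rwa [(mul_eq_zero.1 h1).resolve_left hu] at hBl

/-- The derivative of a bounded periodic function tends to zero at the end. -/
theorem t1316_der {f : ℂ → ℂ} {g : ℂ} (hg : g ≠ 0) (hp : Function.Periodic f g)
    (hd : ∀ᶠ y in comap Complex.im atTop, DifferentiableAt ℂ f (g * y)) {M : ℝ}
    (hb : ∀ᶠ y in comap Complex.im atTop, ‖f (g * y)‖ ≤ M) :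
    Tendsto (fun y => deriv f (g * y)) (comap Complex.im atTop) (𝓝 0) := by
  have hd' : ∀ᶠ y in comap Complex.im atTop, DifferentiableAt ℂ (fun y => f (g * y)) y := by
    filter_upwards [hd] with y hy
    exact hy.comp y (by fun_prop)
  have h1 : DifferentiableAt ℂ (t1316_cf g f) 0 := by
    refine Function.Periodic.differentiableAt_cuspFunction_zero one_pos (t1316_per hp) hd' ?_
    refine Asymptotics.IsBigO.of_bound M ?_
    filter_upwards [hb] with y hy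
    simpa using hy
  have h2 := Function.Periodic.eventually_differentiableAt_cuspFunction_nhds_ne_zero one_pos
    (t1316_per hp) hd'
  have h3 : AnalyticAt ℂ (t1316_cf g f) 0 := by
    rw [Complex.analyticAt_iff_eventually_differentiableAt]
    rw [eventually_nhdsWithin_iff] at h2
    filter_upwards [h2] with s hs
    by_cases h0 : s = 0
    · rw [h0]
      exact h1
    · exact hs h0
  have hq := (Function.Periodic.qParam_tendsto (h := 1) one_pos).mono_right nhdsWithin_le_nhds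
  have h4 := (hq.const_mul (2 * π * Complex.I / g)).mul (h3.deriv.continuousAt.tendsto.comp hq)
  rw [mul_zero, zero_mul] at h4
  refine h4.congr' ?_
  filter_upwards [hd] with y hy
  exact (t1316_cusp hg hp hy).2.symm

/-- A periodic entire function bounded at both ends is constant. -/
theorem t1316_const {f : ℂ → ℂ} {g : ℂ} (hg : g ≠ 0) (hp : Function.Periodic f g)
    (hd : Differentiable ℂ f) {M M' : ℝ}
    (h1 : ∀ᶠ y in comap Complex.im atTop, ‖f (g * y)‖ ≤ M)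
    (h2 : ∀ᶠ y in comap Complex.im atTop, ‖f (-g * y)‖ ≤ M') (x y : ℂ) : f x = f y := by
  obtain ⟨T, hT⟩ := t1316_ev.1 h1
  obtain ⟨T', hT'⟩ := t1316_ev.1 h2
  have hc : Continuous fun y => f (g * y) := hd.continuous.comp (by fun_prop)
  obtain ⟨L, hL⟩ := (isCompact_closedBall (0 : ℂ) (1 + |T| + |T'|)).exists_bound_of_continuousOn
    hc.continuousOn
  apply hd.apply_eq_apply_of_bounded
  rw [isBounded_iff_forall_norm_le]
  refine ⟨max L (max M M'), ?_⟩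
  rintro _ ⟨z, rfl⟩
  obtain ⟨y, rfl⟩ : ∃ y, z = g * y := ⟨z / g, by field_simp⟩
  by_cases h3 : T ≤ y.im
  · exact (hT y h3).trans ((le_max_left _ _).trans (le_max_right _ _))
  by_cases h4 : T' ≤ (-y).im
  · have h5 := hT' _ h4
    rw [neg_mul_neg] at h5
    exact h5.trans ((le_max_right _ _).trans (le_max_right _ _))
  rw [← t1316_shift hp y ⌊y.re⌋]
  refine (hL _ ?_).trans (le_max_left _ _)
  rw [mem_closedBall, dist_zero_right]
  refine (Complex.norm_le_abs_re_add_abs_im _).trans ?_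
  rw [Complex.neg_im] at h4
  have h5 : |(y - (⌊y.re⌋ : ℤ)).re| ≤ 1 := by
    rw [Complex.sub_re, Complex.intCast_re, abs_le]
    constructor <;> linarith [Int.floor_le y.re, Int.lt_floor_add_one y.re]
  have h6 : |(y - (⌊y.re⌋ : ℤ)).im| ≤ |T| + |T'| := by
    rw [Complex.sub_im, Complex.intCast_im, sub_zero, abs_le]
    constructor <;> linarith [le_abs_self T, le_abs_self T', abs_nonneg T, abs_nonneg T']
  linarith

theorem t1316_bd {W V R B : ℂ → ℂ} (h : Trio W V R) {g : ℂ} (hg : g ≠ 0)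
    (hWp : Function.Periodic W g) (hRp : Function.Periodic R g) {T₀ : ℝ}
    (hT : ∀ y : ℂ, T₀ ≤ y.im → g * y ∉ Zs W V)
    (hB : ∀ y ∉ Zs W V, B y = 2 * deriv W y * R y + W y * deriv R y) {M : ℝ}
    (hb : ∀ᶠ y in comap Complex.im atTop, ‖W (g * y)‖ ≤ M ∧ ‖R (g * y)‖ ≤ M) :
    Tendsto (fun y => B (g * y)) (comap Complex.im atTop) (𝓝 0) := by
  have h1 := t1316_der hg hWp (Eventually.of_forall fun y => h.hW _) (hb.mono fun _ hy => hy.1)
  have h2 := t1316_der hg hRp (t1316_ev.2 ⟨T₀, fun y hy =>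
    h.hR.differentiableAt (h.closed.2.1.isOpen_compl.mem_nhds (hT y hy))⟩)
    (hb.mono fun _ hy => hy.2)
  have h3 := ((h1.norm.const_mul 2).mul_const M).add (h2.norm.const_mul M)
  simp only [norm_zero, mul_zero, zero_mul, add_zero] at h3
  refine squeeze_zero_norm' ?_ h3
  filter_upwards [hb, t1316_ev.2 ⟨T₀, hT⟩] with y hy hy'
  rw [hB _ hy']
  refine (norm_add_le _ _).trans (add_le_add ?_ ?_)
  · rw [norm_mul, norm_mul, Complex.norm_two]
    exact mul_le_mul_of_nonneg_left hy.2 (by positivity)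
  · rw [norm_mul]
    exact mul_le_mul_of_nonneg_right hy.1 (norm_nonneg _)

theorem t1316_Wne {W V R : ℂ → ℂ} (h : Trio W V R) (x : ℂ) : ∀ᶠ y in 𝓝[≠] x, W y ≠ 0 := by
  have ha : AnalyticOnNhd ℂ W univ := fun y _ => h.hW.analyticAt y
  refine (ha x trivial).eventually_eq_zero_or_eventually_ne_zero.resolve_left fun h0 => ?_
  have h1 : W = fun _ => 0 := funext fun y =>
    ha.eqOn_zero_of_preconnected_of_eventuallyEq_zero isPreconnected_univ (mem_univ x) h0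
      (mem_univ y)
  have h2 := h.W1
  rw [h1, deriv_const] at h2
  exact zero_ne_one h2

theorem t1316_eq {a b : ℂ → ℂ} {x : ℂ} (ha : ContinuousAt a x) (hb : ContinuousAt b x)
    (h : ∀ᶠ y in 𝓝[≠] x, a y = b y) : a x = b x :=
  tendsto_nhds_unique_of_eventuallyEq (ha.tendsto.mono_left nhdsWithin_le_nhds)
    (hb.tendsto.mono_left nhdsWithin_le_nhds) h

theorem t1316_main {W V R : ℂ → ℂ} (h : Trio W V R) {g x₀ : ℂ} (hg : g ≠ 0)
    (hWp : Function.Periodic W g) (hVp : Function.Periodic V g) (hRp : Function.Periodic R g)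
    (h2 : ∀ x μ, Symm W V x μ → μ = 1 ∨ μ = -1)
    (h3 : ∀ x ∈ Zs W V, ∃ m : ℤ, x = m * g ∨ x = x₀ + m * g) {u : ℂ} (hu : u ≠ 0) {K : ℕ}
    (hc : Cnt W V R K {y | |(y / g).re| < 2}) (hs : Star W V R u {y | |(y / g).re| < 2}) :
    (∀ y, V y = 1) ∨ ((∀ x μ, Symm W V x μ → μ = 1) ∧ ∀ s : ℝ, s = 1 ∨ s = -1 → ∀ M : ℝ,
      ∃ y : ℂ, 0 ≤ y.re ∧ y.re ≤ 1 ∧ 2 ≤ s * y.im ∧ (M < ‖W (g * y)‖ ∨ M < ‖R (g * y)‖)) := by
  obtain ⟨B, hBd, hWB, hB⟩ := h.exists_B
  have hBp : Function.Periodic B g := by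
    intro x
    refine t1316_eq (a := fun y => B (y + g)) (hBd.continuous.comp (by fun_prop)).continuousAt
      hBd.continuous.continuousAt ?_
    filter_upwards [t1316_Wne h x] with y hy
    apply mul_left_cancel₀ hy
    have h4 : (fun x => V (x + g)) = V := funext hVp
    rw [hWB y, ← hWp y, hWB, ← deriv_comp_add_const, h4]
  have hg' : -g ≠ 0 := neg_ne_zero.2 hg
  have hT1 : ∀ y : ℂ, |(x₀ / g).im| + 1 ≤ y.im → g * y ∉ Zs W V := fun y hy =>
    t1316_height hg h3 y (hy.trans (le_abs_self _))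
  have hT2 : ∀ y : ℂ, |(x₀ / g).im| + 1 ≤ y.im → -g * y ∉ Zs W V := by
    intro y hy
    rw [neg_mul, ← mul_neg]
    refine t1316_height hg h3 _ ?_
    rw [Complex.neg_im, abs_neg]
    exact hy.trans (le_abs_self _)
  have E1 := t1316_end h hg hWp hRp hT1 hB hu hc hs (fun y hy => by
    show |(g * y / g).re| < 2
    rwa [mul_div_cancel_left₀ _ hg])
  have E2 := t1316_end h hg' hWp.neg hRp.neg hT2 hB hu hc hs (fun y hy => by
    show |(-g * y / g).re| < 2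
    rwa [neg_mul, neg_div, mul_div_cancel_left₀ _ hg, Complex.neg_re, abs_neg])
  by_cases hV : ∀ y, V y = 1
  · exact Or.inl hV
  right
  have nP : Tendsto (fun y => B (g * y)) (comap Complex.im atTop) (𝓝 0) →
      Tendsto (fun y => B (-g * y)) (comap Complex.im atTop) (𝓝 0) → False := by
    intro p1 p2
    have hconst := t1316_const hg hBp hBd (M := 1) (M' := 1)
      (p1.norm.eventually (ge_mem_nhds (by simp))) (p2.norm.eventually (ge_mem_nhds (by simp)))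
    have : (comap Complex.im atTop).NeBot := atTop_neBot.comap_of_surj Complex.im_surjective
    have h0 : ∀ x, B x = 0 := fun x =>
      tendsto_nhds_unique (tendsto_const_nhds.congr fun y => hconst x (g * y)) p1
    refine hV fun y => ?_
    rw [← h.V0]
    exact is_const_of_deriv_eq_zero h.hV (fun x => by rw [← hWB, h0, mul_zero]) y 0
  have nQ : (∃ M : ℝ, ∀ᶠ y in comap Complex.im atTop, ‖W (g * y)‖ ≤ M) →
      (∃ M : ℝ, ∀ᶠ y in comap Complex.im atTop, ‖W (-g * y)‖ ≤ M) → False := by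
    rintro ⟨M, q1⟩ ⟨M', q2⟩
    have h4 : W = fun _ => W 0 := funext fun x => t1316_const hg hWp h.hW q1 q2 x 0
    have h5 := h.W1
    rw [h4, deriv_const] at h5
    exact zero_ne_one h5
  constructor
  · intro x μ hx
    refine (h2 x μ hx).resolve_right fun hμ => ?_
    have key : ∀ e : ℂ, e ≠ 0 → (∃ M : ℝ, ∀ᶠ y in comap Complex.im atTop, ‖W (e * y)‖ ≤ M) →
        ∃ M : ℝ, ∀ᶠ y in comap Complex.im atTop, ‖W (-e * y)‖ ≤ M := by
      rintro e he ⟨M, q1⟩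
      obtain ⟨T, hT⟩ := t1316_ev.1 q1
      refine ⟨M, t1316_ev.2 ⟨T - (x / e).im, fun y hy => ?_⟩⟩
      have h4 := (hx.2 (e * (y + x / e))).1
      have h5 : x + μ * (e * (y + x / e)) = -e * y := by
        rw [hμ]
        field_simp
        ring
      rw [← h5, h4, hμ, norm_mul, norm_neg, norm_one, one_mul]
      apply hT
      rw [Complex.add_im]
      linarith
    rcases E1 with p1 | q1
    · rcases E2 with p2 | q2
      · exact nP p1 p2
      · have q1 := key _ hg' q2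
        rw [neg_neg] at q1
        exact nQ q1 q2
    · exact nQ q1 (key _ hg q1)
  · intro s hs1 M
    by_contra hcon
    have hcon' : ∀ y : ℂ, 2 ≤ s * y.im → ‖W (g * y)‖ ≤ M ∧ ‖R (g * y)‖ ≤ M := by
      intro y hy
      rw [← t1316_shift hWp y ⌊y.re⌋, ← t1316_shift hRp y ⌊y.re⌋]
      by_contra h4
      rw [not_and_or, not_le, not_le] at h4
      refine hcon ⟨y - (⌊y.re⌋ : ℤ), ?_, ?_, ?_, h4⟩
      · rw [Complex.sub_re, Complex.intCast_re]
        linarith [Int.floor_le y.re]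
      · rw [Complex.sub_re, Complex.intCast_re]
        linarith [Int.lt_floor_add_one y.re]
      · rwa [Complex.sub_im, Complex.intCast_im, sub_zero]
    rcases hs1 with rfl | rfl
    · have hb : ∀ᶠ y in comap Complex.im atTop, ‖W (g * y)‖ ≤ M ∧ ‖R (g * y)‖ ≤ M :=
        t1316_ev.2 ⟨2, fun y hy => hcon' y (by linarith)⟩
      rcases E2 with p2 | q2
      · exact nP (t1316_bd h hg hWp hRp hT1 hB hb) p2
      · exact nQ ⟨M, hb.mono fun _ hy => hy.1⟩ q2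
    · have hb : ∀ᶠ y in comap Complex.im atTop, ‖W (-g * y)‖ ≤ M ∧ ‖R (-g * y)‖ ≤ M := by
        refine t1316_ev.2 ⟨2, fun y hy => ?_⟩
        rw [neg_mul, ← mul_neg]
        refine hcon' _ ?_
        rw [Complex.neg_im]
        linarith
      rcases E1 with p1 | q1
      · exact nP p1 (t1316_bd h hg' hWp.neg hRp.neg hT2 hB hb)
      · exact nQ q1 ⟨M, hb.mono fun _ hy => hy.1⟩

theorem Trio.rigid_per {W V R : ℂ → ℂ} (h : Trio W V R) {g x₀ : ℂ} (hg : g ≠ 0)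
    (h1 : Symm W V g 1) (h2 : ∀ x μ, Symm W V x μ → μ = 1 ∨ μ = -1)
    (h3 : ∀ x ∈ Zs W V, ∃ m : ℤ, x = m * g ∨ x = x₀ + m * g) {u : ℂ} (hu : u ≠ 0) {K : ℕ}
    (hc : Cnt W V R K {y | |(y / g).re| < 2}) (hs : Star W V R u {y | |(y / g).re| < 2}) :
    (∀ y, V y = 1) ∨ ((∀ x μ, Symm W V x μ → μ = 1) ∧ ∀ s : ℝ, s = 1 ∨ s = -1 → ∀ M : ℝ,
      ∃ y : ℂ, 0 ≤ y.re ∧ y.re ≤ 1 ∧ 2 ≤ s * y.im ∧ (M < ‖W (g * y)‖ ∨ M < ‖R (g * y)‖)) := by
  classical
  have hWp : Function.Periodic W g := fun y => by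
    have := (h1.2 y).1
    rwa [one_mul, one_mul, add_comm] at this
  have hVp : Function.Periodic V g := fun y => by
    have := (h1.2 y).2
    rwa [one_mul, add_comm] at this
  have hZ : ∀ y, y + g ∈ Zs W V ↔ y ∈ Zs W V := fun y => by
    show W (y + g) = 0 ∧ V (y + g) ≠ 0 ↔ W y = 0 ∧ V y ≠ 0
    rw [hWp, hVp]
  have ho : IsOpen (Zs W V)ᶜ := h.closed.2.1.isOpen_compl
  obtain ⟨Q, hQ⟩ : ∃ Q : ℂ → ℂ, Q = fun z => if z ∈ Zs W V then 0 else R z := ⟨_, rfl⟩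
  have hQ1 : ∀ z ∉ Zs W V, Q z = R z := fun z hz => by rw [hQ]; exact if_neg hz
  have hQ0 : ∀ z ∈ Zs W V, Q z = 0 := fun z hz => by rw [hQ]; exact if_pos hz
  have hQd : ∀ z ∉ Zs W V, deriv Q z = deriv R z := fun z hz =>
    Filter.EventuallyEq.deriv_eq (by
      filter_upwards [ho.mem_nhds hz] with y hy using hQ1 y hy)
  have hQp : Function.Periodic Q g := by
    intro x
    by_cases hx : x ∈ Zs W V
    · rw [hQ0 x hx, hQ0 _ ((hZ x).2 hx)]
    have hx' : x + g ∉ Zs W V := fun h4 => hx ((hZ x).1 h4)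
    rw [hQ1 x hx, hQ1 _ hx']
    refine t1316_eq (a := fun y => R (y + g))
      (ContinuousAt.comp (f := fun y => y + g)
        (h.hR.differentiableAt (ho.mem_nhds hx')).continuousAt (by fun_prop))
      (h.hR.differentiableAt (ho.mem_nhds hx)).continuousAt ?_
    filter_upwards [t1316_Wne h x] with y hy
    have hy1 : y ∉ Zs W V := fun h4 => hy h4.1
    have h4 := h.eq _ (fun h4 => hy1 ((hZ y).1 h4))
    rw [hWp, hVp, ← h.eq y hy1] at h4
    exact mul_left_cancel₀ (pow_ne_zero 2 hy) h4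
  have hT : Trio W V Q := ⟨h.hW, h.hV, h.W0, h.W1, h.V0, h.V1, h.hR.congr fun z hz => hQ1 z hz,
    fun y hy => by rw [hQ1 y hy]; exact h.eq y hy, h.sym⟩
  have hc' : Cnt W V Q K {y | |(y / g).re| < 2} := by
    refine ⟨fun T hT => hc.1 T fun x hx => ⟨(hT x hx).1, ?_⟩,
      fun w hw T hT => hc.2 w hw T fun x hx => ⟨(hT x hx).1, ?_⟩⟩
    · rw [← hQ1 x (hT x hx).1.2]
      exact (hT x hx).2
    · rw [← hQ1 x (hT x hx).1.2, ← hQd x (hT x hx).1.2]
      exact (hT x hx).2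
  have hs' : Star W V Q u {y | |(y / g).re| < 2} := by
    obtain ⟨C, hC⟩ := hs
    refine ⟨C, fun N x ε μ hd hx => ?_⟩
    refine le_trans (le_of_eq (Finset.sum_congr rfl fun i hi => ?_)) (hC N x ε μ hd ?_)
    · obtain ⟨h4, -, -, h5, -⟩ := hx i (Finset.mem_range.1 hi)
      have h6 := (h5 (mem_closedBall_self h4.le)).2
      rw [hQ1 _ h6, hQd _ h6]
    · intro i hi
      obtain ⟨h4, h5, h6, h7, h8⟩ := hx i hi
      refine ⟨h4, h5, h6, h7, fun y hy => ?_⟩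
      rw [← hQ1 y (h7 hy).2]
      exact h8 y hy
  refine (t1316_main hT hg hWp hVp hQp h2 h3 hu hc' hs').imp_right fun h4 => ⟨h4.1, ?_⟩
  intro s hs1 M
  obtain ⟨y, h5, h6, h7, h8⟩ := h4.2 s hs1 (max M 0)
  refine ⟨y, h5, h6, h7, h8.imp (fun h9 => (le_max_left _ _).trans_lt h9) fun h9 => ?_⟩
  by_cases hy : g * y ∈ Zs W V
  · rw [hQ0 _ hy, norm_zero] at h9
    exact absurd h9 (not_lt.2 (le_max_right _ _))
  · rw [hQ1 _ hy] at h9
    exact (le_max_left _ _).trans_lt h9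

end Pool.Agent.MP_28f8a1_an.H42

end
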