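import Pool.Agent.Lib.PlaneTop.Jump
import Pool.Agent.MP_28f8a1_an.H42.Defs
import Pool.Agent.MP_28f8a1_an.Mg.H42_Rigid

-- part MP_28f8a1_an.H42.Tube
section

/-! The inside of an embedded closed tube. -/

set_option autoImplicit false

namespace Pool.Agent.MP_28f8a1_an.H42

open MeasureTheory Metric Set Real Filter Topology Polynomial
open scoped ENNReal

open Pool.Agent.Lib.PlaneTop

/-- `F` has a continuous logarithm with period `l`. -/
def t1275_PL (l : ℝ) (F : ℝ → ℂ) : Prop :=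
  ∃ ω : ℝ → ℂ, Continuous ω ∧ (∀ x, ω (x + l) = ω x) ∧ ∀ x, Complex.exp (ω x) = F x

lemma t1275_const (l : ℝ) {c : ℂ} (hc : c ≠ 0) : t1275_PL l (fun _ => c) :=
  ⟨fun _ => Complex.log c, continuous_const, fun _ => rfl, fun _ => Complex.exp_log hc⟩

lemma t1275_congr {l : ℝ} {F G : ℝ → ℂ} (h : t1275_PL l F) (e : ∀ x, G x = F x) :
    t1275_PL l G := by
  obtain ⟨ω, h1, h2, h3⟩ := h
  exact ⟨ω, h1, h2, fun x => (h3 x).trans (e x).symm⟩

lemma t1275_mul {l : ℝ} {F G : ℝ → ℂ} (h : t1275_PL l F) (h' : t1275_PL l G) :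
    t1275_PL l (fun x => F x * G x) := by
  obtain ⟨ω, h1, h2, h3⟩ := h
  obtain ⟨ω', h1', h2', h3'⟩ := h'
  exact ⟨fun x => ω x + ω' x, h1.add h1', fun x => by simp only [h2, h2'],
    fun x => by rw [Complex.exp_add, h3, h3']⟩

lemma t1275_div {l : ℝ} {F G : ℝ → ℂ} (h : t1275_PL l F) (h' : t1275_PL l G) :
    t1275_PL l (fun x => F x / G x) := by
  obtain ⟨ω, h1, h2, h3⟩ := h
  obtain ⟨ω', h1', h2', h3'⟩ := h'
  exact ⟨fun x => ω x - ω' x, h1.sub h1', fun x => by simp only [h2, h2'],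
    fun x => by rw [Complex.exp_sub, h3, h3']⟩

lemma t1275_slit {l : ℝ} {F : ℝ → ℂ} (hF : Continuous F) (hp : ∀ x, F (x + l) = F x)
    (h : ∀ x, F x ∈ Complex.slitPlane) : t1275_PL l F :=
  ⟨fun x => Complex.log (F x), hF.clog h, fun x => by simp only [hp],
    fun x => Complex.exp_log (Complex.slitPlane_ne_zero (h x))⟩

lemma t1275_prod {l : ℝ} (γ : ℝ → ℂ) (m : Multiset ℂ)
    (h : ∀ r ∈ m, t1275_PL l (fun x => γ x - r)) :
    t1275_PL l (fun x => (m.map (γ x - ·)).prod) := by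
  induction m using Multiset.induction_on with
  | empty => simpa using t1275_const l one_ne_zero
  | cons a m ih =>
    have := t1275_mul (h a (by simp)) (ih fun r hr => h r (by simp [hr]))
    exact t1275_congr this fun x => by simp

lemma t1275_homotopy {l : ℝ} {H : ℝ → ℝ → ℂ}
    (hH : ContinuousOn (fun p : ℝ × ℝ => H p.1 p.2) (Icc 0 1 ×ˢ univ))
    (hne : ∀ t ∈ Icc (0 : ℝ) 1, ∀ x, H t x ≠ 0)
    (hp : ∀ t ∈ Icc (0 : ℝ) 1, ∀ x, H t (x + l) = H t x) (h0 : t1275_PL l (H 0)) :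
    t1275_PL l (H 1) := by
  obtain ⟨ω, h1, h2, h3⟩ := h0
  have hconv : Convex ℝ (Icc (0 : ℝ) 1 ×ˢ (univ : Set ℝ)) := (convex_Icc 0 1).prod convex_univ
  obtain ⟨Ω, k1, k2⟩ := hasLogOn_of_convex hconv hH (fun p hp => hne _ hp.1 _)
  have m0 : ∀ x : ℝ, ((0 : ℝ), x) ∈ Icc (0 : ℝ) 1 ×ˢ (univ : Set ℝ) := fun x => ⟨by simp, trivial⟩
  have m1 : ∀ x : ℝ, ((1 : ℝ), x) ∈ Icc (0 : ℝ) 1 ×ˢ (univ : Set ℝ) := fun x => ⟨by simp, trivial⟩
  have k3 : ContinuousOn (fun p : ℝ × ℝ => Ω (p.1, p.2 + l)) (Icc 0 1 ×ˢ univ) :=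
    k1.comp (f := fun p : ℝ × ℝ => (p.1, p.2 + l)) (by fun_prop) fun p hp => ⟨hp.1, trivial⟩
  have e1 : ∀ x, Ω (1, x + l) - Ω (1, x) = Ω (0, 0 + l) - Ω (0, 0) := fun x =>
    log_sub_const hconv.isPreconnected k3 k1 (fun p hp' => by
      rw [k2 (p.1, p.2 + l) ⟨hp'.1, trivial⟩, k2 p hp']
      exact hp _ hp'.1 _) (m1 x) (m0 0)
  have k4 : Continuous fun x : ℝ => Ω (0, x) :=
    k1.comp_continuous (f := fun x : ℝ => ((0 : ℝ), x)) (by fun_prop) m0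
  have e2 : Ω (0, 0 + l) - ω (0 + l) = Ω (0, 0) - ω 0 :=
    log_sub_const (ω := fun x : ℝ => Ω (0, x)) isPreconnected_univ k4.continuousOn
      h1.continuousOn (fun x _ => by rw [k2 _ (m0 x), h3]) trivial trivial
  refine ⟨fun x => Ω (1, x), k1.comp_continuous (f := fun x : ℝ => ((1 : ℝ), x)) (by fun_prop) m1,
    fun x => ?_, fun x => k2 _ (m1 x)⟩
  have := e1 x
  rw [h2] at e2
  linear_combination this + e2

/-- A function with `F (x + l / 2) = - F x` has no periodic logarithm. -/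
lemma t1275_odd {l : ℝ} {F : ℝ → ℂ} (hF : ∀ x, F (x + l / 2) = -F x) : ¬t1275_PL l F := by
  rintro ⟨ω, h1, h2, h3⟩
  have hc : Continuous fun x : ℝ => ω (x + l / 2) := h1.comp (by fun_prop)
  have e := log_sub_const (ω := fun x : ℝ => ω (x + l / 2))
    (ω' := fun x : ℝ => ω x + Real.pi * Complex.I) (K := univ) isPreconnected_univ
    hc.continuousOn (by fun_prop)
    (fun x _ => by rw [Complex.exp_add, Complex.exp_pi_mul_I, h3, h3, hF]; ring)
    (mem_univ 0) (mem_univ (0 + l / 2))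
  have e2 : ω (0 + l / 2 + l / 2) = ω 0 := by rw [add_assoc, add_halves, h2]
  simp only [e2] at e
  have e3 : ω (0 + l / 2) = ω 0 := by linear_combination e / 2
  have e4 := hF 0
  rw [← h3, ← h3, e3] at e4
  exact Complex.exp_ne_zero (ω 0) (by linear_combination e4 / 2)

/-- A periodic logarithm along a simple closed curve is a logarithm on its image. -/
lemma t1275_hasLog {l : ℝ} (hl : 0 < l) {γ : ℝ → ℂ} (hγ : Continuous γ)
    (hp : ∀ x, γ (x + l) = γ x) (hi : ∀ x x', γ x = γ x' → ∃ m : ℤ, x' = x + m * l) {z : ℂ}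
    (h : t1275_PL l (fun x => γ x - z)) : HasLogOn (fun w => w - z) (range γ) := by
  obtain ⟨ω, h1, h2, h3⟩ := h
  have hω : Function.Periodic ω l := h2
  have hcomp : ∀ x, ω (Function.invFun γ (γ x)) = ω x := by
    intro x
    obtain ⟨m, hm⟩ := hi _ _ (Function.invFun_eq (f := γ) ⟨x, rfl⟩)
    conv_rhs => rw [hm]
    exact (hω.int_mul m _).symm
  refine ⟨fun w => ω (Function.invFun γ w), ?_, ?_⟩
  · rw [continuousOn_iff_isClosed]
    intro t ht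
    refine ⟨γ '' (Icc 0 l ∩ ω ⁻¹' t), ((isCompact_Icc.inter_right (ht.preimage h1)).image
      hγ).isClosed, ?_⟩
    ext w
    constructor
    · rintro ⟨hw, x, rfl⟩
      refine ⟨?_, x, rfl⟩
      have hper : Function.Periodic (fun x => (γ x, ω x)) l := fun x => by simp only [hp, h2]
      obtain ⟨y, hy, e⟩ := hper.exists_mem_Ico₀ hl x
      simp only [Prod.mk.injEq] at e
      refine ⟨y, ⟨Ico_subset_Icc_self hy, ?_⟩, e.1.symm⟩
      rw [mem_preimage, hcomp] at hw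
      rw [mem_preimage, ← e.2]
      exact hw
    · rintro ⟨⟨y, hy, rfl⟩, -⟩
      exact ⟨by rw [mem_preimage, hcomp]; exact hy.2, y, rfl⟩
  · rintro _ ⟨x, rfl⟩
    simp only [hcomp, h3]

section tube

variable {Θ : ℂ → ℂ} {l T : ℝ}

lemma t1275_cont (hc : ContinuousOn Θ {w | |w.im| ≤ T}) {h : ℝ} (hh : |h| ≤ T) :
    Continuous fun x : ℝ => Θ (x + h * Complex.I) :=
  hc.comp_continuous (f := fun x : ℝ => (x : ℂ) + h * Complex.I) (by fun_prop)
    fun x => by simpa using hh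

lemma t1275_per (hp : ∀ w, Θ (w + l) = Θ w) (h x : ℝ) :
    Θ (((x + l : ℝ) : ℂ) + h * Complex.I) = Θ (x + h * Complex.I) := by
  rw [← hp (x + h * Complex.I)]
  congr 1
  push_cast
  ring

lemma t1275_range (h : ℝ) :
    (range fun x : ℝ => Θ (x + h * Complex.I)) = Θ '' {w | w.im = h} := by
  ext z
  constructor
  · rintro ⟨x, rfl⟩
    exact ⟨_, by simp, rfl⟩
  · rintro ⟨w, hw, rfl⟩
    refine ⟨w.re, ?_⟩
    have : (h : ℝ) = w.im := hw.symm
    simp only [this, Complex.re_add_im]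

lemma t1275_compact (hl : 0 < l) (hc : ContinuousOn Θ {w | |w.im| ≤ T})
    (hp : ∀ w, Θ (w + l) = Θ w) {h : ℝ} (hh : |h| ≤ T) : IsCompact (Θ '' {w | w.im = h}) := by
  rw [← t1275_range]
  exact Function.Periodic.compact_of_continuous (t1275_per hp h) hl.ne' (t1275_cont hc hh)

/-- Moving the level and the base point together. -/
lemma t1275_move (hc : ContinuousOn Θ {w | |w.im| ≤ T}) (hp : ∀ w, Θ (w + l) = Θ w)
    {h : ℝ → ℝ} {z : ℝ → ℂ} (hh : Continuous h) (hz : ContinuousOn z (Icc 0 1))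
    (hT : ∀ t ∈ Icc (0 : ℝ) 1, |h t| ≤ T)
    (hne : ∀ t ∈ Icc (0 : ℝ) 1, z t ∉ Θ '' {w | w.im = h t})
    (h0 : t1275_PL l fun x => Θ (x + h 0 * Complex.I) - z 0) :
    t1275_PL l fun x => Θ (x + h 1 * Complex.I) - z 1 := by
  refine t1275_homotopy (H := fun t x => Θ (x + h t * Complex.I) - z t) ?_ ?_ ?_ h0
  · refine ContinuousOn.sub ?_ (hz.comp continuous_fst.continuousOn fun p hp => hp.1)
    exact hc.comp (f := fun p : ℝ × ℝ => (p.2 : ℂ) + h p.1 * Complex.I) (by fun_prop)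
      fun p hp => by simpa using hT _ hp.1
  · intro t ht x h0
    exact hne t ht ⟨_, by simp, sub_eq_zero.1 h0⟩
  · intro t _ x
    simp only [t1275_per hp]

lemma t1275_level
    (hi : ∀ w w' : ℂ, |w.im| ≤ T → |w'.im| ≤ T → Θ w = Θ w' → ∃ m : ℤ, w' = w + m * l)
    {w : ℂ} {h : ℝ} (hw : |w.im| ≤ T) (hh : |h| ≤ T) (hne : w.im ≠ h) :
    Θ w ∉ Θ '' {w | w.im = h} := by
  rintro ⟨w', hw', e⟩
  have hw'' : w'.im = h := hw'
  obtain ⟨m, hm⟩ := hi w' w (by rwa [hw'']) hw e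
  apply hne
  rw [hm]
  simpa using hw''

/-- Two points of the tube on the same side of a level. -/
lemma t1275_side (hc : ContinuousOn Θ {w | |w.im| ≤ T}) (hp : ∀ w, Θ (w + l) = Θ w)
    (hi : ∀ w w' : ℂ, |w.im| ≤ T → |w'.im| ≤ T → Θ w = Θ w' → ∃ m : ℤ, w' = w + m * l)
    {h s : ℝ} (hh : |h| ≤ T) {w w' : ℂ} (hw : |w.im| ≤ T) (hw' : |w'.im| ≤ T)
    (h1 : s * w.im < s * h) (h2 : s * w'.im < s * h)
    (h0 : t1275_PL l fun x => Θ (x + h * Complex.I) - Θ w) :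
    t1275_PL l fun x => Θ (x + h * Complex.I) - Θ w' := by
  have him : ∀ t : ℝ, (((1 - t : ℝ) : ℂ) * w + t * w').im = (1 - t) * w.im + t * w'.im := by
    intro t
    simp
  have hm : ∀ t ∈ Icc (0 : ℝ) 1, |(((1 - t : ℝ) : ℂ) * w + t * w').im| ≤ T := by
    intro t ht
    rw [him, abs_le]
    rw [abs_le] at hw hw'
    constructor <;> nlinarith [ht.1, ht.2, hw.1, hw.2, hw'.1, hw'.2]
  have := t1275_move hc hp (h := fun _ => h) (z := fun t => Θ (((1 - t : ℝ) : ℂ) * w + t * w'))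
    continuous_const (hc.comp (f := fun t : ℝ => ((1 - t : ℝ) : ℂ) * w + t * w') (by fun_prop) hm)
    (fun _ _ => hh) (fun t ht => t1275_level hi (hm t ht) hh (by
      rw [him]
      intro e
      have : s * ((1 - t) * w.im + t * w'.im) = s * h := by rw [e]
      rcases eq_or_lt_of_le ht.1 with h3 | h3
      · rw [← h3] at this
        linarith
      · nlinarith [ht.2, mul_pos h3 (sub_pos.2 h2), mul_nonneg (sub_nonneg.2 ht.2) (sub_pos.2 h1).le]))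
    (by simpa using h0)
  simpa using this

/-- Changing the level with the base point fixed. -/
lemma t1275_lift (hc : ContinuousOn Θ {w | |w.im| ≤ T}) (hp : ∀ w, Θ (w + l) = Θ w)
    {h h' : ℝ} (hh : |h| ≤ T) (hh' : |h'| ≤ T) {z : ℂ}
    (hz : ∀ t ∈ Icc (0 : ℝ) 1, z ∉ Θ '' {w | w.im = (1 - t) * h + t * h'})
    (h0 : t1275_PL l fun x => Θ (x + h * Complex.I) - z) :
    t1275_PL l fun x => Θ (x + h' * Complex.I) - z := by
  have := t1275_move hc hp (h := fun t => (1 - t) * h + t * h') (z := fun _ => z) (by fun_prop)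
    continuousOn_const (fun t ht => by
      rw [abs_le] at hh hh' ⊢
      constructor <;> nlinarith [ht.1, ht.2, hh.1, hh.2, hh'.1, hh'.2]) hz (by simpa using h0)
  simpa using this

/-- Changing the base point inside a ball off the curve. -/
lemma t1275_ball (hc : ContinuousOn Θ {w | |w.im| ≤ T}) (hp : ∀ w, Θ (w + l) = Θ w)
    {h : ℝ} (hh : |h| ≤ T) {c z z' : ℂ} {r : ℝ} (hb : ball c r ⊆ (Θ '' {w | w.im = h})ᶜ)
    (hz : z ∈ ball c r) (hz' : z' ∈ ball c r)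
    (h0 : t1275_PL l fun x => Θ (x + h * Complex.I) - z) :
    t1275_PL l fun x => Θ (x + h * Complex.I) - z' := by
  have := t1275_move hc hp (h := fun _ => h) (z := fun t => (1 - t) • z + t • z') continuous_const
    (by fun_prop) (fun _ _ => hh)
    (fun t ht => hb (convex_ball c r hz hz' (by linarith [ht.2]) ht.1 (by ring)))
    (by simpa using h0)
  simpa using this

/-- A point to the right of the curve. -/
lemma t1275_right (hc : ContinuousOn Θ {w | |w.im| ≤ T}) (hp : ∀ w, Θ (w + l) = Θ w)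
    {h : ℝ} (hh : |h| ≤ T) {z : ℂ} (hz : z ∉ Θ '' {w | w.im = h})
    (hr : ∀ x : ℝ, (Θ (x + h * Complex.I)).re ≤ z.re) :
    t1275_PL l fun x => Θ (x + h * Complex.I) - z := by
  have h1 : t1275_PL l fun x => z - Θ (x + h * Complex.I) := by
    refine t1275_slit (continuous_const.sub (t1275_cont hc hh))
      (fun x => by simp only [t1275_per hp]) fun x => ?_
    rw [Complex.mem_slitPlane_iff]
    by_contra hcon
    push Not at hcon
    refine hz ⟨x + h * Complex.I, by simp, (sub_eq_zero.1 (Complex.ext ?_ hcon.2)).symm⟩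
    have := hr x
    have h2 := hcon.1
    simp only [Complex.sub_re, Complex.zero_re] at h2 ⊢
    linarith
  exact t1275_congr (t1275_mul (t1275_const l (c := -1) (by norm_num)) h1) fun x => by ring

/-- A point far from the curve. -/
lemma t1275_far (hc : ContinuousOn Θ {w | |w.im| ≤ T}) (hp : ∀ w, Θ (w + l) = Θ w)
    {h : ℝ} (hh : |h| ≤ T) {z : ℂ} (hr : ∀ x : ℝ, ‖Θ (x + h * Complex.I)‖ < ‖z‖) :
    t1275_PL l fun x => Θ (x + h * Complex.I) - z := by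
  have hz : z ≠ 0 := norm_pos_iff.1 ((norm_nonneg _).trans_lt (hr 0))
  have hγ := t1275_cont hc hh
  have := t1275_homotopy (l := l) (H := fun t x => t * Θ (x + h * Complex.I) - z)
    (Continuous.continuousOn (by
      exact ((Complex.continuous_ofReal.comp continuous_fst).mul (hγ.comp continuous_snd)).sub
        continuous_const))
    (fun t ht x h0 => by
      have h1 : ‖z‖ ≤ ‖Θ (x + h * Complex.I)‖ := by
        rw [← sub_eq_zero.1 h0, norm_mul, Complex.norm_real, Real.norm_eq_abs, abs_of_nonneg ht.1]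
        exact mul_le_of_le_one_left (norm_nonneg _) ht.2
      exact absurd (hr x) (not_lt.2 h1))
    (fun t _ x => by simp only [t1275_per hp])
    (by simpa using t1275_const l (neg_ne_zero.2 hz))
  simpa using this

/-- The two sides of a level differ. -/
lemma t1275_jump (hl : 0 < l) (hc : ContinuousOn Θ {w | |w.im| ≤ T})
    (hp : ∀ w, Θ (w + l) = Θ w)
    (hi : ∀ w w' : ℂ, |w.im| ≤ T → |w'.im| ≤ T → Θ w = Θ w' → ∃ m : ℤ, w' = w + m * l)
    (ho : ∀ w : ℂ, |w.im| < T → ∃ ψ : OpenPartialHomeomorph ℂ ℂ, w ∈ ψ.source ∧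
      EqOn ψ Θ ψ.source) {h : ℝ} (hh : |h| < T)
    (hall : ∀ w : ℂ, |w.im| ≤ T → w.im ≠ h →
      t1275_PL l fun x => Θ (x + h * Complex.I) - Θ w) : False := by
  obtain ⟨ψ, hψ, he⟩ := ho (h * Complex.I) (by simpa using hh)
  obtain ⟨r, hr, hb⟩ := Metric.isOpen_iff.1 ψ.open_source _ hψ
  set δ := min (r / 4) (min (l / 4) ((T - |h|) / 2)) with hδ
  have d0 : 0 < δ := lt_min (by linarith) (lt_min (by linarith) (by linarith))
  have d1 : δ ≤ r / 4 := min_le_left _ _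
  have d2 : δ ≤ l / 4 := (min_le_right _ _).trans (min_le_left _ _)
  have d3 : δ ≤ (T - |h|) / 2 := (min_le_right _ _).trans (min_le_right _ _)
  let φ := (Homeomorph.addRight (h * Complex.I : ℂ)).transOpenPartialHomeomorph ψ
  have hS : ∀ y : ℂ, |y.re| ≤ δ → -δ ≤ y.im → y.im ≤ 2 * δ → y + h * Complex.I ∈ ψ.source := by
    intro y h1 h2 h3
    refine hb ?_
    rw [mem_ball, dist_eq_norm, add_sub_cancel_right]
    refine (Complex.norm_le_abs_re_add_abs_im y).trans_lt ?_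
    have : |y.im| ≤ 2 * δ := abs_le.2 ⟨by linarith, h3⟩
    linarith
  have hφ : ∀ y : ℂ, |y.re| ≤ δ → -δ ≤ y.im → y.im ≤ 2 * δ → φ y = Θ (y + h * Complex.I) :=
    fun y h1 h2 h3 => he (hS y h1 h2 h3)
  have hγ := t1275_cont hc hh.le
  have hinj : ∀ x x' : ℝ, Θ (x + h * Complex.I) = Θ (x' + h * Complex.I) →
      ∃ m : ℤ, x' = x + m * l := by
    intro x x' e
    obtain ⟨m, hm⟩ := hi _ _ (by simpa using hh.le) (by simpa using hh.le) e
    exact ⟨m, by simpa using congrArg Complex.re hm⟩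
  have hτ : ∀ τ : ℝ, |τ| ≤ δ → |((τ : ℂ) * Complex.I + h * Complex.I).im| ≤ T := by
    intro τ hτ
    have : ((τ : ℂ) * Complex.I + h * Complex.I).im = τ + h := by simp
    rw [this]
    linarith [abs_add_le τ h]
  have hφτ : ∀ τ : ℝ, |τ| ≤ δ → φ (τ * Complex.I) = Θ (τ * Complex.I + h * Complex.I) := by
    intro τ hτ
    rw [abs_le] at hτ
    exact hφ _ (by simp [d0.le]) (by simpa using hτ.1) (by simp; linarith [hτ.2])
  have hsub : (fun x : ℝ => Θ (x + h * Complex.I)) '' Icc δ (l - δ) ∪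
      φ '' {y | y.im = 0 ∧ |y.re| ≤ δ} ⊆ range fun x : ℝ => Θ (x + h * Complex.I) := by
    rintro z (⟨x, -, rfl⟩ | ⟨y, hy, rfl⟩)
    · exact ⟨x, rfl⟩
    · rw [hφ y hy.2 (by rw [hy.1]; linarith) (by rw [hy.1]; linarith), t1275_range]
      exact ⟨_, by simp [hy.1], rfl⟩
  have hlog : ∀ τ : ℝ, |τ| ≤ δ → τ ≠ 0 → HasLogOn (fun z => z - φ (τ * Complex.I))
      ((fun x : ℝ => Θ (x + h * Complex.I)) '' Icc δ (l - δ) ∪
        φ '' {y | y.im = 0 ∧ |y.re| ≤ δ}) := by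
    intro τ h1 h2
    rw [hφτ τ h1]
    exact (t1275_hasLog hl hγ (t1275_per hp h) hinj
      (hall _ (hτ τ h1) (by simpa using h2))).mono hsub
  have hcl : IsClosed ((fun x : ℝ => Θ (x + h * Complex.I)) '' Icc δ (l - δ)) :=
    (isCompact_Icc.image hγ).isClosed
  refine jump φ d0 hS hcl (isPreconnected_Icc.image _ hγ.continuousOn) ?_ ?_ ?_
    (hlog δ (abs_of_pos d0).le d0.ne') ?_
  · rw [hφ _ (by simp [abs_of_pos d0]) (by simp [d0.le]) (by simp [d0.le])]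
    exact ⟨δ, ⟨le_rfl, by linarith⟩, rfl⟩
  · rw [hφ _ (by simp [abs_of_pos d0]) (by simp [d0.le]) (by simp [d0.le])]
    refine ⟨l - δ, ⟨by linarith, le_rfl⟩, ?_⟩
    rw [← hp (-δ + h * Complex.I)]
    simp only
    congr 1
    push_cast
    ring
  · intro τ h1
    rw [hφτ τ h1]
    rintro ⟨x, hx, e⟩
    obtain ⟨m, hm⟩ := hi _ _ (hτ τ h1) (by simpa using hh.le) e.symm
    have e1 : x = m * l := by simpa using congrArg Complex.re hm
    have e2 : (0 : ℝ) < m := by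
      by_contra hcon
      nlinarith [hx.1, not_lt.1 hcon]
    have e3 : (m : ℝ) < 1 := by
      by_contra hcon
      nlinarith [hx.2, not_lt.1 hcon]
    have e4 : 0 < m := by exact_mod_cast e2
    have e5 : m < 1 := by exact_mod_cast e3
    omega
  · have := hlog (-δ) (by rw [abs_neg, abs_of_pos d0]) (neg_ne_zero.2 d0.ne')
    simpa using this

/-- The real part of the tube is maximal at a boundary point. -/
lemma t1275_max (hl : 0 < l) (hT : 0 ≤ T) (hc : ContinuousOn Θ {w | |w.im| ≤ T})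
    (hp : ∀ w, Θ (w + l) = Θ w)
    (ho : ∀ w : ℂ, |w.im| < T → ∃ ψ : OpenPartialHomeomorph ℂ ℂ, w ∈ ψ.source ∧
      EqOn ψ Θ ψ.source) :
    ∃ w₀ : ℂ, |w₀.im| = T ∧ ∀ w : ℂ, |w.im| ≤ T → (Θ w).re ≤ (Θ w₀).re := by
  have hK : IsCompact (Icc 0 l ×ℂ Icc (-T) T) := isCompact_Icc.reProdIm isCompact_Icc
  have hKs : Icc 0 l ×ℂ Icc (-T) T ⊆ {w : ℂ | |w.im| ≤ T} := fun w hw => abs_le.2 hw.2
  obtain ⟨w₀, hw₀, hmax⟩ := hK.exists_isMaxOn ⟨0, ⟨by simp [hl.le], by simp [hT]⟩⟩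
    (Complex.continuous_re.comp_continuousOn (hc.mono hKs))
  have hall : ∀ w : ℂ, |w.im| ≤ T → (Θ w).re ≤ (Θ w₀).re := by
    intro w hw
    have hper : Function.Periodic (fun x : ℝ => Θ (x + w.im * Complex.I)) l := t1275_per hp w.im
    obtain ⟨y, hy, e⟩ := hper.exists_mem_Ico₀ hl w.re
    simp only [Complex.re_add_im] at e
    rw [e]
    exact hmax (a := y + w.im * Complex.I)
      ⟨by simpa using Ico_subset_Icc_self hy, by simpa using abs_le.1 hw⟩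
  refine ⟨w₀, ?_, hall⟩
  by_contra hne
  have hlt : |w₀.im| < T := lt_of_le_of_ne (hKs hw₀) hne
  obtain ⟨ψ, hψ, he⟩ := ho w₀ hlt
  have hn : ψ.source ∩ {w : ℂ | |w.im| < T} ∈ 𝓝 w₀ :=
    inter_mem (ψ.open_source.mem_nhds hψ)
      ((isOpen_lt (by fun_prop) continuous_const).mem_nhds hlt)
  obtain ⟨ε, hε, hb⟩ := Metric.mem_nhds_iff.1 (ψ.image_mem_nhds hψ hn)
  obtain ⟨w, hw, e⟩ := hb (a := ψ w₀ + (ε / 2 : ℝ)) (by
    rw [mem_ball, dist_eq_norm, add_sub_cancel_left, Complex.norm_real, Real.norm_eq_abs,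
      abs_of_pos (by linarith)]
    linarith)
  rw [he hw.1, he hψ] at e
  have := hall w (le_of_lt hw.2)
  rw [e, Complex.add_re, Complex.ofReal_re] at this
  linarith

/-- The short secants of a level curve have no periodic logarithm. -/
lemma t1275_secant (hl : 2 ≤ l)
    (hi : ∀ w w' : ℂ, |w.im| ≤ T → |w'.im| ≤ T → Θ w = Θ w' → ∃ m : ℤ, w' = w + m * l)
    {h : ℝ} (hh : |h| ≤ T) {j : ℝ} (h1 : 1 ≤ j) (h2 : j ≤ l / 2) (x : ℝ) :
    Θ ((x + j : ℝ) + h * Complex.I) - Θ (x + h * Complex.I) ≠ 0 := by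
  intro h0
  obtain ⟨m, hm⟩ := hi _ _ (by simpa using hh) (by simpa using hh) (sub_eq_zero.1 h0).symm
  have e1 : j = m * l := by simpa using congrArg Complex.re hm
  have e2 : (0 : ℝ) < m := by
    by_contra hcon
    nlinarith [not_lt.1 hcon]
  have e3 : (m : ℝ) < 1 := by
    by_contra hcon
    nlinarith [not_lt.1 hcon]
  have e4 : 0 < m := by exact_mod_cast e2
  have e5 : m < 1 := by exact_mod_cast e3
  omega

lemma t1275_hopf (hl : 2 ≤ l) (hc : ContinuousOn Θ {w | |w.im| ≤ T})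
    (hp : ∀ w, Θ (w + l) = Θ w)
    (hi : ∀ w w' : ℂ, |w.im| ≤ T → |w'.im| ≤ T → Θ w = Θ w' → ∃ m : ℤ, w' = w + m * l)
    {h : ℝ} (hh : |h| ≤ T) :
    ¬t1275_PL l fun x => Θ ((x + 1 : ℝ) + h * Complex.I) - Θ (x + h * Complex.I) := by
  intro h0
  have hγ := t1275_cont hc hh
  have := t1275_homotopy (l := l)
    (H := fun t x => Θ ((x + ((1 - t) + t * (l / 2)) : ℝ) + h * Complex.I) - Θ (x + h * Complex.I))
    (Continuous.continuousOn ((hγ.comp
      (f := fun p : ℝ × ℝ => p.2 + ((1 - p.1) + p.1 * (l / 2))) (by fun_prop)).sub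
        (hγ.comp continuous_snd)))
    (fun t ht x => t1275_secant hl hi hh (by nlinarith [ht.1, ht.2])
      (by nlinarith [ht.1, ht.2]) x)
    (fun t _ x => by
      rw [t1275_per hp, add_right_comm x l, t1275_per hp])
    (by simpa using h0)
  refine t1275_odd (fun x => ?_) this
  have e : x + l / 2 + (1 - 1 + 1 * (l / 2)) = x + l := by ring
  have e' : x + (1 - 1 + 1 * (l / 2)) = x + l / 2 := by ring
  rw [e, e', t1275_per hp]
  ring

end tube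

theorem tube_top {Θ : ℂ → ℂ} {l T : ℝ} (hl : 2 ≤ l) (hT : 3 ≤ T)
    (hc : ContinuousOn Θ {w | |w.im| ≤ T}) (hp : ∀ w, Θ (w + l) = Θ w)
    (hi : ∀ w w' : ℂ, |w.im| ≤ T → |w'.im| ≤ T → Θ w = Θ w' → ∃ m : ℤ, w' = w + m * l)
    (ho : ∀ w : ℂ, |w.im| < T → ∃ ψ : OpenPartialHomeomorph ℂ ℂ, w ∈ ψ.source ∧
      EqOn ψ Θ ψ.source) :
    ∃ (s : ℝ) (D : Set ℂ), (s = 1 ∨ s = -1) ∧ IsOpen D ∧ Bornology.IsBounded D ∧
      frontier D ⊆ Θ '' {w | w.im = s} ∧ (∀ z ∈ D, ∃ x : ℝ, z.re < (Θ x).re) ∧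
      (∀ w : ℂ, |w.im| ≤ T → (Θ w ∈ D ↔ 1 < s * w.im)) ∧
      ∀ (p : ℂ[X]) (a : ℂ), (∀ z ∈ D, p.eval z ≠ 0) → ¬∀ w : ℂ, w.im = s * (T - 1) →
        p.eval (Θ w) / (a * (Θ (w + 1) - Θ w)) ∈ Complex.slitPlane := by
  have hl0 : 0 < l := by linarith
  obtain ⟨w₀, hw₀, hmax⟩ := t1275_max hl0 (by linarith) hc hp ho
  obtain ⟨s, hs, hsw⟩ : ∃ s : ℝ, (s = 1 ∨ s = -1) ∧ s * w₀.im = -T := by
    rcases (abs_eq (by linarith : (0 : ℝ) ≤ T)).1 hw₀ with h | h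
    · exact ⟨-1, Or.inr rfl, by rw [h]; ring⟩
    · exact ⟨1, Or.inl rfl, by rw [h]; ring⟩
  have hss : s * s = 1 := by rcases hs with h | h <;> rw [h] <;> norm_num
  have habs : ∀ y : ℝ, |s * y| = |y| := by
    intro y
    rcases hs with h | h <;> simp [h]
  have hsT : |s| < T := by
    have := habs 1
    rw [mul_one, abs_one] at this
    linarith
  have hout : ∀ h : ℝ, |h| < T → ∀ w : ℂ, |w.im| ≤ T → s * w.im < s * h →
      t1275_PL l fun x => Θ (x + h * Complex.I) - Θ w := by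
    intro h hh w hw hlt
    refine t1275_side hc hp hi hh.le hw₀.le hw ?_ hlt
      (t1275_right hc hp hh.le (t1275_level hi hw₀.le hh.le fun e => ?_)
        fun x => hmax _ (by simpa using hh.le))
    · rw [hsw]
      have := neg_abs_le (s * h)
      rw [habs] at this
      linarith
    · rw [← e, hw₀] at hh
      exact lt_irrefl _ hh
  have hin : ∀ w : ℂ, |w.im| ≤ T → 1 < s * w.im →
      ¬t1275_PL l fun x => Θ (x + s * Complex.I) - Θ w := by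
    intro w hw h1 h0
    refine t1275_jump hl0 hc hp hi ho hsT fun w' hw' hne => ?_
    rcases lt_trichotomy (s * w'.im) (s * s) with h | h | h
    · exact hout s hsT w' hw' h
    · refine absurd ?_ hne
      have : s * (s * w'.im) = s * (s * s) := by rw [h]
      rwa [← mul_assoc, hss, one_mul, mul_one] at this
    · exact t1275_side hc hp hi (s := -s) hsT.le hw hw' (by linarith) (by linarith) h0
  have hK := t1275_compact hl0 hc hp hsT.le
  set D : Set ℂ := {z | z ∉ Θ '' {w | w.im = s} ∧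
    ¬t1275_PL l fun x => Θ (x + s * Complex.I) - z} with hD
  have hiff : ∀ w : ℂ, |w.im| ≤ T → (Θ w ∈ D ↔ 1 < s * w.im) := by
    intro w hw
    constructor
    · rintro ⟨h1, h2⟩
      rcases lt_trichotomy (s * w.im) (s * s) with h | h | h
      · exact absurd (hout s hsT w hw h) h2
      · refine absurd ⟨w, ?_, rfl⟩ h1
        have : s * (s * w.im) = s * (s * s) := by rw [h]
        rwa [← mul_assoc, hss, one_mul, mul_one] at this
      · rwa [hss] at h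
    · intro h
      refine ⟨t1275_level hi hw hsT.le fun e => ?_, hin w hw h⟩
      rw [e, hss] at h
      exact lt_irrefl _ h
  have hDo : IsOpen D := by
    rw [Metric.isOpen_iff]
    intro z hz
    obtain ⟨r, hr, hb⟩ := Metric.isOpen_iff.1 hK.isClosed.isOpen_compl z hz.1
    exact ⟨r, hr, fun z' hz' => ⟨hb hz', fun h0 =>
      hz.2 (t1275_ball hc hp hsT.le hb hz' (mem_ball_self hr) h0)⟩⟩
  refine ⟨s, D, hs, hDo, ?_, ?_, ?_, hiff, ?_⟩
  · obtain ⟨R, hR⟩ := hK.isBounded.subset_closedBall 0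
    refine (isBounded_closedBall (x := (0 : ℂ)) (r := R)).subset fun z hz => ?_
    by_contra hcon
    refine hz.2 (t1275_far hc hp hsT.le fun x => ?_)
    have := hR (a := Θ (x + s * Complex.I)) ⟨_, by simp, rfl⟩
    rw [mem_closedBall, dist_zero_right] at this hcon
    linarith [not_le.1 hcon]
  · intro z hz
    by_contra hcon
    rw [hDo.frontier_eq] at hz
    obtain ⟨r, hr, hb⟩ := Metric.isOpen_iff.1 hK.isClosed.isOpen_compl z hcon
    obtain ⟨z', hz', hd⟩ := Metric.mem_closure_iff.1 hz.1 r hr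
    exact hz.2 ⟨hcon, fun h0 => hz'.2 (t1275_ball hc hp hsT.le hb (mem_ball_self hr)
      (by rwa [mem_ball, dist_comm]) h0)⟩
  · intro z hz
    by_contra hcon
    push Not at hcon
    have hnot : ∀ t ∈ Icc (0 : ℝ) 1, z ∉ Θ '' {w | w.im = (1 - t) * 0 + t * s} := by
      rintro t ht ⟨w, hw, rfl⟩
      have hw' : w.im = (1 - t) * 0 + t * s := hw
      have e : s * w.im = t := by rw [hw']; linear_combination t * hss
      have := (hiff w (by rw [← habs, e, abs_of_nonneg ht.1]; linarith [ht.2])).1 hz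
      linarith [ht.2]
    have h0T : |(0 : ℝ)| ≤ T := by rw [abs_zero]; linarith
    refine hz.2 (t1275_lift hc hp h0T hsT.le hnot
      (t1275_right hc hp h0T (by simpa using hnot 0 (by simp)) fun x => ?_))
    simpa using hcon x
  · intro p a hpD hslit
    have hh : |s * (T - 1)| < T := by
      rw [habs, abs_of_nonneg (by linarith)]
      linarith
    have hsh : s * (s * (T - 1)) = T - 1 := by rw [← mul_assoc, hss, one_mul]
    have hγ := t1275_cont hc hh.le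
    have hmem : ∀ x : ℝ, Θ (x + (s * (T - 1) : ℝ) * Complex.I) ∈ D := fun x =>
      (hiff _ (by simpa using hh.le)).2 (by
        have : ((x : ℂ) + (s * (T - 1) : ℝ) * Complex.I).im = s * (T - 1) := by simp
        rw [this, hsh]
        linarith)
    have hp0 : p ≠ 0 := fun e => hpD _ (hmem 0) (by simp [e])
    have hroot : ∀ r ∈ p.roots,
        t1275_PL l fun x => Θ (x + (s * (T - 1) : ℝ) * Complex.I) - r := by
      intro r hr
      have hrD : r ∉ D := fun h => hpD r h ((mem_roots hp0).1 hr)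
      by_cases hrK : r ∈ Θ '' {w | w.im = s}
      · obtain ⟨w, hw, rfl⟩ := hrK
        have hw' : w.im = s := hw
        exact hout _ hh w (by rw [hw']; exact hsT.le) (by rw [hw', hss, hsh]; linarith)
      · refine t1275_lift hc hp hsT.le hh.le (fun t ht => ?_) (by
          by_contra hcon
          exact hrD ⟨hrK, hcon⟩)
        rcases eq_or_lt_of_le ht.1 with h0 | h0
        · simpa [← h0] using hrK
        · rintro ⟨w, hw, rfl⟩
          have hw' : w.im = (1 - t) * s + t * (s * (T - 1)) := hw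
          have e : s * w.im = 1 + t * (T - 2) := by
            rw [hw']
            linear_combination (1 - t + t * (T - 1)) * hss
          have e1 : 0 < t * (T - 2) := mul_pos h0 (by linarith)
          refine hrD ((hiff w ?_).2 (by linarith))
          rw [← habs, e, abs_of_nonneg (by linarith)]
          nlinarith [ht.2]
    have hpl : t1275_PL l fun x => p.eval (Θ (x + (s * (T - 1) : ℝ) * Complex.I)) :=
      t1275_congr (t1275_mul (t1275_const l (leadingCoeff_ne_zero.2 hp0))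
        (t1275_prod _ p.roots hroot)) fun x => (IsAlgClosed.splits p).eval_eq_prod_roots _
    have hsec := t1275_secant hl hi hh.le le_rfl (by linarith)
    have hq : ∀ x : ℝ, p.eval (Θ (x + (s * (T - 1) : ℝ) * Complex.I)) /
        (a * (Θ ((x + 1 : ℝ) + (s * (T - 1) : ℝ) * Complex.I) -
          Θ (x + (s * (T - 1) : ℝ) * Complex.I))) ∈ Complex.slitPlane := by
      intro x
      have := hslit (x + (s * (T - 1) : ℝ) * Complex.I) (by simp)
      have e : (x : ℂ) + (s * (T - 1) : ℝ) * Complex.I + 1 =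
          (x + 1 : ℝ) + (s * (T - 1) : ℝ) * Complex.I := by
        rw [Complex.ofReal_add, Complex.ofReal_one]
        ring
      rwa [e] at this
    have ha : a ≠ 0 := by
      intro e
      have := Complex.slitPlane_ne_zero (hq 0)
      simp [e] at this
    have hql : t1275_PL l fun x => p.eval (Θ (x + (s * (T - 1) : ℝ) * Complex.I)) /
        (a * (Θ ((x + 1 : ℝ) + (s * (T - 1) : ℝ) * Complex.I) -
          Θ (x + (s * (T - 1) : ℝ) * Complex.I))) := t1275_slit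
      ((p.continuous.comp hγ).div (continuous_const.mul ((hγ.comp
        (f := fun x : ℝ => x + 1) (by fun_prop)).sub hγ)) fun x => mul_ne_zero ha (hsec x))
      (fun x => by rw [t1275_per hp, add_right_comm x l, t1275_per hp]) hq
    refine t1275_hopf hl hc hp hi hh.le
      (t1275_congr (t1275_div (t1275_div hpl hql) (t1275_const l ha)) fun x => ?_)
    have h1 := hsec x
    have h2 := hpD _ (hmem x)
    field_simp

end Pool.Agent.MP_28f8a1_an.H42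

end

-- part MP_28f8a1_an.H42.Chain
section

/-! Closed chains of points that look like arithmetic progressions. -/

set_option autoImplicit false

namespace Pool.Agent.MP_28f8a1_an.H42

open MeasureTheory Metric Set Real Filter Topology Polynomial
open scoped ENNReal

/-- linear interpolation of a sequence -/
noncomputable def t1276_L (f : ℤ → ℂ) (x : ℝ) : ℂ :=
  ((1 - Int.fract x : ℝ) : ℂ) * f ⌊x⌋ + ((Int.fract x : ℝ) : ℂ) * f (⌊x⌋ + 1)

/-- the tube around a polygon -/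
noncomputable def t1276_Θ (β τ : ℤ → ℂ) (w : ℂ) : ℂ :=
  t1276_L β w.re + Complex.I * w.im * t1276_L τ w.re

theorem t1276_L_bd {f : ℤ → ℂ} {c x : ℝ} (h0 : ‖f ⌊x⌋‖ ≤ c) (h1 : ‖f (⌊x⌋ + 1)‖ ≤ c) :
    ‖t1276_L f x‖ ≤ c := by
  have a0 := Int.fract_nonneg x
  have a1 : 0 ≤ 1 - Int.fract x := by linarith [Int.fract_lt_one x]
  unfold t1276_L
  refine (norm_add_le _ _).trans ?_
  rw [norm_mul, norm_mul, Complex.norm_real, Complex.norm_real, Real.norm_of_nonneg a0,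
    Real.norm_of_nonneg a1]
  calc _ ≤ (1 - Int.fract x) * c + Int.fract x * c := by gcongr
    _ = c := by ring

theorem t1276_L_lip0 {f : ℤ → ℂ} {c x x' : ℝ} (hx : x ≤ x') (h0 : ‖f ⌊x⌋‖ ≤ c)
    (h1 : ‖f (⌊x⌋ + 1)‖ ≤ c) (h0' : ‖f ⌊x'⌋‖ ≤ c) (h1' : ‖f (⌊x'⌋ + 1)‖ ≤ c) :
    ‖t1276_L f x' - t1276_L f x‖ ≤ 2 * c * (x' - x) := by
  have a0 := Int.fract_nonneg x'
  have a1 : 0 ≤ 1 - Int.fract x := by linarith [Int.fract_lt_one x]
  have hc : 0 ≤ c := (norm_nonneg _).trans h0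
  have d0 : ‖f (⌊x⌋ + 1) - f ⌊x⌋‖ ≤ 2 * c := (norm_sub_le _ _).trans (by linarith)
  have d1 : ‖f (⌊x'⌋ + 1) - f ⌊x'⌋‖ ≤ 2 * c := (norm_sub_le _ _).trans (by linarith)
  rcases (Int.floor_mono hx).eq_or_lt with h | h
  · have e : t1276_L f x' - t1276_L f x = ((x' - x : ℝ) : ℂ) * (f (⌊x⌋ + 1) - f ⌊x⌋) := by
      unfold t1276_L Int.fract
      rw [← h]
      push_cast
      ring
    rw [e, norm_mul, Complex.norm_real, Real.norm_of_nonneg (by linarith), mul_comm]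
    gcongr
  · have e : t1276_L f x' - t1276_L f x = ((Int.fract x' : ℝ) : ℂ) * (f (⌊x'⌋ + 1) - f ⌊x'⌋) +
        (f ⌊x'⌋ - f (⌊x⌋ + 1)) + ((1 - Int.fract x : ℝ) : ℂ) * (f (⌊x⌋ + 1) - f ⌊x⌋) := by
      unfold t1276_L
      push_cast
      ring
    have d2 : ‖f ⌊x'⌋ - f (⌊x⌋ + 1)‖ ≤ 2 * c * ((⌊x'⌋ : ℝ) - ⌊x⌋ - 1) := by
      rcases (show ⌊x⌋ + 1 ≤ ⌊x'⌋ from h).eq_or_lt with h2 | h2
      · rw [← h2]
        simp
      · have h3 : (⌊x⌋ : ℝ) + 1 + 1 ≤ ⌊x'⌋ := by exact_mod_cast h2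
        calc _ ≤ 2 * c * 1 := (norm_sub_le _ _).trans (by linarith)
          _ ≤ _ := by gcongr; linarith
    rw [e]
    refine (norm_add₃_le).trans ?_
    rw [norm_mul, norm_mul, Complex.norm_real, Complex.norm_real, Real.norm_of_nonneg a0,
      Real.norm_of_nonneg a1]
    calc _ ≤ Int.fract x' * (2 * c) + 2 * c * ((⌊x'⌋ : ℝ) - ⌊x⌋ - 1) +
          (1 - Int.fract x) * (2 * c) := by gcongr
      _ = _ := by unfold Int.fract; ring

theorem t1276_L_lip {f : ℤ → ℂ} {c x x' : ℝ} (h0 : ‖f ⌊x⌋‖ ≤ c)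
    (h1 : ‖f (⌊x⌋ + 1)‖ ≤ c) (h0' : ‖f ⌊x'⌋‖ ≤ c) (h1' : ‖f (⌊x'⌋ + 1)‖ ≤ c) :
    ‖t1276_L f x - t1276_L f x'‖ ≤ 2 * c * |x - x'| := by
  rcases le_total x x' with h | h
  · rw [norm_sub_rev, abs_sub_comm, abs_of_nonneg (by linarith)]
    exact t1276_L_lip0 h h0 h1 h0' h1'
  · rw [abs_of_nonneg (by linarith)]
    exact t1276_L_lip0 h h0' h1' h0 h1

theorem t1276_L_cont {f : ℤ → ℂ} {c : ℝ} (h : ∀ k, ‖f k‖ ≤ c) : Continuous (t1276_L f) := by
  have hc : 0 ≤ 2 * c := by linarith [(norm_nonneg _).trans (h 0)]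
  refine (LipschitzWith.of_dist_le_mul (K := ⟨2 * c, hc⟩) fun x x' => ?_).continuous
  rw [dist_eq_norm, Real.dist_eq]
  exact t1276_L_lip (h _) (h _) (h _) (h _)

theorem t1276_L_aff (f : ℤ → ℂ) (u v : ℂ) (n : ℤ) (x : ℝ) :
    t1276_L (fun k => f k - u - ((k - n : ℤ) : ℂ) * v) x = t1276_L f x - u - (x - n) * v := by
  unfold t1276_L Int.fract
  push_cast
  ring

theorem t1276_L_sub (f : ℤ → ℂ) (u : ℂ) (x : ℝ) :
    t1276_L (fun k => f k - u) x = t1276_L f x - u := by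
  unfold t1276_L
  push_cast
  ring

theorem t1276_L_int (f : ℤ → ℂ) (k : ℤ) : t1276_L f k = f k := by
  simp [t1276_L]

theorem t1276_L_per {f : ℤ → ℂ} {q : ℤ} (h : ∀ k, f (k + q) = f k) (x : ℝ) :
    t1276_L f (x + q) = t1276_L f x := by
  unfold t1276_L
  rw [Int.fract_add_intCast, Int.floor_add_intCast, h, add_right_comm, h]

theorem t1276_L_re {f : ℤ → ℂ} {M : ℝ} (h : ∀ k, (f k).re ≤ M) (x : ℝ) :
    (t1276_L f x).re ≤ M := by
  have a0 := Int.fract_nonneg x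
  have a1 : 0 ≤ 1 - Int.fract x := by linarith [Int.fract_lt_one x]
  unfold t1276_L
  rw [Complex.add_re, Complex.re_ofReal_mul, Complex.re_ofReal_mul]
  calc _ ≤ (1 - Int.fract x) * M + Int.fract x * M := by gcongr <;> exact h _
    _ = M := by ring

/-- sequences that look like arithmetic progressions -/
def t1276_S (β τ : ℤ → ℂ) (K η : ℝ) : Prop :=
  ∀ n k : ℤ, |((k - n : ℤ) : ℝ)| ≤ K →
    ‖β k - β n - ((k - n : ℤ) : ℂ) * τ n‖ ≤ η * ‖τ n‖ ∧ ‖τ k - τ n‖ ≤ η * ‖τ n‖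

theorem t1276_fl {x K : ℝ} {n : ℤ} (h : |x - n| ≤ K - 1) :
    |((⌊x⌋ - n : ℤ) : ℝ)| ≤ K ∧ |((⌊x⌋ + 1 - n : ℤ) : ℝ)| ≤ K := by
  have h1 := Int.floor_le x
  have h2 := Int.lt_floor_add_one x
  rw [abs_le] at h
  push_cast
  constructor <;> rw [abs_le] <;> constructor <;> linarith [h.1, h.2]

theorem t1276_G (β τ : ℤ → ℂ) (n : ℤ) (w : ℂ) :
    t1276_Θ β τ w - β n - τ n * (w - n) =
      t1276_L (fun k => β k - β n - ((k - n : ℤ) : ℂ) * τ n) w.re +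
        Complex.I * w.im * t1276_L (fun k => τ k - τ n) w.re := by
  rw [t1276_L_aff, t1276_L_sub, t1276_Θ]
  conv_lhs => rw [← Complex.re_add_im w]
  simp only [Complex.add_re, Complex.ofReal_re, Complex.mul_re, Complex.I_re, mul_zero,
    Complex.ofReal_im, Complex.I_im, mul_one, sub_self, add_zero, Complex.add_im, Complex.mul_im,
    zero_add]
  ring

theorem t1276_near {β τ : ℤ → ℂ} {K η T : ℝ} (h : t1276_S β τ K η) {n : ℤ} {w : ℂ}
    (hw : |w.re - n| ≤ K - 1) (hT : |w.im| ≤ T) :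
    ‖t1276_Θ β τ w - β n - τ n * (w - n)‖ ≤ η * (1 + T) * ‖τ n‖ := by
  obtain ⟨a0, a1⟩ := t1276_fl hw
  have b0 := t1276_L_bd (f := fun k => β k - β n - ((k - n : ℤ) : ℂ) * τ n) (h n _ a0).1 (h n _ a1).1
  have b1 := t1276_L_bd (f := fun k => τ k - τ n) (h n _ a0).2 (h n _ a1).2
  rw [t1276_G]
  refine (norm_add_le _ _).trans ?_
  rw [norm_mul, norm_mul, Complex.norm_I, one_mul, Complex.norm_real, Real.norm_eq_abs]
  have hT0 : 0 ≤ T := (abs_nonneg _).trans hT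
  calc _ ≤ η * ‖τ n‖ + T * (η * ‖τ n‖) := by gcongr
    _ = _ := by ring

theorem t1276_lip {β τ : ℤ → ℂ} {K η T : ℝ} (h : t1276_S β τ K η) {n : ℤ} {w w' : ℂ}
    (hw : |w.re - n| ≤ K - 1) (hw' : |w'.re - n| ≤ K - 1) (hT : |w'.im| ≤ T) :
    ‖t1276_Θ β τ w - t1276_Θ β τ w' - τ n * (w - w')‖ ≤ η * (3 + 2 * T) * ‖τ n‖ * ‖w - w'‖ := by
  obtain ⟨a0, a1⟩ := t1276_fl hw
  obtain ⟨a0', a1'⟩ := t1276_fl hw'
  have b0 := t1276_L_lip (f := fun k => β k - β n - ((k - n : ℤ) : ℂ) * τ n) (h n _ a0).1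
    (h n _ a1).1 (h n _ a0').1 (h n _ a1').1
  have b1 := t1276_L_bd (f := fun k => τ k - τ n) (h n _ a0).2 (h n _ a1).2
  have b2 := t1276_L_lip (f := fun k => τ k - τ n) (h n _ a0).2 (h n _ a1).2 (h n _ a0').2
    (h n _ a1').2
  have c0 : |w.re - w'.re| ≤ ‖w - w'‖ := Complex.abs_re_le_norm (w - w')
  have c1 : |w.im - w'.im| ≤ ‖w - w'‖ := Complex.abs_im_le_norm (w - w')
  have hT0 : 0 ≤ T := (abs_nonneg _).trans hT
  have hc : 0 ≤ η * ‖τ n‖ := (norm_nonneg _).trans b1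
  have e : t1276_Θ β τ w - t1276_Θ β τ w' - τ n * (w - w') =
      (t1276_Θ β τ w - β n - τ n * (w - n)) - (t1276_Θ β τ w' - β n - τ n * (w' - n)) := by ring
  rw [e, t1276_G, t1276_G]
  set F := t1276_L (fun k => β k - β n - ((k - n : ℤ) : ℂ) * τ n)
  set G := t1276_L (fun k => τ k - τ n)
  have e2 : F w.re + Complex.I * w.im * G w.re - (F w'.re + Complex.I * w'.im * G w'.re) =
      (F w.re - F w'.re) + Complex.I * ((w.im - w'.im : ℝ) : ℂ) * G w.re +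
        Complex.I * w'.im * (G w.re - G w'.re) := by
    push_cast
    ring
  rw [e2]
  refine (norm_add₃_le).trans ?_
  rw [norm_mul, norm_mul, norm_mul, norm_mul, Complex.norm_I, one_mul, one_mul, Complex.norm_real,
    Complex.norm_real, Real.norm_eq_abs, Real.norm_eq_abs]
  have b3 : ‖F w.re - F w'.re‖ ≤ 2 * (η * ‖τ n‖) * ‖w - w'‖ := b0.trans (by gcongr)
  have b4 : ‖G w.re - G w'.re‖ ≤ 2 * (η * ‖τ n‖) * ‖w - w'‖ := b2.trans (by gcongr)
  calc _ ≤ 2 * (η * ‖τ n‖) * ‖w - w'‖ + ‖w - w'‖ * (η * ‖τ n‖) +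
        T * (2 * (η * ‖τ n‖) * ‖w - w'‖) := by gcongr
    _ = _ := by ring

theorem t1276_open {Θ : ℂ → ℂ} {τ w : ℂ} (hτ : τ ≠ 0) {r : ℝ} (hr : 0 < r)
    (h : ∀ x ∈ ball w r, ∀ y ∈ ball w r, ‖Θ x - Θ y - τ * (x - y)‖ ≤ 1 / 2 * ‖τ‖ * ‖x - y‖) :
    ∃ ψ : OpenPartialHomeomorph ℂ ℂ, w ∈ ψ.source ∧ EqOn ψ Θ ψ.source := by
  have h1 : ApproximatesLinearOn (fun x => τ⁻¹ * Θ x)
      ((ContinuousLinearEquiv.refl ℝ ℂ : ℂ ≃L[ℝ] ℂ) : ℂ →L[ℝ] ℂ) (ball w r) (1 / 2) := by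
    intro x hx y hy
    have e : τ⁻¹ * Θ x - τ⁻¹ * Θ y - (x - y) = τ⁻¹ * (Θ x - Θ y - τ * (x - y)) := by
      field_simp
    have h2 := h x hx y hy
    have h3 : 0 < ‖τ‖ := norm_pos_iff.2 hτ
    change ‖τ⁻¹ * Θ x - τ⁻¹ * Θ y - (x - y)‖ ≤ _
    rw [e, norm_mul, norm_inv, inv_mul_le_iff₀ h3]
    push_cast
    linarith
  refine ⟨(h1.toOpenPartialHomeomorph _ _ (Or.inr ?_) isOpen_ball).transHomeomorph
    (Homeomorph.mulLeft₀ τ hτ), mem_ball_self hr, fun x _ => ?_⟩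
  · have h2 : ‖((ContinuousLinearEquiv.refl ℝ ℂ).symm : ℂ →L[ℝ] ℂ)‖₊ = 1 :=
      ContinuousLinearMap.nnnorm_id
    rw [h2]
    norm_num
  · change τ * (τ⁻¹ * Θ x) = Θ x
    field_simp

/-- the hypotheses on the points -/
structure t1276_H {ι : Type} (b t : ι → ℂ) (J η : ℝ) : Prop where
  η0 : 0 < η
  η1 : η ≤ 1 / 100
  J2 : 2 ≤ J
  ne : ∀ i, t i ≠ 0
  sep : ∀ i j, ‖b j - b i‖ ≤ ‖t i‖ / 2 → j = i
  loc : ∀ i j, ‖b j - b i‖ ≤ J * ‖t i‖ → ‖t j - t i‖ ≤ η * ‖t i‖ ∧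
    ∃ m : ℤ, ‖b j - b i - m * t i‖ ≤ η * ‖t i‖

section
variable {ι : Type} {b t : ι → ℂ} {J η : ℝ}

theorem t1276_fix (H : t1276_H b t J η) {i j : ι} {m : ℤ} (hm : |(m : ℝ)| ≤ J - 1)
    (h : ‖b j - b i - m * t i‖ ≤ 10 * η * ‖t i‖) :
    ‖b j - b i - m * t i‖ ≤ η * ‖t i‖ ∧ ‖t j - t i‖ ≤ η * ‖t i‖ := by
  have h0 : 0 < ‖t i‖ := norm_pos_iff.2 (H.ne i)
  have h1 := H.η1
  have h2 : ‖(m : ℂ) * t i‖ ≤ (J - 1) * ‖t i‖ := by
    rw [norm_mul, Complex.norm_intCast]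
    gcongr
  have h3 : ‖b j - b i‖ ≤ J * ‖t i‖ := by
    have := norm_le_norm_sub_add (b j - b i) (m * t i)
    nlinarith
  obtain ⟨h4, m', h5⟩ := H.loc i j h3
  have h6 : ‖((m' - m : ℤ) : ℂ) * t i‖ ≤ 11 * η * ‖t i‖ := by
    have e : ((m' - m : ℤ) : ℂ) * t i = (b j - b i - m * t i) - (b j - b i - m' * t i) := by
      push_cast
      ring
    rw [e]
    refine (norm_sub_le _ _).trans (by linarith)
  rw [norm_mul, Complex.norm_intCast] at h6
  have h7 : |((m' - m : ℤ) : ℝ)| < 1 := lt_of_le_of_lt (le_of_mul_le_mul_right h6 h0) (by linarith)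
  have h8 : m' - m = 0 := Int.abs_lt_one_iff.1 (by exact_mod_cast h7)
  rw [sub_eq_zero.1 h8] at h5
  exact ⟨h5, h4⟩

theorem t1276_step (H : t1276_H b t J η) {i j : ι} (h : ‖b j - b i - t i‖ ≤ η * ‖t i‖) :
    ‖t j - t i‖ ≤ η * ‖t i‖ := by
  have h0 : 0 ≤ η * ‖t i‖ := (norm_nonneg _).trans h
  refine (t1276_fix H (j := j) (m := 1) (by simpa using by linarith [H.J2]) ?_).2
  simp only [Int.cast_one, one_mul]
  linarith

theorem t1276_perm [Finite ι] (H : t1276_H b t J η)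
    (h : ∀ i, ∃ j, ‖b j - b i - t i‖ ≤ η * ‖t i‖) :
    ∃ e : Equiv.Perm ι, ∀ i, ‖b (e i) - b i - t i‖ ≤ η * ‖t i‖ := by
  choose σ hσ using h
  have key : ∀ i i', σ i = σ i' → ‖t i'‖ ≤ ‖t i‖ → i' = i := by
    intro i i' h1 h2
    refine H.sep i i' ?_
    have h3 := hσ i
    have h4 := hσ i'
    have h5 := t1276_step H h3
    have h6 := t1276_step H h4
    rw [← h1] at h4 h6
    have e : b i' - b i = (b (σ i) - b i - t i) - (b (σ i) - b i' - t i') - (t (σ i) - t i) +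
        (t (σ i) - t i') := by ring
    have h7 := norm_add_le ((b (σ i) - b i - t i) - (b (σ i) - b i' - t i') - (t (σ i) - t i))
      (t (σ i) - t i')
    have h8 := norm_sub_le ((b (σ i) - b i - t i) - (b (σ i) - b i' - t i')) (t (σ i) - t i)
    have h9 := norm_sub_le (b (σ i) - b i - t i) (b (σ i) - b i' - t i')
    have h10 : η * ‖t i'‖ ≤ η * ‖t i‖ := mul_le_mul_of_nonneg_left h2 H.η0.le
    have h11 : η * ‖t i‖ ≤ 1 / 100 * ‖t i‖ := mul_le_mul_of_nonneg_right H.η1 (norm_nonneg _)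
    rw [e]
    linarith [norm_nonneg (t i)]
  have hi : Function.Injective σ := fun i i' h1 => by
    rcases le_total ‖t i'‖ ‖t i‖ with h2 | h2
    · exact (key i i' h1 h2).symm
    · exact key i' i h1.symm h2
  exact ⟨Equiv.ofBijective σ (Finite.injective_iff_bijective.1 hi), hσ⟩

theorem t1276_pow (H : t1276_H b t J η) {e : Equiv.Perm ι}
    (he : ∀ i, ‖b (e i) - b i - t i‖ ≤ η * ‖t i‖) (i : ι) (m : ℤ) (hm : |(m : ℝ)| ≤ J - 1) :
    ‖b ((e ^ m) i) - b i - m * t i‖ ≤ η * ‖t i‖ ∧ ‖t ((e ^ m) i) - t i‖ ≤ η * ‖t i‖ := by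
  have h0 : 0 ≤ ‖t i‖ := norm_nonneg _
  have hη := H.η0.le
  have h1 : η * ‖t i‖ ≤ 1 / 100 * ‖t i‖ := mul_le_mul_of_nonneg_right H.η1 h0
  have h2 : 0 ≤ η * ‖t i‖ := mul_nonneg hη h0
  induction m using Int.induction_on with
  | zero => simpa using h2
  | succ n ih =>
    have hn : (0 : ℝ) ≤ n := Nat.cast_nonneg n
    obtain ⟨h3, h4⟩ := ih (by
      push_cast at hm ⊢
      rw [abs_of_nonneg (by linarith)] at hm ⊢
      linarith)
    refine t1276_fix H hm ?_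
    rw [add_comm (n : ℤ) 1, zpow_one_add, Equiv.Perm.mul_apply]
    set j := (e ^ (n : ℤ)) i
    have h5 := he j
    have h6 : η * ‖t j‖ ≤ η * (2 * ‖t i‖) := by
      have := norm_le_norm_sub_add (t j) (t i)
      gcongr
      linarith
    have e1 : b (e j) - b i - ((1 + n : ℤ) : ℂ) * t i =
        (b (e j) - b j - t j) + (b j - b i - ((n : ℤ) : ℂ) * t i) + (t j - t i) := by
      push_cast
      ring
    rw [e1]
    exact norm_add₃_le.trans (by linarith)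
  | pred n ih =>
    have hn : (0 : ℝ) ≤ n := Nat.cast_nonneg n
    obtain ⟨h3, h4⟩ := ih (by
      push_cast at hm ⊢
      rw [abs_of_nonpos (by linarith)] at hm ⊢
      linarith)
    refine t1276_fix H hm ?_
    have e0 : (e ^ (-(n : ℤ))) i = e ((e ^ (-(n : ℤ) - 1)) i) := by
      rw [← Equiv.Perm.mul_apply, ← zpow_one_add]
      congr 2
      ring
    rw [e0] at h3 h4
    set j := (e ^ (-(n : ℤ) - 1)) i
    have h5 := he j
    have h6 := t1276_step H h5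
    have h7 : η * ‖t j‖ ≤ 1 / 100 * ‖t j‖ := mul_le_mul_of_nonneg_right H.η1 (norm_nonneg _)
    have h8 : η * ‖t j‖ ≤ η * (4 * ‖t i‖) := by
      have a1 := norm_le_norm_sub_add (t (e j)) (t i)
      have a2 := norm_le_norm_sub_add (t j) (t (e j))
      rw [norm_sub_rev] at a2
      gcongr
      linarith
    have e1 : b j - b i - ((-n - 1 : ℤ) : ℂ) * t i = (b (e j) - b i - ((-n : ℤ) : ℂ) * t i) +
        (t (e j) - t j) - ((b (e j) - b j - t j) + (t (e j) - t i)) := by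
      push_cast
      ring
    rw [e1]
    have a1 := norm_add_le (b (e j) - b i - ((-n : ℤ) : ℂ) * t i) (t (e j) - t j)
    have a2 := norm_add_le (b (e j) - b j - t j) (t (e j) - t i)
    exact (norm_sub_le _ _).trans (by linarith)

theorem t1276_close (H : t1276_H b t J η) {e : Equiv.Perm ι}
    (he : ∀ i, ‖b (e i) - b i - t i‖ ≤ η * ‖t i‖) {i j : ι} {K : ℝ} (hK : K ≤ J - 2)
    (h : ‖b j - b i‖ ≤ K * ‖t i‖) : ∃ m : ℤ, |(m : ℝ)| ≤ K + 1 ∧ j = (e ^ m) i := by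
  have h0 : 0 < ‖t i‖ := norm_pos_iff.2 (H.ne i)
  have h1 : η * ‖t i‖ ≤ 1 / 100 * ‖t i‖ := mul_le_mul_of_nonneg_right H.η1 h0.le
  obtain ⟨-, m, h2⟩ := H.loc i j (h.trans (by gcongr; linarith))
  have h3 : |(m : ℝ)| ≤ K + 1 := by
    refine le_of_mul_le_mul_right ?_ h0
    have a1 := norm_le_norm_sub_add ((m : ℂ) * t i) (b j - b i)
    rw [norm_sub_rev, norm_mul, Complex.norm_intCast] at a1
    linarith
  refine ⟨m, h3, H.sep _ _ ?_⟩
  obtain ⟨h4, h5⟩ := t1276_pow H he i m (by linarith)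
  have e1 : b j - b ((e ^ m) i) = (b j - b i - m * t i) - (b ((e ^ m) i) - b i - m * t i) := by ring
  have a1 := norm_le_norm_sub_add (t i) (t ((e ^ m) i))
  rw [norm_sub_rev] at a1
  rw [e1]
  exact (norm_sub_le _ _).trans (by linarith)

/-- two close points lie in the same orbit -/
theorem t1276_close2 (H : t1276_H b t J η) {e : Equiv.Perm ι}
    (he : ∀ i, ‖b (e i) - b i - t i‖ ≤ η * ‖t i‖) {i j : ι} {K : ℝ} (hK : 2 * K ≤ J - 2)
    (hK0 : 0 ≤ K) {z : ℂ} (hi : ‖z - b i‖ ≤ K * ‖t i‖) (hj : ‖z - b j‖ ≤ K * ‖t j‖) :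
    ∃ m : ℤ, |(m : ℝ)| ≤ 2 * K + 1 ∧ j = (e ^ m) i := by
  have h1 : ‖b j - b i‖ ≤ K * ‖t i‖ + K * ‖t j‖ := by
    have e1 : b j - b i = (z - b i) - (z - b j) := by ring
    rw [e1]
    exact (norm_sub_le _ _).trans (by linarith)
  rcases le_total ‖t j‖ ‖t i‖ with h2 | h2
  · have h3 : K * ‖t j‖ ≤ K * ‖t i‖ := by gcongr
    exact t1276_close H he hK (by linarith)
  · have h3 : K * ‖t i‖ ≤ K * ‖t j‖ := by gcongr
    obtain ⟨m, h4, h5⟩ := t1276_close H he (i := j) (j := i) hK (by rw [norm_sub_rev]; linarith)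
    refine ⟨-m, by simpa using h4, ?_⟩
    rw [h5, ← Equiv.Perm.mul_apply, ← zpow_add]
    simp

theorem t1276_S_orb (H : t1276_H b t J η) {e : Equiv.Perm ι}
    (he : ∀ i, ‖b (e i) - b i - t i‖ ≤ η * ‖t i‖) (i : ι) :
    t1276_S (fun k => b ((e ^ k) i)) (fun k => t ((e ^ k) i)) (J - 1) η := by
  intro n k h
  have h1 := t1276_pow H he ((e ^ n) i) (k - n) h
  rwa [← Equiv.Perm.mul_apply, ← zpow_add, sub_add_cancel] at h1

theorem t1276_period [Finite ι] (e : Equiv.Perm ι) {i : ι} (hi : e i ≠ i) :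
    ∃ l : ℕ, 2 ≤ l ∧ ∀ m n : ℤ, (e ^ m) i = (e ^ n) i ↔ (l : ℤ) ∣ m - n := by
  refine ⟨MulAction.period e i, ?_, fun m n => ?_⟩
  · have h1 := MulAction.period_pos_of_orderOf_pos (orderOf_pos e) i
    have h2 : MulAction.period e i ≠ 1 := fun h => hi (MulAction.period_eq_one_iff.1 h)
    omega
  · rw [← MulAction.zpow_smul_eq_iff_period_dvd, sub_eq_neg_add, zpow_add, zpow_neg, mul_smul,
      inv_smul_eq_iff]
    rfl

end

theorem t1276_per {β τ : ℤ → ℂ} {q : ℤ} (hβ : ∀ k, β (k + q) = β k) (hτ : ∀ k, τ (k + q) = τ k)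
    (w : ℂ) : t1276_Θ β τ (w + q) = t1276_Θ β τ w := by
  unfold t1276_Θ
  rw [Complex.add_re, Complex.add_im, Complex.intCast_re, Complex.intCast_im, add_zero,
    t1276_L_per hβ, t1276_L_per hτ]

theorem t1276_cont {ι : Type} [Finite ι] (b t : ι → ℂ) (g : ℤ → ι) :
    Continuous (t1276_Θ (fun k => b (g k)) fun k => t (g k)) := by
  obtain ⟨c, hc⟩ := Finite.bddAbove_range fun i => ‖b i‖
  obtain ⟨d, hd⟩ := Finite.bddAbove_range fun i => ‖t i‖
  have h1 := t1276_L_cont (f := fun k => b (g k)) fun k => hc ⟨g k, rfl⟩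
  have h2 := t1276_L_cont (f := fun k => t (g k)) fun k => hd ⟨g k, rfl⟩
  unfold t1276_Θ
  fun_prop

theorem t1276_int (β τ : ℤ → ℂ) (k : ℤ) (θ : ℝ) :
    t1276_Θ β τ (k + θ * Complex.I) = β k + τ k * (θ * Complex.I) := by
  unfold t1276_Θ
  simp only [Complex.add_re, Complex.intCast_re, Complex.mul_re, Complex.ofReal_re, Complex.I_re,
    mul_zero, Complex.ofReal_im, Complex.I_im, mul_one, sub_self, add_zero, Complex.add_im,
    Complex.intCast_im, Complex.mul_im, zero_add, t1276_L_int]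
  ring

theorem t1276_fl1 (x : ℝ) : |x - (⌊x⌋ : ℤ)| ≤ 1 := by
  have h1 := Int.floor_le x
  have h2 := Int.lt_floor_add_one x
  rw [abs_le]
  constructor <;> linarith

theorem t1276_dist {β τ : ℤ → ℂ} {K η T : ℝ} (h : t1276_S β τ K η) (hK : 2 ≤ K)
    (hη : η * (1 + T) ≤ 1) {w : ℂ} (hT : |w.im| ≤ T) :
    ‖t1276_Θ β τ w - β ⌊w.re⌋‖ ≤ (T + 2) * ‖τ ⌊w.re⌋‖ := by
  have h1 := t1276_fl1 w.re
  have h2 := t1276_near h (n := ⌊w.re⌋) (w := w) (by linarith) hT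
  have h3 : ‖w - (⌊w.re⌋ : ℤ)‖ ≤ 1 + T := by
    refine (Complex.norm_le_abs_re_add_abs_im _).trans ?_
    rw [Complex.sub_re, Complex.sub_im, Complex.intCast_re, Complex.intCast_im, sub_zero]
    linarith
  have h4 := norm_le_norm_sub_add (t1276_Θ β τ w - β ⌊w.re⌋) (τ ⌊w.re⌋ * (w - (⌊w.re⌋ : ℤ)))
  rw [norm_mul] at h4
  have h5 := norm_nonneg (τ ⌊w.re⌋)
  have h6 : ‖τ ⌊w.re⌋‖ * ‖w - (⌊w.re⌋ : ℤ)‖ ≤ ‖τ ⌊w.re⌋‖ * (1 + T) := by gcongr
  have h7 : η * (1 + T) * ‖τ ⌊w.re⌋‖ ≤ 1 * ‖τ ⌊w.re⌋‖ := by gcongr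
  linarith

theorem t1276_coord {z β τ u : ℂ} (hτ : τ ≠ 0) {c : ℝ} (h : ‖z - β - τ * u‖ ≤ c * ‖τ‖) :
    z = β + τ * ((z - β) / τ) ∧ |((z - β) / τ).re - u.re| ≤ c ∧ |((z - β) / τ).im - u.im| ≤ c := by
  have h1 : ‖(z - β) / τ - u‖ ≤ c := by
    have e : (z - β) / τ - u = (z - β - τ * u) / τ := by field_simp
    rw [e, norm_div, div_le_iff₀ (norm_pos_iff.2 hτ)]
    exact h
  refine ⟨by field_simp; ring, ?_, ?_⟩
  · exact (Complex.abs_re_le_norm (_ - u)).trans h1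
  · exact (Complex.abs_im_le_norm (_ - u)).trans h1

theorem t1276_slit {P A B : ℂ} (hA : A ≠ 0) (h1 : ‖P - A‖ ≤ ‖A‖ / 2) (h2 : ‖B - A‖ ≤ ‖A‖ / 8) :
    P / B ∈ Complex.slitPlane := by
  have h0 : 0 < ‖A‖ := norm_pos_iff.2 hA
  have h3 : 7 / 8 * ‖A‖ ≤ ‖B‖ := by
    have := norm_le_norm_sub_add A B
    rw [norm_sub_rev] at this
    linarith
  have h4 : 0 < ‖B‖ := by linarith
  have hB : B ≠ 0 := norm_pos_iff.1 h4
  have e : P / B = 1 + ((P - A) - (B - A)) / B := by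
    field_simp
    ring
  rw [e]
  refine Complex.mem_slitPlane_of_norm_lt_one ?_
  rw [norm_div, div_lt_one h4]
  exact (norm_sub_le _ _).trans_lt (by linarith)

theorem t1276_sub {D B : Set ℂ} (hD : IsOpen D) (hB : IsPreconnected B) (h1 : (B ∩ D).Nonempty)
    (h2 : ∀ z ∈ B, z ∉ frontier D) : B ⊆ D := by
  refine hB.subset_of_closure_inter_subset hD h1 fun z hz => ?_
  by_contra h
  exact h2 z hz.2 (hD.frontier_eq ▸ ⟨hz.1, h⟩)

theorem chain {T : ℝ} (hT : 3 ≤ T) : ∃ J η : ℝ, 0 < η ∧ ∀ (ι : Type) [Fintype ι] [Nonempty ι]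
    (b t : ι → ℂ), (∀ i, t i ≠ 0) → (∀ i j, ‖b j - b i‖ ≤ ‖t i‖ / 2 → j = i) →
    (∀ i, ∃ j, ‖b j - b i - t i‖ ≤ η * ‖t i‖) →
    (∀ i j, ‖b j - b i‖ ≤ J * ‖t i‖ → ‖t j - t i‖ ≤ η * ‖t i‖ ∧
      ∃ m : ℤ, ‖b j - b i - m * t i‖ ≤ η * ‖t i‖) →
    ∃ (s : ℝ) (A : Finset ι) (D : Set ℂ), (s = 1 ∨ s = -1) ∧ A.Nonempty ∧ IsOpen D ∧
      Bornology.IsBounded D ∧
      (∀ z ∈ frontier D, ∃ i ∈ A, ∃ y : ℂ, z = b i + t i * y ∧ |y.re| ≤ 2 ∧ |y.im - s| ≤ 1 / 4) ∧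
      (∀ i ∈ A, ∀ y : ℂ, 0 ≤ y.re → y.re ≤ 1 → 2 ≤ s * y.im → s * y.im ≤ T - 1 →
        b i + t i * y ∈ D) ∧
      (∀ j, b j ∉ D) ∧
      ∀ (p : ℂ[X]) (a : ℂ), a ≠ 0 → (∀ z ∈ D, p.eval z ≠ 0) →
        ¬∀ i ∈ A, ∀ y : ℂ, |y.re| ≤ 2 → |y.im - s * (T - 1)| ≤ 1 / 4 →
          ‖p.eval (b i + t i * y) - a * t i‖ ≤ ‖a * t i‖ / 2 := by
  classical
  have hT0 : 0 < T := by linarith
  refine ⟨2 * T + 20, 1 / (100 * T), by positivity, ?_⟩
  intro ι _ _ b t h0 h1 h2 h3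
  set η := 1 / (100 * T) with hη
  have hηT : η * T = 1 / 100 := by rw [hη]; field_simp
  have hη0 : 0 < η := by positivity
  have hη1 : η ≤ 1 / 300 := by nlinarith
  have H : t1276_H b t (2 * T + 20) η := ⟨hη0, by linarith, by linarith, h0, h1, h3⟩
  obtain ⟨e, he⟩ := t1276_perm H h2
  have hne : ∀ i, (Finset.univ.filter fun j => ∃ k : ℤ, j = (e ^ k) i).Nonempty := fun i =>
    ⟨i, by simpa using ⟨0, by simp⟩⟩
  obtain ⟨i₀, hi₀⟩ := Finite.exists_min fun i =>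
    (Finset.univ.filter fun j => ∃ k : ℤ, j = (e ^ k) i).sup' (hne i) fun j => (b j).re
  obtain ⟨l, hl, hper⟩ := t1276_period e (i := i₀) fun h => by
    have h4 := he i₀
    have h5 := norm_pos_iff.2 (h0 i₀)
    rw [h, sub_self, zero_sub, norm_neg] at h4
    nlinarith
  have hS := t1276_S_orb H he
  have c1 : η * (1 + T) ≤ 1 / 50 := by linarith
  have c2 : η * (3 + 2 * T) ≤ 1 / 16 := by linarith
  have hdist : ∀ (i : ι) (w : ℂ), |w.im| ≤ T →
      ‖t1276_Θ (fun k => b ((e ^ k) i)) (fun k => t ((e ^ k) i)) w - b ((e ^ ⌊w.re⌋) i)‖ ≤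
        (T + 2) * ‖t ((e ^ ⌊w.re⌋) i)‖ := fun i w hw =>
    t1276_dist (hS i) (by linarith) (by linarith) hw
  set Θ := t1276_Θ (fun k => b ((e ^ k) i₀)) fun k => t ((e ^ k) i₀) with hΘ
  have hp : ∀ q : ℤ, (l : ℤ) ∣ q → ∀ w, Θ (w + q) = Θ w := fun q hq w => by
    have h4 : ∀ k, (e ^ (k + q)) i₀ = (e ^ k) i₀ := fun k => (hper _ _).2 (by simpa using hq)
    exact t1276_per (fun k => congrArg b (h4 k)) (fun k => congrArg t (h4 k)) w
  have hnear : ∀ (n : ℤ) (w : ℂ), |w.re - n| ≤ 2 * T + 18 → |w.im| ≤ T →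
      ‖Θ w - b ((e ^ n) i₀) - t ((e ^ n) i₀) * (w - n)‖ ≤ 1 / 50 * ‖t ((e ^ n) i₀)‖ :=
    fun n w a1 a2 => (t1276_near (hS i₀) (by linarith) a2).trans
      (mul_le_mul_of_nonneg_right c1 (norm_nonneg _))
  have hlip : ∀ (n : ℤ) (w w' : ℂ), |w.re - n| ≤ 2 * T + 18 → |w'.re - n| ≤ 2 * T + 18 →
      |w'.im| ≤ T → ‖Θ w - Θ w' - t ((e ^ n) i₀) * (w - w')‖ ≤
        1 / 16 * ‖t ((e ^ n) i₀)‖ * ‖w - w'‖ :=
    fun n w w' a1 a2 a3 => (t1276_lip (hS i₀) (by linarith) (by linarith) a3).trans (by gcongr)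
  have hloc : ∀ (n : ℤ) (w : ℂ), |w.im| ≤ T →
      ‖Θ w - b ((e ^ n) i₀)‖ ≤ (T + 2) * ‖t ((e ^ n) i₀)‖ →
      ∃ q : ℤ, (l : ℤ) ∣ q ∧ |(w + q).re - n| ≤ 2 * T + 18 := fun n w a1 a2 => by
    obtain ⟨m, a3, a4⟩ := t1276_close2 H he (by linarith) (by linarith) a2 (hdist i₀ w a1)
    rw [← Equiv.Perm.mul_apply, ← zpow_add] at a4
    refine ⟨m + n - ⌊w.re⌋, (hper _ _).1 a4.symm, ?_⟩
    have a5 := abs_le.1 (t1276_fl1 w.re)
    rw [Complex.add_re, Complex.intCast_re]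
    push_cast
    rw [abs_le] at a3 ⊢
    constructor <;> linarith [a3.1, a3.2, a5.1, a5.2]
  have hcoord : ∀ w : ℂ, |w.im| ≤ T → ∃ y : ℂ,
      Θ w = b ((e ^ ⌊w.re⌋) i₀) + t ((e ^ ⌊w.re⌋) i₀) * y ∧ |y.re| ≤ 2 ∧ |y.im - w.im| ≤ 1 / 4 :=
    fun w a1 => by
      have a2 := t1276_fl1 w.re
      obtain ⟨a3, a4, a5⟩ := t1276_coord (h0 _) (hnear ⌊w.re⌋ w (by linarith) a1)
      rw [Complex.sub_re, Complex.intCast_re] at a4
      rw [Complex.sub_im, Complex.intCast_im, sub_zero] at a5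
      refine ⟨_, a3, ?_, by linarith⟩
      rw [abs_le] at a2 a4 ⊢
      constructor <;> linarith [a2.1, a2.2, a4.1, a4.2]
  obtain ⟨s, D, hs, hDo, hDb, hfr, hre, hin, hlast⟩ := tube_top (Θ := Θ) (l := l) (T := T)
    (by exact_mod_cast hl) hT (t1276_cont b t fun k => (e ^ k) i₀).continuousOn
    (fun w => by simpa using hp l dvd_rfl w) (fun w w' a1 a2 a3 => by
      obtain ⟨q, ⟨m, rfl⟩, a4⟩ := hloc ⌊w.re⌋ w' a2 (a3 ▸ hdist i₀ w a1)
      have a5 := hlip ⌊w.re⌋ (w' + ((l * m : ℤ) : ℂ)) w a4 (by linarith [t1276_fl1 w.re]) a1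
      rw [hp _ (dvd_mul_right _ _), a3, sub_self, zero_sub, norm_neg, norm_mul] at a5
      have a6 := norm_pos_iff.2 (h0 ((e ^ ⌊w.re⌋) i₀))
      have a7 : ‖w' + ((l * m : ℤ) : ℂ) - w‖ ≤ 0 := by nlinarith
      have a8 := sub_eq_zero.1 (norm_le_zero_iff.1 a7)
      refine ⟨-m, ?_⟩
      rw [← a8]
      push_cast
      ring) (fun w a1 => by
      have a2 := t1276_fl1 w.re
      refine t1276_open (h0 ((e ^ ⌊w.re⌋) i₀)) (r := min 1 (T - |w.im|))
        (lt_min one_pos (by linarith)) fun x hx y hy => ?_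
      rw [mem_ball, dist_eq_norm, lt_min_iff] at hx hy
      have a3 : |x.re - w.re| ≤ 1 := (Complex.abs_re_le_norm (x - w)).trans hx.1.le
      have a4 : |y.re - w.re| ≤ 1 := (Complex.abs_re_le_norm (y - w)).trans hy.1.le
      have a5 : |y.im - w.im| ≤ T - |w.im| := (Complex.abs_im_le_norm (y - w)).trans hy.2.le
      have a6 := abs_sub_le x.re w.re ⌊w.re⌋
      have a7 := abs_sub_le y.re w.re ⌊w.re⌋
      have a8 := abs_sub_abs_le_abs_sub y.im w.im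
      refine (hlip ⌊w.re⌋ x y (by linarith) (by linarith) (by linarith)).trans ?_
      gcongr
      norm_num)
  have hss : s * s = 1 := by rcases hs with h | h <;> rw [h] <;> norm_num
  have hs1 : ∀ x : ℝ, |s * x| = |x| := fun x => by rcases hs with h | h <;> rw [h] <;> simp
  have hsT : |s| ≤ T := by
    have := hs1 1
    rw [mul_one, abs_one] at this
    linarith
  have hmem : ∀ k : ℤ, (e ^ k) i₀ ∈ Finset.univ.filter fun j => ∃ k : ℤ, j = (e ^ k) i₀ :=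
    fun k => by simpa using ⟨k, rfl⟩
  refine ⟨s, Finset.univ.filter fun j => ∃ k : ℤ, j = (e ^ k) i₀, D, hs, hne i₀, hDo, hDb,
    fun z hz => ?_, fun i hi y y0 y1 y2 y3 => ?_, fun j hj => ?_, fun p a ha hpD hall => ?_⟩
  · obtain ⟨w, a1, rfl⟩ := hfr hz
    have a2 : w.im = s := a1
    obtain ⟨y, a3, a4, a5⟩ := hcoord w (a2 ▸ hsT)
    exact ⟨_, hmem _, y, a3, a4, a2 ▸ a5⟩
  · obtain ⟨n, rfl⟩ := (Finset.mem_filter.1 hi).2
    have a1 : Convex ℝ {y : ℂ | (0 ≤ y.re ∧ y.re ≤ 1) ∧ 2 ≤ s * y.im ∧ s * y.im ≤ T - 1} := by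
      intro u hu v hv α γ hα hγ hαγ
      simp only [mem_ofPred_eq, Complex.add_re, Complex.add_im, Complex.real_smul,
        Complex.re_ofReal_mul, Complex.im_ofReal_mul] at hu hv ⊢
      have e1 : s * (α * u.im + γ * v.im) = α * (s * u.im) + γ * (s * v.im) := by ring
      rw [e1]
      exact ⟨(convex_Icc (0 : ℝ) 1) hu.1 hv.1 hα hγ hαγ, (convex_Icc 2 (T - 1)) hu.2 hv.2 hα hγ hαγ⟩
    refine t1276_sub hDo (a1.isPreconnected.image
      (fun y => b ((e ^ n) i₀) + t ((e ^ n) i₀) * y) (by fun_prop)) ?_ ?_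
      ⟨y, ⟨⟨y0, y1⟩, y2, y3⟩, rfl⟩
    · have a2 : s * (2 * s) = 2 := by linarith
      refine ⟨_, ⟨((2 * s : ℝ) : ℂ) * Complex.I, ?_, rfl⟩, ?_⟩
      · simp only [mem_ofPred_eq, Complex.re_ofReal_mul, Complex.im_ofReal_mul, Complex.I_re,
          Complex.I_im, mul_zero, mul_one, a2]
        exact ⟨⟨le_rfl, zero_le_one⟩, le_rfl, by linarith⟩
      · have a3 := t1276_int (fun k => b ((e ^ k) i₀)) (fun k => t ((e ^ k) i₀)) n (2 * s)
        have a4 : ((n : ℂ) + ((2 * s : ℝ) : ℂ) * Complex.I).im = 2 * s := by simp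
        have a5 := (hin ((n : ℂ) + ((2 * s : ℝ) : ℂ) * Complex.I) (by
          rw [a4, mul_comm, hs1, abs_two]
          linarith)).2 (by rw [a4, a2]; norm_num)
        rwa [hΘ, a3] at a5
    · rintro _ ⟨u, hu, rfl⟩ hz
      obtain ⟨w, a2, a3⟩ := hfr hz
      have a4 : w.im = s := a2
      have a5 : |u.im| ≤ T - 1 := by
        rw [← hs1, abs_of_nonneg (by linarith [hu.2.1])]
        exact hu.2.2
      have a6 : ‖u‖ ≤ T + 2 := by
        refine (Complex.norm_le_abs_re_add_abs_im _).trans ?_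
        rw [abs_of_nonneg hu.1.1]
        linarith [hu.1.2]
      obtain ⟨q, a7, a8⟩ := hloc n w (a4 ▸ hsT) (by
        rw [a3, add_sub_cancel_left, norm_mul, mul_comm]
        gcongr)
      have a9 : (w + q).im = s := by simpa using a4
      obtain ⟨-, -, a10⟩ := t1276_coord (h0 _) (hnear n (w + q) a8 (a9 ▸ hsT))
      rw [hp q a7, a3, add_sub_cancel_left, mul_div_cancel_left₀ _ (h0 _), Complex.sub_im, a9,
        Complex.intCast_im, sub_zero, ← hs1, mul_sub, hss] at a10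
      linarith [(abs_le.1 a10).2, hu.2.1]
  · have hint : ∀ (i : ι) (k : ℤ), t1276_Θ (fun k => b ((e ^ k) i)) (fun k => t ((e ^ k) i))
        ((k : ℝ) : ℂ) = b ((e ^ k) i) := fun i k => by
      simpa using t1276_int (fun k => b ((e ^ k) i)) (fun k => t ((e ^ k) i)) k 0
    have a1 := t1276_sub hDo (isPreconnected_range ((t1276_cont b t fun k => (e ^ k) j).comp
      Complex.continuous_ofReal)) ⟨b j, ⟨((0 : ℤ) : ℝ), by simpa using hint j 0⟩, hj⟩ (by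
        rintro _ ⟨x, rfl⟩ hz
        obtain ⟨w, a2, a3⟩ := hfr hz
        have a4 : w.im = s := a2
        have a5 := hdist j x (by simpa using hT0.le)
        have a6 := hdist i₀ w (a4 ▸ hsT)
        rw [← hΘ, a3] at a6
        obtain ⟨m, -, a7⟩ := t1276_close2 H he (by linarith) (by linarith) a6 a5
        have a8 : j = (e ^ (-⌊(x : ℂ).re⌋ + (m + ⌊w.re⌋))) i₀ := by
          rw [zpow_add, zpow_add, Equiv.Perm.mul_apply, Equiv.Perm.mul_apply, ← a7,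
            ← Equiv.Perm.mul_apply, ← zpow_add]
          simp
        rw [a8, ← hint, ← hΘ] at hj
        have a9 := (hin _ (by simpa using hT0.le)).1 hj
        rw [Complex.ofReal_im, mul_zero] at a9
        linarith)
    obtain ⟨j', a2, a3⟩ := Finset.exists_mem_eq_sup' (hne j) fun j => (b j).re
    obtain ⟨k, rfl⟩ := (Finset.mem_filter.1 a2).2
    obtain ⟨x, a4⟩ := hre _ (a1 ⟨(k : ℝ), hint j k⟩)
    have a5 : (Θ x).re ≤ (Finset.univ.filter fun j => ∃ k : ℤ, j = (e ^ k) i₀).sup' (hne i₀)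
        fun j => (b j).re := by
      have a6 := t1276_L_re (f := fun k => b ((e ^ k) i₀))
        (M := (Finset.univ.filter fun j => ∃ k : ℤ, j = (e ^ k) i₀).sup' (hne i₀) fun j => (b j).re)
        (fun k => Finset.le_sup' (fun j => (b j).re) (hmem k)) x
      simpa [hΘ, t1276_Θ] using a6
    have a6 := hi₀ j
    linarith
  · refine hlast p a hpD fun w a1 => ?_
    have a2 : |w.im| ≤ T := by
      rw [a1, hs1, abs_of_nonneg (by linarith)]
      linarith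
    obtain ⟨y, a3, a4, a5⟩ := hcoord w a2
    have a6 := hall _ (hmem ⌊w.re⌋) y a4 (a1 ▸ a5)
    rw [← a3] at a6
    refine t1276_slit (mul_ne_zero ha (h0 _)) a6 ?_
    have a7 := abs_le.1 (t1276_fl1 w.re)
    have a8 := hlip ⌊w.re⌋ (w + 1) w (by
      rw [Complex.add_re, Complex.one_re, abs_le]
      constructor <;> linarith [a7.1, a7.2]) (by linarith [t1276_fl1 w.re]) a2
    rw [add_sub_cancel_left, mul_one, norm_one, mul_one] at a8
    rw [← mul_sub, norm_mul, norm_mul]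
    have a9 := norm_nonneg a
    have a10 := norm_nonneg (t ((e ^ ⌊w.re⌋) i₀))
    nlinarith

end Pool.Agent.MP_28f8a1_an.H42

end

-- part MP_28f8a1_an.H42.Per
section

/-! A vector field seen from every zero of a polynomial has a single zero. -/

set_option autoImplicit false

namespace Pool.Agent.MP_28f8a1_an.H42

open MeasureTheory Metric Set Real Filter Topology Polynomial
open scoped ENNReal

/-- The polynomial in a chart. -/
noncomputable def t1294_w (p : ℂ[X]) (b t τ y : ℂ) : ℂ := p.eval (b + t * y) / (τ * t)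

theorem t1294_diff (p : ℂ[X]) (b t τ : ℂ) : Differentiable ℂ (t1294_w p b t τ) :=
  (p.differentiable.comp (f := fun y => b + t * y) (by fun_prop)).div_const _

/-- The hypotheses. -/
structure t1294_H (𝒰 : Ultrafilter ℕ) (P : ℕ → ℕ) (b t : ℕ → ℕ → ℂ) (Φ Ψ : ℕ → ℂ[X])
    (τ : ℕ → ℂ) (W : ℂ → ℂ) : Prop where
  hP : ∀ n, 0 < P n
  hτ : ∀ n, τ n ≠ 0
  hb : ∀ n, ∀ k < P n, (Φ n).eval (b n k) = 0
  hinj : ∀ n, ∀ i < P n, ∀ j < P n, b n i = b n j → i = j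
  hz : ∀ n z, (Ψ n).eval z ≠ 0 → (Φ n).eval z = 0 → ∃ k < P n, b n k = z
  hW : Differentiable ℂ W
  h1 : deriv W 0 = 1
  hc : ∀ L η : ℝ, 0 < η → ∀ᶠ n in (𝒰 : Filter ℕ), ∀ k < P n, t n k ≠ 0 ∧
    ∀ y ∈ ball (0 : ℂ) L, ‖t1294_w (Φ n) (b n k) (t n k) (τ n) y - W y‖ ≤ η ∧
      ‖(Ψ n).eval (b n k + t n k * y) - 1‖ ≤ η

theorem t1294_ulim (𝒰 : Ultrafilter ℕ) {f : ℕ → ℂ} {R : ℝ}
    (h : ∀ᶠ n in (𝒰 : Filter ℕ), ‖f n‖ ≤ R) : ∃ a, Tendsto f 𝒰 (𝓝 a) := by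
  obtain ⟨a, -, ha⟩ := (isCompact_closedBall (0 : ℂ) R).ultrafilter_le_nhds (𝒰.map f)
    (le_principal_iff.2 (h.mono fun n hn => mem_closedBall_zero_iff.2 hn))
  exact ⟨a, ha⟩

theorem t1294_loc {W : ℂ → ℂ} (hW : Differentiable ℂ W) (h0 : W 0 = 0) (h1 : deriv W 0 = 1) :
    ∃ e : ℝ, 0 < e ∧ ∀ w : ℂ → ℂ, Differentiable ℂ w → w 0 = 0 →
      (∀ y ∈ ball (0 : ℂ) 1, ‖w y - W y‖ ≤ 1 / 4) → ∀ y, ‖y‖ ≤ e → w y = 0 → y = 0 := by
  have hd : HasDerivAt W 1 0 := h1 ▸ (hW 0).hasDerivAt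
  obtain ⟨δ, hδ, h2⟩ := Metric.eventually_nhds_iff.1
    (hd.isLittleO.def (by norm_num : (0 : ℝ) < 1 / 4))
  refine ⟨min (δ / 2) (1 / 2), by positivity, fun w dw w0 hw y hy hy0 => ?_⟩
  rw [le_min_iff] at hy
  have h3 := h2 (y := y) (by rw [dist_zero_right]; linarith [hy.1])
  have h4 := Complex.dist_le_div_mul_dist_of_mapsTo_ball (f := fun y => w y - W y) (c := 0)
    (R₁ := 1) (R₂ := 1 / 4) (dw.sub hW).differentiableOn
    (fun z hz => by simpa [w0, h0] using hw z hz) (z := y)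
    (mem_ball_zero_iff.2 (by linarith [hy.2]))
  simp only [w0, h0, hy0, sub_zero, zero_sub, dist_zero_right, norm_neg, smul_eq_mul,
    mul_one] at h3 h4
  have h5 := norm_sub_norm_le y (W y)
  rw [norm_sub_rev] at h5
  exact norm_le_zero_iff.1 (by linarith)

section

variable {𝒰 : Ultrafilter ℕ} {P : ℕ → ℕ} {b t : ℕ → ℕ → ℂ} {Φ Ψ : ℕ → ℂ[X]} {τ : ℕ → ℂ}
  {W : ℂ → ℂ}

theorem t1294_zero (H : t1294_H 𝒰 P b t Φ Ψ τ W) : W 0 = 0 := by
  refine norm_le_zero_iff.1 (le_of_forall_pos_le_add fun η hη => ?_)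
  obtain ⟨n, hn⟩ := (H.hc 1 η hη).exists
  have := ((hn 0 (H.hP n)).2 0 (mem_ball_self one_pos)).1
  simpa [t1294_w, H.hb n 0 (H.hP n)] using this

/-- Separation of the points. -/
theorem t1294_sep (H : t1294_H 𝒰 P b t Φ Ψ τ W) : ∃ e : ℝ, 0 < e ∧ ∀ᶠ n in (𝒰 : Filter ℕ),
    ∀ i < P n, ∀ j < P n, ‖b n j - b n i‖ ≤ e * ‖t n i‖ → j = i := by
  obtain ⟨e, he, h⟩ := t1294_loc H.hW (t1294_zero H) H.h1
  refine ⟨e, he, (H.hc 1 (1 / 4) (by norm_num)).mono fun n hn i hi j hj hij => ?_⟩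
  obtain ⟨ht, hy⟩ := hn i hi
  have h2 := h _ (t1294_diff (Φ n) (b n i) (t n i) (τ n)) (by simp [t1294_w, H.hb n i hi])
    (fun y h3 => (hy y h3).1) ((b n j - b n i) / t n i)
    (by rwa [norm_div, div_le_iff₀ (norm_pos_iff.2 ht)])
    (by simp [t1294_w, mul_div_cancel₀ _ ht, H.hb n j hj])
  exact H.hinj n j hj i hi (sub_eq_zero.1 ((div_eq_zero_iff.1 h2).resolve_right ht))

/-- Limits of pairs of neighbouring charts. -/
theorem t1294_pair (H : t1294_H 𝒰 P b t Φ Ψ τ W) (hne : ∃ x, x ≠ 0 ∧ W x = 0) {k j : ℕ → ℕ}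
    {J : ℝ} (h : ∀ᶠ n in (𝒰 : Filter ℕ), k n < P n ∧ j n < P n ∧
      ‖b n (j n) - b n (k n)‖ ≤ J * ‖t n (k n)‖) :
    ∃ x μ : ℂ, Tendsto (fun n => (b n (j n) - b n (k n)) / t n (k n)) 𝒰 (𝓝 x) ∧
      Tendsto (fun n => t n (j n) / t n (k n)) 𝒰 (𝓝 μ) ∧ μ ≠ 0 ∧
      ∀ y, W (x + μ * y) = μ * W y := by
  obtain ⟨e, he, hs⟩ := t1294_sep H
  have ht : ∀ᶠ n in (𝒰 : Filter ℕ), t n (k n) ≠ 0 ∧ t n (j n) ≠ 0 := by
    filter_upwards [h, H.hc 1 1 one_pos] with n a1 a2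
    exact ⟨(a2 _ a1.1).1, (a2 _ a1.2.1).1⟩
  obtain ⟨x, hx⟩ := t1294_ulim 𝒰 (f := fun n => (b n (j n) - b n (k n)) / t n (k n)) (R := J) (by
    filter_upwards [h, ht] with n a1 a2
    rw [norm_div, div_le_iff₀ (norm_pos_iff.2 a2.1)]
    exact a1.2.2)
  obtain ⟨μ, hμ⟩ := t1294_ulim 𝒰 (f := fun n => t n (j n) / t n (k n)) (R := max 1 (J / e)) (by
    filter_upwards [h, ht, hs] with n a1 a2 a3
    by_cases h1 : ‖b n (k n) - b n (j n)‖ ≤ e * ‖t n (j n)‖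
    · rw [← a3 _ a1.2.1 _ a1.1 h1, div_self a2.1, norm_one]
      exact le_max_left _ _
    · refine le_trans ?_ (le_max_right _ _)
      rw [norm_sub_rev] at h1
      rw [norm_div, div_le_div_iff₀ (norm_pos_iff.2 a2.1) he]
      linarith [a1.2.2])
  refine ⟨x, μ, hx, hμ, pair_limit (l := 𝒰) H.hW
    (w := fun n => t1294_w (Φ n) (b n (k n)) (t n (k n)) (τ n))
    (w' := fun n => t1294_w (Φ n) (b n (j n)) (t n (j n)) (τ n)) (fun n => t1294_diff _ _ _ _)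
    (fun L η hη => ?_) (fun L η hη => ?_) hx hμ ?_ (t1294_zero H) H.h1 hne⟩
  · filter_upwards [h, H.hc L η hη] with n a1 a2 y hy
    exact ((a2 _ a1.1).2 y hy).1
  · filter_upwards [h, H.hc L η hη] with n a1 a2 y hy
    exact ((a2 _ a1.2.1).2 y hy).1
  · filter_upwards [ht] with n ⟨a1, a2⟩
    refine ⟨div_ne_zero a2 a1, fun y => ?_⟩
    have a3 := H.hτ n
    have e1 : b n (k n) + t n (k n) * ((b n (j n) - b n (k n)) / t n (k n) +
        t n (j n) / t n (k n) * y) = b n (j n) + t n (j n) * y := by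
      field_simp
      ring
    simp only [t1294_w, e1]
    field_simp

/-- Zeros of the limit come from points of the family. -/
theorem t1294_near (H : t1294_H 𝒰 P b t Φ Ψ τ W) {x : ℂ} (hx : W x = 0) {ε : ℝ} (hε : 0 < ε) :
    ∀ᶠ n in (𝒰 : Filter ℕ), ∀ k < P n, ∃ j < P n,
      ‖b n j - b n k - t n k * x‖ ≤ ε * ‖t n k‖ := by
  obtain ⟨η, hη, h⟩ := hurwitz_zero H.hW H.h1 hx (lt_min hε one_pos)
  refine (H.hc (‖x‖ + 2) (min η (1 / 2)) (by positivity)).mono fun n hn k hk => ?_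
  obtain ⟨ht, hy⟩ := hn k hk
  obtain ⟨y, h1, h2⟩ := h _ (t1294_diff (Φ n) (b n k) (t n k) (τ n))
    fun y h3 => (hy y h3).1.trans (min_le_left _ _)
  rw [mem_ball, dist_eq_norm, lt_min_iff] at h1
  have h3 := (hy y (mem_ball_zero_iff.2 (by
    linarith [norm_le_norm_add_norm_sub' y x, h1.2]))).2.trans (min_le_right _ _)
  obtain ⟨j, hj, h4⟩ := H.hz n (b n k + t n k * y) (fun h0 => by
    rw [h0] at h3
    norm_num at h3) ((div_eq_zero_iff.1 h2).resolve_right (mul_ne_zero (H.hτ n) ht))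
  refine ⟨j, hj, ?_⟩
  rw [h4, add_sub_cancel_left, ← mul_sub, norm_mul, mul_comm]
  exact mul_le_mul_of_nonneg_right h1.1.le (norm_nonneg _)

theorem t1294_sym (H : t1294_H 𝒰 P b t Φ Ψ τ W) (hne : ∃ x, x ≠ 0 ∧ W x = 0) (x : ℂ)
    (hx : W x = 0) : ∃ μ : ℂ, μ ≠ 0 ∧ ∀ y, W (x + μ * y) = μ * W y := by
  choose j hj hmin using fun n => Finset.exists_min_image (Finset.range (P n))
    (fun j => ‖b n j - b n 0 - t n 0 * x‖) ⟨0, Finset.mem_range.2 (H.hP n)⟩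
  have h1 : ∀ ε : ℝ, 0 < ε → ∀ᶠ n in (𝒰 : Filter ℕ),
      ‖b n (j n) - b n 0 - t n 0 * x‖ ≤ ε * ‖t n 0‖ := fun ε hε =>
    (t1294_near H hx hε).mono fun n hn => by
      obtain ⟨i, hi, h⟩ := hn 0 (H.hP n)
      exact (hmin n i (Finset.mem_range.2 hi)).trans h
  obtain ⟨x', μ, h2, -, h3, h4⟩ := t1294_pair H hne (k := fun _ => 0) (j := j) (J := 1 + ‖x‖)
    ((h1 1 one_pos).mono fun n hn => ⟨H.hP n, Finset.mem_range.1 (hj n), by
      have := norm_le_norm_sub_add (b n (j n) - b n 0) (t n 0 * x)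
      rw [norm_mul] at this
      linarith⟩)
  have h5 : Tendsto (fun n => (b n (j n) - b n 0) / t n 0) 𝒰 (𝓝 x) := by
    refine Metric.tendsto_nhds.2 fun ε hε => ?_
    filter_upwards [h1 (ε / 2) (by positivity), H.hc 1 1 one_pos] with n a1 a2
    have a3 := (a2 0 (H.hP n)).1
    rw [dist_eq_norm, div_sub' a3, norm_div]
    exact ((div_le_iff₀ (norm_pos_iff.2 a3)).2 a1).trans_lt (by linarith)
  exact ⟨μ, h3, tendsto_nhds_unique h2 h5 ▸ h4⟩

theorem t1294_scale (H : t1294_H 𝒰 P b t Φ Ψ τ W) {g : ℂ} (hg : g ≠ 0) :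
    t1294_H 𝒰 P b (fun n k => g * t n k) Φ Ψ τ fun y => W (g * y) / g := by
  have hg0 : 0 < ‖g‖ := norm_pos_iff.2 hg
  refine ⟨H.hP, H.hτ, H.hb, H.hinj, H.hz,
    (H.hW.comp (f := fun y => g * y) (by fun_prop)).div_const _, ?_, fun L η hη => ?_⟩
  · have hd : HasDerivAt W 1 (g * 0) := by
      rw [mul_zero, ← H.h1]
      exact (H.hW 0).hasDerivAt
    have := ((hd.comp 0 ((hasDerivAt_id (0 : ℂ)).const_mul g)).div_const g).deriv
    rw [one_mul, mul_one, div_self hg] at this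
    exact this
  · refine (H.hc (‖g‖ * L) (min η (‖g‖ * η)) (by positivity)).mono fun n hn k hk => ?_
    obtain ⟨ht, hy⟩ := hn k hk
    refine ⟨mul_ne_zero hg ht, fun y h1 => ?_⟩
    obtain ⟨h2, h3⟩ := hy (g * y) (by
      rw [mem_ball_zero_iff] at h1 ⊢
      rw [norm_mul]
      exact mul_lt_mul_of_pos_left h1 hg0)
    have e1 : g * t n k * y = t n k * (g * y) := by ring
    have e2 : t1294_w (Φ n) (b n k) (g * t n k) (τ n) y =
        t1294_w (Φ n) (b n k) (t n k) (τ n) (g * y) / g := by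
      simp only [t1294_w, e1]
      rw [div_div]
      congr 1
      ring
    rw [e1, e2, ← sub_div, norm_div, div_le_iff₀' hg0]
    exact ⟨h2.trans (min_le_right _ _), h3.trans (min_le_left _ _)⟩

theorem t1294_int (H : t1294_H 𝒰 P b t Φ Ψ τ W) (hz : ∀ x, W x = 0 ↔ ∃ m : ℤ, x = m)
    (hμ : ∀ x μ : ℂ, μ ≠ 0 → (∀ y, W (x + μ * y) = μ * W y) → μ = 1) (J : ℝ) {η : ℝ}
    (hη : 0 < η) : ∀ᶠ n in (𝒰 : Filter ℕ), ∀ i < P n, ∀ j < P n,
      ‖b n j - b n i‖ ≤ J * ‖t n i‖ → ‖t n j - t n i‖ ≤ η * ‖t n i‖ ∧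
        ∃ m : ℤ, ‖b n j - b n i - m * t n i‖ ≤ η * ‖t n i‖ := by
  by_contra hc
  have h1 := (Ultrafilter.eventually_not.2 hc).mono fun n hn =>
    (by
      by_contra hk
      refine hn fun i hi j hj hij => ?_
      by_contra hl
      exact hk ⟨i, j, ⟨hi, hj, hij⟩, hl⟩ :
      ∃ i j, (i < P n ∧ j < P n ∧ ‖b n j - b n i‖ ≤ J * ‖t n i‖) ∧
        ¬(‖t n j - t n i‖ ≤ η * ‖t n i‖ ∧ ∃ m : ℤ, ‖b n j - b n i - m * t n i‖ ≤ η * ‖t n i‖))
  obtain ⟨k, h2⟩ := h1.choice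
  obtain ⟨j, h3⟩ := h2.choice
  obtain ⟨x, μ, a1, a2, a3, a4⟩ := t1294_pair H ⟨1, one_ne_zero, (hz 1).2 ⟨1, by simp⟩⟩
    (h3.mono fun n hn => hn.1)
  obtain rfl := hμ x μ a3 a4
  obtain ⟨m, rfl⟩ := (hz x).1 (by simpa [t1294_zero H] using a4 0)
  obtain ⟨n, b1, b2, b3, b4⟩ := (h3.and ((Metric.tendsto_nhds.1 a1 η hη).and
    ((Metric.tendsto_nhds.1 a2 η hη).and (H.hc 1 1 one_pos)))).exists
  have ht := (b4 _ b1.1.1).1
  rw [dist_eq_norm, div_sub' ht, norm_div, div_lt_iff₀ (norm_pos_iff.2 ht)] at b2 b3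
  rw [mul_one] at b3
  rw [mul_comm (t n (k n))] at b2
  exact b1.2 ⟨b3.le, m, b2.le⟩

end

theorem t1294_max {F : ℂ → ℂ} {D : Set ℂ} (hD : Bornology.IsBounded D)
    (hF : ∀ z ∈ closure D, DifferentiableAt ℂ F z) {C : ℝ} (h : ∀ z ∈ frontier D, ‖F z‖ ≤ C)
    {z : ℂ} (hz : z ∈ D) : ‖F z‖ ≤ C :=
  Complex.norm_le_of_forall_mem_frontier_norm_le hD
    (DifferentiableOn.diffContOnCl fun z hz => (hF z hz).differentiableWithinAt) h
    (subset_closure hz)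

theorem t1294_static {V : ℂ → ℂ} {m M T η s : ℝ} {ι : Type} {A : Finset ι} (hA : A.Nonempty)
    {b t : ι → ℂ} {Φ Ψ : ℂ[X]} {τ : ℂ} (hτ : τ ≠ 0) (hs : s = 1 ∨ s = -1) (hT : 3 ≤ T)
    {D : Set ℂ} (hD : Bornology.IsBounded D)
    (hfr : ∀ z ∈ frontier D, ∃ i ∈ A, ∃ y : ℂ, z = b i + t i * y ∧ |y.re| ≤ 2 ∧ |y.im - s| ≤ 1 / 4)
    (hin : ∀ i ∈ A, ∀ y : ℂ, 0 ≤ y.re → y.re ≤ 1 → 2 ≤ s * y.im → s * y.im ≤ T - 1 →
      b i + t i * y ∈ D)
    (hz : ∀ z ∈ D, Ψ.eval z ≠ 0 → Φ.eval z ≠ 0)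
    (hl : ∀ (p : ℂ[X]) (a : ℂ), a ≠ 0 → (∀ z ∈ D, p.eval z ≠ 0) →
      ¬∀ i ∈ A, ∀ y : ℂ, |y.re| ≤ 2 → |y.im - s * (T - 1)| ≤ 1 / 4 →
        ‖p.eval (b i + t i * y) - a * t i‖ ≤ ‖a * t i‖ / 2)
    (hm : 0 < m) (hmM : m ≤ M)
    (hK : ∀ y : ℂ, |y.re| ≤ 2 → |y.im - s| ≤ 1 / 4 → m ≤ ‖V y‖ ∧ ‖V y‖ ≤ M)
    (hc : ∀ i, t i ≠ 0 ∧ ∀ y ∈ ball (0 : ℂ) (T + 3), ‖t1294_w Φ (b i) (t i) τ y - V y‖ ≤ η ∧
      ‖Ψ.eval (b i + t i * y) - 1‖ ≤ η) (h1 : η ≤ m / 4) (h2 : η ≤ 1 / 2)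
    (alt : (∃ y : ℂ, 0 ≤ y.re ∧ y.re ≤ 1 ∧ 2 ≤ s * y.im ∧ s * y.im ≤ T - 1 ∧
        (‖V y‖ < m / 4 ∨ 4 * M < ‖V y‖)) ∨
      ∃ a : ℂ, a ≠ 0 ∧ η ≤ ‖a‖ / 4 ∧ ∀ y : ℂ, T - 2 ≤ s * y.im → ‖V y - a‖ ≤ ‖a‖ / 4) : False := by
  have hτ0 : 0 < ‖τ‖ := norm_pos_iff.2 hτ
  have ht0 : ∀ i, 0 < ‖t i‖ := fun i => norm_pos_iff.2 (hc i).1
  have hball : ∀ y : ℂ, |y.re| ≤ 2 → |y.im| ≤ T → y ∈ ball (0 : ℂ) (T + 3) := fun y a1 a2 =>
    mem_ball_zero_iff.2 (by linarith [Complex.norm_le_abs_re_add_abs_im y])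
  have hb1 : ∀ y : ℂ, |y.re| ≤ 2 → |y.im - s| ≤ 1 / 4 → y ∈ ball (0 : ℂ) (T + 3) := by
    intro y a1 a2
    refine hball y a1 ?_
    rw [abs_le] at a2 ⊢
    rcases hs with rfl | rfl <;> constructor <;> linarith [a2.1, a2.2]
  have he : ∀ i y, Φ.eval (b i + t i * y) = τ * t i * t1294_w Φ (b i) (t i) τ y := fun i y =>
    (mul_div_cancel₀ _ (mul_ne_zero hτ (hc i).1)).symm
  have hn : ∀ i y, ‖Φ.eval (b i + t i * y)‖ = ‖τ‖ * ‖t i‖ * ‖t1294_w Φ (b i) (t i) τ y‖ :=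
    fun i y => by rw [he, norm_mul, norm_mul]
  have hD0 : ∀ z ∈ D, Φ.eval z ≠ 0 := by
    intro z hz'
    refine hz z hz' fun h0 => ?_
    have := t1294_max (F := fun z => Ψ.eval z - 1) hD
      (fun z _ => (Ψ.differentiable z).sub_const _) (C := 1 / 2) (fun z h => by
        obtain ⟨i, -, y, rfl, a1, a2⟩ := hfr z h
        exact ((hc i).2 y (hb1 y a1 a2)).2.trans h2) hz'
    rw [h0] at this
    norm_num at this
  have hw : ∀ i y, |y.re| ≤ 2 → |y.im - s| ≤ 1 / 4 →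
      m / 2 ≤ ‖t1294_w Φ (b i) (t i) τ y‖ ∧ ‖t1294_w Φ (b i) (t i) τ y‖ ≤ 2 * M := by
    intro i y a1 a2
    have a3 := (abs_norm_sub_norm_le _ _).trans ((hc i).2 y (hb1 y a1 a2)).1
    obtain ⟨a4, a5⟩ := hK y a1 a2
    rw [abs_le] at a3
    constructor <;> linarith [a3.1, a3.2]
  rcases alt with ⟨y₀, a1, a2, a3, a4, a5⟩ | ⟨a, a1, a2, a3⟩
  · have hy : ∀ i, |‖t1294_w Φ (b i) (t i) τ y₀‖ - ‖V y₀‖| ≤ η := fun i =>
      (abs_norm_sub_norm_le _ _).trans ((hc i).2 y₀ (hball y₀ (abs_le.2 ⟨by linarith, by linarith⟩)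
        (by rcases hs with rfl | rfl <;> exact abs_le.2 ⟨by linarith, by linarith⟩))).1
    rcases a5 with a5 | a5
    · obtain ⟨i, hi, hmin⟩ := A.exists_min_image (fun i => ‖t i‖) hA
      have hc0 : 0 < ‖τ‖ * ‖t i‖ * (m / 2) := by have := ht0 i; positivity
      have hf : ∀ z ∈ frontier D, ‖τ‖ * ‖t i‖ * (m / 2) ≤ ‖Φ.eval z‖ := by
        intro z h
        obtain ⟨j, hj, y, rfl, c1, c2⟩ := hfr z h
        rw [hn]
        exact mul_le_mul (mul_le_mul_of_nonneg_left (hmin j hj) hτ0.le) (hw j y c1 c2).1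
          (by positivity) (by positivity)
      have hz0 := hin i hi y₀ a1 a2 a3 a4
      have := t1294_max (F := fun z => (Φ.eval z)⁻¹) hD (fun z h => (Φ.differentiable z).inv (by
          rw [closure_eq_self_union_frontier] at h
          exact h.elim (hD0 z) fun h => norm_pos_iff.1 (hc0.trans_le (hf z h))))
        (C := (‖τ‖ * ‖t i‖ * (m / 2))⁻¹) (fun z h => by
          rw [norm_inv]
          exact inv_anti₀ hc0 (hf z h)) hz0
      rw [norm_inv, inv_le_inv₀ (norm_pos_iff.2 (hD0 _ hz0)) hc0, hn] at this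
      have := le_of_mul_le_mul_left this (mul_pos hτ0 (ht0 i))
      linarith [(abs_le.1 (hy i)).2]
    · obtain ⟨i, hi, hmax⟩ := A.exists_max_image (fun i => ‖t i‖) hA
      have := t1294_max (F := fun z => Φ.eval z) hD (fun z _ => Φ.differentiable z)
        (C := ‖τ‖ * ‖t i‖ * (2 * M)) (fun z h => by
          obtain ⟨j, hj, y, rfl, c1, c2⟩ := hfr z h
          rw [hn]
          exact mul_le_mul (mul_le_mul_of_nonneg_left (hmax j hj) hτ0.le) (hw j y c1 c2).2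
            (by positivity) (by positivity)) (hin i hi y₀ a1 a2 a3 a4)
      rw [hn] at this
      have := le_of_mul_le_mul_left this (mul_pos hτ0 (ht0 i))
      linarith [(abs_le.1 (hy i)).1]
  · refine hl Φ (τ * a) (mul_ne_zero hτ a1) hD0 fun i _ y c1 c2 => ?_
    rw [abs_le] at c2
    have c3 := ((hc i).2 y (hball y c1 (by
      rcases hs with rfl | rfl <;> exact abs_le.2 ⟨by linarith [c2.1], by linarith [c2.2]⟩))).1
    have c4 := a3 y (by rcases hs with rfl | rfl <;> linarith [c2.1, c2.2])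
    have c5 := norm_sub_le_norm_sub_add_norm_sub (t1294_w Φ (b i) (t i) τ y) (V y) a
    have e1 : τ * a * t i = τ * t i * a := by ring
    rw [he, e1, ← mul_sub, norm_mul, norm_mul _ a, mul_div_assoc]
    exact mul_le_mul_of_nonneg_left (by linarith) (norm_nonneg _)

theorem t1294_alt {V : ℂ → ℂ} (hV : Differentiable ℂ V) (hp : ∀ y, V (y + 1) = V y)
    {m : ℝ} (M : ℝ) (hm : 0 < m) {s : ℝ} (hs : s = 1 ∨ s = -1) :
    ∃ T₀ η₀ : ℝ, 0 < η₀ ∧ ∀ T η : ℝ, T₀ ≤ T → η ≤ η₀ →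
      (∃ y : ℂ, 0 ≤ y.re ∧ y.re ≤ 1 ∧ 2 ≤ s * y.im ∧ s * y.im ≤ T - 1 ∧
        (‖V y‖ < m / 4 ∨ 4 * M < ‖V y‖)) ∨
      ∃ a : ℂ, a ≠ 0 ∧ η ≤ ‖a‖ / 4 ∧ ∀ y : ℂ, T - 2 ≤ s * y.im → ‖V y - a‖ ≤ ‖a‖ / 4 := by
  rcases half_plane hV hp (m := m / 4) (M := 4 * M) (by positivity) hs with
    ⟨y, a1, a2, a3, a4⟩ | ⟨a, a1, T₀, a2⟩
  · exact ⟨s * y.im + 1, 1, one_pos, fun T η h1 _ => Or.inl ⟨y, a1, a2, a3, by linarith, a4⟩⟩
  · exact ⟨T₀ + 2, ‖a‖ / 4, by positivity, fun T η h1 h2 =>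
      Or.inr ⟨a, a1, h2, fun y hy => a2 y (by linarith)⟩⟩

theorem t1294_bounds {V : ℂ → ℂ} (hV : Continuous V) (hz : ∀ x, V x = 0 → ∃ m : ℤ, x = m) :
    ∃ m M : ℝ, 0 < m ∧ m ≤ M ∧ ∀ s : ℝ, s = 1 ∨ s = -1 → ∀ y : ℂ, |y.re| ≤ 2 →
      |y.im - s| ≤ 1 / 4 → m ≤ ‖V y‖ ∧ ‖V y‖ ≤ M := by
  have hK : IsCompact (closedBall (0 : ℂ) 4 ∩ {y : ℂ | 3 / 4 ≤ |y.im|}) :=
    (isCompact_closedBall _ _).inter_right (isClosed_le continuous_const (by fun_prop))
  have hne : (closedBall (0 : ℂ) 4 ∩ {y : ℂ | 3 / 4 ≤ |y.im|}).Nonempty :=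
    ⟨Complex.I, by simp, by simp; norm_num⟩
  obtain ⟨u, hu, hmin⟩ := hK.exists_isMinOn hne hV.norm.continuousOn
  obtain ⟨v, hv, hmax⟩ := hK.exists_isMaxOn hne hV.norm.continuousOn
  refine ⟨‖V u‖, ‖V v‖, norm_pos_iff.2 fun h0 => ?_, hmin hv, fun s hs y a1 a2 => ?_⟩
  · obtain ⟨m, rfl⟩ := hz u h0
    have : (3 : ℝ) / 4 ≤ |(m : ℂ).im| := hu.2
    norm_num at this
  · have h1 : 3 / 4 ≤ |y.im| ∧ |y.im| ≤ 2 := by
      rw [abs_le] at a2
      rcases hs with rfl | rfl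
      · rw [abs_of_nonneg (by linarith [a2.1])]
        constructor <;> linarith [a2.1, a2.2]
      · rw [abs_of_nonpos (by linarith [a2.2])]
        constructor <;> linarith [a2.1, a2.2]
    have h2 : y ∈ closedBall (0 : ℂ) 4 ∩ {y : ℂ | 3 / 4 ≤ |y.im|} :=
      ⟨mem_closedBall_zero_iff.2 (by linarith [Complex.norm_le_abs_re_add_abs_im y, h1.2]), h1.1⟩
    exact ⟨hmin h2, hmax h2⟩

theorem t1294_final {𝒰 : Ultrafilter ℕ} {P : ℕ → ℕ} {b t : ℕ → ℕ → ℂ} {Φ Ψ : ℕ → ℂ[X]}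
    {τ : ℕ → ℂ} {V : ℂ → ℂ} (H : t1294_H 𝒰 P b t Φ Ψ τ V) (hp : ∀ y, V (y + 1) = V y)
    (hz : ∀ x, V x = 0 ↔ ∃ m : ℤ, x = m)
    (hμ : ∀ x μ : ℂ, μ ≠ 0 → (∀ y, V (x + μ * y) = μ * V y) → μ = 1) : False := by
  obtain ⟨m, M, hm, hmM, hK⟩ := t1294_bounds H.hW.continuous fun x => (hz x).1
  obtain ⟨T₁, η₁, p1, q1⟩ := t1294_alt H.hW hp M hm (Or.inl rfl)
  obtain ⟨T₂, η₂, p2, q2⟩ := t1294_alt H.hW hp M hm (Or.inr rfl)
  set T := max 3 (max T₁ T₂)
  have hT : 3 ≤ T := le_max_left _ _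
  set η := min (min (m / 4) (1 / 2)) (min η₁ η₂)
  have hη : 0 < η := by positivity
  obtain ⟨J, η', hη', hch⟩ := chain hT
  obtain ⟨e, he, hsep⟩ := t1294_sep H
  obtain ⟨n, a1, a2, a3, a4, a5⟩ := ((H.hc (T + 3) η hη).and (hsep.and
    ((t1294_int H hz hμ (1 / 2) (η := min e (1 / 4)) (by positivity)).and
      ((t1294_int H hz hμ J hη').and (t1294_near H ((hz 1).2 ⟨1, by simp⟩) hη'))))).exists
  have : Nonempty (Fin (P n)) := ⟨⟨0, H.hP n⟩⟩
  obtain ⟨s, A, D, hs, hA, -, hD, hfr, hin, hbD, hl⟩ := hch (Fin (P n)) (fun i => b n i)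
    (fun i => t n i) (fun i => (a1 i i.2).1) (fun i j hij => by
      obtain ⟨-, k, hk⟩ := a3 i i.2 j j.2 (by linarith)
      have ht : 0 < ‖t n i‖ := norm_pos_iff.2 (a1 i i.2).1
      have c1 := norm_sub_norm_le (k * t n i) (b n j - b n i)
      rw [norm_sub_rev (k * t n i), norm_mul, Complex.norm_intCast] at c1
      have c2 := mul_le_mul_of_nonneg_right (min_le_right e (1 / 4)) ht.le
      have c3 : |(k : ℝ)| < 1 := lt_of_mul_lt_mul_right (by linarith) ht.le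
      obtain rfl : k = 0 := Int.abs_lt_one_iff.1 (by exact_mod_cast c3)
      rw [Int.cast_zero, zero_mul, sub_zero] at hk
      exact Fin.ext (a2 i i.2 j j.2
        (hk.trans (mul_le_mul_of_nonneg_right (min_le_left _ _) ht.le))))
    (fun i => by
      obtain ⟨j, hj, h⟩ := a5 i i.2
      exact ⟨⟨j, hj⟩, by simpa using h⟩) (fun i j => a4 i i.2 j j.2)
  refine t1294_static hA (H.hτ n) hs hT hD hfr hin (fun z hz' c1 c2 => ?_) hl hm hmM (hK s hs)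
    (fun i => a1 i i.2) ((min_le_left _ _).trans (min_le_left _ _))
    ((min_le_left _ _).trans (min_le_right _ _)) ?_
  · obtain ⟨k, hk, rfl⟩ := H.hz n z c1 c2
    exact hbD ⟨k, hk⟩ hz'
  · rcases hs with rfl | rfl
    · exact q1 T η ((le_max_left _ _).trans (le_max_right _ _))
        ((min_le_right _ _).trans (min_le_left _ _))
    · exact q2 T η ((le_max_right _ _).trans (le_max_right _ _))
        ((min_le_right _ _).trans (min_le_right _ _))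

theorem single_zero (𝒰 : Ultrafilter ℕ) {P : ℕ → ℕ} (hP : ∀ n, 0 < P n) {b t : ℕ → ℕ → ℂ}
    {Φ Ψ : ℕ → ℂ[X]} {τ : ℕ → ℂ} (hτ : ∀ n, τ n ≠ 0)
    (hb : ∀ n, ∀ k < P n, (Φ n).eval (b n k) = 0)
    (hinj : ∀ n, ∀ i < P n, ∀ j < P n, b n i = b n j → i = j)
    (hz : ∀ n z, (Ψ n).eval z ≠ 0 → (Φ n).eval z = 0 → ∃ k < P n, b n k = z)
    {W : ℂ → ℂ} (hW : Differentiable ℂ W) (h1 : deriv W 0 = 1)
    (hc : ∀ L η : ℝ, 0 < η → ∀ᶠ n in (𝒰 : Filter ℕ), ∀ k < P n, t n k ≠ 0 ∧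
      ∀ y ∈ ball (0 : ℂ) L, ‖(Φ n).eval (b n k + t n k * y) / (τ n * t n k) - W y‖ ≤ η ∧
        ‖(Ψ n).eval (b n k + t n k * y) - 1‖ ≤ η)
    {x : ℂ} (hx : W x = 0) : x = 0 := by
  by_contra hx0
  have H : t1294_H 𝒰 P b t Φ Ψ τ W := ⟨hP, hτ, hb, hinj, hz, hW, h1, hc⟩
  obtain ⟨g, hg, p1, p2, p3⟩ := sym_periodic hW (t1294_zero H) h1 (t1294_sym H ⟨x, hx0, hx⟩)
    ⟨x, hx0, hx⟩
  refine t1294_final (t1294_scale H hg) (fun y => by rw [mul_add, mul_one, p1]) (fun y => ?_)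
    fun u μ hμ h => p3 (g * u) μ hμ fun y => ?_
  · rw [div_eq_zero_iff, or_iff_left hg, p2]
    exact exists_congr fun m => by rw [mul_comm g, mul_left_inj' hg]
  · have h2 := h (y / g)
    have e1 : g * (u + μ * (y / g)) = g * u + μ * y := by field_simp
    rw [e1, mul_div_cancel₀ _ hg, ← mul_div_assoc, div_left_inj' hg] at h2
    exact h2

end Pool.Agent.MP_28f8a1_an.H42

end
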