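import Pool.Agent.MP_28f8a1_an.Mg.H42_Rigid
import Pool.Agent.MP_28f8a1_an.Mg.H42_Per

/-! Families of charts with common limits. -/

set_option autoImplicit false

namespace Pool.Agent.MP_28f8a1_an.H42

open MeasureTheory Metric Set Real Filter Topology Polynomial
open scoped ENNReal

/-- Points `b n k` with scales `t n k` from which `Φ n` and `Ψ n` look like `W` and `V`. -/
structure Fam where
  𝒰 : Ultrafilter ℕ
  P : ℕ → ℕ
  b : ℕ → ℕ → ℂ
  t : ℕ → ℕ → ℂ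
  Φ : ℕ → ℂ[X]
  Ψ : ℕ → ℂ[X]
  τ : ℕ → ℂ
  q : ℕ → ℂ → ℂ
  W : ℂ → ℂ
  V : ℂ → ℂ
  hP : ∀ n, 0 < P n
  hτ : ∀ n, τ n ≠ 0
  hb : ∀ n, ∀ k < P n, (Φ n).eval (b n k) = 0 ∧ (Ψ n).eval (b n k) = 1
  hinj : ∀ n, ∀ i < P n, ∀ j < P n, b n i = b n j → i = j
  hz : ∀ n z, (Ψ n).eval z ≠ 0 → (Φ n).eval z = 0 → ∃ k < P n, b n k = z
  hq : ∀ n z, (∀ k < P n, b n k ≠ z) → DifferentiableAt ℂ (q n) z ∧
    (Ψ n).eval z = ((Φ n).eval z / τ n) ^ 2 * q n z
  cnt0 : ∀ n, ∀ T : Finset ℂ, (∀ z ∈ T, (∀ k < P n, b n k ≠ z) ∧ q n z = 0) → T.card < 2 * P n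
  cnt1 : ∀ n, ∀ w : ℂ, w ≠ 4 → ∀ T : Finset ℂ,
    (∀ z ∈ T, (∀ k < P n, b n k ≠ z) ∧ deriv (q n) z ^ 2 = w * q n z ^ 3) → T.card < 6 * P n
  hW : Differentiable ℂ W
  hV : Differentiable ℂ V
  W1 : deriv W 0 = 1
  hc : ∀ L η : ℝ, 0 < η → ∀ᶠ n in (𝒰 : Filter ℕ), ∀ k < P n, t n k ≠ 0 ∧
    ∀ y ∈ ball (0 : ℂ) L, ‖(Φ n).eval (b n k + t n k * y) / (τ n * t n k) - W y‖ ≤ η ∧
      ‖(Ψ n).eval (b n k + t n k * y) - V y‖ ≤ η

namespace Fam

variable (F : Fam)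

/-- `R` is the limit of the differentials. -/
def Lim (R : ℂ → ℂ) : Prop :=
  ∀ x ∉ Zs F.W F.V, ∃ ε > 0, ∀ η > 0, ∀ᶠ n in (F.𝒰 : Filter ℕ), ∀ k < F.P n, ∀ y ∈ ball x ε,
    (∀ j < F.P n, F.b n j ≠ F.b n k + F.t n k * y) ∧
      ‖F.t n k ^ 2 * F.q n (F.b n k + F.t n k * y) - R y‖ ≤ η

/-- Every point lies over `S` in at most `K` charts. -/
def Mult (K : ℕ) (S : Set ℂ) : Prop :=
  ∀ L : ℝ, ∀ᶠ n in (F.𝒰 : Filter ℕ), ∀ (v : ℂ) (J : Finset ℕ),
    (∀ k ∈ J, k < F.P n ∧ ∃ y ∈ S, ‖y‖ < L ∧ F.b n k + F.t n k * y = v) → J.card ≤ K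

theorem zero : F.W 0 = 0 ∧ F.V 0 = 1 := by
  have h : ∀ η : ℝ, 0 < η → ‖F.W 0‖ ≤ η ∧ ‖1 - F.V 0‖ ≤ η := fun η hη => by
    obtain ⟨n, hn⟩ := (F.hc 1 η hη).exists
    have := (hn 0 (F.hP n)).2 0 (mem_ball_self one_pos)
    simpa [(F.hb n 0 (F.hP n)).1, (F.hb n 0 (F.hP n)).2] using this
  refine ⟨norm_le_zero_iff.1 (le_of_forall_pos_le_add fun η hη => by simpa using (h η hη).1), ?_⟩
  exact (sub_eq_zero.1 (norm_le_zero_iff.1
    (le_of_forall_pos_le_add fun η hη => by simpa using (h η hη).2))).symm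

/-- Separation of the points. -/
theorem sep : ∃ e : ℝ, 0 < e ∧ ∀ᶠ n in (F.𝒰 : Filter ℕ), ∀ i < F.P n, ∀ j < F.P n,
    ‖F.b n j - F.b n i‖ ≤ e * ‖F.t n i‖ → j = i := by
  obtain ⟨e, he, h⟩ := t1294_loc F.hW F.zero.1 F.W1
  refine ⟨e, he, (F.hc 1 (1 / 4) (by norm_num)).mono fun n hn i hi j hj hij => ?_⟩
  obtain ⟨ht, hy⟩ := hn i hi
  have h2 := h _ (t1294_diff (F.Φ n) (F.b n i) (F.t n i) (F.τ n))
    (by simp [t1294_w, (F.hb n i hi).1])
    (fun y h3 => (hy y h3).1) ((F.b n j - F.b n i) / F.t n i)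
    (by rwa [norm_div, div_le_iff₀ (norm_pos_iff.2 ht)])
    (by simp [t1294_w, mul_div_cancel₀ _ ht, (F.hb n j hj).1])
  exact F.hinj n j hj i hi (sub_eq_zero.1 ((div_eq_zero_iff.1 h2).resolve_right ht))

/-- Points of the family are seen near `Zs`. -/
theorem near_Z (L : ℝ) {ε : ℝ} (hε : 0 < ε) : ∀ᶠ n in (F.𝒰 : Filter ℕ), ∀ i < F.P n, ∀ j < F.P n,
    ‖F.b n j - F.b n i‖ ≤ L * ‖F.t n i‖ →
      ∃ x ∈ Zs F.W F.V, ‖F.b n j - F.b n i - F.t n i * x‖ ≤ ε * ‖F.t n i‖ := by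
  have hK : IsCompact (closedBall (0 : ℂ) L \ ⋃ x ∈ Zs F.W F.V, ball x ε) :=
    (isCompact_closedBall _ _).diff (isOpen_biUnion fun _ _ => isOpen_ball)
  have c1 := F.hW.continuous
  have c2 := F.hV.continuous
  obtain ⟨m, hm, hmin⟩ := hK.exists_forall_le' (f := fun y => ‖F.W y‖ + ‖1 - F.V y‖) (a := 0)
    (by fun_prop) (fun y hy => by
      refine lt_of_le_of_ne (by positivity) fun h0 => hy.2 ?_
      have a1 : ‖F.W y‖ = 0 := by linarith [norm_nonneg (F.W y), norm_nonneg (1 - F.V y)]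
      have a2 : ‖1 - F.V y‖ = 0 := by linarith [norm_nonneg (F.W y), norm_nonneg (1 - F.V y)]
      refine mem_iUnion₂.2 ⟨y, ⟨norm_eq_zero.1 a1, ?_⟩, mem_ball_self hε⟩
      rw [← sub_eq_zero.1 (norm_eq_zero.1 a2)]
      exact one_ne_zero)
  refine (F.hc (L + 1) (m / 3) (by positivity)).mono fun n hn i hi j hj hij => ?_
  obtain ⟨ht, hy⟩ := hn i hi
  have ht0 := norm_pos_iff.2 ht
  have h1 : ‖(F.b n j - F.b n i) / F.t n i‖ ≤ L := by rwa [norm_div, div_le_iff₀ ht0]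
  have h2 := hy _ (mem_ball_zero_iff.2 (h1.trans_lt (lt_add_one L)))
  rw [mul_div_cancel₀ _ ht, add_sub_cancel, (F.hb n j hj).1, (F.hb n j hj).2, zero_div, zero_sub,
    norm_neg] at h2
  by_contra hcon
  have h3 := hmin ((F.b n j - F.b n i) / F.t n i) ⟨mem_closedBall_zero_iff.2 h1, fun h4 => by
    obtain ⟨x, hx, h5⟩ := mem_iUnion₂.1 h4
    rw [mem_ball, dist_eq_norm, div_sub' ht, norm_div, div_lt_iff₀ ht0] at h5
    exact hcon ⟨x, hx, h5.le⟩⟩
  linarith [h2.1, h2.2]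

/-- Points of `Zs` come from points of the family. -/
theorem Z_near {x : ℂ} (hx : x ∈ Zs F.W F.V) {ε : ℝ} (hε : 0 < ε) :
    ∀ᶠ n in (F.𝒰 : Filter ℕ), ∀ i < F.P n, ∃ j < F.P n,
      ‖F.b n j - F.b n i - F.t n i * x‖ ≤ ε * ‖F.t n i‖ := by
  have hv : 0 < ‖F.V x‖ := norm_pos_iff.2 hx.2
  obtain ⟨δ, hδ, hd⟩ := Metric.continuous_iff.1 F.hV.continuous x (‖F.V x‖ / 2) (by positivity)
  obtain ⟨η, hη, h⟩ := hurwitz_zero F.hW F.W1 hx.1 (lt_min hε (lt_min one_pos hδ))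
  refine (F.hc (‖x‖ + 2) (min η (‖F.V x‖ / 4)) (by positivity)).mono fun n hn k hk => ?_
  obtain ⟨ht, hy⟩ := hn k hk
  obtain ⟨y, h1, h2⟩ := h _ (t1294_diff (F.Φ n) (F.b n k) (F.t n k) (F.τ n))
    fun y h3 => (hy y h3).1.trans (min_le_left _ _)
  rw [mem_ball, lt_min_iff, lt_min_iff] at h1
  have h5 := hd y h1.2.2
  rw [dist_eq_norm] at h1 h5
  have h3 := (hy y (mem_ball_zero_iff.2 (by
    linarith [norm_le_norm_add_norm_sub' y x, h1.2.1]))).2.trans (min_le_right _ _)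
  obtain ⟨j, hj, h4⟩ := F.hz n (F.b n k + F.t n k * y) (fun h0 => by
    rw [h0, zero_sub, norm_neg] at h3
    linarith [norm_le_norm_add_norm_sub (F.V y) (F.V x)])
    ((div_eq_zero_iff.1 h2).resolve_right (mul_ne_zero (F.hτ n) ht))
  refine ⟨j, hj, ?_⟩
  rw [h4, add_sub_cancel_left, ← mul_sub, norm_mul, mul_comm]
  exact mul_le_mul_of_nonneg_right h1.1.le (norm_nonneg _)

/-- Limits of pairs of neighbouring charts. -/
theorem pair {k j : ℕ → ℕ} {J : ℝ} (h : ∀ᶠ n in (F.𝒰 : Filter ℕ), k n < F.P n ∧ j n < F.P n ∧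
      ‖F.b n (j n) - F.b n (k n)‖ ≤ J * ‖F.t n (k n)‖) :
    ∃ x μ : ℂ, Tendsto (fun n => (F.b n (j n) - F.b n (k n)) / F.t n (k n)) F.𝒰 (𝓝 x) ∧
      Tendsto (fun n => F.t n (j n) / F.t n (k n)) F.𝒰 (𝓝 μ) ∧ Symm F.W F.V x μ := by
  obtain ⟨e, he, hs⟩ := F.sep
  have ht : ∀ᶠ n in (F.𝒰 : Filter ℕ), F.t n (k n) ≠ 0 ∧ F.t n (j n) ≠ 0 := by
    filter_upwards [h, F.hc 1 1 one_pos] with n a1 a2
    exact ⟨(a2 _ a1.1).1, (a2 _ a1.2.1).1⟩
  obtain ⟨x, hx⟩ := t1294_ulim F.𝒰 (f := fun n => (F.b n (j n) - F.b n (k n)) / F.t n (k n))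
    (R := J) (by
    filter_upwards [h, ht] with n a1 a2
    rw [norm_div, div_le_iff₀ (norm_pos_iff.2 a2.1)]
    exact a1.2.2)
  obtain ⟨μ, hμ⟩ := t1294_ulim F.𝒰 (f := fun n => F.t n (j n) / F.t n (k n))
    (R := max 1 (J / e)) (by
    filter_upwards [h, ht, hs] with n a1 a2 a3
    by_cases h1 : ‖F.b n (k n) - F.b n (j n)‖ ≤ e * ‖F.t n (j n)‖
    · rw [← a3 _ a1.2.1 _ a1.1 h1, div_self a2.1, norm_one]
      exact le_max_left _ _
    · refine le_trans ?_ (le_max_right _ _)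
      rw [norm_sub_rev] at h1
      rw [norm_div, div_le_div_iff₀ (norm_pos_iff.2 a2.1) he]
      linarith [a1.2.2])
  have e1 : ∀ᶠ n in (F.𝒰 : Filter ℕ), ∀ y, F.b n (k n) + F.t n (k n) *
      ((F.b n (j n) - F.b n (k n)) / F.t n (k n) + F.t n (j n) / F.t n (k n) * y) =
        F.b n (j n) + F.t n (j n) * y := by
    filter_upwards [ht] with n ⟨a1, a2⟩ y
    field_simp
    ring
  have wk : ∀ L η : ℝ, 0 < η → ∀ᶠ n in (F.𝒰 : Filter ℕ), ∀ y ∈ ball (0 : ℂ) L,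
      ‖t1294_w (F.Φ n) (F.b n (k n)) (F.t n (k n)) (F.τ n) y - F.W y‖ ≤ η := fun L η hη => by
    filter_upwards [h, F.hc L η hη] with n a1 a2 y hy
    exact ((a2 _ a1.1).2 y hy).1
  have hVe : ∀ y, F.V (x + μ * y) = F.V y := fun y => by
    refine tendsto_nhds_unique_of_eventuallyEq (l := (F.𝒰 : Filter ℕ))
      (t1279_lim (F := fun n y => (F.Ψ n).eval (F.b n (k n) + F.t n (k n) * y)) F.hV.continuous
        (fun L η hη => ?_) (hx.add (hμ.mul_const y)))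
      (t1279_lim (F := fun n y => (F.Ψ n).eval (F.b n (j n) + F.t n (j n) * y)) F.hV.continuous
        (fun L η hη => ?_) (tendsto_const_nhds (x := y))) (e1.mono fun n hn => ?_)
    · filter_upwards [h, F.hc L η hη] with n a1 a2 y hy
      exact ((a2 _ a1.1).2 y hy).2
    · filter_upwards [h, F.hc L η hη] with n a1 a2 y hy
      exact ((a2 _ a1.2.1).2 y hy).2
    · simp only [hn y]
  refine ⟨x, μ, hx, hμ, ?_⟩
  by_cases hne : ∃ x, x ≠ 0 ∧ F.W x = 0
  · obtain ⟨a, b⟩ := pair_limit (l := F.𝒰) F.hW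
      (w := fun n => t1294_w (F.Φ n) (F.b n (k n)) (F.t n (k n)) (F.τ n))
      (w' := fun n => t1294_w (F.Φ n) (F.b n (j n)) (F.t n (j n)) (F.τ n))
      (fun n => t1294_diff _ _ _ _) wk (fun L η hη => by
        filter_upwards [h, F.hc L η hη] with n a1 a2 y hy
        exact ((a2 _ a1.2.1).2 y hy).1) hx hμ (by
        filter_upwards [ht, e1] with n ⟨a1, a2⟩ a4
        refine ⟨div_ne_zero a2 a1, fun y => ?_⟩
        have a3 := F.hτ n
        simp only [t1294_w, a4 y]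
        field_simp) F.zero.1 F.W1 hne
    exact ⟨a, fun y => ⟨b y, hVe y⟩⟩
  · have h0 : F.W x = 0 := by
      refine tendsto_nhds_unique_of_eventuallyEq (l := (F.𝒰 : Filter ℕ))
        (t1279_lim F.hW.continuous wk hx) (tendsto_const_nhds (x := 0)) ?_
      filter_upwards [h, ht] with n a1 a2
      simp [t1294_w, mul_div_cancel₀ _ a2.1, (F.hb n _ a1.2.1).1]
    obtain rfl : x = 0 := by
      by_contra hx0
      exact hne ⟨x, hx0, h0⟩
    obtain rfl : μ = 1 := by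
      refine tendsto_nhds_unique_of_eventuallyEq (l := (F.𝒰 : Filter ℕ)) hμ
        (tendsto_const_nhds (x := 1)) ?_
      filter_upwards [h, ht, hs, Metric.tendsto_nhds.1 hx e he] with n a1 a2 a3 a4
      rw [dist_zero_right, norm_div, div_lt_iff₀ (norm_pos_iff.2 a2.1)] at a4
      rw [a3 _ a1.1 _ a1.2.1 a4.le, div_self a2.1]
    exact ⟨one_ne_zero, fun y => by simp⟩

theorem sym : ∀ x ∈ Zs F.W F.V, ∃ μ, Symm F.W F.V x μ := by
  intro x hx
  choose j hj hmin using fun n => Finset.exists_min_image (Finset.range (F.P n))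
    (fun j => ‖F.b n j - F.b n 0 - F.t n 0 * x‖) ⟨0, Finset.mem_range.2 (F.hP n)⟩
  have h1 : ∀ ε : ℝ, 0 < ε → ∀ᶠ n in (F.𝒰 : Filter ℕ),
      ‖F.b n (j n) - F.b n 0 - F.t n 0 * x‖ ≤ ε * ‖F.t n 0‖ := fun ε hε =>
    (F.Z_near hx hε).mono fun n hn => by
      obtain ⟨i, hi, h⟩ := hn 0 (F.hP n)
      exact (hmin n i (Finset.mem_range.2 hi)).trans h
  obtain ⟨x', μ, h2, -, h3⟩ := F.pair (k := fun _ => 0) (j := j) (J := 1 + ‖x‖)
    ((h1 1 one_pos).mono fun n hn => ⟨F.hP n, Finset.mem_range.1 (hj n), by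
      have := norm_le_norm_sub_add (F.b n (j n) - F.b n 0) (F.t n 0 * x)
      rw [norm_mul] at this
      linarith⟩)
  have h5 : Tendsto (fun n => (F.b n (j n) - F.b n 0) / F.t n 0) F.𝒰 (𝓝 x) := by
    refine Metric.tendsto_nhds.2 fun ε hε => ?_
    filter_upwards [h1 (ε / 2) (by positivity), F.hc 1 1 one_pos] with n a1 a2
    have a3 := (a2 0 (F.hP n)).1
    rw [dist_eq_norm, div_sub' a3, norm_div]
    exact ((div_le_iff₀ (norm_pos_iff.2 a3)).2 a1).trans_lt (by linarith)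
  exact ⟨μ, tendsto_nhds_unique h2 h5 ▸ h3⟩

theorem t1318_uc {K : Set ℂ} (hK : IsCompact K) {u v : ℂ → ℂ} (hu : ContinuousOn u K)
    (hv : ContinuousOn v K) {h : ℂ × ℂ → ℂ} (hh : ∀ y ∈ K, ContinuousAt h (u y, v y)) {η : ℝ}
    (hη : 0 < η) : ∃ δ > 0, ∀ y ∈ K, ∀ a b : ℂ, ‖a - u y‖ ≤ δ → ‖b - v y‖ ≤ δ →
      ‖h (a, b) - h (u y, v y)‖ ≤ η := by
  obtain ⟨δ, hδ, H⟩ := Metric.mem_uniformity_dist.1
    ((hK.image_of_continuousOn (hu.prodMk hv)).uniformContinuousAt_of_continuousAt h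
      (by rintro _ ⟨y, hy, rfl⟩; exact hh y hy) (dist_mem_uniformity hη))
  refine ⟨δ / 2, half_pos hδ, fun y hy a b ha hb => ?_⟩
  have := H (a := (u y, v y)) (b := (a, b)) (by
    rw [Prod.dist_eq, dist_eq_norm', dist_eq_norm']
    exact max_lt (by linarith) (by linarith)) ⟨y, hy, rfl⟩
  rw [← dist_eq_norm']
  exact le_of_lt this

theorem t1318_iso {G : ℂ → ℂ} (hG : Differentiable ℂ G) {c : ℂ} (h0 : G c ≠ 0) (x : ℂ) :
    ∀ᶠ z in 𝓝[≠] x, G z ≠ 0 := by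
  have hA : AnalyticOnNhd ℂ G univ := fun z _ => hG.analyticAt z
  exact (hA x trivial).eventually_eq_zero_or_eventually_ne_zero.resolve_left fun h =>
    h0 (hA.eqOn_zero_of_preconnected_of_eventuallyEq_zero isPreconnected_univ (mem_univ x) h
      (mem_univ c))

theorem t1318_rad {x : ℂ} {p : ℂ → Prop} (h : ∀ᶠ z in 𝓝[≠] x, p z) {ε : ℝ} (hε : 0 < ε) :
    ∃ r > 0, r ≤ ε ∧ ∀ z ∈ ball x r, z ≠ x → p z := by
  obtain ⟨r, hr, H⟩ := Metric.eventually_nhds_iff_ball.1 (eventually_nhdsWithin_iff.1 h)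
  exact ⟨min r ε, lt_min hr hε, min_le_right _ _,
    fun z hz => H z (ball_subset_ball (min_le_left _ _) hz)⟩

theorem t1318_diff {n k : ℕ} {U : Set ℂ}
    (h : ∀ y ∈ U, ∀ j < F.P n, F.b n j ≠ F.b n k + F.t n k * y) :
    DifferentiableOn ℂ (fun y => F.t n k ^ 2 * F.q n (F.b n k + F.t n k * y)) U := fun y hy =>
  (((F.hq n _ (h y hy)).1.comp y (f := fun y => F.b n k + F.t n k * y)
    (by fun_prop)).const_mul _).differentiableWithinAt

theorem t1318_cpt {K : Set ℂ} (hK : IsCompact K) (hW : ∀ y ∈ K, F.W y ≠ 0) {η : ℝ} (hη : 0 < η) :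
    ∀ᶠ n in (F.𝒰 : Filter ℕ), ∀ k < F.P n, ∀ y ∈ K,
      (∀ j < F.P n, F.b n j ≠ F.b n k + F.t n k * y) →
      ‖F.t n k ^ 2 * F.q n (F.b n k + F.t n k * y) - F.V y / F.W y ^ 2‖ ≤ η := by
  obtain ⟨δ, hδ, H⟩ := t1318_uc hK F.hW.continuous.continuousOn F.hV.continuous.continuousOn
    (h := fun p => p.2 / p.1 ^ 2) (fun y hy =>
      continuousAt_snd.div (continuousAt_fst.pow 2) (pow_ne_zero 2 (hW y hy))) hη
  obtain ⟨μ, hμ, H'⟩ := hK.exists_forall_le' F.hW.continuous.norm.continuousOn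
    fun y hy => norm_pos_iff.2 (hW y hy)
  obtain ⟨L, hL⟩ := hK.isBounded.subset_ball 0
  filter_upwards [F.hc L (min δ (μ / 2)) (lt_min hδ (half_pos hμ))] with n hn k hk y hy hb
  obtain ⟨t0, h1⟩ := hn k hk
  obtain ⟨h2, h3⟩ := h1 y (hL hy)
  have h4 := H y hy _ _ (h2.trans (min_le_left _ _)) (h3.trans (min_le_left _ _))
  have h5 : (F.Φ n).eval (F.b n k + F.t n k * y) ≠ 0 := fun e => by
    rw [e, zero_div, zero_sub, norm_neg] at h2
    linarith [H' y hy, min_le_right δ (μ / 2)]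
  have := F.hτ n
  refine le_of_eq_of_le ?_ h4
  congr 2
  simp only [(F.hq n _ hb).2]
  field_simp

theorem t1318_far {x : ℂ} (hx : x ∉ Zs F.W F.V) : ∃ ε > 0, ∀ᶠ n in (F.𝒰 : Filter ℕ), ∀ k < F.P n,
    ∀ y ∈ ball x ε, ∀ j < F.P n, F.b n j ≠ F.b n k + F.t n k * y := by
  have hc : Continuous fun y => ‖F.W y‖ + ‖1 - F.V y‖ :=
    F.hW.continuous.norm.add (continuous_const.sub F.hV.continuous).norm
  have h0 : 0 < ‖F.W x‖ + ‖1 - F.V x‖ := by
    by_cases h : F.W x = 0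
    · rw [not_not.1 fun e => hx ⟨h, e⟩, h]; simp
    · exact add_pos_of_pos_of_nonneg (norm_pos_iff.2 h) (norm_nonneg _)
  obtain ⟨ε, hε, H⟩ := Metric.eventually_nhds_iff_ball.1
    (hc.continuousAt.eventually (lt_mem_nhds (half_lt_self h0)))
  obtain ⟨L, hL⟩ := (isBounded_ball (x := x) (r := ε)).subset_ball 0
  refine ⟨ε, hε, ?_⟩
  filter_upwards [F.hc L _ (half_pos (half_pos h0))] with n hn k hk y hy j hj e
  obtain ⟨h2, h3⟩ := (hn k hk).2 y (hL hy)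
  rw [← e, (F.hb n j hj).1, zero_div, zero_sub, norm_neg] at h2
  rw [← e, (F.hb n j hj).2] at h3
  linarith [H y hy]

theorem lim : ∃ R : ℂ → ℂ, DifferentiableOn ℂ R (Zs F.W F.V)ᶜ ∧
    (∀ y ∉ Zs F.W F.V, F.W y ^ 2 * R y = F.V y) ∧ F.Lim R := by
  classical
  set g : ℂ → ℂ := fun y => F.V y / F.W y ^ 2 with hg
  set R : ℂ → ℂ := fun y => if F.W y = 0 then limUnder (𝓝[≠] y) g else g y with hR
  obtain ⟨c, hc⟩ : ∃ c, F.W c ≠ 0 := by
    by_contra h
    push Not at h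
    simpa [show F.W = fun _ => 0 from funext h] using F.W1
  have hgd : ∀ y, F.W y ≠ 0 → DifferentiableAt ℂ g y := fun y h =>
    (F.hV y).div ((F.hW y).pow 2) (pow_ne_zero 2 h)
  have key : ∀ x ∉ Zs F.W F.V, ∃ ε > 0, DifferentiableOn ℂ R (ball x ε) ∧
      ∀ η > 0, ∀ᶠ n in (F.𝒰 : Filter ℕ), ∀ k < F.P n, ∀ y ∈ ball x ε,
      (∀ j < F.P n, F.b n j ≠ F.b n k + F.t n k * y) ∧
        ‖F.t n k ^ 2 * F.q n (F.b n k + F.t n k * y) - R y‖ ≤ η := by
    intro x hx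
    obtain ⟨ε, hε, h1⟩ := F.t1318_far hx
    obtain ⟨r, hr, hrε, h2⟩ := t1318_rad (t1318_iso F.hW hc x) hε
    have hs : r / 2 < r := half_lt_self hr
    have hsb : sphere x (r / 2) ⊆ ball x r := sphere_subset_ball hs
    have h3 : ∀ y ∈ sphere x (r / 2), F.W y ≠ 0 := fun y hy =>
      h2 y (hsb hy) (ne_of_mem_sphere hy (half_pos hr).ne')
    have h4 := fun η hη => F.t1318_cpt (isCompact_sphere x (r / 2)) h3 (η := η) hη
    have hRd : DifferentiableOn ℂ R (ball x r) := by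
      have e : ∀ y ∈ ball x r, y ≠ x → R y = g y := fun y hy h => if_neg (h2 y hy h)
      intro y hy
      by_cases hW : F.W y = 0
      swap
      · refine ((hgd y hW).congr_of_eventuallyEq ?_).differentiableWithinAt
        exact (F.hW.continuous.continuousAt.eventually_ne hW).mono fun z hz => if_neg hz
      obtain rfl : y = x := not_not.1 fun h => h2 y hy h hW
      obtain ⟨M, hM⟩ := (isCompact_sphere y (r / 2)).exists_bound_of_continuousOn (f := g)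
        fun z hz => (hgd z (h3 z hz)).continuousAt.continuousWithinAt
      have hb := ball_mem_nhds y (half_pos hr)
      have := Complex.differentiableOn_update_limUnder_of_bddAbove (f := g) hb
        (fun z hz => (hgd z (h2 z (ball_subset_ball hs.le hz.1) hz.2)).differentiableWithinAt)
        ⟨M + 1 + 1, by
          rintro _ ⟨z, hz, rfl⟩
          have hz' := ball_subset_ball hs.le hz.1
          obtain ⟨n, a1, a2, a3⟩ := (h1.and ((h4 1 one_pos).and (F.t1318_cpt isCompact_singleton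
            (K := {z}) (fun w hw => hw ▸ h2 z hz' hz.2) one_pos))).exists
          have a4 : ∀ w ∈ ball y r, _ := fun w hw => a1 0 (F.hP n) w (ball_subset_ball hrε hw)
          have a5 := max_disc (half_pos hr) hs (F.t1318_diff a4) (m := M + 1) (fun w hw => by
            have hw' := mem_sphere_iff_norm.2 hw
            linarith [norm_le_norm_add_norm_sub' (F.t n 0 ^ 2 * F.q n (F.b n 0 + F.t n 0 * w)) (g w),
              a2 0 (F.hP n) w hw' (a4 w (hsb hw')), hM w hw']) z (mem_ball_iff_norm.1 hz.1).le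
          have a6 := a3 0 (F.hP n) z rfl (a4 z hz')
          rw [norm_sub_rev] at a6
          linarith [norm_le_norm_add_norm_sub' (g z) (F.t n 0 ^ 2 * F.q n (F.b n 0 + F.t n 0 * z)),
            show (norm ∘ g) z = ‖g z‖ from rfl]⟩
      refine ((this.differentiableAt hb).congr_of_eventuallyEq ?_).differentiableWithinAt
      filter_upwards [ball_mem_nhds y hr] with z hz
      by_cases h : z = y
      · rw [h, Function.update_self]; exact if_pos hW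
      · rw [Function.update_of_ne h]; exact e z hz h
    refine ⟨r / 2, half_pos hr, hRd.mono (ball_subset_ball hs.le), fun η hη => ?_⟩
    filter_upwards [h1, h4 η hη] with n a1 a2 k hk y hy
    have a4 : ∀ w ∈ ball x r, _ := fun w hw => a1 k hk w (ball_subset_ball hrε hw)
    refine ⟨a4 y (ball_subset_ball hs.le hy), max_disc (half_pos hr) hs
      ((F.t1318_diff a4).sub hRd) (fun w hw => ?_) y (mem_ball_iff_norm.1 hy).le⟩
    have hw' := mem_sphere_iff_norm.2 hw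
    have := a2 k hk w hw' (a4 w (hsb hw'))
    rwa [show F.V w / F.W w ^ 2 = R w from (if_neg (h3 w hw')).symm] at this
  refine ⟨R, fun x hx => ?_, fun y hy => ?_, fun x hx => ?_⟩
  · obtain ⟨ε, hε, h, -⟩ := key x hx
    exact (h.differentiableAt (ball_mem_nhds x hε)).differentiableWithinAt
  · by_cases h : F.W y = 0
    · rw [h, not_not.1 fun e => hy ⟨h, e⟩]; simp
    · rw [show R y = g y from if_neg h, hg]; field_simp
  · obtain ⟨ε, hε, -, h⟩ := key x hx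
    exact ⟨ε, hε, h⟩

theorem mult {S : Set ℂ} (T : Finset ℂ) (h : ∀ x μ, Symm F.W F.V x μ → ∀ y ∈ closure S,
    ∀ y' ∈ closure S, y = x + μ * y' → x ∈ T) : F.Mult T.card S := by
  intro L
  by_contra hc
  have h1 := (Ultrafilter.eventually_not.2 hc).mono fun n hn =>
    (by
      by_contra hk
      refine hn fun v J hJ => ?_
      by_contra hl
      rw [not_le] at hl
      obtain ⟨k, hkJ, hmax⟩ := J.exists_max_image (fun k => ‖F.t n k‖)
        (Finset.card_pos.1 (by omega))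
      obtain ⟨y₀, a1, a2, a3⟩ := (hJ k hkJ).2
      have hle : T.card + 1 ≤ J.card := hl
      let f : Fin (T.card + 1) → J := fun a => J.equivFin.symm (Fin.castLE hle a)
      have hf : Function.Injective fun a => (f a : ℕ) := fun a b hab =>
        Fin.castLE_injective hle (J.equivFin.symm.injective (Subtype.ext hab))
      choose y hy using fun a => (hJ (f a) (f a).2).2
      exact hk ⟨(k, y₀, fun a => f a, y), (hJ k hkJ).1, a1, a2, hf, fun a =>
        ⟨(hJ _ (f a).2).1, (hy a).1, (hy a).2.1, hmax _ (f a).2, (hy a).2.2.trans a3.symm⟩⟩ :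
      ∃ p : ℕ × ℂ × (Fin (T.card + 1) → ℕ) × (Fin (T.card + 1) → ℂ), p.1 < F.P n ∧ p.2.1 ∈ S ∧
        ‖p.2.1‖ < L ∧ Function.Injective p.2.2.1 ∧ ∀ a, p.2.2.1 a < F.P n ∧ p.2.2.2 a ∈ S ∧
          ‖p.2.2.2 a‖ < L ∧ ‖F.t n (p.2.2.1 a)‖ ≤ ‖F.t n p.1‖ ∧
          F.b n (p.2.2.1 a) + F.t n (p.2.2.1 a) * p.2.2.2 a = F.b n p.1 + F.t n p.1 * p.2.1)
  obtain ⟨p, hp⟩ := h1.choice
  obtain ⟨e, he, hs⟩ := F.sep
  have hpair := fun a => F.pair (k := fun n => (p n).1) (j := fun n => (p n).2.2.1 a)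
    (J := 2 * L) (hp.mono fun n ⟨a1, _, a3, _, a5⟩ => ⟨a1, (a5 a).1, by
      obtain ⟨-, -, b3, b4, b5⟩ := a5 a
      have e1 : F.b n ((p n).2.2.1 a) - F.b n (p n).1 =
          F.t n (p n).1 * (p n).2.1 - F.t n ((p n).2.2.1 a) * (p n).2.2.2 a := by
        linear_combination b5
      rw [e1]
      refine (norm_sub_le _ _).trans ?_
      rw [norm_mul, norm_mul]
      have c1 := mul_le_mul_of_nonneg_left a3.le (norm_nonneg (F.t n (p n).1))
      have c2 := mul_le_mul b4 b3.le (norm_nonneg _) (norm_nonneg _)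
      linarith⟩)
  choose x μ hx hμ hsym using hpair
  obtain ⟨Y, hY⟩ := t1294_ulim F.𝒰 (f := fun n => (p n).2.1) (R := L)
    (hp.mono fun n hn => hn.2.2.1.le)
  have hT : ∀ a, x a ∈ T := fun a => by
    obtain ⟨Y', hY'⟩ := t1294_ulim F.𝒰 (f := fun n => (p n).2.2.2 a) (R := L)
      (hp.mono fun n hn => (hn.2.2.2.2 a).2.2.1.le)
    refine h _ _ (hsym a) Y (mem_closure_of_tendsto hY (hp.mono fun n hn => hn.2.1)) Y'
      (mem_closure_of_tendsto hY' (hp.mono fun n hn => (hn.2.2.2.2 a).2.1)) ?_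
    refine tendsto_nhds_unique_of_eventuallyEq (l := (F.𝒰 : Filter ℕ)) hY
      ((hx a).add ((hμ a).mul hY')) ?_
    filter_upwards [hp, F.hc 1 1 one_pos] with n a1 a2
    have b1 := (a2 _ a1.1).1
    have b2 := (a1.2.2.2.2 a).2.2.2.2
    field_simp
    linear_combination -b2
  obtain ⟨a, a', haa, hxx⟩ := Fintype.exists_ne_map_eq_of_card_lt
    (fun a => (⟨x a, hT a⟩ : T)) (by simp)
  have hxe : x a = x a' := congrArg Subtype.val hxx
  have h2 := ((hx a').sub (hx a)).div (hμ a) (hsym a).1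
  rw [hxe, sub_self, zero_div] at h2
  obtain ⟨n, b1, b2, b3, b4⟩ := (hp.and ((Metric.tendsto_nhds.1 h2 e he).and
    (hs.and (F.hc 1 1 one_pos)))).exists
  have c1 := (b4 _ b1.1).1
  have c2 := (b4 _ (b1.2.2.2.2 a).1).1
  have e2 : ((F.b n ((p n).2.2.1 a') - F.b n (p n).1) / F.t n (p n).1 -
      (F.b n ((p n).2.2.1 a) - F.b n (p n).1) / F.t n (p n).1) /
        (F.t n ((p n).2.2.1 a) / F.t n (p n).1) =
      (F.b n ((p n).2.2.1 a') - F.b n ((p n).2.2.1 a)) / F.t n ((p n).2.2.1 a) := by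
    field_simp
    ring
  rw [dist_zero_right, Pi.div_apply, e2, norm_div, div_lt_iff₀ (norm_pos_iff.2 c2)] at b2
  exact haa (b1.2.2.2.1 (b3 _ (b1.2.2.2.2 a).1 _ (b1.2.2.2.2 a').1 b2.le)).symm

theorem t1318_sol {R : ℂ → ℂ} (h : Trio F.W F.V R) (hl : F.Lim R) {x : ℂ} (hx : x ∉ Zs F.W F.V)
    {H : ℂ × ℂ → ℂ} (hH : Differentiable ℂ H) (h0 : H (deriv R x, R x) = 0)
    (hi : ∀ᶠ z in 𝓝[≠] x, H (deriv R z, R z) ≠ 0) {ε : ℝ} (hε : 0 < ε) :
    ∀ᶠ n in (F.𝒰 : Filter ℕ), ∀ k < F.P n, ∃ y ∈ ball x ε,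
      (∀ j < F.P n, F.b n j ≠ F.b n k + F.t n k * y) ∧
      H (F.t n k ^ 3 * deriv (F.q n) (F.b n k + F.t n k * y),
        F.t n k ^ 2 * F.q n (F.b n k + F.t n k * y)) = 0 := by
  obtain ⟨ε₁, hε₁, h1⟩ := hl x hx
  obtain ⟨ε₂, hε₂, h2⟩ := Metric.isOpen_iff.1 h.closed.2.1.isOpen_compl x hx
  obtain ⟨r, hr, hr', h3⟩ := t1318_rad hi (lt_min hε (lt_min hε₁ hε₂))
  simp only [le_min_iff] at hr'
  have hR := h.hR.mono ((ball_subset_ball hr'.2.2).trans h2)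
  have hs : 0 < r / 3 := by positivity
  have hcb : closedBall x (r / 3) ⊆ ball x r := closedBall_subset_ball (by linarith)
  have c1 := (hR.deriv isOpen_ball).continuousOn.mono hcb
  have c2 := hR.continuousOn.mono hcb
  obtain ⟨μ, hμ, h4⟩ := (isCompact_sphere x (r / 3)).exists_forall_le'
    ((hH.continuous.comp_continuousOn (c1.prodMk c2)).mono sphere_subset_closedBall).norm
    fun y hy => norm_pos_iff.2 (h3 y (hcb (sphere_subset_closedBall hy)) (ne_of_mem_sphere hy hs.ne'))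
  obtain ⟨δ, hδ, h5⟩ := t1318_uc (isCompact_closedBall x (r / 3)) c1 c2
    (fun y _ => hH.continuous.continuousAt) (show 0 < μ / 3 by positivity)
  filter_upwards [h1 (min δ (δ * (r / 3))) (by positivity)] with n hn k hk
  have a1 : ∀ y ∈ ball x r, _ := fun y hy => hn k hk y (ball_subset_ball hr'.2.1 hy)
  have a2 := F.t1318_diff fun y hy => (a1 y hy).1
  set f := fun y => F.t n k ^ 2 * F.q n (F.b n k + F.t n k * y) with hf
  have a3 : ∀ y ∈ closedBall x (r / 3), ‖H (deriv f y, f y) - H (deriv R y, R y)‖ ≤ μ / 3 := by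
    intro y hy
    have hsub : closedBall y (r / 3) ⊆ ball x r :=
      closedBall_subset_ball' (by linarith [mem_closedBall.1 hy])
    have hn := isOpen_ball.mem_nhds (hcb hy)
    refine h5 y hy _ _ ?_ ((a1 y (hcb hy)).2.trans (min_le_left _ _))
    rw [← deriv_sub (a2.differentiableAt hn) (hR.differentiableAt hn)]
    refine (Complex.norm_deriv_le_of_forall_mem_sphere_norm_le hs
      ((a2.sub hR).diffContOnCl_ball hsub) (C := δ * (r / 3)) fun z hz =>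
      (a1 z (hsub (sphere_subset_closedBall hz))).2.trans (min_le_right _ _)).trans_eq ?_
    field_simp
  obtain ⟨y, hy, a4⟩ := t37_zero_of_lt (g := fun y => H (deriv f y, f y)) hs
    ((hH.comp_differentiableOn ((a2.deriv isOpen_ball).prodMk a2)).diffContOnCl_ball hcb)
    fun w hw => by
      have b1 := a3 x (mem_closedBall_self hs.le)
      have b2 := a3 w (sphere_subset_closedBall hw)
      have b3 : μ ≤ ‖H (deriv R w, R w)‖ := h4 w hw
      rw [h0, sub_zero] at b1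
      rw [norm_sub_rev] at b2
      linarith [norm_le_norm_add_norm_sub' (H (deriv R w, R w)) (H (deriv f w, f w))]
  have hy' := hcb (ball_subset_closedBall hy)
  refine ⟨y, ball_subset_ball hr'.1 hy', (a1 y hy').1, ?_⟩
  have b1 : HasDerivAt f _ y := ((F.hq n _ (a1 y hy').1).1.hasDerivAt.comp y
    (((hasDerivAt_id' y).const_mul (F.t n k)).const_add (F.b n k))).const_mul (F.t n k ^ 2)
  rw [← a4, b1.deriv]
  congr 2
  ring

theorem t1318_count {K : ℕ} {S : Set ℂ} (hS : IsOpen S) (hm : F.Mult K S) (T : Finset ℂ)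
    (hT : ∀ x ∈ T, x ∈ S) {Q : ℕ → ℂ → Prop}
    (h : ∀ x ∈ T, ∀ ε > 0, ∀ᶠ n in (F.𝒰 : Filter ℕ), ∀ k < F.P n, ∃ y ∈ ball x ε,
      F.t n k ≠ 0 → Q n (F.b n k + F.t n k * y)) :
    ∃ n, ∃ Z : Finset ℂ, T.card * F.P n ≤ K * Z.card ∧ ∀ z ∈ Z, Q n z := by
  classical
  obtain ⟨ε, hε, ⟨hε1, hsub⟩, hsep⟩ : ∃ ε > 0, (ε ≤ 1 ∧ ∀ x ∈ T, ball x ε ⊆ S) ∧
      ∀ w ∈ T ×ˢ T, w.1 ≠ w.2 → 2 * ε ≤ ‖w.1 - w.2‖ := by
    have e1 : ∀ᶠ ε : ℝ in 𝓝 0, ∀ w ∈ T ×ˢ T, w.1 ≠ w.2 → 2 * ε ≤ ‖w.1 - w.2‖ := by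
      refine (Filter.eventually_all_finset _).mpr fun w _ => ?_
      by_cases hw : w.1 = w.2
      · exact Eventually.of_forall fun _ h => absurd hw h
      · have c1 : ContinuousAt (fun a : ℝ => 2 * a) 0 := by fun_prop
        exact (c1.eventually (gt_mem_nhds (show 2 * (0 : ℝ) < ‖w.1 - w.2‖ by
          simpa [sub_eq_zero] using hw))).mono fun a ha _ => ha.le
    have e2 : ∀ᶠ ε : ℝ in 𝓝 0, ∀ x ∈ T, ball x ε ⊆ S :=
      (Filter.eventually_all_finset _).mpr fun x hx =>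
        eventually_ball_subset (hS.mem_nhds (hT x hx))
    obtain ⟨a, ⟨g1, g2, g4⟩, g3⟩ := (((e1.and (e2.and (gt_mem_nhds (zero_lt_one' ℝ)))).filter_mono
      nhdsWithin_le_nhds).and (self_mem_nhdsWithin (a := (0 : ℝ)) (s := Ioi 0))).exists
    exact ⟨a, g3, ⟨g4.le, g2⟩, g1⟩
  obtain ⟨L, hL⟩ := T.finite_toSet.isBounded.subset_ball 0
  obtain ⟨n, g1, g2, g3⟩ := (((Filter.eventually_all_finset T).mpr fun x hx => h x hx ε hε).and
    ((hm (L + 1)).and (F.hc 1 1 one_pos))).exists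
  choose! y hy hy' using g1
  set φ : ℂ × ℕ → ℂ := fun w => F.b n w.2 + F.t n w.2 * y w.1 w.2 with hφ
  refine ⟨n, (T ×ˢ Finset.range (F.P n)).image φ, ?_, fun z hz => ?_⟩
  · rw [← Finset.card_range (F.P n), ← Finset.card_product, Finset.card_range]
    refine Finset.card_le_mul_card_image _ K fun v _ => ?_
    rw [← Finset.card_image_of_injOn (f := Prod.snd)]
    · refine g2 v _ fun k hk => ?_
      obtain ⟨w, hw, rfl⟩ := Finset.mem_image.1 hk
      simp only [Finset.mem_filter, Finset.mem_product, Finset.mem_range] at hw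
      have a1 := hy w.1 hw.1.1 w.2 hw.1.2
      refine ⟨hw.1.2, _, hsub _ hw.1.1 a1, ?_, hw.2⟩
      have a2 := mem_ball_zero_iff.mp (hL hw.1.1)
      rw [mem_ball, dist_eq_norm] at a1
      linarith [norm_le_norm_add_norm_sub' (y w.1 w.2) w.1]
    · rintro ⟨x, k⟩ hw ⟨x', k'⟩ hw' (rfl : k = k')
      simp only [Finset.coe_filter, Finset.mem_product, Finset.mem_range, mem_ofPred_eq] at hw hw'
      have a0 : y x k = y x' k :=
        mul_left_cancel₀ (g3 k hw.1.2).1 (add_left_cancel (hw.2.trans hw'.2.symm))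
      refine Prod.ext (not_not.1 fun hne => ?_) rfl
      have a1 := hsep (x, x') (Finset.mk_mem_product hw.1.1 hw'.1.1) hne
      have a2 := mem_ball_iff_norm'.1 (hy x hw.1.1 k hw.1.2)
      have a3 := mem_ball_iff_norm.1 (hy x' hw'.1.1 k hw.1.2)
      rw [← a0] at a3
      linarith [norm_sub_le_norm_sub_add_norm_sub x (y x k) x']
  · obtain ⟨w, hw, rfl⟩ := Finset.mem_image.mp hz
    simp only [Finset.mem_product, Finset.mem_range] at hw
    exact hy' _ hw.1 _ hw.2 (g3 _ hw.2).1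

theorem cnt {R : ℂ → ℂ} (h : Trio F.W F.V R) (hl : F.Lim R) {K : ℕ} {S : Set ℂ} (hS : IsOpen S)
    (hK : 0 < K) (hm : F.Mult K S) : Cnt F.W F.V R K S := by
  have ho := h.closed.2.1.isOpen_compl
  have fin : ∀ {a c p z : ℕ}, a * p ≤ K * z → z < c * p → a < c * K := fun {a c p z} h1 h2 =>
    lt_of_mul_lt_mul_right (a := p) (h1.trans_lt (by nlinarith)) (Nat.zero_le _)
  refine ⟨fun T hT => ?_, fun w hw T hT => ?_⟩
  · obtain ⟨n, Z, a1, a2⟩ := F.t1318_count hS hm T (fun x hx => (hT x hx).1.1)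
      (Q := fun n z => (∀ k < F.P n, F.b n k ≠ z) ∧ F.q n z = 0) fun x hx ε hε => by
        have hx' := (hT x hx).1.2
        refine (F.t1318_sol h hl hx' differentiable_snd (hT x hx).2 ?_ hε).mono
          fun n hn k hk => (hn k hk).imp fun y hy => ⟨hy.1, fun t0 => ⟨hy.2.1,
            (mul_eq_zero.1 hy.2.2).resolve_left (pow_ne_zero 2 t0)⟩⟩
        filter_upwards [t1318_iso h.hV (h.V0.trans_ne one_ne_zero) x,
          nhdsWithin_le_nhds (ho.mem_nhds hx')] with z b1 b2 (e : R z = 0)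
        exact b1 (by rw [← h.eq z b2, e, mul_zero])
    exact fin a1 (F.cnt0 n Z a2)
  · obtain ⟨n, Z, a1, a2⟩ := F.t1318_count hS hm T (fun x hx => (hT x hx).1.1)
      (Q := fun n z => (∀ k < F.P n, F.b n k ≠ z) ∧ deriv (F.q n) z ^ 2 = w * F.q n z ^ 3)
      fun x hx ε hε => by
        have hx' := (hT x hx).1.2
        refine (F.t1318_sol h hl hx' (H := fun p => p.1 ^ 2 - w * p.2 ^ 3) (by fun_prop)
          (sub_eq_zero.2 (hT x hx).2) ?_ hε).mono
          fun n hn k hk => (hn k hk).imp fun y hy => ⟨hy.1, fun t0 => ⟨hy.2.1,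
            mul_left_cancel₀ (pow_ne_zero 6 t0) (by linear_combination hy.2.2)⟩⟩
        have d1 := h.hW.deriv
        have d2 := h.hV.deriv
        have d3 := h.hW
        have d4 := h.hV
        filter_upwards [t1318_iso (c := 0) (G := fun z =>
          (deriv F.V z * F.W z - 2 * F.V z * deriv F.W z) ^ 2 - w * F.V z ^ 3) (by fun_prop)
          (by simp only [h.W0, h.W1, h.V0]; intro e; exact hw (by linear_combination -e)) x,
          nhdsWithin_le_nhds (ho.mem_nhds hx')] with z b1 b2 e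
        have hz := ho.mem_nhds b2
        have e1 := (((h.hW z).hasDerivAt.fun_pow 2).fun_mul
          (h.hR.differentiableAt hz).hasDerivAt).unique ((h.hV z).hasDerivAt.congr_of_eventuallyEq
            (mem_of_superset hz fun u hu => h.eq u hu))
        refine b1 ?_
        rw [← e1, ← h.eq z b2]
        push_cast
        linear_combination F.W z ^ 6 * e
    exact fin a1 (F.cnt1 n w hw Z a2)

theorem t1319_mem {W V : ℂ → ℂ} (h0 : W 0 = 0) (h1 : V 0 = 1) {x μ : ℂ} (h : Symm W V x μ) :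
    x ∈ Zs W V := by
  obtain ⟨a1, a2⟩ := h.2 0
  rw [mul_zero, add_zero] at a1 a2
  exact ⟨by rw [a1, h0, mul_zero], by rw [a2, h1]; exact one_ne_zero⟩

theorem t1319_int {g : ℂ} (hg : g ≠ 0) (h2 : ∀ x, Symm F.W F.V x 1 → ∃ m : ℤ, x = m * g)
    (h3 : ∀ x μ, Symm F.W F.V x μ → μ = 1) (J : ℝ) {η : ℝ} (hη : 0 < η) :
    ∀ᶠ n in (F.𝒰 : Filter ℕ), ∀ i < F.P n, ∀ j < F.P n,
      ‖F.b n j - F.b n i‖ ≤ J * ‖g * F.t n i‖ →
        ‖g * F.t n j - g * F.t n i‖ ≤ η * ‖g * F.t n i‖ ∧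
          ∃ m : ℤ, ‖F.b n j - F.b n i - m * (g * F.t n i)‖ ≤ η * ‖g * F.t n i‖ := by
  by_contra hc
  have hg0 : 0 < ‖g‖ := norm_pos_iff.2 hg
  have h1 := (Ultrafilter.eventually_not.2 hc).mono fun n hn =>
    (by
      by_contra hk
      refine hn fun i hi j hj hij => ?_
      by_contra hl
      exact hk ⟨i, j, ⟨hi, hj, hij⟩, hl⟩ :
      ∃ i j, (i < F.P n ∧ j < F.P n ∧ ‖F.b n j - F.b n i‖ ≤ J * ‖g * F.t n i‖) ∧
        ¬(‖g * F.t n j - g * F.t n i‖ ≤ η * ‖g * F.t n i‖ ∧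
          ∃ m : ℤ, ‖F.b n j - F.b n i - m * (g * F.t n i)‖ ≤ η * ‖g * F.t n i‖))
  obtain ⟨k, h4⟩ := h1.choice
  obtain ⟨j, h5⟩ := h4.choice
  obtain ⟨x, μ, a1, a2, a3⟩ := F.pair (k := k) (j := j) (J := J * ‖g‖)
    (h5.mono fun n hn => ⟨hn.1.1, hn.1.2.1, by
      have := hn.1.2.2
      rwa [norm_mul, ← mul_assoc] at this⟩)
  obtain rfl := h3 x μ a3
  obtain ⟨m, rfl⟩ := h2 x a3
  obtain ⟨n, b1, b2, b3, b4⟩ := (h5.and ((Metric.tendsto_nhds.1 a1 (η * ‖g‖) (by positivity)).and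
    ((Metric.tendsto_nhds.1 a2 η hη).and (F.hc 1 1 one_pos)))).exists
  have ht := (b4 _ b1.1.1).1
  rw [dist_eq_norm, div_sub' ht, norm_div, div_lt_iff₀ (norm_pos_iff.2 ht)] at b2 b3
  rw [mul_one] at b3
  refine b1.2 ⟨?_, m, ?_⟩
  · rw [← mul_sub, norm_mul, norm_mul, mul_left_comm]
    exact mul_le_mul_of_nonneg_left b3.le hg0.le
  · have e1 : (m : ℂ) * (g * F.t n (k n)) = F.t n (k n) * (m * g) := by ring
    rw [e1, norm_mul g, ← mul_assoc η]
    exact b2.le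

theorem t1319_box {s : ℝ} (hs : s = 1 ∨ s = -1) {y : ℂ} (a1 : |y.re| ≤ 2)
    (a2 : |y.im - s| ≤ 1 / 4) : y ∈ closedBall (0 : ℂ) 4 ∩ {y : ℂ | 3 / 4 ≤ |y.im|} := by
  have h1 : 3 / 4 ≤ |y.im| ∧ |y.im| ≤ 2 := by
    rw [abs_le] at a2
    rcases hs with rfl | rfl
    · rw [abs_of_nonneg (by linarith [a2.1])]
      constructor <;> linarith [a2.1, a2.2]
    · rw [abs_of_nonpos (by linarith [a2.2])]
      constructor <;> linarith [a2.1, a2.2]
  exact ⟨mem_closedBall_zero_iff.2 (by linarith [Complex.norm_le_abs_re_add_abs_im y, h1.2]), h1.1⟩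

theorem t1319_static {ι : Type} {A : Finset ι} (hA : A.Nonempty) {D : Set ℂ}
    (hD : Bornology.IsBounded D) {f : ℂ → ℂ} (hf : ∀ z ∈ closure D, DifferentiableAt ℂ f z)
    {c : ι → ℂ} {M : ℝ} (hfr : ∀ z ∈ frontier D, ∃ i ∈ A, ‖c i * f z‖ ≤ M) :
    ∃ i ∈ A, ∀ z ∈ D, ‖c i * f z‖ ≤ M := by
  obtain ⟨i, hi, hmin⟩ := A.exists_min_image (fun i => ‖c i‖) hA
  refine ⟨i, hi, fun z hz => t1294_max (F := fun z => c i * f z) hD
    (fun z h => (hf z h).const_mul _) (fun z h => ?_) hz⟩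
  obtain ⟨j, hj, h1⟩ := hfr z h
  refine le_trans ?_ h1
  rw [norm_mul, norm_mul]
  exact mul_le_mul_of_nonneg_right (hmin j hj) (norm_nonneg _)

theorem no_chain {R : ℂ → ℂ} (h : Trio F.W F.V R) (hl : F.Lim R) {g : ℂ} (hg : g ≠ 0)
    (h1 : Symm F.W F.V g 1) (h2 : ∀ x, Symm F.W F.V x 1 → ∃ m : ℤ, x = m * g)
    (h3 : ∀ x μ, Symm F.W F.V x μ → μ = 1)
    (h4 : ∀ s : ℝ, s = 1 ∨ s = -1 → ∀ M : ℝ, ∃ y : ℂ, 0 ≤ y.re ∧ y.re ≤ 1 ∧ 2 ≤ s * y.im ∧
      (M < ‖F.W (g * y)‖ ∨ M < ‖R (g * y)‖)) : False := by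
  have hg0 : 0 < ‖g‖ := norm_pos_iff.2 hg
  have hZ : ∀ y : ℂ, y.im ≠ 0 → g * y ∉ Zs F.W F.V := by
    intro y hy hz
    obtain ⟨μ, hμ⟩ := h.sym _ hz
    obtain rfl := h3 _ _ hμ
    obtain ⟨m, hm⟩ := h2 _ hμ
    rw [mul_comm g, mul_left_inj' hg] at hm
    exact hy (by rw [hm]; exact Complex.intCast_im m)
  set K : Set ℂ := closedBall (0 : ℂ) 4 ∩ {y : ℂ | 3 / 4 ≤ |y.im|} with hKd
  have hK : IsCompact K :=
    (isCompact_closedBall _ _).inter_right (isClosed_le continuous_const (by fun_prop))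
  have hKi : ∀ y ∈ K, y.im ≠ 0 := fun y hy h0 => by
    have : (3 : ℝ) / 4 ≤ |y.im| := hy.2
    rw [h0] at this
    norm_num at this
  obtain ⟨M₁, hM₁⟩ := hK.exists_bound_of_continuousOn (f := fun y => F.W (g * y))
    (F.hW.continuous.comp (by fun_prop)).continuousOn
  obtain ⟨M₂, hM₂⟩ := hK.exists_bound_of_continuousOn (f := fun y => R (g * y))
    (h.hR.continuousOn.comp (f := fun y => g * y) (by fun_prop) fun y hy => hZ y (hKi y hy))
  set M := max M₁ M₂ with hMd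
  have hMa : M₁ ≤ M := le_max_left _ _
  have hMb : M₂ ≤ M := le_max_right _ _
  obtain ⟨y₁, p1, p2, p3, p4⟩ := h4 1 (Or.inl rfl) (M + 2)
  obtain ⟨y₂, q1, q2, q3, q4⟩ := h4 (-1) (Or.inr rfl) (M + 2)
  set T := max 3 (max (1 * y₁.im + 1) (-1 * y₂.im + 1)) with hTd
  have hT : 3 ≤ T := le_max_left _ _
  have hTa : 1 * y₁.im + 1 ≤ T := (le_max_left _ _).trans (le_max_right _ _)
  have hTb : -1 * y₂.im + 1 ≤ T := (le_max_right _ _).trans (le_max_right _ _)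
  have hK' : IsCompact ((fun y => g * y) '' insert y₁ (insert y₂ K)) :=
    ((hK.insert y₂).insert y₁).image (by fun_prop)
  obtain ⟨L, hL⟩ := hK'.isBounded.subset_ball 0
  have hQ := ev_compact (l := (F.𝒰 : Filter ℕ)) hK' (Q := fun n y => ∀ k < F.P n,
      (∀ j < F.P n, F.b n j ≠ F.b n k + F.t n k * y) ∧
        ‖F.t n k ^ 2 * F.q n (F.b n k + F.t n k * y) - R y‖ ≤ 1) (by
    rintro _ ⟨y, hy, rfl⟩
    obtain ⟨ε, hε, h5⟩ := hl (g * y) (hZ y (by
      rcases hy with rfl | rfl | hy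
      · intro h0
        rw [h0] at p3
        norm_num at p3
      · intro h0
        rw [h0] at q3
        norm_num at q3
      · exact hKi y hy))
    exact ⟨ε, hε, (h5 1 one_pos).mono fun n hn z hz k hk => hn k hk z hz⟩)
  obtain ⟨J, η', hη', hch⟩ := chain hT
  obtain ⟨e, he, hsep⟩ := F.sep
  obtain ⟨n, a1, a2, a3, a4, a5, a6⟩ := ((F.hc L 1 one_pos).and (hsep.and
    ((F.t1319_int hg h2 h3 (1 / 2) (η := min (e / ‖g‖) (1 / 4)) (by positivity)).and
      ((F.t1319_int hg h2 h3 J hη').and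
        ((F.Z_near (t1319_mem h.W0 h.V0 h1) (ε := η' * ‖g‖) (by positivity)).and hQ))))).exists
  have : Nonempty (Fin (F.P n)) := ⟨⟨0, F.hP n⟩⟩
  have ht : ∀ i : Fin (F.P n), F.t n i ≠ 0 := fun i => (a1 i i.2).1
  obtain ⟨s, A, D, hs, hA, -, hD, hfr, hin, hbD, -⟩ := hch (Fin (F.P n)) (fun i => F.b n i)
    (fun i => g * F.t n i) (fun i => mul_ne_zero hg (ht i)) (fun i j hij => by
      obtain ⟨-, k, hk⟩ := a3 i i.2 j j.2 (by linarith)
      have ht0 : 0 < ‖g * F.t n i‖ := norm_pos_iff.2 (mul_ne_zero hg (ht i))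
      have c1 := norm_sub_norm_le (k * (g * F.t n i)) (F.b n j - F.b n i)
      rw [norm_sub_rev (k * (g * F.t n i)), norm_mul, Complex.norm_intCast] at c1
      have c2 := mul_le_mul_of_nonneg_right (min_le_right (e / ‖g‖) (1 / 4)) ht0.le
      have c3 : |(k : ℝ)| < 1 := lt_of_mul_lt_mul_right (by linarith) ht0.le
      obtain rfl : k = 0 := Int.abs_lt_one_iff.1 (by exact_mod_cast c3)
      rw [Int.cast_zero, zero_mul, sub_zero] at hk
      refine Fin.ext (a2 i i.2 j j.2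
        (hk.trans ((mul_le_mul_of_nonneg_right (min_le_left _ _) ht0.le).trans_eq ?_)))
      rw [norm_mul, ← mul_assoc, div_mul_cancel₀ _ hg0.ne'])
    (fun i => by
      obtain ⟨j, hj, h5⟩ := a5 i i.2
      refine ⟨⟨j, hj⟩, ?_⟩
      rw [norm_mul g, ← mul_assoc, mul_comm g]
      exact h5) (fun i j => a4 i i.2 j j.2)
  have e1 : ∀ (i : ℕ) (y : ℂ), g * F.t n i * y = F.t n i * (g * y) := fun i y => by ring
  simp only [e1] at hfr hin
  obtain ⟨y₀, hy₀, r1, r2⟩ : ∃ y₀ ∈ insert y₁ (insert y₂ K),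
      (∀ i ∈ A, F.b n i + F.t n i * (g * y₀) ∈ D) ∧
        (M + 2 < ‖F.W (g * y₀)‖ ∨ M + 2 < ‖R (g * y₀)‖) := by
    rcases hs with rfl | rfl
    · exact ⟨y₁, Or.inl rfl, fun i hi => hin i hi y₁ p1 p2 p3 (by linarith), p4⟩
    · exact ⟨y₂, Or.inr (Or.inl rfl), fun i hi => hin i hi y₂ q1 q2 q3 (by linarith), q4⟩
  have hKK : ∀ y ∈ K, g * y ∈ (fun y => g * y) '' insert y₁ (insert y₂ K) := fun y hy =>
    ⟨y, Or.inr (Or.inr hy), rfl⟩
  rcases r2 with r2 | r2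
  · obtain ⟨i, hi, h5⟩ := t1319_static hA hD (f := fun z => (F.Φ n).eval z)
      (fun z _ => (F.Φ n).differentiable z) (c := fun i => (F.τ n * F.t n i)⁻¹) (M := M + 1)
      (fun z hz => by
        obtain ⟨i, hi, y, rfl, c1, c2⟩ := hfr z hz
        have c3 := t1319_box hs c1 c2
        have c4 := ((a1 i i.2).2 _ (hL (hKK y c3))).1
        refine ⟨i, hi, ?_⟩
        rw [← div_eq_inv_mul]
        linarith [norm_le_norm_add_norm_sub' ((F.Φ n).eval (F.b n i + F.t n i * (g * y)) /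
          (F.τ n * F.t n i)) (F.W (g * y)), hM₁ y c3])
    have c1 := h5 _ (r1 i hi)
    have c2 := ((a1 i i.2).2 _ (hL ⟨y₀, hy₀, rfl⟩)).1
    rw [← div_eq_inv_mul] at c1
    rw [norm_sub_rev] at c2
    linarith [norm_le_norm_add_norm_sub' (F.W (g * y₀))
      ((F.Φ n).eval (F.b n i + F.t n i * (g * y₀)) / (F.τ n * F.t n i))]
  · obtain ⟨i, hi, h5⟩ := t1319_static hA hD (f := F.q n)
      (fun z hz => (F.hq n z (by
        rw [closure_eq_self_union_frontier] at hz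
        rcases hz with hz | hz
        · intro k hk h0
          exact hbD ⟨k, hk⟩ (h0 ▸ hz)
        · obtain ⟨i, -, y, rfl, c1, c2⟩ := hfr z hz
          exact (a6 _ (hKK y (t1319_box hs c1 c2)) i i.2).1)).1)
      (c := fun i => F.t n i ^ 2) (M := M + 1)
      (fun z hz => by
        obtain ⟨i, hi, y, rfl, c1, c2⟩ := hfr z hz
        have c3 := t1319_box hs c1 c2
        have c4 := (a6 _ (hKK y c3) i i.2).2
        refine ⟨i, hi, ?_⟩
        linarith [norm_le_norm_add_norm_sub' (F.t n i ^ 2 * F.q n (F.b n i + F.t n i * (g * y)))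
          (R (g * y)), hM₂ y c3])
    have c1 := h5 _ (r1 i hi)
    have c2 := (a6 _ ⟨y₀, hy₀, rfl⟩ i i.2).2
    rw [norm_sub_rev] at c2
    linarith [norm_le_norm_add_norm_sub' (R (g * y₀))
      (F.t n i ^ 2 * F.q n (F.b n i + F.t n i * (g * y₀)))]

/-- The limit differential is invariant. -/
theorem one (h0 : deriv F.V 0 = 0) {u : ℂ} (hu : u ≠ 0) (hs : ∀ (R : ℂ → ℂ) (K : ℕ) (S : Set ℂ),
    Trio F.W F.V R → F.Lim R → IsOpen S → F.Mult K S → Star F.W F.V R u S) :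
    ∀ y, F.V y = 1 := by
  classical
  obtain ⟨R, r1, r2, r3⟩ := F.lim
  have h : Trio F.W F.V R := ⟨F.hW, F.hV, F.zero.1, F.W1, F.zero.2, h0, r1, r2, F.sym⟩
  rcases h.struct with hZ | ⟨g, x₀, hg, s1, s2, s3, s4⟩
  · have hm : F.Mult hZ.toFinset.card univ := F.mult hZ.toFinset fun x μ hx _ _ _ _ _ =>
      hZ.mem_toFinset.2 (t1319_mem h.W0 h.V0 hx)
    refine h.rigid_fin hZ hu (F.cnt h r3 isOpen_univ (Finset.card_pos.2 ⟨0, ?_⟩) hm)
      (hs R _ _ h r3 isOpen_univ hm)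
    exact hZ.mem_toFinset.2 ⟨h.W0, by rw [h.V0]; exact one_ne_zero⟩
  · have hS : IsOpen {y : ℂ | |(y / g).re| < 2} := isOpen_lt (by fun_prop) continuous_const
    have hcl : closure {y : ℂ | |(y / g).re| < 2} ⊆ {y : ℂ | |(y / g).re| ≤ 2} :=
      closure_lt_subset_le (by fun_prop) continuous_const
    set N : ℤ := ⌈4 + |(x₀ / g).re|⌉ with hN
    have hN1 : 4 + |(x₀ / g).re| ≤ N := Int.le_ceil _
    have hN2 := abs_nonneg (x₀ / g).re
    set T : Finset ℂ := (Finset.Icc (-N) N).image (fun m : ℤ => (m : ℂ) * g) ∪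
      (Finset.Icc (-N) N).image (fun m : ℤ => x₀ + (m : ℂ) * g) with hT
    have hI : ∀ m : ℤ, |(m : ℝ)| ≤ N → m ∈ Finset.Icc (-N) N := fun m hm =>
      Finset.mem_Icc.2 (abs_le.1 (by exact_mod_cast hm))
    have hm : F.Mult T.card {y : ℂ | |(y / g).re| < 2} := F.mult T (by
      intro x μ hx y hy y' hy' he
      have c1 : |(y / g).re| ≤ 2 := hcl hy
      have c2 : |(y' / g).re| ≤ 2 := hcl hy'
      have c3 : |(x / g).re| ≤ 4 := by
        rw [abs_le] at c1 c2 ⊢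
        rcases s3 x μ hx with rfl | rfl
        · rw [he, one_mul, add_div, Complex.add_re] at c1
          constructor <;> linarith [c1.1, c1.2, c2.1, c2.2]
        · rw [he, neg_one_mul, add_div, neg_div, Complex.add_re, Complex.neg_re] at c1
          constructor <;> linarith [c1.1, c1.2, c2.1, c2.2]
      obtain ⟨m, rfl | rfl⟩ := s4 x (t1319_mem h.W0 h.V0 hx)
      · rw [mul_div_cancel_right₀ _ hg, Complex.intCast_re] at c3
        exact Finset.mem_union_left _ (Finset.mem_image_of_mem _ (hI m (by linarith)))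
      · rw [add_div, mul_div_cancel_right₀ _ hg, Complex.add_re, Complex.intCast_re] at c3
        refine Finset.mem_union_right _ (Finset.mem_image_of_mem _ (hI m ?_))
        rw [abs_le] at c3 ⊢
        constructor <;> linarith [c3.1, c3.2, le_abs_self (x₀ / g).re, neg_abs_le (x₀ / g).re])
    have hpos : 0 < T.card := Finset.card_pos.2 ⟨_, Finset.mem_union_left _
      (Finset.mem_image_of_mem _ (hI 0 (by rw [Int.cast_zero, abs_zero]; linarith)))⟩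
    rcases h.rigid_per hg s1 s3 s4 hu (F.cnt h r3 hS hpos hm) (hs R _ _ h r3 hS hm) with c | c
    · exact c
    · exact (F.no_chain h r3 hg s1 s2 c.1 c.2).elim

end Fam

end Pool.Agent.MP_28f8a1_an.H42
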