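import Pool.Agent.MP_28f8a1_an.H42.Mass
import Pool.Agent.MP_28f8a1_an.H42.Norm
import Pool.Agent.MP_28f8a1_an.H42.Thin
import Pool.Agent.MP_28f8a1_an.H42.Bd
import Pool.Agent.MP_28f8a1_an.Mg.H42_Fam

-- part MP_28f8a1_an.H42.Loc
section

/-! The ratio of a pulled-back term and the differential is almost in the unit interval. -/

set_option autoImplicit false

namespace Pool.Agent.MP_28f8a1_an.H42

open MeasureTheory Metric Set Real Filter Topology Polynomial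
open scoped ENNReal

variable {e : ℕ}

/-- The ratio, in a form that is holomorphic at the base point. -/
noncomputable def rat (Y : Cyc e) (b p : ℂ) (h Z ζ : ℂ → ℂ) (τ₁ τ : ℂ) : ℂ :=
  Y.U p (ζ τ) * (dslope Z τ₁ τ / dslope ζ τ₁ τ) ^ 2 * (deriv h (Z τ) / lam e (ζ τ)) ^ 2 /
    Y.U b (Z τ)

theorem lam_ne {z : ℂ} (hz : z ≠ 0) : lam e z ≠ 0 :=
  mul_ne_zero (Nat.cast_ne_zero.mpr (Nat.succ_ne_zero e)) (pow_ne_zero _ hz)

theorem loc_est (he : 1 ≤ e) (Y : Cyc e) {b p : ℂ} (hb : b ∈ Y.B) (hp : p ∈ Y.B) {k : ℕ}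
    {h : ℂ → ℂ} {R : ℝ} (hBr : Br e Y.c k h (ball b R)) {Z ζ : ℂ → ℂ} {O : Set ℂ} (hO : IsOpen O)
    (dZ : DifferentiableOn ℂ Z O) (dζ : DifferentiableOn ℂ ζ O) (hm : ∀ τ ∈ O, Z τ ∈ ball b R)
    (hf : ∀ τ ∈ O, fq e Y.c (ζ τ) = h (Z τ)) {τ₁ : ℂ} (hτ₁ : τ₁ ∈ O) (hZ₁ : Z τ₁ = b)
    (hζ₁ : ζ τ₁ = p) {τ₀ : ℂ} {ε : ℝ} (hsub : ball τ₀ ε ⊆ O) (hinj : InjOn Z (ball τ₀ ε))
    {W : Set ℂ} (hW : MapsTo Z (ball τ₀ ε) W) {m C : ℝ} (hm0 : 0 < m)
    (hg : ∀ τ ∈ ball τ₀ ε, (Z τ ∈ Y.B → Z τ = b) ∧ m⁻¹ ≤ ‖Y.U b (Z τ)‖ ∧ ζ τ ≠ 0 ∧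
      ‖Z τ - b‖ ≤ C * ‖deriv Z τ‖ ∧ dslope ζ τ₁ τ ≠ 0) :
    DifferentiableOn ℂ (rat Y b p h Z ζ τ₁) (ball τ₀ ε) ∧
      LI (ball τ₀ ε) (fun τ => ‖rat Y b p h Z ζ τ₁ τ‖ + ‖1 - rat Y b p h Z ζ τ₁ τ‖ - 1) ≤
        ENNReal.ofReal (m * C ^ 2) * LI W (Y.Err k h) := by
  have hiter : ∀ τ ∈ O, (fq e Y.c)^[k + 1] (ζ τ) = Z τ := fun τ hτ => by
    rw [Function.iterate_succ_apply, hf τ hτ, hBr.inv _ (hm τ hτ)]
  have hU0 : ∀ τ ∈ ball τ₀ ε, Y.U b (Z τ) ≠ 0 := fun τ hτ h0 => by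
    have := (hg τ hτ).2.1
    rw [h0, norm_zero] at this
    exact absurd (inv_pos.mpr hm0) (not_lt.mpr this)
  constructor
  · have d1 : DifferentiableOn ℂ (dslope Z τ₁) O :=
      (Complex.differentiableOn_dslope (hO.mem_nhds hτ₁)).mpr dZ
    have d2 : DifferentiableOn ℂ (dslope ζ τ₁) O :=
      (Complex.differentiableOn_dslope (hO.mem_nhds hτ₁)).mpr dζ
    have d3 : DifferentiableOn ℂ (deriv h) (ball b R) := hBr.diff.deriv isOpen_ball
    intro τ hτ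
    have hτO := hsub hτ
    have hn := hO.mem_nhds hτO
    obtain ⟨g1, -, g3, -, g5⟩ := hg τ hτ
    have hZ := dZ.differentiableAt hn
    have hζ := dζ.differentiableAt hn
    have e1 : DifferentiableAt ℂ (fun τ => Y.U p (ζ τ)) τ := by
      refine (Y.U_diff fun hz => ?_).comp τ hζ
      refine Y.iter_inj hz hp (k + 1) ?_
      rw [hiter τ hτO, ← hζ₁, hiter τ₁ hτ₁, hZ₁]
      exact g1 (hiter τ hτO ▸ Y.iter_mem hz (k + 1))
    have e2 : DifferentiableAt ℂ (fun τ => Y.U b (Z τ)) τ := (Y.U_diff g1).comp τ hZ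
    have e3 : DifferentiableAt ℂ (fun τ => deriv h (Z τ)) τ :=
      (d3.differentiableAt (isOpen_ball.mem_nhds (hm τ hτO))).comp τ hZ
    have e4 : DifferentiableAt ℂ (fun τ => lam e (ζ τ)) τ := by
      unfold lam
      fun_prop
    exact (((e1.mul (((d1.differentiableAt hn).div (d2.differentiableAt hn) g5).pow 2)).mul
      ((e3.div e4 (lam_ne g3)).pow 2)).div e2 (hU0 τ hτ)).differentiableWithinAt
  · have hnull : volume {τ ∈ ball τ₀ ε | Z τ = b} = 0 := by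
      refine Set.Subsingleton.measure_zero (fun x hx y hy => ?_) _
      exact hinj hx.1 hy.1 (hx.2.trans hy.2.symm)
    have hmC : 0 ≤ m * C ^ 2 := by positivity
    calc _ ≤ LI (ball τ₀ ε) (fun τ => m * C ^ 2 * (‖deriv Z τ‖ ^ 2 * Y.Err k h (Z τ))) := by
          refine LI_mono_ae measurableSet_ball hnull fun τ hτ hτ' => ?_
          have hτO := hsub hτ
          obtain ⟨g1, g2, g3, g4, g5⟩ := hg τ hτ
          have hZb : Z τ ≠ b := fun h => hτ' ⟨hτ, h⟩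
          have hZB : Z τ ∉ Y.B := fun h => hZb (g1 h)
          have hζB : ζ τ ∉ Y.B := fun h => hZB (hiter τ hτO ▸ Y.iter_mem h (k + 1))
          have hne : τ ≠ τ₁ := fun h => hZb (h ▸ hZ₁)
          have hζp : ζ τ - p ≠ 0 := sub_ne_zero.mpr fun h => hζB (h ▸ hp)
          have hU := hU0 τ hτ
          have hZb' : Z τ - b ≠ 0 := sub_ne_zero.mpr hZb
          have hτ1 : τ - τ₁ ≠ 0 := sub_ne_zero.mpr hne
          have hl := lam_ne (e := e) g3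
          have hq : Y.q (Z τ) ≠ 0 := by
            rw [Y.q_eq hb hZB]
            exact div_ne_zero hU (pow_ne_zero _ hZb')
          have hr : rat Y b p h Z ζ τ₁ τ =
              tm e Y.q (ζ τ) * deriv h (Z τ) ^ 2 / Y.q (Z τ) := by
            unfold rat tm
            rw [dslope_of_ne _ hne, dslope_of_ne _ hne, slope_def_field, slope_def_field, hZ₁, hζ₁,
              Y.q_eq hb hZB, Y.q_eq hp hζB]
            change _ = _ / lam e (ζ τ) ^ 2 * _ / _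
            field_simp
          have ht := Y.tele he isOpen_ball hBr (hm τ hτO) hZB g3 (hf τ hτO)
          have hq0 : 0 < ‖Y.q (Z τ)‖ := norm_pos_iff.mpr hq
          have hE : 0 ≤ Y.Err k h (Z τ) :=
            Finset.sum_nonneg fun j _ => mul_nonneg (by positivity) (Y.err_nonneg _)
          have h1 : ‖rat Y b p h Z ζ τ₁ τ‖ + ‖1 - rat Y b p h Z ζ τ₁ τ‖ - 1 ≤
              Y.Err k h (Z τ) * ‖Y.q (Z τ)‖⁻¹ := by
            rw [hr, one_sub_div hq, norm_div, norm_div, ← add_div, sub_le_iff_le_add,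
              div_le_iff₀ hq0, add_mul, inv_mul_cancel_right₀ hq0.ne', one_mul]
            linarith
          have h2 : ‖Y.q (Z τ)‖⁻¹ ≤ m * C ^ 2 * ‖deriv Z τ‖ ^ 2 := by
            rw [Y.q_eq hb hZB, norm_div, norm_pow, inv_div, div_eq_mul_inv]
            have h3 : ‖Y.U b (Z τ)‖⁻¹ ≤ m := inv_le_of_inv_le₀ hm0 g2
            have h4 : ‖Z τ - b‖ ^ 2 ≤ (C * ‖deriv Z τ‖) ^ 2 := by gcongr
            calc _ ≤ (C * ‖deriv Z τ‖) ^ 2 * m := by gcongr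
              _ = _ := by ring
          calc _ ≤ _ := h1
            _ ≤ Y.Err k h (Z τ) * (m * C ^ 2 * ‖deriv Z τ‖ ^ 2) := by gcongr
            _ = _ := by ring
      _ = ENNReal.ofReal (m * C ^ 2) * LI (Z '' ball τ₀ ε) (Y.Err k h) := by
          rw [LI_const_mul _ hmC, LI_image measurableSet_ball
            (fun τ hτ => dZ.hasDerivAt (hO.mem_nhds (hsub hτ))) hinj]
      _ ≤ _ := by
          gcongr
          exact LI_mono_set hW.image_subset _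

theorem neg_le_two (a : ℂ) : ‖a‖ - a.re ≤ ‖a‖ + ‖1 - a‖ - 1 := by
  have := Complex.re_le_norm (1 - a)
  simp only [Complex.sub_re, Complex.one_re] at this
  linarith

theorem neg_le_two' (a : ℂ) : ‖1 - a‖ - (1 - a).re ≤ ‖a‖ + ‖1 - a‖ - 1 := by
  have := Complex.re_le_norm a
  simp only [Complex.sub_re, Complex.one_re]
  linarith

end Pool.Agent.MP_28f8a1_an.H42

end

-- part MP_28f8a1_an.H42.Seq
section

/-! Sequences of cycles whose differentials are more and more invariant. -/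

set_option autoImplicit false

namespace Pool.Agent.MP_28f8a1_an.H42

open MeasureTheory Metric Set Real Filter Topology Polynomial
open scoped ENNReal

/-- A sequence of cycles with base points, scales and exceptional limit sets. -/
structure Setup (e : ℕ) where
  𝒰 : Ultrafilter ℕ
  Y : ℕ → Cyc e
  p : ℕ → ℕ → ℂ
  r : ℕ → ℝ
  E : Set ℂ
  F : Set ℂ
  pmem : ∀ n k, p n k ∈ (Y n).B
  pstep : ∀ n k, fq e (Y n).c (p n (k + 1)) = p n k
  pinj : ∀ n, ∀ i < (Y n).B.card, ∀ j < (Y n).B.card, p n i = p n j → i = j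
  rpos : ∀ n, 0 < r n
  rle : ∀ n, r n ≤ 6
  cle : ∀ n, ‖(Y n).c‖ ≤ 6
  ble : ∀ n, ‖p n 0‖ ≤ 3
  iso : ∀ n, ∀ b ∈ (Y n).B, b ≠ p n 0 → r n ≤ ‖b - p n 0‖
  ρlo : ∀ n, 1 / 2 ≤ ‖(Y n).ρ‖
  ρhi : ∀ n, ‖(Y n).ρ‖ ≤ 2
  ρne : ∀ n, (Y n).ρ ≠ 1
  small : ∀ R, 7 ≤ R → ∀ δ > 0, ∀ᶠ n in (𝒰 : Filter ℕ),
    LI (ball 0 R) (Y n).err ≤ ENNReal.ofReal δ
  rate : ∀ R, 7 ≤ R → ∃ C, 0 ≤ C ∧ ∀ n,
    LI (ball 0 R) (Y n).err ≤ ENNReal.ofReal (C * ‖(Y n).ρ - 1‖)
  Ecl : IsClosed E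
  Enull : μH[1] E = 0
  E0 : (0 : ℂ) ∉ E
  Eaway : ∀ x ∉ E, ∃ ε > 0, ∀ᶠ n in (𝒰 : Filter ℕ), ∀ y ∈ ball x ε,
    (p n 0 + r n * y ∈ (Y n).B → p n 0 + r n * y = p n 0) ∧
    (Y n).N.eval (p n 0 + r n * y) ≠ 0 ∧ (Y n).M.eval (p n 0 + r n * y) ≠ 0 ∧
    ((Y n).M ^ 2 - C 1 * (Y n).N ^ 3).eval (p n 0 + r n * y) ≠ 0
  Fnull : μH[1] F = 0
  Faway : ∀ x ∉ F, ∃ ε > 0, ∀ᶠ n in (𝒰 : Filter ℕ), ∀ y ∈ ball x ε, ∀ j < (Y n).B.card,
    p n 0 + r n * y ≠ cn e (Y n).c j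
  touch : ∀ n, ∃ y : ℂ, ‖y‖ = 1 ∧ (p n 0 + r n * y ∈ (Y n).B ∨
    (Y n).N.eval (p n 0 + r n * y) = 0 ∨ (Y n).M.eval (p n 0 + r n * y) = 0 ∨
    ((Y n).M ^ 2 - C 1 * (Y n).N ^ 3).eval (p n 0 + r n * y) = 0)

namespace Setup

variable {e : ℕ} (σ : Setup e)

/-- The rescaled differential times the square of the coordinate. -/
noncomputable def u (n : ℕ) (y : ℂ) : ℂ := (σ.Y n).U (σ.p n 0) (σ.p n 0 + σ.r n * y)

theorem u_zero (n : ℕ) : σ.u n 0 = 1 := by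
  simp [u, (σ.Y n).U_self (σ.pmem n 0)]

theorem u_diff {n : ℕ} {y : ℂ}
    (h : σ.p n 0 + σ.r n * y ∈ (σ.Y n).B → σ.p n 0 + σ.r n * y = σ.p n 0) :
    DifferentiableAt ℂ (σ.u n) y :=
  ((σ.Y n).U_diff h).comp y (by fun_prop)

theorem p_iter (n k j : ℕ) : (fq e (σ.Y n).c)^[k] (σ.p n (j + k)) = σ.p n j := by
  induction k with
  | zero => rfl
  | succ k ih => rw [Function.iterate_succ_apply, ← add_assoc, σ.pstep, ih]

theorem p_card (n : ℕ) : σ.p n (σ.Y n).B.card = σ.p n 0 := by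
  have := σ.p_iter n (σ.Y n).B.card 0
  rwa [zero_add, (σ.Y n).fix _ (σ.pmem n _)] at this

theorem u_bounds : ∀ x ∉ σ.E, ∃ ε > 0, ∃ m > 0, ∀ᶠ n in (σ.𝒰 : Filter ℕ), ∀ y ∈ ball x ε,
    (σ.p n 0 + σ.r n * y ∈ (σ.Y n).B → σ.p n 0 + σ.r n * y = σ.p n 0) ∧
      m⁻¹ ≤ ‖σ.u n y‖ ∧ ‖σ.u n y‖ ≤ m := by
  intro x hx
  have hc := preconn_diff isOpen_univ isPreconnected_univ σ.Ecl σ.Enull
  obtain ⟨ε, hε, m, hm, h1⟩ := two_sided (l := σ.𝒰) hc ⟨mem_univ _, σ.E0⟩ σ.u_zero (fun x hx => by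
    obtain ⟨ε, hε, h⟩ := σ.Eaway x hx.2
    refine ⟨ε, hε, h.mono fun n hn => ⟨fun y hy => (σ.u_diff (hn y hy).1).differentiableWithinAt,
      fun y hy => ?_⟩⟩
    obtain ⟨g1, g2, g3, g4⟩ := hn y hy
    obtain ⟨k1, k2, k3⟩ := (σ.Y n).chart (σ.pmem n 0) g1
    refine ⟨fun h => g2 (k1.mp h), fun h => g3 (k2.mp h), fun h => g4 ((k3 1).mp ?_)⟩
    rw [one_mul]
    exact h) x ⟨mem_univ _, hx⟩
  obtain ⟨ε', hε', h2⟩ := σ.Eaway x hx
  refine ⟨min ε ε', lt_min hε hε', m, hm, ?_⟩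
  filter_upwards [h1, h2] with n g1 g2 y hy
  exact ⟨(g2 y (ball_subset_ball (min_le_right _ _) hy)).1,
    g1 y (ball_subset_ball (min_le_left _ _) hy)⟩

theorem norm_r (n : ℕ) (y : ℂ) : ‖(σ.r n : ℂ) * y‖ = σ.r n * ‖y‖ := by
  rw [norm_mul, Complex.norm_real, Real.norm_eq_abs, abs_of_pos (σ.rpos n)]

/-- The accumulated error near a good point, uniformly in the branch. -/
theorem loss_le (he : 1 ≤ e) {L : ℝ} {x : ℂ} (hx : x ∉ σ.E) (hxL : ‖x‖ < L) :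
    ∃ ε > 0, ∃ m > 0, ∃ M : ℕ, ‖x‖ + ε < L ∧ ∀ᶠ n in (σ.𝒰 : Filter ℕ),
      (∀ y ∈ ball x ε, (σ.p n 0 + σ.r n * y ∈ (σ.Y n).B → σ.p n 0 + σ.r n * y = σ.p n 0) ∧
        m⁻¹ ≤ ‖σ.u n y‖) ∧
      ∀ k < (σ.Y n).B.card, ∀ h, Br e (σ.Y n).c k h (ball (σ.p n 0) (L * σ.r n)) →
        h (σ.p n 0) = σ.p n k →
        LI (ball (σ.p n 0 + σ.r n * x) (ε * σ.r n)) ((σ.Y n).Err k h) ≤
          M * LI (ball 0 (7 + 6 * L)) (σ.Y n).err := by
  obtain ⟨ε₁, hε₁, m, hm, h1⟩ := σ.u_bounds x hx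
  have hL : 0 < L := (norm_nonneg _).trans_lt hxL
  obtain ⟨ε, hε, e1, e2, e3⟩ : ∃ ε > 0, 2 * ε ≤ ε₁ ∧ 2 * ε ≤ L - ‖x‖ ∧ ε ≤ 1 :=
    ⟨min (min (ε₁ / 2) ((L - ‖x‖) / 2)) 1, by
      have : 0 < L - ‖x‖ := by linarith
      positivity,
      by linarith [min_le_left (min (ε₁ / 2) ((L - ‖x‖) / 2)) 1,
        min_le_left (ε₁ / 2) ((L - ‖x‖) / 2)],
      by linarith [min_le_left (min (ε₁ / 2) ((L - ‖x‖) / 2)) 1,
        min_le_right (ε₁ / 2) ((L - ‖x‖) / 2)], min_le_right _ _⟩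
  obtain ⟨M, hM⟩ := LI_Err he (θ := (‖x‖ + ε) / L) (ε := ε / L) (by positivity)
    (by rw [← add_div, div_le_one hL]; linarith)
  refine ⟨ε, hε, m, hm, M, by linarith, ?_⟩
  filter_upwards [h1] with n g1
  have hr := σ.rpos n
  refine ⟨fun y hy => ?_, fun k hk h hb hh => ?_⟩
  · have := g1 y (ball_subset_ball (by linarith) hy)
    exact ⟨this.1, this.2.1⟩
  have a1 : ε / L * (L * σ.r n) = ε * σ.r n := by field_simp
  have a2 : (‖x‖ + ε) / L * (L * σ.r n) = (‖x‖ + ε) * σ.r n := by field_simp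
  refine hM (σ.Y n) (σ.p n 0) (L * σ.r n) (7 + 6 * L) (σ.p n) k h _ (by positivity) (σ.cle n)
    (by linarith) (by nlinarith [σ.ble n, σ.rle n]) rfl (σ.pmem n) (σ.pstep n) (σ.pinj n) hk hb hh
    (fun b' hb' hne => ?_) measurableSet_ball (fun z hz => ⟨?_, fun b' hb' hne => ?_⟩)
  · rw [a1, norm_sub_rev]
    exact le_trans (by nlinarith) (σ.iso n b' hb' hne)
  · rw [a2]
    rw [mem_ball, dist_eq_norm] at hz
    calc ‖z - σ.p n 0‖ = ‖(z - (σ.p n 0 + σ.r n * x)) + σ.r n * x‖ := by ring_nf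
      _ ≤ ‖z - (σ.p n 0 + σ.r n * x)‖ + ‖(σ.r n : ℂ) * x‖ := norm_add_le _ _
      _ ≤ _ := by rw [σ.norm_r]; nlinarith
  · rw [a1]
    rw [mem_ball, dist_eq_norm] at hz
    by_contra hlt
    push Not at hlt
    have hr' : (σ.r n : ℂ) ≠ 0 := Complex.ofReal_ne_zero.mpr hr.ne'
    have hy : σ.p n 0 + σ.r n * ((b' - σ.p n 0) / σ.r n) = b' := by field_simp; ring
    refine hne (hy ▸ (g1 ((b' - σ.p n 0) / σ.r n) ?_).1 (hy.symm ▸ hb'))
    rw [mem_ball, dist_eq_norm]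
    refine lt_of_mul_lt_mul_left ?_ hr.le
    rw [← σ.norm_r]
    calc _ = ‖(z - (σ.p n 0 + σ.r n * x)) - (z - b')‖ := by congr 1; field_simp; ring
      _ ≤ _ := norm_sub_le _ _
      _ < _ := by nlinarith

theorem τ_le (n : ℕ) : ‖(σ.Y n).ρ - 1‖ ≤ 3 := by
  have := norm_sub_le (σ.Y n).ρ 1
  rw [norm_one] at this
  linarith [σ.ρhi n]

theorem τ_pos (n : ℕ) : 0 < ‖(σ.Y n).ρ - 1‖ := norm_pos_iff.mpr (sub_ne_zero.mpr (σ.ρne n))

theorem small_loss' (he : 1 ≤ e) {L : ℝ} {x : ℂ} (hx : x ∉ σ.E) (hxL : ‖x‖ < L) :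
    ∃ ε > 0, ∃ m > 0, ‖x‖ + ε < L ∧ ∀ δ > 0, ∀ᶠ n in (σ.𝒰 : Filter ℕ),
      (∀ y ∈ ball x ε, (σ.p n 0 + σ.r n * y ∈ (σ.Y n).B → σ.p n 0 + σ.r n * y = σ.p n 0) ∧
        m⁻¹ ≤ ‖σ.u n y‖) ∧
      ∀ k < (σ.Y n).B.card, ∀ h, Br e (σ.Y n).c k h (ball (σ.p n 0) (L * σ.r n)) →
        h (σ.p n 0) = σ.p n k →
        LI (ball (σ.p n 0 + σ.r n * x) (ε * σ.r n)) ((σ.Y n).Err k h) ≤ ENNReal.ofReal δ := by
  obtain ⟨ε, hε, m, hm, M, h1, h2⟩ := σ.loss_le he hx hxL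
  have hL : 0 < L := (norm_nonneg _).trans_lt hxL
  refine ⟨ε, hε, m, hm, h1, fun δ hδ => ?_⟩
  filter_upwards [h2, σ.small (7 + 6 * L) (by linarith) (δ / (M + 1)) (by positivity)]
    with n g1 g2
  refine ⟨g1.1, fun k hk h hb hh => (g1.2 k hk h hb hh).trans ?_⟩
  calc (M : ℝ≥0∞) * _ ≤ ENNReal.ofReal M * ENNReal.ofReal (δ / (M + 1)) := by
        rw [ENNReal.ofReal_natCast]
        gcongr
    _ ≤ _ := by
        rw [← ENNReal.ofReal_mul (by positivity)]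
        refine ENNReal.ofReal_le_ofReal ?_
        rw [mul_div_assoc', div_le_iff₀ (by positivity)]
        nlinarith

end Setup

end Pool.Agent.MP_28f8a1_an.H42

end

-- part MP_28f8a1_an.H42.Pull
section

/-! Univalent pull-backs exist at all scales and almost preserve the differential. -/

set_option autoImplicit false

namespace Pool.Agent.MP_28f8a1_an.H42

open MeasureTheory Metric Set Real Filter Topology Polynomial
open scoped ENNReal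

variable {e : ℕ}

theorem chain_rule {c : ℂ} {h Z ζ : ℂ → ℂ} {O : Set ℂ} (hO : IsOpen O)
    (dZ : DifferentiableOn ℂ Z O) (dζ : DifferentiableOn ℂ ζ O)
    (hf : ∀ τ ∈ O, fq e c (ζ τ) = h (Z τ)) {τ : ℂ} (hτ : τ ∈ O)
    (dh : DifferentiableAt ℂ h (Z τ)) :
    lam e (ζ τ) * deriv ζ τ = deriv h (Z τ) * deriv Z τ := by
  have h1 := (fq_deriv (e := e) (c := c) (ζ τ)).comp τ (dζ.hasDerivAt (hO.mem_nhds hτ))
  have h2 := dh.hasDerivAt.comp τ (dZ.hasDerivAt (hO.mem_nhds hτ))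
  refine h1.unique (h2.congr_of_eventuallyEq ?_)
  filter_upwards [hO.mem_nhds hτ] with v hv using hf v hv

theorem rat_self (Y : Cyc e) {b p : ℂ} (hb : b ∈ Y.B) (hp : p ∈ Y.B) {h Z ζ : ℂ → ℂ} {τ₁ : ℂ}
    (hZ : Z τ₁ = b) (hζ : ζ τ₁ = p) (h0 : deriv ζ τ₁ ≠ 0)
    (hc : lam e (ζ τ₁) * deriv ζ τ₁ = deriv h (Z τ₁) * deriv Z τ₁) :
    rat Y b p h Z ζ τ₁ τ₁ = 1 := by
  have hl : lam e (ζ τ₁) ≠ 0 := lam_ne (hζ ▸ Y.ne0 p hp)
  unfold rat
  rw [dslope_same, dslope_same, mul_assoc, ← mul_pow, div_mul_div_comm, mul_comm (deriv Z τ₁),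
    ← hc, mul_comm (deriv ζ τ₁), div_self (mul_ne_zero hl h0), hZ, hζ, Y.U_self hb, Y.U_self hp]
  simp

theorem scale_small {a : ℝ} (ha : 0 ≤ a) {δ : ℝ} (hδ : 0 < δ) {x y : ℝ≥0∞}
    (h1 : x ≤ ENNReal.ofReal a * y) (h2 : y ≤ ENNReal.ofReal (δ / (a + 1))) :
    x ≤ ENNReal.ofReal δ := by
  refine h1.trans ((mul_le_mul_right h2 _).trans ?_)
  rw [← ENNReal.ofReal_mul ha]
  refine ENNReal.ofReal_le_ofReal ?_
  rw [mul_div_assoc', div_le_iff₀ (by positivity)]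
  nlinarith

namespace Setup

variable (σ : Setup e)

/-- The affine chart at the base point. -/
noncomputable def A (n : ℕ) (y : ℂ) : ℂ := σ.p n 0 + σ.r n * y

theorem A_deriv (n : ℕ) (y : ℂ) : HasDerivAt (σ.A n) (σ.r n) y := by
  have := ((hasDerivAt_id y).const_mul (σ.r n : ℂ)).const_add (σ.p n 0)
  rw [mul_one] at this
  exact this

theorem A_zero (n : ℕ) : σ.A n 0 = σ.p n 0 := by simp [A]

theorem r_ne (n : ℕ) : (σ.r n : ℂ) ≠ 0 := Complex.ofReal_ne_zero.mpr (σ.rpos n).ne'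

theorem A_inj (n : ℕ) : Function.Injective (σ.A n) := fun _ _ h =>
  mul_left_cancel₀ (σ.r_ne n) (add_left_cancel h)

theorem A_mem {n : ℕ} {x y : ℂ} {ε : ℝ} : σ.A n y ∈ ball (σ.A n x) (ε * σ.r n) ↔ y ∈ ball x ε := by
  rw [mem_ball, mem_ball, dist_eq_norm, dist_eq_norm,
    show σ.A n y - σ.A n x = σ.r n * (y - x) by simp only [A]; ring, σ.norm_r, mul_comm ε,
    mul_lt_mul_iff_right₀ (σ.rpos n)]

theorem A_mem0 {n : ℕ} {y : ℂ} {L : ℝ} : σ.A n y ∈ ball (σ.p n 0) (L * σ.r n) ↔ ‖y‖ < L := by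
  rw [← σ.A_zero n, σ.A_mem, mem_ball_zero_iff]

/-- The ratio for an unbranched pull-back. -/
noncomputable def α (n k : ℕ) (h : ℂ → ℂ) : ℂ → ℂ :=
  rat (σ.Y n) (σ.p n 0) (σ.p n (k + 1)) (fun v => fq e (σ.Y n).c (h v)) (σ.A n)
    (fun y => h (σ.A n y)) 0

theorem hA_deriv {n k : ℕ} {h : ℂ → ℂ} {L : ℝ}
    (hb : Br e (σ.Y n).c k h (ball (σ.p n 0) (L * σ.r n))) {y : ℂ} (hy : y ∈ ball (0 : ℂ) L) :
    HasDerivAt (fun y => h (σ.A n y)) (deriv h (σ.A n y) * σ.r n) y :=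
  (hb.diff.hasDerivAt (isOpen_ball.mem_nhds (σ.A_mem0.mpr (mem_ball_zero_iff.mp hy)))).comp y
    (σ.A_deriv n y)

theorem loc_unb (he : 1 ≤ e) {n k : ℕ} {h : ℂ → ℂ} {L : ℝ} (hL : 0 < L)
    (g2 : Br e (σ.Y n).c (k + 1) h (ball (σ.p n 0) (L * σ.r n)))
    (g3 : h (σ.p n 0) = σ.p n (k + 1)) {x : ℂ} {ε m C : ℝ} (hm : 0 < m)
    (hsub : ball x ε ⊆ ball 0 L) (g4 : ∀ y ∈ ball x ε,
      (σ.A n y ∈ (σ.Y n).B → σ.A n y = σ.p n 0) ∧ m⁻¹ ≤ ‖σ.u n y‖ ∧ ‖y‖ ≤ C) :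
    DifferentiableOn ℂ (fun y => 1 - σ.α n k h y) (ball x ε) ∧
      LI (ball x ε) (fun y => ‖1 - σ.α n k h y‖ - (1 - σ.α n k h y).re) ≤
        ENNReal.ofReal (m * C ^ 2) *
          LI (ball (σ.A n x) (ε * σ.r n)) ((σ.Y n).Err k fun v => fq e (σ.Y n).c (h v)) := by
  have hu := g2.univ isOpen_ball
  obtain ⟨k1, k2⟩ := loc_est he (σ.Y n) (σ.pmem n 0) (σ.pmem n (k + 1))
    (g2.iter (j := 1) (by omega)) isOpen_ball
    (fun y _ => (σ.A_deriv n y).differentiableAt.differentiableWithinAt)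
    (fun y hy => (σ.hA_deriv g2 hy).differentiableAt.differentiableWithinAt)
    (fun y hy => σ.A_mem0.mpr (mem_ball_zero_iff.mp hy)) (fun _ _ => rfl) (mem_ball_self hL)
    (σ.A_zero n) (by rw [σ.A_zero, g3]) hsub (σ.A_inj n).injOn
    (W := ball (σ.A n x) (ε * σ.r n)) (fun y hy => σ.A_mem.mpr hy) hm (C := C) (fun y hy => by
      have hyL := mem_ball_zero_iff.mp (hsub hy)
      have hyA := σ.A_mem0 (n := n).mpr hyL
      refine ⟨(g4 y hy).1, (g4 y hy).2.1, g2.ne_zero he isOpen_ball (by omega) hyA, ?_, ?_⟩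
      · rw [(σ.A_deriv n y).deriv, A, add_sub_cancel_left, norm_mul, mul_comm]
        gcongr
        exact (g4 y hy).2.2
      · by_cases h0 : y = 0
        · rw [h0, dslope_same, (σ.hA_deriv g2 (mem_ball_self hL)).deriv]
          exact mul_ne_zero (hu.ne _ (h0 ▸ hyA)) (σ.r_ne n)
        · rw [dslope_of_ne _ h0, slope_def_field]
          refine div_ne_zero (sub_ne_zero.mpr fun h1 => h0 (σ.A_inj n ?_)) (by simpa using h0)
          exact hu.inj hyA (σ.A_mem0.mpr (by simpa using hL)) h1)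
  exact ⟨(differentiableOn_const _).sub k1,
    (LI_mono measurableSet_ball fun y _ => neg_le_two' _).trans k2⟩

theorem unb_est (he : 1 ≤ e) {L : ℝ} (hL : 0 < L) {k : ℕ → ℕ} {h : ℕ → ℂ → ℂ}
    (hh : ∀ᶠ n in (σ.𝒰 : Filter ℕ), k n < (σ.Y n).B.card ∧
      Br e (σ.Y n).c (k n + 1) (h n) (ball (σ.p n 0) (L * σ.r n)) ∧
      h n (σ.p n 0) = σ.p n (k n + 1)) :
    (∀ x ∈ ball (0 : ℂ) L \ σ.E, ∃ ε > 0, ∃ C, 0 ≤ C ∧ ∀ᶠ n in (σ.𝒰 : Filter ℕ),
      DifferentiableOn ℂ (fun y => 1 - σ.α n (k n) (h n) y) (ball x ε) ∧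
      LI (ball x ε) (fun y => ‖1 - σ.α n (k n) (h n) y‖ - (1 - σ.α n (k n) (h n) y).re) ≤
        ENNReal.ofReal C * LI (ball 0 (7 + 6 * L)) (σ.Y n).err) ∧
    ∀ᶠ n in (σ.𝒰 : Filter ℕ), 1 - σ.α n (k n) (h n) 0 = 0 := by
  refine ⟨fun x hx => ?_, ?_⟩
  · obtain ⟨ε, hε, m, hm, M, hxε, h1⟩ := σ.loss_le he hx.2 (mem_ball_zero_iff.mp hx.1)
    refine ⟨ε, hε, m * L ^ 2 * M, by positivity, ?_⟩
    filter_upwards [hh, h1] with n ⟨g1, g2, g3⟩ ⟨g4, g5⟩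
    have hsub : ball x ε ⊆ ball 0 L := fun y hy => by
      rw [mem_ball_zero_iff]
      rw [mem_ball, dist_eq_norm] at hy
      linarith [norm_le_norm_add_norm_sub' y x]
    obtain ⟨k1, k2⟩ := σ.loc_unb he hL g2 g3 hm hsub (C := L) fun y hy =>
      ⟨(g4 y hy).1, (g4 y hy).2, (mem_ball_zero_iff.mp (hsub hy)).le⟩
    refine ⟨k1, k2.trans ?_⟩
    rw [ENNReal.ofReal_mul (p := m * L ^ 2) (by positivity), ENNReal.ofReal_natCast, mul_assoc]
    exact mul_le_mul_right (g5 _ g1 (fun v => fq e (σ.Y n).c (h n v)) (g2.iter (j := 1) (by omega))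
      (by rw [g3, σ.pstep])) _
  · filter_upwards [hh] with n ⟨_, g2, g3⟩
    have hA : σ.A n 0 ∈ ball (σ.p n 0) (L * σ.r n) := σ.A_mem0.mpr (by simpa using hL)
    have b1 : Br e (σ.Y n).c (k n) (fun v => fq e (σ.Y n).c (h n v))
        (ball (σ.p n 0) (L * σ.r n)) := g2.iter (j := 1) (by omega)
    rw [α, rat_self (σ.Y n) (σ.pmem n 0) (σ.pmem n _) (σ.A_zero n) (by rw [σ.A_zero, g3]), sub_self]
    · rw [(σ.hA_deriv g2 (mem_ball_self hL)).deriv]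
      exact mul_ne_zero ((g2.univ isOpen_ball).ne _ hA) (σ.r_ne n)
    · exact chain_rule isOpen_ball
        (fun y _ => (σ.A_deriv n y).differentiableAt.differentiableWithinAt)
        (fun y hy => (σ.hA_deriv g2 hy).differentiableAt.differentiableWithinAt) (fun _ _ => rfl)
        (mem_ball_self hL) (b1.diff.differentiableAt (isOpen_ball.mem_nhds hA))

theorem unbranched' (he : 1 ≤ e) {L : ℝ} {k : ℕ → ℕ} {h : ℕ → ℂ → ℂ}
    (hh : ∀ᶠ n in (σ.𝒰 : Filter ℕ), k n < (σ.Y n).B.card ∧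
      Br e (σ.Y n).c (k n + 1) (h n) (ball (σ.p n 0) (L * σ.r n)) ∧
      h n (σ.p n 0) = σ.p n (k n + 1)) :
    ∀ x ∉ σ.E, ‖x‖ < L → ∃ ε > 0, ∀ δ > 0, ∀ᶠ n in (σ.𝒰 : Filter ℕ), ∀ y ∈ ball x ε,
      ‖1 - σ.α n (k n) (h n) y‖ ≤ δ := by
  intro x hx hxL
  have hL : 0 < L := (norm_nonneg _).trans_lt hxL
  obtain ⟨h1, h2⟩ := σ.unb_est he hL hh
  refine align (l := σ.𝒰) (α := fun n y => 1 - σ.α n (k n) (h n) y)
    (preconn_diff isOpen_ball (convex_ball (0 : ℂ) L).isPreconnected σ.Ecl σ.Enull)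
    (fun x hx => ?_) (x₀ := 0) ⟨mem_ball_self hL, σ.E0⟩ h2 x ⟨mem_ball_zero_iff.mpr hxL, hx⟩
  obtain ⟨ε, hε, C, hC, h3⟩ := h1 x hx
  refine ⟨ε, hε, fun δ hδ => ?_⟩
  filter_upwards [h3, σ.small (7 + 6 * L) (by linarith) (δ / (C + 1)) (by positivity)]
    with n g1 g2
  exact ⟨g1.1, scale_small hC hδ g1.2 g2⟩

/-- The branched pull-back in a uniformising coordinate. -/
theorem branch_data (n : ℕ) {L : ℝ} {k : ℕ} {h : ℂ → ℂ} {x : ℂ}
    (hb : Br e (σ.Y n).c k h (ball (σ.p n 0) (L * σ.r n))) (h0 : h (σ.p n 0) = σ.p n k)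
    (hx : ‖x‖ < L) (hc : h (σ.A n x) = (σ.Y n).c) :
    x ≠ 0 ∧ ∃ ζ : ℂ → ℂ, DifferentiableOn ℂ ζ {τ | ‖x * (1 - τ ^ (e + 1))‖ < L} ∧
      (∀ τ, ‖x * (1 - τ ^ (e + 1))‖ < L →
        fq e (σ.Y n).c (ζ τ) = h (σ.A n (x * (1 - τ ^ (e + 1))))) ∧
      (∀ τ, τ ≠ 0 → ζ τ ≠ 0) ∧ ∀ τ, τ ^ (e + 1) = 1 → ζ τ = τ * σ.p n (k + 1) := by
  have hL : 0 < L := (norm_nonneg _).trans_lt hx
  have hp := (σ.Y n).ne0 _ (σ.pmem n (k + 1))
  have hpow : σ.p n (k + 1) ^ (e + 1) = σ.p n k - (σ.Y n).c := by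
    rw [← σ.pstep n k, fq, add_sub_cancel_right]
  have hx0 : x ≠ 0 := by
    rintro rfl
    rw [σ.A_zero, h0] at hc
    rw [hc, sub_self] at hpow
    exact pow_ne_zero _ hp hpow
  refine ⟨hx0, ?_⟩
  have hu := hb.univ isOpen_ball
  have hxA : σ.A n x ∈ ball (σ.p n 0) (L * σ.r n) := σ.A_mem0.mpr hx
  have dv : DifferentiableOn ℂ (dslope h (σ.A n x)) (ball (σ.p n 0) (L * σ.r n)) :=
    (Complex.differentiableOn_dslope (isOpen_ball.mem_nhds hxA)).mpr hb.diff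
  have hv : ∀ z, h z - (σ.Y n).c = (z - σ.A n x) * dslope h (σ.A n x) z := fun z => by
    rw [← hc, ← smul_eq_mul, sub_smul_dslope]
  obtain ⟨Λ, dΛ, hΛ⟩ := exists_log dv fun z hz => by
    by_cases h1 : z = σ.A n x
    · rw [h1, dslope_same]
      exact hu.ne _ hxA
    · intro h2
      have := hv z
      rw [h2, mul_zero, sub_eq_zero, ← hc] at this
      exact h1 (hu.inj hz hxA this)
  refine ⟨fun τ => τ * σ.p n (k + 1) *
    Complex.exp ((Λ (σ.A n (x * (1 - τ ^ (e + 1)))) - Λ (σ.p n 0)) / (e + 1 : ℕ)), ?_, ?_, ?_, ?_⟩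
  · intro τ hτ
    have h1 : DifferentiableAt ℂ (fun τ => Λ (σ.A n (x * (1 - τ ^ (e + 1))))) τ := by
      refine (dΛ.differentiableAt (isOpen_ball.mem_nhds (σ.A_mem0.mpr hτ))).comp τ
        (f := fun τ => σ.A n (x * (1 - τ ^ (e + 1)))) ?_
      unfold A
      fun_prop
    exact ((differentiableAt_id.mul_const _).mul
      ((h1.sub_const _).div_const _).cexp).differentiableWithinAt
  · intro τ hτ
    have hb0 : σ.p n 0 ∈ ball (σ.p n 0) (L * σ.r n) := mem_ball_self (mul_pos hL (σ.rpos n))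
    have h1 := hv (σ.A n (x * (1 - τ ^ (e + 1))))
    have h2 := hv (σ.p n 0)
    rw [← hΛ _ (σ.A_mem0.mpr hτ)] at h1
    rw [← hΛ _ hb0, h0, ← hpow] at h2
    have hd : ((e + 1 : ℕ) : ℂ) ≠ 0 := Nat.cast_ne_zero.mpr (Nat.succ_ne_zero e)
    rw [fq, mul_pow, mul_pow, ← Complex.exp_nat_mul, mul_div_cancel₀ _ hd, Complex.exp_sub, h2,
      ← eq_sub_iff_add_eq, h1]
    have := Complex.exp_ne_zero (Λ (σ.p n 0))
    simp only [A]
    field_simp
    ring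
  · intro τ hτ
    exact mul_ne_zero (mul_ne_zero hτ hp) (Complex.exp_ne_zero _)
  · intro τ hτ
    simp [hτ, σ.A_zero]

theorem pow_local {τ₀ : ℂ} (h0 : τ₀ ≠ 0) : ∃ ε > 0, ∃ K : ℝ,
    InjOn (fun τ : ℂ => τ ^ (e + 1)) (ball τ₀ ε) ∧ ∀ τ ∈ ball τ₀ ε, τ ≠ 0 ∧
      ‖1 - τ ^ (e + 1)‖ ≤ K * ‖lam e τ‖ := by
  have hd : HasStrictDerivAt (fun τ : ℂ => τ ^ (e + 1)) (lam e τ₀) τ₀ := by
    simpa [lam] using hasStrictDerivAt_pow (e + 1) τ₀
  have h1 := hd.eventually_left_inverse (lam_ne h0)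
  have hc : ContinuousAt (fun τ : ℂ => ‖1 - τ ^ (e + 1)‖ / ‖lam e τ‖) τ₀ := by
    refine ContinuousAt.div (by fun_prop) (by unfold lam; fun_prop) (norm_ne_zero_iff.mpr (lam_ne h0))
  have h2 := hc.eventually (gt_mem_nhds (lt_add_one _))
  obtain ⟨ε, hε, h⟩ := Metric.eventually_nhds_iff_ball.mp (h1.and (h2.and (eventually_ne_nhds h0)))
  refine ⟨ε, hε, ‖1 - τ₀ ^ (e + 1)‖ / ‖lam e τ₀‖ + 1, fun a ha b hb hab => ?_,
    fun τ hτ => ⟨(h τ hτ).2.2, ?_⟩⟩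
  · rw [← (h a ha).1, ← (h b hb).1]
    exact congrArg _ hab
  · exact (div_le_iff₀ (norm_pos_iff.mpr (lam_ne (h τ hτ).2.2))).mp (h τ hτ).2.1.le

theorem no_branching (he : 1 ≤ e) {L : ℝ} (hF : ∀ x ∈ σ.F, ‖x‖ ≠ L) {k : ℕ → ℕ} {h : ℕ → ℂ → ℂ}
    {x : ℕ → ℂ} (hh : ∀ᶠ n in (σ.𝒰 : Filter ℕ), k n < (σ.Y n).B.card ∧
      Br e (σ.Y n).c (k n) (h n) (ball (σ.p n 0) (L * σ.r n)) ∧
      h n (σ.p n 0) = σ.p n (k n) ∧ ‖x n‖ < L ∧ h n (σ.A n (x n)) = (σ.Y n).c) : False := by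
  obtain ⟨x₀, hx₀, hlim⟩ := (isCompact_closedBall (0 : ℂ) L).ultrafilter_le_nhds (σ.𝒰.map x) (by
    rw [Ultrafilter.coe_map, le_principal_iff, Filter.mem_map]
    filter_upwards [hh] with n hn
    exact mem_closedBall_zero_iff.mpr hn.2.2.2.1.le)
  replace hlim : Tendsto x σ.𝒰 (𝓝 x₀) := hlim
  have hxL : ‖x₀‖ < L := by
    refine lt_of_le_of_ne (mem_closedBall_zero_iff.mp hx₀) (hF _ ?_)
    by_contra hc
    obtain ⟨ε, hε, h1⟩ := σ.Faway _ hc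
    obtain ⟨n, ⟨g1, g2, -, g4, g5⟩, g6, g7⟩ :=
      (hh.and (h1.and (hlim.eventually (ball_mem_nhds x₀ hε)))).exists
    refine g6 _ g7 _ g1 ?_
    have := g2.inv _ (σ.A_mem0.mpr g4)
    rw [g5] at this
    exact this.symm
  have hL : 0 < L := (norm_nonneg _).trans_lt hxL
  have hex : ∀ n, ∃ ζ : ℂ → ℂ, (k n < (σ.Y n).B.card ∧
      Br e (σ.Y n).c (k n) (h n) (ball (σ.p n 0) (L * σ.r n)) ∧
      h n (σ.p n 0) = σ.p n (k n) ∧ ‖x n‖ < L ∧ h n (σ.A n (x n)) = (σ.Y n).c) →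
      x n ≠ 0 ∧ DifferentiableOn ℂ ζ {τ | ‖x n * (1 - τ ^ (e + 1))‖ < L} ∧
      (∀ τ, ‖x n * (1 - τ ^ (e + 1))‖ < L →
        fq e (σ.Y n).c (ζ τ) = h n (σ.A n (x n * (1 - τ ^ (e + 1))))) ∧
      (∀ τ, τ ≠ 0 → ζ τ ≠ 0) ∧ ∀ τ, τ ^ (e + 1) = 1 → ζ τ = τ * σ.p n (k n + 1) := by
    intro n
    by_cases hn : k n < (σ.Y n).B.card ∧
      Br e (σ.Y n).c (k n) (h n) (ball (σ.p n 0) (L * σ.r n)) ∧
      h n (σ.p n 0) = σ.p n (k n) ∧ ‖x n‖ < L ∧ h n (σ.A n (x n)) = (σ.Y n).c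
    · obtain ⟨h1, ζ, h2⟩ := σ.branch_data n hn.2.1 hn.2.2.1 hn.2.2.2.1 hn.2.2.2.2
      exact ⟨ζ, fun _ => ⟨h1, h2⟩⟩
    · exact ⟨0, fun h => absurd h hn⟩
  choose ζ hζ using hex
  set Z : ℕ → ℂ → ℂ := fun n τ => σ.A n (x n * (1 - τ ^ (e + 1))) with hZ
  have dZ : ∀ n τ, HasDerivAt (Z n) (σ.r n * (x n * -lam e τ)) τ := fun n τ => by
    refine (σ.A_deriv n _).comp τ (h := fun τ => x n * (1 - τ ^ (e + 1))) ?_
    simpa [lam] using ((hasDerivAt_pow (e + 1) τ).const_sub 1).const_mul (x n)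
  have hO : ∀ n, IsOpen {τ : ℂ | ‖x n * (1 - τ ^ (e + 1))‖ < L} := fun n =>
    isOpen_lt (by fun_prop) continuous_const
  have hZ1 : ∀ n τ, τ ^ (e + 1) = 1 → Z n τ = σ.p n 0 := fun n τ hτ => by
    simp [hZ, hτ, σ.A_zero]
  have h1O : ∀ n, (1 : ℂ) ∈ {τ : ℂ | ‖x n * (1 - τ ^ (e + 1))‖ < L} := fun n => by simpa using hL
  have hroot : ∀ τ : ℂ, τ ^ (e + 1) = 1 → τ ∈ {τ : ℂ | τ ≠ 0 ∧ ‖x₀ * (1 - τ ^ (e + 1))‖ < L ∧
      x₀ * (1 - τ ^ (e + 1)) ∉ σ.E} := fun τ hτ => by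
    refine ⟨?_, by simpa [hτ] using hL, by simpa [hτ] using σ.E0⟩
    rintro rfl
    simp at hτ
  have hchain : ∀ᶠ n in (σ.𝒰 : Filter ℕ), deriv (ζ n) 1 ≠ 0 ∧
      lam e (ζ n 1) * deriv (ζ n) 1 = deriv (h n) (Z n 1) * deriv (Z n) 1 := by
    filter_upwards [hh] with n hn
    obtain ⟨g1, g2, g3, -, -⟩ := hζ n hn
    have hA : Z n 1 ∈ ball (σ.p n 0) (L * σ.r n) := σ.A_mem0.mpr (h1O n)
    have := chain_rule (hO n) (fun τ _ => (dZ n τ).differentiableAt.differentiableWithinAt) g2 g3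
      (h1O n) (hn.2.1.diff.differentiableAt (isOpen_ball.mem_nhds hA))
    refine ⟨fun h0 => ?_, this⟩
    rw [h0, mul_zero, (dZ n 1).deriv] at this
    exact mul_ne_zero ((hn.2.1.univ isOpen_ball).ne _ hA) (mul_ne_zero (σ.r_ne n)
      (mul_ne_zero g1 (neg_ne_zero.mpr (lam_ne one_ne_zero)))) this.symm
  have hom : om e ≠ 1 := (om_prim e).ne_one (by omega)
  obtain ⟨ε, hε, hfin⟩ := align (l := σ.𝒰)
    (α := fun n => rat (σ.Y n) (σ.p n 0) (σ.p n (k n + 1)) (h n) (Z n) (ζ n) 1)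
    (preconn_branch σ.Ecl σ.Enull σ.E0 e hxL) (fun τ₀ hτ₀ => by
      obtain ⟨ε₁, hε₁, m, hm, hxε, h1⟩ := σ.small_loss' he hτ₀.2.2 hτ₀.2.1
      obtain ⟨ε₂, hε₂, K, hinj, hK⟩ := pow_local (e := e) hτ₀.1
      have hc : ContinuousAt (fun w : ℂ × ℂ => w.1 * (1 - w.2 ^ (e + 1))) (x₀, τ₀) := by fun_prop
      obtain ⟨ε₃, hε₃, h3⟩ := Metric.eventually_nhds_iff_ball.mp
        (hc.eventually (ball_mem_nhds _ hε₁))
      refine ⟨min ε₂ ε₃, lt_min hε₂ hε₃, fun δ hδ => ?_⟩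
      filter_upwards [hh, hchain, h1 (δ / (m * K ^ 2 + 1)) (by positivity),
        hlim.eventually (ball_mem_nhds x₀ hε₃)] with n hn ⟨c1, _⟩ ⟨g4, g5⟩ g6
      obtain ⟨k1, k2, k3, k4, k5⟩ := hζ n hn
      have hb2 : ball τ₀ (min ε₂ ε₃) ⊆ ball τ₀ ε₂ := ball_subset_ball (min_le_left _ _)
      have hin : ∀ τ ∈ ball τ₀ (min ε₂ ε₃),
          x n * (1 - τ ^ (e + 1)) ∈ ball (x₀ * (1 - τ₀ ^ (e + 1))) ε₁ := fun τ hτ =>
        h3 (x n, τ) (by
          rw [← ball_prod_same]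
          exact ⟨g6, ball_subset_ball (min_le_right _ _) hτ⟩)
      have hsub : ball τ₀ (min ε₂ ε₃) ⊆ {τ : ℂ | ‖x n * (1 - τ ^ (e + 1))‖ < L} := fun τ hτ => by
        have := hin τ hτ
        rw [mem_ball, dist_eq_norm] at this
        have h4 := norm_le_norm_add_norm_sub' (x n * (1 - τ ^ (e + 1))) (x₀ * (1 - τ₀ ^ (e + 1)))
        change _ < L
        linarith
      obtain ⟨l1, l2⟩ := loc_est he (σ.Y n) (σ.pmem n 0) (σ.pmem n (k n + 1)) hn.2.1 (hO n)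
        (fun τ _ => (dZ n τ).differentiableAt.differentiableWithinAt) k2
        (fun τ hτ => σ.A_mem0.mpr hτ) k3 (h1O n) (hZ1 n 1 (one_pow _))
        (by rw [k5 1 (one_pow _), one_mul]) hsub
        (fun a ha b hb hab => hinj (hb2 ha) (hb2 hb)
          (sub_right_injective (mul_left_cancel₀ k1 (σ.A_inj n hab))))
        (W := ball (σ.A n (x₀ * (1 - τ₀ ^ (e + 1)))) (ε₁ * σ.r n))
        (fun τ hτ => σ.A_mem.mpr (hin τ hτ)) hm (C := K) (fun τ hτ => by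
          refine ⟨(g4 _ (hin τ hτ)).1, (g4 _ (hin τ hτ)).2, k4 τ (hK τ (hb2 hτ)).1, ?_, ?_⟩
          · rw [(dZ n τ).deriv]
            simp only [hZ, A, add_sub_cancel_left, norm_mul, norm_neg]
            calc _ ≤ ‖(σ.r n : ℂ)‖ * (‖x n‖ * (K * ‖lam e τ‖)) := by
                  gcongr
                  exact (hK τ (hb2 hτ)).2
              _ = _ := by ring
          · by_cases h0 : τ = 1
            · rwa [h0, dslope_same]
            · rw [dslope_of_ne _ h0, slope_def_field]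
              refine div_ne_zero (sub_ne_zero.mpr fun h1 => h0 ?_) (sub_ne_zero.mpr h0)
              have a1 := k3 τ (hsub hτ)
              rw [h1, k3 1 (h1O n)] at a1
              have a2 := σ.A_inj n ((hn.2.1.univ isOpen_ball).inj (σ.A_mem0.mpr (h1O n))
                (σ.A_mem0.mpr (hsub hτ)) a1)
              have a3 : τ ^ (e + 1) = 1 := by
                have := sub_right_injective (mul_left_cancel₀ k1 a2)
                rw [← this, one_pow]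
              rw [k5 τ a3, k5 1 (one_pow _)] at h1
              exact mul_right_cancel₀ ((σ.Y n).ne0 _ (σ.pmem n _)) h1)
      refine ⟨l1, (LI_mono measurableSet_ball fun y _ => neg_le_two _).trans ?_⟩
      exact scale_small (by positivity) hδ l2 (g5 _ hn.1 _ hn.2.1 hn.2.2.1))
    (hroot _ (om_prim e).pow_eq_one) (Eventually.of_forall fun n => by
      simp only [rat]
      rw [dslope_of_ne (Z n) hom, slope_def_field, hZ1 n _ (om_prim e).pow_eq_one,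
        hZ1 n 1 (one_pow _)]
      simp) 1 (hroot 1 (one_pow _))
  obtain ⟨n, hn, ⟨c1, c2⟩, c3⟩ := (hh.and (hchain.and (hfin (1 / 2) (by norm_num)))).exists
  have := c3 1 (mem_ball_self hε)
  rw [rat_self (σ.Y n) (σ.pmem n 0) (σ.pmem n _) (hZ1 n 1 (one_pow _))
    (by rw [(hζ n hn).2.2.2.2 1 (one_pow _), one_mul]) c1 c2] at this
  norm_num at this

/-- Univalent pull-backs along the whole cycle exist at every scale. -/
theorem branches (he : 1 ≤ e) (L : ℝ) : ∀ᶠ n in (σ.𝒰 : Filter ℕ), ∀ k ≤ (σ.Y n).B.card,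
    ∃ h, Br e (σ.Y n).c k h (ball (σ.p n 0) (L * σ.r n)) ∧ h (σ.p n 0) = σ.p n k := by
  obtain ⟨L', ⟨h1, -⟩, hF⟩ := good_radius σ.Fnull (lt_add_one (max L 0))
  have hL : 0 < L' := (le_max_right _ _).trans_lt h1
  by_contra hc
  rw [← Ultrafilter.eventually_not] at hc
  have hex : ∀ n, ∃ (k : ℕ) (h : ℂ → ℂ) (x : ℂ), (¬∀ k ≤ (σ.Y n).B.card,
      ∃ h, Br e (σ.Y n).c k h (ball (σ.p n 0) (L * σ.r n)) ∧ h (σ.p n 0) = σ.p n k) →
      k < (σ.Y n).B.card ∧ Br e (σ.Y n).c k h (ball (σ.p n 0) (L' * σ.r n)) ∧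
      h (σ.p n 0) = σ.p n k ∧ ‖x‖ < L' ∧ h (σ.A n x) = (σ.Y n).c := by
    intro n
    by_contra hn
    push Not at hn
    obtain ⟨⟨k, hk, hno⟩, -⟩ := hn 0 0 0
    have key : ∀ j ≤ (σ.Y n).B.card, ∃ h, Br e (σ.Y n).c j h (ball (σ.p n 0) (L' * σ.r n)) ∧
        h (σ.p n 0) = σ.p n j := by
      intro j
      induction j with
      | zero => exact fun _ => ⟨id, ⟨differentiableOn_id, fun _ _ => rfl⟩, rfl⟩
      | succ j ih =>
        intro hj
        obtain ⟨h, hb, h0⟩ := ih (by omega)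
        refine br_succ (mul_pos hL (σ.rpos n)) hb (fun z hz hzc => ?_) (by rw [σ.pstep, h0])
        have hz' : σ.A n ((z - σ.p n 0) / σ.r n) = z := by
          have := σ.r_ne n
          simp only [A]
          field_simp
          ring
        exact (hn j h ((z - σ.p n 0) / σ.r n)).2 (by omega) hb h0
          (σ.A_mem0.mp (hz'.symm ▸ hz)) (hz'.symm ▸ hzc)
    obtain ⟨h, hb, h0⟩ := key k hk
    have hsub : ball (σ.p n 0) (L * σ.r n) ⊆ ball (σ.p n 0) (L' * σ.r n) :=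
      ball_subset_ball (mul_le_mul_of_nonneg_right ((le_max_left _ _).trans h1.le) (σ.rpos n).le)
    exact hno h ⟨hb.diff.mono hsub, fun z hz => hb.inv z (hsub hz)⟩ h0
  choose k h x hx using hex
  exact σ.no_branching he hF (hc.mono hx)

end Setup

end Pool.Agent.MP_28f8a1_an.H42

end

-- part MP_28f8a1_an.H42.Limit
section

/-! The entire limit seen from every point of the cycle. -/

set_option autoImplicit false

namespace Pool.Agent.MP_28f8a1_an.H42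

open MeasureTheory Metric Set Real Filter Topology Polynomial
open scoped ENNReal

variable {e : ℕ}

namespace Setup

variable (σ : Setup e)

/-- The scale at the `k`-th point of the backward orbit. -/
noncomputable def t (n k : ℕ) : ℂ := σ.r n / Pd e (σ.Y n).c (σ.p n k) k

/-- The differential in the affine chart at the `k`-th point. -/
noncomputable def v (n k : ℕ) (y : ℂ) : ℂ := (σ.Y n).U (σ.p n k) (σ.p n k + σ.t n k * y)

theorem t_eq {n k : ℕ} {h : ℂ → ℂ} {R : ℝ} (hR : 0 < R) (hb : Br e (σ.Y n).c k h (ball (σ.p n 0) R))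
    (h0 : h (σ.p n 0) = σ.p n k) : σ.t n k = deriv h (σ.p n 0) * σ.r n ∧ σ.t n k ≠ 0 := by
  have := hb.mul_deriv isOpen_ball (mem_ball_self hR)
  rw [h0] at this
  have h1 : σ.t n k = deriv h (σ.p n 0) * σ.r n := by
    rw [t, div_eq_inv_mul, ← eq_inv_of_mul_eq_one_right this]
  exact ⟨h1, h1 ▸ mul_ne_zero (right_ne_zero_of_mul_eq_one this) (σ.r_ne n)⟩

/-- No other point of the cycle stays at bounded distance. -/
def Alone : Prop := ∀ L : ℝ, ∀ᶠ n in (σ.𝒰 : Filter ℕ), ∀ z ∈ (σ.Y n).B,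
    ‖z - σ.p n 0‖ < L * σ.r n → z = σ.p n 0

theorem alone (he : 1 ≤ e) {η : ℝ} (hη : 0 < η)
    (hne : ∀ᶠ n in (σ.𝒰 : Filter ℕ), η ≤ ‖(σ.Y n).ρ - 1‖) : σ.Alone := by
  intro L
  obtain ⟨s, hs, hs1, hs2⟩ : ∃ s > 0, s < η ∧ s ≤ 1 :=
    ⟨min (η / 2) 1, lt_min (half_pos hη) one_pos,
      (min_le_left _ _).trans_lt (half_lt_self hη), min_le_right _ _⟩
  filter_upwards [σ.branches he (34 * |L| / s + 1), hne] with n hn hη' z hz hzL
  obtain ⟨G, hG, hG0⟩ := hn _ le_rfl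
  rw [σ.p_card] at hG0
  have hr := σ.rpos n
  have hR : 0 < (34 * |L| / s + 1) * σ.r n := by positivity
  have hu := hG.univ isOpen_ball
  have hd := hG.mul_deriv isOpen_ball (mem_ball_self hR)
  rw [hG0, (σ.Y n).mult _ (σ.pmem n 0)] at hd
  have hρ := (σ.Y n).rho_ne
  have hn1 : ‖(σ.Y n).ρ‖ * ‖deriv G (σ.p n 0)‖ = 1 := by rw [← norm_mul, hd, norm_one]
  have hn2 : 1 / 2 ≤ ‖deriv G (σ.p n 0)‖ := by
    nlinarith [σ.ρhi n, norm_nonneg (deriv G (σ.p n 0))]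
  have hL : ‖z - σ.p n 0‖ < |L| * σ.r n := hzL.trans_le (by gcongr; exact le_abs_self L)
  have h34 : 34 * |L| ≤ 34 * |L| / s := by
    rw [le_div_iff₀ hs]
    nlinarith [abs_nonneg L]
  obtain ⟨z', hz', hGz⟩ := koebe hR hu (show z ∈ _ by
    rw [mem_ball, dist_eq_norm, hG0]
    refine hL.trans_le ?_
    have : 1 / 2 * ((34 * |L| / s + 1) * σ.r n) ≤
        ‖deriv G (σ.p n 0)‖ * ((34 * |L| / s + 1) * σ.r n) := by gcongr
    nlinarith [abs_nonneg L, mul_le_mul_of_nonneg_right h34 hr.le])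
  have hzz : z' = z := by rw [← hG.inv z' hz', hGz, (σ.Y n).fix z hz]
  rw [hzz] at hGz
  have := lin_val hR hu (z := z) (η := s) (by linarith) (by
    have : s * ((34 * |L| / s + 1) * σ.r n) = (34 * |L| + s) * σ.r n := by field_simp
    nlinarith)
  rw [hGz, hG0] at this
  by_contra hne
  have h0 : 0 < ‖z - σ.p n 0‖ := norm_pos_iff.mpr (sub_ne_zero.mpr hne)
  have h1 : z - σ.p n 0 - deriv G (σ.p n 0) * (z - σ.p n 0) =
      ((σ.Y n).ρ - 1) * deriv G (σ.p n 0) * (z - σ.p n 0) := by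
    linear_combination (-(z - σ.p n 0)) * hd
  rw [h1, norm_mul, norm_mul] at this
  have h2 := le_of_mul_le_mul_right (le_of_mul_le_mul_right this h0) (by linarith)
  linarith

theorem u_diffOn (ha : σ.Alone) (L : ℝ) : ∀ᶠ n in (σ.𝒰 : Filter ℕ),
    DifferentiableOn ℂ (σ.u n) (ball 0 L) := by
  filter_upwards [ha L] with n hn y hy
  refine (σ.u_diff fun h => hn _ h ?_).differentiableWithinAt
  have := σ.A_mem0 (n := n).mpr (mem_ball_zero_iff.mp hy)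
  rwa [mem_ball, dist_eq_norm] at this

theorem u_sphere {s : ℝ} (hs : ∀ x ∈ σ.E, ‖x‖ ≠ s) : ∃ m : ℝ, ∀ᶠ n in (σ.𝒰 : Filter ℕ),
    ∀ y ∈ sphere (0 : ℂ) s, ‖σ.u n y‖ ≤ m := by
  refine (isCompact_sphere (0 : ℂ) s).induction_on
    (p := fun K => ∃ m : ℝ, ∀ᶠ n in (σ.𝒰 : Filter ℕ), ∀ y ∈ K, ‖σ.u n y‖ ≤ m)
    ⟨0, by simp⟩ ?_ ?_ ?_
  · rintro K K' hK ⟨m, hm⟩
    exact ⟨m, hm.mono fun n hn y hy => hn y (hK hy)⟩
  · rintro K K' ⟨m, hm⟩ ⟨m', hm'⟩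
    refine ⟨max m m', ?_⟩
    filter_upwards [hm, hm'] with n h1 h2 y hy
    exact hy.elim (fun h => (h1 y h).trans (le_max_left _ _))
      fun h => (h2 y h).trans (le_max_right _ _)
  · intro x hx
    obtain ⟨ε, hε, m, -, h⟩ := σ.u_bounds x fun h => hs x h (mem_sphere_zero_iff_norm.mp hx)
    exact ⟨ball x ε, mem_nhdsWithin_of_mem_nhds (ball_mem_nhds x hε), m,
      h.mono fun n hn y hy => (hn y hy).2.2⟩

theorem limit (ha : σ.Alone) : ∃ U : ℂ → ℂ, Differentiable ℂ U ∧ ∀ L η : ℝ, 0 < η →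
    ∀ᶠ n in (σ.𝒰 : Filter ℕ), ∀ y ∈ ball (0 : ℂ) L, ‖σ.u n y - U y‖ ≤ η := by
  refine montel σ.𝒰 fun L => ?_
  obtain ⟨s, ⟨h1, h2⟩, hs⟩ := good_radius σ.Enull (lt_add_one (max L 0))
  obtain ⟨m, hm⟩ := σ.u_sphere hs
  refine ⟨m, ?_⟩
  filter_upwards [hm, σ.u_diffOn ha (max L 0 + 1)] with n g1 g2
  refine ⟨g2.mono (ball_subset_ball (by linarith [le_max_left L 0])), fun y hy => ?_⟩
  refine max_disc ((le_max_right _ _).trans_lt h1) h2 g2 (fun y hy => g1 y ?_) y ?_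
  · simpa using hy
  · rw [sub_zero]
    linarith [mem_ball_zero_iff.mp hy, le_max_left L 0]

/-- The charts at the other points of the cycle contain no further point of the cycle. -/
theorem alone' (he : 1 ≤ e) (ha : σ.Alone) (L : ℝ) : ∀ᶠ n in (σ.𝒰 : Filter ℕ), ∀ k ≤ (σ.Y n).B.card,
    σ.t n k ≠ 0 ∧ ∀ y : ℂ, ‖y‖ < L → σ.p n k + σ.t n k * y ∈ (σ.Y n).B →
      σ.p n k + σ.t n k * y = σ.p n k := by
  filter_upwards [σ.branches he (4 * |L| + 1), ha (4 * |L| + 1)] with n h1 h2 k hk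
  obtain ⟨h, hb, h0⟩ := h1 k hk
  have hr := σ.rpos n
  have hR : 0 < (4 * |L| + 1) * σ.r n := by positivity
  obtain ⟨t1, t2⟩ := σ.t_eq hR hb h0
  refine ⟨t2, fun y hy hB => ?_⟩
  obtain ⟨z, hz, hzz⟩ := koebe hR (hb.univ isOpen_ball) (show σ.p n k + σ.t n k * y ∈ _ by
    have h3 : 0 < ‖deriv h (σ.p n 0)‖ :=
      norm_pos_iff.mpr ((hb.univ isOpen_ball).ne _ (mem_ball_self hR))
    rw [mem_ball, dist_eq_norm, h0, add_sub_cancel_left, t1, mul_assoc, norm_mul, σ.norm_r,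
      mul_div_assoc]
    refine mul_lt_mul_of_pos_left ?_ h3
    nlinarith [le_abs_self L])
  have h3 : z ∈ (σ.Y n).B := by
    rw [← hb.inv z hz, hzz]
    exact (σ.Y n).iter_mem hB k
  rw [← hzz, h2 z h3 (by rwa [mem_ball, dist_eq_norm] at hz), h0]

theorem ratio_est {a φ u U : ℂ} {θ₁ θ₂ : ℂ} {s m η : ℝ} (hs : 0 < s) (hs1 : s ≤ 1 / 10)
    (h1 : ‖θ₁ - 1‖ ≤ s) (h2 : ‖θ₂ - 1‖ ≤ s) (ha : ‖1 - a‖ ≤ s) (hu : ‖u‖ ≤ m) (hU : ‖u - U‖ ≤ η)
    (h : φ * θ₂ ^ 2 = a * u * θ₁ ^ 2) : ‖φ - U‖ ≤ 10 * s * m + η := by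
  have n2 : 9 / 10 ≤ ‖θ₂‖ := by
    have := norm_sub_norm_le 1 θ₂
    rw [norm_one, norm_sub_rev] at this
    linarith
  have n1 : ‖θ₁‖ ≤ 11 / 10 := by
    have := norm_sub_norm_le θ₁ 1
    rw [norm_one] at this
    linarith
  have n3 : ‖θ₂‖ ≤ 11 / 10 := by
    have := norm_sub_norm_le θ₂ 1
    rw [norm_one] at this
    linarith
  have k : (φ - u) * θ₂ ^ 2 =
      u * (-(1 - a) * θ₁ ^ 2 + ((θ₁ - 1) - (θ₂ - 1)) * (θ₁ + θ₂)) := by
    linear_combination h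
  have k2 : ‖-(1 - a) * θ₁ ^ 2 + ((θ₁ - 1) - (θ₂ - 1)) * (θ₁ + θ₂)‖ ≤
      s * (11 / 10) ^ 2 + (s + s) * (11 / 10 + 11 / 10) := by
    refine (norm_add_le _ _).trans (add_le_add ?_ ?_)
    · rw [norm_mul, norm_neg, norm_pow]
      gcongr
    · rw [norm_mul]
      gcongr
      · exact (norm_sub_le _ _).trans (add_le_add h1 h2)
      · exact (norm_add_le _ _).trans (add_le_add n1 n3)
  have k3 : ‖φ - u‖ * (9 / 10) ^ 2 ≤ m * (s * (11 / 10) ^ 2 + (s + s) * (11 / 10 + 11 / 10)) := by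
    calc _ ≤ ‖φ - u‖ * ‖θ₂‖ ^ 2 := by gcongr
      _ = _ := by rw [← norm_pow, ← norm_mul, k, norm_mul]
      _ ≤ _ := by
        have := (norm_nonneg _).trans hu
        gcongr
  have hm := (norm_nonneg _).trans hu
  calc ‖φ - U‖ = ‖(φ - u) + (u - U)‖ := by ring_nf
    _ ≤ ‖φ - u‖ + ‖u - U‖ := norm_add_le _ _
    _ ≤ _ := by nlinarith [mul_nonneg hs.le hm]

/-- The same limit is seen from every point of the cycle. -/
theorem limit' (he : 1 ≤ e) (hal : σ.Alone) {U : ℂ → ℂ} (hU : Differentiable ℂ U)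
    (hlim : ∀ L η : ℝ, 0 < η →
    ∀ᶠ n in (σ.𝒰 : Filter ℕ), ∀ y ∈ ball (0 : ℂ) L, ‖σ.u n y - U y‖ ≤ η) (L : ℝ) {η : ℝ}
    (hη : 0 < η) : ∀ᶠ n in (σ.𝒰 : Filter ℕ), ∀ k < (σ.Y n).B.card,
      ∀ y ∈ ball (0 : ℂ) L, ‖σ.v n (k + 1) y - U y‖ ≤ η := by
  obtain ⟨s, ⟨h1, -⟩, hs⟩ := good_radius σ.Enull (lt_add_one (4 * |L|))
  have hs0 : 0 < s := lt_of_le_of_lt (by positivity) h1
  obtain ⟨m, hm⟩ := σ.u_sphere hs
  obtain ⟨δ, hδ, hcont⟩ := Metric.uniformContinuousOn_iff.mp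
    ((isCompact_closedBall (0 : ℂ) s).uniformContinuousOn_of_continuous
      hU.continuous.continuousOn) (η / 3) (by positivity)
  obtain ⟨a, ha, a1, a2, a3⟩ : ∃ a > 0, a ≤ 1 / 10 ∧ 10 * a * |m| ≤ η / 3 ∧ a * s < δ := by
    have c1 : ContinuousAt (fun a : ℝ => 10 * a * |m|) 0 := by fun_prop
    have c2 : ContinuousAt (fun a : ℝ => a * s) 0 := by fun_prop
    have e1 := c1.eventually (gt_mem_nhds (show 10 * (0 : ℝ) * |m| < η / 3 by simpa using hη))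
    have e2 := c2.eventually (gt_mem_nhds (show (0 : ℝ) * s < δ by simpa using hδ))
    have e3 : ∀ᶠ a : ℝ in 𝓝 0, a < 1 / 10 := gt_mem_nhds (by norm_num)
    obtain ⟨a, ⟨g1, g2, g3⟩, g4⟩ :=
      (((e1.and (e2.and e3)).filter_mono nhdsWithin_le_nhds).and
        (self_mem_nhdsWithin (a := (0 : ℝ)) (s := Ioi 0))).exists
    exact ⟨a, g4, g3.le, g1.le, g2⟩
  set R := 34 * s / a with hR
  have hsR : s < R := by
    rw [hR, lt_div_iff₀ ha]
    nlinarith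
  by_contra hc
  rw [← Ultrafilter.eventually_not] at hc
  have hex : ∀ n, ∃ (k : ℕ) (h : ℂ → ℂ) (y : ℂ), ((¬∀ k < (σ.Y n).B.card,
      ∀ y ∈ ball (0 : ℂ) L, ‖σ.v n (k + 1) y - U y‖ ≤ η) ∧ ∀ k ≤ (σ.Y n).B.card,
      ∃ h, Br e (σ.Y n).c k h (ball (σ.p n 0) (R * σ.r n)) ∧ h (σ.p n 0) = σ.p n k) →
      (k < (σ.Y n).B.card ∧ Br e (σ.Y n).c (k + 1) h (ball (σ.p n 0) (R * σ.r n)) ∧
        h (σ.p n 0) = σ.p n (k + 1)) ∧ ‖y‖ < L ∧ η < ‖σ.v n (k + 1) y - U y‖ := by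
    intro n
    by_contra hn
    push Not at hn
    obtain ⟨⟨⟨k, hk, y, hy, g1⟩, g2⟩, -⟩ := hn 0 0 0
    obtain ⟨h, hb, h0⟩ := g2 (k + 1) hk
    exact absurd ((hn k h y).2 ⟨hk, hb, h0⟩ (mem_ball_zero_iff.mp hy)) (not_le.mpr g1)
  choose k h y hx using hex
  have hev := (hc.and (σ.branches he R)).mono hx
  have hα : ∀ᶠ n in (σ.𝒰 : Filter ℕ), ∀ x ∈ sphere (0 : ℂ) s, ‖1 - σ.α n (k n) (h n) x‖ ≤ a := by
    refine ev_compact (isCompact_sphere _ _) fun x hx => ?_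
    have hxs := mem_sphere_zero_iff_norm.mp hx
    obtain ⟨ε, hε, g⟩ := σ.unbranched' he (hev.mono fun n hn => hn.1) x (fun h => hs x h hxs)
      (hxs ▸ hsR)
    exact ⟨ε, hε, g a ha⟩
  obtain ⟨n, ⟨⟨g1, hb, h0⟩, g2, g3⟩, g4, g5, g6, g7⟩ :=
    (hev.and (hα.and (hm.and ((hlim R (η / 3) (by positivity)).and (hal R))))).exists
  have hr := σ.rpos n
  have hR0 : 0 < R * σ.r n := mul_pos (hs0.trans hsR) hr
  have hu := hb.univ isOpen_ball
  obtain ⟨t1, t2⟩ := σ.t_eq hR0 hb h0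
  have hd0 : deriv (h n) (σ.p n 0) ≠ 0 := hu.ne _ (mem_ball_self hR0)
  have h34 : ∀ x : ℂ, ‖x‖ ≤ s → 34 * ‖σ.A n x - σ.p n 0‖ ≤ a * (R * σ.r n) := fun x hx => by
    rw [A, add_sub_cancel_left, σ.norm_r, hR, show a * (34 * s / a * σ.r n) = 34 * (σ.r n * s) by
      field_simp]
    gcongr
  have hval : ∀ x : ℂ, ‖x‖ ≤ s →
      ‖h n (σ.A n x) - σ.p n (k n + 1) - σ.t n (k n + 1) * x‖ ≤ a * (‖σ.t n (k n + 1)‖ * ‖x‖) :=
    fun x hx => by
      have := lin_val hR0 hu (η := a) (by linarith) (h34 x hx)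
      rw [h0, A, add_sub_cancel_left, ← mul_assoc, ← t1, mul_assoc, ← norm_mul, ← mul_assoc, ← t1,
        norm_mul] at this
      exact this
  have hW : ∀ x : ℂ, ‖x - 0‖ ≤ s →
      ‖(σ.Y n).U (σ.p n (k n + 1)) (h n (σ.A n x)) - U x‖ ≤ 10 * a * |m| + η / 3 := by
    refine max_disc hs0 hsR (fun x hx => ?_) fun x hx => ?_
    · have hxA := σ.A_mem0 (n := n).mpr (mem_ball_zero_iff.mp hx)
      refine (DifferentiableAt.sub (((σ.Y n).U_diff fun hB => ?_).comp x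
        ((hb.diff.differentiableAt (isOpen_ball.mem_nhds hxA)).comp x
          (σ.A_deriv n x).differentiableAt)) (hU x)).differentiableWithinAt
      have : σ.A n x ∈ (σ.Y n).B := by
        rw [← hb.inv _ hxA]
        exact (σ.Y n).iter_mem hB _
      change h n (σ.A n x) = _
      rw [g7 _ this (by rwa [mem_ball, dist_eq_norm] at hxA), h0]
    · rw [sub_zero] at hx
      have hx0 : x ≠ 0 := by
        rintro rfl
        simp at hx
        exact hs0.ne hx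
      have hxA := σ.A_mem0 (n := n).mpr (hx ▸ hsR)
      have htx : σ.t n (k n + 1) * x ≠ 0 := mul_ne_zero t2 hx0
      have hz0 := hb.ne_zero he isOpen_ball (by omega) hxA
      have hne : h n (σ.A n x) - σ.p n (k n + 1) ≠ 0 := by
        rw [← h0]
        refine sub_ne_zero.mpr fun h1 => hx0 (σ.A_inj n ?_)
        rw [σ.A_zero]
        exact hu.inj hxA (mem_ball_self hR0) h1
      have hu0 : σ.u n x ≠ 0 := by
        intro h1
        have := g4 x (mem_sphere_zero_iff_norm.mpr hx)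
        change ‖1 - _ / σ.u n x‖ ≤ a at this
        rw [h1, div_zero, sub_zero, norm_one] at this
        linarith
      refine ratio_est (a := σ.α n (k n) (h n) x) (u := σ.u n x)
        (θ₁ := (h n (σ.A n x) - σ.p n (k n + 1)) / (σ.t n (k n + 1) * x))
        (θ₂ := deriv (h n) (σ.A n x) / deriv (h n) (σ.p n 0)) ha a1 ?_ ?_
        (g4 x (mem_sphere_zero_iff_norm.mpr hx))
        ((g5 x (mem_sphere_zero_iff_norm.mpr hx)).trans (le_abs_self m))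
        (g6 x (mem_ball_zero_iff.mpr (hx ▸ hsR))) ?_
      · rw [div_sub_one htx, norm_div, div_le_iff₀ (norm_pos_iff.mpr htx), norm_mul]
        exact hval x hx.le
      · rw [div_sub_one hd0, norm_div, div_le_iff₀ (norm_pos_iff.mpr hd0)]
        exact lin_deriv hR0 hu (by linarith) (h34 x hx.le)
      · have hder : deriv (fun v => fq e (σ.Y n).c (h n v)) (σ.A n x) =
            lam e (h n (σ.A n x)) * deriv (h n) (σ.A n x) :=
          ((fq_deriv _).comp _ (hb.diff.hasDerivAt (isOpen_ball.mem_nhds hxA))).deriv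
        have hl := lam_ne (e := e) hz0
        have hr' := σ.r_ne n
        change _ = _ / σ.u n x * _ * _
        rw [dslope_of_ne _ hx0, dslope_of_ne _ hx0, slope_def_field, slope_def_field, hder,
          σ.A_zero, h0, t1, show σ.A n x - σ.p n 0 = σ.r n * x by simp [A], sub_zero]
        field_simp
  have hs' : 0 < s * σ.r n := mul_pos hs0 hr
  obtain ⟨z, hz, hzz⟩ := koebe hs' (hu.mono (ball_subset_ball (by gcongr)))
    (show σ.p n (k n + 1) + σ.t n (k n + 1) * y n ∈ _ by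
      rw [mem_ball, dist_eq_norm, h0, add_sub_cancel_left, t1, mul_assoc, norm_mul, σ.norm_r,
        mul_div_assoc]
      refine mul_lt_mul_of_pos_left ?_ (norm_pos_iff.mpr hd0)
      nlinarith [le_abs_self L])
  have hz' : σ.A n ((z - σ.p n 0) / σ.r n) = z := by
    have := σ.r_ne n
    simp only [A]
    field_simp
    ring
  set x := (z - σ.p n 0) / σ.r n
  have hxs : ‖x‖ < s := σ.A_mem0.mp (hz'.symm ▸ hz)
  have k1 := hW x (by rw [sub_zero]; exact hxs.le)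
  have k2 := hval x hxs.le
  rw [hz', hzz] at k1 k2
  rw [add_sub_cancel_left, ← mul_sub, norm_mul, mul_left_comm] at k2
  have k3 := le_of_mul_le_mul_left k2 (norm_pos_iff.mpr t2)
  have k4 := hcont x (mem_closedBall_zero_iff.mpr hxs.le) (y n)
    (mem_closedBall_zero_iff.mpr (by linarith [le_abs_self L, abs_nonneg L])) (by
      rw [dist_eq_norm, norm_sub_rev]
      nlinarith)
  rw [dist_eq_norm] at k4
  have k5 := norm_sub_le_norm_sub_add_norm_sub (σ.v n (k n + 1) (y n)) (U x) (U (y n))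
  change ‖σ.v n (k n + 1) (y n) - U x‖ ≤ _ at k1
  linarith

end Setup

end Pool.Agent.MP_28f8a1_an.H42

end

-- part MP_28f8a1_an.H42.Final
section

/-! Counting roots; the period-independent lower bound. -/

set_option autoImplicit false

namespace Pool.Agent.MP_28f8a1_an.H42

open MeasureTheory Metric Set Real Filter Topology Polynomial
open scoped ENNReal

variable {e : ℕ}

namespace Setup

variable (σ : Setup e)

/-- Solutions near every point of `T` in every chart give many different points. -/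
theorem count (he : 1 ≤ e) (ha : σ.Alone) (T : Finset ℂ) {Q : ℕ → ℂ → Prop}
    (h : ∀ x ∈ T, ∀ ε > 0, ∀ᶠ n in (σ.𝒰 : Filter ℕ), ∀ k < (σ.Y n).B.card, ∃ y ∈ ball x ε,
      Q n (σ.p n (k + 1) + σ.t n (k + 1) * y)) :
    ∃ n, ∃ Z : Finset ℂ, Z.card = T.card * (σ.Y n).B.card ∧ ∀ z ∈ Z, Q n z := by
  classical
  obtain ⟨ε, hε, hε1, hsep⟩ : ∃ ε > 0, ε ≤ 1 ∧ ∀ x ∈ T, ∀ x' ∈ T, x ≠ x' → 2 * ε ≤ ‖x - x'‖ := by
    have : ∀ᶠ ε : ℝ in 𝓝 0, ∀ w ∈ T ×ˢ T, w.1 ≠ w.2 → 2 * ε ≤ ‖w.1 - w.2‖ := by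
      refine (Filter.eventually_all_finset _).mpr fun w _ => ?_
      by_cases hw : w.1 = w.2
      · exact Eventually.of_forall fun _ h => absurd hw h
      · have c1 : ContinuousAt (fun a : ℝ => 2 * a) 0 := by fun_prop
        exact (c1.eventually (gt_mem_nhds (show 2 * (0 : ℝ) < ‖w.1 - w.2‖ by
          simpa [sub_eq_zero] using hw))).mono fun a ha _ => ha.le
    obtain ⟨a, ⟨g1, g2⟩, g3⟩ := (((this.and (gt_mem_nhds (zero_lt_one' ℝ))).filter_mono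
      nhdsWithin_le_nhds).and (self_mem_nhdsWithin (a := (0 : ℝ)) (s := Ioi 0))).exists
    exact ⟨a, g3, g2.le, fun x hx x' hx' => g1 (x, x') (Finset.mk_mem_product hx hx')⟩
  obtain ⟨L, hL⟩ := T.finite_toSet.isBounded.subset_ball 0
  obtain ⟨n, g1, g2⟩ := (((Filter.eventually_all_finset T).mpr fun x hx => h x hx ε hε).and
    (σ.alone' he ha (2 * (L + 1)))).exists
  have hex : ∀ w : ℂ × ℕ, ∃ y, w ∈ T ×ˢ Finset.range (σ.Y n).B.card → y ∈ ball w.1 ε ∧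
      Q n (σ.p n (w.2 + 1) + σ.t n (w.2 + 1) * y) := fun w => by
    by_cases hw : w ∈ T ×ˢ Finset.range (σ.Y n).B.card
    · obtain ⟨y, hy⟩ := g1 w.1 (Finset.mem_product.mp hw).1 w.2
        (Finset.mem_range.mp (Finset.mem_product.mp hw).2)
      exact ⟨y, fun _ => hy⟩
    · exact ⟨0, fun h => absurd h hw⟩
  choose y hy using hex
  have hyL : ∀ w ∈ T ×ˢ Finset.range (σ.Y n).B.card, ‖y w‖ < L + 1 := fun w hw => by
    have a1 := (hy w hw).1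
    have a2 := mem_ball_zero_iff.mp (hL (Finset.mem_product.mp hw).1)
    rw [mem_ball, dist_eq_norm] at a1
    linarith [norm_le_norm_add_norm_sub' (y w) w.1]
  have key : ∀ w ∈ T ×ˢ Finset.range (σ.Y n).B.card, ∀ w' ∈ T ×ˢ Finset.range (σ.Y n).B.card,
      ‖σ.t n (w'.2 + 1)‖ ≤ ‖σ.t n (w.2 + 1)‖ →
      σ.p n (w.2 + 1) + σ.t n (w.2 + 1) * y w = σ.p n (w'.2 + 1) + σ.t n (w'.2 + 1) * y w' →
      w = w' := by
    intro w hw w' hw' hle heq
    have k1 := Finset.mem_range.mp (Finset.mem_product.mp hw).2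
    have k2 := Finset.mem_range.mp (Finset.mem_product.mp hw').2
    obtain ⟨t0, ht⟩ := g2 (w.2 + 1) k1
    have h1 : σ.p n (w.2 + 1) + σ.t n (w.2 + 1) *
        (y w - σ.t n (w'.2 + 1) / σ.t n (w.2 + 1) * y w') = σ.p n (w'.2 + 1) := by
      field_simp
      linear_combination heq
    have h2 := ht (y w - σ.t n (w'.2 + 1) / σ.t n (w.2 + 1) * y w') (by
      refine (norm_sub_le _ _).trans_lt ?_
      rw [norm_mul, norm_div]
      have a1 : ‖σ.t n (w'.2 + 1)‖ / ‖σ.t n (w.2 + 1)‖ ≤ 1 := div_le_one_of_le₀ hle (norm_nonneg _)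
      nlinarith [hyL w hw, hyL w' hw', norm_nonneg (y w')]) (h1 ▸ σ.pmem n _)
    rw [h1] at h2
    have h3 : w'.2 = w.2 := σ.pinj n _ k2 _ k1 (by rw [← σ.pstep, h2, σ.pstep])
    rw [h3] at heq
    have h4 := mul_left_cancel₀ t0 (add_left_cancel heq)
    refine Prod.ext ?_ h3.symm
    by_contra hne
    have a1 := hsep _ (Finset.mem_product.mp hw).1 _ (Finset.mem_product.mp hw').1 hne
    have a2 := (hy w hw).1
    have a3 := (hy w' hw').1
    rw [mem_ball, dist_eq_norm] at a2 a3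
    rw [← h4] at a3
    have := norm_sub_le_norm_sub_add_norm_sub w.1 (y w) w'.1
    rw [norm_sub_rev] at a2
    linarith
  refine ⟨n, (T ×ˢ Finset.range (σ.Y n).B.card).image
    fun w => σ.p n (w.2 + 1) + σ.t n (w.2 + 1) * y w, ?_, fun z hz => ?_⟩
  · rw [Finset.card_image_of_injOn, Finset.card_product, Finset.card_range]
    intro w hw w' hw' heq
    rcases le_total ‖σ.t n (w'.2 + 1)‖ ‖σ.t n (w.2 + 1)‖ with hle | hle
    · exact key w hw w' hw' hle heq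
    · exact (key w' hw' w hw hle heq.symm).symm
  · obtain ⟨w, hw, rfl⟩ := Finset.mem_image.mp hz
    exact (hy w hw).2

theorem lim_zero {U : ℂ → ℂ} (hlim : ∀ L η : ℝ, 0 < η →
    ∀ᶠ n in (σ.𝒰 : Filter ℕ), ∀ y ∈ ball (0 : ℂ) L, ‖σ.u n y - U y‖ ≤ η) : U 0 = 1 := by
  refine eq_of_norm_sub_le_zero (le_of_forall_pos_le_add fun η hη => ?_)
  obtain ⟨n, hn⟩ := (hlim 1 η hη).exists
  have := hn 0 (mem_ball_self one_pos)
  rwa [σ.u_zero, norm_sub_rev, ← zero_add η] at this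

theorem sol (he : 1 ≤ e) (ha : σ.Alone) {U : ℂ → ℂ} (hU : Differentiable ℂ U)
    (hlim : ∀ L η : ℝ, 0 < η →
      ∀ᶠ n in (σ.𝒰 : Filter ℕ), ∀ y ∈ ball (0 : ℂ) L, ‖σ.u n y - U y‖ ≤ η) :
    ∀ w : ℂ, w ≠ 4 → ∀ x : ℂ, ∀ ε > 0, ∀ᶠ n in (σ.𝒰 : Filter ℕ), ∀ k < (σ.Y n).B.card,
      (U x = 0 → ∃ y ∈ ball x ε, (σ.Y n).N.eval (σ.p n (k + 1) + σ.t n (k + 1) * y) = 0) ∧
      (Eu U x ^ 2 = w * U x ^ 3 → ∃ y ∈ ball x ε, ((σ.Y n).M ^ 2 - C w * (σ.Y n).N ^ 3).eval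
        (σ.p n (k + 1) + σ.t n (k + 1) * y) = 0) := by
  have hU0 := σ.lim_zero hlim
  intro w hw x ε hε
  obtain ⟨η, hη, h1⟩ := hurwitz hU hU0 hw x (lt_min hε one_pos)
  filter_upwards [σ.limit' he ha hU hlim (‖x‖ + 2) hη, σ.alone' he ha (‖x‖ + 2)] with n g1 g2 k hk
  obtain ⟨-, g3⟩ := g2 (k + 1) hk
  obtain ⟨a1, a2⟩ := h1 (σ.v n (k + 1)) (fun y hy =>
    (((σ.Y n).U_diff (g3 y (mem_ball_zero_iff.mp hy))).comp y
      (by fun_prop)).differentiableWithinAt) (g1 k hk)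
  have hy : ∀ y ∈ ball x (min ε 1), ‖y‖ < ‖x‖ + 2 := fun y hy => by
    rw [mem_ball, dist_eq_norm] at hy
    linarith [norm_le_norm_add_norm_sub' y x, min_le_right ε 1]
  refine ⟨fun h => ?_, fun h => ?_⟩
  · obtain ⟨y, b1, b2⟩ := a1 h
    exact ⟨y, ball_subset_ball (min_le_left _ _) b1,
      ((σ.Y n).chart (σ.pmem n _) (g3 y (hy y b1))).1.mp b2⟩
  · obtain ⟨y, b1, b2⟩ := a2 h
    exact ⟨y, ball_subset_ball (min_le_left _ _) b1,
      (((σ.Y n).chart (σ.pmem n _) (g3 y (hy y b1))).2.2 w).mp b2⟩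

theorem finish (he : 1 ≤ e) (ha : σ.Alone) {U : ℂ → ℂ} (hU : Differentiable ℂ U)
    (hlim : ∀ L η : ℝ, 0 < η →
      ∀ᶠ n in (σ.𝒰 : Filter ℕ), ∀ y ∈ ball (0 : ℂ) L, ‖σ.u n y - U y‖ ≤ η)
    (hne : ∀ x, U x ≠ 0) : False := by
  classical
  have hU0 := σ.lim_zero hlim
  have hsol := σ.sol he ha hU hlim
  have hone := entire_one hU hU0 hne fun w hw T hT => by
    obtain ⟨n, Z, h1, h2⟩ := σ.count he ha T
      (Q := fun n z => ((σ.Y n).M ^ 2 - C w * (σ.Y n).N ^ 3).eval z = 0)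
      (fun x hx ε hε => (hsol w hw x ε hε).mono fun n hn k hk => (hn k hk).2 (hT x hx))
    have := (σ.Y n).W_card hw h2
    rw [h1] at this
    have := lt_of_mul_lt_mul_right this (Nat.zero_le _)
    omega
  obtain ⟨η, hη, h1⟩ := near_one
  obtain ⟨n, g1, g2, g3⟩ := ((hlim 2 η hη).and ((σ.u_diffOn ha 2).and (ha 2))).exists
  obtain ⟨y, hy, h2⟩ := σ.touch n
  obtain ⟨a1, a2, a3⟩ := h1 (σ.u n) g2 (fun y hy => hone y ▸ g1 y hy) y hy
  have hr := σ.rpos n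
  have hB : σ.p n 0 + σ.r n * y ∉ (σ.Y n).B := fun h => by
    have := g3 _ h (by rw [add_sub_cancel_left, σ.norm_r, hy]; linarith)
    rw [add_eq_left, mul_eq_zero] at this
    rcases this with h | h
    · exact σ.r_ne n h
    · simp [h] at hy
  obtain ⟨k1, k2, k3⟩ := (σ.Y n).chart (σ.pmem n 0) (t := σ.r n) (y := y) fun h => absurd h hB
  rcases h2 with h | h | h | h
  · exact hB h
  · exact a1 (k1.mpr h)
  · exact a2 (k2.mpr h)
  · exact a3 (((k3 1).mpr h).trans (one_mul _))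

/-- The case that the multipliers stay away from `1`. -/
theorem case_ne (he : 1 ≤ e) {ρ : ℂ} (hρ : Tendsto (fun n => (σ.Y n).ρ) σ.𝒰 (𝓝 ρ))
    (hρ1 : ρ ≠ 1) : False := by
  classical
  have hη : 0 < ‖ρ - 1‖ := norm_pos_iff.mpr (sub_ne_zero.mpr hρ1)
  have ha := σ.alone he (half_pos hη) (((hρ.sub_const 1).norm.eventually
    (lt_mem_nhds (half_lt_self hη))).mono fun n hn => hn.le)
  obtain ⟨U, hU, hlim⟩ := σ.limit ha
  have hU0 := σ.lim_zero hlim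
  have hsol := σ.sol he ha hU hlim
  refine σ.finish he ha hU hlim ?_
  intro x hx
  have hx0 : x ≠ 0 := by
    rintro rfl
    simp [hU0] at hx
  have hρ0 : ρ ≠ 0 := norm_pos_iff.mp
    (one_half_pos.trans_le (ge_of_tendsto' hρ.norm σ.ρlo))
  have ht : Tendsto (fun n => x / (σ.Y n).ρ) σ.𝒰 (𝓝 (x / ρ)) := tendsto_const_nhds.div hρ hρ0
  have hx' : U (x / ρ) = 0 := by
    refine norm_le_zero_iff.mp (le_of_forall_pos_le_add fun η hη => ?_)
    obtain ⟨n, g1, g2, g3, g4⟩ := ((σ.limit' he ha hU hlim (‖x‖ + 1) (η := η / 3) (by positivity)).and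
      ((hlim (‖x / ρ‖ + 1) (η / 3) (by positivity)).and
        ((ht.norm.eventually (gt_mem_nhds (lt_add_one _))).and
          (((hU.continuous.tendsto _).comp ht).eventually
            (ball_mem_nhds _ (show 0 < η / 3 by positivity)))))).exists
    have hP : 0 < (σ.Y n).B.card := (σ.Y n).ne.card_pos
    have a1 := g1 ((σ.Y n).B.card - 1) (by omega) x (by simp)
    rw [Nat.sub_add_cancel hP, v, t, σ.p_card, (σ.Y n).mult _ (σ.pmem n 0), hx, sub_zero,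
      div_mul_eq_mul_div, mul_div_assoc] at a1
    have a2 := g2 _ (mem_ball_zero_iff.mpr g3)
    rw [dist_eq_norm, norm_sub_rev] at g4
    have a3 := norm_sub_le_norm_sub_add_norm_sub (U (x / ρ)) (U (x / (σ.Y n).ρ))
      (σ.u n (x / (σ.Y n).ρ))
    have a4 := norm_le_norm_add_norm_sub' (U (x / ρ)) (σ.u n (x / (σ.Y n).ρ))
    rw [norm_sub_rev] at a2
    change ‖σ.u n (x / (σ.Y n).ρ)‖ ≤ _ at a1
    change ‖U (x / ρ) - U (x / (σ.Y n).ρ)‖ < _ at g4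
    linarith
  have hxx : x ≠ x / ρ := fun h => hρ1 (by
    field_simp at h
    exact h)
  obtain ⟨n, Z, h1, h2⟩ := σ.count he ha {x, x / ρ} (Q := fun n z => (σ.Y n).N.eval z = 0)
    (fun x' hx'' ε hε => (hsol 0 (by norm_num) x' ε hε).mono fun n hn k hk => (hn k hk).1 (by
      rcases Finset.mem_insert.mp hx'' with rfl | h
      · exact hx
      · rw [Finset.mem_singleton.mp h, hx']))
  rw [Finset.card_pair hxx] at h1
  exact absurd ((σ.Y n).N_card h2) (by omega)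

end Setup

end Pool.Agent.MP_28f8a1_an.H42

end

-- part MP_28f8a1_an.H42.Par
section

/-! The case that the multipliers tend to `1`. -/

set_option autoImplicit false

namespace Pool.Agent.MP_28f8a1_an.H42

open MeasureTheory Metric Set Real Filter Topology Polynomial
open scoped ENNReal

variable {e : ℕ}

theorem Cyc.poly (Y : Cyc e) (hρ : Y.ρ ≠ 1) : ∃ Φ Ψ : ℂ[X],
    (∀ z, Φ.eval z = (fq e Y.c)^[Y.B.card] z - z) ∧
    (∀ z ∉ Y.B, Ψ.eval z = (Φ.eval z / (Y.ρ - 1)) ^ 2 * Y.q z) ∧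
    ∀ z, Ψ.eval z ≠ 0 → Y.N.eval z ≠ 0 ∧ (Φ.eval z = 0 → z ∈ Y.B) := by
  have h1 : ∀ z, ((X ^ (e + 1) + C Y.c : ℂ[X]).comp^[Y.B.card] X - X).eval z =
      (fq e Y.c)^[Y.B.card] z - z := fun z => by
    rw [eval_sub, iterate_comp_eval, eval_X]
    congr 2
    funext x
    simp [fq]
  obtain ⟨H, hH⟩ : Y.D ∣ (X ^ (e + 1) + C Y.c : ℂ[X]).comp^[Y.B.card] X - X := by
    refine Finset.prod_dvd_of_coprime (fun a _ b _ hab => ?_) fun b hb => ?_
    · exact isCoprime_X_sub_C_of_isUnit_sub (sub_ne_zero.mpr hab).isUnit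
    · rw [dvd_iff_isRoot, IsRoot, h1, Y.fix b hb, sub_self]
  have hD : ∀ z ∉ Y.B, Y.D.eval z ≠ 0 := fun z hz => by
    rw [Cyc.D, eval_prod]
    refine Finset.prod_ne_zero_iff.2 fun b hb => ?_
    simp only [eval_sub, eval_X, eval_C, sub_ne_zero]
    rintro rfl
    exact hz hb
  have hτ := sub_ne_zero.mpr hρ
  refine ⟨_, C ((Y.ρ - 1)⁻¹ ^ 2) * H ^ 2 * Y.N, h1, fun z hz => ?_, fun z hz => ?_⟩
  · have := hD z hz
    rw [hH, Y.t1048_q hz]
    simp only [eval_mul, eval_C, eval_pow]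
    field_simp
  · simp only [eval_mul, eval_C, eval_pow] at hz
    refine ⟨right_ne_zero_of_mul hz, fun h => ?_⟩
    by_contra hB
    rw [hH, eval_mul, mul_eq_zero] at h
    rcases h with h | h
    · exact hD z hB h
    · simp [h] at hz

theorem lin_two {h : ℂ → ℂ} {x : ℂ} {R : ℝ} (hR : 0 < R) (hh : Univ h (ball x R)) {z z' : ℂ}
    {η : ℝ} (hη : η < 17) (hz : 34 * ‖z - x‖ ≤ η * R) (hz' : 34 * ‖z' - x‖ ≤ η * R) :
    ‖h z' - h z - deriv h x * (z' - z)‖ ≤ η * ‖deriv h x‖ * ‖z' - z‖ := by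
  have hsub : closedBall x (η * R / 34) ⊆ ball x R := closedBall_subset_ball (by nlinarith)
  have h1 := (convex_closedBall x (η * R / 34)).norm_image_sub_le_of_norm_hasDerivWithin_le
    (f := fun v => h v - deriv h x * v) (f' := fun v => deriv h v - deriv h x)
    (C := η * ‖deriv h x‖) (x := z) (y := z')
    (fun v hv => by
      have := (hh.hasDerivAt isOpen_ball (hsub hv)).sub ((hasDerivAt_id v).const_mul (deriv h x))
      rw [mul_one] at this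
      exact this.hasDerivWithinAt)
    (fun v hv => lin_deriv hR hh hη (by
      rw [mem_closedBall, dist_eq_norm] at hv
      linarith))
    (by rw [mem_closedBall, dist_eq_norm]; linarith) (by rw [mem_closedBall, dist_eq_norm]; linarith)
  rwa [show h z' - deriv h x * z' - (h z - deriv h x * z) = h z' - h z - deriv h x * (z' - z) by
    ring] at h1

theorem small_pos {f : ℝ → ℝ} (hf : ContinuousAt f 0) {c : ℝ} (h : f 0 < c) {b : ℝ} (hb : 0 < b) :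
    ∃ a > 0, a ≤ b ∧ ∀ a' > 0, a' ≤ a → f a' < c := by
  obtain ⟨ε, hε, h1⟩ := Metric.eventually_nhds_iff.mp (hf.eventually (gt_mem_nhds h))
  refine ⟨min b (ε / 2), by positivity, min_le_left _ _, fun a' h2 h3 => h1 ?_⟩
  rw [Real.dist_eq, sub_zero, abs_of_pos h2]
  linarith [min_le_right b (ε / 2)]

theorem deriv_close {f F : ℂ → ℂ} (hf : Differentiable ℂ f) (hF : Differentiable ℂ F) {η : ℝ}
    (h : ∀ y ∈ ball (0 : ℂ) 2, ‖f y - F y‖ ≤ η) : ‖deriv f 0 - deriv F 0‖ ≤ η := by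
  have := Complex.norm_deriv_le_of_forall_mem_sphere_norm_le (c := 0) (R := 1) (C := η)
    (f := fun y => f y - F y) one_pos (hf.sub hF).diffContOnCl
    (fun y hy => h y (sphere_subset_ball (by norm_num) hy))
  rwa [deriv_fun_sub (hf 0) (hF 0), div_one] at this

namespace Setup

variable (σ : Setup e)

theorem unbranched (he : 1 ≤ e) {L : ℝ} {k : ℕ → ℕ} {h : ℕ → ℂ → ℂ}
    (hh : ∀ᶠ n in (σ.𝒰 : Filter ℕ), k n < (σ.Y n).B.card ∧
      Br e (σ.Y n).c (k n + 1) (h n) (ball (σ.p n 0) (L * σ.r n)) ∧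
      h n (σ.p n 0) = σ.p n (k n + 1)) :
    ∀ x ∉ σ.E, ‖x‖ < L → ∃ ε > 0, ∃ C : ℝ, ∀ᶠ n in (σ.𝒰 : Filter ℕ), ∀ y ∈ ball x ε,
      ‖1 - σ.α n (k n) (h n) y‖ ≤ C * ‖(σ.Y n).ρ - 1‖ := by
  intro x hx hxL
  have hL : 0 < L := (norm_nonneg _).trans_lt hxL
  obtain ⟨h1, h2⟩ := σ.unb_est he hL hh
  obtain ⟨C', hC', h4⟩ := σ.rate (7 + 6 * L) (by linarith)
  have hτ : ∀ (n : ℕ) (a : ℂ), ‖(‖(σ.Y n).ρ - 1‖⁻¹ : ℝ) * a‖ = ‖(σ.Y n).ρ - 1‖⁻¹ * ‖a‖ :=
    fun n a => by rw [norm_mul, Complex.norm_real, Real.norm_eq_abs, abs_of_nonneg (by positivity)]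
  obtain ⟨ε, hε, C, hs⟩ := align_bd (l := σ.𝒰)
    (α := fun n y => (‖(σ.Y n).ρ - 1‖⁻¹ : ℝ) * (1 - σ.α n (k n) (h n) y))
    (preconn_diff isOpen_ball (convex_ball (0 : ℂ) L).isPreconnected σ.Ecl σ.Enull)
    (fun x hx => by
      obtain ⟨ε, hε, C, hC, h3⟩ := h1 x hx
      refine ⟨ε, hε, C * C', h3.mono fun n g1 => ⟨g1.1.const_mul _, ?_⟩⟩
      have hτ0 := σ.τ_pos n
      refine (LI_mono (v := fun y => ‖(σ.Y n).ρ - 1‖⁻¹ * (‖1 - σ.α n (k n) (h n) y‖ -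
        (1 - σ.α n (k n) (h n) y).re)) measurableSet_ball fun y _ => ?_).trans ?_
      · rw [hτ, Complex.re_ofReal_mul, ← mul_sub]
      · rw [LI_const_mul _ (by positivity)]
        refine (mul_le_mul_right (g1.2.trans (mul_le_mul_right (h4 n) _)) _).trans_eq ?_
        rw [← ENNReal.ofReal_mul hC, ← ENNReal.ofReal_mul (by positivity)]
        congr 1
        field_simp)
    (x₀ := 0) ⟨mem_ball_self hL, σ.E0⟩ (h2.mono fun n hn => by rw [hn, mul_zero]) x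
    ⟨mem_ball_zero_iff.mpr hxL, hx⟩
  refine ⟨ε, hε, C, hs.mono fun n hn y hy => ?_⟩
  have := hn y hy
  rwa [hτ, inv_mul_le_iff₀ (σ.τ_pos n), mul_comm] at this

/-- The return map. -/
noncomputable def Fr (n : ℕ) : ℂ → ℂ := (fq e (σ.Y n).c)^[(σ.Y n).B.card]

noncomputable def Φ (n : ℕ) : ℂ[X] := ((σ.Y n).poly (σ.ρne n)).choose

noncomputable def Ψ (n : ℕ) : ℂ[X] := ((σ.Y n).poly (σ.ρne n)).choose_spec.choose

theorem Φ_eq (n : ℕ) (z : ℂ) : (σ.Φ n).eval z = σ.Fr n z - z :=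
  ((σ.Y n).poly (σ.ρne n)).choose_spec.choose_spec.1 z

theorem Ψ_eq (n : ℕ) {z : ℂ} (hz : z ∉ (σ.Y n).B) :
    (σ.Ψ n).eval z = ((σ.Fr n z - z) / ((σ.Y n).ρ - 1)) ^ 2 * (σ.Y n).q z :=
  σ.Φ_eq n z ▸ ((σ.Y n).poly (σ.ρne n)).choose_spec.choose_spec.2.1 z hz

theorem Ψ_ne (n : ℕ) {z : ℂ} (hz : (σ.Ψ n).eval z ≠ 0) :
    (σ.Y n).N.eval z ≠ 0 ∧ ((σ.Φ n).eval z = 0 → z ∈ (σ.Y n).B) :=
  ((σ.Y n).poly (σ.ρne n)).choose_spec.choose_spec.2.2 z hz

theorem A_div (n : ℕ) (z : ℂ) : σ.A n ((z - σ.p n 0) / σ.r n) = z := by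
  have := σ.r_ne n
  simp only [A]
  field_simp
  ring

theorem G_deriv {n : ℕ} {G : ℂ → ℂ} {R : ℝ} (hR : 0 < R)
    (hG : Br e (σ.Y n).c (σ.Y n).B.card G (ball (σ.p n 0) R)) (h0 : G (σ.p n 0) = σ.p n 0) :
    deriv G (σ.p n 0) = (σ.Y n).ρ⁻¹ ∧ 1 / 2 ≤ ‖deriv G (σ.p n 0)‖ ∧ ‖deriv G (σ.p n 0)‖ ≤ 2 := by
  have hd := hG.mul_deriv isOpen_ball (mem_ball_self hR)
  rw [h0, (σ.Y n).mult _ (σ.pmem n 0)] at hd
  have hn1 : ‖(σ.Y n).ρ‖ * ‖deriv G (σ.p n 0)‖ = 1 := by rw [← norm_mul, hd, norm_one]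
  refine ⟨eq_inv_of_mul_eq_one_right hd, ?_, ?_⟩ <;>
    nlinarith [σ.ρhi n, σ.ρlo n, norm_nonneg (deriv G (σ.p n 0))]

theorem ret_inv {n : ℕ} {G : ℂ → ℂ} {R s : ℝ} (hs : s ≤ R)
    (hG : Br e (σ.Y n).c (σ.Y n).B.card G (ball (σ.p n 0) (R * σ.r n)))
    (h0 : G (σ.p n 0) = σ.p n 0) {y : ℂ} (hy : 8 * ‖y‖ < s) :
    σ.Fr n (σ.A n y) ∈ ball (σ.p n 0) (s * σ.r n) ∧ G (σ.Fr n (σ.A n y)) = σ.A n y := by
  have hr := σ.rpos n
  have hs0 : 0 < s := lt_of_le_of_lt (by positivity) hy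
  have hsub : ball (σ.p n 0) (s * σ.r n) ⊆ ball (σ.p n 0) (R * σ.r n) :=
    ball_subset_ball (by gcongr)
  obtain ⟨-, h1, -⟩ := σ.G_deriv (mul_pos (hs0.trans_le hs) hr) hG h0
  obtain ⟨z, hz, hzz⟩ := koebe (mul_pos hs0 hr) ((hG.univ isOpen_ball).mono hsub)
    (show σ.A n y ∈ _ by
      rw [mem_ball, dist_eq_norm, h0, A, add_sub_cancel_left, σ.norm_r]
      have : 1 / 2 * (s * σ.r n) ≤ ‖deriv G (σ.p n 0)‖ * (s * σ.r n) := by gcongr
      nlinarith)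
  have : σ.Fr n (σ.A n y) = z := by rw [← hzz, Fr, hG.inv z (hsub hz)]
  rw [this]
  exact ⟨hz, hzz⟩

theorem near_id (he : 1 ≤ e) (hρ : Tendsto (fun n => (σ.Y n).ρ) σ.𝒰 (𝓝 1)) (L : ℝ) {η : ℝ}
    (hη : 0 < η) : ∀ᶠ n in (σ.𝒰 : Filter ℕ), ∀ y ∈ ball (0 : ℂ) L,
      ‖(σ.Fr n (σ.A n y) - σ.A n y) / σ.r n‖ ≤ η := by
  set s := 8 * |L| + 1 with hs
  have hs0 : 0 < s := by positivity
  obtain ⟨a, ha, a1, a2⟩ : ∃ a > 0, a ≤ 1 ∧ 3 * a * s ≤ η :=
    ⟨min 1 (η / (3 * s)), by positivity, min_le_left _ _, by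
      have := (le_div_iff₀ (by positivity)).mp (min_le_right 1 (η / (3 * s)))
      linarith⟩
  have ht : Tendsto (fun n => ‖(σ.Y n).ρ⁻¹ - 1‖) σ.𝒰 (𝓝 0) := by
    simpa using ((hρ.inv₀ one_ne_zero).sub_const 1).norm
  filter_upwards [σ.branches he (34 * s / a), ht.eventually (gt_mem_nhds ha)] with n hn h2 y hy
  obtain ⟨G, hG, h0⟩ := hn _ le_rfl
  rw [σ.p_card] at h0
  have hr := σ.rpos n
  have hR : 0 < 34 * s / a * σ.r n := by positivity
  obtain ⟨d1, -, d3⟩ := σ.G_deriv hR hG h0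
  obtain ⟨h3, h4⟩ := σ.ret_inv (s := s) (by rw [le_div_iff₀ ha]; nlinarith) hG h0 (y := y) (by
    linarith [mem_ball_zero_iff.mp hy, le_abs_self L])
  rw [mem_ball, dist_eq_norm] at h3
  have h5 := lin_val hR (hG.univ isOpen_ball) (η := a) (z := σ.Fr n (σ.A n y)) (by linarith) (by
    rw [show a * (34 * s / a * σ.r n) = 34 * (s * σ.r n) by field_simp]
    linarith)
  rw [h4, h0] at h5
  rw [norm_div, Complex.norm_real, Real.norm_eq_abs, abs_of_pos hr, div_le_iff₀ hr, norm_sub_rev]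
  calc _ = ‖(σ.A n y - σ.p n 0 - deriv G (σ.p n 0) * (σ.Fr n (σ.A n y) - σ.p n 0)) +
        ((σ.Y n).ρ⁻¹ - 1) * (σ.Fr n (σ.A n y) - σ.p n 0)‖ := by rw [d1]; ring_nf
    _ ≤ a * 2 * (s * σ.r n) + a * (s * σ.r n) := by
        refine (norm_add_le _ _).trans (add_le_add (h5.trans ?_) ?_)
        · gcongr
        · rw [norm_mul]
          gcongr
    _ ≤ _ := by nlinarith

theorem α_eq (he : 1 ≤ e) {n k : ℕ} {h : ℂ → ℂ} {R : ℝ}
    (hb : Br e (σ.Y n).c (k + 1) h (ball (σ.p n 0) (R * σ.r n)))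
    (h0 : h (σ.p n 0) = σ.p n (k + 1)) {x : ℂ} (hx0 : x ≠ 0) (hx : ‖x‖ < R) (hu0 : σ.u n x ≠ 0) :
    h (σ.A n x) - σ.p n (k + 1) ≠ 0 ∧
      σ.α n k h x * σ.u n x * (h (σ.A n x) - σ.p n (k + 1)) ^ 2 =
        (σ.Y n).U (σ.p n (k + 1)) (h (σ.A n x)) * (σ.r n * x) ^ 2 * deriv h (σ.A n x) ^ 2 := by
  have hxA := σ.A_mem0 (n := n).mpr hx
  have hR0 : 0 < R * σ.r n := mul_pos ((norm_nonneg _).trans_lt hx) (σ.rpos n)
  have hz0 := hb.ne_zero he isOpen_ball (by omega) hxA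
  have hne : h (σ.A n x) - σ.p n (k + 1) ≠ 0 := by
    rw [← h0]
    refine sub_ne_zero.mpr fun h1 => hx0 (σ.A_inj n ?_)
    rw [σ.A_zero]
    exact (hb.univ isOpen_ball).inj hxA (mem_ball_self hR0) h1
  refine ⟨hne, ?_⟩
  have hder : deriv (fun v => fq e (σ.Y n).c (h v)) (σ.A n x) =
      lam e (h (σ.A n x)) * deriv h (σ.A n x) :=
    ((fq_deriv _).comp _ (hb.diff.hasDerivAt (isOpen_ball.mem_nhds hxA))).deriv
  have hl := lam_ne (e := e) hz0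
  change _ / σ.u n x * _ * _ = _
  rw [dslope_of_ne _ hx0, dslope_of_ne _ hx0, slope_def_field, slope_def_field, hder,
    σ.A_zero, h0, show σ.A n x - σ.p n 0 = σ.r n * x by simp [A], sub_zero]
  field_simp

theorem sphere_B {s : ℝ} (hs : ∀ x ∈ σ.E, ‖x‖ ≠ s) : ∀ᶠ n in (σ.𝒰 : Filter ℕ),
    ∀ y ∈ sphere (0 : ℂ) s, σ.A n y ∈ (σ.Y n).B → σ.A n y = σ.p n 0 :=
  ev_compact (isCompact_sphere _ _) fun x hx => by
    obtain ⟨ε, hε, g⟩ := σ.Eaway x fun h => hs x h (mem_sphere_zero_iff_norm.mp hx)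
    exact ⟨ε, hε, g.mono fun n hn y hy => (hn y hy).1⟩

theorem Fr_diff (n : ℕ) : Differentiable ℂ (σ.Fr n) := iter_diff _

/-- The limit vector field in the chart at the base point. -/
theorem field (he : 1 ≤ e) (hρ : Tendsto (fun n => (σ.Y n).ρ) σ.𝒰 (𝓝 1)) :
    ∃ W V : ℂ → ℂ, Differentiable ℂ W ∧ Differentiable ℂ V ∧ deriv W 0 = 1 ∧ deriv V 0 = 0 ∧
      (∀ L η : ℝ, 0 < η → ∀ᶠ n in (σ.𝒰 : Filter ℕ), ∀ y ∈ ball (0 : ℂ) L,
        ‖(σ.Fr n (σ.A n y) - σ.A n y) / σ.r n / ((σ.Y n).ρ - 1) - W y‖ ≤ η) ∧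
      ∀ L η : ℝ, 0 < η → ∀ᶠ n in (σ.𝒰 : Filter ℕ), ∀ y ∈ ball (0 : ℂ) L,
        ‖(σ.Ψ n).eval (σ.A n y) - V y‖ ≤ η := by
  set h : ℕ → ℂ → ℂ := fun n y => (σ.Fr n (σ.A n y) - σ.A n y) / σ.r n with hh
  have hd : ∀ n y, HasDerivAt (h n) (Pd e (σ.Y n).c (σ.A n y) (σ.Y n).B.card - 1) y :=
    fun n y => by
      have := ((((iter_deriv (e := e) (c := (σ.Y n).c) (σ.Y n).B.card (σ.A n y)).comp y
        (σ.A_deriv n y)).sub (σ.A_deriv n y)).div_const (σ.r n : ℂ))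
      refine this.congr_deriv ?_
      have := σ.r_ne n
      field_simp
  have hA : ∀ n y, σ.A n (y + h n y) = σ.Fr n (σ.A n y) := fun n y => by
    have := σ.r_ne n
    simp only [hh, A]
    field_simp
    ring
  have h0 : ∀ n, h n 0 = 0 := fun n => by
    simp only [hh, σ.A_zero, Fr, (σ.Y n).fix _ (σ.pmem n 0), sub_self, zero_div]
  have h1 : ∀ n, deriv (h n) 0 = (σ.Y n).ρ - 1 := fun n => by
    rw [(hd n 0).deriv, σ.A_zero, (σ.Y n).mult _ (σ.pmem n 0)]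
  have hτ : ∀ n, (σ.Y n).ρ - 1 ≠ 0 := fun n => sub_ne_zero.mpr (σ.ρne n)
  obtain ⟨W, hW, c1⟩ := vector_field_bd σ.𝒰 σ.Ecl σ.Enull σ.E0 (h := h) (u := σ.u) hτ
    (fun n y => (hd n y).differentiableAt) h0 h1 (fun L η hη => σ.near_id he hρ L hη) σ.u_zero
    (fun x hx => by
      obtain ⟨ε₁, hε₁, m, hm, b1⟩ := σ.u_bounds x hx
      set R := 8 * ‖x‖ + 9 with hR
      have hex : ∀ n, ∃ G : ℂ → ℂ, (∀ k ≤ (σ.Y n).B.card, ∃ h,
          Br e (σ.Y n).c k h (ball (σ.p n 0) (R * σ.r n)) ∧ h (σ.p n 0) = σ.p n k) →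
          (σ.Y n).B.card - 1 < (σ.Y n).B.card ∧
            Br e (σ.Y n).c ((σ.Y n).B.card - 1 + 1) G (ball (σ.p n 0) (R * σ.r n)) ∧
            G (σ.p n 0) = σ.p n ((σ.Y n).B.card - 1 + 1) := fun n => by
        have hP := (σ.Y n).ne.card_pos
        by_cases hn : ∀ k ≤ (σ.Y n).B.card, ∃ h,
          Br e (σ.Y n).c k h (ball (σ.p n 0) (R * σ.r n)) ∧ h (σ.p n 0) = σ.p n k
        · obtain ⟨G, hG⟩ := hn ((σ.Y n).B.card - 1 + 1) (by omega)
          exact ⟨G, fun _ => ⟨by omega, hG⟩⟩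
        · exact ⟨0, fun h => absurd h hn⟩
      choose G hG using hex
      have hev := (σ.branches he R).mono hG
      obtain ⟨ε₂, hε₂, C, b2⟩ := σ.unbranched he hev x hx (by linarith [norm_nonneg x])
      obtain ⟨ε, hε, e1, e2, e3⟩ : ∃ ε > 0, 2 * ε ≤ ε₁ ∧ 2 * ε ≤ ε₂ ∧ ε ≤ 1 :=
        ⟨min (min (ε₁ / 2) (ε₂ / 2)) 1, by positivity,
          by linarith [min_le_left (min (ε₁ / 2) (ε₂ / 2)) 1, min_le_left (ε₁ / 2) (ε₂ / 2)],
          by linarith [min_le_left (min (ε₁ / 2) (ε₂ / 2)) 1, min_le_right (ε₁ / 2) (ε₂ / 2)],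
          min_le_right _ _⟩
      refine ⟨ε, hε, m, hm, C, ?_⟩
      filter_upwards [b1, b2, hev, σ.near_id he hρ (‖x‖ + 1) hε] with n g1 g2 ⟨_, g3, g4⟩ g5
      have hsub : ball x ε ⊆ ball x ε₁ := ball_subset_ball (by linarith)
      refine ⟨fun y hy => (σ.u_diff (g1 y (hsub hy)).1).differentiableWithinAt,
        fun y hy => ⟨(g1 y (hsub hy)).2.1, (g1 y (hsub hy)).2.2, fun hy0 => ?_⟩⟩
      have hP := (σ.Y n).ne.card_pos
      have hyx : ‖y - x‖ < ε := by rwa [mem_ball, dist_eq_norm] at hy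
      have hy1 : ‖y‖ < ‖x‖ + 1 := by linarith [norm_le_norm_add_norm_sub' y x]
      have hy2 : ‖y + h n y - x‖ < 2 * ε := by
        have := g5 y (mem_ball_zero_iff.mpr hy1)
        have h2 := norm_add_le (y - x) (h n y)
        rw [show y - x + h n y = y + h n y - x by ring] at h2
        change ‖h n y‖ ≤ ε at this
        linarith
      have hu0 : σ.u n (y + h n y) ≠ 0 := norm_pos_iff.mp ((inv_pos.mpr hm).trans_le
        (g1 _ (by rw [mem_ball, dist_eq_norm]; linarith)).2.1)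
      have g3' := g3
      have g4' := g4
      rw [Nat.sub_add_cancel hP] at g3' g4'
      rw [σ.p_card] at g4'
      obtain ⟨k1, k2⟩ := σ.ret_inv le_rfl g3' g4' (y := y) (by linarith)
      have hy3 : y + h n y ≠ 0 := fun h3 => hy0 (σ.A_inj n (by
        rw [← k2, ← hA, h3, σ.A_zero, g4']))
      obtain ⟨-, k3⟩ := σ.α_eq he g3 g4 hy3 (σ.A_mem0.mp (hA n y ▸ k1)) hu0
      have k4 := g3'.mul_deriv isOpen_ball k1
      rw [Nat.sub_add_cancel hP, σ.p_card, hA, k2, show σ.A n y - σ.p n 0 = σ.r n * y by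
        simp [A]] at k3
      rw [k2] at k4
      refine ⟨_, g2 _ (by rw [mem_ball, dist_eq_norm]; linarith), ?_⟩
      rw [(hd n y).deriv, add_sub_cancel]
      change _ = σ.u n y * _ * _ at k3
      have := σ.r_ne n
      field_simp
      field_simp at k3
      linear_combination (-Pd e (σ.Y n).c (σ.A n y) (σ.Y n).B.card ^ 2) * k3 -
        (σ.u n y * (y + h n y) ^ 2 * (1 + Pd e (σ.Y n).c (σ.A n y) (σ.Y n).B.card *
          deriv (G n) (σ.Fr n (σ.A n y)))) * k4)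
  have dΨ : ∀ n, Differentiable ℂ fun y => (σ.Ψ n).eval (σ.A n y) := fun n y =>
    (σ.Ψ n).differentiableAt.comp y (σ.A_deriv n y).differentiableAt
  obtain ⟨V, hV, c2⟩ := montel σ.𝒰 (u := fun n y => (σ.Ψ n).eval (σ.A n y)) fun L => by
    obtain ⟨s, ⟨s1, s2⟩, hs⟩ := good_radius σ.Enull (lt_add_one (max L 0))
    have hs0 : 0 < s := (le_max_right _ _).trans_lt s1
    obtain ⟨m, hm⟩ := σ.u_sphere hs
    obtain ⟨m', hm'⟩ := (isCompact_sphere (0 : ℂ) s).exists_bound_of_continuousOn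
      hW.continuous.continuousOn
    refine ⟨(m' + 1) ^ 2 * (m / s ^ 2), ?_⟩
    filter_upwards [hm, c1 (s + 1) 1 one_pos, σ.sphere_B hs] with n g1 g2 g3
    refine ⟨(dΨ n).differentiableOn, fun y hy => max_disc (x := 0) hs0 (lt_add_one s)
      (dΨ n).differentiableOn (fun y hy => ?_) y ?_⟩
    · rw [sub_zero] at hy
      have y1 := mem_sphere_zero_iff_norm.mpr hy
      have y3 : y ≠ 0 := norm_pos_iff.mp (hy ▸ hs0)
      have hB : σ.A n y ∉ (σ.Y n).B := fun hB => y3 (σ.A_inj n (by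
        rw [σ.A_zero]
        exact g3 y y1 hB))
      have e1 : (σ.Ψ n).eval (σ.A n y) = (h n y / ((σ.Y n).ρ - 1)) ^ 2 * (σ.u n y / y ^ 2) := by
        rw [σ.Ψ_eq n hB, (σ.Y n).q_eq (σ.pmem n 0) hB,
          show σ.A n y - σ.p n 0 = σ.r n * y by simp [A]]
        change _ = (_ / _ / _) ^ 2 * ((σ.Y n).U _ (σ.A n y) / _)
        have := σ.r_ne n
        field_simp
      have e2 : ‖h n y / ((σ.Y n).ρ - 1)‖ ≤ m' + 1 := by
        linarith [norm_le_norm_add_norm_sub' (h n y / ((σ.Y n).ρ - 1)) (W y), hm' y y1,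
          g2 y (mem_ball_zero_iff.mpr (by linarith))]
      rw [e1, norm_mul, norm_pow, norm_div (σ.u n y), norm_pow, hy]
      have := g1 y y1
      gcongr
    · rw [sub_zero]
      linarith [mem_ball_zero_iff.mp hy, le_max_left L 0]
  refine ⟨W, V, hW, hV, ?_, ?_, c1, c2⟩
  · refine eq_of_norm_sub_le_zero (le_of_forall_pos_le_add fun η hη => ?_)
    obtain ⟨n, hn⟩ := (c1 2 η hη).exists
    have := deriv_close (fun y => (hd n y).differentiableAt.div_const _) hW hn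
    rw [deriv_div_const, h1, div_self (hτ n), norm_sub_rev] at this
    linarith
  · obtain ⟨ε, hε, m, hm, b1⟩ := σ.u_bounds 0 σ.E0
    have ht : Tendsto (fun n => ‖1 - (σ.Y n).ρ‖ * (m / (ε / 2))) σ.𝒰 (𝓝 0) := by
      simpa using ((hρ.const_sub 1).norm.mul_const (m / (ε / 2)))
    refine norm_le_zero_iff.mp (le_of_forall_pos_le_add fun η hη => ?_)
    obtain ⟨n, g1, g2, g3⟩ := ((c2 2 (η / 2) (half_pos hη)).and
      (b1.and (ht.eventually (gt_mem_nhds (half_pos hη))))).exists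
    have k1 := deriv_close (dΨ n) hV g1
    have k2 := Complex.norm_deriv_le_of_forall_mem_sphere_norm_le (c := 0) (R := ε / 2) (C := m)
      (f := σ.u n) (half_pos hε)
      (DifferentiableOn.diffContOnCl_ball (U := ball 0 ε)
        (fun y hy => (σ.u_diff (g2 y hy).1).differentiableWithinAt)
        (closedBall_subset_ball (half_lt_self hε)))
      (fun y hy => (g2 y (sphere_subset_ball (half_lt_self hε) hy)).2.2)
    have k3 : deriv (fun y => (σ.Ψ n).eval (σ.A n y)) 0 = (1 - (σ.Y n).ρ) * deriv (σ.u n) 0 := by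
      have a1 := ((σ.Ψ n).differentiableAt (x := σ.A n 0)).hasDerivAt.comp 0 (σ.A_deriv n 0)
      have a2 := (((σ.Y n).U_diff (b := σ.p n 0) (z := σ.A n 0)
        fun _ => σ.A_zero n).hasDerivAt.comp 0 (σ.A_deriv n 0))
      rw [σ.A_zero] at a1 a2
      refine a1.deriv.trans ?_
      rw [((σ.Y n).psi_at (σ.ρne n) (fun z hz => σ.Ψ_eq n hz) (σ.pmem n 0)).2,
        mul_assoc]
      exact congrArg _ a2.deriv.symm
    have k4 := norm_le_norm_add_norm_sub (deriv (fun y => (σ.Ψ n).eval (σ.A n y)) 0) (deriv V 0)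
    rw [k3, norm_mul] at k4
    rw [k3] at k1
    have : ‖1 - (σ.Y n).ρ‖ * ‖deriv (σ.u n) 0‖ ≤ ‖1 - (σ.Y n).ρ‖ * (m / (ε / 2)) := by gcongr
    linarith

theorem all_α (he : 1 ≤ e) {s R a : ℝ} (hs : ∀ x ∈ σ.E, ‖x‖ ≠ s) (hsR : s < R) (ha : 0 < a) :
    ∀ᶠ n in (σ.𝒰 : Filter ℕ), ∀ k < (σ.Y n).B.card, ∀ h,
      Br e (σ.Y n).c (k + 1) h (ball (σ.p n 0) (R * σ.r n)) → h (σ.p n 0) = σ.p n (k + 1) →
      ∀ x ∈ sphere (0 : ℂ) s, ‖1 - σ.α n k h x‖ ≤ a := by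
  by_contra hc
  rw [← Ultrafilter.eventually_not] at hc
  have hex : ∀ n, ∃ (k : ℕ) (h : ℂ → ℂ), (¬∀ k < (σ.Y n).B.card, ∀ h,
      Br e (σ.Y n).c (k + 1) h (ball (σ.p n 0) (R * σ.r n)) → h (σ.p n 0) = σ.p n (k + 1) →
      ∀ x ∈ sphere (0 : ℂ) s, ‖1 - σ.α n k h x‖ ≤ a) →
      (k < (σ.Y n).B.card ∧ Br e (σ.Y n).c (k + 1) h (ball (σ.p n 0) (R * σ.r n)) ∧
        h (σ.p n 0) = σ.p n (k + 1)) ∧ ¬∀ x ∈ sphere (0 : ℂ) s, ‖1 - σ.α n k h x‖ ≤ a := by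
    intro n
    by_contra hn
    push Not at hn
    obtain ⟨⟨k, hk, h, g1, g2, x, g3, g4⟩, -⟩ := hn 0 0
    exact absurd ((hn k h).2 ⟨hk, g1, g2⟩ x g3) (not_le.mpr g4)
  choose k h hx using hex
  have hev := hc.mono hx
  have hα : ∀ᶠ n in (σ.𝒰 : Filter ℕ), ∀ x ∈ sphere (0 : ℂ) s, ‖1 - σ.α n (k n) (h n) x‖ ≤ a := by
    refine ev_compact (isCompact_sphere _ _) fun x hx => ?_
    have hxs := mem_sphere_zero_iff_norm.mp hx
    obtain ⟨ε, hε, g⟩ := σ.unbranched' he (hev.mono fun n hn => hn.1) x (fun h => hs x h hxs)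
      (hxs ▸ hsR)
    exact ⟨ε, hε, g a ha⟩
  obtain ⟨n, g1, g2⟩ := (hev.and hα).exists
  exact g1.2 g2

/-- Inverse branches commute with the return map. -/
theorem comm {n k : ℕ} {G h : ℂ → ℂ} {R : ℝ}
    (hG : Br e (σ.Y n).c (σ.Y n).B.card G (ball (σ.p n 0) (R * σ.r n)))
    (hG0 : G (σ.p n 0) = σ.p n 0) (hb : Br e (σ.Y n).c k h (ball (σ.p n 0) (R * σ.r n)))
    (h0 : h (σ.p n 0) = σ.p n k) {x : ℂ} (hx : 8 * ‖x‖ < R / 34) :
    σ.Fr n (h (σ.A n x)) = h (σ.Fr n (σ.A n x)) := by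
  have hr := σ.rpos n
  have hR : 0 < R := by linarith [norm_nonneg x]
  have hsub : ball (σ.p n 0) (R / 34 * σ.r n) ⊆ ball (σ.p n 0) (R * σ.r n) :=
    ball_subset_ball (by nlinarith)
  obtain ⟨-, -, d3⟩ := σ.G_deriv (mul_pos hR hr) hG hG0
  have hm : MapsTo G (ball (σ.p n 0) (R / 34 * σ.r n)) (ball (σ.p n 0) (R * σ.r n)) :=
    fun z hz => by
      rw [mem_ball, dist_eq_norm] at hz ⊢
      have := lin_val_le (mul_pos hR hr) (hG.univ isOpen_ball) (z := z) (by linarith)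
      rw [hG0] at this
      nlinarith [norm_nonneg (z - σ.p n 0)]
  have b1 : Br e (σ.Y n).c k (fun z => σ.Fr n (h (G z))) (ball (σ.p n 0) (R / 34 * σ.r n)) :=
    ⟨(σ.Fr_diff n).comp_differentiableOn (hb.diff.comp (hG.diff.mono hsub) hm), fun z hz => by
      rw [Fr, ← Function.iterate_add_apply, add_comm, Function.iterate_add_apply,
        hb.inv _ (hm hz), hG.inv _ (hsub hz)]⟩
  have b2 : Br e (σ.Y n).c k h (ball (σ.p n 0) (R / 34 * σ.r n)) :=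
    ⟨hb.diff.mono hsub, fun z hz => hb.inv z (hsub hz)⟩
  obtain ⟨k1, k2⟩ := σ.ret_inv (s := R / 34) (by linarith) hG hG0 hx
  have := b1.unique b2 (mem_ball_self (by positivity))
    (by rw [hG0, h0, Fr, (σ.Y n).fix _ (σ.pmem n k)]) k1
  simpa only [k2] using this

end Setup

end Pool.Agent.MP_28f8a1_an.H42

end

-- part MP_28f8a1_an.H42.Par2
section

/-! The limit objects are seen from every point of the cycle. -/

set_option autoImplicit false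

namespace Pool.Agent.MP_28f8a1_an.H42

open MeasureTheory Metric Set Real Filter Topology Polynomial
open scoped ENNReal

variable {e : ℕ}

namespace Setup

variable (σ : Setup e)

/-- The same vector field is seen from every point of the cycle. -/
theorem transport (he : 1 ≤ e) (hρ : Tendsto (fun n => (σ.Y n).ρ) σ.𝒰 (𝓝 1)) {W V : ℂ → ℂ}
    (hW : Differentiable ℂ W) (hV : Differentiable ℂ V)
    (c1 : ∀ L η : ℝ, 0 < η → ∀ᶠ n in (σ.𝒰 : Filter ℕ), ∀ y ∈ ball (0 : ℂ) L,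
      ‖(σ.Fr n (σ.A n y) - σ.A n y) / σ.r n / ((σ.Y n).ρ - 1) - W y‖ ≤ η)
    (c2 : ∀ L η : ℝ, 0 < η → ∀ᶠ n in (σ.𝒰 : Filter ℕ), ∀ y ∈ ball (0 : ℂ) L,
      ‖(σ.Ψ n).eval (σ.A n y) - V y‖ ≤ η) (L η : ℝ) (hη : 0 < η) :
    ∀ᶠ n in (σ.𝒰 : Filter ℕ), ∀ k < (σ.Y n).B.card, σ.t n (k + 1) ≠ 0 ∧ ∀ y ∈ ball (0 : ℂ) L,
      ‖(σ.Φ n).eval (σ.p n (k + 1) + σ.t n (k + 1) * y) / (((σ.Y n).ρ - 1) * σ.t n (k + 1)) -
        W y‖ ≤ η ∧ ‖(σ.Ψ n).eval (σ.p n (k + 1) + σ.t n (k + 1) * y) - V y‖ ≤ η := by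
  obtain ⟨s, ⟨h1, -⟩, hs⟩ := good_radius σ.Enull (lt_add_one (4 * |L|))
  have hs0 : 0 < s := lt_of_le_of_lt (by positivity) h1
  have hWV : Continuous fun y => (W y, V y) := hW.continuous.prodMk hV.continuous
  obtain ⟨m, hm⟩ := (isCompact_closedBall (0 : ℂ) s).exists_bound_of_continuousOn hWV.continuousOn
  simp only [Prod.norm_mk, max_le_iff] at hm
  have hm0 : 0 ≤ m := (norm_nonneg _).trans (hm 0 (mem_closedBall_self hs0.le)).1
  obtain ⟨δ, hδ, hcont⟩ := Metric.uniformContinuousOn_iff.mp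
    ((isCompact_closedBall (0 : ℂ) s).uniformContinuousOn_of_continuous hWV.continuousOn)
    (η / 3) (by positivity)
  simp only [Prod.dist_eq, max_lt_iff] at hcont
  simp only [dist_eq_norm] at hcont
  obtain ⟨a, ha, a1, a3, a4⟩ : ∃ a > 0, a ≤ 1 / 10 ∧ a * s < δ ∧ 10 * a * (m + 2) ≤ η / 3 := by
    obtain ⟨a, ha, a1, a2⟩ := small_pos (f := fun a => a * s) (by fun_prop) (c := δ)
      (by simpa using hδ) (b := 1 / 10) (by positivity)
    obtain ⟨a', ha', a3, a4⟩ := small_pos (f := fun a => 10 * a * (m + 2)) (by fun_prop)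
      (c := η / 3) (by simpa using hη) ha
    exact ⟨a', ha', a3.trans a1, a2 a' ha' a3, (a4 a' ha' le_rfl).le⟩
  have ham : 0 ≤ a * m := by positivity
  set R := 34 * (s + 1) / a with hR
  have hsR : 10 * (s + 1) ≤ R / 34 := by
    rw [hR, le_div_iff₀ (by norm_num), le_div_iff₀ ha]
    nlinarith
  filter_upwards [σ.branches he R, σ.all_α he hs (R := R) (by linarith) ha, σ.sphere_B hs,
    c1 (s + 1) a ha, c2 (s + 1) a ha, σ.near_id he hρ (s + 1) one_pos]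
    with n g1 g2 g3 g4 g5 g6 k hk
  obtain ⟨G, hG, hG0⟩ := g1 _ le_rfl
  rw [σ.p_card] at hG0
  obtain ⟨h, hb, h0⟩ := g1 (k + 1) hk
  have hr := σ.rpos n
  have hr' := σ.r_ne n
  have hτ : (σ.Y n).ρ - 1 ≠ 0 := sub_ne_zero.mpr (σ.ρne n)
  have hR0 : 0 < R * σ.r n := mul_pos (by linarith) hr
  have hu := hb.univ isOpen_ball
  obtain ⟨t1, t2⟩ := σ.t_eq hR0 hb h0
  have hd0 : deriv h (σ.p n 0) ≠ 0 := hu.ne _ (mem_ball_self hR0)
  have hRa : a * (R * σ.r n) = 34 * ((s + 1) * σ.r n) := by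
    rw [hR]
    field_simp
  have h34 : ∀ x : ℂ, ‖x‖ ≤ s → 34 * ‖σ.A n x - σ.p n 0‖ ≤ a * (R * σ.r n) := fun x hx => by
    rw [A, add_sub_cancel_left, σ.norm_r, hRa]
    nlinarith
  have hxs1 : ∀ x : ℂ, ‖x‖ ≤ s → x ∈ ball (0 : ℂ) (s + 1) := fun x hx =>
    mem_ball_zero_iff.mpr (by linarith)
  have hval : ∀ x : ℂ, ‖x‖ ≤ s →
      ‖h (σ.A n x) - σ.p n (k + 1) - σ.t n (k + 1) * x‖ ≤ a * (‖σ.t n (k + 1)‖ * ‖x‖) :=
    fun x hx => by
      have := lin_val hR0 hu (η := a) (by linarith) (h34 x hx)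
      rw [h0, A, add_sub_cancel_left, ← mul_assoc, ← t1, mul_assoc, ← norm_mul, ← mul_assoc, ← t1,
        norm_mul] at this
      exact this
  have hdisp : ∀ x : ℂ, ‖x‖ ≤ s → ‖σ.Fr n (h (σ.A n x)) - h (σ.A n x) -
      deriv h (σ.p n 0) * (σ.Fr n (σ.A n x) - σ.A n x)‖ ≤
      a * ‖deriv h (σ.p n 0) * (σ.Fr n (σ.A n x) - σ.A n x)‖ := fun x hx => by
    rw [σ.comm hG hG0 hb h0 (by linarith), norm_mul, ← mul_assoc]
    refine lin_two hR0 hu (by linarith) (h34 x hx) ?_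
    have b1 := g6 x (hxs1 x hx)
    rw [norm_div, Complex.norm_real, Real.norm_eq_abs, abs_of_pos hr, div_le_one hr] at b1
    have b2 := norm_sub_le_norm_sub_add_norm_sub (σ.Fr n (σ.A n x)) (σ.A n x) (σ.p n 0)
    rw [show σ.A n x - σ.p n 0 = σ.r n * x by simp [A], σ.norm_r] at b2
    rw [hRa]
    nlinarith
  have hΨ : ∀ x : ℂ, ‖x - 0‖ ≤ s → 
      ‖(σ.Ψ n).eval (h (σ.A n x)) - V x‖ ≤ 10 * a * (m + 1) + a := by
    refine max_disc hs0 (R := R) (by linarith) (fun x hx => ?_) fun x hx => ?_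
    · have hxA := σ.A_mem0 (n := n).mpr (mem_ball_zero_iff.mp hx)
      exact (((σ.Ψ n).differentiableAt.comp x
        ((hb.diff.differentiableAt (isOpen_ball.mem_nhds hxA)).comp x
          (σ.A_deriv n x).differentiableAt)).sub (hV x)).differentiableWithinAt
    · rw [sub_zero] at hx
      have hx0 : x ≠ 0 := norm_pos_iff.mp (hx ▸ hs0)
      have hxR : ‖x‖ < R := by linarith
      have hxA := σ.A_mem0 (n := n).mpr hxR
      have hB : σ.A n x ∉ (σ.Y n).B := fun hB => hx0 (σ.A_inj n (by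
        rw [σ.A_zero]
        exact g3 x (mem_sphere_zero_iff_norm.mpr hx) hB))
      have hB' : h (σ.A n x) ∉ (σ.Y n).B := fun hB' =>
        hB (hb.inv _ hxA ▸ (σ.Y n).iter_mem hB' _)
      have b1 := g5 x (hxs1 x hx.le)
      have b2 := g2 k hk h hb h0 x (mem_sphere_zero_iff_norm.mpr hx)
      have b3 := σ.Ψ_eq n hB
      rw [(σ.Y n).q_eq (σ.pmem n 0) hB, show σ.A n x - σ.p n 0 = σ.r n * x by simp [A]] at b3
      change _ = _ * (σ.u n x / _) at b3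
      have hu0 : σ.u n x ≠ 0 := by
        intro h1
        change ‖1 - _ / σ.u n x‖ ≤ a at b2
        rw [h1, div_zero, sub_zero, norm_one] at b2
        linarith
      by_cases hF : σ.Fr n (σ.A n x) - σ.A n x = 0
      · have b6 := hdisp x hx.le
        rw [hF, mul_zero, sub_zero, norm_zero, mul_zero, norm_le_zero_iff] at b6
        rw [b3, hF] at b1
        rw [σ.Ψ_eq n hB', b6]
        simp only [zero_div, ne_eq, OfNat.ofNat_ne_zero, not_false_eq_true, zero_pow,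
          zero_mul] at b1 ⊢
        nlinarith
      obtain ⟨b4, b5⟩ := σ.α_eq he hb h0 hx0 hxR hu0
      have hdF := mul_ne_zero hd0 hF
      refine ratio_est (a := σ.α n k h x) (u := (σ.Ψ n).eval (σ.A n x))
        (θ₁ := (σ.Fr n (h (σ.A n x)) - h (σ.A n x)) /
          (deriv h (σ.p n 0) * (σ.Fr n (σ.A n x) - σ.A n x)))
        (θ₂ := deriv h (σ.A n x) / deriv h (σ.p n 0)) ha a1 ?_ ?_
        b2 ?_ b1 ?_
      · rw [div_sub_one hdF, norm_div, div_le_iff₀ (norm_pos_iff.mpr hdF)]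
        exact hdisp x hx.le
      · rw [div_sub_one hd0, norm_div, div_le_iff₀ (norm_pos_iff.mpr hd0)]
        exact lin_deriv hR0 hu (by linarith) (h34 x hx.le)
      · linarith [norm_sub_norm_le ((σ.Ψ n).eval (σ.A n x)) (V x),
          (hm x (mem_closedBall_zero_iff.mpr hx.le)).2]
      · rw [b3, σ.Ψ_eq n hB', (σ.Y n).q_eq (σ.pmem n (k + 1)) hB']
        field_simp
        linear_combination (-(σ.Fr n (h (σ.A n x)) - h (σ.A n x)) ^ 2) * b5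
  refine ⟨t2, fun y hy => ?_⟩
  have hyL := mem_ball_zero_iff.mp hy
  obtain ⟨z, hz, hzz⟩ := koebe (mul_pos hs0 hr)
    (hu.mono (ball_subset_ball (mul_le_mul_of_nonneg_right (show s ≤ R by linarith) hr.le)))
    (show σ.p n (k + 1) + σ.t n (k + 1) * y ∈ _ by
      rw [mem_ball, dist_eq_norm, h0, add_sub_cancel_left, t1, mul_assoc, norm_mul, σ.norm_r,
        mul_div_assoc]
      refine mul_lt_mul_of_pos_left ?_ (norm_pos_iff.mpr hd0)
      nlinarith [le_abs_self L])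
  have hz' := σ.A_div n z
  set x := (z - σ.p n 0) / σ.r n
  have hxs : ‖x‖ < s := σ.A_mem0.mp (hz'.symm ▸ hz)
  have k1 := hΨ x (by rw [sub_zero]; exact hxs.le)
  have k2 := hval x hxs.le
  have k6 := hdisp x hxs.le
  have k7 := g4 x (hxs1 x hxs.le)
  rw [hz'] at k1 k2 k6 k7
  rw [hzz] at k1 k2 k6
  rw [add_sub_cancel_left, ← mul_sub, norm_mul, mul_left_comm] at k2
  have k3 := le_of_mul_le_mul_left k2 (norm_pos_iff.mpr t2)
  obtain ⟨k4, k5⟩ := hcont x (mem_closedBall_zero_iff.mpr hxs.le) y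
    (mem_closedBall_zero_iff.mpr (by linarith [le_abs_self L, abs_nonneg L])) (by
      rw [norm_sub_rev]
      nlinarith)
  refine ⟨?_, (norm_sub_le_norm_sub_add_norm_sub _ (V x) _).trans (by linarith)⟩
  rw [σ.Φ_eq]
  set v := σ.Fr n (σ.p n (k + 1) + σ.t n (k + 1) * y) - (σ.p n (k + 1) + σ.t n (k + 1) * y)
  set w := (σ.Fr n z - z) / σ.r n / ((σ.Y n).ρ - 1) with hw
  have k8 : ‖v / (((σ.Y n).ρ - 1) * σ.t n (k + 1)) - w‖ ≤ a * ‖w‖ := by
    have hτt := mul_ne_zero hτ t2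
    have e1 : deriv h (σ.p n 0) * (σ.Fr n z - z) = w * (((σ.Y n).ρ - 1) * σ.t n (k + 1)) := by
      rw [hw, t1]
      field_simp
    rw [e1, norm_mul, ← mul_assoc a] at k6
    rwa [div_sub' hτt, norm_div, div_le_iff₀ (norm_pos_iff.mpr hτt),
      mul_comm (((σ.Y n).ρ - 1) * σ.t n (k + 1)) w]
  have k9 : ‖w‖ ≤ m + 1 := by
    linarith [norm_le_norm_add_norm_sub' w (W x), (hm x (mem_closedBall_zero_iff.mpr hxs.le)).1]
  have k10 := norm_sub_le_norm_sub_add_norm_sub (v / (((σ.Y n).ρ - 1) * σ.t n (k + 1))) w (W y)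
  have k11 := norm_sub_le_norm_sub_add_norm_sub w (W x) (W y)
  nlinarith

theorem t_zero (n : ℕ) : σ.t n 0 = σ.r n := by rw [t, Pd_zero, div_one]

theorem p_surj (n : ℕ) {z : ℂ} (hz : z ∈ (σ.Y n).B) : ∃ k < (σ.Y n).B.card, σ.p n k = z := by
  obtain ⟨k, hk, h⟩ := Finset.surj_on_of_inj_on_of_card_le (s := Finset.range (σ.Y n).B.card)
    (t := (σ.Y n).B) (fun k _ => σ.p n k) (fun k _ => σ.pmem n _)
    (fun i j hi hj h => σ.pinj n i (Finset.mem_range.mp hi) j (Finset.mem_range.mp hj) h)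
    (by simp) z hz
  exact ⟨k, Finset.mem_range.mp hk, h.symm⟩

theorem not_B (n : ℕ) {z : ℂ} : (∀ k < (σ.Y n).B.card, σ.p n k ≠ z) ↔ z ∉ (σ.Y n).B :=
  ⟨fun h hz => (σ.p_surj n hz).elim fun k hk => h k hk.1 hk.2,
    fun h k _ hk => h (hk ▸ σ.pmem n k)⟩

/-- The family of charts along the cycle. -/
noncomputable def fam (he : 1 ≤ e) (hρ : Tendsto (fun n => (σ.Y n).ρ) σ.𝒰 (𝓝 1)) {W V : ℂ → ℂ}
    (hW : Differentiable ℂ W) (hV : Differentiable ℂ V) (h1 : deriv W 0 = 1)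
    (c1 : ∀ L η : ℝ, 0 < η → ∀ᶠ n in (σ.𝒰 : Filter ℕ), ∀ y ∈ ball (0 : ℂ) L,
      ‖(σ.Fr n (σ.A n y) - σ.A n y) / σ.r n / ((σ.Y n).ρ - 1) - W y‖ ≤ η)
    (c2 : ∀ L η : ℝ, 0 < η → ∀ᶠ n in (σ.𝒰 : Filter ℕ), ∀ y ∈ ball (0 : ℂ) L,
      ‖(σ.Ψ n).eval (σ.A n y) - V y‖ ≤ η) : Fam where
  𝒰 := σ.𝒰
  P := fun n => (σ.Y n).B.card
  b := σ.p
  t := σ.t
  Φ := σ.Φ
  Ψ := σ.Ψ
  τ := fun n => (σ.Y n).ρ - 1
  q := fun n => (σ.Y n).q
  W := W
  V := V
  hP := fun n => (σ.Y n).ne.card_pos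
  hτ := fun n => sub_ne_zero.mpr (σ.ρne n)
  hb := fun n k _ => ⟨by rw [σ.Φ_eq, Fr, (σ.Y n).fix _ (σ.pmem n _), sub_self],
    ((σ.Y n).psi_at (σ.ρne n) (fun z hz => σ.Ψ_eq n hz) (σ.pmem n k)).1⟩
  hinj := σ.pinj
  hz := fun n z h h' => σ.p_surj n ((σ.Ψ_ne n h).2 h')
  hq := fun n z h => ⟨(σ.Y n).q_diff ((σ.not_B n).mp h), by
    rw [σ.Φ_eq, σ.Ψ_eq n ((σ.not_B n).mp h)]⟩
  cnt0 := fun n T h => (σ.Y n).q_cnt.1 T fun z hz => ⟨(σ.not_B n).mp (h z hz).1, (h z hz).2⟩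
  cnt1 := fun n w hw T h =>
    (σ.Y n).q_cnt.2 w hw T fun z hz => ⟨(σ.not_B n).mp (h z hz).1, (h z hz).2⟩
  hW := hW
  hV := hV
  W1 := h1
  hc := fun L η hη => by
    filter_upwards [σ.transport he hρ hW hV c1 c2 L η hη, c1 L η hη, c2 L η hη]
      with n g1 g2 g3 k hk
    rcases k with _ | k
    · rw [σ.t_zero]
      refine ⟨σ.r_ne n, fun y hy => ⟨?_, g3 y hy⟩⟩
      rw [σ.Φ_eq, mul_comm ((σ.Y n).ρ - 1), ← div_div]
      exact g2 y hy
    · exact g1 k (by omega)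

theorem r_small (he : 1 ≤ e) (L : ℝ) : ∀ᶠ n in (σ.𝒰 : Filter ℕ), L * σ.r n ≤ 4 := by
  filter_upwards [σ.branches he (3 * L)] with n hn
  obtain ⟨h, hb, -⟩ := hn 1 (σ.Y n).ne.card_pos
  by_contra hc
  have hm : (σ.Y n).c ∈ ball (σ.p n 0) (3 * L * σ.r n) := by
    rw [mem_ball, dist_eq_norm]
    linarith [norm_sub_le (σ.Y n).c (σ.p n 0), σ.cle n, σ.ble n]
  have h1 := hb.inv _ hm
  rw [Function.iterate_one, fq, add_eq_right] at h1
  exact pow_ne_zero _ (hb.ne_zero he isOpen_ball one_pos hm) h1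

end Setup

end Pool.Agent.MP_28f8a1_an.H42

end

-- part MP_28f8a1_an.H42.Par3
section

/-! The Lie derivative of the limit differential is almost a positive multiple of it. -/

set_option autoImplicit false

namespace Pool.Agent.MP_28f8a1_an.H42

open MeasureTheory Metric Set Real Filter Topology Polynomial
open scoped ENNReal

variable {e : ℕ}

theorem ofReal_sum_le (s : Finset ℕ) (f : ℕ → ℝ) :
    ENNReal.ofReal (∑ i ∈ s, f i) ≤ ∑ i ∈ s, ENNReal.ofReal (f i) := by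
  induction s using Finset.induction_on with
  | empty => simp
  | insert a s ha ih =>
    rw [Finset.sum_insert ha, Finset.sum_insert ha]
    exact ENNReal.ofReal_add_le.trans (add_le_add le_rfl ih)

namespace Setup

variable (σ : Setup e)

theorem q_chart {n : ℕ} {y : ℂ} (hB : σ.A n y ∉ (σ.Y n).B) :
    y ≠ 0 ∧ σ.u n y = y ^ 2 * (σ.r n ^ 2 * (σ.Y n).q (σ.A n y)) := by
  have hy : y ≠ 0 := by
    rintro rfl
    exact hB (σ.A_zero n ▸ σ.pmem n 0)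
  refine ⟨hy, ?_⟩
  rw [(σ.Y n).q_eq (σ.pmem n 0) hB, show σ.A n y - σ.p n 0 = σ.r n * y by simp [A]]
  change (σ.Y n).U _ (σ.A n y) = _
  have := σ.r_ne n
  field_simp

theorem β_lim (he : 1 ≤ e) (hρ : Tendsto (fun n => (σ.Y n).ρ) σ.𝒰 (𝓝 1)) {W R : ℂ → ℂ}
    (hW : Differentiable ℂ W)
    (c1 : ∀ L η : ℝ, 0 < η → ∀ᶠ n in (σ.𝒰 : Filter ℕ), ∀ y ∈ ball (0 : ℂ) L,
      ‖(σ.Fr n (σ.A n y) - σ.A n y) / σ.r n / ((σ.Y n).ρ - 1) - W y‖ ≤ η)
    {x : ℂ} {ε L : ℝ} (hε : 0 < ε) (hR : DifferentiableOn ℂ R (ball x ε)) (hx : R x ≠ 0)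
    (hc : ∀ η > 0, ∀ᶠ n in (σ.𝒰 : Filter ℕ), ∀ y ∈ ball x ε, σ.A n y ∉ (σ.Y n).B ∧
      ‖σ.r n ^ 2 * (σ.Y n).q (σ.A n y) - R y‖ ≤ η) (hL : 34 * ‖x‖ < L) {G : ℕ → ℂ → ℂ}
    (hG : ∀ᶠ n in (σ.𝒰 : Filter ℕ),
      Br e (σ.Y n).c ((σ.Y n).B.card - 1 + 1) (G n) (ball (σ.p n 0) (L * σ.r n)) ∧
      G n (σ.p n 0) = σ.p n ((σ.Y n).B.card - 1 + 1)) :
    Tendsto (fun n => (1 - σ.α n ((σ.Y n).B.card - 1) (G n) x) / ((σ.Y n).ρ - 1)) σ.𝒰
      (𝓝 (2 * deriv W x + W x * deriv R x / R x)) := by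
  set w : ℕ → ℂ → ℂ := fun n y => (σ.Fr n (σ.A n y) - σ.A n y) / σ.r n / ((σ.Y n).ρ - 1) with hw
  set y : ℕ → ℂ := fun n => (G n (σ.A n x) - σ.p n 0) / σ.r n with hy
  have hτ : ∀ n, (σ.Y n).ρ - 1 ≠ 0 := fun n => sub_ne_zero.mpr (σ.ρne n)
  have hd : ∀ n v, HasDerivAt (w n)
      ((Pd e (σ.Y n).c (σ.A n v) (σ.Y n).B.card - 1) / ((σ.Y n).ρ - 1)) v := fun n v => by
    have := ((((iter_deriv (e := e) (c := (σ.Y n).c) (σ.Y n).B.card (σ.A n v)).comp v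
      (σ.A_deriv n v)).sub (σ.A_deriv n v)).div_const (σ.r n : ℂ)).div_const ((σ.Y n).ρ - 1)
    refine this.congr_deriv ?_
    have := σ.r_ne n
    field_simp
  have hxL : ‖x‖ < L := by linarith [norm_nonneg x]
  have h1 : ∀ᶠ n in (σ.𝒰 : Filter ℕ), σ.Fr n (σ.A n (y n)) = σ.A n x ∧ ‖y n‖ ≤ 4 * ‖x‖ ∧
      Pd e (σ.Y n).c (σ.A n (y n)) (σ.Y n).B.card * deriv (G n) (σ.A n x) = 1 := by
    filter_upwards [hG] with n ⟨g1, g2⟩
    rw [Nat.sub_add_cancel (σ.Y n).ne.card_pos] at g1 g2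
    rw [σ.p_card] at g2
    have hr := σ.rpos n
    have hR0 : 0 < L * σ.r n := mul_pos ((norm_nonneg _).trans_lt hxL) hr
    have hxA := σ.A_mem0 (n := n).mpr hxL
    have e1 : σ.A n x - σ.p n 0 = σ.r n * x := by simp [A]
    rw [hy, σ.A_div]
    refine ⟨g1.inv _ hxA, ?_, g1.mul_deriv isOpen_ball hxA⟩
    have := lin_val_le hR0 (g1.univ isOpen_ball) (z := σ.A n x) (by
      rw [e1, σ.norm_r]
      nlinarith)
    rw [g2, e1, σ.norm_r] at this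
    rw [norm_div, Complex.norm_real, Real.norm_eq_abs, abs_of_pos hr, div_le_iff₀ hr]
    nlinarith [(σ.G_deriv hR0 g1 g2).2.2, mul_nonneg hr.le (norm_nonneg x)]
  have h2 : ∀ n, σ.Fr n (σ.A n (y n)) = σ.A n x →
      (σ.Fr n (σ.A n (y n)) - σ.A n (y n)) / σ.r n = x - y n := fun n h => by
    have := σ.r_ne n
    rw [h]
    simp only [A]
    field_simp
    ring
  have hyx : Tendsto y σ.𝒰 (𝓝 x) := by
    refine Metric.tendsto_nhds.mpr fun η hη => ?_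
    filter_upwards [h1, σ.near_id he hρ (4 * ‖x‖ + 1) (half_pos hη)] with n g1 g2
    have := g2 (y n) (mem_ball_zero_iff.mpr (by linarith [g1.2.1]))
    rw [h2 n g1.1] at this
    rw [dist_eq_norm, norm_sub_rev]
    linarith
  have hl := lie_limit (l := σ.𝒰) (Q := fun n v => σ.r n ^ 2 * (σ.Y n).q (σ.A n v)) (w := w)
    (τ := fun n => (σ.Y n).ρ - 1) hε hR hW.differentiableOn hx
    (by simpa using hρ.sub_const 1) hyx (by
      filter_upwards [h1, hc 1 one_pos] with n g1 g2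
      refine ⟨hτ n, fun v hv => ((((σ.Y n).q_diff (g2 v hv).1).comp v
        (σ.A_deriv n v).differentiableAt).const_mul _).differentiableWithinAt,
        fun v _ => (hd n v).differentiableAt.differentiableWithinAt, ?_⟩
      simp only [hw]
      rw [h2 n g1.1, mul_div_cancel₀ _ (hτ n), add_sub_cancel])
    (fun η hη => by
      filter_upwards [hc η hη, c1 (‖x‖ + ε) η hη] with n g1 g2 v hv
      refine ⟨(g1 v hv).2, g2 v ?_⟩
      rw [mem_ball, dist_eq_norm] at hv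
      rw [mem_ball_zero_iff]
      linarith [norm_le_norm_add_norm_sub' v x])
  refine hl.congr' ?_
  filter_upwards [h1, hG, hc (‖R x‖ / 2) (by positivity), hyx.eventually (ball_mem_nhds x hε)]
    with n ⟨g1, _, g3⟩ ⟨g4, g5⟩ g6 g7
  obtain ⟨a1, a2⟩ := σ.q_chart (g6 x (mem_ball_self hε)).1
  obtain ⟨a3, a4⟩ := σ.q_chart (g6 _ g7).1
  have a5 : (σ.r n : ℂ) ^ 2 * (σ.Y n).q (σ.A n x) ≠ 0 := fun h => by
    have := (g6 x (mem_ball_self hε)).2
    rw [h, zero_sub, norm_neg] at this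
    linarith [norm_pos_iff.mpr hx]
  obtain ⟨-, a6⟩ := σ.α_eq he g4 g5 a1 hxL (a2 ▸ mul_ne_zero (pow_ne_zero _ a1) a5)
  have a7 : G n (σ.A n x) = σ.A n (y n) := (σ.A_div n _).symm
  rw [Nat.sub_add_cancel (σ.Y n).ne.card_pos, σ.p_card, a7,
    show σ.A n (y n) - σ.p n 0 = σ.r n * y n by simp [A]] at a6
  change _ = σ.u n (y n) * _ * _ at a6
  rw [a2, a4] at a6
  rw [(hd n _).deriv, mul_div_cancel₀ _ (hτ n), add_sub_cancel]
  congr 2
  have a8 := left_ne_zero_of_mul_eq_one g3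
  have hr := σ.r_ne n
  rw [div_eq_iff (mul_ne_zero a5 (pow_ne_zero _ a8))]
  refine mul_left_cancel₀ (mul_ne_zero (pow_ne_zero 2 a1) (pow_ne_zero 2 (mul_ne_zero hr a3))) ?_
  linear_combination (-Pd e (σ.Y n).c (σ.A n (y n)) (σ.Y n).B.card ^ 2) * a6 -
    (x ^ 2 * (σ.r n * y n) ^ 2 * (σ.r n ^ 2 * (σ.Y n).q (σ.A n (y n))) *
      (1 + Pd e (σ.Y n).c (σ.A n (y n)) (σ.Y n).B.card * deriv (G n) (σ.A n x))) * g3

/-- The error along the whole cycle over a set with bounded multiplicity. -/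
theorem err_mult (he : 1 ≤ e) {n K : ℕ} {S X : Set ℂ} {L a : ℝ} (ha : 0 < a) (ha1 : a ≤ 1)
    (hL : 0 < L) (hX : X ⊆ ball 0 L) (hS : thickening (a * L) X ⊆ S)
    (hm : ∀ (v : ℂ) (J : Finset ℕ), (∀ k ∈ J, k < (σ.Y n).B.card ∧ ∃ y ∈ S, ‖y‖ < 2 * L ∧
      σ.p n k + σ.t n k * y = v) → J.card ≤ K) (hr4 : 34 * L / a * σ.r n ≤ 4) {h : ℂ → ℂ}
    (hb : Br e (σ.Y n).c ((σ.Y n).B.card - 1) h (ball (σ.p n 0) (34 * L / a * σ.r n)))
    (h0 : h (σ.p n 0) = σ.p n ((σ.Y n).B.card - 1)) {Z : Set ℂ} (hZ : MeasurableSet Z)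
    (hZX : ∀ z ∈ Z, ∃ y ∈ X, σ.A n y = z) :
    LI Z ((σ.Y n).Err ((σ.Y n).B.card - 1) h) ≤ K * LI (ball 0 7) (σ.Y n).err := by
  have hr := σ.rpos n
  have hP := (σ.Y n).ne.card_pos
  have hLR : L ≤ 34 * L / a := by
    rw [le_div_iff₀ ha]
    nlinarith
  have hR0 : 0 < 34 * L / a * σ.r n := by positivity
  refine LI_Err' he (σ.Y n) (σ.cle n) (by linarith [σ.ble n]) hb hZ (fun z hz => ?_)
    fun v J hJ => ?_
  · obtain ⟨y, hy, rfl⟩ := hZX z hz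
    exact σ.A_mem0.mpr ((mem_ball_zero_iff.mp (hX hy)).trans_le hLR)
  rw [← Finset.card_image_of_injOn (f := fun j => (σ.Y n).B.card - 1 - j) fun i hi j hj hij => by
    have := (hJ i hi).1
    have := (hJ j hj).1
    simp only at hij
    omega]
  refine hm v _ fun k hk => ?_
  obtain ⟨j, hj, rfl⟩ := Finset.mem_image.mp hk
  obtain ⟨j1, z, hz, hv⟩ := hJ j hj
  obtain ⟨y, hy, rfl⟩ := hZX z hz
  have hyL := mem_ball_zero_iff.mp (hX hy)
  have b1 := hb.iter j1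
  have b2 : (fq e (σ.Y n).c)^[j] (h (σ.p n 0)) = σ.p n ((σ.Y n).B.card - 1 - j) := by
    rw [h0, ← σ.p_iter n j ((σ.Y n).B.card - 1 - j), Nat.sub_add_cancel j1]
  obtain ⟨t1, t2⟩ := σ.t_eq hR0 b1 b2
  have b3 := lin_val hR0 (b1.univ isOpen_ball) (η := a) (z := σ.A n y) (by linarith) (by
    rw [A, add_sub_cancel_left, σ.norm_r, show a * (34 * L / a * σ.r n) = 34 * (σ.r n * L) by
      field_simp]
    gcongr)
  rw [hv, b2, A, add_sub_cancel_left, ← mul_assoc, ← t1, mul_assoc, ← norm_mul, ← mul_assoc, ← t1,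
    norm_mul] at b3
  set k := (σ.Y n).B.card - 1 - j
  have b4 : ‖(v - σ.p n k) / σ.t n k - y‖ < a * L := by
    rw [div_sub' t2, norm_div, div_lt_iff₀ (norm_pos_iff.mpr t2)]
    refine b3.trans_lt ?_
    rw [mul_assoc, mul_comm L]
    have := norm_pos_iff.mpr t2
    gcongr
  refine ⟨by omega, (v - σ.p n k) / σ.t n k,
    hS (mem_thickening_iff.mpr ⟨y, hy, by rwa [dist_eq_norm]⟩), ?_, by field_simp; ring⟩
  nlinarith [norm_le_norm_add_norm_sub' ((v - σ.p n k) / σ.t n k) y]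

theorem star (he : 1 ≤ e) (hρ : Tendsto (fun n => (σ.Y n).ρ) σ.𝒰 (𝓝 1)) {W V : ℂ → ℂ}
    (hW : Differentiable ℂ W) (hV : Differentiable ℂ V) (h1 : deriv W 0 = 1)
    (c1 : ∀ L η : ℝ, 0 < η → ∀ᶠ n in (σ.𝒰 : Filter ℕ), ∀ y ∈ ball (0 : ℂ) L,
      ‖(σ.Fr n (σ.A n y) - σ.A n y) / σ.r n / ((σ.Y n).ρ - 1) - W y‖ ≤ η)
    (c2 : ∀ L η : ℝ, 0 < η → ∀ᶠ n in (σ.𝒰 : Filter ℕ), ∀ y ∈ ball (0 : ℂ) L,
      ‖(σ.Ψ n).eval (σ.A n y) - V y‖ ≤ η) {u : ℂ}
    (hu : Tendsto (fun n => ((σ.Y n).ρ - 1) * (‖(σ.Y n).ρ - 1‖⁻¹ : ℝ)) σ.𝒰 (𝓝 u))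
    (R : ℂ → ℂ) (K : ℕ) (S : Set ℂ) (hT : Trio W V R) (hl : (σ.fam he hρ hW hV h1 c1 c2).Lim R)
    (hS : IsOpen S) (hm : (σ.fam he hρ hW hV h1 c1 c2).Mult K S) : Star W V R u S := by
  obtain ⟨C, hC, hrate⟩ := σ.rate 7 le_rfl
  refine ⟨18 * K * C / π, fun N x ε μ hdisj hx => ?_⟩
  have hX : IsCompact (⋃ i ∈ Finset.range N, closedBall (x i) (ε i)) :=
    (Finset.range N).isCompact_biUnion fun i _ => isCompact_closedBall _ _
  set X := ⋃ i ∈ Finset.range N, closedBall (x i) (ε i)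
  have hXi : ∀ i < N, closedBall (x i) (ε i) ⊆ X := fun i hi =>
    subset_iUnion₂ (s := fun i (_ : i ∈ Finset.range N) => closedBall (x i) (ε i)) i
      (Finset.mem_range.mpr hi)
  have hXS : X ⊆ S \ Zs W V := iUnion₂_subset fun i hi => (hx i (Finset.mem_range.mp hi)).2.2.2.1
  obtain ⟨L, hL, hXL⟩ := hX.isBounded.subset_ball_lt 0 0
  obtain ⟨δ, hδ, hth⟩ := hX.exists_thickening_subset_open hS fun y hy => (hXS hy).1
  obtain ⟨a, ha, a1, a2⟩ : ∃ a > 0, a ≤ 1 ∧ a * L ≤ δ :=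
    ⟨min 1 (δ / L), by positivity, min_le_left _ _, (le_div_iff₀ hL).mp (min_le_right _ _)⟩
  have hLR : 34 * L ≤ 34 * L / a := by
    rw [le_div_iff₀ ha]
    nlinarith
  have hc : ∀ η > 0, ∀ᶠ n in (σ.𝒰 : Filter ℕ), ∀ y ∈ X, σ.A n y ∉ (σ.Y n).B ∧
      ‖σ.r n ^ 2 * (σ.Y n).q (σ.A n y) - R y‖ ≤ η := fun η hη => ev_compact hX fun x hx => by
    obtain ⟨ε, hε, h⟩ := hl x (hXS hx).2
    refine ⟨ε, hε, (h η hη).mono fun n hn y hy => ?_⟩
    have := hn 0 (σ.Y n).ne.card_pos y hy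
    simp only [fam, σ.t_zero] at this
    exact ⟨(σ.not_B n).mp this.1, this.2⟩
  have hex : ∀ n, ∃ G : ℂ → ℂ, (∀ k ≤ (σ.Y n).B.card, ∃ h,
      Br e (σ.Y n).c k h (ball (σ.p n 0) (34 * L / a * σ.r n)) ∧ h (σ.p n 0) = σ.p n k) →
        Br e (σ.Y n).c ((σ.Y n).B.card - 1 + 1) G (ball (σ.p n 0) (34 * L / a * σ.r n)) ∧
        G (σ.p n 0) = σ.p n ((σ.Y n).B.card - 1 + 1) := fun n => by
    have hP := (σ.Y n).ne.card_pos
    by_cases hn : ∀ k ≤ (σ.Y n).B.card, ∃ h,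
      Br e (σ.Y n).c k h (ball (σ.p n 0) (34 * L / a * σ.r n)) ∧ h (σ.p n 0) = σ.p n k
    · obtain ⟨G, hG⟩ := hn ((σ.Y n).B.card - 1 + 1) (by omega)
      exact ⟨G, fun _ => hG⟩
    · exact ⟨0, fun h => absurd h hn⟩
  choose G hG using hex
  have hev := (σ.branches he _).mono hG
  have hlim : Tendsto (fun n => ∑ i ∈ Finset.range N, μ i * ε i ^ 2 *
      -(((σ.Y n).ρ - 1) * (‖(σ.Y n).ρ - 1‖⁻¹ : ℝ) *
        ((1 - σ.α n ((σ.Y n).B.card - 1) (G n) (x i)) / ((σ.Y n).ρ - 1))).re) σ.𝒰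
      (𝓝 (∑ i ∈ Finset.range N, μ i * ε i ^ 2 *
        -(u * (2 * deriv W (x i) + W (x i) * deriv R (x i) / R (x i))).re)) := by
    refine tendsto_finsetSum _ fun i hi => ?_
    have hi' := Finset.mem_range.mp hi
    obtain ⟨b1, b2, -, b4, b5⟩ := hx i hi'
    have hxi := mem_closedBall_self (x := x i) b1.le
    exact ((Complex.continuous_re.tendsto _).comp (hu.mul (σ.β_lim he hρ hW c1 b1
      (hT.hR.mono fun y hy => (b4 (ball_subset_closedBall hy)).2)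
      (norm_pos_iff.mp (b2.trans_le (b5 _ hxi)))
      (fun η hη => (hc η hη).mono fun n hn y hy => hn y (hXi i hi' (ball_subset_closedBall hy)))
      (by linarith [mem_ball_zero_iff.mp (hXL (hXi i hi' hxi))]) hev))).neg.const_mul _
  refine le_of_tendsto hlim ?_
  filter_upwards [hev, hm (2 * L), σ.r_small he (34 * L / a),
    (Filter.eventually_all_finset (Finset.range N)).mpr fun i hi =>
      hc (μ i / 2) (half_pos (hx i (Finset.mem_range.mp hi)).2.1)] with n ⟨g1, g2⟩ g3 g4 g5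
  have hτ := σ.τ_pos n
  have hτ' : (σ.Y n).ρ - 1 ≠ 0 := norm_pos_iff.mp hτ
  set Er := (σ.Y n).Err ((σ.Y n).B.card - 1) fun v => fq e (σ.Y n).c (G n v)
  have k1 : ∀ i ∈ Finset.range N, ENNReal.ofReal (μ i * (π * ε i ^ 2 *
      (-(1 - σ.α n ((σ.Y n).B.card - 1) (G n) (x i))).re)) ≤
      ENNReal.ofReal 18 * LI (ball (σ.A n (x i)) (ε i * σ.r n)) Er := fun i hi => by
    have hi' := Finset.mem_range.mp hi
    obtain ⟨b1, b2, b3, -, b5⟩ := hx i hi'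
    have hx0 : 0 < ‖x i‖ := by linarith
    obtain ⟨l1, l2⟩ := σ.loc_unb he (by linarith) g1 g2 (x := x i) (ε := ε i)
      (m := 8 / (μ i * ‖x i‖ ^ 2)) (C := 3 / 2 * ‖x i‖) (by positivity)
      (fun y hy => ball_subset_ball (by linarith) (hXL (hXi i hi' (ball_subset_closedBall hy))))
      (fun y hy => by
        obtain ⟨l3, l4⟩ := g5 i hi y (hXi i hi' (ball_subset_closedBall hy))
        have l5 := b5 y (ball_subset_closedBall hy)
        rw [mem_ball, dist_eq_norm] at hy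
        have l6 := norm_le_norm_add_norm_sub y (x i)
        refine ⟨fun h => absurd h l3, ?_, by linarith [norm_le_norm_add_norm_sub' y (x i)]⟩
        rw [(σ.q_chart l3).2, norm_mul, norm_pow, inv_div]
        calc _ = (‖x i‖ / 2) ^ 2 * (μ i / 2) := by ring
          _ ≤ _ := by
            gcongr
            · linarith
            · linarith [norm_le_norm_add_norm_sub
                ((σ.r n : ℂ) ^ 2 * (σ.Y n).q (σ.A n y)) (R y)])
    have l7 := t37_mean b1 l1.neg (u := fun y => ‖1 - σ.α n ((σ.Y n).B.card - 1) (G n) y‖ -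
      (1 - σ.α n ((σ.Y n).B.card - 1) (G n) y).re)
      (l1.continuousOn.norm.sub (Complex.continuous_re.comp_continuousOn l1.continuousOn))
      (fun y _ => by
        simp only [Pi.neg_apply, Complex.neg_re]
        linarith [norm_nonneg (1 - σ.α n ((σ.Y n).B.card - 1) (G n) y)])
    rw [ENNReal.ofReal_mul b2.le]
    refine (mul_le_mul_right (l7.trans l2) _).trans_eq ?_
    rw [← mul_assoc, ← ENNReal.ofReal_mul b2.le]
    congr 2
    field_simp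
    norm_num
  have k2 : ∑ i ∈ Finset.range N, LI (ball (σ.A n (x i)) (ε i * σ.r n)) Er ≤
      K * LI (ball 0 7) (σ.Y n).err := by
    refine (sum_LI_le (Ω := ⋃ i ∈ Finset.range N, ball (σ.A n (x i)) (ε i * σ.r n)) _
      (fun i hi j hj hij => Set.disjoint_left.mpr fun z z1 z2 => ?_) (fun _ _ => measurableSet_ball)
      (fun i hi => subset_iUnion₂ (s := fun i (_ : i ∈ Finset.range N) =>
        ball (σ.A n (x i)) (ε i * σ.r n)) i hi) _).trans ?_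
    · rw [← σ.A_div n z] at z1 z2
      exact Set.disjoint_left.mp (hdisj i (by simpa using hi) j (by simpa using hj) hij)
        (σ.A_mem.mp z1) (σ.A_mem.mp z2)
    · refine σ.err_mult he ha a1 hL hXL ((thickening_mono a2 X).trans hth) g3 g4
        (g1.iter (j := 1) (by omega)) (by
          change fq e _ (G n _) = _
          rw [g2, σ.pstep])
        ((Finset.range N).measurableSet_biUnion fun _ _ => measurableSet_ball) fun z hz => ?_
      obtain ⟨i, hi, hz⟩ := mem_iUnion₂.mp hz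
      rw [← σ.A_div n z] at hz
      exact ⟨_, hXi i (Finset.mem_range.mp hi) (ball_subset_closedBall (σ.A_mem.mp hz)),
        σ.A_div n z⟩
  have k3 := (ofReal_sum_le _ _).trans ((Finset.sum_le_sum k1).trans
    ((Finset.mul_sum _ _ _).symm.trans_le
      (mul_le_mul_right (k2.trans (mul_le_mul_right (hrate n) _)) _)))
  rw [← ENNReal.ofReal_natCast, ← ENNReal.ofReal_mul (by positivity),
    ← ENNReal.ofReal_mul (by positivity), ENNReal.ofReal_le_ofReal_iff (by positivity)] at k3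
  have hπ := pi_pos
  calc _ = (∑ i ∈ Finset.range N, μ i * (π * ε i ^ 2 *
        (-(1 - σ.α n ((σ.Y n).B.card - 1) (G n) (x i))).re)) / (π * ‖(σ.Y n).ρ - 1‖) := by
        rw [Finset.sum_div]
        refine Finset.sum_congr rfl fun i _ => ?_
        rw [mul_right_comm ((σ.Y n).ρ - 1), mul_div_cancel₀ _ hτ', mul_comm _ ((_ : ℝ) : ℂ),
          Complex.re_ofReal_mul, Complex.neg_re]
        field_simp
    _ ≤ 18 * (K * (C * ‖(σ.Y n).ρ - 1‖)) / (π * ‖(σ.Y n).ρ - 1‖) := by gcongr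
    _ = _ := by field_simp

theorem case_one (he : 1 ≤ e) (hρ : Tendsto (fun n => (σ.Y n).ρ) σ.𝒰 (𝓝 1)) : False := by
  obtain ⟨W, V, hW, hV, h1, h2, c1, c2⟩ := σ.field he hρ
  have hn1 : ∀ n, ‖((σ.Y n).ρ - 1) * (‖(σ.Y n).ρ - 1‖⁻¹ : ℝ)‖ = 1 := fun n => by
    rw [norm_mul, Complex.norm_real, norm_inv, norm_norm, mul_inv_cancel₀ (σ.τ_pos n).ne']
  obtain ⟨u, hu⟩ := t1294_ulim σ.𝒰 (R := 1) (Eventually.of_forall fun n => (hn1 n).le)
  have hu0 : u ≠ 0 := norm_pos_iff.mp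
    (one_pos.trans_le (ge_of_tendsto' hu.norm fun n => (hn1 n).ge))
  have hV1 : ∀ y, V y = 1 := (σ.fam he hρ hW hV h1 c1 c2).one h2 hu0
    (σ.star he hρ hW hV h1 c1 c2 hu)
  have hc := (σ.fam he hρ hW hV h1 c1 c2).hc
  simp only [fam, hV1] at hc
  have hz : ∀ x, W x = 0 → x = 0 := fun x hx =>
    single_zero σ.𝒰 (P := fun n => (σ.Y n).B.card) (fun n => (σ.Y n).ne.card_pos)
      (b := σ.p) (t := σ.t) (Φ := σ.Φ) (Ψ := σ.Ψ) (fun n => sub_ne_zero.mpr (σ.ρne n))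
      (fun n k _ => by rw [σ.Φ_eq, Fr, (σ.Y n).fix _ (σ.pmem n _), sub_self]) σ.pinj
      (fun n z h h' => σ.p_surj n ((σ.Ψ_ne n h).2 h')) hW h1 hc hx
  have ha : σ.Alone := by
    intro L
    obtain ⟨η, hη, hm⟩ : ∃ η > 0, ∀ y : ℂ, 1 ≤ ‖y‖ → ‖y‖ ≤ L → η < ‖W y‖ := by
      have hK : IsCompact (closedBall (0 : ℂ) L \ ball 0 1) :=
        (isCompact_closedBall _ _).diff isOpen_ball
      obtain ⟨η, hη, h⟩ := hK.exists_forall_le' (f := fun y => ‖W y‖) (a := 0)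
        hW.continuous.norm.continuousOn fun y hy => norm_pos_iff.mpr fun h => hy.2 (by
          rw [hz y h]
          exact mem_ball_self one_pos)
      exact ⟨η / 2, half_pos hη, fun y g1 g2 => (half_lt_self hη).trans_le
        (h y ⟨mem_closedBall_zero_iff.mpr g2, by simpa using g1⟩)⟩
    filter_upwards [c1 L η hη] with n hn z hzB hzL
    by_contra hne
    have hA := σ.A_div n z
    set y := (z - σ.p n 0) / σ.r n
    have y1 : ‖y‖ < L := σ.A_mem0.mp (by rw [hA]; rwa [mem_ball, dist_eq_norm])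
    have y2 := σ.iso n z hzB hne
    rw [← hA, A, add_sub_cancel_left, σ.norm_r] at y2
    have := hn y (mem_ball_zero_iff.mpr y1)
    rw [hA, Fr, (σ.Y n).fix z hzB, sub_self, zero_div, zero_div, zero_sub, norm_neg] at this
    exact absurd (hm y (le_of_mul_le_mul_left (by rwa [mul_one]) (σ.rpos n)) y1.le)
      (not_lt.mpr this)
  obtain ⟨U, hU, hlim⟩ := σ.limit ha
  refine σ.finish he ha hU hlim fun x hx => ?_
  obtain ⟨n, g1, g2⟩ := ((σ.sol he ha hU hlim 0 (by norm_num) x 1 one_pos).and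
    (σ.transport he hρ hW hV c1 c2 (‖x‖ + 1) (1 / 2) one_half_pos)).exists
  obtain ⟨y, hy, g3⟩ := (g1 0 (σ.Y n).ne.card_pos).1 hx
  have := ((g2 0 (σ.Y n).ne.card_pos).2 y (by
    rw [mem_ball, dist_eq_norm] at hy
    rw [mem_ball_zero_iff]
    linarith [norm_le_norm_add_norm_sub' y x])).2
  refine (σ.Ψ_ne n fun h => ?_).1 g3
  rw [h, hV1] at this
  norm_num at this

include σ in
theorem false_of (he : 1 ≤ e) : False := by
  obtain ⟨ρ, -, hρ⟩ := (isCompact_closedBall (0 : ℂ) 2).ultrafilter_le_nhds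
    (σ.𝒰.map fun n => (σ.Y n).ρ) (by
      rw [Ultrafilter.coe_map, le_principal_iff, Filter.mem_map]
      exact Eventually.of_forall fun n => mem_closedBall_zero_iff.mpr (σ.ρhi n))
  by_cases h : ρ = 1
  · exact σ.case_one he (h ▸ hρ)
  · exact σ.case_ne he hρ h

end Setup

end Pool.Agent.MP_28f8a1_an.H42

end

-- part MP_28f8a1_an.H42.Core
section

/-! The period-independent lower bound. -/

set_option autoImplicit false

namespace Pool.Agent.MP_28f8a1_an.H42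

open MeasureTheory Metric Set Real Filter Topology Polynomial
open scoped ENNReal

variable {e : ℕ}

/-- The period-independent lower bound for the logarithmic derivative of the multiplier. -/
theorem core (he : 1 ≤ e) {M : ℝ} (hM : 0 ≤ M) : ∃ δ > 0, ∀ Y : Cyc e, 1 / 2 ≤ ‖Y.ρ‖ → Y.ρ ≠ 1 →
    ‖Y.ρ‖ ≤ 1 + δ → min δ (M * ‖Y.ρ - 1‖) ≤ ‖Y.S‖ := by
  classical
  by_contra hc
  push Not at hc
  choose Y h1 h3 h2 h4 using fun n : ℕ => hc (1 / (n + 10)) (by positivity)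
  have hδ : ∀ n : ℕ, (1 : ℝ) / (n + 10) ≤ 1 / 10 := fun n =>
    one_div_le_one_div_of_le (by norm_num) (by linarith [n.cast_nonneg (α := ℝ)])
  have hρ : ∀ n, ‖(Y n).ρ‖ < 2 := fun n => by linarith [h2 n, hδ n]
  have hP : ∀ n, 2 ≤ (Y n).B.card := fun n => by
    have := (Y n).ne.card_pos
    by_contra h
    have := (Y n).card_one he (by omega) (hρ n) (h3 n)
    linarith [(lt_min_iff.mp (h4 n)).1, hδ n]
  choose Z hZ hZ' using fun n => (Y n).special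
  have hmin : ∀ n b, ∃ z, b ∈ (Y n).B → z ∈ (Z n).erase b ∧
      ∀ z' ∈ (Z n).erase b, ‖z - b‖ ≤ ‖z' - b‖ := fun n b => by
    obtain ⟨b', hb', hne⟩ := Finset.exists_mem_ne (hP n) b
    obtain ⟨z, hz⟩ := Finset.exists_min_image ((Z n).erase b) (fun z => ‖z - b‖)
      ⟨b', Finset.mem_erase.mpr ⟨hne, (hZ' n b').mpr (Or.inl hb')⟩⟩
    exact ⟨z, fun _ => hz⟩
  choose z hz using hmin
  have hiso : ∀ n, ∀ b ∈ (Y n).B, ∀ b' ∈ (Y n).B, b' ≠ b → ‖z n b - b‖ ≤ ‖b' - b‖ :=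
    fun n b hb b' hb' hne =>
      (hz n b hb).2 b' (Finset.mem_erase.mpr ⟨hne, (hZ' n b').mpr (Or.inl hb')⟩)
  have hpos : ∀ n, ∀ b ∈ (Y n).B, 0 < ‖z n b - b‖ := fun n b hb =>
    norm_pos_iff.mpr (sub_ne_zero.mpr (Finset.mem_erase.mp (hz n b hb).1).1)
  obtain ⟨s, hs⟩ := cover 13
  choose b hb hcov using fun n => hs (Y n).B
    (Z n ∪ (Finset.range (Y n).B.card).image (cn e (Y n).c)) (fun b => ‖z n b - b‖) (Y n).ne
    ((Finset.card_union_le _ _).trans (by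
      have := Finset.card_image_le (s := Finset.range (Y n).B.card) (f := cn e (Y n).c)
      rw [Finset.card_range] at this
      linarith [hZ n])) (hpos n) (hiso n)
  choose p p0 p1 p2 p3 using fun n => (Y n).orb (b n) (hb n)
  set r : ℕ → ℝ := fun n => ‖z n (b n) - b n‖ with hr
  have hr0 : ∀ n, 0 < r n := fun n => hpos n _ (hb n)
  have hr1 : ∀ n, (r n : ℂ) ≠ 0 := fun n => Complex.ofReal_ne_zero.mpr (hr0 n).ne'
  have hn : ∀ n (y : ℂ), ‖(r n : ℂ) * y‖ = r n * ‖y‖ := fun n y => by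
    rw [norm_mul, Complex.norm_real, Real.norm_eq_abs, abs_of_pos (hr0 n)]
  have hnull : ∀ W : ℕ → Set ℂ, (∀ n, ∀ y ∈ W n, b n + r n * y ∈
      Z n ∪ (Finset.range (Y n).B.card).image (cn e (Y n).c)) →
      μH[1] (limSet (hyperfilter ℕ) W) = 0 := fun W hW => by
    refine limSet_null s fun n k => ?_
    obtain ⟨T, hT, h⟩ := hcov n k
    refine ⟨T.image fun w => (w - b n) / r n, Finset.card_image_le.trans hT, fun y hy hk => ?_⟩
    obtain ⟨w, hw, h5⟩ := h _ (hW n y hy) (by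
      rw [add_sub_cancel_left, hn, mul_comm]
      exact mul_lt_mul_of_pos_right hk (hr0 n))
    refine ⟨_, Finset.mem_image_of_mem _ hw, lt_of_mul_lt_mul_left ?_ (hr0 n).le⟩
    rw [← mul_assoc, ← hn, mul_one, show r n * (y - (w - b n) / r n) = b n + r n * y - w by
      have := hr1 n
      field_simp
      ring]
    exact h5
  have hge : ∀ n (y : ℂ), y ≠ 0 → b n + r n * y ∈ Z n → 1 ≤ ‖y‖ := fun n y hy h => by
    have := (hz n _ (hb n)).2 _ (Finset.mem_erase.mpr ⟨by simpa [hr1 n] using hy, h⟩)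
    rw [add_sub_cancel_left, hn] at this
    exact le_of_mul_le_mul_left (by rwa [mul_one]) (hr0 n)
  refine Setup.false_of (e := e)
    { 𝒰 := hyperfilter ℕ, Y := Y, p := p, r := r
      E := limSet (hyperfilter ℕ) fun n => {y | y ≠ 0 ∧ b n + r n * y ∈ Z n}
      F := limSet (hyperfilter ℕ) fun n => {y | ∃ j < (Y n).B.card, b n + r n * y = cn e (Y n).c j}
      pmem := p1, pstep := p2, pinj := p3, rpos := hr0
      rle := fun n => ?_, cle := fun n => ((Y n).bounds he (hρ n)).1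
      ble := fun n => ((Y n).bounds he (hρ n)).2 _ (p1 n 0)
      iso := fun n b' hb' hne => ?_, ρlo := h1, ρhi := fun n => (hρ n).le, ρne := h3
      small := fun R hR δ hδ => ?_, Ecl := limSet_closed _ _
      rate := fun R hR => ⟨π * 3 + 6 * π * R * M, by have := pi_pos; positivity, fun n => ?_⟩
      Enull := hnull _ fun n y hy => Finset.mem_union_left _ hy.2
      E0 := fun h => ?_, Eaway := fun x hx => ?_
      Fnull := hnull _ fun n y ⟨j, hj, h⟩ => Finset.mem_union_right _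
        (h ▸ Finset.mem_image_of_mem _ (Finset.mem_range.mpr hj))
      Faway := fun x hx => ?_, touch := fun n => ?_ } he
  · obtain ⟨b', hb', hne⟩ := Finset.exists_mem_ne (hP n) (b n)
    have := ((Y n).bounds he (hρ n)).2
    linarith [hiso n _ (hb n) b' hb' hne, norm_sub_le b' (b n), this _ hb', this _ (hb n)]
  · rw [p0] at hne ⊢
    exact hiso n _ (hb n) b' hb' hne
  · have ht : Tendsto (fun n : ℕ => (1 : ℝ) / (n + 10)) atTop (𝓝 0) :=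
      tendsto_const_nhds.div_atTop (tendsto_atTop_add_const_right _ _ tendsto_natCast_atTop_atTop)
    have c1 : ContinuousAt (fun a : ℝ => π * ((1 + a) ^ 2 - 1) + 6 * π * R * a) 0 := by fun_prop
    have := (c1.tendsto.comp ht).eventually (gt_mem_nhds
      (show π * ((1 + (0 : ℝ)) ^ 2 - 1) + 6 * π * R * 0 < δ by simpa using hδ))
    rw [← Nat.cofinite_eq_atTop] at this
    filter_upwards [this.filter_mono hyperfilter_le_cofinite] with n hn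
    refine ((Y n).mass he ((Y n).bounds he (hρ n)).1 hR).trans (ENNReal.ofReal_le_ofReal ?_)
    refine le_trans ?_ hn.le
    have a1 : max 1 ‖(Y n).ρ‖ ≤ 1 + 1 / (n + 10) :=
      max_le (le_add_of_nonneg_right (by positivity)) (h2 n)
    have a2 : (0 : ℝ) ≤ max 1 ‖(Y n).ρ‖ := zero_le_one.trans (le_max_left _ _)
    have := pi_pos
    have := (lt_min_iff.mp (h4 n)).1.le
    simp only [Function.comp]
    gcongr
  · refine ((Y n).mass he ((Y n).bounds he (hρ n)).1 hR).trans (ENNReal.ofReal_le_ofReal ?_)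
    have a0 := norm_nonneg ((Y n).ρ - 1)
    have a1 : max 1 ‖(Y n).ρ‖ ≤ 1 + ‖(Y n).ρ - 1‖ := max_le (by linarith)
      (by simpa using norm_le_norm_add_norm_sub' (Y n).ρ 1)
    have a2 := le_max_left 1 ‖(Y n).ρ‖
    have a3 : max 1 ‖(Y n).ρ‖ ≤ 2 := max_le one_le_two (hρ n).le
    have a4 : max 1 ‖(Y n).ρ‖ ^ 2 - 1 ≤ 3 * ‖(Y n).ρ - 1‖ := by nlinarith
    have := pi_pos
    have := (lt_min_iff.mp (h4 n)).2.le
    calc _ ≤ π * (3 * ‖(Y n).ρ - 1‖) + 6 * π * R * (M * ‖(Y n).ρ - 1‖) := by gcongr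
      _ = _ := by ring
  · obtain ⟨n, y, hy, h5⟩ := (h 1 one_pos).exists
    rw [sub_zero] at h5
    exact absurd (hge n y hy.1 hy.2) (not_le.mpr h5)
  · obtain ⟨ε, hε, h⟩ := limSet_away _ hx
    refine ⟨ε, hε, h.mono fun n hn y hy => ?_⟩
    rw [p0]
    by_cases h0 : y = 0
    · obtain ⟨k1, k2, k3⟩ := (Y n).chart (hb n) (t := 0) (y := 0) fun _ => by simp
      have k4 := k3 1
      simp only [Eu, mul_zero, zero_mul, add_zero, (Y n).U_self (hb n)] at k1 k2 k4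
      simp only [h0, mul_zero, add_zero]
      exact ⟨fun _ => trivial, fun h => by simpa using k1.mpr h, fun h => by simpa using k2.mpr h,
        fun h => by have := k4.mpr h; norm_num at this⟩
    · have := (hZ' n _).not.mp fun h => hn y hy ⟨h0, h⟩
      push Not at this
      exact ⟨fun h => absurd h this.1, this.2⟩
  · obtain ⟨ε, hε, h⟩ := limSet_away _ hx
    exact ⟨ε, hε, h.mono fun n hn y hy j hj h => hn y hy ⟨j, hj, p0 n ▸ h⟩⟩
  · refine ⟨(z n (b n) - b n) / r n, ?_, ?_⟩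
    · rw [norm_div, Complex.norm_real, Real.norm_eq_abs, abs_of_pos (hr0 n), div_self (hr0 n).ne']
    · rw [p0, mul_div_cancel₀ _ (hr1 n), add_sub_cancel]
      exact (hZ' n _).mp (Finset.mem_erase.mp (hz n _ (hb n)).1).2

end Pool.Agent.MP_28f8a1_an.H42

end
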