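import Pool.Agent.MP_28f8a1_an.Mg.G42_Mv

-- part MP_28f8a1_an.G42.Dyn
section

/-! Captured points, Fatou's theorem and perturbation of parabolic cycles. -/

set_option autoImplicit false

namespace Pool.Agent.MP_28f8a1_an.G42

open MeasureTheory Metric Set Real Filter Topology Polynomial Pool.Agent.MP_28f8a1_an.H42
open scoped ENNReal

variable {E : Type} [NormedAddCommGroup E] [NormedSpace ℂ E] {d : ℕ} {Λ : ℝ} {F : E → ℂ[X]}

/-- The orbit of `c` escapes or tends to a sink. -/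
def Capt (T : ℂ[X]) (c : ℂ) : Prop :=
  Tendsto (fun k : ℕ => ‖(fp T)^[k] c‖) atTop atTop ∨ ∃ n : ℕ, 0 < n ∧ ∃ z : ℂ,
    (fp T)^[n] z = z ∧ ‖Pd T z n‖ < 1 ∧ Tendsto (fun k : ℕ => (fp T)^[n * k] c) atTop (𝓝 z)

/-- The same with a bound for the multiplier. -/
def Cap (T : ℂ[X]) (r : ℝ) (c : ℂ) : Prop :=
  Tendsto (fun k : ℕ => ‖(fp T)^[k] c‖) atTop atTop ∨ ∃ n : ℕ, 0 < n ∧ ∃ z : ℂ,
    (fp T)^[n] z = z ∧ ‖Pd T z n‖ ≤ r ^ n ∧ Tendsto (fun k : ℕ => (fp T)^[n * k] c) atTop (𝓝 z)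

theorem t1720_esc (hF : Sm d F) (hd : 2 ≤ d) (hdeg : ∀ x, (F x).natDegree = d) (x₀ : E) {A : ℝ}
    (hA : 0 ≤ A) : ∃ L, 0 < L ∧ ∀ᶠ x in 𝓝 x₀, ∀ z : ℂ, L ≤ ‖z‖ → A * ‖z‖ ≤ ‖fp (F x) z‖ := by
  obtain ⟨e, rfl⟩ : ∃ e, d = e + 2 := ⟨d - 2, by omega⟩
  have h0 : (F x₀).coeff (e + 2) ≠ 0 := by
    rw [← hdeg x₀, coeff_natDegree, leadingCoeff_ne_zero]
    intro h
    have := hdeg x₀
    rw [h, natDegree_zero] at this
    omega
  set a := ‖(F x₀).coeff (e + 2)‖ / 2 with ha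
  have ha0 : 0 < a := half_pos (norm_pos_iff.2 h0)
  have hc : ∀ j, Continuous fun x => ‖(F x).coeff j‖ := fun j => (hF.cd j).continuous.norm
  have h1 : ∀ᶠ x in 𝓝 x₀, a < ‖(F x).coeff (e + 2)‖ :=
    (hc _).continuousAt.eventually_const_lt (half_lt_self (norm_pos_iff.2 h0))
  set B := ∑ j ∈ Finset.range (e + 2), ‖(F x₀).coeff j‖ + 1 with hB
  have hB0 : 0 ≤ B := add_nonneg (Finset.sum_nonneg fun _ _ => norm_nonneg _) zero_le_one
  have h2 : ∀ᶠ x in 𝓝 x₀, ∑ j ∈ Finset.range (e + 2), ‖(F x).coeff j‖ < B :=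
    (continuous_finsetSum _ fun j _ => hc j).continuousAt.eventually_lt_const (lt_add_one _)
  refine ⟨max 1 ((B + A) / a), lt_max_of_lt_left one_pos, ?_⟩
  filter_upwards [h1, h2] with x h1 h2 z hz
  have hz1 : 1 ≤ ‖z‖ := (le_max_left _ _).trans hz
  have hz2 : B + A ≤ ‖z‖ * a := (div_le_iff₀ ha0).1 ((le_max_right _ _).trans hz)
  have h3 : ‖∑ j ∈ Finset.range (e + 2), (F x).coeff j * z ^ j‖ ≤ B * ‖z‖ ^ (e + 1) := by
    refine (norm_sum_le _ _).trans (le_trans ?_ (mul_le_mul_of_nonneg_right h2.le (by positivity)))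
    rw [Finset.sum_mul]
    refine Finset.sum_le_sum fun j hj => ?_
    rw [norm_mul, norm_pow]
    exact mul_le_mul_of_nonneg_left
      (pow_le_pow_right₀ hz1 (Nat.lt_succ_iff.1 (Finset.mem_range.1 hj))) (norm_nonneg _)
  have h4 : ‖(F x).coeff (e + 2) * z ^ (e + 2)‖ ≤ ‖fp (F x) z‖ + B * ‖z‖ ^ (e + 1) := by
    have h5 : (F x).coeff (e + 2) * z ^ (e + 2) =
        fp (F x) z - ∑ j ∈ Finset.range (e + 2), (F x).coeff j * z ^ j := by
      rw [hF.fp_eq, Finset.sum_range_succ _ (e + 2)]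
      ring
    rw [h5]
    exact (norm_sub_le _ _).trans (add_le_add_right h3 _)
  rw [norm_mul, norm_pow, pow_succ] at h4
  have h6 : ‖z‖ ≤ ‖z‖ ^ (e + 1) := le_self_pow₀ hz1 (Nat.succ_ne_zero e)
  have h7 : 0 ≤ ‖z‖ ^ (e + 1) := by positivity
  have h8 : a * (‖z‖ ^ (e + 1) * ‖z‖) ≤ ‖(F x).coeff (e + 2)‖ * (‖z‖ ^ (e + 1) * ‖z‖) :=
    mul_le_mul_of_nonneg_right h1.le (by positivity)
  nlinarith [mul_le_mul_of_nonneg_left hz2 h7, mul_le_mul_of_nonneg_left h6 hA]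

theorem t1720_lam (hF : Sm d F) (x₀ : E) (L : ℝ) :
    ∃ M, 0 ≤ M ∧ ∀ᶠ x in 𝓝 x₀, ∀ w ∈ closedBall (0 : ℂ) L, ‖lam (F x) w‖ ≤ M := by
  obtain ⟨M, hM⟩ := (isCompact_closedBall (0 : ℂ) L).exists_bound_of_continuousOn
    (lam_diff (T := F x₀)).continuous.continuousOn
  refine ⟨max M 0 + 1, by positivity, ?_⟩
  refine (isCompact_closedBall (0 : ℂ) L).eventually_forall_of_forall_eventually fun y hy => ?_
  have h1 : ‖lam (F x₀) y‖ < max M 0 + 1 := ((hM y hy).trans (le_max_left _ _)).trans_lt (lt_add_one _)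
  exact ((hF.lam_cd.continuous.norm.tendsto (x₀, y)).eventually_lt_const h1).mono
    fun _ h => h.le

/-- Uniform data near a parameter.
Hint: for every `A` there is `Λ A` with `A * ‖z‖ ≤ ‖fp (F x) z‖` for `Λ A ≤ ‖z‖` and `x` near `x₀`.
Let `M` bound `‖lam (F x) w‖` for `‖w‖ ≤ Λ 2`, `A > 2 * M + 2`, `Λ = A * Λ A`. A branch `h` on
`ball 0 Λ` has values in `closedBall 0 (Λ A)`, so `‖deriv h 0‖ ≤ 2 / A`
(`Complex.norm_deriv_le_div_of_mapsTo_ball`), while `lam (F x) (h 0) * deriv h 0 = 1`. -/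
theorem adm_near (hF : Sm d F) (hd : 2 ≤ d) (hdeg : ∀ x, (F x).natDegree = d) (x₀ : E) :
    ∃ Λ, ∀ᶠ x in 𝓝 x₀, Adm d Λ (F x) := by
  obtain ⟨L₂, hL₂, h2⟩ := t1720_esc hF hd hdeg x₀ (A := 2) zero_le_two
  obtain ⟨M, hM, h3⟩ := t1720_lam hF x₀ L₂
  obtain ⟨L₁, hL₁, h1⟩ := t1720_esc hF hd hdeg x₀ (A := 2 * M + 3) (by positivity)
  set L := max L₁ L₂ with hL
  have hL0 : 0 < L := lt_max_of_lt_left hL₁
  have hΛ : 0 < (2 * M + 3) * L := by positivity
  refine ⟨(2 * M + 3) * L, ?_⟩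
  filter_upwards [h1, h2, h3] with x h1 h2 h3
  refine ⟨hΛ, hd, hdeg x, fun z hz => h2 z ((le_max_right L₁ L₂).trans (le_trans ?_ hz)), fun h hb => ?_⟩
  · nlinarith
  have h4 : ∀ z ∈ ball (0 : ℂ) ((2 * M + 3) * L), ‖h z‖ ≤ L := by
    intro z hz
    by_contra h5
    push Not at h5
    have h6 := h1 (h z) ((le_max_left L₁ L₂).trans h5.le)
    have h7 : fp (F x) (h z) = z := hb.inv z hz
    rw [h7] at h6
    rw [mem_ball_zero_iff] at hz
    nlinarith
  have h0 : (0 : ℂ) ∈ ball (0 : ℂ) ((2 * M + 3) * L) := mem_ball_self hΛ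
  have h5 : ‖h 0‖ ≤ L₂ := by
    by_contra h5
    push Not at h5
    have h6 := h2 (h 0) h5.le
    have h7 : fp (F x) (h 0) = 0 := hb.inv 0 h0
    rw [h7, norm_zero] at h6
    linarith
  have h6 : ‖deriv h 0‖ ≤ 2 * L / ((2 * M + 3) * L) := by
    refine Complex.norm_deriv_le_div_of_mapsTo_ball hb.diff (fun z hz => ?_) hΛ
    rw [mem_closedBall, dist_eq_norm]
    linarith [norm_sub_le (h z) (h 0), h4 z hz, h4 0 h0]
  have h7 := congrArg norm (hb.mul_deriv isOpen_ball h0)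
  rw [Pd_one, norm_mul, norm_one] at h7
  rw [le_div_iff₀ hΛ] at h6
  have h8 := h3 (h 0) (mem_closedBall_zero_iff.2 h5)
  have h9 : ‖deriv h 0‖ * (2 * M + 3) ≤ 2 := le_of_mul_le_mul_right (by linarith) hL0
  have h10 := mul_le_mul_of_nonneg_right h8 (norm_nonneg (deriv h 0))
  have h11 : 0 < ‖deriv h 0‖ := by
    rcases (norm_nonneg (deriv h 0)).eq_or_lt with h11 | h11
    · rw [← h11, mul_zero] at h7
      exact absurd h7 zero_ne_one
    · exact h11
  nlinarith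

theorem t1720_fix {g : ℂ → ℂ} {z u : ℂ} {δ ρ : ℝ} (h0 : 0 ≤ ρ) (h1 : ρ < 1)
    (hg : ∀ v ∈ closedBall z δ, ∀ w ∈ closedBall z δ, dist (g v) (g w) ≤ ρ * dist v w)
    (hz : dist (g z) z ≤ (1 - ρ) * δ) (hu : u ∈ closedBall z δ) :
    ∃ y ∈ closedBall z δ, g y = y ∧ Tendsto (fun k : ℕ => g^[k] u) atTop (𝓝 y) := by
  have hδ : 0 ≤ δ := dist_nonneg.trans (mem_closedBall.1 hu)
  have hm : MapsTo g (closedBall z δ) (closedBall z δ) := by
    intro v hv
    have h2 := hg v hv z (mem_closedBall_self hδ)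
    have h3 := mul_le_mul_of_nonneg_left (mem_closedBall.1 hv) h0
    rw [mem_closedBall]
    linarith [dist_triangle (g v) (g z) z]
  have hc : ContractingWith ⟨ρ, h0⟩ (hm.restrict g _ _) :=
    ⟨h1, LipschitzWith.of_dist_le_mul fun v w => hg v v.2 w w.2⟩
  obtain ⟨y, hy, h2, h3, -⟩ := hc.exists_fixedPoint' isClosed_closedBall.isComplete hm hu
    (edist_ne_top _ _)
  exact ⟨y, hy, h2, h3⟩

/-- Captured points stay captured.
Hint: escape: some iterate has norm `> Λ`, an open condition, then `esc_iter`. Sink: by `Sm.div`,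
`(fp (F x))^[n]` contracts a closed disc around `z` into itself by a factor `r ^ n < 1` for `x`
near `x₀`, so it has a fixed point there (`ContractingWith` or `t37_zero_of_lt`); some
`(fp (F x))^[n * k] c` lies in the disc, an open condition. -/
theorem persist (hF : Sm d F) {x₀ : E} (hadm : ∀ᶠ x in 𝓝 x₀, Adm d Λ (F x)) {c₀ : ℂ}
    (h : Capt (F x₀) c₀) : ∃ r, 0 ≤ r ∧ r < 1 ∧ ∀ᶠ w in 𝓝 (x₀, c₀), Cap (F w.1) r w.2 := by
  have hfst : Tendsto (Prod.fst : E × ℂ → E) (𝓝 (x₀, c₀)) (𝓝 x₀) := continuous_fst.continuousAt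
  rcases h with h | ⟨n, hn, z, hz, hP, h⟩
  · refine ⟨0, le_rfl, one_pos, ?_⟩
    obtain ⟨k, hk⟩ := (h.eventually_gt_atTop Λ).exists
    have h1 := ((hF.iter_cont k).norm.tendsto (x₀, c₀)).eventually_const_lt hk
    filter_upwards [h1, hfst.eventually hadm] with w h1 h2
    refine Or.inl ((tendsto_add_atTop_iff_nat k).1 ?_)
    refine tendsto_atTop_mono (fun j => ?_)
      ((tendsto_pow_atTop_atTop_of_one_lt (one_lt_two (α := ℝ))).atTop_mul_const (h2.pos.trans h1))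
    rw [Function.iterate_add_apply]
    exact esc_iter h2.pos h2.esc h1.le j
  · obtain ⟨ρ, hρ, hρ1⟩ := exists_between hP
    have hρ0 : 0 ≤ ρ := (norm_nonneg _).trans hρ.le
    refine ⟨ρ ^ (n⁻¹ : ℝ), Real.rpow_nonneg hρ0 _, Real.rpow_lt_one hρ0 hρ1 (by positivity), ?_⟩
    obtain ⟨Q, hQ, hQ1, hQ2⟩ := hF.div n
    rw [← hQ2] at hρ
    obtain ⟨ε, hε, hQ3⟩ := Metric.eventually_nhds_iff.1
      ((hQ.norm.tendsto (x₀, z, z)).eventually_lt_const hρ)
    have hδ : 0 < ε / 2 := half_pos hε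
    obtain ⟨k, hk⟩ := (h.eventually (ball_mem_nhds z hδ)).exists
    have h1 : ∀ᶠ w : E × ℂ in 𝓝 (x₀, c₀), (fp (F w.1))^[n * k] w.2 ∈ ball z (ε / 2) :=
      (hF.iter_cont (n * k)).continuousAt.eventually (isOpen_ball.mem_nhds hk)
    have h2 : ∀ᶠ x in 𝓝 x₀, (fp (F x))^[n] z ∈ ball z ((1 - ρ) * (ε / 2)) := by
      refine ((hF.iter_cont n).comp (continuous_id.prodMk continuous_const)).continuousAt.eventually
        (isOpen_ball.mem_nhds ?_)
      show (fp (F x₀))^[n] z ∈ _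
      rw [hz]
      exact mem_ball_self (mul_pos (sub_pos.2 hρ1) hδ)
    filter_upwards [h1, hfst.eventually h2, hfst.eventually (ball_mem_nhds x₀ hε)] with w h1 h2 h3
    have h4 : ∀ u ∈ closedBall z (ε / 2), ∀ v ∈ closedBall z (ε / 2), ‖Q (w.1, u, v)‖ ≤ ρ := by
      intro u hu v hv
      refine (hQ3 ?_).le
      rw [Prod.dist_eq, Prod.dist_eq, max_lt_iff, max_lt_iff]
      exact ⟨h3, (mem_closedBall.1 hu).trans_lt (half_lt_self hε),
        (mem_closedBall.1 hv).trans_lt (half_lt_self hε)⟩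
    obtain ⟨y, hy, h5, h6⟩ := t1720_fix (g := (fp (F w.1))^[n]) hρ0 hρ1 (fun u hu v hv => by
      rw [dist_eq_norm, dist_eq_norm, hQ1, norm_mul]
      exact mul_le_mul_of_nonneg_right (h4 v hv u hu) (norm_nonneg _)) (mem_ball.1 h2).le
      (ball_subset_closedBall h1)
    refine Or.inr ⟨n, hn, y, h5, ?_, (tendsto_add_atTop_iff_nat k).1 ?_⟩
    · rw [Real.rpow_inv_natCast_pow hρ0 hn.ne', ← hQ2]
      exact h4 y hy y hy
    · refine h6.congr fun j => ?_
      rw [mul_add, Function.iterate_add_apply, Function.iterate_mul _ n j]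

theorem t1719_pow {T : ℂ[X]} {z : ℂ} {n : ℕ} (hz : (fp T)^[n] z = z) (a : ℕ) :
    Pd T z (n * a) = Pd T z n ^ a := by
  induction a with
  | zero => simp [Pd_zero]
  | succ a ih => rw [Nat.mul_succ, Pd_add, hz, ih, pow_succ]

theorem t1719_shift {T : ℂ[X]} {z : ℂ} {n : ℕ} (hn : 0 < n) (hz : (fp T)^[n] z = z)
    (h0 : Pd T z n ≠ 0) (i : ℕ) : Pd T ((fp T)^[i] z) n = Pd T z n := by
  have h1 := Pd_add (T := T) z n i
  have h2 := Pd_add (T := T) z i n
  have h3 := Pd_add (T := T) z ((n - 1) * i) i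
  have h4 : (n - 1) * i + i = n * i := by
    obtain ⟨k, rfl⟩ := Nat.exists_eq_succ_of_ne_zero hn.ne'
    simp [Nat.succ_mul]
  rw [h4, t1719_pow hz] at h3
  rw [hz, add_comm, h1, mul_comm] at h2
  exact mul_left_cancel₀ (right_ne_zero_of_mul (h3 ▸ pow_ne_zero i h0)) h2

/-- Fatou: an attracting cycle attracts a critical point (port of `fatou`, `H42/Move.lean`, with
`br_succ` and `back_ball`). -/
theorem fatou {T : ℂ[X]} (hT : Adm d Λ T) {z : ℂ} {n : ℕ} (hn : 0 < n)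
    (hper : Function.minimalPeriod (fp T) z = n) (h0 : Pd T z n ≠ 0) (h1 : ‖Pd T z n‖ < 1) :
    ∃ c z' : ℂ, lam T c = 0 ∧ Function.minimalPeriod (fp T) z' = n ∧ Pd T z' n = Pd T z n ∧
      Tendsto (fun k : ℕ => (fp T)^[n * k] c) atTop (𝓝 z') := by
  have hz : (fp T)^[n] z = z := ((t57_per hn).1 hper).1
  have h4 : ∀ i, (n - 1) * i + i = n * i := fun i => by
    obtain ⟨k, rfl⟩ := Nat.exists_eq_succ_of_ne_zero hn.ne'
    simp [Nat.succ_mul]
  obtain ⟨r, hr1, hr2⟩ := exists_between h1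
  have hr0 : 0 ≤ r := (norm_nonneg _).trans hr1.le
  obtain ⟨s, hs, hc⟩ : ∃ s > 0, ∀ w ∈ ball z s, ‖(fp T)^[n] w - z‖ ≤ r * ‖w - z‖ := by
    have h2 := (iter_deriv (T := T) n z).isLittleO.bound (sub_pos.2 hr1)
    obtain ⟨s, hs, h3⟩ := Metric.eventually_nhds_iff_ball.1 h2
    refine ⟨s, hs, fun w hw => ?_⟩
    have h5 := h3 w hw
    have h6 := norm_le_norm_add_norm_sub' ((fp T)^[n] w - z) ((w - z) • Pd T z n)
    rw [hz] at h5
    rw [norm_smul] at h6
    linarith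
  have hit : ∀ w ∈ ball z s, ∀ k, ‖(fp T)^[n * k] w - z‖ ≤ r ^ k * ‖w - z‖ := by
    intro w hw k
    induction k with
    | zero => simp
    | succ k ih =>
      have h5 : (fp T)^[n * k] w ∈ ball z s := mem_ball_iff_norm.2 (ih.trans_lt
        ((mul_le_of_le_one_left (norm_nonneg _) (pow_le_one₀ hr0 hr2.le)).trans_lt
          (mem_ball_iff_norm.1 hw)))
      rw [Nat.mul_succ, add_comm, Function.iterate_add_apply, pow_succ', mul_assoc]
      exact (hc _ h5).trans (mul_le_mul_of_nonneg_left ih hr0)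
  obtain ⟨c, hc0, j, hj⟩ : ∃ c, lam T c = 0 ∧ ∃ j, (fp T)^[j] (fp T c) ∈ ball z s := by
    by_contra hno
    push Not at hno
    have hb : ∀ k, ∃ h, Br T k h (ball z s) ∧ h z = (fp T)^[(n - 1) * k] z := by
      intro k
      induction k with
      | zero => exact ⟨id, ⟨differentiableOn_id, fun _ _ => rfl⟩, rfl⟩
      | succ k ih =>
        obtain ⟨h, b1, b2⟩ := ih
        refine br_succ hs b1 (fun w hw v hh hv => hno v hv k ?_) ?_
        · rwa [hh, b1.inv w hw]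
        · rw [b2, ← Function.iterate_succ_apply' (fp T),
            show ((n - 1) * (k + 1)).succ = (n - 1) * k + n by rw [Nat.mul_succ]; omega,
            Function.iterate_add_apply, hz]
    obtain ⟨R, hR⟩ : ∃ R, Λ + 2 * ‖z‖ + s = R := ⟨_, rfl⟩
    have hΛ := hT.pos
    have hR0 : 0 < R := by rw [← hR]; positivity
    have hbd : ∀ a, s / R ≤ ‖Pd T z n‖ ^ a := by
      intro a
      obtain ⟨h, b1, b2⟩ := hb (n * a)
      rw [mul_left_comm, Function.iterate_mul, Function.iterate_fixed hz] at b2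
      have b3 : MapsTo h (ball z s) (closedBall (h z) R) := by
        intro w hw
        rw [b2, mem_closedBall_iff_norm]
        have b4 := norm_sub_le (h w) z
        have b5 : ‖w‖ ≤ ‖z‖ + ‖w - z‖ := norm_le_norm_add_norm_sub' w z
        have b6 := mem_ball_iff_norm.1 hw
        have b7 := back_ball hT.esc (R := Λ + ‖z‖ + s) (by linarith [norm_nonneg z]) (n * a)
          (z := h w) (by rw [b1.inv w hw]; linarith)
        linarith
      have b4 := Complex.norm_deriv_le_div_of_mapsTo_ball b1.diff b3 hs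
      rw [b1.norm_deriv isOpen_ball (mem_ball_self hs), b2, t1719_pow hz, norm_pow,
        inv_le_comm₀ (pow_pos (norm_pos_iff.2 h0) a) (div_pos hR0 hs), inv_div] at b4
      exact b4
    obtain ⟨a, ha⟩ := exists_pow_lt_of_lt_one (div_pos hs hR0) h1
    exact absurd (hbd a) (not_le.2 ha)
  refine ⟨c, (fp T)^[(n - 1) * (j + 1)] z, hc0, ?_, t1719_shift hn hz h0 _, ?_⟩
  · rw [Function.minimalPeriod_apply_iterate (Function.mk_mem_periodicPts hn hz), hper]
  · have t1 : Tendsto (fun k => (fp T)^[n * k] ((fp T)^[j] (fp T c))) atTop (𝓝 z) := by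
      rw [tendsto_iff_norm_sub_tendsto_zero]
      refine squeeze_zero (fun _ => norm_nonneg _) (hit _ hj) ?_
      simpa using (tendsto_pow_atTop_nhds_zero_of_lt_one hr0 hr2).mul_const
        ‖(fp T)^[j] (fp T c) - z‖
    have t2 := ((iter_diff (T := T) ((n - 1) * (j + 1))).continuous.tendsto z).comp t1
    rw [← tendsto_add_atTop_iff_nat (j + 1)]
    refine t2.congr fun k => ?_
    have e1 : n * (k + (j + 1)) = (n - 1) * (j + 1) + (n * k + (j + 1)) := by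
      rw [mul_add, ← h4 (j + 1)]; omega
    rw [e1, Function.iterate_add_apply, Function.iterate_add_apply, Function.iterate_succ_apply]
    rfl

/-- A point tends to one sink only.
Hint: along `k ↦ m * n * k` both limits agree; then `n ∣ m` and `Pd T z (n * a) = Pd T z n ^ a`. -/
theorem Cap.le {T : ℂ[X]} {r : ℝ} {c z : ℂ} {n : ℕ} (h : Cap T r c) (h0 : 0 ≤ r) (h1 : r ≤ 1)
    (hn : 0 < n) (hper : Function.minimalPeriod (fp T) z = n)
    (hc : Tendsto (fun k : ℕ => (fp T)^[n * k] c) atTop (𝓝 z)) : ‖Pd T z n‖ ≤ r := by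
  have hz : (fp T)^[n] z = z := ((t57_per hn).1 hper).1
  have hmul : ∀ m : ℕ, 0 < m → Tendsto (fun k : ℕ => m * k) atTop atTop := fun m hm =>
    tendsto_atTop_mono (fun k => Nat.le_mul_of_pos_left k hm) tendsto_id
  rcases h with h | ⟨m, hm, z', h2, h3, h4⟩
  · exact absurd (h.comp (hmul n hn)) (not_tendsto_atTop_of_tendsto_nhds hc.norm)
  · obtain rfl : z = z' := by
      refine tendsto_nhds_unique (hc.comp (hmul m hm)) ((h4.comp (hmul n hn)).congr fun k => ?_)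
      simp only [Function.comp, mul_left_comm m n k]
    obtain ⟨a, rfl⟩ : n ∣ m := hper ▸ Function.IsPeriodicPt.minimalPeriod_dvd h2
    have ha : a ≠ 0 := by
      rintro rfl
      simp at hm
    rw [t1719_pow hz, norm_pow] at h3
    have h5 : r ^ (n * a) ≤ r ^ a := pow_le_pow_of_le_one h0 h1 (Nat.le_mul_of_pos_left a hn)
    exact (pow_le_pow_iff_left₀ (norm_nonneg _) h0 ha).1 (h3.trans h5)

theorem t1721_big {p : ℂ[X]} (hp : 0 < p.natDegree) (A : ℝ) :
    ∃ R : ℝ, 0 < R ∧ ∀ z : ℂ, R ≤ ‖z‖ → A ≤ ‖p.eval z‖ := by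
  have h := (p.tendsto_norm_atTop (natDegree_pos_iff_degree_pos.1 hp)
    (l := comap (fun z : ℂ => ‖z‖) atTop) (z := fun z => z) tendsto_comap).eventually_ge_atTop A
  obtain ⟨R, hR⟩ := eventually_atTop.1 (eventually_comap.1 h)
  exact ⟨max R 1, lt_max_of_lt_right one_pos, fun z hz =>
    hR _ ((le_max_left _ _).trans hz) z rfl⟩

theorem t1721_fp (T : ℂ[X]) (t z : ℂ) : fp (T + C t) z = fp T z + t := by simp [fp]

theorem t1721_lam (T : ℂ[X]) (t z : ℂ) : lam (T + C t) z = lam T z := by simp [lam]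

/-- For one large translate all cycles are repelling. -/
theorem t1721_rep {T : ℂ[X]} (hT : 2 ≤ T.natDegree) {n : ℕ} (hn : 0 < n) :
    ∃ t : ℂ, ∀ z, (fp (T + C t))^[n] z = z → Pd (T + C t) z n ≠ 1 := by
  obtain ⟨R, -, hR⟩ := t1721_big (p := derivative T) (by rw [natDegree_derivative]; omega) 2
  obtain ⟨R', hR0, hR'⟩ := t1721_big (p := divX T)
    (by rw [natDegree_divX_eq_natDegree_tsub_one]; omega) 5
  obtain ⟨M, hM⟩ := (isCompact_closedBall (0 : ℂ) R).exists_bound_of_continuousOn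
    (fp_diff (T := T)).continuous.continuousOn
  obtain ⟨Λ, h1, h2, h3⟩ : ∃ Λ : ℝ, R' ≤ Λ ∧ M ≤ Λ ∧ ‖T.coeff 0‖ ≤ Λ :=
    ⟨max R' (max M ‖T.coeff 0‖), le_max_left _ _, le_max_of_le_right (le_max_left _ _),
      le_max_of_le_right (le_max_right _ _)⟩
  have h0 : 0 < Λ := hR0.trans_le h1
  obtain ⟨t, ht⟩ : ∃ t : ℂ, ‖t‖ = 2 * Λ := ⟨((2 * Λ : ℝ) : ℂ), by
    rw [Complex.norm_real, Real.norm_of_nonneg (by linarith)]⟩
  have hesc : ∀ z : ℂ, Λ ≤ ‖z‖ → 2 * ‖z‖ ≤ ‖fp (T + C t) z‖ := fun z hz => by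
    have a1 : z * (divX T).eval z = fp (T + C t) z - T.coeff 0 - t := by
      have e := congrArg (eval z) (X_mul_divX_add T)
      rw [eval_add, eval_mul, eval_X, eval_C] at e
      rw [t1721_fp, fp, ← e]
      ring
    have a2 : ‖z‖ * 5 ≤ ‖z * (divX T).eval z‖ := by
      rw [norm_mul]
      exact mul_le_mul_of_nonneg_left (hR' z (h1.trans hz)) (norm_nonneg _)
    have a3 := norm_sub_le (fp (T + C t) z - T.coeff 0) t
    have a4 := norm_sub_le (fp (T + C t) z) (T.coeff 0)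
    rw [a1] at a2
    linarith
  refine ⟨t, fun z hz h => ?_⟩
  have hp : ∀ k, (fp (T + C t))^[n] ((fp (T + C t))^[k] z) = (fp (T + C t))^[k] z := fun k => by
    rw [← Function.iterate_add_apply, add_comm n k, Function.iterate_add_apply, hz]
  have hl : ∀ k, 2 ≤ ‖lam (T + C t) ((fp (T + C t))^[k] z)‖ := fun k => by
    rw [t1721_lam]
    refine hR _ (le_of_not_gt fun hk => ?_)
    have a1 := per_lt h0 hesc hn (hp (k + 1))
    have a2 := hM _ (mem_closedBall_zero_iff.2 hk.le)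
    rw [Function.iterate_succ_apply', t1721_fp] at a1
    have a3 := norm_sub_le (fp T ((fp (T + C t))^[k] z) + t) (fp T ((fp (T + C t))^[k] z))
    rw [add_sub_cancel_left] at a3
    linarith
  have hk : ∀ k, (2 : ℝ) ^ k ≤ ‖Pd (T + C t) z k‖ := fun k => by
    induction k with
    | zero => simp [Pd_zero]
    | succ k ih =>
      rw [Pd_succ', norm_mul, pow_succ']
      exact mul_le_mul (hl k) ih (by positivity) (norm_nonneg _)
  have a1 := hk n
  have a2 : (2 : ℝ) ^ 1 ≤ 2 ^ n := pow_le_pow_right₀ one_le_two hn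
  rw [h, norm_one] at a1
  linarith

theorem t1721_eval (S : ℂ[X]) (n : ℕ) (z : ℂ) : (S.comp^[n] X).eval z = (fp S)^[n] z := by
  rw [iterate_comp_eval, eval_X]
  rfl

theorem t1721_poly (T : ℂ[X]) (n : ℕ) : ∃ P : ℂ[X][X], P.natDegree ≤ T.natDegree ^ n ∧
    ∀ t : ℂ, P.map (evalRingHom t) = (T + C t).comp^[n] X := by
  refine ⟨(T.map C + C X).comp^[n] X, ?_, fun t => ?_⟩
  · rw [natDegree_iterate_comp, natDegree_X, mul_one, natDegree_add_C]
    exact Nat.pow_le_pow_left natDegree_map_le n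
  · have h : (T.map C + C X : ℂ[X][X]).map (evalRingHom t) = T + C t := by
      rw [Polynomial.map_add, Polynomial.map_map, map_C]
      have : (evalRingHom t).comp C = RingHom.id ℂ := by ext; simp
      rw [this, Polynomial.map_id]
      simp
    induction n with
    | zero => simp
    | succ n ih => rw [Function.iterate_succ_apply', Function.iterate_succ_apply', map_comp, ih, h]

theorem t1721_deg {S : ℂ[X]} (hS : 2 ≤ S.natDegree) {n : ℕ} (hn : 0 < n) :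
    (S.comp^[n] X - X).natDegree = S.natDegree ^ n := by
  have h : (S.comp^[n] X).natDegree = S.natDegree ^ n := by
    rw [natDegree_iterate_comp, natDegree_X, mul_one]
  rw [natDegree_sub_eq_left_of_natDegree_lt, h]
  rw [h, natDegree_X]
  exact Nat.one_lt_pow hn.ne' (by omega)

theorem t1721_der (S : ℂ[X]) (n : ℕ) (z : ℂ) :
    (derivative (S.comp^[n] X)).eval z = Pd S z n := by
  rw [Pd, ← funext (t1721_eval S n), Polynomial.deriv]

/-- Only finitely many translates have a fixed point of the iterate with multiplier one.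
Hint: port of `t1323_fin` (`H42/Bd.lean`): the iterate is a polynomial in `z` of degree
`T.natDegree ^ n` with coefficients polynomial in `t` and constant leading coefficient; the
resultant does not vanish at a large `t`, where all periodic points `z` have `2 ≤ ‖lam T z‖`
(the largest point of a cycle has norm at most `‖t‖ / 2`, so every point `z` of the cycle has
`‖t‖ / 2 ≤ ‖fp T z‖`, hence is large). -/
theorem fin_one {T : ℂ[X]} (hT : 2 ≤ T.natDegree) {n : ℕ} (hn : 0 < n) :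
    {t : ℂ | ∃ z, (fp (T + C t))^[n] z = z ∧ Pd (T + C t) z n = 1}.Finite := by
  obtain ⟨P, h1, h2⟩ := t1721_poly T n
  obtain ⟨m, hm⟩ : ∃ m, T.natDegree ^ n = m + 2 :=
    ⟨T.natDegree ^ n - 2, (Nat.sub_add_cancel (Nat.one_lt_pow hn.ne' (by omega))).symm⟩
  rw [hm] at h1
  have a1 : (P - X).natDegree ≤ m + 2 :=
    (natDegree_sub_le _ _).trans (max_le h1 (by simp))
  have a2 : (derivative (P - X)).natDegree ≤ m + 1 :=
    (natDegree_derivative_le _).trans (by omega)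
  obtain ⟨p, q, -, -, hpq⟩ := exists_mul_add_mul_eq_C_resultant _ _ a1 a2 (Or.inl (by omega))
  obtain ⟨r, hr⟩ : ∃ r, r = resultant (P - X) (derivative (P - X)) (m + 2) (m + 1) := ⟨_, rfl⟩
  rw [← hr] at hpq
  have hr0 : r ≠ 0 := by
    intro h0
    obtain ⟨t, ht⟩ := t1721_rep hT hn
    have b1 := resultant_map_map (P - X) (derivative (P - X)) (m + 2) (m + 1) (evalRingHom t)
    have b2 : (P - X).map (evalRingHom t) = (T + C t).comp^[n] X - X := by
      rw [Polynomial.map_sub, h2, map_X]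
    have b3 : ((T + C t).comp^[n] X - X).natDegree = m + 2 := by
      rw [t1721_deg (by rwa [natDegree_add_C]) hn, natDegree_add_C, hm]
    have b4 : (derivative ((T + C t).comp^[n] X - X)).natDegree = m + 1 := by
      rw [natDegree_derivative, b3]; rfl
    have b5 := resultant_ne_zero _ _ ((isCoprime_iff_aeval_ne_zero_of_isAlgClosed ℂ ℂ
      ((T + C t).comp^[n] X - X) (derivative ((T + C t).comp^[n] X - X))).2 fun z => by
        simp only [coe_aeval_eq_eval, derivative_sub, derivative_X, eval_sub, eval_X, eval_one,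
          t1721_eval, t1721_der, sub_ne_zero]
        exact or_iff_not_imp_left.2 fun h => ht z (not_not.1 h))
    rw [b3, b4] at b5
    rw [← derivative_map, b2, ← hr, h0, map_zero] at b1
    exact b5 b1
  refine (r.roots.finite_toSet).subset ?_
  rintro c ⟨z, hz1, hz2⟩
  have c3 := congrArg (fun T : ℂ[X][X] => (T.map (evalRingHom c)).eval z) hpq
  simp only [Polynomial.map_add, Polynomial.map_mul, eval_add, eval_mul, ← derivative_map,
    Polynomial.map_sub, Polynomial.map_one, map_X, derivative_sub, derivative_X, eval_sub, eval_X,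
    eval_one, h2, t1721_eval, t1721_der, hz1, hz2, sub_self, zero_mul, add_zero, map_C, eval_C,
    coe_evalRingHom] at c3
  exact (mem_roots hr0).2 c3.symm

theorem t1721_roots {T : ℂ[X]} (hT : 2 ≤ T.natDegree) {n : ℕ} (hn : 0 < n) :
    {w : ℂ | (fp T)^[n] w = w}.Finite := by
  have h0 : T.comp^[n] X - X ≠ 0 := fun h => by
    have := t1721_deg hT hn
    rw [h, natDegree_zero] at this
    exact absurd this.symm (pow_ne_zero _ (by omega))
  refine ((T.comp^[n] X - X).roots.finite_toSet).subset fun w hw => (mem_roots h0).2 ?_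
  have hw : (fp T)^[n] w = w := hw
  rw [IsRoot, eval_sub, t1721_eval, eval_X, hw, sub_self]

theorem t1721_sm (T : ℂ[X]) : Sm T.natDegree fun t : ℂ => T + C t :=
  ⟨fun t => natDegree_add_C.le, fun j => by
    simp only [coeff_add, coeff_C]
    split_ifs
    · exact contDiff_const.add contDiff_id
    · exact contDiff_const⟩

/-- A parabolic cycle can be perturbed to a cycle of the same period with multiplier `≠ 1`
(port of `perturb_one`, `H42/Bd.lean`). -/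
theorem perturb_one {T : ℂ[X]} (hT : 2 ≤ T.natDegree) {z : ℂ} {n : ℕ} (hn : 0 < n)
    (hper : Function.minimalPeriod (fp T) z = n) {η : ℝ} (hη : 0 < η) :
    ∃ t z' : ℂ, ‖t‖ ≤ η ∧ Function.minimalPeriod (fp (T + C t)) z' = n ∧
      Pd (T + C t) z' n ≠ 1 ∧ ‖Pd (T + C t) z' n - Pd T z n‖ ≤ η := by
  have hc : ∀ k, Continuous fun p : ℂ × ℂ => (fp (T + C p.1))^[k] p.2 := (t1721_sm T).iter_cont
  have e0 : T + C 0 = T := by simp
  obtain ⟨h1, h2⟩ := (t57_per hn).1 hper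
  have a1 : ∀ᶠ p : ℂ × ℂ in 𝓝 (0, z), ∀ d ∈ Ioo 0 n, (fp (T + C p.1))^[d] p.2 ≠ p.2 :=
    (eventually_all_finite (finite_Ioo 0 n)).2 fun d hd =>
      (isOpen_ne_fun (hc d) continuous_snd).mem_nhds (by
        show (fp (T + C 0))^[d] z ≠ z
        rw [e0]
        exact h2 d hd)
  have a2 : ∀ᶠ p : ℂ × ℂ in 𝓝 (0, z), ‖Pd (T + C p.1) p.2 n - Pd T z n‖ < η :=
    (isOpen_lt (((t1721_sm T).Pd_cont n).sub continuous_const).norm continuous_const).mem_nhds (by
      show ‖Pd (T + C 0) z n - Pd T z n‖ < η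
      rwa [e0, sub_self, norm_zero])
  obtain ⟨δ, hδ, hd⟩ := Metric.eventually_nhds_iff.1 (a1.and a2)
  obtain ⟨r, hr, hr'⟩ := (Set.Ioo_infinite hδ).exists_notMem_finite
    ((t1721_roots hT hn).image fun w => dist w z)
  have a3 : ∀ᶠ t in 𝓝 (0 : ℂ), ∀ w ∈ sphere z r,
      ‖(fp (T + C t))^[n] z - z‖ < ‖(fp (T + C t))^[n] w - w‖ := by
    refine (isCompact_sphere z r).eventually_forall_of_forall_eventually fun w hw => ?_
    have b1 : Continuous fun p : ℂ × ℂ => ‖(fp (T + C p.1))^[n] z - z‖ :=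
      (((hc n).comp (continuous_fst.prodMk continuous_const)).sub continuous_const).norm
    have b2 : Continuous fun p : ℂ × ℂ => ‖(fp (T + C p.1))^[n] p.2 - p.2‖ :=
      ((hc n).sub continuous_snd).norm
    refine (isOpen_lt b1 b2).mem_nhds ?_
    show ‖(fp (T + C 0))^[n] z - z‖ < ‖(fp (T + C 0))^[n] w - w‖
    rw [e0, h1, sub_self, norm_zero, norm_pos_iff, sub_ne_zero]
    exact fun h => hr' ⟨w, h, hw⟩
  obtain ⟨t, ⟨b1, b2⟩, b3⟩ := (infinite_of_mem_nhds (0 : ℂ) (a3.and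
    (ball_mem_nhds (0 : ℂ) (lt_min hδ hη)))).exists_notMem_finite (fin_one hT hn)
  have b4 : dist t 0 < min δ η := b2
  have b5 : Differentiable ℂ fun w => (fp (T + C t))^[n] w - w :=
    (iter_diff n).sub differentiable_id
  obtain ⟨z', b6, b7⟩ := t37_zero_of_lt hr.1 b5.diffContOnCl b1
  have b8 : (fp (T + C t))^[n] z' = z' := sub_eq_zero.1 b7
  obtain ⟨b9, b10⟩ := @hd (t, z') (by
    rw [Prod.dist_eq]
    exact max_lt (b4.trans_le (min_le_left _ _)) ((mem_ball.1 b6).trans hr.2))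
  exact ⟨t, z', by rw [← dist_zero_right]; exact (b4.trans_le (min_le_right _ _)).le,
    (t57_per hn).2 ⟨b8, b9⟩, fun h => b3 ⟨z', b8, h⟩, b10.le⟩

end Pool.Agent.MP_28f8a1_an.G42

end

-- part MP_28f8a1_an.G42.Main
section

/-! Moving a multiplier close to the unit circle into the disc. -/

set_option autoImplicit false

namespace Pool.Agent.MP_28f8a1_an.G42

open MeasureTheory Metric Set Real Filter Topology Polynomial Pool.Agent.MP_28f8a1_an.H42
open scoped ENNReal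

theorem seg_norm {ρ ρ' r : ℂ} (hr : r ∈ segment ℝ ρ ρ') : ‖r - ρ‖ ≤ ‖ρ' - ρ‖ := by
  have := (convex_closedBall ρ ‖ρ' - ρ‖).segment_subset
    (Metric.mem_closedBall_self (norm_nonneg _)) (by rw [Metric.mem_closedBall, dist_eq_norm]) hr
  rwa [Metric.mem_closedBall, dist_eq_norm] at this

/-- A segment from `ρ` into the disc that stays away from `1`. -/
theorem detour {ρ : ℂ} (h0 : ρ ≠ 1) (h : ‖ρ - 1‖ ≤ 1 / 10) : ∃ ρ' : ℂ, ‖ρ'‖ < 1 ∧
    ‖ρ' - ρ‖ ≤ 4 * ‖ρ - 1‖ ∧ ∀ r ∈ segment ℝ ρ ρ', ‖ρ - 1‖ / 2 ≤ ‖r - 1‖ := by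
  obtain ⟨t, ht⟩ : ∃ t, t = ‖ρ - 1‖ := ⟨_, rfl⟩
  have t0 : 0 < t := ht ▸ norm_pos_iff.mpr (sub_ne_zero.mpr h0)
  have t2 : t ^ 2 = (ρ.re - 1) ^ 2 + ρ.im ^ 2 := by
    rw [ht, Complex.sq_norm, Complex.normSq_apply]
    simp [sq]
  rw [← ht] at h ⊢
  obtain ⟨s, s1, s2⟩ : ∃ s : ℝ, s ^ 2 = 1 ∧ 0 ≤ s * ρ.im := by
    rcases le_total 0 ρ.im with h | h
    · exact ⟨1, by norm_num, by linarith⟩
    · exact ⟨-1, by norm_num, by linarith⟩
  have x1 : ρ.re - 1 ≤ t := le_of_sq_le_sq (by nlinarith) t0.le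
  have x2 : -t ≤ ρ.re - 1 := (abs_le_of_sq_le_sq' (by nlinarith) t0.le).1
  have y1 : s * ρ.im ≤ t := le_of_sq_le_sq (by rw [mul_pow, s1]; nlinarith) t0.le
  refine ⟨⟨ρ.re - 2 * t, ρ.im + 2 * t * s⟩, ?_, ?_, ?_⟩
  · rw [← sq_lt_one_iff₀ (norm_nonneg _), Complex.sq_norm, Complex.normSq_apply]
    nlinarith
  · refine le_of_sq_le_sq ?_ (by positivity)
    rw [Complex.sq_norm, Complex.normSq_apply]
    simp only [Complex.sub_re, Complex.sub_im]
    nlinarith
  · rintro r ⟨a, b, ha, hb, hab, rfl⟩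
    refine le_of_sq_le_sq ?_ (norm_nonneg _)
    rw [Complex.sq_norm, Complex.normSq_apply]
    obtain rfl : a = 1 - b := by linarith
    simp only [Complex.sub_re, Complex.sub_im, Complex.add_re, Complex.add_im, Complex.smul_re,
      Complex.smul_im, smul_eq_mul, Complex.one_re, Complex.one_im]
    have k1 : (1 - b) * ρ.re + b * (ρ.re - 2 * t) - 1 = (ρ.re - 1) - 2 * (b * t) := by ring
    have k2 : (1 - b) * ρ.im + b * (ρ.im + 2 * t * s) - 0 = ρ.im + 2 * (b * t) * s := by ring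
    have k3 : 0 ≤ b * t := by positivity
    rw [k1, k2]
    generalize b * t = v at k3
    generalize ρ.re - 1 = x at t2
    have k4 : (ρ.im + 2 * v * s) * (ρ.im + 2 * v * s) =
        ρ.im ^ 2 + 4 * (v * (s * ρ.im)) + 4 * v ^ 2 * s ^ 2 := by ring
    rw [k4, s1]
    nlinarith [mul_nonneg k3 s2, sq_nonneg (3 * x - 8 * v), sq_nonneg v, sq_nonneg ρ.im]

/-- A short segment from `ρ` into the disc that stays away from `1`. -/
theorem path {ρ : ℂ} {t : ℝ} (ht : 0 < t) (ht1 : t ≤ 1 / 10) (h0 : ρ ≠ 1) (h1 : ‖ρ‖ ≤ 1 + t / 4) :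
    ∃ ρ' : ℂ, ‖ρ'‖ < 1 ∧ ‖ρ' - ρ‖ ≤ 4 * min ‖ρ - 1‖ t ∧
      ∀ r ∈ segment ℝ ρ ρ', min ‖ρ - 1‖ t / 2 ≤ ‖r - 1‖ := by
  rcases le_total ‖ρ - 1‖ t with h | h
  · rw [min_eq_left h]
    exact detour h0 (h.trans ht1)
  · rw [min_eq_right h]
    have h2 : ‖((1 - t / 3 : ℝ) : ℂ) * ρ - ρ‖ = t / 3 * ‖ρ‖ := by
      rw [show ((1 - t / 3 : ℝ) : ℂ) * ρ - ρ = -(((t / 3 : ℝ) : ℂ) * ρ) by push_cast; ring, norm_neg,
        norm_mul, Complex.norm_real, Real.norm_eq_abs, abs_of_pos (by positivity)]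
    refine ⟨((1 - t / 3 : ℝ) : ℂ) * ρ, ?_, by rw [h2]; nlinarith, fun r hr => ?_⟩
    · rw [norm_mul, Complex.norm_real, Real.norm_eq_abs, abs_of_pos (by linarith)]
      nlinarith
    · have h7 := norm_sub_le_norm_sub_add_norm_sub ρ r 1
      have h8 := seg_norm hr
      rw [h2, norm_sub_rev] at h8
      nlinarith

theorem ncard_lt {ι : Type} [Fintype ι] {ω ω' : ι → ℂ} (h : Function.Injective ω)
    (h' : Function.Injective ω') {P P' : ℂ → Prop} (hP : ∀ i, P (ω i) → P' (ω' i)) {j : ι}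
    (hj : ¬P (ω j)) (hj' : P' (ω' j)) :
    {c | (∃ i, ω i = c) ∧ P c}.ncard < {c | (∃ i, ω' i = c) ∧ P' c}.ncard := by
  have e : ∀ (ω : ι → ℂ) (P : ℂ → Prop), {c | (∃ i, ω i = c) ∧ P c} = ω '' {i | P (ω i)} :=
    fun ω P => Set.ext fun c => ⟨fun ⟨⟨i, h1⟩, h2⟩ => ⟨i, show P (ω i) from h1 ▸ h2, h1⟩,
      fun ⟨i, h1, h2⟩ => ⟨⟨i, h2⟩, h2 ▸ h1⟩⟩
  rw [e, e, ncard_image_of_injective _ h, ncard_image_of_injective _ h']
  exact ncard_lt_ncard ⟨hP, fun h2 => hj (h2 hj')⟩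

theorem Cap.mono {T : ℂ[X]} {r r' : ℝ} {c : ℂ} (h : Cap T r c) (h0 : 0 ≤ r) (h1 : r ≤ r') :
    Cap T r' c :=
  h.imp_right fun ⟨n, hn, z, a1, a2, a3⟩ => ⟨n, hn, z, a1, a2.trans (pow_le_pow_left₀ h0 h1 n), a3⟩

theorem Cap.capt {T : ℂ[X]} {r : ℝ} {c : ℂ} (h : Cap T r c) (h0 : 0 ≤ r) (h1 : r < 1) : Capt T c :=
  h.imp_right fun ⟨n, hn, z, a1, a2, a3⟩ =>
    ⟨n, hn, z, a1, a2.trans_lt (pow_lt_one₀ h0 h1 hn.ne'), a3⟩

variable {ι : Type} [Fintype ι] [Nonempty ι] {a : ℂ} {m : ι → ℕ}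

/-- The multiplier can be pushed into the disc inside the family. -/
theorem gap_pol (ha : a ≠ 0) {x₀ : (ι → ℂ) × ℂ} (hx : Function.Injective x₀.1) {η r : ℝ}
    (hη : 0 < η) (hr : r < 1) : ∃ δ > 0, ∀ (z : ℂ) (n : ℕ), 0 < n →
      Function.minimalPeriod (fp (pol a m x₀)) z = n → 1 ≤ ‖Pd (pol a m x₀) z n‖ →
      ‖Pd (pol a m x₀) z n‖ ≤ 1 + δ → ∃ x ∈ closedBall x₀ η, ∃ z',
        Function.minimalPeriod (fp (pol a m x)) z' = n ∧ r < ‖Pd (pol a m x) z' n‖ ∧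
          ‖Pd (pol a m x) z' n‖ < 1 := by
  have hd : 2 ≤ ∑ i, (m i + 1) + 1 :=
    Nat.succ_le_succ (Finset.sum_pos (fun i _ => Nat.succ_pos _) Finset.univ_nonempty)
  obtain ⟨η₁, hη₁, K, hK, hdir⟩ := dirs (m := m) ha hx
  obtain ⟨Λ, hΛ⟩ := adm_near (pol_sm (a := a) (m := m)) hd (pol_deg ha) x₀
  obtain ⟨η₂, hη₂, hadm⟩ := nhds_basis_closedBall.eventually_iff.mp hΛ
  obtain ⟨η', hη', e1, e2, e3⟩ : ∃ η' > 0, η' ≤ η ∧ η' ≤ η₁ ∧ η' ≤ η₂ := ⟨min η (min η₁ η₂),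
    by positivity, min_le_left _ _, (min_le_right _ _).trans (min_le_left _ _),
    (min_le_right _ _).trans (min_le_right _ _)⟩
  obtain ⟨N, hN⟩ : ∃ N : ℝ, N = Fintype.card ι := ⟨_, rfl⟩
  have hN0 : 0 < N := hN ▸ Nat.cast_pos.mpr Fintype.card_pos
  obtain ⟨M, hM, hMη⟩ : ∃ M > 0, 64 * N * K / M = η' :=
    ⟨64 * N * K / η', by positivity, by field_simp⟩
  obtain ⟨κ, hκ, hcore⟩ := core (∑ i, (m i + 1) + 1) Λ hM.le
  obtain ⟨t, ht, t1, t2, t3, t4⟩ : ∃ t > 0, t ≤ 1 / 10 ∧ 5 * t ≤ κ ∧ M * t ≤ κ ∧ 6 * t ≤ 1 - r := by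
    have := sub_pos.mpr hr
    refine ⟨min (min (1 / 10) ((1 - r) / 6)) (min (κ / 5) (κ / M)), by positivity,
      (min_le_left _ _).trans (min_le_left _ _),
      (le_div_iff₀' (by norm_num)).mp ((min_le_right _ _).trans (min_le_left _ _)),
      (le_div_iff₀' hM).mp ((min_le_right _ _).trans (min_le_right _ _)),
      (le_div_iff₀' (by norm_num)).mp ((min_le_left _ _).trans (min_le_right _ _))⟩
  refine ⟨t / 8, by positivity, fun z n hn hper h1 h2 => ?_⟩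
  obtain ⟨s, z₁, a1, a2, a3, a4⟩ := perturb_one (pol_deg ha x₀ ▸ hd) hn hper
    (lt_min (half_pos hη') (show 0 < t / 8 by positivity))
  rw [← pol_add] at a2 a3 a4
  set x₁ := x₀ + (0, s)
  have a5 : ‖x₁ - x₀‖ ≤ η' / 2 := by
    rw [add_sub_cancel_left, Prod.norm_mk, norm_zero, max_eq_right (norm_nonneg _)]
    exact a1.trans (min_le_left _ _)
  set ρ := Pd (pol a m x₁) z₁ n
  have a6 : ‖ρ‖ ≤ 1 + t / 4 := by
    linarith [norm_le_norm_add_norm_sub' ρ (Pd (pol a m x₀) z n), min_le_right (η' / 2) (t / 8)]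
  have a7 : 1 - t / 8 ≤ ‖ρ‖ := by
    linarith [norm_le_norm_add_norm_sub ρ (Pd (pol a m x₀) z n), min_le_right (η' / 2) (t / 8)]
  obtain ⟨ρ', b1, b2, b3⟩ := path ht t1 a3 a6
  have hτ : 0 < min ‖ρ - 1‖ t := lt_min (norm_pos_iff.mpr (sub_ne_zero.mpr a3)) ht
  have hτt := min_le_right ‖ρ - 1‖ t
  generalize min ‖ρ - 1‖ t = τ at b2 b3 hτ hτt
  have b4 : 8 * N * K / (M * τ) * ‖ρ' - ρ‖ ≤ η' / 2 := by
    calc _ ≤ 8 * N * K / (M * τ) * (4 * τ) := by gcongr
      _ = _ := by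
        rw [← hMη]
        field_simp
        norm_num
  obtain ⟨x, z', g1, g2, g3⟩ := move (pol_sm (a := a) (m := m)) (x₀ := x₀) (x := x₁) (η := η')
    (K := 8 * N * K / (M * τ)) (by positivity)
    (fun x hx => hadm (closedBall_subset_closedBall e3 hx)) (ρ' := ρ') hn a2 (by linarith)
    (fun h => by
      have := b3 1 h
      rw [sub_self, norm_zero] at this
      linarith)
    (fun y hy w c1 c2 => by
      have c3 := b3 _ c2
      have c4 := seg_norm c2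
      have c5 := norm_le_norm_add_norm_sub' (Pd (pol a m y) w n) ρ
      have c6 := norm_le_norm_add_norm_sub (Pd (pol a m y) w n) ρ
      have c7 : Pd (pol a m y) w n ≠ 1 := sub_ne_zero.mp (norm_pos_iff.mp (by linarith))
      obtain ⟨Y, y1, y2, y3, y4⟩ := cyc_of (hadm (closedBall_subset_closedBall e3 hy)) hn c1
        (norm_pos_iff.mp (by linarith)) c7
      obtain ⟨-, u, p, p1, p2⟩ := hdir y (closedBall_subset_closedBall e2 hy)
      have c8 := hcore Y (by rw [y2]; linarith) (y2 ▸ c7) (by rw [y2]; linarith) _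
        (Y.def_of p1 (fun i => Nat.succ_le_succ (p2 i).2.2.1) fun i => y1 ▸ (p2 i).2.2.2)
      obtain ⟨i, hi⟩ : ∃ i, M * τ / (2 * N) ≤ ‖Y.L (p i)‖ := by
        by_contra hc
        push Not at hc
        have d1 := Finset.sum_lt_sum_of_nonempty Finset.univ_nonempty fun i _ => hc i
        rw [Finset.sum_const, Finset.card_univ, nsmul_eq_mul, ← hN,
          show N * (M * τ / (2 * N)) = M * (τ / 2) by field_simp] at d1
        refine absurd (c8.trans_lt d1) (not_lt.mpr (le_min (by nlinarith) ?_))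
        rw [y2]
        gcongr
      have c9 := local_move Y ((pol_sm (a := a) (m := m)).line y (u i)) (p2 i).2.1
        (by rw [zero_smul, add_zero, y1]) y3 (by rw [y1, y4, c1]) (y2 ▸ c7) (by positivity) hi
      rw [y2, y4] at c9
      filter_upwards [c9] with v ⟨s, w', d1, d2, d3⟩
      refine ⟨_, w', d1, d2, ?_⟩
      rw [add_sub_cancel_left, norm_smul]
      calc _ ≤ 2 / (M * τ / (2 * N) * (1 / 2)) * ‖v - Pd (pol a m y) w n‖ * K := by
            refine mul_le_mul (d3.trans ?_) (p2 i).1 (norm_nonneg _) (by positivity)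
            gcongr
            linarith
        _ = _ := by
          field_simp
          ring)
  refine ⟨x, mem_closedBall_iff_norm.mpr ?_, z', g1, ?_, g2 ▸ b1⟩
  · linarith [norm_sub_le_norm_sub_add_norm_sub x x₁ x₀]
  · rw [g2]
    linarith [norm_le_norm_add_norm_sub ρ' ρ]

theorem gap_fam (ha : a ≠ 0) {x₀ : (ι → ℂ) × ℂ} (hx : Function.Injective x₀.1) {ε : ℝ}
    (hε : 0 < ε) : ∃ δ > 0, ∀ (z : ℂ) (n : ℕ), 0 < n →
      Function.minimalPeriod (fp (pol a m x₀)) z = n → 1 ≤ ‖Pd (pol a m x₀) z n‖ →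
      ‖Pd (pol a m x₀) z n‖ ≤ 1 + δ → ∃ (S : ℂ[X]) (z' : ℂ),
        S.natDegree = (pol a m x₀).natDegree ∧ (∀ i, ‖S.coeff i - (pol a m x₀).coeff i‖ < ε) ∧
        {c | lam S c = 0}.ncard = {c | lam (pol a m x₀) c = 0}.ncard ∧
        {c | lam (pol a m x₀) c = 0 ∧ Capt (pol a m x₀) c}.ncard <
          {c | lam S c = 0 ∧ Capt S c}.ncard ∧
        Function.minimalPeriod (fp S) z' = n ∧ ‖Pd S z' n‖ < 1 := by
  have hd : 2 ≤ ∑ i, (m i + 1) + 1 :=
    Nat.succ_le_succ (Finset.sum_pos (fun i _ => Nat.succ_pos _) Finset.univ_nonempty)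
  have hF := pol_sm (a := a) (m := m)
  obtain ⟨Λ, hΛ⟩ := adm_near hF hd (pol_deg ha) x₀
  have h1 : ∀ i, ∃ r, 0 ≤ r ∧ r < 1 ∧ ∀ᶠ x in 𝓝 x₀,
      Capt (pol a m x₀) (x₀.1 i) → Cap (pol a m x) r (x.1 i) := fun i => by
    by_cases h : Capt (pol a m x₀) (x₀.1 i)
    · obtain ⟨r, r0, r1, h2⟩ := persist hF hΛ h
      have hc : ContinuousAt (fun x : (ι → ℂ) × ℂ => (x, x.1 i)) x₀ := by fun_prop
      exact ⟨r, r0, r1, (hc.eventually h2).mono fun x hx _ => hx⟩
    · exact ⟨0, le_rfl, one_pos, Eventually.of_forall fun x h' => absurd h' h⟩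
  choose r r0 r1 h1 using h1
  obtain ⟨i₀, hi₀⟩ := Finite.exists_max r
  have h2 : ∀ᶠ x in 𝓝 x₀, ∀ j ∈ Finset.range (∑ i, (m i + 1) + 1 + 1),
      ‖(pol a m x).coeff j - (pol a m x₀).coeff j‖ < ε := (Finset.eventually_all _).mpr fun j _ =>
    by simpa only [dist_eq_norm] using
      Metric.tendsto_nhds.mp ((hF.cd j).continuous.tendsto x₀) ε hε
  obtain ⟨η₁, hη₁, _, -, h3⟩ := dirs (m := m) ha hx
  obtain ⟨η, hη, h4⟩ := nhds_basis_closedBall.eventually_iff.mp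
    ((eventually_all.mpr h1).and (h2.and (hΛ.and (closedBall_mem_nhds x₀ hη₁))))
  obtain ⟨δ, hδ, h5⟩ := gap_pol (m := m) ha hx hη (r1 i₀)
  refine ⟨δ, hδ, fun z n hn hper g1 g2 => ?_⟩
  obtain ⟨x, hx', z', a1, a2, a3⟩ := h5 z n hn hper g1 g2
  obtain ⟨b1, b2, b3, b4⟩ := h4 hx'
  obtain ⟨c, z'', c1, c2, c3, c4⟩ := fatou b3 hn a1 (norm_pos_iff.mp ((r0 i₀).trans_lt a2)) a3
  obtain ⟨j, rfl⟩ := (pol_crit ha x c).mp c1
  refine ⟨pol a m x, z', by rw [pol_deg ha, pol_deg ha], fun j => ?_, ?_, ?_, a1, a3⟩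
  · by_cases hj : j < ∑ i, (m i + 1) + 1 + 1
    · exact b2 j (Finset.mem_range.mpr hj)
    · rw [coeff_eq_zero_of_natDegree_lt (by rw [pol_deg ha]; omega),
        coeff_eq_zero_of_natDegree_lt (by rw [pol_deg ha]; omega), sub_self, norm_zero]
      exact hε
  · simp only [pol_crit ha]
    exact (ncard_range_of_injective (h3 x b4).1).trans (ncard_range_of_injective hx).symm
  · simp only [pol_crit ha]
    refine ncard_lt hx (h3 x b4).1 (fun i hi => (b1 i hi).capt (r0 i) (r1 i)) (j := j)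
      (fun hj => ?_) (Or.inr ⟨n, hn, z'', c2 ▸ Function.iterate_minimalPeriod, c3 ▸ a3, c4⟩)
    have := (b1 j hj).le (r0 j) (r1 j).le hn c2 c4
    rw [c3] at this
    linarith [hi₀ j]

/-- The uniform multiplier gap. -/
theorem gap {T : ℂ[X]} (hT : 2 ≤ T.natDegree) {ε : ℝ} (hε : 0 < ε) : ∃ δ > 0,
    ∀ (z : ℂ) (n : ℕ), 0 < n → Function.minimalPeriod (fp T) z = n → 1 ≤ ‖Pd T z n‖ →
      ‖Pd T z n‖ ≤ 1 + δ → ∃ (S : ℂ[X]) (z' : ℂ), S.natDegree = T.natDegree ∧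
        (∀ i, ‖S.coeff i - T.coeff i‖ < ε) ∧
        {c | lam S c = 0}.ncard = {c | lam T c = 0}.ncard ∧
        {c | lam T c = 0 ∧ Capt T c}.ncard < {c | lam S c = 0 ∧ Capt S c}.ncard ∧
        Function.minimalPeriod (fp S) z' = n ∧ ‖Pd S z' n‖ < 1 := by
  obtain ⟨a, ha, m, hm⟩ := pol_surj (T := T) (by omega)
  have hne : Nonempty T.derivative.roots.toFinset := by
    by_contra h
    have := not_nonempty_iff.mp h
    have h1 := pol_deg (m := m) ha (Subtype.val, T.eval 0)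
    rw [hm, Finset.univ_eq_empty, Finset.sum_empty] at h1
    omega
  have := gap_fam (m := m) ha (x₀ := (Subtype.val, T.eval 0)) Subtype.val_injective hε
  rwa [hm] at this

end Pool.Agent.MP_28f8a1_an.G42

end
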