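import Pool.Agent.MP_28f8a1_an.Mg.G42_Par
import Pool.Agent.MP_28f8a1_an.G42.Base
import Pool.Agent.MP_28f8a1_an.G42.Cyc

-- part MP_28f8a1_an.G42.Par2
section

/-! The limit objects are seen from every point of the cycle, and the Lie derivative of the limit
differential is almost a positive multiple of it. -/

set_option autoImplicit false

namespace Pool.Agent.MP_28f8a1_an.G42

open MeasureTheory Metric Set Real Filter Topology Polynomial Pool.Agent.MP_28f8a1_an.H42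
open scoped ENNReal

variable {d : ℕ} {Λ : ℝ}

namespace Setup

variable (σ : Setup d Λ)

/-- The same vector field is seen from every point of the cycle. -/
theorem transport (hρ : Tendsto (fun n => (σ.Y n).ρ) σ.𝒰 (𝓝 1)) {W V : ℂ → ℂ}
    (hW : Differentiable ℂ W) (hV : Differentiable ℂ V)
    (c1 : ∀ L η : ℝ, 0 < η → ∀ᶠ n in (σ.𝒰 : Filter ℕ), ∀ y ∈ ball (0 : ℂ) L,
      ‖(σ.Fr n (σ.A n y) - σ.A n y) / σ.r n / ((σ.Y n).ρ - 1) - W y‖ ≤ η)
    (c2 : ∀ L η : ℝ, 0 < η → ∀ᶠ n in (σ.𝒰 : Filter ℕ), ∀ y ∈ ball (0 : ℂ) L,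
      ‖(σ.Ψ n).eval (σ.A n y) - V y‖ ≤ η) (L η : ℝ) (hη : 0 < η) :
    ∀ᶠ n in (σ.𝒰 : Filter ℕ), ∀ k < (σ.Y n).B.card, σ.t n (k + 1) ≠ 0 ∧ ∀ y ∈ ball (0 : ℂ) L,
      ‖(σ.Φ n).eval (σ.p n (k + 1) + σ.t n (k + 1) * y) / (((σ.Y n).ρ - 1) * σ.t n (k + 1)) -
        W y‖ ≤ η ∧ ‖(σ.Ψ n).eval (σ.p n (k + 1) + σ.t n (k + 1) * y) - V y‖ ≤ η := by
  obtain ⟨s, ⟨h1, -⟩, hs⟩ := good_radius σ.Enull (lt_add_one (4 * |L|))
  have hs0 : 0 < s := lt_of_le_of_lt (by positivity) h1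
  have hWV : Continuous fun y => (W y, V y) := hW.continuous.prodMk hV.continuous
  obtain ⟨m, hm⟩ := (isCompact_closedBall (0 : ℂ) s).exists_bound_of_continuousOn hWV.continuousOn
  simp only [Prod.norm_mk, max_le_iff] at hm
  have hm0 : 0 ≤ m := (norm_nonneg _).trans (hm 0 (mem_closedBall_self hs0.le)).1
  obtain ⟨δ, hδ, hcont⟩ := Metric.uniformContinuousOn_iff.mp
    ((isCompact_closedBall (0 : ℂ) s).uniformContinuousOn_of_continuous hWV.continuousOn)
    (η / 3) (by positivity)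
  simp only [Prod.dist_eq, max_lt_iff] at hcont
  simp only [dist_eq_norm] at hcont
  obtain ⟨a, ha, a1, a3, a4⟩ : ∃ a > 0, a ≤ 1 / 10 ∧ a * s < δ ∧ 10 * a * (m + 2) ≤ η / 3 := by
    obtain ⟨a, ha, a1, a2⟩ := small_pos (f := fun a => a * s) (by fun_prop) (c := δ)
      (by simpa using hδ) (b := 1 / 10) (by positivity)
    obtain ⟨a', ha', a3, a4⟩ := small_pos (f := fun a => 10 * a * (m + 2)) (by fun_prop)
      (c := η / 3) (by simpa using hη) ha
    exact ⟨a', ha', a3.trans a1, a2 a' ha' a3, (a4 a' ha' le_rfl).le⟩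
  have ham : 0 ≤ a * m := by positivity
  set R := 34 * (s + 1) / a with hR
  have hsR : 10 * (s + 1) ≤ R / 34 := by
    rw [hR, le_div_iff₀ (by norm_num), le_div_iff₀ ha]
    nlinarith
  filter_upwards [σ.branches R, σ.all_α hs (R := R) (by linarith) ha, σ.sphere_B hs,
    c1 (s + 1) a ha, c2 (s + 1) a ha, σ.near_id hρ (s + 1) one_pos]
    with n g1 g2 g3 g4 g5 g6 k hk
  obtain ⟨G, hG, hG0⟩ := g1 _ le_rfl
  rw [σ.p_card] at hG0
  obtain ⟨h, hb, h0⟩ := g1 (k + 1) hk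
  have hr := σ.rpos n
  have hr' := σ.r_ne n
  have hτ : (σ.Y n).ρ - 1 ≠ 0 := sub_ne_zero.mpr (σ.ρne n)
  have hR0 : 0 < R * σ.r n := mul_pos (by linarith) hr
  have hu := hb.univ isOpen_ball
  obtain ⟨t1, t2⟩ := σ.t_eq hR0 hb h0
  have hd0 : deriv h (σ.p n 0) ≠ 0 := hu.ne _ (mem_ball_self hR0)
  have hRa : a * (R * σ.r n) = 34 * ((s + 1) * σ.r n) := by
    rw [hR]
    field_simp
  have h34 : ∀ x : ℂ, ‖x‖ ≤ s → 34 * ‖σ.A n x - σ.p n 0‖ ≤ a * (R * σ.r n) := fun x hx => by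
    rw [A, add_sub_cancel_left, σ.norm_r, hRa]
    nlinarith
  have hxs1 : ∀ x : ℂ, ‖x‖ ≤ s → x ∈ ball (0 : ℂ) (s + 1) := fun x hx =>
    mem_ball_zero_iff.mpr (by linarith)
  have hval : ∀ x : ℂ, ‖x‖ ≤ s →
      ‖h (σ.A n x) - σ.p n (k + 1) - σ.t n (k + 1) * x‖ ≤ a * (‖σ.t n (k + 1)‖ * ‖x‖) :=
    fun x hx => by
      have := lin_val hR0 hu (η := a) (by linarith) (h34 x hx)
      rw [h0, A, add_sub_cancel_left, ← mul_assoc, ← t1, mul_assoc, ← norm_mul, ← mul_assoc, ← t1,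
        norm_mul] at this
      exact this
  have hdisp : ∀ x : ℂ, ‖x‖ ≤ s → ‖σ.Fr n (h (σ.A n x)) - h (σ.A n x) -
      deriv h (σ.p n 0) * (σ.Fr n (σ.A n x) - σ.A n x)‖ ≤
      a * ‖deriv h (σ.p n 0) * (σ.Fr n (σ.A n x) - σ.A n x)‖ := fun x hx => by
    rw [σ.comm hG hG0 hb h0 (by linarith), norm_mul, ← mul_assoc]
    refine lin_two hR0 hu (by linarith) (h34 x hx) ?_
    have b1 := g6 x (hxs1 x hx)
    rw [norm_div, Complex.norm_real, Real.norm_eq_abs, abs_of_pos hr, div_le_one hr] at b1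
    have b2 := norm_sub_le_norm_sub_add_norm_sub (σ.Fr n (σ.A n x)) (σ.A n x) (σ.p n 0)
    rw [show σ.A n x - σ.p n 0 = σ.r n * x by simp [A], σ.norm_r] at b2
    rw [hRa]
    nlinarith
  have hΨ : ∀ x : ℂ, ‖x - 0‖ ≤ s → 
      ‖(σ.Ψ n).eval (h (σ.A n x)) - V x‖ ≤ 10 * a * (m + 1) + a := by
    refine max_disc hs0 (R := R) (by linarith) (fun x hx => ?_) fun x hx => ?_
    · have hxA := σ.A_mem0 (n := n).mpr (mem_ball_zero_iff.mp hx)
      exact (((σ.Ψ n).differentiableAt.comp x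
        ((hb.diff.differentiableAt (isOpen_ball.mem_nhds hxA)).comp x
          (σ.A_deriv n x).differentiableAt)).sub (hV x)).differentiableWithinAt
    · rw [sub_zero] at hx
      have hx0 : x ≠ 0 := norm_pos_iff.mp (hx ▸ hs0)
      have hxR : ‖x‖ < R := by linarith
      have hxA := σ.A_mem0 (n := n).mpr hxR
      have hB : σ.A n x ∉ (σ.Y n).B := fun hB => hx0 (σ.A_inj n (by
        rw [σ.A_zero]
        exact g3 x (mem_sphere_zero_iff_norm.mpr hx) hB))
      have hB' : h (σ.A n x) ∉ (σ.Y n).B := fun hB' =>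
        hB (hb.inv _ hxA ▸ (σ.Y n).iter_mem hB' _)
      have b1 := g5 x (hxs1 x hx.le)
      have b2 := g2 k hk h hb h0 x (mem_sphere_zero_iff_norm.mpr hx)
      have b3 := σ.Ψ_eq n hB
      rw [(σ.Y n).q_eq (σ.pmem n 0) hB, show σ.A n x - σ.p n 0 = σ.r n * x by simp [A]] at b3
      change _ = _ * (σ.u n x / _) at b3
      have hu0 : σ.u n x ≠ 0 := by
        intro h1
        change ‖1 - _ / σ.u n x‖ ≤ a at b2
        rw [h1, div_zero, sub_zero, norm_one] at b2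
        linarith
      by_cases hF : σ.Fr n (σ.A n x) - σ.A n x = 0
      · have b6 := hdisp x hx.le
        rw [hF, mul_zero, sub_zero, norm_zero, mul_zero, norm_le_zero_iff] at b6
        rw [b3, hF] at b1
        rw [σ.Ψ_eq n hB', b6]
        simp only [zero_div, ne_eq, OfNat.ofNat_ne_zero, not_false_eq_true, zero_pow,
          zero_mul] at b1 ⊢
        nlinarith
      obtain ⟨b4, b5⟩ := σ.α_eq hb h0 hx0 hxR hu0
      have hdF := mul_ne_zero hd0 hF
      refine ratio_est (a := σ.α n k h x) (u := (σ.Ψ n).eval (σ.A n x))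
        (θ₁ := (σ.Fr n (h (σ.A n x)) - h (σ.A n x)) /
          (deriv h (σ.p n 0) * (σ.Fr n (σ.A n x) - σ.A n x)))
        (θ₂ := deriv h (σ.A n x) / deriv h (σ.p n 0)) ha a1 ?_ ?_
        b2 ?_ b1 ?_
      · rw [div_sub_one hdF, norm_div, div_le_iff₀ (norm_pos_iff.mpr hdF)]
        exact hdisp x hx.le
      · rw [div_sub_one hd0, norm_div, div_le_iff₀ (norm_pos_iff.mpr hd0)]
        exact lin_deriv hR0 hu (by linarith) (h34 x hx.le)
      · linarith [norm_sub_norm_le ((σ.Ψ n).eval (σ.A n x)) (V x),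
          (hm x (mem_closedBall_zero_iff.mpr hx.le)).2]
      · rw [b3, σ.Ψ_eq n hB', (σ.Y n).q_eq (σ.pmem n (k + 1)) hB']
        field_simp
        linear_combination (-(σ.Fr n (h (σ.A n x)) - h (σ.A n x)) ^ 2) * b5
  refine ⟨t2, fun y hy => ?_⟩
  have hyL := mem_ball_zero_iff.mp hy
  obtain ⟨z, hz, hzz⟩ := koebe (mul_pos hs0 hr)
    (hu.mono (ball_subset_ball (mul_le_mul_of_nonneg_right (show s ≤ R by linarith) hr.le)))
    (show σ.p n (k + 1) + σ.t n (k + 1) * y ∈ _ by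
      rw [mem_ball, dist_eq_norm, h0, add_sub_cancel_left, t1, mul_assoc, norm_mul, σ.norm_r,
        mul_div_assoc]
      refine mul_lt_mul_of_pos_left ?_ (norm_pos_iff.mpr hd0)
      nlinarith [le_abs_self L])
  have hz' := σ.A_div n z
  set x := (z - σ.p n 0) / σ.r n
  have hxs : ‖x‖ < s := σ.A_mem0.mp (hz'.symm ▸ hz)
  have k1 := hΨ x (by rw [sub_zero]; exact hxs.le)
  have k2 := hval x hxs.le
  have k6 := hdisp x hxs.le
  have k7 := g4 x (hxs1 x hxs.le)
  rw [hz'] at k1 k2 k6 k7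
  rw [hzz] at k1 k2 k6
  rw [add_sub_cancel_left, ← mul_sub, norm_mul, mul_left_comm] at k2
  have k3 := le_of_mul_le_mul_left k2 (norm_pos_iff.mpr t2)
  obtain ⟨k4, k5⟩ := hcont x (mem_closedBall_zero_iff.mpr hxs.le) y
    (mem_closedBall_zero_iff.mpr (by linarith [le_abs_self L, abs_nonneg L])) (by
      rw [norm_sub_rev]
      nlinarith)
  refine ⟨?_, (norm_sub_le_norm_sub_add_norm_sub _ (V x) _).trans (by linarith)⟩
  rw [σ.Φ_eq]
  set v := σ.Fr n (σ.p n (k + 1) + σ.t n (k + 1) * y) - (σ.p n (k + 1) + σ.t n (k + 1) * y)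
  set w := (σ.Fr n z - z) / σ.r n / ((σ.Y n).ρ - 1) with hw
  have k8 : ‖v / (((σ.Y n).ρ - 1) * σ.t n (k + 1)) - w‖ ≤ a * ‖w‖ := by
    have hτt := mul_ne_zero hτ t2
    have e1 : deriv h (σ.p n 0) * (σ.Fr n z - z) = w * (((σ.Y n).ρ - 1) * σ.t n (k + 1)) := by
      rw [hw, t1]
      field_simp
    rw [e1, norm_mul, ← mul_assoc a] at k6
    rwa [div_sub' hτt, norm_div, div_le_iff₀ (norm_pos_iff.mpr hτt),
      mul_comm (((σ.Y n).ρ - 1) * σ.t n (k + 1)) w]
  have k9 : ‖w‖ ≤ m + 1 := by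
    linarith [norm_le_norm_add_norm_sub' w (W x), (hm x (mem_closedBall_zero_iff.mpr hxs.le)).1]
  have k10 := norm_sub_le_norm_sub_add_norm_sub (v / (((σ.Y n).ρ - 1) * σ.t n (k + 1))) w (W y)
  have k11 := norm_sub_le_norm_sub_add_norm_sub w (W x) (W y)
  nlinarith

theorem t_zero (n : ℕ) : σ.t n 0 = σ.r n := by rw [t, Pd_zero, div_one]

theorem p_surj (n : ℕ) {z : ℂ} (hz : z ∈ (σ.Y n).B) : ∃ k < (σ.Y n).B.card, σ.p n k = z := by
  obtain ⟨k, hk, h⟩ := Finset.surj_on_of_inj_on_of_card_le (s := Finset.range (σ.Y n).B.card)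
    (t := (σ.Y n).B) (fun k _ => σ.p n k) (fun k _ => σ.pmem n _)
    (fun i j hi hj h => σ.pinj n i (Finset.mem_range.mp hi) j (Finset.mem_range.mp hj) h)
    (by simp) z hz
  exact ⟨k, Finset.mem_range.mp hk, h.symm⟩

theorem not_B (n : ℕ) {z : ℂ} : (∀ k < (σ.Y n).B.card, σ.p n k ≠ z) ↔ z ∉ (σ.Y n).B :=
  ⟨fun h hz => (σ.p_surj n hz).elim fun k hk => h k hk.1 hk.2,
    fun h k _ hk => h (hk ▸ σ.pmem n k)⟩

/-- The family of charts along the cycle. -/
noncomputable def fam (hρ : Tendsto (fun n => (σ.Y n).ρ) σ.𝒰 (𝓝 1)) {W V : ℂ → ℂ}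
    (hW : Differentiable ℂ W) (hV : Differentiable ℂ V) (h1 : deriv W 0 = 1)
    (c1 : ∀ L η : ℝ, 0 < η → ∀ᶠ n in (σ.𝒰 : Filter ℕ), ∀ y ∈ ball (0 : ℂ) L,
      ‖(σ.Fr n (σ.A n y) - σ.A n y) / σ.r n / ((σ.Y n).ρ - 1) - W y‖ ≤ η)
    (c2 : ∀ L η : ℝ, 0 < η → ∀ᶠ n in (σ.𝒰 : Filter ℕ), ∀ y ∈ ball (0 : ℂ) L,
      ‖(σ.Ψ n).eval (σ.A n y) - V y‖ ≤ η) : Fam where
  𝒰 := σ.𝒰
  P := fun n => (σ.Y n).B.card
  b := σ.p
  t := σ.t
  Φ := σ.Φ
  Ψ := σ.Ψ
  τ := fun n => (σ.Y n).ρ - 1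
  q := fun n => (σ.Y n).q
  W := W
  V := V
  hP := fun n => (σ.Y n).ne.card_pos
  hτ := fun n => sub_ne_zero.mpr (σ.ρne n)
  hb := fun n k _ => ⟨by rw [σ.Φ_eq, Fr, (σ.Y n).fix _ (σ.pmem n _), sub_self],
    ((σ.Y n).psi_at (σ.ρne n) (fun z hz => σ.Ψ_eq n hz) (σ.pmem n k)).1⟩
  hinj := σ.pinj
  hz := fun n z h h' => σ.p_surj n ((σ.Ψ_ne n h).2 h')
  hq := fun n z h => ⟨(σ.Y n).q_diff ((σ.not_B n).mp h), by
    rw [σ.Φ_eq, σ.Ψ_eq n ((σ.not_B n).mp h)]⟩
  cnt0 := fun n T h => (σ.Y n).q_cnt.1 T fun z hz => ⟨(σ.not_B n).mp (h z hz).1, (h z hz).2⟩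
  cnt1 := fun n w hw T h =>
    (σ.Y n).q_cnt.2 w hw T fun z hz => ⟨(σ.not_B n).mp (h z hz).1, (h z hz).2⟩
  hW := hW
  hV := hV
  W1 := h1
  hc := fun L η hη => by
    filter_upwards [σ.transport hρ hW hV c1 c2 L η hη, c1 L η hη, c2 L η hη]
      with n g1 g2 g3 k hk
    rcases k with _ | k
    · rw [σ.t_zero]
      refine ⟨σ.r_ne n, fun y hy => ⟨?_, g3 y hy⟩⟩
      rw [σ.Φ_eq, mul_comm ((σ.Y n).ρ - 1), ← div_div]
      exact g2 y hy
    · exact g1 k (by omega)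

theorem r_small (L : ℝ) : ∀ᶠ n in (σ.𝒰 : Filter ℕ), L * σ.r n ≤ 2 * Λ := by
  filter_upwards [σ.branches L] with n hn
  obtain ⟨h, hb, -⟩ := hn 1 (σ.Y n).ne.card_pos
  by_contra hc
  refine (σ.Y n).adm.nobr h (hb.mono (ball_subset_ball' ?_))
  rw [dist_zero_left]
  linarith [σ.ble n 0]

end Setup

theorem ofReal_sum_le (s : Finset ℕ) (f : ℕ → ℝ) :
    ENNReal.ofReal (∑ i ∈ s, f i) ≤ ∑ i ∈ s, ENNReal.ofReal (f i) := by
  induction s using Finset.induction_on with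
  | empty => simp
  | insert a s ha ih =>
    rw [Finset.sum_insert ha, Finset.sum_insert ha]
    exact ENNReal.ofReal_add_le.trans (add_le_add le_rfl ih)

namespace Setup

variable (σ : Setup d Λ)

theorem q_chart {n : ℕ} {y : ℂ} (hB : σ.A n y ∉ (σ.Y n).B) :
    y ≠ 0 ∧ σ.u n y = y ^ 2 * (σ.r n ^ 2 * (σ.Y n).q (σ.A n y)) := by
  have hy : y ≠ 0 := by
    rintro rfl
    exact hB (σ.A_zero n ▸ σ.pmem n 0)
  refine ⟨hy, ?_⟩
  rw [(σ.Y n).q_eq (σ.pmem n 0) hB, show σ.A n y - σ.p n 0 = σ.r n * y by simp [A]]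
  change (σ.Y n).U _ (σ.A n y) = _
  have := σ.r_ne n
  field_simp

theorem β_lim (hρ : Tendsto (fun n => (σ.Y n).ρ) σ.𝒰 (𝓝 1)) {W R : ℂ → ℂ}
    (hW : Differentiable ℂ W)
    (c1 : ∀ L η : ℝ, 0 < η → ∀ᶠ n in (σ.𝒰 : Filter ℕ), ∀ y ∈ ball (0 : ℂ) L,
      ‖(σ.Fr n (σ.A n y) - σ.A n y) / σ.r n / ((σ.Y n).ρ - 1) - W y‖ ≤ η)
    {x : ℂ} {ε L : ℝ} (hε : 0 < ε) (hR : DifferentiableOn ℂ R (ball x ε)) (hx : R x ≠ 0)
    (hc : ∀ η > 0, ∀ᶠ n in (σ.𝒰 : Filter ℕ), ∀ y ∈ ball x ε, σ.A n y ∉ (σ.Y n).B ∧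
      ‖σ.r n ^ 2 * (σ.Y n).q (σ.A n y) - R y‖ ≤ η) (hL : 34 * ‖x‖ < L) {G : ℕ → ℂ → ℂ}
    (hG : ∀ᶠ n in (σ.𝒰 : Filter ℕ),
      Br (σ.Y n).T ((σ.Y n).B.card - 1 + 1) (G n) (ball (σ.p n 0) (L * σ.r n)) ∧
      G n (σ.p n 0) = σ.p n ((σ.Y n).B.card - 1 + 1)) :
    Tendsto (fun n => (1 - σ.α n ((σ.Y n).B.card - 1) (G n) x) / ((σ.Y n).ρ - 1)) σ.𝒰
      (𝓝 (2 * deriv W x + W x * deriv R x / R x)) := by
  set w : ℕ → ℂ → ℂ := fun n y => (σ.Fr n (σ.A n y) - σ.A n y) / σ.r n / ((σ.Y n).ρ - 1) with hw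
  set y : ℕ → ℂ := fun n => (G n (σ.A n x) - σ.p n 0) / σ.r n with hy
  have hτ : ∀ n, (σ.Y n).ρ - 1 ≠ 0 := fun n => sub_ne_zero.mpr (σ.ρne n)
  have hd : ∀ n v, HasDerivAt (w n)
      ((Pd (σ.Y n).T (σ.A n v) (σ.Y n).B.card - 1) / ((σ.Y n).ρ - 1)) v := fun n v => by
    have := ((((iter_deriv (T := (σ.Y n).T) (σ.Y n).B.card (σ.A n v)).comp v
      (σ.A_deriv n v)).sub (σ.A_deriv n v)).div_const (σ.r n : ℂ)).div_const ((σ.Y n).ρ - 1)
    refine this.congr_deriv ?_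
    have := σ.r_ne n
    field_simp
  have hxL : ‖x‖ < L := by linarith [norm_nonneg x]
  have h1 : ∀ᶠ n in (σ.𝒰 : Filter ℕ), σ.Fr n (σ.A n (y n)) = σ.A n x ∧ ‖y n‖ ≤ 4 * ‖x‖ ∧
      Pd (σ.Y n).T (σ.A n (y n)) (σ.Y n).B.card * deriv (G n) (σ.A n x) = 1 := by
    filter_upwards [hG] with n ⟨g1, g2⟩
    rw [Nat.sub_add_cancel (σ.Y n).ne.card_pos] at g1 g2
    rw [σ.p_card] at g2
    have hr := σ.rpos n
    have hR0 : 0 < L * σ.r n := mul_pos ((norm_nonneg _).trans_lt hxL) hr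
    have hxA := σ.A_mem0 (n := n).mpr hxL
    have e1 : σ.A n x - σ.p n 0 = σ.r n * x := by simp [A]
    rw [hy, σ.A_div]
    refine ⟨g1.inv _ hxA, ?_, g1.mul_deriv isOpen_ball hxA⟩
    have := lin_val_le hR0 (g1.univ isOpen_ball) (z := σ.A n x) (by
      rw [e1, σ.norm_r]
      nlinarith)
    rw [g2, e1, σ.norm_r] at this
    rw [norm_div, Complex.norm_real, Real.norm_eq_abs, abs_of_pos hr, div_le_iff₀ hr]
    nlinarith [(σ.G_deriv hR0 g1 g2).2.2, mul_nonneg hr.le (norm_nonneg x)]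
  have h2 : ∀ n, σ.Fr n (σ.A n (y n)) = σ.A n x →
      (σ.Fr n (σ.A n (y n)) - σ.A n (y n)) / σ.r n = x - y n := fun n h => by
    have := σ.r_ne n
    rw [h]
    simp only [A]
    field_simp
    ring
  have hyx : Tendsto y σ.𝒰 (𝓝 x) := by
    refine Metric.tendsto_nhds.mpr fun η hη => ?_
    filter_upwards [h1, σ.near_id hρ (4 * ‖x‖ + 1) (half_pos hη)] with n g1 g2
    have := g2 (y n) (mem_ball_zero_iff.mpr (by linarith [g1.2.1]))
    rw [h2 n g1.1] at this
    rw [dist_eq_norm, norm_sub_rev]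
    linarith
  have hl := lie_limit (l := σ.𝒰) (Q := fun n v => σ.r n ^ 2 * (σ.Y n).q (σ.A n v)) (w := w)
    (τ := fun n => (σ.Y n).ρ - 1) hε hR hW.differentiableOn hx
    (by simpa using hρ.sub_const 1) hyx (by
      filter_upwards [h1, hc 1 one_pos] with n g1 g2
      refine ⟨hτ n, fun v hv => ((((σ.Y n).q_diff (g2 v hv).1).comp v
        (σ.A_deriv n v).differentiableAt).const_mul _).differentiableWithinAt,
        fun v _ => (hd n v).differentiableAt.differentiableWithinAt, ?_⟩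
      simp only [hw]
      rw [h2 n g1.1, mul_div_cancel₀ _ (hτ n), add_sub_cancel])
    (fun η hη => by
      filter_upwards [hc η hη, c1 (‖x‖ + ε) η hη] with n g1 g2 v hv
      refine ⟨(g1 v hv).2, g2 v ?_⟩
      rw [mem_ball, dist_eq_norm] at hv
      rw [mem_ball_zero_iff]
      linarith [norm_le_norm_add_norm_sub' v x])
  refine hl.congr' ?_
  filter_upwards [h1, hG, hc (‖R x‖ / 2) (by positivity), hyx.eventually (ball_mem_nhds x hε)]
    with n ⟨g1, _, g3⟩ ⟨g4, g5⟩ g6 g7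
  obtain ⟨a1, a2⟩ := σ.q_chart (g6 x (mem_ball_self hε)).1
  obtain ⟨a3, a4⟩ := σ.q_chart (g6 _ g7).1
  have a5 : (σ.r n : ℂ) ^ 2 * (σ.Y n).q (σ.A n x) ≠ 0 := fun h => by
    have := (g6 x (mem_ball_self hε)).2
    rw [h, zero_sub, norm_neg] at this
    linarith [norm_pos_iff.mpr hx]
  obtain ⟨-, a6⟩ := σ.α_eq g4 g5 a1 hxL (a2 ▸ mul_ne_zero (pow_ne_zero _ a1) a5)
  have a7 : G n (σ.A n x) = σ.A n (y n) := (σ.A_div n _).symm
  rw [Nat.sub_add_cancel (σ.Y n).ne.card_pos, σ.p_card, a7,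
    show σ.A n (y n) - σ.p n 0 = σ.r n * y n by simp [A]] at a6
  change _ = σ.u n (y n) * _ * _ at a6
  rw [a2, a4] at a6
  rw [(hd n _).deriv, mul_div_cancel₀ _ (hτ n), add_sub_cancel]
  congr 2
  have a8 := left_ne_zero_of_mul_eq_one g3
  have hr := σ.r_ne n
  rw [div_eq_iff (mul_ne_zero a5 (pow_ne_zero _ a8))]
  refine mul_left_cancel₀ (mul_ne_zero (pow_ne_zero 2 a1) (pow_ne_zero 2 (mul_ne_zero hr a3))) ?_
  linear_combination (-Pd (σ.Y n).T (σ.A n (y n)) (σ.Y n).B.card ^ 2) * a6 -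
    (x ^ 2 * (σ.r n * y n) ^ 2 * (σ.r n ^ 2 * (σ.Y n).q (σ.A n (y n))) *
      (1 + Pd (σ.Y n).T (σ.A n (y n)) (σ.Y n).B.card * deriv (G n) (σ.A n x))) * g3

/-- The error along the whole cycle over a set with bounded multiplicity. -/
theorem err_mult {n K : ℕ} {S X : Set ℂ} {L a : ℝ} (ha : 0 < a) (ha1 : a ≤ 1)
    (hL : 0 < L) (hX : X ⊆ ball 0 L) (hS : thickening (a * L) X ⊆ S)
    (hm : ∀ (v : ℂ) (J : Finset ℕ), (∀ k ∈ J, k < (σ.Y n).B.card ∧ ∃ y ∈ S, ‖y‖ < 2 * L ∧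
      σ.p n k + σ.t n k * y = v) → J.card ≤ K) (hr4 : 34 * L / a * σ.r n ≤ 2 * Λ) {h : ℂ → ℂ}
    (hb : Br (σ.Y n).T ((σ.Y n).B.card - 1) h (ball (σ.p n 0) (34 * L / a * σ.r n)))
    (h0 : h (σ.p n 0) = σ.p n ((σ.Y n).B.card - 1)) {Z : Set ℂ} (hZ : MeasurableSet Z)
    (hZX : ∀ z ∈ Z, ∃ y ∈ X, σ.A n y = z) :
    LI Z ((σ.Y n).Err ((σ.Y n).B.card - 1) h) ≤ K * LI (ball 0 (3 * Λ)) (σ.Y n).err := by
  have hr := σ.rpos n
  have hP := (σ.Y n).ne.card_pos
  have hLR : L ≤ 34 * L / a := by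
    rw [le_div_iff₀ ha]
    nlinarith
  have hR0 : 0 < 34 * L / a * σ.r n := by positivity
  refine LI_Err' (σ.Y n) (by linarith [σ.Λpos]) (by linarith [σ.ble n 0]) hb hZ (fun z hz => ?_)
    fun v J hJ => ?_
  · obtain ⟨y, hy, rfl⟩ := hZX z hz
    exact σ.A_mem0.mpr ((mem_ball_zero_iff.mp (hX hy)).trans_le hLR)
  rw [← Finset.card_image_of_injOn (f := fun j => (σ.Y n).B.card - 1 - j) fun i hi j hj hij => by
    have := (hJ i hi).1
    have := (hJ j hj).1
    simp only at hij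
    omega]
  refine hm v _ fun k hk => ?_
  obtain ⟨j, hj, rfl⟩ := Finset.mem_image.mp hk
  obtain ⟨j1, z, hz, hv⟩ := hJ j hj
  obtain ⟨y, hy, rfl⟩ := hZX z hz
  have hyL := mem_ball_zero_iff.mp (hX hy)
  have b1 := hb.iter j1
  have b2 : (fp (σ.Y n).T)^[j] (h (σ.p n 0)) = σ.p n ((σ.Y n).B.card - 1 - j) := by
    rw [h0, ← σ.p_iter n j ((σ.Y n).B.card - 1 - j), Nat.sub_add_cancel j1]
  obtain ⟨t1, t2⟩ := σ.t_eq hR0 b1 b2
  have b3 := lin_val hR0 (b1.univ isOpen_ball) (η := a) (z := σ.A n y) (by linarith) (by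
    rw [A, add_sub_cancel_left, σ.norm_r, show a * (34 * L / a * σ.r n) = 34 * (σ.r n * L) by
      field_simp]
    gcongr)
  rw [hv, b2, A, add_sub_cancel_left, ← mul_assoc, ← t1, mul_assoc, ← norm_mul, ← mul_assoc, ← t1,
    norm_mul] at b3
  set k := (σ.Y n).B.card - 1 - j
  have b4 : ‖(v - σ.p n k) / σ.t n k - y‖ < a * L := by
    rw [div_sub' t2, norm_div, div_lt_iff₀ (norm_pos_iff.mpr t2)]
    refine b3.trans_lt ?_
    rw [mul_assoc, mul_comm L]
    have := norm_pos_iff.mpr t2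
    gcongr
  refine ⟨by omega, (v - σ.p n k) / σ.t n k,
    hS (mem_thickening_iff.mpr ⟨y, hy, by rwa [dist_eq_norm]⟩), ?_, by field_simp; ring⟩
  nlinarith [norm_le_norm_add_norm_sub' ((v - σ.p n k) / σ.t n k) y]

theorem star (hρ : Tendsto (fun n => (σ.Y n).ρ) σ.𝒰 (𝓝 1)) {W V : ℂ → ℂ}
    (hW : Differentiable ℂ W) (hV : Differentiable ℂ V) (h1 : deriv W 0 = 1)
    (c1 : ∀ L η : ℝ, 0 < η → ∀ᶠ n in (σ.𝒰 : Filter ℕ), ∀ y ∈ ball (0 : ℂ) L,
      ‖(σ.Fr n (σ.A n y) - σ.A n y) / σ.r n / ((σ.Y n).ρ - 1) - W y‖ ≤ η)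
    (c2 : ∀ L η : ℝ, 0 < η → ∀ᶠ n in (σ.𝒰 : Filter ℕ), ∀ y ∈ ball (0 : ℂ) L,
      ‖(σ.Ψ n).eval (σ.A n y) - V y‖ ≤ η) {u : ℂ}
    (hu : Tendsto (fun n => ((σ.Y n).ρ - 1) * (‖(σ.Y n).ρ - 1‖⁻¹ : ℝ)) σ.𝒰 (𝓝 u))
    (R : ℂ → ℂ) (K : ℕ) (S : Set ℂ) (hT : Trio W V R) (hl : (σ.fam hρ hW hV h1 c1 c2).Lim R)
    (hS : IsOpen S) (hm : (σ.fam hρ hW hV h1 c1 c2).Mult K S) : Star W V R u S := by
  obtain ⟨C, hC, hrate⟩ := σ.rate (3 * Λ) (by linarith [σ.Λpos])
  refine ⟨18 * K * C / π, fun N x ε μ hdisj hx => ?_⟩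
  have hX : IsCompact (⋃ i ∈ Finset.range N, closedBall (x i) (ε i)) :=
    (Finset.range N).isCompact_biUnion fun i _ => isCompact_closedBall _ _
  set X := ⋃ i ∈ Finset.range N, closedBall (x i) (ε i)
  have hXi : ∀ i < N, closedBall (x i) (ε i) ⊆ X := fun i hi =>
    subset_iUnion₂ (s := fun i (_ : i ∈ Finset.range N) => closedBall (x i) (ε i)) i
      (Finset.mem_range.mpr hi)
  have hXS : X ⊆ S \ Zs W V := iUnion₂_subset fun i hi => (hx i (Finset.mem_range.mp hi)).2.2.2.1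
  obtain ⟨L, hL, hXL⟩ := hX.isBounded.subset_ball_lt 0 0
  obtain ⟨δ, hδ, hth⟩ := hX.exists_thickening_subset_open hS fun y hy => (hXS hy).1
  obtain ⟨a, ha, a1, a2⟩ : ∃ a > 0, a ≤ 1 ∧ a * L ≤ δ :=
    ⟨min 1 (δ / L), by positivity, min_le_left _ _, (le_div_iff₀ hL).mp (min_le_right _ _)⟩
  have hLR : 34 * L ≤ 34 * L / a := by
    rw [le_div_iff₀ ha]
    nlinarith
  have hc : ∀ η > 0, ∀ᶠ n in (σ.𝒰 : Filter ℕ), ∀ y ∈ X, σ.A n y ∉ (σ.Y n).B ∧
      ‖σ.r n ^ 2 * (σ.Y n).q (σ.A n y) - R y‖ ≤ η := fun η hη => ev_compact hX fun x hx => by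
    obtain ⟨ε, hε, h⟩ := hl x (hXS hx).2
    refine ⟨ε, hε, (h η hη).mono fun n hn y hy => ?_⟩
    have := hn 0 (σ.Y n).ne.card_pos y hy
    simp only [fam, σ.t_zero] at this
    exact ⟨(σ.not_B n).mp this.1, this.2⟩
  have hex : ∀ n, ∃ G : ℂ → ℂ, (∀ k ≤ (σ.Y n).B.card, ∃ h,
      Br (σ.Y n).T k h (ball (σ.p n 0) (34 * L / a * σ.r n)) ∧ h (σ.p n 0) = σ.p n k) →
        Br (σ.Y n).T ((σ.Y n).B.card - 1 + 1) G (ball (σ.p n 0) (34 * L / a * σ.r n)) ∧
        G (σ.p n 0) = σ.p n ((σ.Y n).B.card - 1 + 1) := fun n => by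
    have hP := (σ.Y n).ne.card_pos
    by_cases hn : ∀ k ≤ (σ.Y n).B.card, ∃ h,
      Br (σ.Y n).T k h (ball (σ.p n 0) (34 * L / a * σ.r n)) ∧ h (σ.p n 0) = σ.p n k
    · obtain ⟨G, hG⟩ := hn ((σ.Y n).B.card - 1 + 1) (by omega)
      exact ⟨G, fun _ => hG⟩
    · exact ⟨0, fun h => absurd h hn⟩
  choose G hG using hex
  have hev := (σ.branches _).mono hG
  have hlim : Tendsto (fun n => ∑ i ∈ Finset.range N, μ i * ε i ^ 2 *
      -(((σ.Y n).ρ - 1) * (‖(σ.Y n).ρ - 1‖⁻¹ : ℝ) *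
        ((1 - σ.α n ((σ.Y n).B.card - 1) (G n) (x i)) / ((σ.Y n).ρ - 1))).re) σ.𝒰
      (𝓝 (∑ i ∈ Finset.range N, μ i * ε i ^ 2 *
        -(u * (2 * deriv W (x i) + W (x i) * deriv R (x i) / R (x i))).re)) := by
    refine tendsto_finsetSum _ fun i hi => ?_
    have hi' := Finset.mem_range.mp hi
    obtain ⟨b1, b2, -, b4, b5⟩ := hx i hi'
    have hxi := mem_closedBall_self (x := x i) b1.le
    exact ((Complex.continuous_re.tendsto _).comp (hu.mul (σ.β_lim hρ hW c1 b1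
      (hT.hR.mono fun y hy => (b4 (ball_subset_closedBall hy)).2)
      (norm_pos_iff.mp (b2.trans_le (b5 _ hxi)))
      (fun η hη => (hc η hη).mono fun n hn y hy => hn y (hXi i hi' (ball_subset_closedBall hy)))
      (by linarith [mem_ball_zero_iff.mp (hXL (hXi i hi' hxi))]) hev))).neg.const_mul _
  refine le_of_tendsto hlim ?_
  filter_upwards [hev, hm (2 * L), σ.r_small (34 * L / a),
    (Filter.eventually_all_finset (Finset.range N)).mpr fun i hi =>
      hc (μ i / 2) (half_pos (hx i (Finset.mem_range.mp hi)).2.1)] with n ⟨g1, g2⟩ g3 g4 g5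
  have hτ := σ.τ_pos n
  have hτ' : (σ.Y n).ρ - 1 ≠ 0 := norm_pos_iff.mp hτ
  set Er := (σ.Y n).Err ((σ.Y n).B.card - 1) fun v => fp (σ.Y n).T (G n v)
  have k1 : ∀ i ∈ Finset.range N, ENNReal.ofReal (μ i * (π * ε i ^ 2 *
      (-(1 - σ.α n ((σ.Y n).B.card - 1) (G n) (x i))).re)) ≤
      ENNReal.ofReal 18 * LI (ball (σ.A n (x i)) (ε i * σ.r n)) Er := fun i hi => by
    have hi' := Finset.mem_range.mp hi
    obtain ⟨b1, b2, b3, -, b5⟩ := hx i hi'
    have hx0 : 0 < ‖x i‖ := by linarith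
    obtain ⟨l1, l2⟩ := σ.loc_unb (by linarith) g1 g2 (x := x i) (ε := ε i)
      (m := 8 / (μ i * ‖x i‖ ^ 2)) (C := 3 / 2 * ‖x i‖) (by positivity)
      (fun y hy => ball_subset_ball (by linarith) (hXL (hXi i hi' (ball_subset_closedBall hy))))
      (fun y hy => by
        obtain ⟨l3, l4⟩ := g5 i hi y (hXi i hi' (ball_subset_closedBall hy))
        have l5 := b5 y (ball_subset_closedBall hy)
        rw [mem_ball, dist_eq_norm] at hy
        have l6 := norm_le_norm_add_norm_sub y (x i)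
        refine ⟨fun h => absurd h l3, ?_, by linarith [norm_le_norm_add_norm_sub' y (x i)]⟩
        rw [(σ.q_chart l3).2, norm_mul, norm_pow, inv_div]
        calc _ = (‖x i‖ / 2) ^ 2 * (μ i / 2) := by ring
          _ ≤ _ := by
            gcongr
            · linarith
            · linarith [norm_le_norm_add_norm_sub
                ((σ.r n : ℂ) ^ 2 * (σ.Y n).q (σ.A n y)) (R y)])
    have l7 := t37_mean b1 l1.neg (u := fun y => ‖1 - σ.α n ((σ.Y n).B.card - 1) (G n) y‖ -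
      (1 - σ.α n ((σ.Y n).B.card - 1) (G n) y).re)
      (l1.continuousOn.norm.sub (Complex.continuous_re.comp_continuousOn l1.continuousOn))
      (fun y _ => by
        simp only [Pi.neg_apply, Complex.neg_re]
        linarith [norm_nonneg (1 - σ.α n ((σ.Y n).B.card - 1) (G n) y)])
    rw [ENNReal.ofReal_mul b2.le]
    refine (mul_le_mul_right (l7.trans l2) _).trans_eq ?_
    rw [← mul_assoc, ← ENNReal.ofReal_mul b2.le]
    congr 2
    field_simp
    norm_num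
  have k2 : ∑ i ∈ Finset.range N, LI (ball (σ.A n (x i)) (ε i * σ.r n)) Er ≤
      K * LI (ball 0 (3 * Λ)) (σ.Y n).err := by
    refine (sum_LI_le (Ω := ⋃ i ∈ Finset.range N, ball (σ.A n (x i)) (ε i * σ.r n)) _
      (fun i hi j hj hij => Set.disjoint_left.mpr fun z z1 z2 => ?_) (fun _ _ => measurableSet_ball)
      (fun i hi => subset_iUnion₂ (s := fun i (_ : i ∈ Finset.range N) =>
        ball (σ.A n (x i)) (ε i * σ.r n)) i hi) _).trans ?_
    · rw [← σ.A_div n z] at z1 z2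
      exact Set.disjoint_left.mp (hdisj i (by simpa using hi) j (by simpa using hj) hij)
        (σ.A_mem.mp z1) (σ.A_mem.mp z2)
    · refine σ.err_mult ha a1 hL hXL ((thickening_mono a2 X).trans hth) g3 g4
        (g1.iter (j := 1) (by omega)) (by
          change fp _ (G n _) = _
          rw [g2, σ.pstep])
        ((Finset.range N).measurableSet_biUnion fun _ _ => measurableSet_ball) fun z hz => ?_
      obtain ⟨i, hi, hz⟩ := mem_iUnion₂.mp hz
      rw [← σ.A_div n z] at hz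
      exact ⟨_, hXi i (Finset.mem_range.mp hi) (ball_subset_closedBall (σ.A_mem.mp hz)),
        σ.A_div n z⟩
  have k3 := (ofReal_sum_le _ _).trans ((Finset.sum_le_sum k1).trans
    ((Finset.mul_sum _ _ _).symm.trans_le
      (mul_le_mul_right (k2.trans (mul_le_mul_right (hrate n) _)) _)))
  rw [← ENNReal.ofReal_natCast, ← ENNReal.ofReal_mul (by positivity),
    ← ENNReal.ofReal_mul (by positivity), ENNReal.ofReal_le_ofReal_iff (by positivity)] at k3
  have hπ := pi_pos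
  calc _ = (∑ i ∈ Finset.range N, μ i * (π * ε i ^ 2 *
        (-(1 - σ.α n ((σ.Y n).B.card - 1) (G n) (x i))).re)) / (π * ‖(σ.Y n).ρ - 1‖) := by
        rw [Finset.sum_div]
        refine Finset.sum_congr rfl fun i _ => ?_
        rw [mul_right_comm ((σ.Y n).ρ - 1), mul_div_cancel₀ _ hτ', mul_comm _ ((_ : ℝ) : ℂ),
          Complex.re_ofReal_mul, Complex.neg_re]
        field_simp
    _ ≤ 18 * (K * (C * ‖(σ.Y n).ρ - 1‖)) / (π * ‖(σ.Y n).ρ - 1‖) := by gcongr
    _ = _ := by field_simp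

theorem case_one (hρ : Tendsto (fun n => (σ.Y n).ρ) σ.𝒰 (𝓝 1)) : False := by
  obtain ⟨W, V, hW, hV, h1, h2, c1, c2⟩ := σ.field hρ
  have hn1 : ∀ n, ‖((σ.Y n).ρ - 1) * (‖(σ.Y n).ρ - 1‖⁻¹ : ℝ)‖ = 1 := fun n => by
    rw [norm_mul, Complex.norm_real, norm_inv, norm_norm, mul_inv_cancel₀ (σ.τ_pos n).ne']
  obtain ⟨u, hu⟩ := t1294_ulim σ.𝒰 (R := 1) (Eventually.of_forall fun n => (hn1 n).le)
  have hu0 : u ≠ 0 := norm_pos_iff.mp
    (one_pos.trans_le (ge_of_tendsto' hu.norm fun n => (hn1 n).ge))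
  have hV1 : ∀ y, V y = 1 := (σ.fam hρ hW hV h1 c1 c2).one h2 hu0
    (σ.star hρ hW hV h1 c1 c2 hu)
  have hc := (σ.fam hρ hW hV h1 c1 c2).hc
  simp only [fam, hV1] at hc
  have hz : ∀ x, W x = 0 → x = 0 := fun x hx =>
    single_zero σ.𝒰 (P := fun n => (σ.Y n).B.card) (fun n => (σ.Y n).ne.card_pos)
      (b := σ.p) (t := σ.t) (Φ := σ.Φ) (Ψ := σ.Ψ) (fun n => sub_ne_zero.mpr (σ.ρne n))
      (fun n k _ => by rw [σ.Φ_eq, Fr, (σ.Y n).fix _ (σ.pmem n _), sub_self]) σ.pinj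
      (fun n z h h' => σ.p_surj n ((σ.Ψ_ne n h).2 h')) hW h1 hc hx
  have ha : σ.Alone := by
    intro L
    obtain ⟨η, hη, hm⟩ : ∃ η > 0, ∀ y : ℂ, 1 ≤ ‖y‖ → ‖y‖ ≤ L → η < ‖W y‖ := by
      have hK : IsCompact (closedBall (0 : ℂ) L \ ball 0 1) :=
        (isCompact_closedBall _ _).diff isOpen_ball
      obtain ⟨η, hη, h⟩ := hK.exists_forall_le' (f := fun y => ‖W y‖) (a := 0)
        hW.continuous.norm.continuousOn fun y hy => norm_pos_iff.mpr fun h => hy.2 (by
          rw [hz y h]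
          exact mem_ball_self one_pos)
      exact ⟨η / 2, half_pos hη, fun y g1 g2 => (half_lt_self hη).trans_le
        (h y ⟨mem_closedBall_zero_iff.mpr g2, by simpa using g1⟩)⟩
    filter_upwards [c1 L η hη] with n hn z hzB hzL
    by_contra hne
    have hA := σ.A_div n z
    set y := (z - σ.p n 0) / σ.r n
    have y1 : ‖y‖ < L := σ.A_mem0.mp (by rw [hA]; rwa [mem_ball, dist_eq_norm])
    have y2 := σ.iso n z hzB hne
    rw [← hA, A, add_sub_cancel_left, σ.norm_r] at y2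
    have := hn y (mem_ball_zero_iff.mpr y1)
    rw [hA, Fr, (σ.Y n).fix z hzB, sub_self, zero_div, zero_div, zero_sub, norm_neg] at this
    exact absurd (hm y (le_of_mul_le_mul_left (by rwa [mul_one]) (σ.rpos n)) y1.le)
      (not_lt.mpr this)
  obtain ⟨U, hU, hlim⟩ := σ.limit ha
  refine σ.finish ha hU hlim fun x hx => ?_
  obtain ⟨n, g1, g2⟩ := ((σ.sol ha hU hlim 0 (by norm_num) x 1 one_pos).and
    (σ.transport hρ hW hV c1 c2 (‖x‖ + 1) (1 / 2) one_half_pos)).exists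
  obtain ⟨y, hy, g3⟩ := (g1 0 (σ.Y n).ne.card_pos).1 hx
  have := ((g2 0 (σ.Y n).ne.card_pos).2 y (by
    rw [mem_ball, dist_eq_norm] at hy
    rw [mem_ball_zero_iff]
    linarith [norm_le_norm_add_norm_sub' y x])).2
  refine (σ.Ψ_ne n fun h => ?_).1 g3
  rw [h, hV1] at this
  norm_num at this

include σ in
theorem false_of : False := by
  obtain ⟨ρ, -, hρ⟩ := (isCompact_closedBall (0 : ℂ) 2).ultrafilter_le_nhds
    (σ.𝒰.map fun n => (σ.Y n).ρ) (by
      rw [Ultrafilter.coe_map, le_principal_iff, Filter.mem_map]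
      exact Eventually.of_forall fun n => mem_closedBall_zero_iff.mpr (σ.ρhi n))
  by_cases h : ρ = 1
  · exact σ.case_one (h ▸ hρ)
  · exact σ.case_ne hρ h

end Setup

end Pool.Agent.MP_28f8a1_an.G42

end

-- part MP_28f8a1_an.G42.Core
section

/-! The period-independent lower bound. -/

set_option autoImplicit false

namespace Pool.Agent.MP_28f8a1_an.G42

open MeasureTheory Metric Set Real Filter Topology Polynomial Pool.Agent.MP_28f8a1_an.H42
open scoped ENNReal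

variable {d : ℕ} {Λ : ℝ}

theorem Cyc.radius (Y : Cyc d Λ) (Z : Finset ℂ) {b : ℂ} {p : ℕ → ℂ} (p0 : p 0 = b)
    (p1 : ∀ k, p k ∈ Y.B) (p2 : ∀ k, fp Y.T (p (k + 1)) = p k) : ∃ r > 0, r ≤ 2 * Λ ∧
      (∀ z ∈ Z, z ≠ b → r ≤ ‖z - b‖) ∧ (∀ k ≤ Y.B.card, ∃ h, Br Y.T k h (ball b r) ∧ h b = p k) ∧
      ((∃ z ∈ Z, z ≠ b ∧ ‖z - b‖ < 2 * r) ∨
        ¬∀ k ≤ Y.B.card, ∃ h, Br Y.T k h (ball b (2 * r)) ∧ h b = p k) := by
  set S : Set ℝ := {s | (∀ z ∈ Z, z ≠ b → s ≤ ‖z - b‖) ∧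
    ∀ k ≤ Y.B.card, ∃ h, Br Y.T k h (ball b s) ∧ h b = p k} with hS
  have hdown : ∀ s ∈ S, ∀ s' ≤ s, s' ∈ S := fun s hs s' h =>
    ⟨fun z hz hne => h.trans (hs.1 z hz hne), fun k hk =>
      (hs.2 k hk).imp fun g hg => ⟨hg.1.mono (ball_subset_ball h), hg.2⟩⟩
  have hup : ∀ s ∈ S, s ≤ 2 * Λ := fun s hs => by
    obtain ⟨h, hb, -⟩ := hs.2 1 Y.ne.card_pos
    by_contra hc
    refine Y.adm.nobr h (hb.mono (ball_subset_ball' ?_))
    rw [dist_zero_left]
    linarith [Y.norm_lt (p0 ▸ p1 0)]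
  have hit : ∀ k, (fp Y.T)^[k] (p k) = b := fun k => by
    induction k with
    | zero => exact p0
    | succ k ih => rw [Function.iterate_succ_apply, p2, ih]
  obtain ⟨s, hs, hs0⟩ : ∃ s ∈ S, 0 < s := by
    have h1 : ∀ᶠ s in 𝓝[>] (0 : ℝ), ∀ z ∈ Z, z ≠ b → s ≤ ‖z - b‖ :=
      (Finset.eventually_all Z).mpr fun z _ => by
        by_cases h : z = b
        · exact Eventually.of_forall fun _ h' => absurd h h'
        · filter_upwards [Ioo_mem_nhdsGT (norm_pos_iff.mpr (sub_ne_zero.mpr h))] with s hs _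
          exact hs.2.le
    have h2 : ∀ᶠ s in 𝓝[>] (0 : ℝ), ∀ k ∈ Finset.range (Y.B.card + 1),
        ∃ h, Br Y.T k h (ball b s) ∧ h b = p k := (Finset.eventually_all _).mpr fun k _ => by
      obtain ⟨s, hs, h, h3, h4⟩ := br_local (Y.Pd_ne (p1 k) k)
      rw [hit] at h3 h4
      filter_upwards [Ioo_mem_nhdsGT hs] with s' hs'
      exact ⟨h, h3.mono (ball_subset_ball hs'.2.le), h4⟩
    obtain ⟨s, ⟨g1, g2⟩, g3⟩ := ((h1.and h2).and self_mem_nhdsWithin).exists
    exact ⟨s, ⟨g1, fun k hk => g2 k (Finset.mem_range.mpr (by omega))⟩, g3⟩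
  have hb : BddAbove S := ⟨_, hup⟩
  have h1 : 0 < sSup S := hs0.trans_le (le_csSup hb hs)
  obtain ⟨s', g1, g2⟩ := exists_lt_of_lt_csSup ⟨s, hs⟩ (show 3 / 4 * sSup S < sSup S by linarith)
  have h2 := hdown s' g1 _ g2.le
  refine ⟨_, by linarith, hup _ h2, h2.1, h2.2, ?_⟩
  by_contra hc
  push Not at hc
  linarith [le_csSup hb (show 2 * (3 / 4 * sSup S) ∈ S from ⟨hc.1, hc.2⟩)]

/-- The period-independent lower bound for the logarithmic derivative of the multiplier. -/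
theorem core (d : ℕ) (Λ : ℝ) {M : ℝ} (hM : 0 ≤ M) : ∃ δ > 0, ∀ Y : Cyc d Λ, 1 / 2 ≤ ‖Y.ρ‖ →
    Y.ρ ≠ 1 → ‖Y.ρ‖ ≤ 1 + δ → ∀ s, Y.Def s → min δ (M * ‖Y.ρ - 1‖) ≤ s := by
  classical
  by_contra hc
  push Not at hc
  choose Y h1 h3 h2 S hS h4 using fun n : ℕ => hc (1 / (n + 10)) (by positivity)
  have hΛ := (Y 0).adm.pos
  have hδ : ∀ n : ℕ, (1 : ℝ) / (n + 10) ≤ 1 / 10 := fun n =>
    one_div_le_one_div_of_le (by norm_num) (by linarith [n.cast_nonneg (α := ℝ)])
  have hρ : ∀ n, ‖(Y n).ρ‖ < 2 := fun n => by linarith [h2 n, hδ n]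
  choose Z hZ hZ' using fun n => (Y n).special
  choose! q q0 q1 q2 q3 using fun n => (Y n).orb
  choose! ra r0 r1 r2 r3 r4 using fun n b (hb : b ∈ (Y n).B) =>
    (Y n).radius (Z n) (q0 n b hb) (q1 n b hb) (q2 n b hb)
  have hiso : ∀ n, ∀ b ∈ (Y n).B, ∀ b' ∈ (Y n).B, b' ≠ b → ra n b ≤ ‖b' - b‖ :=
    fun n b hb b' hb' hne => r2 n b hb b' ((hZ' n b').mpr (Or.inl hb')) hne
  obtain ⟨PC, hPC, hPC'⟩ : ∃ PC : ℕ → Finset ℂ, (∀ n, (PC n).card ≤ d * (Y n).B.card) ∧
      ∀ n, ∀ j < (Y n).B.card, ∀ c, lam (Y n).T c = 0 → (fp (Y n).T)^[j + 1] c ∈ PC n := by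
    refine ⟨fun n => ((derivative (Y n).T).roots.toFinset ×ˢ Finset.range (Y n).B.card).image
      fun w => (fp (Y n).T)^[w.2 + 1] w.1, fun n => Finset.card_image_le.trans ?_,
      fun n j hj c hc => Finset.mem_image.mpr ⟨(c, j), Finset.mk_mem_product ?_
        (Finset.mem_range.mpr hj), rfl⟩⟩
    · rw [Finset.card_product, Finset.card_range]
      refine Nat.mul_le_mul_right _ ((Multiset.toFinset_card_le _).trans ((card_roots' _).trans
        ((natDegree_derivative_le _).trans ?_)))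
      rw [(Y n).adm.deg]
      omega
    · refine Multiset.mem_toFinset.mpr ((mem_roots fun h => ?_).mpr hc)
      have := derivative_eq_zero.mp h
      have := (Y n).adm.dpos
      omega
  obtain ⟨s, hs⟩ := cover (12 + d)
  choose b hb hcov using fun n => hs (Y n).B (Z n ∪ PC n) (ra n) (Y n).ne
    ((Finset.card_union_le _ _).trans (by linarith [hZ n, hPC n])) (r0 n) (hiso n)
  set p : ℕ → ℕ → ℂ := fun n => q n (b n)
  have p0 : ∀ n, p n 0 = b n := fun n => q0 n _ (hb n)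
  set r : ℕ → ℝ := fun n => ra n (b n) with hr
  have hr0 : ∀ n, 0 < r n := fun n => r0 n _ (hb n)
  have hr1 : ∀ n, (r n : ℂ) ≠ 0 := fun n => Complex.ofReal_ne_zero.mpr (hr0 n).ne'
  have hn : ∀ n (y : ℂ), ‖(r n : ℂ) * y‖ = r n * ‖y‖ := fun n y => by
    rw [norm_mul, Complex.norm_real, Real.norm_eq_abs, abs_of_pos (hr0 n)]
  have hnull : ∀ W : ℕ → Set ℂ, (∀ n, ∀ y ∈ W n, b n + r n * y ∈ Z n ∪ PC n) →
      μH[1] (limSet (hyperfilter ℕ) W) = 0 := fun W hW => by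
    refine limSet_null s fun n k => ?_
    obtain ⟨T, hT, h⟩ := hcov n k
    refine ⟨T.image fun w => (w - b n) / r n, Finset.card_image_le.trans hT, fun y hy hk => ?_⟩
    obtain ⟨w, hw, h5⟩ := h _ (hW n y hy) (by
      rw [add_sub_cancel_left, hn, mul_comm]
      exact mul_lt_mul_of_pos_right hk (hr0 n))
    refine ⟨_, Finset.mem_image_of_mem _ hw, lt_of_mul_lt_mul_left ?_ (hr0 n).le⟩
    rw [← mul_assoc, ← hn, mul_one, show r n * (y - (w - b n) / r n) = b n + r n * y - w by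
      have := hr1 n
      field_simp
      ring]
    exact h5
  have hge : ∀ n (y : ℂ), y ≠ 0 → b n + r n * y ∈ Z n → 1 ≤ ‖y‖ := fun n y hy h => by
    have := r2 n _ (hb n) _ h (by simpa [hr1 n] using hy)
    rw [add_sub_cancel_left, hn] at this
    exact le_of_mul_le_mul_left (by rwa [mul_one]) (hr0 n)
  refine Setup.false_of (d := d) (Λ := Λ)
    { 𝒰 := hyperfilter ℕ, Y := Y, p := p, r := r
      E := limSet (hyperfilter ℕ) fun n => {y | y ≠ 0 ∧ b n + r n * y ∈ Z n}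
      F := limSet (hyperfilter ℕ) fun n => {y | b n + r n * y ∈ PC n}
      pmem := fun n => q1 n _ (hb n), pstep := fun n => q2 n _ (hb n)
      pinj := fun n => q3 n _ (hb n), rpos := hr0, rle := fun n => r1 n _ (hb n)
      iso := fun n b' hb' hne => ?_, ρlo := h1, ρhi := fun n => (hρ n).le, ρne := h3
      small := fun R hR δ hδ => ?_, Ecl := limSet_closed _ _
      rate := fun R hR => ⟨π * 3 + 6 * π * R * M, by
        have := pi_pos
        have := hΛ.trans_le hR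
        positivity, fun n => ?_⟩
      Enull := hnull _ fun n y hy => Finset.mem_union_left _ hy.2
      E0 := fun h => ?_, Eaway := fun x hx => ?_
      Fnull := hnull _ fun n y hy => Finset.mem_union_right _ hy
      Faway := fun x hx => ?_, br0 := fun n => p0 n ▸ r3 n _ (hb n), touch := fun n => ?_ }
  · rw [p0] at hne ⊢
    exact hiso n _ (hb n) b' hb' hne
  · have ht : Tendsto (fun n : ℕ => (1 : ℝ) / (n + 10)) atTop (𝓝 0) :=
      tendsto_const_nhds.div_atTop (tendsto_atTop_add_const_right _ _ tendsto_natCast_atTop_atTop)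
    have c1 : ContinuousAt (fun a : ℝ => π * ((1 + a) ^ 2 - 1) + 6 * π * R * a) 0 := by fun_prop
    have := (c1.tendsto.comp ht).eventually (gt_mem_nhds
      (show π * ((1 + (0 : ℝ)) ^ 2 - 1) + 6 * π * R * 0 < δ by simpa using hδ))
    rw [← Nat.cofinite_eq_atTop] at this
    filter_upwards [this.filter_mono hyperfilter_le_cofinite] with n hn
    refine ((Y n).mass (hS n) hR).trans (ENNReal.ofReal_le_ofReal ?_)
    refine le_trans ?_ hn.le
    have a1 : max 1 ‖(Y n).ρ‖ ≤ 1 + 1 / (n + 10) :=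
      max_le (le_add_of_nonneg_right (by positivity)) (h2 n)
    have a2 : (0 : ℝ) ≤ max 1 ‖(Y n).ρ‖ := zero_le_one.trans (le_max_left _ _)
    have := pi_pos
    have := hΛ.trans_le hR
    have := (lt_min_iff.mp (h4 n)).1.le
    simp only [Function.comp]
    gcongr
  · refine ((Y n).mass (hS n) hR).trans (ENNReal.ofReal_le_ofReal ?_)
    have a0 := norm_nonneg ((Y n).ρ - 1)
    have a1 : max 1 ‖(Y n).ρ‖ ≤ 1 + ‖(Y n).ρ - 1‖ := max_le (by linarith)
      (by simpa using norm_le_norm_add_norm_sub' (Y n).ρ 1)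
    have a2 := le_max_left 1 ‖(Y n).ρ‖
    have a3 : max 1 ‖(Y n).ρ‖ ≤ 2 := max_le one_le_two (hρ n).le
    have a4 : max 1 ‖(Y n).ρ‖ ^ 2 - 1 ≤ 3 * ‖(Y n).ρ - 1‖ := by nlinarith
    have := pi_pos
    have := hΛ.trans_le hR
    have := (lt_min_iff.mp (h4 n)).2.le
    calc _ ≤ π * (3 * ‖(Y n).ρ - 1‖) + 6 * π * R * (M * ‖(Y n).ρ - 1‖) := by gcongr
      _ = _ := by ring
  · obtain ⟨n, y, hy, h5⟩ := (h 1 one_pos).exists
    rw [sub_zero] at h5
    exact absurd (hge n y hy.1 hy.2) (not_le.mpr h5)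
  · obtain ⟨ε, hε, h⟩ := limSet_away _ hx
    refine ⟨ε, hε, h.mono fun n hn y hy => ?_⟩
    rw [p0]
    by_cases h0 : y = 0
    · obtain ⟨k1, k2, k3⟩ := (Y n).chart (hb n) (t := 0) (y := 0) fun _ => by simp
      have k4 := k3 1
      simp only [Eu, mul_zero, zero_mul, add_zero, (Y n).U_self (hb n)] at k1 k2 k4
      simp only [h0, mul_zero, add_zero]
      exact ⟨fun _ => trivial, fun h => by simpa using k1.mpr h, fun h => by simpa using k2.mpr h,
        fun h => by have := k4.mpr h; norm_num at this⟩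
    · have := (hZ' n _).not.mp fun h => hn y hy ⟨h0, h⟩
      push Not at this
      exact ⟨fun h => absurd h this.1, this.2⟩
  · obtain ⟨ε, hε, h⟩ := limSet_away _ hx
    exact ⟨ε, hε, h.mono fun n hn y hy j hj c hc h => hn y hy (by
      rw [mem_ofPred, ← p0, h]
      exact hPC' n j hj c hc)⟩
  · rw [p0]
    refine (r4 n _ (hb n)).imp_left fun ⟨z, z1, z2, z3⟩ => ⟨(z - b n) / r n,
      div_ne_zero (sub_ne_zero.mpr z2) (hr1 n), ?_, ?_⟩
    · rwa [norm_div, Complex.norm_real, Real.norm_eq_abs, abs_of_pos (hr0 n), div_lt_iff₀ (hr0 n)]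
    · rw [mul_div_cancel₀ _ (hr1 n), add_sub_cancel]
      exact (hZ' n _).mp z1

end Pool.Agent.MP_28f8a1_an.G42

end

-- part MP_28f8a1_an.G42.Sm
section

/-! Smooth families of polynomials. -/

set_option autoImplicit false

namespace Pool.Agent.MP_28f8a1_an.G42

open MeasureTheory Metric Set Real Filter Topology Polynomial Pool.Agent.MP_28f8a1_an.H42
open scoped ENNReal

variable {E : Type} [NormedAddCommGroup E] [NormedSpace ℂ E] {d : ℕ} {F : E → ℂ[X]}

/-- A family of polynomials of degree at most `d` with smooth coefficients. -/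
structure Sm (d : ℕ) (F : E → ℂ[X]) : Prop where
  deg : ∀ x, (F x).natDegree ≤ d
  cd : ∀ j, ContDiff ℂ 1 fun x => (F x).coeff j

/-- `p` is the derivative of the family at the parameter `0`. -/
def Tan (F : ℂ → ℂ[X]) (p : ℂ[X]) : Prop :=
  ∀ j, HasDerivAt (fun s => (F s).coeff j) (p.coeff j) 0

theorem Sm.deriv (h : Sm d F) : Sm d fun x => derivative (F x) :=
  ⟨fun x => (natDegree_derivative_le _).trans ((Nat.sub_le _ _).trans (h.deg x)), fun j => by
    simp only [coeff_derivative]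
    exact (h.cd _).mul contDiff_const⟩

theorem Sm.fp_eq (h : Sm d F) (x : E) (z : ℂ) :
    fp (F x) z = ∑ j ∈ Finset.range (d + 1), (F x).coeff j * z ^ j :=
  eval_eq_sum_range' (Nat.lt_succ_of_le (h.deg x)) z

theorem Sm.fp_cd (h : Sm d F) : ContDiff ℂ 1 fun w : E × ℂ => fp (F w.1) w.2 := by
  simp only [h.fp_eq]
  exact ContDiff.sum fun j _ => ((h.cd j).comp contDiff_fst).mul (contDiff_snd.pow j)

theorem Sm.lam_cd (h : Sm d F) : ContDiff ℂ 1 fun w : E × ℂ => lam (F w.1) w.2 := h.deriv.fp_cd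

theorem Sm.iter_cd (h : Sm d F) (k : ℕ) :
    ContDiff ℂ 1 fun w : E × ℂ => (fp (F w.1))^[k] w.2 := by
  induction k with
  | zero => exact contDiff_snd
  | succ k ih =>
    simp only [Function.iterate_succ_apply']
    exact h.fp_cd.comp (contDiff_fst.prodMk ih)

theorem Sm.iter_cont (h : Sm d F) (k : ℕ) : Continuous fun w : E × ℂ => (fp (F w.1))^[k] w.2 :=
  (h.iter_cd k).continuous

theorem Sm.line (h : Sm d F) (x u : E) : Sm d fun s : ℂ => F (x + s • u) :=
  ⟨fun _ => h.deg _, fun j => (h.cd j).comp (contDiff_const.add (contDiff_id.smul contDiff_const))⟩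

/-- A continuous divided difference of the iterate. -/
theorem Sm.div (h : Sm d F) (k : ℕ) : ∃ Q : E × ℂ × ℂ → ℂ, Continuous Q ∧
    (∀ x z w, (fp (F x))^[k] w - (fp (F x))^[k] z = Q (x, z, w) * (w - z)) ∧
    ∀ x z, Q (x, z, z) = Pd (F x) z k := by
  induction k with
  | zero => exact ⟨fun _ => 1, continuous_const, fun c z w => by simp, fun c z => (Pd_zero z).symm⟩
  | succ k ih =>
    obtain ⟨Q, h1, h2, h3⟩ := ih
    have a1 : Continuous fun p : E × ℂ × ℂ => (fp (F p.1))^[k] p.2.1 :=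
      (h.iter_cont k).comp (continuous_fst.prodMk continuous_snd.fst)
    have a2 : Continuous fun p : E × ℂ × ℂ => (fp (F p.1))^[k] p.2.2 :=
      (h.iter_cont k).comp (continuous_fst.prodMk continuous_snd.snd)
    refine ⟨fun p => (∑ j ∈ Finset.range (d + 1), (F p.1).coeff j * ∑ i ∈ Finset.range j,
      ((fp (F p.1))^[k] p.2.2) ^ i * ((fp (F p.1))^[k] p.2.1) ^ (j - 1 - i)) * Q p,
      (continuous_finsetSum _ fun j _ => ((h.cd j).continuous.comp continuous_fst).mul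
        (continuous_finsetSum _ fun i _ => (a2.pow _).mul (a1.pow _))).mul h1, fun c z w => ?_,
      fun c z => ?_⟩
    · rw [Function.iterate_succ_apply', Function.iterate_succ_apply', mul_assoc, ← h2, h.fp_eq,
        h.fp_eq, ← Finset.sum_sub_distrib, Finset.sum_mul]
      refine Finset.sum_congr rfl fun j _ => ?_
      rw [mul_assoc, (Commute.all _ _).geom_sum₂_mul, mul_sub]
    · dsimp only
      rw [Pd_succ', h3]
      congr 1
      generalize (fp (F c))^[k] z = v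
      have h4 := fp_deriv (T := F c) v
      rw [funext (h.fp_eq c)] at h4
      refine HasDerivAt.unique ?_ h4
      refine HasDerivAt.fun_sum fun j _ => HasDerivAt.const_mul _ ?_
      rw [geom_sum₂_self]
      exact hasDerivAt_pow j _

theorem Sm.Pd_cont (h : Sm d F) (k : ℕ) : Continuous fun w : E × ℂ => Pd (F w.1) w.2 k := by
  obtain ⟨Q, h1, -, h3⟩ := h.div k
  simp only [← h3]
  fun_prop

theorem Tan.deriv {F : ℂ → ℂ[X]} {p : ℂ[X]} (h : Tan F p) :
    Tan (fun s => derivative (F s)) (derivative p) := fun j => by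
  simp only [coeff_derivative]
  exact (h _).mul_const _

theorem Tan.fp {F : ℂ → ℂ[X]} {p : ℂ[X]} (h : Tan F p) (hF : Sm d F) {ψ : ℂ → ℂ} {σ : ℂ}
    (hψ : HasStrictDerivAt ψ σ 0) :
    HasStrictDerivAt (fun s => fp (F s) (ψ s)) (lam (F 0) (ψ 0) * σ + fp p (ψ 0)) 0 := by
  have hp : p.natDegree ≤ d := natDegree_le_iff_coeff_eq_zero.2 fun j hj => by
    have := h j
    rw [funext fun s => natDegree_le_iff_coeff_eq_zero.1 (hF.deg s) j hj] at this
    exact this.unique (hasDerivAt_const _ _)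
  have h1 : ∀ j, HasStrictDerivAt (fun s => (F s).coeff j) (p.coeff j) 0 := fun j =>
    (h j).deriv ▸ (hF.cd j).contDiffAt.hasStrictDerivAt one_ne_zero
  simp only [hF.fp_eq]
  refine (HasStrictDerivAt.fun_sum fun j _ => (h1 j).fun_mul (hψ.fun_pow j)).congr_deriv ?_
  have h4 := (fp_deriv (T := F 0) (ψ 0))
  rw [funext (hF.fp_eq 0)] at h4
  rw [← (HasDerivAt.fun_sum fun j _ => (hasDerivAt_pow j (ψ 0)).const_mul _).unique h4, G42.fp,
    eval_eq_sum_range' (Nat.lt_succ_of_le hp), Finset.sum_mul, ← Finset.sum_add_distrib]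
  exact Finset.sum_congr rfl fun j _ => by ring

theorem Tan.lam {F : ℂ → ℂ[X]} {p : ℂ[X]} (h : Tan F p) (hF : Sm d F) {ψ : ℂ → ℂ} {σ : ℂ}
    (hψ : HasStrictDerivAt ψ σ 0) : HasStrictDerivAt (fun s => lam (F s) (ψ s))
      (lam (derivative (F 0)) (ψ 0) * σ + lam p (ψ 0)) 0 := h.deriv.fp hF.deriv hψ

end Pool.Agent.MP_28f8a1_an.G42

end

-- part MP_28f8a1_an.G42.Pol
section

/-! Polynomials with prescribed critical points and multiplicities. -/

set_option autoImplicit false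

namespace Pool.Agent.MP_28f8a1_an.G42

open MeasureTheory Metric Set Real Filter Topology Polynomial Pool.Agent.MP_28f8a1_an.H42
open scoped ENNReal

/-- The primitive vanishing at `0`. -/
noncomputable def prim (p : ℂ[X]) : ℂ[X] := p.sum fun j c => monomial (j + 1) (c / (j + 1))

variable {ι : Type} [Fintype ι]

/-- The derivative. -/
noncomputable def dpol (a : ℂ) (m : ι → ℕ) (ω : ι → ℂ) : ℂ[X] :=
  C a * ∏ i, (X - C (ω i)) ^ (m i + 1)

/-- The polynomial with critical points `x.1` and value `x.2` at the origin. -/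
noncomputable def pol (a : ℂ) (m : ι → ℕ) (x : (ι → ℂ) × ℂ) : ℂ[X] := C x.2 + prim (dpol a m x.1)

variable {a : ℂ} {m : ι → ℕ}

theorem t1715_coeff_zero (p : ℂ[X]) : (prim p).coeff 0 = 0 := by
  rw [prim, Polynomial.sum, finsetSum_coeff]
  exact Finset.sum_eq_zero fun j _ => by rw [coeff_monomial, if_neg (Nat.succ_ne_zero j)]

theorem t1715_coeff_succ (p : ℂ[X]) (k : ℕ) :
    (prim p).coeff (k + 1) = p.coeff k / (k + 1) := by
  rw [prim, Polynomial.sum, finsetSum_coeff, Finset.sum_eq_single k]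
  · rw [coeff_monomial, if_pos rfl]
  · intro j _ hj
    rw [coeff_monomial, if_neg fun h => hj (Nat.succ_injective h)]
  · intro hk
    rw [coeff_monomial, if_pos rfl, notMem_support_iff.1 hk, zero_div]

theorem t1715_deriv (p : ℂ[X]) : derivative (prim p) = p := by
  ext k
  rw [coeff_derivative, t1715_coeff_succ, div_mul_cancel₀]
  exact Nat.cast_add_one_ne_zero k

theorem pol_deriv (x : (ι → ℂ) × ℂ) : derivative (pol a m x) = dpol a m x.1 := by
  rw [pol, derivative_add, derivative_C, zero_add, t1715_deriv]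

theorem t1715_monic (ω : ι → ℂ) : (∏ i, (X - C (ω i)) ^ (m i + 1) : ℂ[X]).Monic :=
  monic_prod_of_monic _ _ fun i _ => (monic_X_sub_C (ω i)).pow _

theorem t1715_deg (ω : ι → ℂ) :
    (∏ i, (X - C (ω i)) ^ (m i + 1) : ℂ[X]).natDegree = ∑ i, (m i + 1) := by
  rw [natDegree_prod_of_monic _ _ fun i _ => (monic_X_sub_C (ω i)).pow _]
  exact Finset.sum_congr rfl fun i _ => by rw [natDegree_pow, natDegree_X_sub_C, mul_one]

theorem t1715_dpol_ne (ha : a ≠ 0) (ω : ι → ℂ) : dpol a m ω ≠ 0 :=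
  mul_ne_zero (C_ne_zero.2 ha) (t1715_monic ω).ne_zero

theorem pol_deg (ha : a ≠ 0) (x : (ι → ℂ) × ℂ) :
    (pol a m x).natDegree = ∑ i, (m i + 1) + 1 := by
  have h1 : (derivative (pol a m x)).natDegree = ∑ i, (m i + 1) := by
    rw [pol_deriv, dpol, natDegree_C_mul ha, t1715_deg]
  have h2 : (pol a m x).natDegree ≠ 0 := fun h => by
    have h3 := derivative_eq_zero.2 h
    rw [pol_deriv] at h3
    exact t1715_dpol_ne ha _ h3
  have h3 := natDegree_derivative (pol a m x)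
  omega

theorem t1715_cd_mul {E : Type} [NormedAddCommGroup E] [NormedSpace ℂ E] {F G : E → ℂ[X]}
    (hF : ∀ j, ContDiff ℂ 1 fun x => (F x).coeff j)
    (hG : ∀ j, ContDiff ℂ 1 fun x => (G x).coeff j) (j : ℕ) :
    ContDiff ℂ 1 fun x => (F x * G x).coeff j := by
  simp only [coeff_mul]
  exact ContDiff.sum fun c _ => (hF _).mul (hG _)

theorem t1715_cd_C {E : Type} [NormedAddCommGroup E] [NormedSpace ℂ E] {f : E → ℂ}
    (hf : ContDiff ℂ 1 f) (j : ℕ) : ContDiff ℂ 1 fun x => (C (f x)).coeff j := by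
  simp only [coeff_C]
  split_ifs
  · exact hf
  · exact contDiff_const

theorem t1715_cd_pow {E : Type} [NormedAddCommGroup E] [NormedSpace ℂ E] {F : E → ℂ[X]}
    (hF : ∀ j, ContDiff ℂ 1 fun x => (F x).coeff j) (n : ℕ) :
    ∀ j, ContDiff ℂ 1 fun x => (F x ^ n).coeff j := by
  induction n with
  | zero => exact fun j => by simpa only [pow_zero] using contDiff_const
  | succ n ih => exact fun j => by simpa only [pow_succ] using t1715_cd_mul ih hF j

omit [Fintype ι] in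
theorem t1715_cd_prod {E : Type} [NormedAddCommGroup E] [NormedSpace ℂ E] {F : ι → E → ℂ[X]}
    (hF : ∀ i j, ContDiff ℂ 1 fun x => (F i x).coeff j) (s : Finset ι) :
    ∀ j, ContDiff ℂ 1 fun x => (∏ i ∈ s, F i x).coeff j := by
  classical
  induction s using Finset.induction_on with
  | empty => exact fun j => by simpa only [Finset.prod_empty] using contDiff_const
  | insert i s hi ih =>
    exact fun j => by simpa only [Finset.prod_insert hi] using t1715_cd_mul (hF i) ih j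

theorem t1715_cd_dpol (j : ℕ) :
    ContDiff ℂ 1 fun x : (ι → ℂ) × ℂ => (dpol a m x.1).coeff j := by
  refine t1715_cd_mul (F := fun _ => C a) (fun _ => contDiff_const)
    (t1715_cd_prod (F := fun i (x : (ι → ℂ) × ℂ) => (X - C (x.1 i)) ^ (m i + 1))
      (fun i => t1715_cd_pow (fun k => ?_) _) _) j
  simp only [coeff_sub]
  exact contDiff_const.sub (t1715_cd_C ((contDiff_apply ℂ ℂ i).comp contDiff_fst) k)

/-- Hint: smooth coefficients are preserved by products (`coeff_mul`) and by `prim`. -/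
theorem pol_sm : Sm (∑ i, (m i + 1) + 1) (pol a m) := by
  refine ⟨fun x => ?_, fun j => ?_⟩
  · have h1 : (derivative (pol a m x)).natDegree ≤ ∑ i, (m i + 1) := by
      rw [pol_deriv, dpol, ← t1715_deg (m := m) x.1]
      exact natDegree_C_mul_le _ _
    have h3 := natDegree_derivative (pol a m x)
    omega
  · simp only [pol, coeff_add]
    refine (t1715_cd_C contDiff_snd j).add ?_
    rcases j with _ | j
    · simp only [t1715_coeff_zero]
      exact contDiff_const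
    · simp only [t1715_coeff_succ]
      exact (t1715_cd_dpol j).div_const _

theorem pol_crit (ha : a ≠ 0) (x : (ι → ℂ) × ℂ) (w : ℂ) :
    lam (pol a m x) w = 0 ↔ ∃ i, x.1 i = w := by
  rw [lam, pol_deriv, dpol, eval_mul, eval_C, eval_prod, mul_eq_zero, Finset.prod_eq_zero_iff]
  simp only [ha, false_or, Finset.mem_univ, true_and, eval_pow, eval_sub, eval_X, eval_C,
    pow_eq_zero_iff (Nat.succ_ne_zero _), sub_eq_zero]
  exact exists_congr fun i => eq_comm

theorem pol_add (x : (ι → ℂ) × ℂ) (t : ℂ) : pol a m (x + (0, t)) = pol a m x + C t := by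
  simp only [pol, Prod.fst_add, Prod.snd_add, add_zero, C_add]
  ring

theorem pol_surj {T : ℂ[X]} (hT : 0 < T.natDegree) :
    ∃ a ≠ 0, ∃ m : T.derivative.roots.toFinset → ℕ, pol a m (Subtype.val, T.eval 0) = T := by
  have h0 : derivative T ≠ 0 := fun h => hT.ne' (derivative_eq_zero.1 h)
  refine ⟨T.derivative.leadingCoeff, leadingCoeff_ne_zero.2 h0,
    fun w => T.derivative.roots.count w.1 - 1, ?_⟩
  have h1 : dpol T.derivative.leadingCoeff
      (fun w : T.derivative.roots.toFinset => T.derivative.roots.count w.1 - 1) Subtype.val =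
      derivative T := by
    have h2 := (IsAlgClosed.splits (derivative T)).eq_prod_roots
    rw [Finset.prod_multiset_map_count] at h2
    rw [dpol]
    refine Eq.trans ?_ h2.symm
    congr 1
    refine Eq.trans ?_ (Finset.prod_coe_sort T.derivative.roots.toFinset
      fun w => (X - C w) ^ T.derivative.roots.count w)
    refine Finset.prod_congr rfl fun w _ => ?_
    rw [Nat.sub_add_cancel (Multiset.one_le_count_iff_mem.2 (Multiset.mem_toFinset.1 w.2))]
  ext k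
  rw [pol, h1, coeff_add]
  rcases k with _ | k
  · rw [t1715_coeff_zero, coeff_C_zero, add_zero, coeff_zero_eq_eval_zero]
  · rw [t1715_coeff_succ, coeff_C_succ, zero_add, coeff_derivative, mul_div_cancel_right₀]
    exact Nat.cast_add_one_ne_zero k

theorem t1716_c0 (p : ℂ[X]) : (prim p).coeff 0 = 0 := by
  rw [prim, Polynomial.sum, finsetSum_coeff]
  exact Finset.sum_eq_zero fun j _ => by rw [coeff_monomial, if_neg (Nat.succ_ne_zero j)]

theorem t1716_cs (p : ℂ[X]) (k : ℕ) : (prim p).coeff (k + 1) = p.coeff k / (k + 1) := by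
  rw [prim, Polynomial.sum, finsetSum_coeff, Finset.sum_eq_single k]
  · rw [coeff_monomial, if_pos rfl]
  · intro j _ hj
    rw [coeff_monomial, if_neg (fun h => hj (Nat.succ_injective h))]
  · intro hk
    rw [notMem_support_iff.1 hk, zero_div, coeff_monomial, if_pos rfl]

theorem t1716_der (p : ℂ[X]) : derivative (prim p) = p := by
  ext k
  rw [coeff_derivative, t1716_cs]
  have : (k : ℂ) + 1 ≠ 0 := by exact_mod_cast Nat.succ_ne_zero k
  field_simp

/-- The primitive as a linear map. -/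
noncomputable def t1716_primL : ℂ[X] →ₗ[ℂ] ℂ[X] where
  toFun := prim
  map_add' p q := by
    ext k
    rcases k with _ | k
    · simp only [coeff_add, t1716_c0, add_zero]
    · simp only [coeff_add, t1716_cs, add_div]
  map_smul' c p := by
    ext k
    rcases k with _ | k
    · simp only [coeff_smul, t1716_c0, smul_zero]
    · simp only [coeff_smul, t1716_cs, smul_eq_mul, RingHom.id_apply, mul_div_assoc]

theorem t1716_dvd {q : ℂ[X]} {w : ℂ} {k : ℕ} (h0 : q.eval w = 0)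
    (h1 : (X - C w) ^ k ∣ derivative q) : (X - C w) ^ (k + 1) ∣ q := by
  by_cases hq : q = 0
  · rw [hq]; exact dvd_zero _
  have hd : derivative q ≠ 0 := fun h => by
    have h2 := eq_C_of_derivative_eq_zero h
    rw [h2, eval_C] at h0
    exact hq (by rw [h2, h0, C_0])
  have h3 := (le_rootMultiplicity_iff hd).2 h1
  rw [derivative_rootMultiplicity_of_root (show q.IsRoot w from h0)] at h3
  have h4 : 0 < q.rootMultiplicity w := (rootMultiplicity_pos hq).2 h0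
  exact (le_rootMultiplicity_iff hq).1 (by omega)

theorem t1716_tmul {F G : ℂ → ℂ[X]} {p q : ℂ[X]} (hF : Tan F p) (hG : Tan G q) :
    Tan (fun s => F s * G s) (p * G 0 + F 0 * q) := fun j => by
  simp only [coeff_add, coeff_mul]
  rw [← Finset.sum_add_distrib]
  exact HasDerivAt.fun_sum fun c _ => (hF c.1).fun_mul (hG c.2)

theorem t1716_tconst (p : ℂ[X]) : Tan (fun _ => p) 0 := fun j => by
  rw [coeff_zero]
  exact hasDerivAt_const _ _

theorem t1716_tpow {F : ℂ → ℂ[X]} {p : ℂ[X]} (hF : Tan F p) (k : ℕ) :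
    Tan (fun s => F s ^ (k + 1)) (C ((k : ℂ) + 1) * p * F 0 ^ k) := by
  induction k with
  | zero => simpa using hF
  | succ k ih =>
    have := t1716_tmul ih hF
    have e : C ((k : ℂ) + 1) * p * F 0 ^ k * F 0 + F 0 ^ (k + 1) * p =
        C (((k + 1 : ℕ) : ℂ) + 1) * p * F 0 ^ (k + 1) := by
      simp only [Nat.cast_add, Nat.cast_one, C_add, C_1]
      ring
    rw [e] at this
    simpa only [← pow_succ] using this

omit [Fintype ι] in
theorem t1716_tprod [DecidableEq ι] {F : ι → ℂ → ℂ[X]} {p : ι → ℂ[X]} (hF : ∀ i, Tan (F i) (p i))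
    (S : Finset ι) :
    Tan (fun s => ∏ i ∈ S, F i s) (∑ i ∈ S, p i * ∏ j ∈ S.erase i, F j 0) := by
  induction S using Finset.induction_on with
  | empty => simpa using t1716_tconst 1
  | insert k S hk ih =>
    have := t1716_tmul (hF k) ih
    simp only [Finset.prod_insert hk]
    rw [Finset.sum_insert hk, Finset.erase_insert hk]
    have e : ∑ i ∈ S, p i * ∏ j ∈ (insert k S).erase i, F j 0 =
        F k 0 * ∑ i ∈ S, p i * ∏ j ∈ S.erase i, F j 0 := by
      rw [Finset.mul_sum]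
      refine Finset.sum_congr rfl fun i hi => ?_
      rw [Finset.erase_insert_of_ne (show k ≠ i from fun h => hk (h ▸ hi)),
        Finset.prod_insert fun h => hk (Finset.mem_of_mem_erase h)]
      ring
    rw [e]
    exact this

theorem t1716_tC (c v : ℂ) : Tan (fun s => C (c + s * v)) (C v) := fun j => by
  simp only [coeff_C]
  split_ifs
  · simpa using ((hasDerivAt_id (0 : ℂ)).mul_const v).const_add c
  · exact hasDerivAt_const _ _

theorem t1716_tadd {F G : ℂ → ℂ[X]} {p q : ℂ[X]} (hF : Tan F p) (hG : Tan G q) :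
    Tan (fun s => F s + G s) (p + q) := fun j => by
  simp only [coeff_add]
  exact (hF j).fun_add (hG j)

theorem t1716_tprim {F : ℂ → ℂ[X]} {p : ℂ[X]} (hF : Tan F p) :
    Tan (fun s => prim (F s)) (prim p) := fun j => by
  rcases j with _ | j
  · simp only [t1716_c0]
    exact hasDerivAt_const _ _
  · simp only [t1716_cs]
    exact (hF j).div_const _

open Classical in
/-- The product with one factor removed. -/
noncomputable def t1716_Q (m : ι → ℕ) (ω : ι → ℂ) (i : ι) : ℂ[X] :=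
  (X - C (ω i)) ^ m i * ∏ j ∈ Finset.univ.erase i, (X - C (ω j)) ^ (m j + 1)

/-- The tangent of the derivative. -/
noncomputable def t1716_r (a : ℂ) (m : ι → ℕ) (ω : ι → ℂ) : (ι → ℂ) →ₗ[ℂ] ℂ[X] :=
  ∑ i, (LinearMap.proj i : (ι → ℂ) →ₗ[ℂ] ℂ).smulRight ((-(a * (m i + 1))) • t1716_Q m ω i)

theorem t1716_r_eq (ω v : ι → ℂ) :
    t1716_r a m ω v = ∑ i, C (-(a * (m i + 1)) * v i) * t1716_Q m ω i := by
  rw [t1716_r, LinearMap.sum_apply]
  refine Finset.sum_congr rfl fun i _ => ?_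
  rw [LinearMap.smulRight_apply, LinearMap.proj_apply, smul_smul, smul_eq_C_mul, mul_comm (v i)]

/-- The tangent of the polynomial. -/
noncomputable def t1716_P (a : ℂ) (m : ι → ℕ) (ω : ι → ℂ) : ((ι → ℂ) × ℂ) →ₗ[ℂ] ℂ[X] :=
  (LinearMap.snd ℂ _ _).smulRight 1 + t1716_primL ∘ₗ t1716_r a m ω ∘ₗ LinearMap.fst ℂ _ _

theorem t1716_P_eq (ω : ι → ℂ) (u : (ι → ℂ) × ℂ) :
    t1716_P a m ω u = C u.2 + prim (t1716_r a m ω u.1) := by
  rw [t1716_P, LinearMap.add_apply, LinearMap.smulRight_apply, smul_eq_C_mul, mul_one]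
  rfl

theorem t1716_tan (x u : (ι → ℂ) × ℂ) :
    Tan (fun s => pol a m (x + s • u)) (t1716_P a m x.1 u) := by
  classical
  rw [t1716_P_eq]
  refine t1716_tadd (t1716_tC x.2 u.2) (t1716_tprim ?_)
  have h1 : ∀ i, Tan (fun s => X - C (x.1 i + s * u.1 i)) (-C (u.1 i)) := fun i j => by
    simp only [coeff_sub, coeff_neg]
    exact (t1716_tC (x.1 i) (u.1 i) j).const_sub _
  have h2 := t1716_tmul (t1716_tconst (C a))
    (t1716_tprod (fun i => t1716_tpow (h1 i) (m i)) Finset.univ)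
  have e : t1716_r a m x.1 u.1 = 0 * ∏ i, (X - C (x.1 i + 0 * u.1 i)) ^ (m i + 1) +
      C a * ∑ i, C ((m i : ℂ) + 1) * -C (u.1 i) * (X - C (x.1 i + 0 * u.1 i)) ^ m i *
        ∏ j ∈ Finset.univ.erase i, (X - C (x.1 j + 0 * u.1 j)) ^ (m j + 1) := by
    rw [t1716_r_eq, zero_mul, zero_add, Finset.mul_sum]
    refine Finset.sum_congr rfl fun i _ => ?_
    simp only [zero_mul, add_zero, t1716_Q, C_mul, C_neg]
    have : (∏ j ∈ @Finset.erase ι (fun a b => Classical.propDecidable (a = b)) Finset.univ i,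
        (X - C (x.1 j)) ^ (m j + 1)) = ∏ j ∈ Finset.univ.erase i, (X - C (x.1 j)) ^ (m j + 1) := by
      congr
    rw [this]
    ring
  rw [e]
  exact h2

theorem t1716_Q_monic (ω : ι → ℂ) (i : ι) : (t1716_Q m ω i).Monic :=
  ((monic_X_sub_C _).pow _).mul (monic_prod_of_monic _ _ fun _ _ => (monic_X_sub_C _).pow _)

theorem t1716_Q_deg (ω : ι → ℂ) (i : ι) : (t1716_Q m ω i).natDegree + 1 = ∑ j, (m j + 1) := by
  classical
  rw [t1716_Q, ((monic_X_sub_C _).pow _).natDegree_mul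
    (monic_prod_of_monic _ _ fun _ _ => (monic_X_sub_C _).pow _),
    natDegree_prod_of_monic _ _ fun _ _ => (monic_X_sub_C _).pow _,
    ← Finset.add_sum_erase _ _ (Finset.mem_univ i)]
  simp only [natDegree_pow, natDegree_X_sub_C, mul_one]
  have : (∑ j ∈ @Finset.erase ι (fun a b => Classical.propDecidable (a = b)) Finset.univ i,
      (m j + 1)) = ∑ j ∈ Finset.univ.erase i, (m j + 1) := by congr
  omega

theorem t1716_Q_dvd (ω : ι → ℂ) (i j : ι) : (X - C (ω j)) ^ m j ∣ t1716_Q m ω i := by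
  by_cases h : j = i
  · rw [h]; exact Dvd.intro _ rfl
  · refine Dvd.dvd.mul_left ((pow_dvd_pow _ (Nat.le_succ _)).trans ?_) _
    exact Finset.dvd_prod_of_mem (fun j => (X - C (ω j)) ^ (m j + 1))
      (by simp only [Finset.mem_erase, Finset.mem_univ, and_true]; exact h)

theorem t1716_r_coeff (ω v : ι → ℂ) {k : ℕ} (hk : ∑ j, (m j + 1) ≤ k + 1) :
    (t1716_r a m ω v).coeff k =
      if ∑ j, (m j + 1) = k + 1 then -a * ∑ j, ((m j : ℂ) + 1) * v j else 0 := by
  rw [t1716_r_eq, finsetSum_coeff]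
  split_ifs with h
  · rw [Finset.mul_sum]
    refine Finset.sum_congr rfl fun i _ => ?_
    have h1 := t1716_Q_deg (m := m) ω i
    have h2 : k = (t1716_Q m ω i).natDegree := by omega
    rw [coeff_C_mul, h2, (t1716_Q_monic ω i).coeff_natDegree]
    ring
  · refine Finset.sum_eq_zero fun i _ => ?_
    have h1 := t1716_Q_deg (m := m) ω i
    rw [coeff_C_mul, coeff_eq_zero_of_natDegree_lt (by omega), mul_zero]

theorem t1716_P_deg0 (ω : ι → ℂ) (u : (ι → ℂ) × ℂ) :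
    (t1716_P a m ω u).natDegree ≤ ∑ j, (m j + 1) := by
  refine natDegree_le_iff_coeff_eq_zero.2 fun k hk => ?_
  obtain ⟨k, rfl⟩ : ∃ l, k = l + 1 := ⟨k - 1, by omega⟩
  rw [t1716_P_eq, coeff_add, coeff_C_succ, t1716_cs, t1716_r_coeff _ _ hk.le, if_neg hk.ne,
    zero_div, add_zero]

theorem t1716_P_deg [Nonempty ι] (ω : ι → ℂ) {u : (ι → ℂ) × ℂ}
    (hu : ∑ j, ((m j : ℂ) + 1) * u.1 j = 0) :
    (t1716_P a m ω u).natDegree + 1 ≤ ∑ j, (m j + 1) := by
  have h1 := t1716_Q_deg (m := m) ω (Classical.arbitrary ι)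
  have : (t1716_P a m ω u).natDegree ≤ ∑ j, (m j + 1) - 1 := by
    refine natDegree_le_iff_coeff_eq_zero.2 fun k hk => ?_
    obtain ⟨k, rfl⟩ : ∃ l, k = l + 1 := ⟨k - 1, by omega⟩
    rw [t1716_P_eq, coeff_add, coeff_C_succ, t1716_cs, t1716_r_coeff _ _ (by omega), hu, mul_zero,
      ite_self, zero_div, add_zero]
  omega

theorem t1716_P_dvd (ω : ι → ℂ) {u : (ι → ℂ) × ℂ} {j : ι}
    (h : (t1716_P a m ω u).eval (ω j) = 0) : (X - C (ω j)) ^ (m j + 1) ∣ t1716_P a m ω u := by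
  refine t1716_dvd h ?_
  rw [t1716_P_eq, derivative_add, derivative_C, zero_add, t1716_der, t1716_r_eq]
  exact Finset.dvd_sum fun i _ => (t1716_Q_dvd ω i j).mul_left _

theorem t1716_prod_dvd {ω : ι → ℂ} (hω : Function.Injective ω) {q : ℂ[X]}
    (h : ∀ j, (X - C (ω j)) ^ (m j + 1) ∣ q) : ∏ j, (X - C (ω j)) ^ (m j + 1) ∣ q :=
  Finset.prod_dvd_of_coprime
    (fun _ _ _ _ hij => (pairwise_coprime_X_sub_C hω hij).pow) fun j _ => h j

theorem t1716_r_inj (ha : a ≠ 0) {ω : ι → ℂ} (hω : Function.Injective ω) {v : ι → ℂ}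
    (h : t1716_r a m ω v = 0) : v = 0 := by
  classical
  funext i
  rw [t1716_r_eq, ← Finset.add_sum_erase _ _ (Finset.mem_univ i), add_eq_zero_iff_eq_neg] at h
  have h1 : (X - C (ω i)) ^ (m i + 1) ∣ C (-(a * (m i + 1)) * v i) * t1716_Q m ω i := by
    rw [h, dvd_neg]
    refine Finset.dvd_sum fun k hk => Dvd.dvd.mul_left (Dvd.dvd.mul_left ?_ _) _
    exact Finset.dvd_prod_of_mem (fun j => (X - C (ω j)) ^ (m j + 1))
      (by simp only [Finset.mem_erase, Finset.mem_univ, and_true]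
          exact (Finset.ne_of_mem_erase hk).symm)
  rw [t1716_Q, pow_succ, mul_left_comm,
    mul_dvd_mul_iff_left (pow_ne_zero _ (X_sub_C_ne_zero _)), dvd_iff_isRoot, IsRoot.def, eval_mul,
    eval_C, eval_prod] at h1
  have h2 : ((m i : ℂ) + 1) ≠ 0 := by exact_mod_cast Nat.succ_ne_zero (m i)
  rcases mul_eq_zero.1 h1 with h3 | h3
  · exact (mul_eq_zero.1 h3).resolve_left (neg_ne_zero.2 (mul_ne_zero ha h2))
  · obtain ⟨j, hj, h4⟩ := Finset.prod_eq_zero_iff.1 h3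
    rw [eval_pow, eval_sub, eval_X, eval_C] at h4
    have h5 := hω (sub_eq_zero.1 (pow_eq_zero_iff (Nat.succ_ne_zero _) |>.1 h4))
    simp only [Finset.mem_erase, Finset.mem_univ, and_true] at hj
    exact absurd h5.symm hj

/-- Variation of the critical values and of the barycentre of the critical points. -/
noncomputable def t1716_Phi (a : ℂ) (m : ι → ℕ) (ω : ι → ℂ) :
    ((ι → ℂ) × ℂ) →ₗ[ℂ] ((ι → ℂ) × ℂ) :=
  (LinearMap.pi fun j => leval (ω j) ∘ₗ t1716_P a m ω).prod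
    (∑ j, ((m j : ℂ) + 1) • (LinearMap.proj j : (ι → ℂ) →ₗ[ℂ] ℂ) ∘ₗ LinearMap.fst ℂ _ _)

theorem t1716_Phi_eq (ω : ι → ℂ) (u : (ι → ℂ) × ℂ) : t1716_Phi a m ω u =
    (fun j => (t1716_P a m ω u).eval (ω j), ∑ j, ((m j : ℂ) + 1) * u.1 j) := by
  refine Prod.ext (funext fun j => ?_) ?_
  · simp [t1716_Phi]
  · simp [t1716_Phi]

theorem t1716_Phi_inj [Nonempty ι] (ha : a ≠ 0) {ω : ι → ℂ} (hω : Function.Injective ω) :
    Function.Injective (t1716_Phi a m ω) := by
  refine (injective_iff_map_eq_zero _).2 fun u hu => ?_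
  rw [t1716_Phi_eq, Prod.mk_eq_zero] at hu
  have h1 := t1716_prod_dvd hω fun j => t1716_P_dvd (a := a) (m := m) ω (congrFun hu.1 j)
  have h2 := t1716_P_deg (a := a) ω hu.2
  have h3 : t1716_P a m ω u = 0 := by
    refine eq_zero_of_dvd_of_natDegree_lt h1 ?_
    rw [natDegree_prod_of_monic _ _ fun _ _ => (monic_X_sub_C _).pow _]
    simp only [natDegree_pow, natDegree_X_sub_C, mul_one]
    omega
  have h4 := congrArg derivative h3
  have h5 := congrArg (fun q => coeff q 0) h3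
  rw [t1716_P_eq, derivative_add, derivative_C, zero_add, t1716_der, derivative_zero] at h4
  simp only [t1716_P_eq, coeff_add, coeff_C_zero, t1716_c0, add_zero, coeff_zero] at h5
  exact Prod.ext (t1716_r_inj ha hω h4) h5

/-- Families with continuous coefficients. -/
def t1716_Cc {Y : Type} [TopologicalSpace Y] (F : Y → ℂ[X]) : Prop :=
  ∀ j, Continuous fun y => (F y).coeff j

section

variable {Y : Type} [TopologicalSpace Y] {F G : Y → ℂ[X]}

theorem t1716_cmul (hF : t1716_Cc F) (hG : t1716_Cc G) : t1716_Cc fun y => F y * G y :=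
  fun j => by
    simp only [coeff_mul]
    exact continuous_finsetSum _ fun c _ => (hF _).mul (hG _)

theorem t1716_cC {f : Y → ℂ} (hf : Continuous f) : t1716_Cc fun y => C (f y) := fun j => by
  simp only [coeff_C]
  split_ifs
  · exact hf
  · exact continuous_const

theorem t1716_cpow (hF : t1716_Cc F) (k : ℕ) : t1716_Cc fun y => F y ^ k := by
  induction k with
  | zero => exact fun _ => by simp only [pow_zero]; exact continuous_const
  | succ k ih => simp only [pow_succ]; exact t1716_cmul ih hF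

omit [Fintype ι] in
theorem t1716_cprod {F : ι → Y → ℂ[X]} (hF : ∀ i, t1716_Cc (F i)) (S : Finset ι) :
    t1716_Cc fun y => ∏ i ∈ S, F i y := by
  classical
  induction S using Finset.induction_on with
  | empty => exact fun _ => by simp only [Finset.prod_empty]; exact continuous_const
  | insert k S hk ih => simp only [Finset.prod_insert hk]; exact t1716_cmul (hF k) ih

end

theorem t1716_Phi_cont : Continuous fun w : ((ι → ℂ) × ℂ) × ((ι → ℂ) × ℂ) =>
    t1716_Phi a m w.1.1 w.2 := by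
  have h1 : ∀ i, t1716_Cc fun w : ((ι → ℂ) × ℂ) × ((ι → ℂ) × ℂ) => X - C (w.1.1 i) := fun i j => by
    simp only [coeff_sub]
    exact continuous_const.sub (t1716_cC (by fun_prop) j)
  have h2 : t1716_Cc fun w : ((ι → ℂ) × ℂ) × ((ι → ℂ) × ℂ) => t1716_r a m w.1.1 w.2.1 := fun j => by
    simp only [t1716_r_eq, finsetSum_coeff]
    exact continuous_finsetSum _ fun i _ => t1716_cmul (t1716_cC (by fun_prop))
      (t1716_cmul (t1716_cpow (h1 i) _) (t1716_cprod (fun k => t1716_cpow (h1 k) _) _)) j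
  have h3 : t1716_Cc fun w : ((ι → ℂ) × ℂ) × ((ι → ℂ) × ℂ) => t1716_P a m w.1.1 w.2 := fun j => by
    simp only [t1716_P_eq, coeff_add]
    refine (t1716_cC (by fun_prop) j).add ?_
    rcases j with _ | j
    · simp only [t1716_c0]; exact continuous_const
    · simp only [t1716_cs]; exact (h2 j).div_const _
  simp only [t1716_Phi_eq]
  refine Continuous.prodMk (continuous_pi fun j => ?_) (by fun_prop)
  simp only [fun (w : ((ι → ℂ) × ℂ) × ((ι → ℂ) × ℂ)) z =>
    eval_eq_sum_range' (Nat.lt_succ_of_le (t1716_P_deg0 (a := a) (m := m) w.1.1 w.2)) z]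
  exact continuous_finsetSum _ fun k _ => (h3 k).mul (by fun_prop)

theorem t1716_low [Nonempty ι] (ha : a ≠ 0) {x₀ : (ι → ℂ) × ℂ} {η : ℝ} (hη : 0 ≤ η)
    (hinj : ∀ x ∈ closedBall x₀ η, Function.Injective x.1) :
    ∃ c > 0, ∀ x ∈ closedBall x₀ η, ∀ v, ‖v‖ = 1 → c ≤ ‖t1716_Phi a m x.1 v‖ := by
  obtain ⟨w, hw, hmin⟩ := ((isCompact_closedBall x₀ η).prod
    (isCompact_sphere (0 : (ι → ℂ) × ℂ) 1)).exists_isMinOn
    ⟨(x₀, (0, 1)), mem_closedBall_self hη, by simp [Prod.norm_def]⟩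
    (t1716_Phi_cont (a := a) (m := m)).norm.continuousOn
  refine ⟨‖t1716_Phi a m w.1.1 w.2‖, norm_pos_iff.2 fun h => ?_, fun x hx v hv => ?_⟩
  · have h1 := (injective_iff_map_eq_zero _).1 (t1716_Phi_inj ha (hinj _ hw.1)) _ h
    have h2 := hw.2
    rw [h1] at h2
    simp at h2
  · have := isMinOn_iff.1 hmin (x, v) (mk_mem_prod hx (mem_sphere_zero_iff_norm.2 hv))
    simpa only using this

/-- Uniformly bounded directions which move one critical value.
Hint: the tangent of `s ↦ pol a m (x + s • u)` is `p = C u.2 + prim r` with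
`r = -∑ i, C (a * (m i + 1) * u.1 i) * (X - C (x.1 i)) ^ m i * ∏ j ≠ i, (X - C (x.1 j)) ^ (m j + 1)`.
The linear endomorphism `Φ x : u ↦ (fun j => p.eval (x.1 j), ∑ j, (m j + 1) * u.1 j)` is injective
when `x.1` is: the second component kills the top coefficient of `r`, so
`p.natDegree + 1 ≤ ∑ i, (m i + 1)`; `p - C (p.eval (x.1 j))` is divisible by
`(X - C (x.1 j)) ^ (m j + 1)` (characteristic zero), so `p = 0`, `r = 0`, `u = 0`. Hence it is
bijective, and by compactness of `closedBall x₀ η ×ˢ sphere 0 1`, `c * ‖u‖ ≤ ‖Φ x u‖`.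
Take `Φ x (u i) = (Pi.single i 1, 0)`. -/
theorem dirs [Nonempty ι] (ha : a ≠ 0) {x₀ : (ι → ℂ) × ℂ} (hx : Function.Injective x₀.1) :
    ∃ η > 0, ∃ K > 0, ∀ x ∈ closedBall x₀ η, Function.Injective x.1 ∧
      ∃ (u : ι → (ι → ℂ) × ℂ) (p : ι → ℂ[X]), ∑ i, p i = 1 ∧ ∀ i, ‖u i‖ ≤ K ∧
        Tan (fun s => pol a m (x + s • u i)) (p i) ∧ (p i).natDegree + 1 ≤ ∑ i, (m i + 1) ∧
        derivative (pol a m x) ∣ p i * (pol a m x - C (fp (pol a m x) (x.1 i))) := by
  classical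
  have ho : IsOpen {x : (ι → ℂ) × ℂ | Function.Injective x.1} := by
    have : {x : (ι → ℂ) × ℂ | Function.Injective x.1} =
        ⋂ i, ⋂ j, ⋂ (_ : i ≠ j), {x | x.1 i ≠ x.1 j} := by
      ext x
      simp only [mem_ofPred_eq, mem_iInter]
      exact ⟨fun h i j hij => h.ne hij, fun h i j hij => by_contra fun hne => h i j hne hij⟩
    rw [this]
    exact isOpen_iInter_of_finite fun i => isOpen_iInter_of_finite fun j =>
      isOpen_iInter_of_finite fun _ => isOpen_ne_fun (by fun_prop) (by fun_prop)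
  obtain ⟨ε, hε, hb⟩ := Metric.isOpen_iff.1 ho x₀ hx
  have hinj : ∀ x ∈ closedBall x₀ (ε / 2), Function.Injective x.1 := fun x h =>
    hb (closedBall_subset_ball (half_lt_self hε) h)
  obtain ⟨c, hc, hmin⟩ := t1716_low (m := m) ha (half_pos hε).le hinj
  refine ⟨ε / 2, half_pos hε, c⁻¹, inv_pos.2 hc, fun x hx' => ⟨hinj x hx', ?_⟩⟩
  have hi := t1716_Phi_inj (m := m) ha (hinj x hx')
  choose u hu using fun i : ι => LinearMap.injective_iff_surjective.1 hi (Pi.single i 1, 0)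
  have hu' := fun i => Prod.ext_iff.1 ((t1716_Phi_eq x.1 (u i)).symm.trans (hu i))
  refine ⟨u, fun i => t1716_P a m x.1 (u i), ?_, fun i => ⟨?_, t1716_tan x (u i),
    t1716_P_deg _ (hu' i).2, ?_⟩⟩
  · have h0 : t1716_P a m x.1 (0, 1) = 1 := by
      rw [t1716_P_eq, map_zero, C_1]
      exact add_eq_left.2 (map_zero t1716_primL)
    have h1 : ∑ i, u i = (0, 1) := by
      refine hi ?_
      rw [map_sum, t1716_Phi_eq, h0]
      simp only [hu]
      refine Prod.ext (funext fun j => ?_) ?_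
      · simp [Prod.fst_sum, Finset.sum_apply, Pi.single_apply]
      · simp [Prod.snd_sum]
    rw [← map_sum, h1, h0]
  · by_cases h0 : u i = 0
    · rw [h0, norm_zero]; exact (inv_pos.2 hc).le
    have h1 : 0 < ‖u i‖ := norm_pos_iff.2 h0
    have h2 := hmin x hx' (((‖u i‖⁻¹ : ℝ) : ℂ) • u i) (by
      rw [norm_smul, Complex.norm_real, norm_inv, norm_norm, inv_mul_cancel₀ h1.ne'])
    have h3 : ‖((Pi.single i 1, 0) : (ι → ℂ) × ℂ)‖ = 1 := by
      rw [Prod.norm_mk, Pi.norm_single, norm_one, norm_zero, max_eq_left zero_le_one]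
    rw [map_smul, hu, norm_smul, Complex.norm_real, norm_inv, norm_norm, h3, mul_one] at h2
    exact (le_inv_comm₀ hc h1).1 h2
  · rw [pol_deriv, dpol, (isUnit_C.2 (IsUnit.mk0 a ha)).mul_left_dvd]
    refine t1716_prod_dvd (hinj x hx') fun j => ?_
    by_cases hj : j = i
    · refine Dvd.dvd.mul_left ((pow_dvd_pow _ (Nat.le_succ _)).trans (t1716_dvd ?_ ?_)) _
      · rw [eval_sub, eval_C, hj]
        exact sub_self _
      · rw [derivative_sub, derivative_C, sub_zero, pol_deriv, dpol]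
        exact (Finset.dvd_prod_of_mem (fun j => (X - C (x.1 j)) ^ (m j + 1))
          (Finset.mem_univ j)).mul_left _
    · refine (t1716_P_dvd _ ?_).mul_right _
      exact (congrFun (hu' i).1 j).trans (Pi.single_eq_of_ne hj _)

end Pool.Agent.MP_28f8a1_an.G42

end

-- part MP_28f8a1_an.G42.Qid
section

/-! The defect of invariance of the quadratic differential of a cycle. -/

set_option autoImplicit false

namespace Pool.Agent.MP_28f8a1_an.G42

open MeasureTheory Metric Set Real Filter Topology Polynomial Pool.Agent.MP_28f8a1_an.H42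
open scoped ENNReal

/-- Partial fractions.
Hint: `G = (1 - (T - C y) * P) / derivative T` is a polynomial of degree `< T.natDegree` with
`G.eval w = (lam T w)⁻¹` at the roots `w` of `T - C y`, which are simple, so there are
`T.natDegree` of them; apply Lagrange interpolation (`Lagrange.eq_interpolate`,
`Lagrange.eval_interpolate_not_at_node`, `Lagrange.nodalWeight_eq_eval_nodal_derative`). -/
theorem Tr_pole {T P : ℂ[X]} {y : ℂ} (hP : P.natDegree + 2 ≤ T.natDegree)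
    (hd : derivative T ∣ (T - C y) * P - 1) {b : ℂ} (hb : lam T b ≠ 0) (hy : fp T b ≠ y) :
    Tr T (fun z => (z - b)⁻¹) y = fp P b / lam T b + (lam T b * (y - fp T b))⁻¹ := by
  classical
  obtain ⟨Q, hQ⟩ := hd
  have hT : 0 < T.natDegree := by omega
  have hF : derivative (T - C y) = derivative T := by simp
  have hdeg : (T - C y).natDegree = T.natDegree := natDegree_sub_C
  have hsep : (T - C y).Separable := ⟨P, -Q, by rw [hF]; linear_combination hQ⟩
  have hnd := nodup_roots hsep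
  have hcard : (T - C y).roots.card = (T - C y).natDegree := IsAlgClosed.card_roots_eq_natDegree
  have hc : (pre T y).card = T.natDegree := by
    rw [pre, Multiset.toFinset_card_of_nodup hnd, hcard, hdeg]
  have hl : (T - C y).leadingCoeff ≠ 0 := leadingCoeff_ne_zero.2 fun h => by
    rw [h, natDegree_zero] at hdeg
    omega
  have hnod : C (T - C y).leadingCoeff * Lagrange.nodal (pre T y) id = T - C y := by
    have h1 := C_leadingCoeff_mul_prod_multiset_X_sub_C hcard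
    rw [Lagrange.nodal, Finset.prod, pre, Multiset.toFinset_val, Multiset.dedup_eq_self.2 hnd]
    exact h1
  generalize (T - C y).leadingCoeff = l at hl hnod
  have hT' : derivative T ≠ 0 := fun h => hb (by simp [lam, h])
  have hQd : Q.natDegree < (pre T y).card := by
    rcases eq_or_ne Q 0 with rfl | h0
    · rw [natDegree_zero, hc]
      exact hT
    have h1 := natDegree_mul hT' h0
    have h2 := natDegree_mul_le (p := T - C y) (q := P)
    have h3 : ((T - C y) * P - 1).natDegree = ((T - C y) * P).natDegree := natDegree_sub_C (a := 1)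
    have h4 := natDegree_derivative T
    rw [hQ] at h3
    omega
  have hI := Lagrange.eq_interpolate (s := pre T y) (v := id) (f := Q) (Set.injOn_id _)
    (degree_le_natDegree.trans_lt (by exact_mod_cast hQd))
  have hbn : ∀ w ∈ pre T y, b ≠ id w := fun w hw h => hy (h ▸ (mem_pre hT).1 hw)
  have hE := Lagrange.eval_interpolate_not_at_node (fun w => Q.eval (id w)) hbn
  rw [← hI] at hE
  have h5 : ∀ z, (fp T z - y) * fp P z - 1 = lam T z * Q.eval z := fun z => by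
    simpa [fp, lam] using congrArg (eval z) hQ
  have h6 : l * (Lagrange.nodal (pre T y) id).eval b = fp T b - y := by
    simpa [fp] using congrArg (eval b) hnod
  have h7 : ∑ w ∈ pre T y, Lagrange.nodalWeight (pre T y) id w * (b - id w)⁻¹ * Q.eval (id w) =
      l * Tr T (fun z => (z - b)⁻¹) y := by
    rw [Tr, Finset.mul_sum]
    refine Finset.sum_congr rfl fun w hw => ?_
    have h8 := h5 w
    rw [(mem_pre hT).1 hw, sub_self, zero_mul, zero_sub] at h8
    have h9 : lam T w ≠ 0 := fun h => by simp [h] at h8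
    have h10 : l * (derivative (Lagrange.nodal (pre T y) id)).eval w = lam T w := by
      have := congrArg (fun p => (derivative p).eval w) hnod
      simpa [lam] using this
    have h11 : w - b ≠ 0 := sub_ne_zero.2 (hbn w hw).symm
    have h12 : b - w ≠ 0 := sub_ne_zero.2 (hbn w hw)
    rw [Lagrange.nodalWeight_eq_eval_derivative_nodal hw, tm, id,
      show (derivative (Lagrange.nodal (pre T y) id)).eval w = lam T w / l by
        rw [← h10, mul_div_cancel_left₀ _ hl],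
      show Q.eval w = -(lam T w)⁻¹ by field_simp; linear_combination -h8]
    field_simp
    ring
  rw [h7, ← mul_assoc, mul_comm _ l, h6] at hE
  have h8 := h5 b
  have h9 : y - fp T b ≠ 0 := sub_ne_zero.2 hy.symm
  rw [hE] at h8
  generalize Tr T (fun z => (z - b)⁻¹) y = τ at h8 ⊢
  field_simp
  linear_combination h8

theorem t1717_pole2 {T P : ℂ[X]} {y : ℂ} (hP : P.natDegree + 2 ≤ T.natDegree)
    (hd : derivative T ∣ (T - C y) * P - 1) {b : ℂ} (hb : lam T b ≠ 0) (hy : fp T b ≠ y) :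
    Tr T (fun z => ((z - b) ^ 2)⁻¹) y = lam P b / lam T b + ((y - fp T b) ^ 2)⁻¹ -
      lam (derivative T) b / lam T b ^ 2 * (fp P b + (y - fp T b)⁻¹) := by
  have hT : 0 < T.natDegree := by omega
  have h9 : y - fp T b ≠ 0 := sub_ne_zero.2 hy.symm
  have h1 : HasDerivAt (fun v => Tr T (fun z => (z - v)⁻¹) y)
      (Tr T (fun z => ((z - b) ^ 2)⁻¹) y) b := by
    unfold Tr tm
    refine HasDerivAt.fun_sum fun w hw => HasDerivAt.div_const ?_ _
    have hk : w - b ≠ 0 := sub_ne_zero.mpr fun h => hy (h ▸ (mem_pre hT).1 hw)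
    refine (((hasDerivAt_id b).const_sub w).fun_inv hk).congr_deriv ?_
    simp
  have h2 : HasDerivAt (fun v => fp P v / lam T v + (lam T v * (y - fp T v))⁻¹)
      (lam P b / lam T b + ((y - fp T b) ^ 2)⁻¹ -
        lam (derivative T) b / lam T b ^ 2 * (fp P b + (y - fp T b)⁻¹)) b := by
    have h3 := (fp_deriv (T := P) b).fun_div (lam_deriv (T := T) b) hb
    have h4 := ((lam_deriv (T := T) b).fun_mul ((fp_deriv (T := T) b).const_sub y)).fun_inv
      (mul_ne_zero hb h9)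
    refine (h3.fun_add h4).congr_deriv ?_
    field_simp
    ring
  refine (h1.congr_of_eventuallyEq ?_).unique h2
  have h5 : ∀ᶠ v in 𝓝 b, lam T v ≠ 0 := (lam_diff (T := T)).continuous.continuousAt.eventually_ne hb
  have h6 : ∀ᶠ v in 𝓝 b, fp T v ≠ y := (fp_diff (T := T)).continuous.continuousAt.eventually_ne hy
  filter_upwards [h5, h6] with v h7 h8
  exact (Tr_pole hP hd h7 h8).symm

/-- Hint: differentiate `Tr_pole` in `b` as in `H42.Cyc.t1050_pole2`, then argue as in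
`H42.Cyc.q_id` (file `H42/Quad.lean`) using `Y.rc` and `Y.t1050_sum`. -/
theorem Cyc.qid {d : ℕ} {Λ : ℝ} (Y : Cyc d Λ) {P : ℂ[X]} {y : ℂ} (hP : P.natDegree + 2 ≤ d)
    (hd : derivative Y.T ∣ (Y.T - C y) * P - 1) (hy : y ∉ Y.B) :
    Y.q y - Tr Y.T Y.q y = -Y.L P := by
  rw [← Y.adm.deg] at hP
  have h1 : Tr Y.T Y.q y = ∑ b ∈ Y.B, (Tr Y.T (fun z => ((z - b) ^ 2)⁻¹) y +
      Y.a b * Tr Y.T (fun z => (z - b)⁻¹) y) := by
    simp only [Tr, tm, Cyc.q, Finset.sum_div, Finset.mul_sum, add_div, mul_div_assoc,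
      ← Finset.sum_add_distrib]
    exact Finset.sum_comm
  have h2 : ∀ b ∈ Y.B, Tr Y.T (fun z => ((z - b) ^ 2)⁻¹) y +
      Y.a b * Tr Y.T (fun z => (z - b)⁻¹) y =
      (fun v => ((y - v) ^ 2)⁻¹ + Y.a v * (y - v)⁻¹) (fp Y.T b) +
        (lam P b / lam Y.T b + Y.a (fp Y.T b) * fp P b) := by
    intro b hb
    have h3 : fp Y.T b ≠ y := fun h => hy (h ▸ Y.maps b hb)
    rw [t1717_pole2 hP hd (Y.ne0 b hb) h3, Tr_pole hP hd (Y.ne0 b hb) h3]
    simp only [Y.rc b hb, mul_inv]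
    ring
  rw [h1, Finset.sum_congr rfl h2, Finset.sum_add_distrib,
    Y.t1050_sum fun v => ((y - v) ^ 2)⁻¹ + Y.a v * (y - v)⁻¹, Cyc.q, Cyc.L]
  ring

theorem t1717_L {d : ℕ} {Λ : ℝ} (Y : Cyc d Λ) {ι : Type} [Fintype ι] (c : ι → ℂ)
    (p : ι → ℂ[X]) : Y.L (∑ i, C (c i) * p i) = ∑ i, c i * Y.L (p i) := by
  simp only [Cyc.L, lam, fp, derivative_sum, derivative_C_mul, eval_finsetSum, eval_mul, eval_C,
    Finset.sum_div, Finset.mul_sum, ← Finset.sum_add_distrib]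
  rw [Finset.sum_comm]
  exact Finset.sum_congr rfl fun i _ => Finset.sum_congr rfl fun b _ => by ring

/-- Hint: `P = ∑ i, C (v i - y)⁻¹ * p i` in `qid`, linearity of `L`, `LI_gk_le`. -/
theorem Cyc.def_of {d : ℕ} {Λ : ℝ} (Y : Cyc d Λ) {ι : Type} [Fintype ι] {p : ι → ℂ[X]} {v : ι → ℂ}
    (h1 : ∑ i, p i = 1) (h2 : ∀ i, (p i).natDegree + 2 ≤ d)
    (h3 : ∀ i, derivative Y.T ∣ p i * (Y.T - C (v i))) : Y.Def (∑ i, ‖Y.L (p i)‖) := by
  refine ⟨Finset.sum_nonneg fun i _ => norm_nonneg _, fun R hR => ?_⟩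
  have hfin : ((Y.B : Set ℂ) ∪ range v).Finite := Y.B.finite_toSet.union (finite_range v)
  refine (LI_mono_ae measurableSet_ball (hfin.measure_zero volume)
    (v := fun y => ∑ i, ‖Y.L (p i)‖ * gk (v i) y) fun y _ hy => ?_).trans ?_
  · have hB : y ∉ Y.B := fun h => hy (Or.inl h)
    have hv : ∀ i, v i - y ≠ 0 := fun i => sub_ne_zero.2 fun h => hy (Or.inr ⟨i, h⟩)
    have hP : (∑ i, C (v i - y)⁻¹ * p i).natDegree + 2 ≤ d := by
      have h4 := Y.adm.two
      have h5 : (∑ i, C (v i - y)⁻¹ * p i).natDegree ≤ d - 2 :=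
        natDegree_sum_le_of_forall_le _ _ fun i _ =>
          (natDegree_C_mul_le _ _).trans (Nat.le_sub_of_add_le (h2 i))
      omega
    have hd : derivative Y.T ∣ (Y.T - C y) * (∑ i, C (v i - y)⁻¹ * p i) - 1 := by
      rw [← h1, Finset.mul_sum, ← Finset.sum_sub_distrib]
      refine Finset.dvd_sum fun i _ => ?_
      have h4 : C (v i - y)⁻¹ * (C (v i) - C y) = (1 : ℂ[X]) := by
        rw [← C_sub, ← C_mul, inv_mul_cancel₀ (hv i), C_1]
      rw [show (Y.T - C y) * (C (v i - y)⁻¹ * p i) - p i =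
        C (v i - y)⁻¹ * (p i * (Y.T - C (v i))) by linear_combination p i * h4]
      exact (h3 i).mul_left _
    rw [Y.qid hP hd hB, norm_neg, t1717_L]
    refine (norm_sum_le _ _).trans (le_of_eq (Finset.sum_congr rfl fun i _ => ?_))
    rw [norm_mul, norm_inv, norm_sub_rev, gk, mul_comm]
  · refine (LI_sum_le _ _ (u := fun i y => ‖Y.L (p i)‖ * gk (v i) y)
      fun i _ => by fun_prop).trans ?_
    rw [Finset.mul_sum, ENNReal.ofReal_sum_of_nonneg fun i _ => by positivity]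
    refine Finset.sum_le_sum fun i _ => ?_
    rw [LI_const_mul _ (norm_nonneg _), mul_comm (2 * π * R), ENNReal.ofReal_mul (norm_nonneg _)]
    exact mul_le_mul_right (LI_gk_le _ _ _) _

end Pool.Agent.MP_28f8a1_an.G42

end

-- part MP_28f8a1_an.G42.Mv
section

/-! Moving the parameter along a prescribed path of multipliers. -/

set_option autoImplicit false

namespace Pool.Agent.MP_28f8a1_an.G42

open MeasureTheory Metric Set Real Filter Topology Polynomial Pool.Agent.MP_28f8a1_an.H42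
open scoped ENNReal

variable {d : ℕ} {Λ : ℝ}

/-- The residues along the orbit. -/
noncomputable def t1718_rs (T : ℂ[X]) (z t : ℂ) : ℕ → ℂ
  | 0 => t
  | k + 1 => t1718_rs T z t k / lam T ((fp T)^[k] z) -
      lam (derivative T) ((fp T)^[k] z) / lam T ((fp T)^[k] z) ^ 2

theorem t1718_rs_lin {T : ℂ[X]} {z : ℂ} (t : ℂ) (k : ℕ) :
    t1718_rs T z t k = t / Pd T z k + t1718_rs T z 0 k := by
  induction k with
  | zero => simp [t1718_rs, Pd_zero]
  | succ k ih =>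
    rw [t1718_rs, t1718_rs, ih, Pd_succ', add_div, div_div]
    ring

theorem t1718_ne0 {T : ℂ[X]} {z : ℂ} {n : ℕ} (h0 : Pd T z n ≠ 0) {k : ℕ} (hk : k < n) :
    lam T ((fp T)^[k] z) ≠ 0 ∧ Pd T z k ≠ 0 := by
  obtain ⟨m, rfl⟩ : ∃ m, n = m + (k + 1) := ⟨n - (k + 1), by omega⟩
  rw [Pd_add, Pd_succ'] at h0
  have h1 := right_ne_zero_of_mul h0
  exact ⟨left_ne_zero_of_mul h1, right_ne_zero_of_mul h1⟩

/-- The cycle of a periodic point (port of `t1055_cyc`, file `H42/Move.lean`). -/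
theorem cyc_of {T : ℂ[X]} (hT : Adm d Λ T) {z : ℂ} {n : ℕ} (hn : 0 < n)
    (hper : Function.minimalPeriod (fp T) z = n) (h0 : Pd T z n ≠ 0) (h1 : Pd T z n ≠ 1) :
    ∃ Y : Cyc d Λ, Y.T = T ∧ Y.ρ = Pd T z n ∧ z ∈ Y.B ∧ Y.B.card = n := by
  classical
  have hz : (fp T)^[n] z = z := hper ▸ Function.iterate_minimalPeriod
  have hinj : ∀ i < n, ∀ j < n, (fp T)^[i] z = (fp T)^[j] z → i = j := fun i hi j hj h =>
    Function.iterate_injOn_Iio_minimalPeriod (f := fp T) (x := z) (by rw [hper]; exact hi)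
      (by rw [hper]; exact hj) h
  obtain ⟨t, ht⟩ : ∃ t, t1718_rs T z t n = t := by
    refine ⟨t1718_rs T z 0 n * Pd T z n / (Pd T z n - 1), ?_⟩
    have := sub_ne_zero.2 h1
    rw [t1718_rs_lin]
    field_simp
    ring
  set B := (Finset.range n).image (fun k => (fp T)^[k] z) with hB
  have hmem : ∀ k, (fp T)^[k] z ∈ B := fun k => Finset.mem_image.2
    ⟨k % n, Finset.mem_range.2 (Nat.mod_lt _ hn), hper ▸ Function.iterate_mod_minimalPeriod_eq⟩
  have hrep : ∀ b ∈ B, ∃ k < n, (fp T)^[k] z = b := fun b hb => by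
    obtain ⟨k, hk, h⟩ := Finset.mem_image.1 hb
    exact ⟨k, Finset.mem_range.1 hk, h⟩
  have hinj' : Set.InjOn (fun k => (fp T)^[k] z) (Finset.range n : Set ℕ) := fun i hi j hj h =>
    hinj i (by simpa using hi) j (by simpa using hj) h
  have hcard : B.card = n := by rw [hB, Finset.card_image_of_injOn hinj', Finset.card_range]
  have hfix : ∀ b ∈ B, (fp T)^[n] b = b := fun b hb => by
    obtain ⟨k, -, rfl⟩ := hrep b hb
    rw [← Function.iterate_add_apply, add_comm, Function.iterate_add_apply, hz]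
  set a : ℂ → ℂ := fun b => ∑ k ∈ Finset.range n,
    if (fp T)^[k] z = b then t1718_rs T z t k else 0 with ha
  have haz : ∀ k < n, a ((fp T)^[k] z) = t1718_rs T z t k := fun k hk => by
    rw [ha]
    dsimp only
    rw [Finset.sum_eq_single_of_mem k (Finset.mem_range.2 hk), if_pos rfl]
    intro j hj hjk
    exact if_neg fun h => hjk (hinj j (Finset.mem_range.1 hj) k hk h)
  have haz' : ∀ k < n, a ((fp T)^[k + 1] z) = t1718_rs T z t (k + 1) := fun k hk => by
    rcases (Nat.succ_le_of_lt hk).lt_or_eq with h | h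
    · exact haz _ h
    · have h' : k + 1 = n := h
      rw [h', hz, ht]
      exact haz 0 hn
  refine ⟨⟨T, B, a, Pd T z n, hT, ⟨_, hmem 0⟩, ?_, ?_, ?_, ?_, ?_, ?_, ?_⟩, rfl, rfl, hmem 0,
    hcard⟩
  · intro b hb
    obtain ⟨k, -, rfl⟩ := hrep b hb
    rw [← Function.iterate_succ_apply' (fp T)]
    exact hmem _
  · intro b hb b' hb' h
    obtain ⟨m, hm⟩ : ∃ m, n = m + 1 := ⟨n - 1, by omega⟩
    rw [← hfix b hb, ← hfix b' hb', hm, Function.iterate_succ_apply, Function.iterate_succ_apply, h]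
  · intro b hb
    obtain ⟨k, hk, rfl⟩ := hrep b hb
    exact (t1718_ne0 h0 hk).1
  · intro b hb
    obtain ⟨k, hk, rfl⟩ := hrep b hb
    rw [← Function.iterate_succ_apply' (fp T), haz k hk]
    exact haz' k hk
  · rw [hcard]
    exact hfix
  · intro b hb
    obtain ⟨k, hk, rfl⟩ := hrep b hb
    have h2 := Pd_add (T := T) z n k
    rw [add_comm, Pd_add, hz, mul_comm] at h2
    rw [hcard]
    exact (mul_right_cancel₀ (t1718_ne0 h0 hk).2 h2).symm
  · intro b hb
    have hb' := hfix b hb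
    obtain ⟨k, -, hk⟩ := hrep b hb
    have hmp : Function.minimalPeriod (fp T) b = n := by
      rw [← hk, Function.minimalPeriod_apply_iterate (Function.mk_mem_periodicPts hn hz), hper]
    obtain ⟨m, hm⟩ : ∃ m, n = m + 1 := ⟨n - 1, by omega⟩
    have hback : ∀ i, (fp T)^[i] ((fp T)^[m * i] b) = b := fun i => by
      rw [← Function.iterate_add_apply, show i + m * i = n * i by rw [hm]; ring,
        Function.iterate_mul]
      exact Function.iterate_fixed hb' i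
    have hlt : ∀ i j, i < j → j < n → (fp T)^[m * i] b ≠ (fp T)^[m * j] b := by
      intro i j hij hj h
      have h2 := hback j
      obtain ⟨r, rfl⟩ : ∃ r, j = r + i := ⟨j - i, by omega⟩
      rw [← h, Function.iterate_add_apply, hback] at h2
      have h3 := Function.IsPeriodicPt.minimalPeriod_le (f := fp T) (x := b) (n := r)
        (by omega) h2
      omega
    refine ⟨fun i => (fp T)^[m * i] b, by simp, fun i => ?_, fun i => ?_, ?_⟩
    · have h2 := hmem (m * i + k)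
      rwa [Function.iterate_add_apply, hk] at h2
    · rw [← Function.iterate_succ_apply' (fp T),
        show (m * (i + 1)).succ = m * i + n by rw [hm, Nat.succ_eq_add_one]; ring,
        Function.iterate_add_apply, hb']
    · rw [hcard]
      intro i hi j hj h
      rcases lt_trichotomy i j with h' | h' | h'
      · exact absurd h (hlt i j h' hj)
      · exact h'
      · exact absurd h.symm (hlt j i h' hi)

/-- The periodic point follows the parameter. -/
theorem t1718_follow {F : ℂ → ℂ[X]} (hF : Sm d F) {z : ℂ} {n : ℕ} (hz : (fp (F 0))^[n] z = z)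
    (h1 : Pd (F 0) z n ≠ 1) : ∃ (ψ : ℂ → ℂ) (σ : ℂ), ψ 0 = z ∧ HasStrictDerivAt ψ σ 0 ∧
      ∀ᶠ s in 𝓝 (0 : ℂ), (fp (F s))^[n] (ψ s) = ψ s := by
  have hG : ContDiffAt ℂ 1 (fun w : ℂ × ℂ => (fp (F w.1))^[n] w.2 - w.2) (0, z) :=
    ((hF.iter_cd n).sub contDiff_snd).contDiffAt
  have hA := (hG.differentiableAt one_ne_zero).hasFDerivAt.comp z
    (hasFDerivAt_prodMk_right (0 : ℂ) z)
  have hB := ((iter_deriv (T := F 0) n z).sub (hasDerivAt_id z)).hasFDerivAt_equiv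
    (sub_ne_zero.2 h1)
  have hinv : (fderiv ℂ (fun w : ℂ × ℂ => (fp (F w.1))^[n] w.2 - w.2) (0, z) ∘L
      ContinuousLinearMap.inr ℂ ℂ ℂ).IsInvertible := ⟨_, hB.unique hA⟩
  refine ⟨hG.implicitFunction one_ne_zero hinv, _, hG.implicitFunction_apply_self one_ne_zero hinv,
    (hG.contDiffAt_implicitFunction one_ne_zero hinv).hasStrictDerivAt one_ne_zero, ?_⟩
  filter_upwards [hG.eventually_apply_implicitFunction one_ne_zero hinv] with s h
  simp only [hz, sub_self] at h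
  exact sub_eq_zero.1 h

/-- The speeds of the points of the orbit. -/
noncomputable def t1718_sp (T p : ℂ[X]) (z σ : ℂ) : ℕ → ℂ
  | 0 => σ
  | k + 1 => lam T ((fp T)^[k] z) * t1718_sp T p z σ k + fp p ((fp T)^[k] z)

theorem t1718_orbit {F : ℂ → ℂ[X]} {p : ℂ[X]} (hF : Sm d F) (hp : Tan F p) {ψ : ℂ → ℂ} {σ : ℂ}
    (hψ : HasStrictDerivAt ψ σ 0) (k : ℕ) :
    HasStrictDerivAt (fun s => (fp (F s))^[k] (ψ s)) (t1718_sp (F 0) p (ψ 0) σ k) 0 := by
  induction k with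
  | zero => exact hψ
  | succ k ih =>
    simp only [Function.iterate_succ_apply']
    exact hp.fp hF ih

theorem t1718_mult {F : ℂ → ℂ[X]} {p : ℂ[X]} (hF : Sm d F) (hp : Tan F p) {ψ : ℂ → ℂ} {σ : ℂ}
    (hψ : HasStrictDerivAt ψ σ 0) (k : ℕ) (h0 : ∀ j < k, lam (F 0) ((fp (F 0))^[j] (ψ 0)) ≠ 0) :
    HasStrictDerivAt (fun s => Pd (F s) (ψ s) k) (Pd (F 0) (ψ 0) k *
      ∑ j ∈ Finset.range k, (lam (derivative (F 0)) ((fp (F 0))^[j] (ψ 0)) *
        t1718_sp (F 0) p (ψ 0) σ j + lam p ((fp (F 0))^[j] (ψ 0))) /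
          lam (F 0) ((fp (F 0))^[j] (ψ 0))) 0 := by
  induction k with
  | zero => simpa [Pd_zero] using hasStrictDerivAt_const (0 : ℂ) (1 : ℂ)
  | succ k ih =>
    simp only [Pd_succ']
    have h := (hp.lam hF (t1718_orbit hF hp hψ k)).fun_mul (ih fun j hj => h0 j (by omega))
    refine h.congr_deriv ?_
    have hk := h0 k (by omega)
    rw [Finset.sum_range_succ]
    field_simp
    ring

theorem t1718_tele (Y : Cyc d Λ) (p : ℂ[X]) {z : ℂ} (hz : z ∈ Y.B) (σ : ℂ) (k : ℕ) :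
    Y.a ((fp Y.T)^[k] z) * t1718_sp Y.T p z σ k - Y.a z * σ =
      ∑ j ∈ Finset.range k, (lam p ((fp Y.T)^[j] z) / lam Y.T ((fp Y.T)^[j] z) +
        Y.a (fp Y.T ((fp Y.T)^[j] z)) * fp p ((fp Y.T)^[j] z)) -
      ∑ j ∈ Finset.range k, (lam (derivative Y.T) ((fp Y.T)^[j] z) * t1718_sp Y.T p z σ j +
        lam p ((fp Y.T)^[j] z)) / lam Y.T ((fp Y.T)^[j] z) := by
  induction k with
  | zero => simp [t1718_sp]
  | succ k ih =>
    have hb := Y.iter_mem hz k
    have hl := Y.ne0 _ hb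
    have h1 : Y.a (fp Y.T ((fp Y.T)^[k] z)) * (lam Y.T ((fp Y.T)^[k] z) * t1718_sp Y.T p z σ k) =
        Y.a ((fp Y.T)^[k] z) * t1718_sp Y.T p z σ k -
          lam (derivative Y.T) ((fp Y.T)^[k] z) * t1718_sp Y.T p z σ k /
            lam Y.T ((fp Y.T)^[k] z) := by
      rw [Y.rc _ hb]
      field_simp
    rw [Finset.sum_range_succ, Finset.sum_range_succ, t1718_sp, Function.iterate_succ_apply',
      add_div]
    linear_combination ih + h1

theorem t1718_L (Y : Cyc d Λ) {z : ℂ} (hz : z ∈ Y.B)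
    (hper : Function.minimalPeriod (fp Y.T) z = Y.B.card) (g : ℂ → ℂ) :
    ∑ b ∈ Y.B, g b = ∑ j ∈ Finset.range Y.B.card, g ((fp Y.T)^[j] z) := by
  classical
  have hinj : Set.InjOn (fun k => (fp Y.T)^[k] z) (Finset.range Y.B.card : Set ℕ) :=
    fun i hi j hj h => Function.iterate_injOn_Iio_minimalPeriod (f := fp Y.T) (x := z)
      (by rw [hper]; simpa using hi) (by rw [hper]; simpa using hj) h
  have hB : (Finset.range Y.B.card).image (fun k => (fp Y.T)^[k] z) = Y.B :=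
    Finset.eq_of_subset_of_card_le (fun b hb => by
      obtain ⟨k, -, rfl⟩ := Finset.mem_image.1 hb
      exact Y.iter_mem hz k) (by rw [Finset.card_image_of_injOn hinj, Finset.card_range])
  rw [← Finset.sum_image hinj, hB]

/-- The multiplier can be moved a little, at bounded speed (port of `local_move`).
Hint: the periodic point follows the parameter, `ψ`; the speeds of the orbit satisfy
`σ (k + 1) = lam T b * σ k + fp p b` with `b = (fp T)^[k] z` (`Tan.fp`), the logarithmic derivative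
of the multiplier is the sum of `(lam (derivative T) b * σ k + lam p b) / lam T b` (`Tan.lam`), and
by `Y.rc`, `a (T b) * σ (k + 1) - a b * σ k = a (T b) * fp p b - lam (derivative T) b * σ k / lam T b`
telescopes; so the derivative of the multiplier is `ρ * Y.L p`. -/
theorem local_move (Y : Cyc d Λ) {F : ℂ → ℂ[X]} {p : ℂ[X]} (hF : Sm d F) (hp : Tan F p)
    (h0 : F 0 = Y.T) {z : ℂ} (hz : z ∈ Y.B) (hper : Function.minimalPeriod (fp Y.T) z = Y.B.card)
    (h1 : Y.ρ ≠ 1) {κ : ℝ} (hκ : 0 < κ) (hS : κ ≤ ‖Y.L p‖) :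
    ∀ᶠ ρ' in 𝓝 Y.ρ, ∃ s z' : ℂ, Function.minimalPeriod (fp (F s)) z' = Y.B.card ∧
      Pd (F s) z' Y.B.card = ρ' ∧ ‖s‖ ≤ 2 / (κ * ‖Y.ρ‖) * ‖ρ' - Y.ρ‖ := by
  have hn : 0 < Y.B.card := Y.ne.card_pos
  have hfz : (fp (F 0))^[Y.B.card] z = z := h0 ▸ Y.fix z hz
  have hρz : Pd (F 0) z Y.B.card = Y.ρ := h0 ▸ Y.mult z hz
  obtain ⟨ψ, σ, rfl, hψ, hfix⟩ := t1718_follow hF hfz (hρz ▸ h1)
  have hd : t1718_sp (F 0) p (ψ 0) σ Y.B.card = σ :=
    ((t1718_orbit hF hp hψ Y.B.card).hasDerivAt.congr_of_eventuallyEq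
      (hfix.mono fun _ h => h.symm)).unique hψ.hasDerivAt
  have htel := t1718_tele Y p hz σ Y.B.card
  rw [← t1718_L Y hz hper fun b => lam p b / lam Y.T b + Y.a (fp Y.T b) * fp p b, ← h0, hfz, hd,
    sub_self, h0] at htel
  have hμ := t1718_mult hF hp hψ Y.B.card fun j _ => h0 ▸ Y.ne0 _ (Y.iter_mem hz j)
  rw [hρz, h0, ← sub_eq_zero.1 htel.symm] at hμ
  change HasStrictDerivAt _ (Y.ρ * Y.L p) 0 at hμ
  have hρ : 0 < ‖Y.ρ‖ := norm_pos_iff.2 Y.rho_ne
  have hμ0 : Y.ρ * Y.L p ≠ 0 := mul_ne_zero Y.rho_ne (norm_pos_iff.1 (hκ.trans_le hS))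
  have hg := hμ.to_localInverse hμ0
  have hgc := (hμ.eventually_left_inverse hμ0).self_of_nhds
  have hgr := hμ.eventually_right_inverse hμ0
  generalize hμ.localInverse _ _ _ hμ0 = g at hg hgc hgr
  simp only [hρz] at hg hgc hgr
  have hgt : Tendsto g (𝓝 Y.ρ) (𝓝 0) := by
    have h := hg.hasDerivAt.continuousAt.tendsto
    rwa [hgc] at h
  have hsep : ∀ᶠ s in 𝓝 (0 : ℂ), ∀ k ∈ Finset.Ioo 0 Y.B.card, (fp (F s))^[k] (ψ s) ≠ ψ s := by
    refine (Finset.eventually_all _).2 fun k hk => ?_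
    obtain ⟨hk0, hkn⟩ := Finset.mem_Ioo.1 hk
    have h2 : (fp (F 0))^[k] (ψ 0) - ψ 0 ≠ 0 := fun h => by
      have h3 := Function.IsPeriodicPt.minimalPeriod_le (f := fp (F 0)) (x := ψ 0) hk0
        (sub_eq_zero.1 h)
      rw [h0] at h3
      omega
    have h4 := ((t1718_orbit hF hp hψ k).fun_sub hψ).hasDerivAt.continuousAt
    exact (h4.eventually_ne h2).mono fun _ h => sub_ne_zero.1 h
  have hε : 0 < 1 / (κ * ‖Y.ρ‖) := by positivity
  filter_upwards [hgr, hgt.eventually hfix, hgt.eventually hsep,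
    hg.hasDerivAt.isLittleO.def hε] with ρ' h2 h3 h4 h5
  refine ⟨g ρ', ψ (g ρ'), ?_, h2, ?_⟩
  · have h6 : Function.IsPeriodicPt (fp (F (g ρ'))) Y.B.card (ψ (g ρ')) := h3
    by_contra h7
    exact h4 _ (Finset.mem_Ioo.2 ⟨h6.minimalPeriod_pos hn,
      lt_of_le_of_ne (h6.minimalPeriod_le hn) h7⟩) Function.iterate_minimalPeriod
  · rw [hgc, sub_zero] at h5
    have h6 : ‖(Y.ρ * Y.L p)⁻¹‖ ≤ 1 / (κ * ‖Y.ρ‖) := by
      rw [norm_inv, norm_mul, one_div, mul_comm]
      exact inv_anti₀ (by positivity) (mul_le_mul_of_nonneg_right hS hρ.le)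
    have h7 : ‖(ρ' - Y.ρ) • (Y.ρ * Y.L p)⁻¹‖ ≤ 1 / (κ * ‖Y.ρ‖) * ‖ρ' - Y.ρ‖ := by
      rw [norm_smul, mul_comm]
      exact mul_le_mul_of_nonneg_right h6 (norm_nonneg _)
    have h8 := norm_le_norm_sub_add (g ρ') ((ρ' - Y.ρ) • (Y.ρ * Y.L p)⁻¹)
    rw [show 2 / (κ * ‖Y.ρ‖) = 2 * (1 / (κ * ‖Y.ρ‖)) by ring]
    linarith

/-- The multiplier can be moved along a segment (port of `move`; use `Sm.div`, `per_lt`). -/
theorem move {E : Type} [NormedAddCommGroup E] [NormedSpace ℂ E] [ProperSpace E] {F : E → ℂ[X]}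
    (hF : Sm d F) {x₀ x : E} {η K : ℝ} (hK : 0 ≤ K) (hadm : ∀ x ∈ closedBall x₀ η, Adm d Λ (F x))
    {z ρ' : ℂ} {n : ℕ} (hn : 0 < n) (hper : Function.minimalPeriod (fp (F x)) z = n)
    (hx : ‖x - x₀‖ + K * ‖ρ' - Pd (F x) z n‖ ≤ η) (h1 : (1 : ℂ) ∉ segment ℝ (Pd (F x) z n) ρ')
    (hloc : ∀ y ∈ closedBall x₀ η, ∀ w, Function.minimalPeriod (fp (F y)) w = n →
      Pd (F y) w n ∈ segment ℝ (Pd (F x) z n) ρ' → ∀ᶠ r in 𝓝 (Pd (F y) w n), ∃ y' w',
        Function.minimalPeriod (fp (F y')) w' = n ∧ Pd (F y') w' n = r ∧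
          ‖y' - y‖ ≤ K * ‖r - Pd (F y) w n‖) :
    ∃ x' z', Function.minimalPeriod (fp (F x')) z' = n ∧ Pd (F x') z' n = ρ' ∧
      ‖x' - x‖ ≤ K * ‖ρ' - Pd (F x) z n‖ := by
  obtain ⟨Q, q1, q2, q3⟩ := hF.div n
  obtain ⟨ρ, hρ⟩ : ∃ ρ, Pd (F x) z n = ρ := ⟨_, rfl⟩
  rw [hρ] at hx h1 hloc ⊢
  obtain ⟨L, hL⟩ : ∃ L, K * ‖ρ' - ρ‖ = L := ⟨_, rfl⟩
  rw [hL] at hx ⊢
  have hL0 : 0 ≤ L := by rw [← hL]; positivity
  let γ : ℝ → ℂ := fun t => ρ + t * (ρ' - ρ)
  have hγ : Continuous γ := by fun_prop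
  have hmem : ∀ t ∈ Icc (0 : ℝ) 1, γ t ∈ segment ℝ ρ ρ' := fun t ht => by
    rw [segment_eq_image']
    exact ⟨t, ht, by simp [γ]⟩
  have hball : ∀ t ∈ Icc (0 : ℝ) 1, ∀ y, ‖y - x‖ ≤ L * t → y ∈ closedBall x₀ η := fun t ht y hy => by
    have h6 : ‖y - x‖ ≤ L := hy.trans (mul_le_of_le_one_right hL0 ht.2)
    have h7 := norm_sub_le_norm_sub_add_norm_sub y x x₀
    exact mem_closedBall_iff_norm.2 (by linarith)
  let T : Set ℝ := {t | ∃ (x' : E) (z' : ℂ), Function.minimalPeriod (fp (F x')) z' = n ∧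
    Pd (F x') z' n = γ t ∧ ‖x' - x‖ ≤ L * t}
  let A : Set (ℝ × E × ℂ) := {p | p.1 ∈ Icc (0 : ℝ) 1 ∧ (fp (F p.2.1))^[n] p.2.2 = p.2.2 ∧
    (∀ i ∈ Ioo 0 n, Q (p.2.1, p.2.2, (fp (F p.2.1))^[i] p.2.2) = 1) ∧
    Q (p.2.1, p.2.2, p.2.2) = γ p.1 ∧ ‖p.2.1 - x‖ ≤ L * p.1}
  have hA : IsClosed A := by
    have a1 : ∀ i, Continuous fun p : ℝ × E × ℂ => (fp (F p.2.1))^[i] p.2.2 := fun i =>
      (hF.iter_cont i).comp continuous_snd
    refine (isClosed_Icc.preimage continuous_fst).and ((isClosed_eq (a1 n) (by fun_prop)).and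
      (IsClosed.and ?_ ((isClosed_eq (by fun_prop) (by fun_prop)).and
        (isClosed_le (by fun_prop) (by fun_prop)))))
    simp only [Set.ofPred_forall]
    refine isClosed_iInter fun i => isClosed_iInter fun _ => isClosed_eq ?_ continuous_const
    exact q1.comp (continuous_snd.fst.prodMk (continuous_snd.snd.prodMk (a1 i)))
  have hAc : IsCompact A := by
    refine ((isCompact_Icc (a := (0 : ℝ)) (b := 1)).prod ((isCompact_closedBall x₀ η).prod
      (isCompact_closedBall (0 : ℂ) Λ))).of_isClosed_subset hA ?_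
    rintro ⟨t, x', z'⟩ ⟨h1, h2, -, -, h5⟩
    dsimp only at h1 h2 h5
    have h6 := hball t h1 x' h5
    exact ⟨h1, h6, mem_closedBall_zero_iff.2 (per_lt (hadm x' h6).pos (hadm x' h6).esc hn h2).le⟩
  have hT : T ∩ Icc 0 1 = Prod.fst '' A := by
    ext t
    constructor
    · rintro ⟨⟨x', z', g1, h2, h3⟩, ht⟩
      obtain ⟨h4, h5⟩ := (t57_per hn).1 g1
      refine ⟨(t, x', z'), ⟨ht, h4, fun i hi => ?_, (q3 x' z').trans h2, h3⟩, rfl⟩
      have h6 := q2 x' z' ((fp (F x'))^[i] z')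
      rw [← Function.iterate_add_apply, add_comm, Function.iterate_add_apply, h4] at h6
      exact (mul_left_eq_self₀.1 h6.symm).resolve_right (sub_ne_zero.2 (h5 i hi))
    · rintro ⟨⟨t, x', z'⟩, ⟨g1, h2, h3, h4, h5⟩, rfl⟩
      dsimp only at g1 h2 h3 h4 h5 ⊢
      refine ⟨⟨x', z', (t57_per hn).2 ⟨h2, fun i hi h => ?_⟩, (q3 x' z').symm.trans h4, h5⟩, g1⟩
      have h6 := h3 i hi
      rw [h, h4] at h6
      exact h1 (h6 ▸ hmem t g1)
  have key : Icc (0 : ℝ) 1 ⊆ T := by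
    refine IsClosed.Icc_subset_of_forall_mem_nhdsWithin ?_ ⟨x, z, hper, by simp [γ, hρ], by simp⟩ ?_
    · rw [hT]
      exact (hAc.image continuous_fst).isClosed
    · rintro t ⟨⟨x', z', g1, h2, h3⟩, ht⟩
      have ht' : t ∈ Icc (0 : ℝ) 1 := ⟨ht.1, ht.2.le⟩
      have h4 := hloc x' (hball t ht' x' h3) z' g1 (h2 ▸ hmem t ht')
      rw [h2] at h4
      filter_upwards [mem_nhdsWithin_of_mem_nhds (hγ.continuousAt.eventually h4),
        self_mem_nhdsWithin] with u hu htu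
      obtain ⟨x'', z'', b1, b2, b3⟩ := hu
      refine ⟨x'', z'', b1, b2, ?_⟩
      have htu : t < u := htu
      have b4 : ‖γ u - γ t‖ = (u - t) * ‖ρ' - ρ‖ := by
        rw [show γ u - γ t = ((u - t : ℝ) : ℂ) * (ρ' - ρ) by simp only [γ]; push_cast; ring,
          norm_mul, Complex.norm_real, Real.norm_eq_abs, abs_of_pos (sub_pos.2 htu)]
      have b6 : K * ‖γ u - γ t‖ = L * (u - t) := by
        rw [b4, ← hL]
        ring
      have b7 := norm_sub_le_norm_sub_add_norm_sub x'' x' x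
      linarith
  obtain ⟨x', z', g1, h2, h3⟩ := key (right_mem_Icc.2 zero_le_one)
  exact ⟨x', z', g1, by simpa [γ] using h2, by simpa using h3⟩

end Pool.Agent.MP_28f8a1_an.G42

end
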