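import Pool.Agent.MP_28f8a1_an.G42.Base
import Pool.Agent.MP_28f8a1_an.G42.Seq
import Pool.Agent.MP_28f8a1_an.Mg.H42_Fam

-- part MP_28f8a1_an.G42.Geo
section

/-! Limits of univalent maps and of polynomials of bounded degree. -/

set_option autoImplicit false

namespace Pool.Agent.MP_28f8a1_an.G42

open MeasureTheory Metric Set Real Filter Topology Polynomial Pool.Agent.MP_28f8a1_an.H42
open scoped ENNReal

/-- Montel's theorem along an ultrafilter -/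
theorem t1712_montel (𝒰 : Ultrafilter ℕ) {f : ℕ → ℂ → ℂ} {U : Set ℂ}
    (hU : IsOpen U) (hf : ∀ᶠ k in (𝒰 : Filter ℕ), DifferentiableOn ℂ (f k) U)
    (hb : ∀ x ∈ U, ∃ r > 0, ∃ M : ℝ, ∀ᶠ k in (𝒰 : Filter ℕ), ∀ y ∈ ball x r ∩ U, ‖f k y‖ ≤ M) :
    ∃ g, DifferentiableOn ℂ g U ∧ TendstoLocallyUniformlyOn f g 𝒰 U := by
  have hlim : ∀ x, ∃ y, x ∈ U → Tendsto (fun k => f k x) 𝒰 (𝓝 y) := by
    intro x
    by_cases hx : x ∈ U
    · obtain ⟨r, hr, M, hM⟩ := hb x hx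
      have h1 : (↑(𝒰.map fun k => f k x) : Filter ℂ) ≤ 𝓟 (closedBall (0 : ℂ) M) := by
        rw [le_principal_iff, Ultrafilter.coe_map, mem_map]
        filter_upwards [hM] with k hk
        simpa using hk x ⟨mem_ball_self hr, hx⟩
      obtain ⟨y, -, hy⟩ := (isCompact_closedBall (0 : ℂ) M).ultrafilter_le_nhds _ h1
      exact ⟨y, fun _ => hy⟩
    · exact ⟨0, fun h => absurd h hx⟩
  choose g hg using hlim
  have key : TendstoLocallyUniformlyOn f g 𝒰 U := by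
    rw [Metric.tendstoLocallyUniformlyOn_iff]
    intro ε hε x hx
    obtain ⟨r, hr, M, hM⟩ := hb x hx
    obtain ⟨r', hr', hsub⟩ := Metric.isOpen_iff.1 hU x hx
    set s := min r r' with hs
    have hs0 : 0 < s := lt_min hr hr'
    have hsU : ball x s ⊆ U := (ball_subset_ball (min_le_right _ _)).trans hsub
    have hlip : ∀ᶠ k in (𝒰 : Filter ℕ), ∀ y ∈ ball x s,
        dist (f k y) (f k x) ≤ 2 * M / s * dist y x := by
      filter_upwards [hf, hM] with k h1 h2 y hy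
      refine Complex.dist_le_div_mul_dist_of_mapsTo_ball (h1.mono hsU) ?_ hy
      intro z hz
      have a1 := h2 z ⟨ball_subset_ball (min_le_left _ _) hz, hsU hz⟩
      have a2 := h2 x ⟨mem_ball_self hr, hx⟩
      rw [mem_closedBall, dist_eq_norm]
      exact (norm_sub_le _ _).trans (by linarith)
    have hglip : ∀ y ∈ ball x s, dist (g y) (g x) ≤ 2 * M / s * dist y x := by
      intro y hy
      refine le_of_tendsto ((hg y (hsU hy)).dist (hg x hx)) ?_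
      filter_upwards [hlip] with k hk using hk y hy
    have hc : ContinuousAt (fun y : ℂ => 2 * M / s * dist y x) x := by fun_prop
    have hev : ∀ᶠ y in 𝓝 x, 2 * M / s * dist y x < ε / 3 :=
      hc.eventually (gt_mem_nhds (by simpa using hε))
    refine ⟨{y | 2 * M / s * dist y x < ε / 3} ∩ ball x s,
      mem_nhdsWithin_of_mem_nhds (inter_mem hev (ball_mem_nhds _ hs0)), ?_⟩
    have h3 := (Metric.tendsto_nhds.1 (hg x hx)) (ε / 3) (by positivity)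
    filter_upwards [hlip, h3] with k h1 h2 y hy
    have b1 := h1 y hy.2
    have b2 := hglip y hy.2
    have b3 : 2 * M / s * dist y x < ε / 3 := hy.1
    have := dist_triangle4 (g y) (g x) (f k x) (f k y)
    rw [dist_comm (g x), dist_comm (f k x) (f k y)] at this
    linarith
  exact ⟨g, key.differentiableOn hf hU, key⟩

/-- Hurwitz' theorem -/
theorem t1712_hurwitz {l : Filter ℕ} [l.NeBot] {f : ℕ → ℂ → ℂ} {g : ℂ → ℂ} {U : Set ℂ}
    (hU : IsOpen U) (hc : IsPreconnected U)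
    (hf : ∀ᶠ k in l, DifferentiableOn ℂ (f k) U ∧ ∀ x ∈ U, f k x ≠ 0)
    (hg : TendstoLocallyUniformlyOn f g l U) {x₀ : ℂ} (hx₀ : x₀ ∈ U) (h0 : g x₀ ≠ 0) :
    ∀ x ∈ U, g x ≠ 0 := by
  intro x hx hgx
  have hgd : DifferentiableOn ℂ g U := hg.differentiableOn (hf.mono fun k hk => hk.1) hU
  have han : AnalyticOnNhd ℂ g U := hgd.analyticOnNhd hU
  rcases (han x hx).eventually_eq_zero_or_eventually_ne_zero with hz | hz
  · exact h0 (han.eqOn_zero_of_preconnected_of_eventuallyEq_zero hc hx hz hx₀)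
  · rw [eventually_nhdsWithin_iff] at hz
    obtain ⟨r, hr, hball⟩ := nhds_basis_closedBall.mem_iff.1 (inter_mem hz (hU.mem_nhds hx))
    have hsub : closedBall x r ⊆ U := fun y hy => (hball hy).2
    obtain ⟨w₀, hw₀, hmin⟩ := (isCompact_sphere x r).exists_isMinOn
      (NormedSpace.sphere_nonempty.2 hr.le)
      ((hgd.continuousOn.mono (sphere_subset_closedBall.trans hsub)).norm)
    have hm : 0 < ‖g w₀‖ := by
      refine norm_pos_iff.2 ((hball (sphere_subset_closedBall hw₀)).1 ?_)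
      rintro rfl
      simp only [mem_sphere, dist_self] at hw₀
      exact hr.ne hw₀
    have hu : TendstoUniformlyOn f g l (closedBall x r) :=
      (tendstoLocallyUniformlyOn_iff_tendstoUniformlyOn_of_compact
        (isCompact_closedBall x r)).1 (hg.mono hsub)
    have h2 := Metric.tendstoUniformlyOn_iff.1 hu (‖g w₀‖ / 2) (by positivity)
    obtain ⟨k, ⟨hk1, hk2⟩, hk3⟩ := (hf.and h2).exists
    have hd : DiffContOnCl ℂ (f k) (ball x r) :=
      hk1.diffContOnCl_ball hsub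
    obtain ⟨w, hw, hw0⟩ := t37_zero_of_lt hr hd (fun w hw => by
      have a1 := hk3 x (mem_closedBall_self hr.le)
      have a2 := hk3 w (sphere_subset_closedBall hw)
      have a3 : ‖g w₀‖ ≤ ‖g w‖ := hmin hw
      rw [hgx, dist_zero_left] at a1
      rw [dist_eq_norm] at a2
      have a4 := norm_sub_norm_le (g w) (f k w)
      linarith)
    exact hk2 w (hsub (ball_subset_closedBall hw)) hw0

theorem t1712_growth {L : ℝ} (hL : 0 < L) {F : ℂ → ℂ} (hF : Univ F (ball 0 L)) (h0 : F 0 = 0)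
    (h1 : deriv F 0 = 1) {ρ : ℝ} (hρ : ρ < L) {y : ℂ} (hy : ‖y‖ ≤ ρ) :
    ‖F y‖ ≤ L / (1 - ρ / L) ^ 2 := by
  have hL' : (L : ℂ) ≠ 0 := Complex.ofReal_ne_zero.mpr hL.ne'
  have hn : ‖y / L‖ = ‖y‖ / L := by
    rw [norm_div, Complex.norm_real, Real.norm_eq_abs, abs_of_pos hL]
  have h2 : ‖y‖ / L ≤ ρ / L := div_le_div_of_nonneg_right hy hL.le
  have h3 : ρ / L < 1 := (div_lt_one hL).2 hρ
  have h4 := growth (hF.scale hL) (z := y / L) (by rw [hn]; linarith)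
  rw [hF.scale_deriv hL (mem_ball_self one_pos), hn, mul_div_cancel₀ _ hL'] at h4
  simp only [zero_add, mul_zero, h0, h1, sub_zero, one_mul, Complex.norm_real, Real.norm_eq_abs,
    abs_of_pos hL] at h4
  refine h4.trans (div_le_div_of_nonneg_left hL.le (pow_pos (by linarith) 2) ?_)
  exact pow_le_pow_left₀ (by linarith) (by linarith) 2

/-- The limit of normalised univalent maps.
Hint: `growth` or `distortion` after scaling bound the maps locally; Montel and Hurwitz. -/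
theorem lim_univ (𝒰 : Ultrafilter ℕ) {L : ℝ} (hL : 0 < L) {H : ℕ → ℂ → ℂ}
    (h : ∀ᶠ n in (𝒰 : Filter ℕ), Univ (H n) (ball 0 L) ∧ H n 0 = 0 ∧ deriv (H n) 0 = 1) :
    ∃ K, Univ K (ball 0 L) ∧ K 0 = 0 ∧ TendstoLocallyUniformlyOn H K 𝒰 (ball 0 L) ∧
      TendstoLocallyUniformlyOn (fun n => deriv (H n)) (deriv K) 𝒰 (ball 0 L) := by
  have hd : ∀ᶠ n in (𝒰 : Filter ℕ), DifferentiableOn ℂ (H n) (ball 0 L) :=
    h.mono fun n hn => hn.1.diff
  have hz : (0 : ℂ) ∈ ball (0 : ℂ) L := mem_ball_self hL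
  obtain ⟨K, hK, hlim⟩ := t1712_montel 𝒰 isOpen_ball hd (fun x hx => by
    rw [mem_ball_zero_iff] at hx
    refine ⟨(L - ‖x‖) / 2, by linarith, L / (1 - (‖x‖ + L) / 2 / L) ^ 2, ?_⟩
    filter_upwards [h] with n hn y hy
    refine t1712_growth hL hn.1 hn.2.1 hn.2.2 (by linarith) ?_
    have h1 := hy.1
    rw [mem_ball, dist_eq_norm] at h1
    have h2 := norm_sub_norm_le y x
    linarith)
  have hlim' : TendstoLocallyUniformlyOn (fun n => deriv (H n)) (deriv K) 𝒰 (ball 0 L) :=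
    hlim.deriv hd isOpen_ball
  have hK0 : K 0 = 0 := tendsto_nhds_unique (hlim.tendsto_at hz)
    (tendsto_const_nhds.congr' (h.mono fun n hn => hn.2.1.symm))
  have hK1 : deriv K 0 = 1 := tendsto_nhds_unique (hlim'.tendsto_at hz)
    (tendsto_const_nhds.congr' (h.mono fun n hn => hn.2.2.symm))
  have hne : ∀ z ∈ ball (0 : ℂ) L, deriv K z ≠ 0 :=
    t1712_hurwitz isOpen_ball (convex_ball _ _).isPreconnected
      (h.mono fun n hn => ⟨hn.1.diff.deriv isOpen_ball, hn.1.ne⟩) hlim' hz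
      (by rw [hK1]; exact one_ne_zero)
  refine ⟨K, ⟨hK, fun u hu v hv huv => ?_, hne⟩, hK0, hlim, hlim'⟩
  by_contra hn
  have := Measure.nullSingletonClass_hausdorff ℂ one_pos
  have hc := preconn_diff isOpen_ball (convex_ball (0 : ℂ) L).isPreconnected
    (isClosed_singleton (x := v)) (measure_singleton _)
  have hv' := isOpen_ball.mem_nhds hv
  obtain ⟨x₀, hx₀, hx₁, hx₂⟩ := (((hK.hasDerivAt hv').eventually_ne (c := K v) (hne v hv)).and
    ((eventually_mem_nhdsWithin (a := v) (s := {v}ᶜ)).and (mem_nhdsWithin_of_mem_nhds hv'))).exists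
  have hl2 : TendstoLocallyUniformlyOn (fun n z => H n z - H n v) (fun z => K z - K v) 𝒰
      (ball 0 L \ {v}) :=
    (hlim.mono sdiff_subset).sub
      ((hlim.tendsto_at hv).tendstoUniformlyOn_const _).tendstoLocallyUniformlyOn
  refine t1712_hurwitz (isOpen_ball.sdiff isClosed_singleton) hc (h.mono fun n hn => ⟨?_, ?_⟩) hl2
    (x₀ := x₀) ⟨hx₂, hx₁⟩ (sub_ne_zero.2 hx₀) u ⟨hu, hn⟩ (sub_eq_zero.2 huv)
  · exact (hn.1.diff.mono sdiff_subset).sub_const _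
  · exact fun x hx h1 => hx.2 (hn.1.inj hx.1 hv (sub_eq_zero.1 h1))

/-- The limit of polynomials of bounded degree which are bounded on a disc.
Hint: Lagrange interpolation at `d + 1` points of the disc, or Cauchy estimates for the
coefficients; the coefficients converge along the ultrafilter. -/
theorem lim_poly (𝒰 : Ultrafilter ℕ) {d : ℕ} {a : ℝ} (ha : 0 < a) {P : ℕ → ℂ[X]}
    (h : ∀ᶠ n in (𝒰 : Filter ℕ), (P n).natDegree ≤ d ∧ ∀ τ ∈ ball (0 : ℂ) a, ‖fp (P n) τ‖ ≤ 1) :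
    ∃ Q : ℂ[X], TendstoLocallyUniformly (fun n => fp (P n)) (fp Q) 𝒰 ∧
      TendstoLocallyUniformly (fun n => lam (P n)) (lam Q) 𝒰 := by
  classical
  set v : Fin (d + 1) → ℂ := fun i => ((a * (i : ℕ) / (d + 1) : ℝ) : ℂ) with hv
  have hd : (0 : ℝ) < d + 1 := by positivity
  have hinj : InjOn v (Finset.univ : Finset (Fin (d + 1))) := by
    intro i _ j _ hij
    have h1 : a * (i : ℕ) / (d + 1) = a * (j : ℕ) / (d + 1) := Complex.ofReal_injective hij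
    rw [div_left_inj' hd.ne', mul_right_inj' ha.ne', Nat.cast_inj] at h1
    exact Fin.ext h1
  have hmem : ∀ i, v i ∈ ball (0 : ℂ) a := by
    intro i
    have h1 : ((i : ℕ) : ℝ) < d + 1 := by exact_mod_cast i.2
    rw [mem_ball_zero_iff, hv, Complex.norm_real, Real.norm_eq_abs, abs_of_nonneg (by positivity),
      div_lt_iff₀ hd]
    exact mul_lt_mul_of_pos_left h1 ha
  have h1 : (↑(𝒰.map fun n i => fp (P n) (v i)) : Filter (Fin (d + 1) → ℂ)) ≤
      𝓟 (closedBall 0 1) := by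
    rw [le_principal_iff, Ultrafilter.coe_map, mem_map]
    filter_upwards [h] with n hn
    rw [mem_preimage, mem_closedBall_zero_iff, pi_norm_le_iff_of_nonneg zero_le_one]
    exact fun i => hn.2 _ (hmem i)
  obtain ⟨c, -, hc⟩ := (isCompact_closedBall (0 : Fin (d + 1) → ℂ) 1).ultrafilter_le_nhds _ h1
  have hc' : Tendsto (fun n i => fp (P n) (v i)) 𝒰 (𝓝 c) := hc
  have hev : ∀ (r : Fin (d + 1) → ℂ) (z : ℂ), fp (Lagrange.interpolate Finset.univ v r) z =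
      ∑ i, r i * fp (Lagrange.basis Finset.univ v i) z := by
    intro r z
    simp only [fp, Lagrange.interpolate_apply, eval_finsetSum, eval_mul, eval_C]
  let Φ : C((Fin (d + 1) → ℂ) × ℂ, ℂ) :=
    ⟨fun p => ∑ i, p.1 i * fp (Lagrange.basis Finset.univ v i) p.2,
      continuous_finsetSum _ fun i _ => ((continuous_apply i).comp continuous_fst).mul
        (fp_diff.continuous.comp continuous_snd)⟩
  have h2 := ContinuousMap.tendsto_iff_tendstoLocallyUniformly.1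
    ((Φ.curry.continuous.tendsto c).comp hc')
  have h3 : TendstoLocallyUniformly (fun n => fp (P n))
      (fp (Lagrange.interpolate Finset.univ v c)) 𝒰 := by
    intro u hu x
    obtain ⟨t, ht, h4⟩ := h2 u hu x
    refine ⟨t, ht, ?_⟩
    filter_upwards [h, h4] with n hn h5 y hy
    have h6 : (P n).degree < (Finset.univ : Finset (Fin (d + 1))).card := by
      rw [Finset.card_univ, Fintype.card_fin]
      exact degree_le_natDegree.trans_lt (by exact_mod_cast Nat.lt_succ_of_le hn.1)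
    rw [Lagrange.eq_interpolate hinj h6, hev, hev]
    exact h5 y hy
  refine ⟨_, h3, ?_⟩
  have h7 := (tendstoLocallyUniformlyOn_univ.2 h3).deriv
    (Eventually.of_forall fun n => fp_diff.differentiableOn) isOpen_univ
  have h8 : ∀ T : ℂ[X], deriv (fp T) = lam T := fun T => funext fun z => (fp_deriv z).deriv
  rw [tendstoLocallyUniformlyOn_univ, h8] at h7
  exact h7.congr fun n z => congrFun (h8 _) z

/-- A thin set misses a point of every non-empty open set. -/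
theorem t1713_out {E U : Set ℂ} (h : μH[1] E = 0) (hU : IsOpen U) {z : ℂ} (hz : z ∈ U) :
    ∃ v ∈ U, v ∉ E := by
  obtain ⟨r, hr, hr'⟩ := Metric.isOpen_iff.1 hU z hz
  obtain ⟨s, hs, hs'⟩ := t42_avoid h Complex.reCLM.lipschitz (a := z.re) (b := z.re + r)
    (by linarith)
  refine ⟨z + ((s - z.re : ℝ) : ℂ), hr' ?_, fun q => hs' _ q (by simp)⟩
  rw [mem_ball_iff_norm, add_sub_cancel_left, Complex.norm_real, Real.norm_eq_abs, abs_lt]
  constructor <;> linarith [hs.1, hs.2]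

/-- A small circle on which the polynomial stays away from its value at the centre. -/
theorem t1713_rad {Q : ℂ[X]} (hQ : 0 < Q.natDegree) (c : ℂ) {ε : ℝ} (hε : 0 < ε) :
    ∃ r ∈ Ioo 0 ε, ∃ m > 0, ∀ w ∈ sphere c r, m ≤ ‖fp Q w - fp Q c‖ := by
  obtain ⟨r, hr, hr'⟩ := (Ioo_infinite hε).exists_notMem_finset
    ((pre Q (fp Q c)).image fun w => dist w c)
  obtain ⟨w₀, hw₀, hmin⟩ := (isCompact_sphere c r).exists_isMinOn
    (NormedSpace.sphere_nonempty.2 hr.1.le) (f := fun w => ‖fp Q w - fp Q c‖)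
    (fp_diff.continuous.sub continuous_const).norm.continuousOn
  refine ⟨r, hr, _, norm_pos_iff.2 fun h => hr' ?_, fun w hw => hmin hw⟩
  exact Finset.mem_image.2 ⟨w₀, (mem_pre hQ).2 (sub_eq_zero.1 h), hw₀⟩

/-- Near a critical point a polynomial is not injective, even off a thin set of values.
Hint: take `τ` near `c` with `fp Q τ ∉ K` and `lam Q τ ≠ 0` (open mapping; `K` has no interior);
the divided difference `dslope (fp Q) τ` is close to `dslope (fp Q) c`, which vanishes at `c`, so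
by `t37_zero_of_lt` it has a zero `τ'` near `c`; the critical values are finitely many. -/
theorem two_pre {Q : ℂ[X]} (hQ : 0 < Q.natDegree) {c : ℂ} (hc : lam Q c = 0) {K : Set ℂ}
    (hK : μH[1] K = 0) {ε : ℝ} (hε : 0 < ε) : ∃ τ ∈ ball c ε, ∃ τ' ∈ ball c ε, τ ≠ τ' ∧
      fp Q τ = fp Q τ' ∧ fp Q τ ∉ K ∧ lam Q τ ≠ 0 ∧ lam Q τ' ≠ 0 := by
  obtain ⟨r, hr, m, hm, h1⟩ := t1713_rad hQ c hε
  have hr0 := hr.1
  have h2 := hasDerivAt_iff_tendsto_slope.1 (fp_deriv (T := Q) c)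
  rw [hc] at h2
  obtain ⟨δ, hδ, h3⟩ := Metric.eventually_nhds_iff.1 (eventually_nhdsWithin_iff.1
    (h2.eventually (ball_mem_nhds 0 (show 0 < m / (4 * r) by positivity))))
  have := Measure.nullSingletonClass_hausdorff ℂ one_pos
  have h4 : μH[1] (K ∪ fp Q '' {w | lam Q w = 0}) = 0 :=
    measure_union_null hK (((crit_finite hQ).image _).measure_zero _)
  have h5 : IsOpen (fp Q '' ball c (min δ r) ∩ ball (fp Q c) (m / 2)) :=
    ((Q.isOpenQuotientMap_eval hQ.ne').isOpenMap _ isOpen_ball).inter isOpen_ball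
  obtain ⟨_, ⟨⟨τ, hτ, rfl⟩, h6⟩, h7⟩ := t1713_out h4 h5
    ⟨⟨c, mem_ball_self (lt_min hδ hr0), rfl⟩, mem_ball_self (half_pos hm)⟩
  rw [mem_ball, lt_min_iff] at hτ
  have h8 : ∀ w, fp Q τ = fp Q w → lam Q w ≠ 0 := fun w e h0 => h7 (Or.inr ⟨w, h0, e.symm⟩)
  have h9 : τ ≠ c := fun e => h8 c (by rw [e]) hc
  have h10 : Differentiable ℂ (dslope (fp Q) τ) := differentiableOn_univ.1
    ((Complex.differentiableOn_dslope univ_mem).2 fp_diff.differentiableOn)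
  obtain ⟨τ', hτ', h11⟩ := t37_zero_of_lt (c := c) hr0 h10.diffContOnCl fun w hw => by
    have a1 := h3 hτ.1 h9
    have a2 : w ≠ τ := fun e => hτ.2.ne (e ▸ hw)
    have a3 : ‖w - τ‖ ≤ 2 * r := by
      have := dist_triangle_right w τ c
      rw [mem_sphere.1 hw, dist_eq_norm] at this
      linarith [hτ.2]
    have a4 : m / 2 ≤ ‖fp Q w - fp Q τ‖ := by
      have := norm_sub_le_norm_sub_add_norm_sub (fp Q w) (fp Q τ) (fp Q c)
      rw [mem_ball, dist_eq_norm] at h6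
      linarith [h1 w hw]
    rw [dist_zero_right, slope_comm] at a1
    rw [dslope_of_ne _ h9.symm, dslope_of_ne _ a2, slope_def_field _ τ w, norm_div]
    refine a1.trans_le ?_
    rw [div_le_div_iff₀ (by positivity) (norm_pos_iff.2 (sub_ne_zero.2 a2))]
    nlinarith
  have h12 : τ' ≠ τ := fun e => by
    rw [e, dslope_same, (fp_deriv τ).deriv] at h11
    exact h8 τ rfl h11
  rw [dslope_of_ne _ h12, slope_def_field, div_eq_zero_iff, sub_eq_zero, sub_eq_zero] at h11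
  have h13 := (h11.resolve_right h12).symm
  exact ⟨τ, hτ.2.trans hr.2, τ', ball_subset_ball hr.2.le hτ', h12.symm, h13,
    fun q => h7 (Or.inl q), h8 τ rfl, h8 τ' h13⟩

/-- The preimage of a thin set is thin (compare the proof of `preconn_branch`). -/
theorem null_pre {Q : ℂ[X]} (hQ : 0 < Q.natDegree) {K : Set ℂ} (hK : μH[1] K = 0) :
    μH[1] (fp Q ⁻¹' K) = 0 := by
  have hn : μH[1] (fp Q ⁻¹' K \ {w | lam Q w = 0}) = 0 := by
    refine measure_null_of_locally_null _ fun τ hτ => ?_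
    have hd := fp_strict (T := Q) τ
    have hd0 : lam Q τ ≠ 0 := hτ.2
    obtain ⟨C, s, hs, hC⟩ := (hd.to_localInverse hd0).hasStrictFDerivAt.exists_lipschitzOnWith
    have h1 := (hC.mono (inter_subset_left (t := K))).hausdorffMeasure_image_le zero_le_one
    rw [measure_mono_null inter_subset_right hK, mul_zero] at h1
    refine ⟨_, ?_, le_antisymm h1 zero_le⟩
    filter_upwards [self_mem_nhdsWithin, mem_nhdsWithin_of_mem_nhds (hd.eventually_left_inverse hd0),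
      mem_nhdsWithin_of_mem_nhds (fp_diff.continuous.continuousAt.preimage_mem_nhds hs)]
      with w w1 w2 w3
    exact ⟨_, ⟨w3, w1.1⟩, w2⟩
  have := Measure.nullSingletonClass_hausdorff ℂ one_pos
  exact measure_mono_null (subset_sdiff_union _ _)
    (measure_union_null hn ((crit_finite hQ).measure_zero _))

/-- Locally uniform convergence near a point of continuity of the limit. -/
theorem t1713_near {l : Filter ℕ} {F : ℕ → ℂ → ℂ} {f : ℂ → ℂ} {S : Set ℂ} {x : ℂ} (hS : S ∈ 𝓝 x)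
    (h : TendstoLocallyUniformlyOn F f l S) (hf : ContinuousAt f x) (η : ℝ) (hη : η > 0) :
    ∃ r > 0, ∀ᶠ n in l, ∀ y ∈ ball x r, ‖F n y - f x‖ < η := by
  obtain ⟨t, ht, h1⟩ := Metric.tendstoLocallyUniformlyOn_iff.1 h _ (half_pos hη) x
    (mem_of_mem_nhds hS)
  rw [nhdsWithin_eq_nhds.2 hS] at ht
  obtain ⟨r, hr, h2⟩ := Metric.mem_nhds_iff.1 (inter_mem ht (hf (ball_mem_nhds _ (half_pos hη))))
  refine ⟨r, hr, h1.mono fun n hn y hy => ?_⟩
  have a1 := hn y (h2 hy).1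
  have a2 : dist (f y) (f x) < η / 2 := (h2 hy).2
  have a3 := dist_triangle_left (F n y) (f x) (f y)
  rw [← dist_eq_norm]
  linarith

/-- The values of `G n` near `z` are taken by `F n` near `x`. -/
theorem t1713_cover {l : Filter ℕ} {F G : ℕ → ℂ → ℂ} {x z v : ℂ} {ρ κ : ℝ} (hρ : 0 < ρ)
    (hκ : 0 < κ) (hU : ∀ᶠ n in l, Univ (F n) (ball x ρ) ∧ κ ≤ ‖deriv (F n) x‖)
    (hF : ∀ η > 0, ∃ r > 0, ∀ᶠ n in l, ∀ y ∈ ball x r, ‖F n y - v‖ < η)
    (hG : ∀ η > 0, ∃ r > 0, ∀ᶠ n in l, ∀ y ∈ ball z r, ‖G n y - v‖ < η) :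
    ∃ ε > 0, ∀ᶠ n in l, ∀ τ ∈ ball z ε, ∃ y ∈ ball x ρ, F n y = G n τ := by
  obtain ⟨r, hr, h1⟩ := hF (κ * ρ / 8) (by positivity)
  obtain ⟨ε, hε, h2⟩ := hG (κ * ρ / 8) (by positivity)
  refine ⟨ε, hε, ?_⟩
  filter_upwards [hU, h1, h2] with n a1 a2 a3 τ hτ
  refine koebe hρ a1.1 ?_
  have a4 := norm_sub_le_norm_sub_add_norm_sub (G n τ) v (F n x)
  rw [norm_sub_rev v] at a4
  rw [mem_ball, dist_eq_norm]
  nlinarith [a2 x (mem_ball_self hr), a3 τ hτ, mul_le_mul_of_nonneg_right a1.2 hρ.le]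

/-- A polynomial whose derivative is close to a non-zero constant is univalent. -/
theorem t1713_univ {T : ℂ[X]} {x a : ℂ} {r : ℝ}
    (h : ∀ τ ∈ ball x r, ‖lam T τ - a‖ < ‖a‖ / 2) : Univ (fp T) (ball x r) := by
  refine ⟨fp_diff.differentiableOn, fun u hu v hv e => ?_, fun τ hτ e => ?_⟩
  · have h1 := (convex_ball x r).norm_image_sub_le_of_norm_hasDerivWithin_le
      (f := fun τ => fp T τ - a * τ) (f' := fun τ => lam T τ - a) (C := ‖a‖ / 2)
      (fun τ _ => ((fp_deriv τ).sub (hasDerivAt_const_mul a)).hasDerivWithinAt)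
      (fun τ hτ => (h τ hτ).le) hu hv
    have h2 : fp T v - a * v - (fp T u - a * u) = -(a * (v - u)) := by
      rw [e]
      ring
    rw [h2, norm_neg, norm_mul] at h1
    have h3 := (norm_nonneg _).trans_lt (h u hu)
    have h4 : ‖v - u‖ ≤ 0 := by nlinarith
    exact (sub_eq_zero.1 (norm_le_zero_iff.1 h4)).symm
  · have h1 := h τ hτ
    rw [← (fp_deriv τ).deriv, e, zero_sub, norm_neg] at h1
    linarith [norm_nonneg a]

/-- Local behaviour of the approximating maps at a regular point of the limit.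
Hint: `fp Q` is injective near `τ₀` with derivative close to `lam Q τ₀`, so `fp (P n)` is
injective on a fixed ball (e.g. the real part of `lam (P n) τ / lam Q τ₀` is at least `1 / 2`);
`koebe` gives the discs covered by `H n` and `fp (P n)`. -/
theorem loc_pair {l : Filter ℕ} {L : ℝ} {H : ℕ → ℂ → ℂ} {K : ℂ → ℂ} {P : ℕ → ℂ[X]} {Q : ℂ[X]}
    (hH : ∀ᶠ n in l, Univ (H n) (ball 0 L)) (hK : Univ K (ball 0 L))
    (h1 : TendstoLocallyUniformlyOn H K l (ball 0 L))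
    (h2 : TendstoLocallyUniformlyOn (fun n => deriv (H n)) (deriv K) l (ball 0 L))
    (h3 : TendstoLocallyUniformly (fun n => fp (P n)) (fp Q) l)
    (h4 : TendstoLocallyUniformly (fun n => lam (P n)) (lam Q) l) {τ₀ y₀ : ℂ}
    (hy : ‖y₀‖ < L) (hτ : lam Q τ₀ ≠ 0) (he : fp Q τ₀ = K y₀) :
    (∀ ε₁ > 0, ∃ ε > 0, ∃ c > 0, ∀ᶠ n in l, InjOn (fp (P n)) (ball τ₀ ε) ∧ ∀ τ ∈ ball τ₀ ε,
      ∃ y ∈ ball y₀ ε₁, H n y = fp (P n) τ ∧ c * ‖deriv (H n) y‖ ≤ ‖lam (P n) τ‖) ∧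
    ∀ ε > 0, ∃ ε' > 0, ∀ᶠ n in l, ∀ y ∈ ball y₀ ε', ∃ τ ∈ ball τ₀ ε, fp (P n) τ = H n y := by
  have hn : ball (0 : ℂ) L ∈ 𝓝 y₀ := isOpen_ball.mem_nhds (mem_ball_zero_iff.2 hy)
  have hκ := norm_pos_iff.2 (hK.ne y₀ (mem_of_mem_nhds hn))
  have hl := norm_pos_iff.2 hτ
  have b1 := t1713_near hn h1 (hK.diff.continuousOn.continuousAt hn)
  have b3 := t1713_near univ_mem (tendstoLocallyUniformlyOn_univ.2 h3)
    (fp_diff.continuous.continuousAt (x := τ₀))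
  rw [he] at b3
  obtain ⟨r₂, hr₂, b2⟩ := t1713_near hn h2
    ((hK.diff.deriv isOpen_ball).continuousOn.continuousAt hn) _ (half_pos hκ)
  obtain ⟨r₄, hr₄, b4⟩ := t1713_near univ_mem (tendstoLocallyUniformlyOn_univ.2 h4)
    (lam_diff.continuous.continuousAt (x := τ₀)) _ (half_pos hl)
  obtain ⟨r, hr, b5⟩ := Metric.mem_nhds_iff.1 hn
  have low : ∀ u a : ℂ, ‖u - a‖ < ‖a‖ / 2 → ‖a‖ / 2 ≤ ‖u‖ := fun u a h => by
    linarith [norm_sub_norm_le a u, norm_sub_rev a u]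
  refine ⟨fun ε₁ hε₁ => ?_, fun ε hε => ?_⟩
  · obtain ⟨ε, hε, b6⟩ := t1713_cover (lt_min hε₁ (lt_min hr hr₂)) (half_pos hκ)
      ((hH.and b2).mono fun n a => ⟨a.1.mono ((ball_subset_ball
        ((min_le_right _ _).trans (min_le_left _ _))).trans b5),
        low _ _ (a.2 y₀ (mem_ball_self hr₂))⟩) b1 b3
    refine ⟨min ε r₄, lt_min hε hr₄, ‖lam Q τ₀‖ / (3 * ‖deriv K y₀‖), by positivity, ?_⟩
    filter_upwards [b2, b4, b6] with n a2 a4 a6
    refine ⟨(t1713_univ a4).inj.mono (ball_subset_ball (min_le_right _ _)), fun τ hτ => ?_⟩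
    obtain ⟨y, hy, e⟩ := a6 τ (ball_subset_ball (min_le_left _ _) hτ)
    refine ⟨y, ball_subset_ball (min_le_left _ _) hy, e, ?_⟩
    have a7 := a2 y (ball_subset_ball ((min_le_right _ _).trans (min_le_right _ _)) hy)
    have a8 := low _ _ (a4 τ (ball_subset_ball (min_le_right _ _) hτ))
    have a9 := norm_sub_norm_le (deriv (H n) y) (deriv K y₀)
    rw [div_mul_eq_mul_div, div_le_iff₀ (by positivity)]
    nlinarith
  · obtain ⟨ε', hε', b6⟩ := t1713_cover (lt_min hε hr₄) (half_pos hl)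
      (b4.mono fun n a => ⟨(t1713_univ a).mono (ball_subset_ball (min_le_right _ _)), by
        rw [(fp_deriv τ₀).deriv]
        exact low _ _ (a τ₀ (mem_ball_self hr₄))⟩) b3 b1
    refine ⟨ε', hε', b6.mono fun n a y hy => ?_⟩
    obtain ⟨τ, hτ, e⟩ := a y hy
    exact ⟨τ, ball_subset_ball (min_le_left _ _) hτ, e⟩

theorem t1714_open {K : ℂ → ℂ} {S : Set ℂ} (hK : Univ K S) (hS : IsOpen S) :
    IsOpen (K '' S) := by
  rw [isOpen_iff_mem_nhds]
  rintro _ ⟨u, hu, rfl⟩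
  have h1 : HasStrictDerivAt K (deriv K u) u :=
    (hK.diff.analyticAt (hS.mem_nhds hu)).hasStrictDerivAt
  rw [← h1.map_nhds_eq (hK.ne u hu)]
  exact image_mem_map (hS.mem_nhds hu)

theorem t1714_null {K : ℂ → ℂ} {S A : Set ℂ} (hK : DifferentiableOn ℂ K S) (hS : IsOpen S)
    (hA : IsCompact A) (hAS : A ⊆ S) (h0 : μH[1] A = 0) : μH[1] (K '' A) = 0 := by
  refine hA.induction_on (p := fun B => μH[1] (K '' B) = 0) (by simp)
    (fun _ _ hst ht => measure_mono_null (image_mono hst) ht)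
    (fun _ _ hs ht => by rw [image_union]; exact measure_union_null hs ht) fun u hu => ?_
  have h1 : HasStrictDerivAt K (deriv K u) u :=
    (hK.analyticAt (hS.mem_nhds (hAS hu))).hasStrictDerivAt
  obtain ⟨C, s, hs, hC⟩ := h1.hasStrictFDerivAt.exists_lipschitzOnWith
  have h2 := (hC.mono (inter_subset_right (s := A))).hausdorffMeasure_image_le zero_le_one
  rw [measure_mono_null inter_subset_left h0, mul_zero] at h2
  exact ⟨_, inter_mem_nhdsWithin A hs, le_antisymm h2 zero_le⟩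

theorem t1714_big {Q : ℂ[X]} (hQ : 0 < Q.natDegree) (M : ℝ) :
    ∃ R > 0, ∀ τ : ℂ, ‖τ‖ = R → M < ‖fp Q τ‖ := by
  have h1 := (Q.tendsto_norm_atTop (natDegree_pos_iff_degree_pos.1 hQ)
    (tendsto_comap (f := fun z : ℂ => ‖z‖) (x := atTop))).eventually (eventually_gt_atTop M)
  obtain ⟨R, hR⟩ := eventually_atTop.1 (eventually_comap.1 h1)
  exact ⟨max R 1, lt_max_of_lt_right one_pos, fun τ hτ => hR _ (le_max_left _ _) τ hτ⟩

/-- The limit of the critical points lies in the component of the origin. -/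
theorem t1714_crit (𝒰 : Ultrafilter ℕ) {L L' : ℝ} (hL : L' < L) {H g : ℕ → ℂ → ℂ} {K : ℂ → ℂ}
    {P : ℕ → ℂ[X]} {Q : ℂ[X]} {s : ℕ → ℝ} {c : ℕ → ℂ} {V : Set ℂ} (hQ : 0 < Q.natDegree)
    (hK : ContinuousOn K (ball 0 L)) (hV : IsOpen V) (hKV : K '' closedBall 0 L' ⊆ V)
    (h1 : TendstoLocallyUniformlyOn H K 𝒰 (ball 0 L))
    (h3 : TendstoLocallyUniformly (fun n => fp (P n)) (fp Q) 𝒰)
    (h4 : TendstoLocallyUniformly (fun n => lam (P n)) (lam Q) 𝒰)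
    (h : ∀ᶠ n in (𝒰 : Filter ℕ), 0 < s n ∧ s n ≤ L' ∧
      ContinuousOn (g n) (ball 0 (s n)) ∧ g n 0 = 0 ∧
      (∀ y ∈ ball (0 : ℂ) (s n), fp (P n) (g n y) = H n y) ∧
      c n ∈ closure (g n '' ball 0 (s n)) ∧ lam (P n) (c n) = 0) :
    ∃ c₀, lam Q c₀ = 0 ∧ ∃ ε > 0, ball c₀ ε ⊆ connectedComponentIn (fp Q ⁻¹' V) 0 := by
  have hsub : closedBall (0 : ℂ) L' ⊆ ball 0 L := closedBall_subset_ball hL
  have hC : IsCompact (K '' closedBall 0 L') :=
    (isCompact_closedBall _ _).image_of_continuousOn (hK.mono hsub)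
  obtain ⟨M, hM⟩ := hC.isBounded.exists_norm_le
  obtain ⟨R, hR, hbig⟩ := t1714_big hQ (M + 2)
  obtain ⟨δ, hδ, hδV⟩ := hC.exists_cthickening_subset_open hV hKV
  have hη : 0 < min 1 (δ / 2) := lt_min one_pos (half_pos hδ)
  have u1 := Metric.tendstoUniformlyOn_iff.1
    ((tendstoLocallyUniformlyOn_iff_forall_isCompact isOpen_ball).1 h1 _ hsub
      (isCompact_closedBall _ _)) _ hη
  have u3 := Metric.tendstoUniformlyOn_iff.1
    (tendstoLocallyUniformly_iff_forall_isCompact.1 h3 _ (isCompact_closedBall (0 : ℂ) R)) _ hη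
  have hfc : Continuous (fp Q) := fp_diff.continuous
  have key : ∀ᶠ n in (𝒰 : Filter ℕ), c n ∈ closure (g n '' ball 0 (s n)) ∧
      g n '' ball 0 (s n) ⊆ connectedComponentIn (fp Q ⁻¹' V) 0 ∧ c n ∈ closedBall (0 : ℂ) R ∧
      fp Q (c n) ∈ cthickening δ (K '' closedBall 0 L') := by
    filter_upwards [h, u1, u3] with n ⟨hs, hs', hg, hg0, hP, hc, _⟩ v1 v3
    have hin : ∀ y ∈ ball (0 : ℂ) (s n), y ∈ closedBall (0 : ℂ) L' := fun y hy =>
      ball_subset_closedBall (ball_subset_ball hs' hy)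
    have hd : ∀ y ∈ ball (0 : ℂ) (s n), g n y ∈ closedBall (0 : ℂ) R →
        dist (fp Q (g n y)) (K y) ≤ min 1 (δ / 2) + min 1 (δ / 2) := fun y hy hR' => by
      have a1 := v3 _ hR'
      have a2 := v1 _ (hin y hy)
      rw [hP y hy] at a1
      rw [dist_comm] at a2
      linarith [dist_triangle (fp Q (g n y)) (H n y) (K y)]
    have hR' : ∀ y ∈ ball (0 : ℂ) (s n), g n y ∈ closedBall (0 : ℂ) R := fun y hy => by
      by_contra hn
      rw [mem_closedBall_zero_iff, not_le] at hn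
      obtain ⟨z, hz, hzR⟩ := (convex_ball (0 : ℂ) (s n)).isPreconnected.intermediate_value
        (mem_ball_self hs) hy hg.norm (show R ∈ Icc ‖g n 0‖ ‖g n y‖ from
          ⟨by rw [hg0, norm_zero]; exact hR.le, hn.le⟩)
      have a1 := hd z hz (mem_closedBall_zero_iff.2 hzR.le)
      have a2 := hbig _ hzR
      have a3 := hM _ ⟨z, hin z hz, rfl⟩
      have a4 := norm_le_norm_add_norm_sub' (fp Q (g n z)) (K z)
      rw [dist_eq_norm] at a1
      linarith [min_le_left 1 (δ / 2)]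
    have hth : g n '' ball 0 (s n) ⊆ fp Q ⁻¹' cthickening δ (K '' closedBall 0 L') := by
      rintro _ ⟨y, hy, rfl⟩
      exact mem_cthickening_of_dist_le _ (K y) _ _ ⟨y, hin y hy, rfl⟩
        (by linarith [hd y hy (hR' y hy), min_le_right 1 (δ / 2)])
    refine ⟨hc, ?_, ?_, ?_⟩
    · exact ((convex_ball (0 : ℂ) (s n)).isPreconnected.image _ hg).subset_connectedComponentIn
        ⟨0, mem_ball_self hs, hg0⟩ (hth.trans (preimage_mono hδV))
    · exact closure_minimal (by rintro _ ⟨y, hy, rfl⟩; exact hR' y hy) isClosed_closedBall hc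
    · exact closure_minimal hth (isClosed_cthickening.preimage hfc) hc
  obtain ⟨c₀, -, hc₀⟩ := (isCompact_closedBall (0 : ℂ) R).ultrafilter_le_nhds (𝒰.map c)
    (le_principal_iff.2 (key.mono fun n hn => hn.2.2.1))
  have hc₀ : Tendsto c 𝒰 (𝓝 c₀) := hc₀
  refine ⟨c₀, ?_, ?_⟩
  · refine tendsto_nhds_unique (h4.tendsto_comp lam_diff.continuous.continuousAt hc₀) ?_
    exact tendsto_const_nhds.congr' (h.mono fun n hn => hn.2.2.2.2.2.2.symm)
  have hU : c₀ ∈ fp Q ⁻¹' V := hδV (isClosed_cthickening.mem_of_tendsto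
    (hfc.continuousAt.tendsto.comp hc₀) (key.mono fun n hn => hn.2.2.2))
  obtain ⟨ε, hε, hb⟩ := Metric.isOpen_iff.1 (hV.preimage hfc) c₀ hU
  refine ⟨ε, hε, ?_⟩
  obtain ⟨n, hn, hcn⟩ := (key.and (hc₀.eventually (ball_mem_nhds c₀ hε))).exists
  obtain ⟨p, hp, hp'⟩ := mem_closure_iff.1 hn.1 _ isOpen_ball hcn
  rw [connectedComponentIn_eq (hn.2.1 hp')]
  exact (convex_ball c₀ ε).isPreconnected.subset_connectedComponentIn hp hb

/-- A lift that meets a critical point produces two sheets over one connected domain.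
Hint: `K`, `Q` from `lim_univ`, `lim_poly` (`lam Q 0 = 1`, so `Q` is not constant). Take
`L' < L'' < L`, let `Ω` be the component of `0` in the open set `fp Q ⁻¹' (K '' ball 0 L'')`, and
`G = Ω \ (fp Q ⁻¹' (K '' (E ∩ closedBall 0 L'')) ∪ {τ | lam Q τ = 0})` (`preconn_diff`,
`null_pre`), `pr = K⁻¹ ∘ fp Q`. On a large circle `‖fp Q‖` exceeds the bound of `K` on
`closedBall 0 L'` by more than `2`, so the connected sets `g n '' ball 0 (s n)` stay inside that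
circle; then `fp Q (g n y)` is close to `K y`, so these sets lie in `Ω`; the limit `c` of `c n` is
critical for `Q`, `fp Q c ∈ K '' closedBall 0 L'` (closed), and a small ball around `c` meets
`g n '' ball 0 (s n)`, so it lies in `Ω`. Finish with `two_pre` and `loc_pair`. -/
theorem geo (𝒰 : Ultrafilter ℕ) {d : ℕ} {L L' a : ℝ} (ha : 0 < a) (hL : L' < L)
    {H g : ℕ → ℂ → ℂ} {P : ℕ → ℂ[X]} {s : ℕ → ℝ} {c : ℕ → ℂ} {E : Set ℂ} (hE : IsClosed E)
    (hE0 : μH[1] E = 0) (h0 : (0 : ℂ) ∉ E)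
    (h : ∀ᶠ n in (𝒰 : Filter ℕ), (Univ (H n) (ball 0 L) ∧ H n 0 = 0 ∧ deriv (H n) 0 = 1) ∧
      ((P n).natDegree ≤ d ∧ ∀ τ ∈ ball (0 : ℂ) a, ‖fp (P n) τ‖ ≤ 1) ∧
      fp (P n) 0 = 0 ∧ lam (P n) 0 = 1 ∧ 0 < s n ∧ s n ≤ L' ∧
      ContinuousOn (g n) (ball 0 (s n)) ∧ g n 0 = 0 ∧
      (∀ y ∈ ball (0 : ℂ) (s n), fp (P n) (g n y) = H n y) ∧
      c n ∈ closure (g n '' ball 0 (s n)) ∧ lam (P n) (c n) = 0) :
    ∃ (G : Set ℂ) (pr : ℂ → ℂ), IsPreconnected G ∧ (0 : ℂ) ∈ G ∧ pr 0 = 0 ∧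
      (∃ τ ∈ G, ∃ τ' ∈ G, τ ≠ τ' ∧ pr τ = pr τ') ∧ ∀ τ₀ ∈ G, pr τ₀ ∉ E ∧ ‖pr τ₀‖ < L ∧
      (∀ ε₁ > 0, ∃ ε > 0, ∃ c > 0, ∀ᶠ n in (𝒰 : Filter ℕ), InjOn (fp (P n)) (ball τ₀ ε) ∧
        ∀ τ ∈ ball τ₀ ε, ∃ y ∈ ball (pr τ₀) ε₁, H n y = fp (P n) τ ∧
          c * ‖deriv (H n) y‖ ≤ ‖lam (P n) τ‖) ∧
      ∀ ε > 0, ∃ ε' > 0, ∀ᶠ n in (𝒰 : Filter ℕ), ∀ y ∈ ball (pr τ₀) ε',
        ∃ τ ∈ ball τ₀ ε, fp (P n) τ = H n y := by
  obtain ⟨n₀, hn₀⟩ := h.exists
  have hL' : 0 < L' := hn₀.2.2.2.2.1.trans_le hn₀.2.2.2.2.2.1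
  obtain ⟨K, hK, hK0, h1, h2⟩ := lim_univ 𝒰 (hL'.trans hL) (h.mono fun n hn => hn.1)
  obtain ⟨Q, h3, h4⟩ := lim_poly 𝒰 ha (h.mono fun n hn => hn.2.1)
  have hQ0 : fp Q 0 = 0 := tendsto_nhds_unique
    (h3.tendstoLocallyUniformlyOn.tendsto_at (mem_univ 0))
    (tendsto_const_nhds.congr' (h.mono fun n hn => hn.2.2.1.symm))
  have hQ1 : lam Q 0 = 1 := tendsto_nhds_unique
    (h4.tendstoLocallyUniformlyOn.tendsto_at (mem_univ 0))
    (tendsto_const_nhds.congr' (h.mono fun n hn => hn.2.2.2.1.symm))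
  have hQd : derivative Q ≠ 0 := fun e => by simp [lam, e] at hQ1
  have hQ : 0 < Q.natDegree := Nat.pos_of_ne_zero fun e => hQd (derivative_of_natDegree_zero e)
  obtain ⟨L'', a1, a2⟩ := exists_between hL
  have hsub : closedBall (0 : ℂ) L'' ⊆ ball 0 L := closedBall_subset_ball a2
  have hsub' : ball (0 : ℂ) L'' ⊆ ball 0 L := ball_subset_ball a2.le
  have hV := t1714_open (hK.mono hsub') isOpen_ball
  obtain ⟨c₀, hc₀, ε, hε, hb⟩ := t1714_crit 𝒰 hL hQ hK.diff.continuousOn hV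
    (image_mono (closedBall_subset_ball a1)) h1 h3 h4 (h.mono fun n hn => hn.2.2.2.2)
  have hfc : Continuous (fp Q) := fp_diff.continuous
  have hA : IsCompact (E ∩ closedBall 0 L'') := (isCompact_closedBall _ _).inter_left hE
  have hAS : E ∩ closedBall 0 L'' ⊆ ball 0 L := inter_subset_right.trans hsub
  have hN := t1714_null hK.diff isOpen_ball hA hAS (measure_mono_null inter_subset_left hE0)
  have hNc := (hA.image_of_continuousOn (hK.diff.continuousOn.mono hAS)).isClosed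
  have := Measure.nullSingletonClass_hausdorff ℂ one_pos
  have hfin : {τ : ℂ | lam Q τ = 0}.Finite := (derivative Q).finite_setOfPred_isRoot hQd
  obtain ⟨ι, hι, -⟩ := hK.inverse isOpen_ball
  have hz : (0 : ℂ) ∈ ball (0 : ℂ) L'' := mem_ball_self (hL'.trans a1)
  refine ⟨connectedComponentIn (fp Q ⁻¹' (K '' ball 0 L'')) 0 \
    (fp Q ⁻¹' (K '' (E ∩ closedBall 0 L'')) ∪ {τ | lam Q τ = 0}), fun τ => ι (fp Q τ),
    preconn_diff (hV.preimage hfc).connectedComponentIn isPreconnected_connectedComponentIn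
      ((hNc.preimage hfc).union hfin.isClosed)
      (measure_union_null (null_pre hQ hN) (hfin.measure_zero _)), ⟨?_, ?_⟩, ?_, ?_, ?_⟩
  · exact mem_connectedComponentIn ⟨0, hz, hK0.trans hQ0.symm⟩
  · rintro (⟨y, hy, e⟩ | e)
    · exact h0 (hK.inj (hAS hy) (hsub' hz) (e.trans (hQ0.trans hK0.symm)) ▸ hy.1)
    · exact one_ne_zero (hQ1.symm.trans e)
  · have e := hι 0 (hsub' hz)
    rw [hK0] at e
    show ι (fp Q 0) = 0
    rw [hQ0, e]
  · obtain ⟨τ, hτ, τ', hτ', hne, he, hn, hl, hl'⟩ := two_pre hQ hc₀ hN hε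
    exact ⟨τ, ⟨hb hτ, fun w => w.elim hn hl⟩, τ', ⟨hb hτ', fun w => w.elim
      (fun w => hn (he ▸ w)) hl'⟩, hne, congrArg ι he⟩
  · rintro τ₀ ⟨hτ, hτ'⟩
    obtain ⟨y, hy, e⟩ := connectedComponentIn_subset _ _ hτ
    have e' : ι (fp Q τ₀) = y := e ▸ hι y (hsub' hy)
    have hy' : ‖y‖ < L := mem_ball_zero_iff.1 (hsub' hy)
    simp only [e']
    exact ⟨fun w => hτ' (Or.inl ⟨y, ⟨w, ball_subset_closedBall hy⟩, e⟩), hy',
      loc_pair (h.mono fun n hn => hn.1.1) hK h1 h2 h3 h4 hy' (fun w => hτ' (Or.inr w)) e.symm⟩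

end Pool.Agent.MP_28f8a1_an.G42

end

-- part MP_28f8a1_an.G42.Lift
section

/-! Maximal lifts. -/

set_option autoImplicit false

namespace Pool.Agent.MP_28f8a1_an.G42

open MeasureTheory Metric Set Real Filter Topology Polynomial Pool.Agent.MP_28f8a1_an.H42
open scoped ENNReal

variable {T : ℂ[X]}

/-- A holomorphic local inverse of an entire function at a regular point. -/
theorem t1711_inv {f : ℂ → ℂ} (hf : Differentiable ℂ f) {p : ℂ} (h : deriv f p ≠ 0) :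
    ∃ ι : ℂ → ℂ, (∀ᶠ v in 𝓝 p, ι (f v) = v) ∧
      ∀ᶠ y in 𝓝 (f p), f (ι y) = y ∧ DifferentiableAt ℂ ι y := by
  have h1 : ContDiffAt ℂ 1 f p := (hf.analyticAt p).contDiffAt
  have h2 := (hf p).hasDerivAt.hasFDerivAt_equiv h
  have h3 := (h1.to_localInverse h2 one_ne_zero).eventually (by simp)
  have h4 := h1.hasStrictFDerivAt' h2 one_ne_zero
  refine ⟨h1.localInverse h2 one_ne_zero, h4.eventually_left_inverse, ?_⟩
  filter_upwards [h3, h4.eventually_right_inverse] with y h5 h6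
  exact ⟨h6, h5.differentiableAt one_ne_zero⟩

/-- A local inverse branch at a regular point of the iterate.
Hint: `ContDiffAt.to_localInverse` or `HasStrictDerivAt.localInverse`. -/
theorem br_local {k : ℕ} {p : ℂ} (h : Pd T p k ≠ 0) :
    ∃ s > 0, ∃ h, Br T k h (ball ((fp T)^[k] p) s) ∧ h ((fp T)^[k] p) = p := by
  obtain ⟨ι, h1, h2⟩ := t1711_inv (iter_diff (T := T) k) h
  obtain ⟨s, hs, h3⟩ := Metric.eventually_nhds_iff_ball.1 h2
  exact ⟨s, hs, ι, ⟨fun z hz => (h3 z hz).2.differentiableWithinAt, fun z hz => (h3 z hz).1⟩,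
    h1.self_of_nhds⟩

/-- Gluing functions which agree on overlaps. -/
theorem t1711_glue {ι : Type} (I : Set ι) (U : ι → Set ℂ) (L : ι → ℂ → ℂ)
    (h : ∀ i ∈ I, ∀ j ∈ I, EqOn (L i) (L j) (U i ∩ U j)) :
    ∃ G : ℂ → ℂ, ∀ i ∈ I, EqOn G (L i) (U i) := by
  classical
  refine ⟨fun z => if hz : ∃ i ∈ I, z ∈ U i then L hz.choose z else 0, fun i hi z hz => ?_⟩
  have h1 : ∃ i ∈ I, z ∈ U i := ⟨i, hi, hz⟩
  simp only [dif_pos h1]
  exact h _ h1.choose_spec.1 i hi ⟨h1.choose_spec.2, hz⟩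

/-- Two overlapping balls with centres in a closed disc overlap inside the open disc. -/
theorem t1711_overlap {x z1 z2 w : ℂ} {s a b : ℝ} (hs : 0 < s) (h1 : z1 ∈ closedBall x s)
    (h2 : z2 ∈ closedBall x s) (hw : w ∈ ball z1 a ∩ ball z2 b) :
    ∃ v ∈ ball x s, v ∈ ball z1 a ∩ ball z2 b := by
  have ha : 0 < a := pos_of_mem_ball hw.1
  have hb : 0 < b := pos_of_mem_ball hw.2
  have hd : ‖z2 - z1‖ < a + b := by
    have e1 := mem_ball.1 hw.1
    have e2 := mem_ball.1 hw.2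
    rw [← dist_eq_norm]
    linarith [dist_triangle_left z2 z1 w]
  have hab : 0 < a + b := by linarith
  have hy : (b / (a + b)) • z1 + (a / (a + b)) • z2 ∈ closedBall x s :=
    convex_closedBall x s h1 h2 (by positivity) (by positivity) (by field_simp; ring)
  have hc : ((a : ℂ) + b) ≠ 0 := by exact_mod_cast hab.ne'
  have hy2 : (b / (a + b)) • z1 + (a / (a + b)) • z2 ∈ ball z1 a ∩ ball z2 b := by
    constructor
    · have e : (b / (a + b)) • z1 + (a / (a + b)) • z2 - z1 = (a / (a + b)) • (z2 - z1) := by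
        simp only [Complex.real_smul]
        push_cast
        field_simp
        ring
      rw [mem_ball, dist_eq_norm, e, norm_smul, Real.norm_of_nonneg (by positivity),
        div_mul_eq_mul_div, div_lt_iff₀ hab]
      exact mul_lt_mul_of_pos_left hd ha
    · have e : (b / (a + b)) • z1 + (a / (a + b)) • z2 - z2 = (b / (a + b)) • (z1 - z2) := by
        simp only [Complex.real_smul]
        push_cast
        field_simp
        ring
      rw [mem_ball, dist_eq_norm, e, norm_smul, Real.norm_of_nonneg (by positivity),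
        div_mul_eq_mul_div, div_lt_iff₀ hab, norm_sub_rev]
      exact mul_lt_mul_of_pos_left hd hb
  rw [← closure_ball x hs.ne'] at hy
  obtain ⟨v, hv1, hv2⟩ := mem_closure_iff.1 hy _ (isOpen_ball.inter isOpen_ball) hy2
  exact ⟨v, hv2, hv1⟩

/-- Local extension of a lift across a boundary point without critical limit values. -/
theorem t1711_ext (hT : 0 < T.natDegree) {h g : ℂ → ℂ} {x z : ℂ} {s R : ℝ} (hs : 0 < s)
    (hsR : s < R) (hh : DifferentiableOn ℂ h (ball x R)) (hg : DifferentiableOn ℂ g (ball x s))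
    (hgh : ∀ z ∈ ball x s, fp T (g z) = h z) (hz : z ∈ closedBall x s)
    (hc : ∀ c, ‖z - x‖ = s → fp T c = h z → c ∈ closure (g '' ball x s) → lam T c ≠ 0) :
    ∃ η > 0, ∃ L : ℂ → ℂ, DifferentiableOn ℂ L (ball z η) ∧ (∀ w ∈ ball z η, fp T (L w) = h w) ∧
      EqOn L g (ball z η ∩ ball x s) := by
  rcases (mem_closedBall.1 hz).lt_or_eq with hlt | heq
  · obtain ⟨η, hη, h1⟩ := Metric.isOpen_iff.1 isOpen_ball z (mem_ball.2 hlt)
    exact ⟨η, hη, g, hg.mono h1, fun w hw => hgh w (h1 hw), fun _ _ => rfl⟩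
  have hzR : ball x R ∈ 𝓝 z := isOpen_ball.mem_nhds (mem_ball.2 (heq.trans_lt hsR))
  have hca : ContinuousAt h z := hh.continuousOn.continuousAt hzR
  have hne : (𝓝[ball x s] z).NeBot := by
    rw [← mem_closure_iff_nhdsWithin_neBot, closure_ball x hs.ne']
    exact hz
  have hK : IsCompact (fp T ⁻¹' closedBall (h z) 1) :=
    (T.isProperMap_eval (natDegree_pos_iff_degree_pos.1 hT)).isCompact_preimage
      (isCompact_closedBall _ _)
  have hle : map g (𝓝[ball x s] z) ≤ 𝓟 (fp T ⁻¹' closedBall (h z) 1) := by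
    rw [le_principal_iff, mem_map]
    filter_upwards [self_mem_nhdsWithin,
      mem_nhdsWithin_of_mem_nhds (hca.eventually (closedBall_mem_nhds (h z) one_pos))] with w h1 h2
    change fp T (g w) ∈ closedBall (h z) 1
    rw [hgh w h1]
    exact h2
  obtain ⟨c, -, hcl⟩ := hK.exists_mapClusterPt hle
  have hfc : fp T c = h z := by
    have h1 : MapClusterPt (fp T c) (𝓝[ball x s] z) (fp T ∘ g) :=
      hcl.continuousAt_comp fp_diff.continuous.continuousAt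
    have h2 : Tendsto (fp T ∘ g) (𝓝[ball x s] z) (𝓝 (h z)) :=
      (hca.tendsto.mono_left nhdsWithin_le_nhds).congr' (by
        filter_upwards [self_mem_nhdsWithin] with w hw using (hgh w hw).symm)
    exact eq_of_nhds_neBot (h1.clusterPt.mono h2)
  have hcc : c ∈ closure (g '' ball x s) :=
    mem_closure_iff_clusterPt.2 (hcl.clusterPt.mono
      (le_principal_iff.2 (image_mem_map self_mem_nhdsWithin)))
  have hl := hc c (by rw [← dist_eq_norm, heq]) hfc hcc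
  obtain ⟨ι, h1, h2⟩ := t1711_inv (fp_diff (T := T)) (p := c) (by rwa [(fp_deriv c).deriv])
  rw [hfc] at h2
  obtain ⟨η, hη, h3⟩ := Metric.eventually_nhds_iff_ball.1 ((hca.eventually h2).and hzR)
  have hL : DifferentiableOn ℂ (fun w => ι (h w)) (ball z η) := fun w hw =>
    ((h3 w hw).1.2.comp w (hh.differentiableAt
      (isOpen_ball.mem_nhds (h3 w hw).2))).differentiableWithinAt
  refine ⟨η, hη, fun w => ι (h w), hL, fun w hw => (h3 w hw).1.1, ?_⟩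
  have h4 : ∀ᶠ v in 𝓝 c, lam T v ≠ 0 := lam_diff.continuous.continuousAt.eventually_ne hl
  obtain ⟨w, ⟨h5, h6⟩, h7, h8⟩ := ((mapClusterPt_iff_frequently.1 hcl _ (h1.and h4)).and_eventually
    (Filter.inter_mem (mem_nhdsWithin_of_mem_nhds (ball_mem_nhds z hη))
      self_mem_nhdsWithin)).exists
  have h9 : ι (h w) = g w := by rw [← hgh w h8, h5]
  exact lift_unique (isOpen_ball.inter isOpen_ball)
    ((convex_ball z η).inter (convex_ball x s)).isPreconnected (hL.mono inter_subset_left)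
    (hg.mono inter_subset_right) (fun v hv => by rw [(h3 v hv.1).1.1, hgh v hv.2]) ⟨h7, h8⟩ h9
    (by rwa [h9])

/-- A lift without critical limit values on the circle extends to a larger disc. -/
theorem t1711_more (hT : 0 < T.natDegree) {h g : ℂ → ℂ} {x : ℂ} {s R : ℝ} (hs : 0 < s)
    (hsR : s < R) (hh : DifferentiableOn ℂ h (ball x R)) (hg : DifferentiableOn ℂ g (ball x s))
    (hgh : ∀ z ∈ ball x s, fp T (g z) = h z)
    (hc : ∀ z c, ‖z - x‖ = s → fp T c = h z → c ∈ closure (g '' ball x s) → lam T c ≠ 0) :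
    ∃ r, s < r ∧ ∃ G : ℂ → ℂ, DifferentiableOn ℂ G (ball x r) ∧
      (∀ z ∈ ball x r, fp T (G z) = h z) ∧ G x = g x := by
  choose! η hη L h1 h2 h3 using fun z hz => t1711_ext hT hs hsR hh hg hgh (z := z) hz (hc z)
  obtain ⟨G, hG⟩ := t1711_glue (closedBall x s) (fun z => ball z (η z)) L (fun i hi j hj w hw => by
    obtain ⟨v, hv1, hv2⟩ := t1711_overlap hs hi hj hw
    have ho : IsOpen (ball i (η i) ∩ ball j (η j)) := isOpen_ball.inter isOpen_ball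
    refine (((h1 i hi).mono inter_subset_left).analyticOnNhd
      ho).eqOn_of_preconnected_of_eventuallyEq (((h1 j hj).mono inter_subset_right).analyticOnNhd
      ho) ((convex_ball _ _).inter (convex_ball _ _)).isPreconnected hv2 ?_ hw
    filter_upwards [ho.mem_nhds hv2, isOpen_ball.mem_nhds hv1] with u h4 h5
    rw [h3 i hi ⟨h4.1, h5⟩, h3 j hj ⟨h4.2, h5⟩])
  obtain ⟨δ, hδ, h4⟩ := (isCompact_closedBall x s).exists_thickening_subset_open
    (t := ⋃ z ∈ closedBall x s, ball z (η z)) (isOpen_biUnion fun _ _ => isOpen_ball)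
    (fun z hz => mem_biUnion hz (mem_ball_self (hη z hz)))
  rw [thickening_closedBall hδ hs.le] at h4
  have hx : x ∈ closedBall x s := mem_closedBall_self hs.le
  refine ⟨δ + s, by linarith, G, fun w hw => ?_, fun w hw => ?_, ?_⟩
  · obtain ⟨z, hz, h5⟩ := mem_iUnion₂.1 (h4 hw)
    have h6 := isOpen_ball.mem_nhds h5
    exact (((h1 z hz).differentiableAt h6).congr_of_eventuallyEq
      ((hG z hz).eventuallyEq_of_mem h6)).differentiableWithinAt
  · obtain ⟨z, hz, h5⟩ := mem_iUnion₂.1 (h4 hw)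
    rw [hG z hz h5, h2 z hz w h5]
  · rw [hG x hx (mem_ball_self (hη x hx)), h3 x hx ⟨mem_ball_self (hη x hx), mem_ball_self hs⟩]

/-- A lift extends until a critical point is met.
Hint: let `s'` be the supremum of the radii in `[s, R]` on which a lift with value `g x` at `x`
exists; by `lift_unique` these lifts glue to a lift `g'` on `ball x s'`. If `s' < R`, take `z` on
the circle: the preimage of a small disc around `h z` lies in disjoint small discs around the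
finitely many points of `pre T (h z)` (properness of `fp T`), and `ball z η ∩ ball x s'` is convex,
so `g'` maps it into one of them, with centre `c`. If no such `c` is critical, the local inverses
extend `g'` near every `z`; by compactness of the circle the extensions (on balls of one uniform
radius, pairwise agreeing on the convex overlaps, which meet `ball x s'`) give a larger radius. -/
theorem max_lift (hT : 0 < T.natDegree) {h g : ℂ → ℂ} {x : ℂ} {s R : ℝ} (hs : 0 < s) (hsR : s ≤ R)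
    (hh : DifferentiableOn ℂ h (ball x R)) (hg : DifferentiableOn ℂ g (ball x s))
    (hgh : ∀ z ∈ ball x s, fp T (g z) = h z) (hl : lam T (g x) ≠ 0) :
    ∃ (s' : ℝ) (g' : ℂ → ℂ), 0 < s' ∧ s' ≤ R ∧ DifferentiableOn ℂ g' (ball x s') ∧
      (∀ z ∈ ball x s', fp T (g' z) = h z) ∧ g' x = g x ∧
      (s' = R ∨ ∃ z c : ℂ, ‖z - x‖ = s' ∧ s' < R ∧ lam T c = 0 ∧ fp T c = h z ∧
        c ∈ closure (g' '' ball x s')) := by
  set S : Set ℝ := {r | s ≤ r ∧ r ≤ R ∧ ∃ G : ℂ → ℂ, DifferentiableOn ℂ G (ball x r) ∧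
    (∀ z ∈ ball x r, fp T (G z) = h z) ∧ G x = g x} with hS
  have hsS : s ∈ S := ⟨le_rfl, hsR, g, hg, hgh, rfl⟩
  have hb : BddAbove S := ⟨R, fun r hr => hr.2.1⟩
  have h1 : s ≤ sSup S := le_csSup hb hsS
  have h2 : sSup S ≤ R := csSup_le ⟨s, hsS⟩ fun r hr => hr.2.1
  choose! F hF1 hF2 hF3 using fun r (hr : r ∈ S) => hr.2.2
  obtain ⟨G, hG⟩ := t1711_glue S (fun r => ball x r) F (fun i hi j hj =>
    lift_unique (isOpen_ball.inter isOpen_ball)
      ((convex_ball _ _).inter (convex_ball _ _)).isPreconnected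
      ((hF1 i hi).mono inter_subset_left) ((hF1 j hj).mono inter_subset_right)
      (fun v hv => by rw [hF2 i hi v hv.1, hF2 j hj v hv.2])
      ⟨mem_ball_self (hs.trans_le hi.1), mem_ball_self (hs.trans_le hj.1)⟩
      (by rw [hF3 i hi, hF3 j hj]) (by rwa [hF3 i hi]))
  have h3 : ∀ z ∈ ball x (sSup S), ∃ r ∈ S, z ∈ ball x r := fun z hz =>
    exists_lt_of_lt_csSup ⟨s, hsS⟩ (mem_ball.1 hz)
  have h4 : DifferentiableOn ℂ G (ball x (sSup S)) := fun z hz => by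
    obtain ⟨r, hr, h5⟩ := h3 z hz
    have h6 := isOpen_ball.mem_nhds h5
    exact (((hF1 r hr).differentiableAt h6).congr_of_eventuallyEq
      ((hG r hr).eventuallyEq_of_mem h6)).differentiableWithinAt
  have h5 : ∀ z ∈ ball x (sSup S), fp T (G z) = h z := fun z hz => by
    obtain ⟨r, hr, h5⟩ := h3 z hz
    rw [hG r hr h5, hF2 r hr z h5]
  have h6 : G x = g x := by rw [hG s hsS (mem_ball_self hs), hF3 s hsS]
  refine ⟨sSup S, G, hs.trans_le h1, h2, h4, h5, h6, ?_⟩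
  by_contra hn
  rw [not_or] at hn
  have h7 : sSup S < R := lt_of_le_of_ne h2 hn.1
  obtain ⟨r, hr, G', h8, h9, h10⟩ := t1711_more hT (hs.trans_le h1) h7 hh h4 h5
    (fun z c e1 e2 e3 e4 => hn.2 ⟨z, c, e1, h7, e4, e2, e3⟩)
  have h11 : min r R ∈ S := ⟨le_min (h1.trans hr.le) hsR, min_le_right _ _, G',
    h8.mono (ball_subset_ball (min_le_left _ _)),
    fun z hz => h9 z (ball_subset_ball (min_le_left _ _) hz), h10.trans h6⟩
  exact absurd (le_csSup hb h11) (not_le.2 (lt_min hr h7))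

end Pool.Agent.MP_28f8a1_an.G42

end

-- part MP_28f8a1_an.G42.Pull
section

/-! Univalent pull-backs exist at all scales. -/

set_option autoImplicit false

namespace Pool.Agent.MP_28f8a1_an.G42

open MeasureTheory Metric Set Real Filter Topology Polynomial Pool.Agent.MP_28f8a1_an.H42
open scoped ENNReal

theorem open_image {h : ℂ → ℂ} {S : Set ℂ} (hh : Univ h S) (hS : IsOpen S) : IsOpen (h '' S) := by
  rw [isOpen_iff_mem_nhds]
  rintro _ ⟨u, hu, rfl⟩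
  have h1 : HasStrictDerivAt h (deriv h u) u :=
    (hh.diff.analyticAt (hS.mem_nhds hu)).hasStrictDerivAt
  rw [← h1.map_nhds_eq (hh.ne u hu)]
  exact image_mem_map (hS.mem_nhds hu)

variable {d : ℕ} {Λ : ℝ}

namespace Setup

variable (σ : Setup d Λ)

theorem t_ne (n k : ℕ) : σ.t n k ≠ 0 := div_ne_zero (σ.r_ne n) ((σ.Y n).Pd_ne (σ.pmem n k) k)

theorem t_succ (n k : ℕ) : lam (σ.Y n).T (σ.p n (k + 1)) * σ.t n (k + 1) = σ.t n k := by
  have := (σ.Y n).ne0 _ (σ.pmem n (k + 1))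
  have := (σ.Y n).Pd_ne (σ.pmem n k) k
  rw [t, t, Pd_succ, σ.pstep]
  field_simp

/-- The chart at the next point of the backward orbit. -/
noncomputable def ζ (n k : ℕ) (τ : ℂ) : ℂ := σ.p n (k + 1) + σ.t n (k + 1) * τ

/-- The way back to the base point. -/
noncomputable def Z (n k : ℕ) (τ : ℂ) : ℂ := (fp (σ.Y n).T)^[k + 1] (σ.ζ n k τ)

/-- The polynomial in the charts at consecutive points. -/
noncomputable def Pn (n k : ℕ) : ℂ[X] := C (σ.t n k)⁻¹ *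
  ((σ.Y n).T.comp (C (σ.p n (k + 1)) + C (σ.t n (k + 1)) * X) - C (σ.p n k))

/-- A branch in the charts. -/
noncomputable def Hn (n k : ℕ) (h : ℂ → ℂ) (y : ℂ) : ℂ := (σ.t n k)⁻¹ * (h (σ.A n y) - σ.p n k)

theorem ζ_deriv (n k : ℕ) (τ : ℂ) : HasDerivAt (σ.ζ n k) (σ.t n (k + 1)) τ := by
  have := ((hasDerivAt_id τ).const_mul (σ.t n (k + 1))).const_add (σ.p n (k + 1))
  rw [mul_one] at this
  exact this

theorem ζ_zero (n k : ℕ) : σ.ζ n k 0 = σ.p n (k + 1) := by simp [ζ]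

theorem ζ_div (n k : ℕ) (w : ℂ) : σ.ζ n k ((w - σ.p n (k + 1)) / σ.t n (k + 1)) = w := by
  rw [ζ, mul_div_cancel₀ _ (σ.t_ne n _), add_sub_cancel]

theorem Z_zero (n k : ℕ) : σ.Z n k 0 = σ.p n 0 := by
  have := σ.p_iter n (k + 1) 0
  rwa [zero_add, ← σ.ζ_zero] at this

theorem Z_deriv (n k : ℕ) (τ : ℂ) :
    HasDerivAt (σ.Z n k) (Pd (σ.Y n).T (σ.ζ n k τ) (k + 1) * σ.t n (k + 1)) τ :=
  (iter_deriv _ _).comp τ (σ.ζ_deriv n k τ)

theorem Pn_fp (n k : ℕ) (τ : ℂ) :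
    fp (σ.Pn n k) τ = (σ.t n k)⁻¹ * (fp (σ.Y n).T (σ.ζ n k τ) - σ.p n k) := by
  simp [Pn, fp, ζ, eval_comp]

theorem Pn_lam (n k : ℕ) (τ : ℂ) :
    lam (σ.Pn n k) τ = (σ.t n k)⁻¹ * (lam (σ.Y n).T (σ.ζ n k τ) * σ.t n (k + 1)) := by
  have h := fp_deriv (T := σ.Pn n k) τ
  rw [funext (σ.Pn_fp n k)] at h
  exact h.unique ((((fp_deriv _).comp τ (σ.ζ_deriv n k τ)).sub_const _).const_mul _)

theorem Pn_deg (n k : ℕ) : (σ.Pn n k).natDegree ≤ d := by
  refine (natDegree_C_mul_le _ _).trans ?_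
  rw [natDegree_sub_C]
  refine natDegree_comp_le.trans ?_
  rw [(σ.Y n).adm.deg]
  exact mul_le_of_le_one_right (Nat.zero_le _) (by compute_degree)

theorem Pn_bd {n k : ℕ} (hk : k < (σ.Y n).B.card) :
    ∀ τ ∈ ball (0 : ℂ) (1 / 136), ‖fp (σ.Pn n k) τ‖ ≤ 1 := by
  intro τ hτ
  obtain ⟨g, hg, h0⟩ := σ.br0 n (k + 1) hk
  have hr := σ.rpos n
  obtain ⟨t1, t2⟩ := σ.t_eq hr hg h0
  have b1 : Br (σ.Y n).T k (fun v => fp (σ.Y n).T (g v)) (ball (σ.p n 0) (σ.r n)) :=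
    hg.iter (j := 1) (by omega)
  have b2 : fp (σ.Y n).T (g (σ.p n 0)) = σ.p n k := by rw [h0, σ.pstep]
  obtain ⟨t3, t4⟩ := σ.t_eq hr b1 b2
  obtain ⟨z, hz, hzz⟩ := koebe (R := σ.r n / 34) (by positivity)
    ((hg.univ isOpen_ball).mono (ball_subset_ball (by linarith))) (show σ.ζ n k τ ∈ _ by
      have h3 : 0 < ‖deriv g (σ.p n 0)‖ :=
        norm_pos_iff.mpr ((hg.univ isOpen_ball).ne _ (mem_ball_self hr))
      rw [mem_ball, dist_eq_norm, h0, ζ, add_sub_cancel_left, t1, mul_assoc, norm_mul, σ.norm_r,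
        mul_div_assoc]
      refine mul_lt_mul_of_pos_left ?_ h3
      nlinarith [mem_ball_zero_iff.mp hτ])
  rw [mem_ball, dist_eq_norm] at hz
  have h4 := lin_val_le hr (b1.univ isOpen_ball) (z := z) (by linarith)
  rw [b2, hzz] at h4
  rw [σ.Pn_fp, norm_mul, norm_inv, inv_mul_le_iff₀ (norm_pos_iff.mpr t4), t3, norm_mul,
    Complex.norm_real, Real.norm_eq_abs, abs_of_pos hr]
  nlinarith [norm_nonneg (deriv (fun v => fp (σ.Y n).T (g v)) (σ.p n 0))]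

theorem Hn_deriv {n k : ℕ} {h : ℂ → ℂ} {L : ℝ}
    (hb : Br (σ.Y n).T k h (ball (σ.p n 0) (L * σ.r n))) {y : ℂ} (hy : ‖y‖ < L) :
    HasDerivAt (σ.Hn n k h) ((σ.t n k)⁻¹ * (deriv h (σ.A n y) * σ.r n)) y :=
  ((σ.hA_deriv hb (mem_ball_zero_iff.mpr hy)).sub_const _).const_mul _

theorem Hn_univ {n k : ℕ} {h : ℂ → ℂ} {L : ℝ} (hL : 0 < L)
    (hb : Br (σ.Y n).T k h (ball (σ.p n 0) (L * σ.r n))) (h0 : h (σ.p n 0) = σ.p n k) :
    Univ (σ.Hn n k h) (ball 0 L) ∧ σ.Hn n k h 0 = 0 ∧ deriv (σ.Hn n k h) 0 = 1 := by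
  have hu := hb.univ isOpen_ball
  have ht := inv_ne_zero (σ.t_ne n k)
  refine ⟨Univ.of_hasDerivAt (fun y hy => σ.Hn_deriv hb (mem_ball_zero_iff.mp hy))
    (fun y hy y' hy' e => σ.A_inj n (hu.inj (σ.A_mem0.mpr (mem_ball_zero_iff.mp hy))
      (σ.A_mem0.mpr (mem_ball_zero_iff.mp hy')) (sub_left_injective (mul_left_cancel₀ ht e))))
    fun y hy => mul_ne_zero ht (mul_ne_zero (hu.ne _ (σ.A_mem0.mpr (mem_ball_zero_iff.mp hy)))
      (σ.r_ne n)), by rw [Hn, σ.A_zero, h0, sub_self, mul_zero], ?_⟩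
  rw [(σ.Hn_deriv hb (by simpa using hL)).deriv, σ.A_zero,
    ← (σ.t_eq (mul_pos hL (σ.rpos n)) hb h0).1, inv_mul_cancel₀ (σ.t_ne n k)]

theorem key {n k : ℕ} {h : ℂ → ℂ} {L : ℝ}
    (hb : Br (σ.Y n).T k h (ball (σ.p n 0) (L * σ.r n))) {y τ : ℂ} (hy : ‖y‖ < L)
    (he : σ.Hn n k h y = fp (σ.Pn n k) τ) :
    fp (σ.Y n).T (σ.ζ n k τ) = h (σ.A n y) ∧ σ.Z n k τ = σ.A n y ∧
      deriv (σ.Z n k) τ * deriv (σ.Hn n k h) y = σ.r n * lam (σ.Pn n k) τ := by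
  have h1 : fp (σ.Y n).T (σ.ζ n k τ) = h (σ.A n y) := by
    rw [σ.Pn_fp] at he
    exact (sub_left_injective (mul_left_cancel₀ (inv_ne_zero (σ.t_ne n k)) he)).symm
  have hA := σ.A_mem0 (n := n).mpr hy
  refine ⟨h1, by rw [Z, Function.iterate_succ_apply, h1, hb.inv _ hA], ?_⟩
  rw [(σ.Z_deriv n k τ).deriv, (σ.Hn_deriv hb hy).deriv, σ.Pn_lam, Pd_succ, h1]
  linear_combination (σ.r n * ((σ.t n k)⁻¹ * (lam (σ.Y n).T (σ.ζ n k τ) * σ.t n (k + 1)))) *
    hb.mul_deriv isOpen_ball hA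

theorem on_O {n k : ℕ} {h : ℂ → ℂ} {R : ℝ} (hb : Br (σ.Y n).T k h (ball (σ.p n 0) R)) :
    IsOpen {τ | fp (σ.Y n).T (σ.ζ n k τ) ∈ h '' ball (σ.p n 0) R} ∧
      ∀ τ, fp (σ.Y n).T (σ.ζ n k τ) ∈ h '' ball (σ.p n 0) R →
        σ.Z n k τ ∈ ball (σ.p n 0) R ∧ fp (σ.Y n).T (σ.ζ n k τ) = h (σ.Z n k τ) := by
  refine ⟨(open_image (hb.univ isOpen_ball) isOpen_ball).preimage (fp_diff.continuous.comp
    (continuous_iff_continuousAt.2 fun τ => (σ.ζ_deriv n k τ).continuousAt)), ?_⟩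
  rintro τ ⟨z, hz, h1⟩
  have : σ.Z n k τ = z := by rw [Z, Function.iterate_succ_apply, ← h1, hb.inv z hz]
  rw [this]
  exact ⟨hz, h1.symm⟩

/-- Two preimages cannot both carry most of the mass. -/
theorem two_sheets {n k : ℕ} {h : ℂ → ℂ} {L m : ℝ} (hm : 0 < m)
    (hb : Br (σ.Y n).T k h (ball (σ.p n 0) (L * σ.r n))) {y τ τ' : ℂ} (hy : ‖y‖ < L)
    (hB : σ.A n y ∉ (σ.Y n).B) (hu : m⁻¹ ≤ ‖σ.u n y‖) (hne : τ ≠ τ')
    (he : σ.Hn n k h y = fp (σ.Pn n k) τ) (he' : σ.Hn n k h y = fp (σ.Pn n k) τ')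
    (h1 : ‖1 - rat (σ.Y n) (σ.p n 0) (σ.p n (k + 1)) h (σ.Z n k) (σ.ζ n k) 0 τ‖ ≤ 1 / 4)
    (h2 : ‖1 - rat (σ.Y n) (σ.p n 0) (σ.p n (k + 1)) h (σ.Z n k) (σ.ζ n k) 0 τ'‖ ≤ 1 / 4) :
    m⁻¹ / (2 * (σ.r n * L) ^ 2) ≤ (σ.Y n).Err k h (σ.A n y) := by
  have hr := σ.rpos n
  have hy0 : 0 < ‖y‖ := norm_pos_iff.mpr fun h0 => hB (by rw [h0, σ.A_zero]; exact σ.pmem n 0)
  have hq : m⁻¹ / (σ.r n * L) ^ 2 ≤ ‖(σ.Y n).q (σ.A n y)‖ := by
    rw [(σ.Y n).q_eq (σ.pmem n 0) hB, norm_div, norm_pow, A, add_sub_cancel_left, σ.norm_r]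
    exact div_le_div₀ (norm_nonneg _) hu (by positivity) (by gcongr)
  have hL : 0 < L := hy0.trans hy
  have hq0 : 0 < ‖(σ.Y n).q (σ.A n y)‖ := lt_of_lt_of_le (by positivity) hq
  have key : ∀ τ, σ.Hn n k h y = fp (σ.Pn n k) τ →
      ‖1 - rat (σ.Y n) (σ.p n 0) (σ.p n (k + 1)) h (σ.Z n k) (σ.ζ n k) 0 τ‖ ≤ 1 / 4 →
      3 / 4 * ‖(σ.Y n).q (σ.A n y)‖ ≤
        ‖tm (σ.Y n).T (σ.Y n).q (σ.ζ n k τ) * deriv h (σ.A n y) ^ 2‖ := fun τ g1 g2 => by
    obtain ⟨-, a2, -⟩ := σ.key hb hy g1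
    rw [rat_eq (σ.Y n) (σ.pmem n 0) (σ.pmem n (k + 1)) h (σ.Z_zero n k) (σ.ζ_zero n k) (a2 ▸ hB)
      (fun a3 => hB (a2 ▸ (σ.Y n).iter_mem a3 (k + 1))), a2] at g2
    have a4 := (norm_sub_norm_le _ _).trans g2
    rw [norm_one, norm_div] at a4
    rw [← le_div_iff₀ hq0]
    linarith
  have h3 := (σ.Y n).tele2 isOpen_ball hb (σ.A_mem0.mpr hy) (σ.key hb hy he).1 (σ.key hb hy he').1
    fun h => hne (mul_left_cancel₀ (σ.t_ne n _) (add_left_cancel h))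
  rw [mul_comm 2, ← div_div]
  linarith [key τ he h1, key τ' he' h2]

theorem no_branching {L L' : ℝ} (hLL : L' < L) {k : ℕ → ℕ} {h g : ℕ → ℂ → ℂ} {s : ℕ → ℝ}
    {c : ℕ → ℂ} (hh : ∀ᶠ n in (σ.𝒰 : Filter ℕ), k n < (σ.Y n).B.card ∧
      Br (σ.Y n).T (k n) (h n) (ball (σ.p n 0) (L * σ.r n)) ∧ h n (σ.p n 0) = σ.p n (k n) ∧
      0 < s n ∧ s n ≤ L' * σ.r n ∧ DifferentiableOn ℂ (g n) (ball (σ.p n 0) (s n)) ∧
      (∀ z ∈ ball (σ.p n 0) (s n), fp (σ.Y n).T (g n z) = h n z) ∧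
      g n (σ.p n 0) = σ.p n (k n + 1) ∧ lam (σ.Y n).T (c n) = 0 ∧
      c n ∈ closure (g n '' ball (σ.p n 0) (s n))) : False := by
  have hL : 0 < L := by
    obtain ⟨n, -, -, -, g4, g5, -⟩ := hh.exists
    exact ((mul_pos_iff_of_pos_right (σ.rpos n)).mp (g4.trans_le g5)).trans hLL
  obtain ⟨G, pr, G1, G2, G3, ⟨τ₁, hτ₁, τ₂, hτ₂, hne, hpr⟩, G4⟩ := geo σ.𝒰 (d := d) (a := 1 / 136)
    (by norm_num) hLL (H := fun n => σ.Hn n (k n) (h n)) (P := fun n => σ.Pn n (k n))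
    (g := fun n y => (g n (σ.A n y) - σ.p n (k n + 1)) / σ.t n (k n + 1))
    (s := fun n => s n / σ.r n) (c := fun n => (c n - σ.p n (k n + 1)) / σ.t n (k n + 1))
    σ.Ecl σ.Enull σ.E0 (by
      filter_upwards [hh] with n ⟨g1, g2, g3, g4, g5, g6, g7, g8, g9, g10⟩
      have hr := σ.rpos n
      have hm : ∀ {y}, y ∈ ball (0 : ℂ) (s n / σ.r n) ↔ σ.A n y ∈ ball (σ.p n 0) (s n) := by
        intro y
        rw [mem_ball_zero_iff, ← σ.A_mem0 (n := n), div_mul_cancel₀ _ hr.ne']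
      refine ⟨σ.Hn_univ hL g2 g3, ⟨σ.Pn_deg _ _, σ.Pn_bd g1⟩, ?_, ?_, by positivity,
        (div_le_iff₀ hr).mpr g5, ?_, ?_, fun y hy => ?_, ?_, ?_⟩
      · rw [σ.Pn_fp, σ.ζ_zero, σ.pstep, sub_self, mul_zero]
      · rw [σ.Pn_lam, σ.ζ_zero, σ.t_succ, inv_mul_cancel₀ (σ.t_ne _ _)]
      · exact ((g6.continuousOn.comp (fun y _ => (σ.A_deriv n y).continuousAt.continuousWithinAt)
          fun y hy => hm.mp hy).sub continuousOn_const).div_const _
      · rw [σ.A_zero, g8, sub_self, zero_div]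
      · rw [σ.Pn_fp, σ.ζ_div, g7 _ (hm.mp hy), Hn]
      · refine map_mem_closure (f := fun w => (w - σ.p n (k n + 1)) / σ.t n (k n + 1))
          (by fun_prop) g10 ?_
        rintro _ ⟨z, hz, rfl⟩
        exact ⟨(z - σ.p n 0) / σ.r n, hm.mpr (by rwa [σ.A_div]), by simp only [σ.A_div]⟩
      · rw [σ.Pn_lam, σ.ζ_div, g9, zero_mul, mul_zero])
  have h0O : ∀ᶠ n in (σ.𝒰 : Filter ℕ),
      fp (σ.Y n).T (σ.ζ n (k n) 0) ∈ h n '' ball (σ.p n 0) (L * σ.r n) :=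
    hh.mono fun n hn => ⟨_, mem_ball_self (mul_pos hL (σ.rpos n)), by
      rw [hn.2.2.1, σ.ζ_zero, σ.pstep]⟩
  have hfin := align (l := σ.𝒰) (α := fun n τ => 1 -
      rat (σ.Y n) (σ.p n 0) (σ.p n (k n + 1)) (h n) (σ.Z n (k n)) (σ.ζ n (k n)) 0 τ) G1
    (fun τ₀ hτ₀ => by
      obtain ⟨a1, a2, a3, -⟩ := G4 τ₀ hτ₀
      obtain ⟨ε₁, hε₁, m, hm, hxε, h1⟩ := σ.small_loss' a1 a2
      obtain ⟨ε, hε, κ, hκ, a4⟩ := a3 ε₁ hε₁
      refine ⟨ε, hε, fun δ hδ => ?_⟩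
      filter_upwards [hh, h0O, h1 (δ / (m * (L / κ) ^ 2 + 1)) (by positivity), a4]
        with n ⟨g1, g2, g3, _⟩ g0 ⟨g4, g5⟩ ⟨g6, g7⟩
      obtain ⟨o1, o2⟩ := σ.on_O g2
      have hyL : ∀ y ∈ ball (pr τ₀) ε₁, ‖y‖ < L := fun y hy => by
        rw [mem_ball, dist_eq_norm] at hy
        linarith [norm_le_norm_add_norm_sub' y (pr τ₀)]
      have hsub : ∀ τ ∈ ball τ₀ ε,
          fp (σ.Y n).T (σ.ζ n (k n) τ) ∈ h n '' ball (σ.p n 0) (L * σ.r n) := fun τ hτ => by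
        obtain ⟨y, b1, b2, -⟩ := g7 τ hτ
        exact ⟨_, σ.A_mem0.mpr (hyL y b1), (σ.key g2 (hyL y b1) b2).1.symm⟩
      obtain ⟨l1, l2⟩ := loc_est (σ.Y n) (σ.pmem n 0) (σ.pmem n (k n + 1)) g2 o1
        (fun τ _ => (σ.Z_deriv n _ τ).differentiableAt.differentiableWithinAt)
        (fun τ _ => (σ.ζ_deriv n _ τ).differentiableAt.differentiableWithinAt)
        (fun τ hτ => (o2 τ hτ).1) (fun τ hτ => (o2 τ hτ).2) g0 (σ.Z_zero n _) (σ.ζ_zero n _) hsub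
        (fun a ha b hb hab => g6 ha hb (by
          rw [σ.Pn_fp, σ.Pn_fp, (o2 a (hsub a ha)).2, (o2 b (hsub b hb)).2, hab]))
        (W := ball (σ.A n (pr τ₀)) (ε₁ * σ.r n)) (fun τ hτ => by
          obtain ⟨y, b1, b2, -⟩ := g7 τ hτ
          rw [(σ.key g2 (hyL y b1) b2).2.1]
          exact σ.A_mem.mpr b1) hm (C := L / κ) (fun τ hτ => by
          obtain ⟨y, b1, b2, b3⟩ := g7 τ hτ
          obtain ⟨-, b4, b5⟩ := σ.key g2 (hyL y b1) b2
          have b6 := norm_pos_iff.mpr ((σ.Hn_univ hL g2 g3).1.ne y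
            (mem_ball_zero_iff.mpr (hyL y b1)))
          have hr := σ.rpos n
          rw [b4]
          refine ⟨(g4 y b1).1, (g4 y b1).2, fun b7 => ?_, ?_, ?_⟩
          · rw [σ.Pn_lam, b7, zero_mul, mul_zero, norm_zero] at b3
            exact absurd b3 (not_le.mpr (mul_pos hκ b6))
          · have b7 := congrArg norm b5
            rw [norm_mul, σ.norm_r] at b7
            have b8 : σ.r n * κ ≤ ‖deriv (σ.Z n (k n)) τ‖ :=
              le_of_mul_le_mul_right (by rw [b7, mul_assoc]; gcongr) b6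
            rw [A, add_sub_cancel_left, σ.norm_r, div_mul_eq_mul_div, le_div_iff₀ hκ]
            nlinarith [hyL y b1, norm_nonneg y, mul_pos hr hκ]
          · by_cases h0 : τ = 0
            · rw [h0, dslope_same, (σ.ζ_deriv n _ 0).deriv]
              exact σ.t_ne _ _
            · rw [dslope_of_ne _ h0, slope_def_field, σ.ζ_zero, ζ, add_sub_cancel_left, sub_zero]
              exact div_ne_zero (mul_ne_zero (σ.t_ne _ _) h0) h0)
      exact ⟨(differentiableOn_const _).sub l1, (LI_mono measurableSet_ball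
        fun y _ => neg_le_two' _).trans (scale_small (by positivity) hδ l2 (g5 _ g1 _ g2 g3))⟩)
    G2 (by
      filter_upwards [hh, h0O] with n ⟨_, g2, _⟩ g0
      obtain ⟨o1, o2⟩ := σ.on_O g2
      rw [rat_self (σ.Y n) (σ.pmem n 0) (σ.pmem n _) (σ.Z_zero n _) (σ.ζ_zero n _)
        ((σ.ζ_deriv n _ 0).deriv ▸ σ.t_ne _ _) (chain_rule o1
          (fun τ _ => (σ.Z_deriv n _ τ).differentiableAt.differentiableWithinAt)
          (fun τ _ => (σ.ζ_deriv n _ τ).differentiableAt.differentiableWithinAt)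
          (fun τ hτ => (o2 τ hτ).2) g0
          (g2.diff.differentiableAt (isOpen_ball.mem_nhds (o2 0 g0).1))), sub_self])
  obtain ⟨εa, hεa, ha⟩ := hfin τ₁ hτ₁
  obtain ⟨εb, hεb, hb⟩ := hfin τ₂ hτ₂
  have hd : 0 < dist τ₁ τ₂ / 2 := half_pos (dist_pos.mpr hne)
  obtain ⟨a1, a2, -, a3⟩ := G4 τ₁ hτ₁
  obtain ⟨ε₂, hε₂, a4⟩ := a3 _ (lt_min hεa hd)
  obtain ⟨ε₃, hε₃, a5⟩ := (G4 τ₂ hτ₂).2.2.2 _ (lt_min hεb hd)
  obtain ⟨ε₁, hε₁, m, hm, hxε, h1⟩ := σ.small_loss' a1 a2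
  obtain ⟨ε, hε, e1, e2, e3⟩ : ∃ ε > 0, ε ≤ ε₁ ∧ ε ≤ ε₂ ∧ ε ≤ ε₃ := ⟨min ε₁ (min ε₂ ε₃),
    by positivity, min_le_left _ _, (min_le_right _ _).trans (min_le_left _ _),
    (min_le_right _ _).trans (min_le_right _ _)⟩
  have hπ := pi_pos
  obtain ⟨n, ⟨g1, g2, g3, -⟩, ⟨g4, g5⟩, g6, g7, g8, g9⟩ :=
    (hh.and ((h1 (m⁻¹ * π * ε ^ 2 / (4 * L ^ 2)) (by positivity)).and (a4.and (a5.and
      ((ha (1 / 4) (by norm_num)).and (hb (1 / 4) (by norm_num))))))).exists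
  have hr := σ.rpos n
  have k1 := (LI_mono_ae (S := ball (σ.A n (pr τ₁)) (ε * σ.r n)) measurableSet_ball
    (measure_singleton (σ.p n 0)) (u := fun _ => m⁻¹ / (2 * (σ.r n * L) ^ 2))
    (v := (σ.Y n).Err (k n) (h n)) fun z hz hz0 => by
      rw [← σ.A_div n z] at hz hz0 ⊢
      generalize (z - σ.p n 0) / σ.r n = y at hz hz0
      have hy := σ.A_mem.mp hz
      obtain ⟨τ, b1, b2⟩ := g6 y (ball_subset_ball e2 hy)
      obtain ⟨τ', b3, b4⟩ := g7 y (hpr ▸ ball_subset_ball e3 hy)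
      obtain ⟨b5, b6⟩ := g4 y (ball_subset_ball e1 hy)
      rw [mem_ball, dist_eq_norm] at hy
      refine σ.two_sheets hm g2 (by linarith [norm_le_norm_add_norm_sub' y (pr τ₁)])
        (fun b7 => hz0 (b5 b7)) b6 ?_ b2.symm b4.symm
        (g8 τ (ball_subset_ball (min_le_left _ _) b1))
        (g9 τ' (ball_subset_ball (min_le_left _ _) b3))
      rintro rfl
      rw [mem_ball, lt_min_iff] at b1 b3
      linarith [dist_triangle_left τ₁ τ₂ τ, b1.2, b3.2]).trans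
    ((LI_mono_set (ball_subset_ball (by gcongr)) _).trans (g5 _ g1 _ g2 g3))
  rw [LI_ball_const _ (by positivity) (by positivity),
    ENNReal.ofReal_le_ofReal_iff (by positivity),
    show m⁻¹ / (2 * (σ.r n * L) ^ 2) * (π * (ε * σ.r n) ^ 2) =
      2 * (m⁻¹ * π * ε ^ 2 / (4 * L ^ 2)) by field_simp; norm_num] at k1
  have : 0 < m⁻¹ * π * ε ^ 2 / (4 * L ^ 2) := by positivity
  linarith

/-- Univalent pull-backs along the whole cycle exist at every scale. -/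
theorem branches (L : ℝ) : ∀ᶠ n in (σ.𝒰 : Filter ℕ), ∀ k ≤ (σ.Y n).B.card,
    ∃ h, Br (σ.Y n).T k h (ball (σ.p n 0) (L * σ.r n)) ∧ h (σ.p n 0) = σ.p n k := by
  obtain ⟨L', ⟨h1, -⟩, hF⟩ := good_radius σ.Fnull (lt_add_one (max L 1))
  have hL : 1 < L' := (le_max_right _ _).trans_lt h1
  by_contra hc
  rw [← Ultrafilter.eventually_not] at hc
  have hex : ∀ n, ∃ (k : ℕ) (h g : ℂ → ℂ) (s : ℝ) (c x : ℂ), (¬∀ k ≤ (σ.Y n).B.card,
      ∃ h, Br (σ.Y n).T k h (ball (σ.p n 0) (L * σ.r n)) ∧ h (σ.p n 0) = σ.p n k) →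
      (k < (σ.Y n).B.card ∧ Br (σ.Y n).T k h (ball (σ.p n 0) (L' * σ.r n)) ∧
        h (σ.p n 0) = σ.p n k ∧ 0 < s) ∧ (DifferentiableOn ℂ g (ball (σ.p n 0) s) ∧
        (∀ z ∈ ball (σ.p n 0) s, fp (σ.Y n).T (g z) = h z) ∧ g (σ.p n 0) = σ.p n (k + 1) ∧
        lam (σ.Y n).T c = 0 ∧ c ∈ closure (g '' ball (σ.p n 0) s)) ∧
      s = ‖x‖ * σ.r n ∧ ‖x‖ < L' ∧ fp (σ.Y n).T c = h (σ.A n x) := by
    intro n
    by_contra hn
    simp only [not_exists, Classical.not_imp] at hn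
    refine (hn 0 0 0 0 0 0).1 fun k hk => ?_
    have hr := σ.rpos n
    have hrL : σ.r n ≤ L' * σ.r n := by nlinarith
    have key : ∀ j ≤ (σ.Y n).B.card, ∃ h, Br (σ.Y n).T j h (ball (σ.p n 0) (L' * σ.r n)) ∧
        h (σ.p n 0) = σ.p n j := by
      intro j
      induction j with
      | zero => exact fun _ => ⟨id, ⟨differentiableOn_id, fun _ _ => rfl⟩, rfl⟩
      | succ j ih =>
        intro hj
        obtain ⟨h, hb, h0⟩ := ih (by omega)
        obtain ⟨g, hg, g0⟩ := σ.br0 n (j + 1) hj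
        have b1 : Br (σ.Y n).T j (fun v => fp (σ.Y n).T (g v)) (ball (σ.p n 0) (σ.r n)) :=
          hg.iter (j := 1) (by omega)
        obtain ⟨s, g', c1, c2, c3, c4, c5, c6⟩ := max_lift (σ.Y n).adm.dpos hr hrL hb.diff hg.diff
          (b1.unique (hb.mono (ball_subset_ball hrL)) (mem_ball_self hr) (by rw [g0, σ.pstep, h0]))
          (g0 ▸ (σ.Y n).ne0 _ (σ.pmem n _))
        rcases c6 with rfl | ⟨z, c, d1, d2, d3, d4, d5⟩
        · exact ⟨g', ⟨c3, fun z hz => by rw [Function.iterate_succ_apply, c4 z hz, hb.inv z hz]⟩,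
            c5.trans g0⟩
        · have d6 : ‖(z - σ.p n 0) / σ.r n‖ * σ.r n = s := by
            rw [norm_div, Complex.norm_real, Real.norm_eq_abs, abs_of_pos hr,
              div_mul_cancel₀ _ hr.ne', d1]
          exact ((hn j h g' s c ((z - σ.p n 0) / σ.r n)).2 ⟨⟨hj, hb, h0, c1⟩,
            ⟨c3, c4, c5.trans g0, d3, d5⟩, d6.symm, lt_of_mul_lt_mul_right (d6 ▸ d2) hr.le,
            by rw [σ.A_div, d4]⟩).elim
    obtain ⟨h, hb, h0⟩ := key k hk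
    exact ⟨h, hb.mono (ball_subset_ball
      (mul_le_mul_of_nonneg_right ((le_max_left _ _).trans h1.le) hr.le)), h0⟩
  choose k h g s c x hx using hex
  have hh := hc.mono hx
  obtain ⟨x₀, hx₀, hlim⟩ := (isCompact_closedBall (0 : ℂ) L').ultrafilter_le_nhds (σ.𝒰.map x) (by
    rw [Ultrafilter.coe_map, le_principal_iff, Filter.mem_map]
    filter_upwards [hh] with n hn
    exact mem_closedBall_zero_iff.mpr hn.2.2.2.1.le)
  replace hlim : Tendsto x σ.𝒰 (𝓝 x₀) := hlim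
  have hxL : ‖x₀‖ < L' := by
    refine lt_of_le_of_ne (mem_closedBall_zero_iff.mp hx₀) (hF _ ?_)
    by_contra hc
    obtain ⟨ε, hε, h1⟩ := σ.Faway _ hc
    obtain ⟨n, ⟨⟨g1, g2, -⟩, ⟨-, -, -, g3, -⟩, -, g4, g5⟩, g6, g7⟩ :=
      (hh.and (h1.and (hlim.eventually (ball_mem_nhds x₀ hε)))).exists
    refine g6 _ g7 _ g1 _ g3 ?_
    rw [Function.iterate_succ_apply, g5, g2.inv _ (σ.A_mem0.mpr g4), A]
  obtain ⟨L'', a1, a2⟩ := exists_between hxL
  refine σ.no_branching a2 (k := k) (h := h) (g := g) (s := s) (c := c) ?_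
  filter_upwards [hh, hlim.norm.eventually (gt_mem_nhds a1)]
    with n ⟨⟨g1, g2, g3, g4⟩, g5, g6, _⟩ g7
  exact ⟨g1, g2, g3, g4, g6 ▸ mul_le_mul_of_nonneg_right g7.le (σ.rpos n).le, g5⟩

end Setup

end Pool.Agent.MP_28f8a1_an.G42

end

-- part MP_28f8a1_an.G42.Limit
section

/-! The entire limit seen from every point of the cycle; counting roots. -/

set_option autoImplicit false

namespace Pool.Agent.MP_28f8a1_an.G42

open MeasureTheory Metric Set Real Filter Topology Polynomial Pool.Agent.MP_28f8a1_an.H42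
open scoped ENNReal

theorem near_one' : ∃ η > 0, ∀ u : ℂ → ℂ, DifferentiableOn ℂ u (ball 0 4) →
    (∀ y ∈ ball (0 : ℂ) 4, ‖u y - 1‖ ≤ η) → ∀ y : ℂ, ‖y‖ < 2 →
      u y ≠ 0 ∧ Eu u y ≠ 0 ∧ Eu u y ^ 2 ≠ u y ^ 3 := by
  refine ⟨1 / 10, by norm_num, fun u hu h y hy => ?_⟩
  have h1 := t37_Eu_close (U := fun _ => 1) hu (differentiableOn_const 1) h (y := y)
    one_pos (by linarith)
  have h2 := h y (mem_ball_zero_iff.2 (by linarith))
  have e : Eu (fun _ => (1 : ℂ)) y = -2 := by simp [Eu]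
  rw [e, div_one] at h1
  have h3 := norm_sub_norm_le (-2 : ℂ) (Eu u y)
  rw [norm_sub_rev, norm_neg, Complex.norm_two] at h3
  have h4 := norm_sub_norm_le (1 : ℂ) (u y)
  rw [norm_sub_rev, norm_one] at h4
  have h5 := norm_sub_norm_le (u y) (1 : ℂ)
  rw [norm_one] at h5
  refine ⟨norm_pos_iff.1 (by linarith), norm_pos_iff.1 (by linarith), fun h6 => ?_⟩
  have h7 := congrArg norm h6
  rw [norm_pow, norm_pow] at h7
  have h8 := pow_le_pow_left₀ (by norm_num) (show (3 / 2 : ℝ) ≤ ‖Eu u y‖ by linarith) 2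
  have h9 := pow_le_pow_left₀ (norm_nonneg _) (show ‖u y‖ ≤ 11 / 10 by linarith) 3
  norm_num at h8 h9
  linarith

variable {d : ℕ} {Λ : ℝ}

namespace Setup

variable (σ : Setup d Λ)

/-- No other point of the cycle stays at bounded distance. -/
def Alone : Prop := ∀ L : ℝ, ∀ᶠ n in (σ.𝒰 : Filter ℕ), ∀ z ∈ (σ.Y n).B,
    ‖z - σ.p n 0‖ < L * σ.r n → z = σ.p n 0

theorem alone {η : ℝ} (hη : 0 < η)
    (hne : ∀ᶠ n in (σ.𝒰 : Filter ℕ), η ≤ ‖(σ.Y n).ρ - 1‖) : σ.Alone := by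
  intro L
  obtain ⟨s, hs, hs1, hs2⟩ : ∃ s > 0, s < η ∧ s ≤ 1 :=
    ⟨min (η / 2) 1, lt_min (half_pos hη) one_pos,
      (min_le_left _ _).trans_lt (half_lt_self hη), min_le_right _ _⟩
  filter_upwards [σ.branches (34 * |L| / s + 1), hne] with n hn hη' z hz hzL
  obtain ⟨G, hG, hG0⟩ := hn _ le_rfl
  rw [σ.p_card] at hG0
  have hr := σ.rpos n
  have hR : 0 < (34 * |L| / s + 1) * σ.r n := by positivity
  have hu := hG.univ isOpen_ball
  have hd := hG.mul_deriv isOpen_ball (mem_ball_self hR)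
  rw [hG0, (σ.Y n).mult _ (σ.pmem n 0)] at hd
  have hρ := (σ.Y n).rho_ne
  have hn1 : ‖(σ.Y n).ρ‖ * ‖deriv G (σ.p n 0)‖ = 1 := by rw [← norm_mul, hd, norm_one]
  have hn2 : 1 / 2 ≤ ‖deriv G (σ.p n 0)‖ := by
    nlinarith [σ.ρhi n, norm_nonneg (deriv G (σ.p n 0))]
  have hL : ‖z - σ.p n 0‖ < |L| * σ.r n := hzL.trans_le (by gcongr; exact le_abs_self L)
  have h34 : 34 * |L| ≤ 34 * |L| / s := by
    rw [le_div_iff₀ hs]
    nlinarith [abs_nonneg L]
  obtain ⟨z', hz', hGz⟩ := koebe hR hu (show z ∈ _ by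
    rw [mem_ball, dist_eq_norm, hG0]
    refine hL.trans_le ?_
    have : 1 / 2 * ((34 * |L| / s + 1) * σ.r n) ≤
        ‖deriv G (σ.p n 0)‖ * ((34 * |L| / s + 1) * σ.r n) := by gcongr
    nlinarith [abs_nonneg L, mul_le_mul_of_nonneg_right h34 hr.le])
  have hzz : z' = z := by rw [← hG.inv z' hz', hGz, (σ.Y n).fix z hz]
  rw [hzz] at hGz
  have := lin_val hR hu (z := z) (η := s) (by linarith) (by
    have : s * ((34 * |L| / s + 1) * σ.r n) = (34 * |L| + s) * σ.r n := by field_simp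
    nlinarith)
  rw [hGz, hG0] at this
  by_contra hne
  have h0 : 0 < ‖z - σ.p n 0‖ := norm_pos_iff.mpr (sub_ne_zero.mpr hne)
  have h1 : z - σ.p n 0 - deriv G (σ.p n 0) * (z - σ.p n 0) =
      ((σ.Y n).ρ - 1) * deriv G (σ.p n 0) * (z - σ.p n 0) := by
    linear_combination (-(z - σ.p n 0)) * hd
  rw [h1, norm_mul, norm_mul] at this
  have h2 := le_of_mul_le_mul_right (le_of_mul_le_mul_right this h0) (by linarith)
  linarith

theorem u_diffOn (ha : σ.Alone) (L : ℝ) : ∀ᶠ n in (σ.𝒰 : Filter ℕ),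
    DifferentiableOn ℂ (σ.u n) (ball 0 L) := by
  filter_upwards [ha L] with n hn y hy
  refine (σ.u_diff fun h => hn _ h ?_).differentiableWithinAt
  have := σ.A_mem0 (n := n).mpr (mem_ball_zero_iff.mp hy)
  rwa [mem_ball, dist_eq_norm] at this

theorem u_sphere {s : ℝ} (hs : ∀ x ∈ σ.E, ‖x‖ ≠ s) : ∃ m : ℝ, ∀ᶠ n in (σ.𝒰 : Filter ℕ),
    ∀ y ∈ sphere (0 : ℂ) s, ‖σ.u n y‖ ≤ m := by
  refine (isCompact_sphere (0 : ℂ) s).induction_on
    (p := fun K => ∃ m : ℝ, ∀ᶠ n in (σ.𝒰 : Filter ℕ), ∀ y ∈ K, ‖σ.u n y‖ ≤ m)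
    ⟨0, by simp⟩ ?_ ?_ ?_
  · rintro K K' hK ⟨m, hm⟩
    exact ⟨m, hm.mono fun n hn y hy => hn y (hK hy)⟩
  · rintro K K' ⟨m, hm⟩ ⟨m', hm'⟩
    refine ⟨max m m', ?_⟩
    filter_upwards [hm, hm'] with n h1 h2 y hy
    exact hy.elim (fun h => (h1 y h).trans (le_max_left _ _))
      fun h => (h2 y h).trans (le_max_right _ _)
  · intro x hx
    obtain ⟨ε, hε, m, -, h⟩ := σ.u_bounds x fun h => hs x h (mem_sphere_zero_iff_norm.mp hx)
    exact ⟨ball x ε, mem_nhdsWithin_of_mem_nhds (ball_mem_nhds x hε), m,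
      h.mono fun n hn y hy => (hn y hy).2.2⟩

theorem limit (ha : σ.Alone) : ∃ U : ℂ → ℂ, Differentiable ℂ U ∧ ∀ L η : ℝ, 0 < η →
    ∀ᶠ n in (σ.𝒰 : Filter ℕ), ∀ y ∈ ball (0 : ℂ) L, ‖σ.u n y - U y‖ ≤ η := by
  refine montel σ.𝒰 fun L => ?_
  obtain ⟨s, ⟨h1, h2⟩, hs⟩ := good_radius σ.Enull (lt_add_one (max L 0))
  obtain ⟨m, hm⟩ := σ.u_sphere hs
  refine ⟨m, ?_⟩
  filter_upwards [hm, σ.u_diffOn ha (max L 0 + 1)] with n g1 g2
  refine ⟨g2.mono (ball_subset_ball (by linarith [le_max_left L 0])), fun y hy => ?_⟩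
  refine max_disc ((le_max_right _ _).trans_lt h1) h2 g2 (fun y hy => g1 y ?_) y ?_
  · simpa using hy
  · rw [sub_zero]
    linarith [mem_ball_zero_iff.mp hy, le_max_left L 0]

/-- The charts at the other points of the cycle contain no further point of the cycle. -/
theorem alone' (ha : σ.Alone) (L : ℝ) : ∀ᶠ n in (σ.𝒰 : Filter ℕ), ∀ k ≤ (σ.Y n).B.card,
    σ.t n k ≠ 0 ∧ ∀ y : ℂ, ‖y‖ < L → σ.p n k + σ.t n k * y ∈ (σ.Y n).B →
      σ.p n k + σ.t n k * y = σ.p n k := by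
  filter_upwards [σ.branches (4 * |L| + 1), ha (4 * |L| + 1)] with n h1 h2 k hk
  obtain ⟨h, hb, h0⟩ := h1 k hk
  have hr := σ.rpos n
  have hR : 0 < (4 * |L| + 1) * σ.r n := by positivity
  obtain ⟨t1, t2⟩ := σ.t_eq hR hb h0
  refine ⟨t2, fun y hy hB => ?_⟩
  obtain ⟨z, hz, hzz⟩ := koebe hR (hb.univ isOpen_ball) (show σ.p n k + σ.t n k * y ∈ _ by
    have h3 : 0 < ‖deriv h (σ.p n 0)‖ :=
      norm_pos_iff.mpr ((hb.univ isOpen_ball).ne _ (mem_ball_self hR))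
    rw [mem_ball, dist_eq_norm, h0, add_sub_cancel_left, t1, mul_assoc, norm_mul, σ.norm_r,
      mul_div_assoc]
    refine mul_lt_mul_of_pos_left ?_ h3
    nlinarith [le_abs_self L])
  have h3 : z ∈ (σ.Y n).B := by
    rw [← hb.inv z hz, hzz]
    exact (σ.Y n).iter_mem hB k
  rw [← hzz, h2 z h3 (by rwa [mem_ball, dist_eq_norm] at hz), h0]

theorem ratio_est {a φ u U : ℂ} {θ₁ θ₂ : ℂ} {s m η : ℝ} (hs : 0 < s) (hs1 : s ≤ 1 / 10)
    (h1 : ‖θ₁ - 1‖ ≤ s) (h2 : ‖θ₂ - 1‖ ≤ s) (ha : ‖1 - a‖ ≤ s) (hu : ‖u‖ ≤ m) (hU : ‖u - U‖ ≤ η)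
    (h : φ * θ₂ ^ 2 = a * u * θ₁ ^ 2) : ‖φ - U‖ ≤ 10 * s * m + η := by
  have n2 : 9 / 10 ≤ ‖θ₂‖ := by
    have := norm_sub_norm_le 1 θ₂
    rw [norm_one, norm_sub_rev] at this
    linarith
  have n1 : ‖θ₁‖ ≤ 11 / 10 := by
    have := norm_sub_norm_le θ₁ 1
    rw [norm_one] at this
    linarith
  have n3 : ‖θ₂‖ ≤ 11 / 10 := by
    have := norm_sub_norm_le θ₂ 1
    rw [norm_one] at this
    linarith
  have k : (φ - u) * θ₂ ^ 2 =
      u * (-(1 - a) * θ₁ ^ 2 + ((θ₁ - 1) - (θ₂ - 1)) * (θ₁ + θ₂)) := by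
    linear_combination h
  have k2 : ‖-(1 - a) * θ₁ ^ 2 + ((θ₁ - 1) - (θ₂ - 1)) * (θ₁ + θ₂)‖ ≤
      s * (11 / 10) ^ 2 + (s + s) * (11 / 10 + 11 / 10) := by
    refine (norm_add_le _ _).trans (add_le_add ?_ ?_)
    · rw [norm_mul, norm_neg, norm_pow]
      gcongr
    · rw [norm_mul]
      gcongr
      · exact (norm_sub_le _ _).trans (add_le_add h1 h2)
      · exact (norm_add_le _ _).trans (add_le_add n1 n3)
  have k3 : ‖φ - u‖ * (9 / 10) ^ 2 ≤ m * (s * (11 / 10) ^ 2 + (s + s) * (11 / 10 + 11 / 10)) := by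
    calc _ ≤ ‖φ - u‖ * ‖θ₂‖ ^ 2 := by gcongr
      _ = _ := by rw [← norm_pow, ← norm_mul, k, norm_mul]
      _ ≤ _ := by
        have := (norm_nonneg _).trans hu
        gcongr
  have hm := (norm_nonneg _).trans hu
  calc ‖φ - U‖ = ‖(φ - u) + (u - U)‖ := by ring_nf
    _ ≤ ‖φ - u‖ + ‖u - U‖ := norm_add_le _ _
    _ ≤ _ := by nlinarith [mul_nonneg hs.le hm]

/-- The same limit is seen from every point of the cycle. -/
theorem limit' (hal : σ.Alone) {U : ℂ → ℂ} (hU : Differentiable ℂ U)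
    (hlim : ∀ L η : ℝ, 0 < η →
    ∀ᶠ n in (σ.𝒰 : Filter ℕ), ∀ y ∈ ball (0 : ℂ) L, ‖σ.u n y - U y‖ ≤ η) (L : ℝ) {η : ℝ}
    (hη : 0 < η) : ∀ᶠ n in (σ.𝒰 : Filter ℕ), ∀ k < (σ.Y n).B.card,
      ∀ y ∈ ball (0 : ℂ) L, ‖σ.v n (k + 1) y - U y‖ ≤ η := by
  obtain ⟨s, ⟨h1, -⟩, hs⟩ := good_radius σ.Enull (lt_add_one (4 * |L|))
  have hs0 : 0 < s := lt_of_le_of_lt (by positivity) h1
  obtain ⟨m, hm⟩ := σ.u_sphere hs
  obtain ⟨δ, hδ, hcont⟩ := Metric.uniformContinuousOn_iff.mp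
    ((isCompact_closedBall (0 : ℂ) s).uniformContinuousOn_of_continuous
      hU.continuous.continuousOn) (η / 3) (by positivity)
  obtain ⟨a, ha, a1, a2, a3⟩ : ∃ a > 0, a ≤ 1 / 10 ∧ 10 * a * |m| ≤ η / 3 ∧ a * s < δ := by
    have c1 : ContinuousAt (fun a : ℝ => 10 * a * |m|) 0 := by fun_prop
    have c2 : ContinuousAt (fun a : ℝ => a * s) 0 := by fun_prop
    have e1 := c1.eventually (gt_mem_nhds (show 10 * (0 : ℝ) * |m| < η / 3 by simpa using hη))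
    have e2 := c2.eventually (gt_mem_nhds (show (0 : ℝ) * s < δ by simpa using hδ))
    have e3 : ∀ᶠ a : ℝ in 𝓝 0, a < 1 / 10 := gt_mem_nhds (by norm_num)
    obtain ⟨a, ⟨g1, g2, g3⟩, g4⟩ :=
      (((e1.and (e2.and e3)).filter_mono nhdsWithin_le_nhds).and
        (self_mem_nhdsWithin (a := (0 : ℝ)) (s := Ioi 0))).exists
    exact ⟨a, g4, g3.le, g1.le, g2⟩
  set R := 34 * s / a with hR
  have hsR : s < R := by
    rw [hR, lt_div_iff₀ ha]
    nlinarith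
  by_contra hc
  rw [← Ultrafilter.eventually_not] at hc
  have hex : ∀ n, ∃ (k : ℕ) (h : ℂ → ℂ) (y : ℂ), ((¬∀ k < (σ.Y n).B.card,
      ∀ y ∈ ball (0 : ℂ) L, ‖σ.v n (k + 1) y - U y‖ ≤ η) ∧ ∀ k ≤ (σ.Y n).B.card,
      ∃ h, Br (σ.Y n).T k h (ball (σ.p n 0) (R * σ.r n)) ∧ h (σ.p n 0) = σ.p n k) →
      (k < (σ.Y n).B.card ∧ Br (σ.Y n).T (k + 1) h (ball (σ.p n 0) (R * σ.r n)) ∧
        h (σ.p n 0) = σ.p n (k + 1)) ∧ ‖y‖ < L ∧ η < ‖σ.v n (k + 1) y - U y‖ := by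
    intro n
    by_contra hn
    push Not at hn
    obtain ⟨⟨⟨k, hk, y, hy, g1⟩, g2⟩, -⟩ := hn 0 0 0
    obtain ⟨h, hb, h0⟩ := g2 (k + 1) hk
    exact absurd ((hn k h y).2 ⟨hk, hb, h0⟩ (mem_ball_zero_iff.mp hy)) (not_le.mpr g1)
  choose k h y hx using hex
  have hev := (hc.and (σ.branches R)).mono hx
  have hα : ∀ᶠ n in (σ.𝒰 : Filter ℕ), ∀ x ∈ sphere (0 : ℂ) s, ‖1 - σ.α n (k n) (h n) x‖ ≤ a := by
    refine ev_compact (isCompact_sphere _ _) fun x hx => ?_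
    have hxs := mem_sphere_zero_iff_norm.mp hx
    obtain ⟨ε, hε, g⟩ := σ.unbranched' (hev.mono fun n hn => hn.1) x (fun h => hs x h hxs)
      (hxs ▸ hsR)
    exact ⟨ε, hε, g a ha⟩
  obtain ⟨n, ⟨⟨g1, hb, h0⟩, g2, g3⟩, g4, g5, g6, g7⟩ :=
    (hev.and (hα.and (hm.and ((hlim R (η / 3) (by positivity)).and (hal R))))).exists
  have hr := σ.rpos n
  have hR0 : 0 < R * σ.r n := mul_pos (hs0.trans hsR) hr
  have hu := hb.univ isOpen_ball
  obtain ⟨t1, t2⟩ := σ.t_eq hR0 hb h0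
  have hd0 : deriv (h n) (σ.p n 0) ≠ 0 := hu.ne _ (mem_ball_self hR0)
  have h34 : ∀ x : ℂ, ‖x‖ ≤ s → 34 * ‖σ.A n x - σ.p n 0‖ ≤ a * (R * σ.r n) := fun x hx => by
    rw [A, add_sub_cancel_left, σ.norm_r, hR, show a * (34 * s / a * σ.r n) = 34 * (σ.r n * s) by
      field_simp]
    gcongr
  have hval : ∀ x : ℂ, ‖x‖ ≤ s →
      ‖h n (σ.A n x) - σ.p n (k n + 1) - σ.t n (k n + 1) * x‖ ≤ a * (‖σ.t n (k n + 1)‖ * ‖x‖) :=
    fun x hx => by
      have := lin_val hR0 hu (η := a) (by linarith) (h34 x hx)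
      rw [h0, A, add_sub_cancel_left, ← mul_assoc, ← t1, mul_assoc, ← norm_mul, ← mul_assoc, ← t1,
        norm_mul] at this
      exact this
  have hW : ∀ x : ℂ, ‖x - 0‖ ≤ s →
      ‖(σ.Y n).U (σ.p n (k n + 1)) (h n (σ.A n x)) - U x‖ ≤ 10 * a * |m| + η / 3 := by
    refine max_disc hs0 hsR (fun x hx => ?_) fun x hx => ?_
    · have hxA := σ.A_mem0 (n := n).mpr (mem_ball_zero_iff.mp hx)
      refine (DifferentiableAt.sub (((σ.Y n).U_diff fun hB => ?_).comp x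
        ((hb.diff.differentiableAt (isOpen_ball.mem_nhds hxA)).comp x
          (σ.A_deriv n x).differentiableAt)) (hU x)).differentiableWithinAt
      have : σ.A n x ∈ (σ.Y n).B := by
        rw [← hb.inv _ hxA]
        exact (σ.Y n).iter_mem hB _
      change h n (σ.A n x) = _
      rw [g7 _ this (by rwa [mem_ball, dist_eq_norm] at hxA), h0]
    · rw [sub_zero] at hx
      have hx0 : x ≠ 0 := by
        rintro rfl
        simp at hx
        exact hs0.ne hx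
      have hxA := σ.A_mem0 (n := n).mpr (hx ▸ hsR)
      have htx : σ.t n (k n + 1) * x ≠ 0 := mul_ne_zero t2 hx0
      have hz0 := hb.ne_zero isOpen_ball (by omega) hxA
      have hne : h n (σ.A n x) - σ.p n (k n + 1) ≠ 0 := by
        rw [← h0]
        refine sub_ne_zero.mpr fun h1 => hx0 (σ.A_inj n ?_)
        rw [σ.A_zero]
        exact hu.inj hxA (mem_ball_self hR0) h1
      have hu0 : σ.u n x ≠ 0 := by
        intro h1
        have := g4 x (mem_sphere_zero_iff_norm.mpr hx)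
        change ‖1 - _ / σ.u n x‖ ≤ a at this
        rw [h1, div_zero, sub_zero, norm_one] at this
        linarith
      refine ratio_est (a := σ.α n (k n) (h n) x) (u := σ.u n x)
        (θ₁ := (h n (σ.A n x) - σ.p n (k n + 1)) / (σ.t n (k n + 1) * x))
        (θ₂ := deriv (h n) (σ.A n x) / deriv (h n) (σ.p n 0)) ha a1 ?_ ?_
        (g4 x (mem_sphere_zero_iff_norm.mpr hx))
        ((g5 x (mem_sphere_zero_iff_norm.mpr hx)).trans (le_abs_self m))
        (g6 x (mem_ball_zero_iff.mpr (hx ▸ hsR))) ?_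
      · rw [div_sub_one htx, norm_div, div_le_iff₀ (norm_pos_iff.mpr htx), norm_mul]
        exact hval x hx.le
      · rw [div_sub_one hd0, norm_div, div_le_iff₀ (norm_pos_iff.mpr hd0)]
        exact lin_deriv hR0 hu (by linarith) (h34 x hx.le)
      · have hder : deriv (fun v => fp (σ.Y n).T (h n v)) (σ.A n x) =
            lam (σ.Y n).T (h n (σ.A n x)) * deriv (h n) (σ.A n x) :=
          ((fp_deriv _).comp _ (hb.diff.hasDerivAt (isOpen_ball.mem_nhds hxA))).deriv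
        have hl := hz0
        have hr' := σ.r_ne n
        change _ = _ / σ.u n x * _ * _
        rw [dslope_of_ne _ hx0, dslope_of_ne _ hx0, slope_def_field, slope_def_field, hder,
          σ.A_zero, h0, t1, show σ.A n x - σ.p n 0 = σ.r n * x by simp [A], sub_zero]
        field_simp
  have hs' : 0 < s * σ.r n := mul_pos hs0 hr
  obtain ⟨z, hz, hzz⟩ := koebe hs' (hu.mono (ball_subset_ball (by gcongr)))
    (show σ.p n (k n + 1) + σ.t n (k n + 1) * y n ∈ _ by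
      rw [mem_ball, dist_eq_norm, h0, add_sub_cancel_left, t1, mul_assoc, norm_mul, σ.norm_r,
        mul_div_assoc]
      refine mul_lt_mul_of_pos_left ?_ (norm_pos_iff.mpr hd0)
      nlinarith [le_abs_self L])
  have hz' : σ.A n ((z - σ.p n 0) / σ.r n) = z := by
    have := σ.r_ne n
    simp only [A]
    field_simp
    ring
  set x := (z - σ.p n 0) / σ.r n
  have hxs : ‖x‖ < s := σ.A_mem0.mp (hz'.symm ▸ hz)
  have k1 := hW x (by rw [sub_zero]; exact hxs.le)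
  have k2 := hval x hxs.le
  rw [hz', hzz] at k1 k2
  rw [add_sub_cancel_left, ← mul_sub, norm_mul, mul_left_comm] at k2
  have k3 := le_of_mul_le_mul_left k2 (norm_pos_iff.mpr t2)
  have k4 := hcont x (mem_closedBall_zero_iff.mpr hxs.le) (y n)
    (mem_closedBall_zero_iff.mpr (by linarith [le_abs_self L, abs_nonneg L])) (by
      rw [dist_eq_norm, norm_sub_rev]
      nlinarith)
  rw [dist_eq_norm] at k4
  have k5 := norm_sub_le_norm_sub_add_norm_sub (σ.v n (k n + 1) (y n)) (U x) (U (y n))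
  change ‖σ.v n (k n + 1) (y n) - U x‖ ≤ _ at k1
  linarith

/-- Solutions near every point of `T` in every chart give many different points. -/
theorem count (ha : σ.Alone) (T : Finset ℂ) {Q : ℕ → ℂ → Prop}
    (h : ∀ x ∈ T, ∀ ε > 0, ∀ᶠ n in (σ.𝒰 : Filter ℕ), ∀ k < (σ.Y n).B.card, ∃ y ∈ ball x ε,
      Q n (σ.p n (k + 1) + σ.t n (k + 1) * y)) :
    ∃ n, ∃ Z : Finset ℂ, Z.card = T.card * (σ.Y n).B.card ∧ ∀ z ∈ Z, Q n z := by
  classical
  obtain ⟨ε, hε, hε1, hsep⟩ : ∃ ε > 0, ε ≤ 1 ∧ ∀ x ∈ T, ∀ x' ∈ T, x ≠ x' → 2 * ε ≤ ‖x - x'‖ := by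
    have : ∀ᶠ ε : ℝ in 𝓝 0, ∀ w ∈ T ×ˢ T, w.1 ≠ w.2 → 2 * ε ≤ ‖w.1 - w.2‖ := by
      refine (Filter.eventually_all_finset _).mpr fun w _ => ?_
      by_cases hw : w.1 = w.2
      · exact Eventually.of_forall fun _ h => absurd hw h
      · have c1 : ContinuousAt (fun a : ℝ => 2 * a) 0 := by fun_prop
        exact (c1.eventually (gt_mem_nhds (show 2 * (0 : ℝ) < ‖w.1 - w.2‖ by
          simpa [sub_eq_zero] using hw))).mono fun a ha _ => ha.le
    obtain ⟨a, ⟨g1, g2⟩, g3⟩ := (((this.and (gt_mem_nhds (zero_lt_one' ℝ))).filter_mono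
      nhdsWithin_le_nhds).and (self_mem_nhdsWithin (a := (0 : ℝ)) (s := Ioi 0))).exists
    exact ⟨a, g3, g2.le, fun x hx x' hx' => g1 (x, x') (Finset.mk_mem_product hx hx')⟩
  obtain ⟨L, hL⟩ := T.finite_toSet.isBounded.subset_ball 0
  obtain ⟨n, g1, g2⟩ := (((Filter.eventually_all_finset T).mpr fun x hx => h x hx ε hε).and
    (σ.alone' ha (2 * (L + 1)))).exists
  have hex : ∀ w : ℂ × ℕ, ∃ y, w ∈ T ×ˢ Finset.range (σ.Y n).B.card → y ∈ ball w.1 ε ∧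
      Q n (σ.p n (w.2 + 1) + σ.t n (w.2 + 1) * y) := fun w => by
    by_cases hw : w ∈ T ×ˢ Finset.range (σ.Y n).B.card
    · obtain ⟨y, hy⟩ := g1 w.1 (Finset.mem_product.mp hw).1 w.2
        (Finset.mem_range.mp (Finset.mem_product.mp hw).2)
      exact ⟨y, fun _ => hy⟩
    · exact ⟨0, fun h => absurd h hw⟩
  choose y hy using hex
  have hyL : ∀ w ∈ T ×ˢ Finset.range (σ.Y n).B.card, ‖y w‖ < L + 1 := fun w hw => by
    have a1 := (hy w hw).1
    have a2 := mem_ball_zero_iff.mp (hL (Finset.mem_product.mp hw).1)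
    rw [mem_ball, dist_eq_norm] at a1
    linarith [norm_le_norm_add_norm_sub' (y w) w.1]
  have key : ∀ w ∈ T ×ˢ Finset.range (σ.Y n).B.card, ∀ w' ∈ T ×ˢ Finset.range (σ.Y n).B.card,
      ‖σ.t n (w'.2 + 1)‖ ≤ ‖σ.t n (w.2 + 1)‖ →
      σ.p n (w.2 + 1) + σ.t n (w.2 + 1) * y w = σ.p n (w'.2 + 1) + σ.t n (w'.2 + 1) * y w' →
      w = w' := by
    intro w hw w' hw' hle heq
    have k1 := Finset.mem_range.mp (Finset.mem_product.mp hw).2
    have k2 := Finset.mem_range.mp (Finset.mem_product.mp hw').2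
    obtain ⟨t0, ht⟩ := g2 (w.2 + 1) k1
    have h1 : σ.p n (w.2 + 1) + σ.t n (w.2 + 1) *
        (y w - σ.t n (w'.2 + 1) / σ.t n (w.2 + 1) * y w') = σ.p n (w'.2 + 1) := by
      field_simp
      linear_combination heq
    have h2 := ht (y w - σ.t n (w'.2 + 1) / σ.t n (w.2 + 1) * y w') (by
      refine (norm_sub_le _ _).trans_lt ?_
      rw [norm_mul, norm_div]
      have a1 : ‖σ.t n (w'.2 + 1)‖ / ‖σ.t n (w.2 + 1)‖ ≤ 1 := div_le_one_of_le₀ hle (norm_nonneg _)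
      nlinarith [hyL w hw, hyL w' hw', norm_nonneg (y w')]) (h1 ▸ σ.pmem n _)
    rw [h1] at h2
    have h3 : w'.2 = w.2 := σ.pinj n _ k2 _ k1 (by rw [← σ.pstep, h2, σ.pstep])
    rw [h3] at heq
    have h4 := mul_left_cancel₀ t0 (add_left_cancel heq)
    refine Prod.ext ?_ h3.symm
    by_contra hne
    have a1 := hsep _ (Finset.mem_product.mp hw).1 _ (Finset.mem_product.mp hw').1 hne
    have a2 := (hy w hw).1
    have a3 := (hy w' hw').1
    rw [mem_ball, dist_eq_norm] at a2 a3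
    rw [← h4] at a3
    have := norm_sub_le_norm_sub_add_norm_sub w.1 (y w) w'.1
    rw [norm_sub_rev] at a2
    linarith
  refine ⟨n, (T ×ˢ Finset.range (σ.Y n).B.card).image
    fun w => σ.p n (w.2 + 1) + σ.t n (w.2 + 1) * y w, ?_, fun z hz => ?_⟩
  · rw [Finset.card_image_of_injOn, Finset.card_product, Finset.card_range]
    intro w hw w' hw' heq
    rcases le_total ‖σ.t n (w'.2 + 1)‖ ‖σ.t n (w.2 + 1)‖ with hle | hle
    · exact key w hw w' hw' hle heq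
    · exact (key w' hw' w hw hle heq.symm).symm
  · obtain ⟨w, hw, rfl⟩ := Finset.mem_image.mp hz
    exact (hy w hw).2

theorem lim_zero {U : ℂ → ℂ} (hlim : ∀ L η : ℝ, 0 < η →
    ∀ᶠ n in (σ.𝒰 : Filter ℕ), ∀ y ∈ ball (0 : ℂ) L, ‖σ.u n y - U y‖ ≤ η) : U 0 = 1 := by
  refine eq_of_norm_sub_le_zero (le_of_forall_pos_le_add fun η hη => ?_)
  obtain ⟨n, hn⟩ := (hlim 1 η hη).exists
  have := hn 0 (mem_ball_self one_pos)
  rwa [σ.u_zero, norm_sub_rev, ← zero_add η] at this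

theorem sol (ha : σ.Alone) {U : ℂ → ℂ} (hU : Differentiable ℂ U)
    (hlim : ∀ L η : ℝ, 0 < η →
      ∀ᶠ n in (σ.𝒰 : Filter ℕ), ∀ y ∈ ball (0 : ℂ) L, ‖σ.u n y - U y‖ ≤ η) :
    ∀ w : ℂ, w ≠ 4 → ∀ x : ℂ, ∀ ε > 0, ∀ᶠ n in (σ.𝒰 : Filter ℕ), ∀ k < (σ.Y n).B.card,
      (U x = 0 → ∃ y ∈ ball x ε, (σ.Y n).N.eval (σ.p n (k + 1) + σ.t n (k + 1) * y) = 0) ∧
      (Eu U x ^ 2 = w * U x ^ 3 → ∃ y ∈ ball x ε, ((σ.Y n).M ^ 2 - C w * (σ.Y n).N ^ 3).eval
        (σ.p n (k + 1) + σ.t n (k + 1) * y) = 0) := by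
  have hU0 := σ.lim_zero hlim
  intro w hw x ε hε
  obtain ⟨η, hη, h1⟩ := hurwitz hU hU0 hw x (lt_min hε one_pos)
  filter_upwards [σ.limit' ha hU hlim (‖x‖ + 2) hη, σ.alone' ha (‖x‖ + 2)] with n g1 g2 k hk
  obtain ⟨-, g3⟩ := g2 (k + 1) hk
  obtain ⟨a1, a2⟩ := h1 (σ.v n (k + 1)) (fun y hy =>
    (((σ.Y n).U_diff (g3 y (mem_ball_zero_iff.mp hy))).comp y
      (by fun_prop)).differentiableWithinAt) (g1 k hk)
  have hy : ∀ y ∈ ball x (min ε 1), ‖y‖ < ‖x‖ + 2 := fun y hy => by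
    rw [mem_ball, dist_eq_norm] at hy
    linarith [norm_le_norm_add_norm_sub' y x, min_le_right ε 1]
  refine ⟨fun h => ?_, fun h => ?_⟩
  · obtain ⟨y, b1, b2⟩ := a1 h
    exact ⟨y, ball_subset_ball (min_le_left _ _) b1,
      ((σ.Y n).chart (σ.pmem n _) (g3 y (hy y b1))).1.mp b2⟩
  · obtain ⟨y, b1, b2⟩ := a2 h
    exact ⟨y, ball_subset_ball (min_le_left _ _) b1,
      (((σ.Y n).chart (σ.pmem n _) (g3 y (hy y b1))).2.2 w).mp b2⟩

theorem finish (ha : σ.Alone) {U : ℂ → ℂ} (hU : Differentiable ℂ U)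
    (hlim : ∀ L η : ℝ, 0 < η →
      ∀ᶠ n in (σ.𝒰 : Filter ℕ), ∀ y ∈ ball (0 : ℂ) L, ‖σ.u n y - U y‖ ≤ η)
    (hne : ∀ x, U x ≠ 0) : False := by
  classical
  have hU0 := σ.lim_zero hlim
  have hsol := σ.sol ha hU hlim
  have hone := entire_one hU hU0 hne fun w hw T hT => by
    obtain ⟨n, Z, h1, h2⟩ := σ.count ha T
      (Q := fun n z => ((σ.Y n).M ^ 2 - C w * (σ.Y n).N ^ 3).eval z = 0)
      (fun x hx ε hε => (hsol w hw x ε hε).mono fun n hn k hk => (hn k hk).2 (hT x hx))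
    have := (σ.Y n).W_card hw h2
    rw [h1] at this
    have := lt_of_mul_lt_mul_right this (Nat.zero_le _)
    omega
  obtain ⟨η, hη, h1⟩ := near_one'
  obtain ⟨n, g1, g2, g3, g4⟩ :=
    ((hlim 4 η hη).and ((σ.u_diffOn ha 4).and ((ha 2).and (σ.branches 2)))).exists
  obtain ⟨y, hy0, hy, h2⟩ := (σ.touch n).resolve_right (not_not.mpr g4)
  obtain ⟨a1, a2, a3⟩ := h1 (σ.u n) g2 (fun y hy => hone y ▸ g1 y hy) y hy
  have hr := σ.rpos n
  have hB : σ.p n 0 + σ.r n * y ∉ (σ.Y n).B := fun h => by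
    have := g3 _ h (by rw [add_sub_cancel_left, σ.norm_r]; nlinarith)
    rw [add_eq_left, mul_eq_zero] at this
    exact this.elim (σ.r_ne n) hy0
  obtain ⟨k1, k2, k3⟩ := (σ.Y n).chart (σ.pmem n 0) (t := σ.r n) (y := y) fun h => absurd h hB
  rcases h2 with h | h | h | h
  · exact hB h
  · exact a1 (k1.mpr h)
  · exact a2 (k2.mpr h)
  · exact a3 (((k3 1).mpr h).trans (one_mul _))

/-- The case that the multipliers stay away from `1`. -/
theorem case_ne {ρ : ℂ} (hρ : Tendsto (fun n => (σ.Y n).ρ) σ.𝒰 (𝓝 ρ))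
    (hρ1 : ρ ≠ 1) : False := by
  classical
  have hη : 0 < ‖ρ - 1‖ := norm_pos_iff.mpr (sub_ne_zero.mpr hρ1)
  have ha := σ.alone (half_pos hη) (((hρ.sub_const 1).norm.eventually
    (lt_mem_nhds (half_lt_self hη))).mono fun n hn => hn.le)
  obtain ⟨U, hU, hlim⟩ := σ.limit ha
  have hU0 := σ.lim_zero hlim
  have hsol := σ.sol ha hU hlim
  refine σ.finish ha hU hlim ?_
  intro x hx
  have hx0 : x ≠ 0 := by
    rintro rfl
    simp [hU0] at hx
  have hρ0 : ρ ≠ 0 := norm_pos_iff.mp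
    (one_half_pos.trans_le (ge_of_tendsto' hρ.norm σ.ρlo))
  have ht : Tendsto (fun n => x / (σ.Y n).ρ) σ.𝒰 (𝓝 (x / ρ)) := tendsto_const_nhds.div hρ hρ0
  have hx' : U (x / ρ) = 0 := by
    refine norm_le_zero_iff.mp (le_of_forall_pos_le_add fun η hη => ?_)
    obtain ⟨n, g1, g2, g3, g4⟩ := ((σ.limit' ha hU hlim (‖x‖ + 1) (η := η / 3) (by positivity)).and
      ((hlim (‖x / ρ‖ + 1) (η / 3) (by positivity)).and
        ((ht.norm.eventually (gt_mem_nhds (lt_add_one _))).and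
          (((hU.continuous.tendsto _).comp ht).eventually
            (ball_mem_nhds _ (show 0 < η / 3 by positivity)))))).exists
    have hP : 0 < (σ.Y n).B.card := (σ.Y n).ne.card_pos
    have a1 := g1 ((σ.Y n).B.card - 1) (by omega) x (by simp)
    rw [Nat.sub_add_cancel hP, v, t, σ.p_card, (σ.Y n).mult _ (σ.pmem n 0), hx, sub_zero,
      div_mul_eq_mul_div, mul_div_assoc] at a1
    have a2 := g2 _ (mem_ball_zero_iff.mpr g3)
    rw [dist_eq_norm, norm_sub_rev] at g4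
    have a3 := norm_sub_le_norm_sub_add_norm_sub (U (x / ρ)) (U (x / (σ.Y n).ρ))
      (σ.u n (x / (σ.Y n).ρ))
    have a4 := norm_le_norm_add_norm_sub' (U (x / ρ)) (σ.u n (x / (σ.Y n).ρ))
    rw [norm_sub_rev] at a2
    change ‖σ.u n (x / (σ.Y n).ρ)‖ ≤ _ at a1
    change ‖U (x / ρ) - U (x / (σ.Y n).ρ)‖ < _ at g4
    linarith
  have hxx : x ≠ x / ρ := fun h => hρ1 (by
    field_simp at h
    exact h)
  obtain ⟨n, Z, h1, h2⟩ := σ.count ha {x, x / ρ} (Q := fun n z => (σ.Y n).N.eval z = 0)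
    (fun x' hx'' ε hε => (hsol 0 (by norm_num) x' ε hε).mono fun n hn k hk => (hn k hk).1 (by
      rcases Finset.mem_insert.mp hx'' with rfl | h
      · exact hx
      · rw [Finset.mem_singleton.mp h, hx']))
  rw [Finset.card_pair hxx] at h1
  exact absurd ((σ.Y n).N_card h2) (by omega)

end Setup

end Pool.Agent.MP_28f8a1_an.G42

end

-- part MP_28f8a1_an.G42.Par
section

/-! The case that the multipliers tend to `1`. -/

set_option autoImplicit false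

namespace Pool.Agent.MP_28f8a1_an.G42

open MeasureTheory Metric Set Real Filter Topology Polynomial Pool.Agent.MP_28f8a1_an.H42
open scoped ENNReal

variable {d : ℕ} {Λ : ℝ}

theorem lin_two {h : ℂ → ℂ} {x : ℂ} {R : ℝ} (hR : 0 < R) (hh : Univ h (ball x R)) {z z' : ℂ}
    {η : ℝ} (hη : η < 17) (hz : 34 * ‖z - x‖ ≤ η * R) (hz' : 34 * ‖z' - x‖ ≤ η * R) :
    ‖h z' - h z - deriv h x * (z' - z)‖ ≤ η * ‖deriv h x‖ * ‖z' - z‖ := by
  have hsub : closedBall x (η * R / 34) ⊆ ball x R := closedBall_subset_ball (by nlinarith)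
  have h1 := (convex_closedBall x (η * R / 34)).norm_image_sub_le_of_norm_hasDerivWithin_le
    (f := fun v => h v - deriv h x * v) (f' := fun v => deriv h v - deriv h x)
    (C := η * ‖deriv h x‖) (x := z) (y := z')
    (fun v hv => by
      have := (hh.hasDerivAt isOpen_ball (hsub hv)).sub ((hasDerivAt_id v).const_mul (deriv h x))
      rw [mul_one] at this
      exact this.hasDerivWithinAt)
    (fun v hv => lin_deriv hR hh hη (by
      rw [mem_closedBall, dist_eq_norm] at hv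
      linarith))
    (by rw [mem_closedBall, dist_eq_norm]; linarith) (by rw [mem_closedBall, dist_eq_norm]; linarith)
  rwa [show h z' - deriv h x * z' - (h z - deriv h x * z) = h z' - h z - deriv h x * (z' - z) by
    ring] at h1

theorem small_pos {f : ℝ → ℝ} (hf : ContinuousAt f 0) {c : ℝ} (h : f 0 < c) {b : ℝ} (hb : 0 < b) :
    ∃ a > 0, a ≤ b ∧ ∀ a' > 0, a' ≤ a → f a' < c := by
  obtain ⟨ε, hε, h1⟩ := Metric.eventually_nhds_iff.mp (hf.eventually (gt_mem_nhds h))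
  refine ⟨min b (ε / 2), by positivity, min_le_left _ _, fun a' h2 h3 => h1 ?_⟩
  rw [Real.dist_eq, sub_zero, abs_of_pos h2]
  linarith [min_le_right b (ε / 2)]

theorem deriv_close {f F : ℂ → ℂ} (hf : Differentiable ℂ f) (hF : Differentiable ℂ F) {η : ℝ}
    (h : ∀ y ∈ ball (0 : ℂ) 2, ‖f y - F y‖ ≤ η) : ‖deriv f 0 - deriv F 0‖ ≤ η := by
  have := Complex.norm_deriv_le_of_forall_mem_sphere_norm_le (c := 0) (R := 1) (C := η)
    (f := fun y => f y - F y) one_pos (hf.sub hF).diffContOnCl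
    (fun y hy => h y (sphere_subset_ball (by norm_num) hy))
  rwa [deriv_fun_sub (hf 0) (hF 0), div_one] at this

namespace Setup

variable (σ : Setup d Λ)

theorem unbranched {L : ℝ} {k : ℕ → ℕ} {h : ℕ → ℂ → ℂ}
    (hh : ∀ᶠ n in (σ.𝒰 : Filter ℕ), k n < (σ.Y n).B.card ∧
      Br (σ.Y n).T (k n + 1) (h n) (ball (σ.p n 0) (L * σ.r n)) ∧
      h n (σ.p n 0) = σ.p n (k n + 1)) :
    ∀ x ∉ σ.E, ‖x‖ < L → ∃ ε > 0, ∃ C : ℝ, ∀ᶠ n in (σ.𝒰 : Filter ℕ), ∀ y ∈ ball x ε,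
      ‖1 - σ.α n (k n) (h n) y‖ ≤ C * ‖(σ.Y n).ρ - 1‖ := by
  intro x hx hxL
  have hL : 0 < L := (norm_nonneg _).trans_lt hxL
  obtain ⟨h1, h2⟩ := σ.unb_est hL hh
  obtain ⟨C', hC', h4⟩ := σ.rate (Λ + 2 * Λ * L) (σ.Λle hL)
  have hτ : ∀ (n : ℕ) (a : ℂ), ‖(‖(σ.Y n).ρ - 1‖⁻¹ : ℝ) * a‖ = ‖(σ.Y n).ρ - 1‖⁻¹ * ‖a‖ :=
    fun n a => by rw [norm_mul, Complex.norm_real, Real.norm_eq_abs, abs_of_nonneg (by positivity)]
  obtain ⟨ε, hε, C, hs⟩ := align_bd (l := σ.𝒰)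
    (α := fun n y => (‖(σ.Y n).ρ - 1‖⁻¹ : ℝ) * (1 - σ.α n (k n) (h n) y))
    (preconn_diff isOpen_ball (convex_ball (0 : ℂ) L).isPreconnected σ.Ecl σ.Enull)
    (fun x hx => by
      obtain ⟨ε, hε, C, hC, h3⟩ := h1 x hx
      refine ⟨ε, hε, C * C', h3.mono fun n g1 => ⟨g1.1.const_mul _, ?_⟩⟩
      have hτ0 := σ.τ_pos n
      refine (LI_mono (v := fun y => ‖(σ.Y n).ρ - 1‖⁻¹ * (‖1 - σ.α n (k n) (h n) y‖ -
        (1 - σ.α n (k n) (h n) y).re)) measurableSet_ball fun y _ => ?_).trans ?_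
      · rw [hτ, Complex.re_ofReal_mul, ← mul_sub]
      · rw [LI_const_mul _ (by positivity)]
        refine (mul_le_mul_right (g1.2.trans (mul_le_mul_right (h4 n) _)) _).trans_eq ?_
        rw [← ENNReal.ofReal_mul hC, ← ENNReal.ofReal_mul (by positivity)]
        congr 1
        field_simp)
    (x₀ := 0) ⟨mem_ball_self hL, σ.E0⟩ (h2.mono fun n hn => by rw [hn, mul_zero]) x
    ⟨mem_ball_zero_iff.mpr hxL, hx⟩
  refine ⟨ε, hε, C, hs.mono fun n hn y hy => ?_⟩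
  have := hn y hy
  rwa [hτ, inv_mul_le_iff₀ (σ.τ_pos n), mul_comm] at this

/-- The return map. -/
noncomputable def Fr (n : ℕ) : ℂ → ℂ := (fp (σ.Y n).T)^[(σ.Y n).B.card]

noncomputable def Φ (n : ℕ) : ℂ[X] := ((σ.Y n).poly (σ.ρne n)).choose

noncomputable def Ψ (n : ℕ) : ℂ[X] := ((σ.Y n).poly (σ.ρne n)).choose_spec.choose

theorem Φ_eq (n : ℕ) (z : ℂ) : (σ.Φ n).eval z = σ.Fr n z - z :=
  ((σ.Y n).poly (σ.ρne n)).choose_spec.choose_spec.1 z

theorem Ψ_eq (n : ℕ) {z : ℂ} (hz : z ∉ (σ.Y n).B) :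
    (σ.Ψ n).eval z = ((σ.Fr n z - z) / ((σ.Y n).ρ - 1)) ^ 2 * (σ.Y n).q z :=
  σ.Φ_eq n z ▸ ((σ.Y n).poly (σ.ρne n)).choose_spec.choose_spec.2.1 z hz

theorem Ψ_ne (n : ℕ) {z : ℂ} (hz : (σ.Ψ n).eval z ≠ 0) :
    (σ.Y n).N.eval z ≠ 0 ∧ ((σ.Φ n).eval z = 0 → z ∈ (σ.Y n).B) :=
  ((σ.Y n).poly (σ.ρne n)).choose_spec.choose_spec.2.2 z hz

theorem G_deriv {n : ℕ} {G : ℂ → ℂ} {R : ℝ} (hR : 0 < R)
    (hG : Br (σ.Y n).T (σ.Y n).B.card G (ball (σ.p n 0) R)) (h0 : G (σ.p n 0) = σ.p n 0) :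
    deriv G (σ.p n 0) = (σ.Y n).ρ⁻¹ ∧ 1 / 2 ≤ ‖deriv G (σ.p n 0)‖ ∧ ‖deriv G (σ.p n 0)‖ ≤ 2 := by
  have hd := hG.mul_deriv isOpen_ball (mem_ball_self hR)
  rw [h0, (σ.Y n).mult _ (σ.pmem n 0)] at hd
  have hn1 : ‖(σ.Y n).ρ‖ * ‖deriv G (σ.p n 0)‖ = 1 := by rw [← norm_mul, hd, norm_one]
  refine ⟨eq_inv_of_mul_eq_one_right hd, ?_, ?_⟩ <;>
    nlinarith [σ.ρhi n, σ.ρlo n, norm_nonneg (deriv G (σ.p n 0))]

theorem ret_inv {n : ℕ} {G : ℂ → ℂ} {R s : ℝ} (hs : s ≤ R)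
    (hG : Br (σ.Y n).T (σ.Y n).B.card G (ball (σ.p n 0) (R * σ.r n)))
    (h0 : G (σ.p n 0) = σ.p n 0) {y : ℂ} (hy : 8 * ‖y‖ < s) :
    σ.Fr n (σ.A n y) ∈ ball (σ.p n 0) (s * σ.r n) ∧ G (σ.Fr n (σ.A n y)) = σ.A n y := by
  have hr := σ.rpos n
  have hs0 : 0 < s := lt_of_le_of_lt (by positivity) hy
  have hsub : ball (σ.p n 0) (s * σ.r n) ⊆ ball (σ.p n 0) (R * σ.r n) :=
    ball_subset_ball (by gcongr)
  obtain ⟨-, h1, -⟩ := σ.G_deriv (mul_pos (hs0.trans_le hs) hr) hG h0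
  obtain ⟨z, hz, hzz⟩ := koebe (mul_pos hs0 hr) ((hG.univ isOpen_ball).mono hsub)
    (show σ.A n y ∈ _ by
      rw [mem_ball, dist_eq_norm, h0, A, add_sub_cancel_left, σ.norm_r]
      have : 1 / 2 * (s * σ.r n) ≤ ‖deriv G (σ.p n 0)‖ * (s * σ.r n) := by gcongr
      nlinarith)
  have : σ.Fr n (σ.A n y) = z := by rw [← hzz, Fr, hG.inv z (hsub hz)]
  rw [this]
  exact ⟨hz, hzz⟩

theorem near_id (hρ : Tendsto (fun n => (σ.Y n).ρ) σ.𝒰 (𝓝 1)) (L : ℝ) {η : ℝ}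
    (hη : 0 < η) : ∀ᶠ n in (σ.𝒰 : Filter ℕ), ∀ y ∈ ball (0 : ℂ) L,
      ‖(σ.Fr n (σ.A n y) - σ.A n y) / σ.r n‖ ≤ η := by
  set s := 8 * |L| + 1 with hs
  have hs0 : 0 < s := by positivity
  obtain ⟨a, ha, a1, a2⟩ : ∃ a > 0, a ≤ 1 ∧ 3 * a * s ≤ η :=
    ⟨min 1 (η / (3 * s)), by positivity, min_le_left _ _, by
      have := (le_div_iff₀ (by positivity)).mp (min_le_right 1 (η / (3 * s)))
      linarith⟩
  have ht : Tendsto (fun n => ‖(σ.Y n).ρ⁻¹ - 1‖) σ.𝒰 (𝓝 0) := by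
    simpa using ((hρ.inv₀ one_ne_zero).sub_const 1).norm
  filter_upwards [σ.branches (34 * s / a), ht.eventually (gt_mem_nhds ha)] with n hn h2 y hy
  obtain ⟨G, hG, h0⟩ := hn _ le_rfl
  rw [σ.p_card] at h0
  have hr := σ.rpos n
  have hR : 0 < 34 * s / a * σ.r n := by positivity
  obtain ⟨d1, -, d3⟩ := σ.G_deriv hR hG h0
  obtain ⟨h3, h4⟩ := σ.ret_inv (s := s) (by rw [le_div_iff₀ ha]; nlinarith) hG h0 (y := y) (by
    linarith [mem_ball_zero_iff.mp hy, le_abs_self L])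
  rw [mem_ball, dist_eq_norm] at h3
  have h5 := lin_val hR (hG.univ isOpen_ball) (η := a) (z := σ.Fr n (σ.A n y)) (by linarith) (by
    rw [show a * (34 * s / a * σ.r n) = 34 * (s * σ.r n) by field_simp]
    linarith)
  rw [h4, h0] at h5
  rw [norm_div, Complex.norm_real, Real.norm_eq_abs, abs_of_pos hr, div_le_iff₀ hr, norm_sub_rev]
  calc _ = ‖(σ.A n y - σ.p n 0 - deriv G (σ.p n 0) * (σ.Fr n (σ.A n y) - σ.p n 0)) +
        ((σ.Y n).ρ⁻¹ - 1) * (σ.Fr n (σ.A n y) - σ.p n 0)‖ := by rw [d1]; ring_nf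
    _ ≤ a * 2 * (s * σ.r n) + a * (s * σ.r n) := by
        refine (norm_add_le _ _).trans (add_le_add (h5.trans ?_) ?_)
        · gcongr
        · rw [norm_mul]
          gcongr
    _ ≤ _ := by nlinarith

theorem α_eq {n k : ℕ} {h : ℂ → ℂ} {R : ℝ}
    (hb : Br (σ.Y n).T (k + 1) h (ball (σ.p n 0) (R * σ.r n)))
    (h0 : h (σ.p n 0) = σ.p n (k + 1)) {x : ℂ} (hx0 : x ≠ 0) (hx : ‖x‖ < R) (hu0 : σ.u n x ≠ 0) :
    h (σ.A n x) - σ.p n (k + 1) ≠ 0 ∧
      σ.α n k h x * σ.u n x * (h (σ.A n x) - σ.p n (k + 1)) ^ 2 =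
        (σ.Y n).U (σ.p n (k + 1)) (h (σ.A n x)) * (σ.r n * x) ^ 2 * deriv h (σ.A n x) ^ 2 := by
  have hxA := σ.A_mem0 (n := n).mpr hx
  have hR0 : 0 < R * σ.r n := mul_pos ((norm_nonneg _).trans_lt hx) (σ.rpos n)
  have hz0 := hb.ne_zero isOpen_ball (by omega) hxA
  have hne : h (σ.A n x) - σ.p n (k + 1) ≠ 0 := by
    rw [← h0]
    refine sub_ne_zero.mpr fun h1 => hx0 (σ.A_inj n ?_)
    rw [σ.A_zero]
    exact (hb.univ isOpen_ball).inj hxA (mem_ball_self hR0) h1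
  refine ⟨hne, ?_⟩
  have hder : deriv (fun v => fp (σ.Y n).T (h v)) (σ.A n x) =
      lam (σ.Y n).T (h (σ.A n x)) * deriv h (σ.A n x) :=
    ((fp_deriv _).comp _ (hb.diff.hasDerivAt (isOpen_ball.mem_nhds hxA))).deriv
  have hl := hz0
  change _ / σ.u n x * _ * _ = _
  rw [dslope_of_ne _ hx0, dslope_of_ne _ hx0, slope_def_field, slope_def_field, hder,
    σ.A_zero, h0, show σ.A n x - σ.p n 0 = σ.r n * x by simp [A], sub_zero]
  field_simp

theorem sphere_B {s : ℝ} (hs : ∀ x ∈ σ.E, ‖x‖ ≠ s) : ∀ᶠ n in (σ.𝒰 : Filter ℕ),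
    ∀ y ∈ sphere (0 : ℂ) s, σ.A n y ∈ (σ.Y n).B → σ.A n y = σ.p n 0 :=
  ev_compact (isCompact_sphere _ _) fun x hx => by
    obtain ⟨ε, hε, g⟩ := σ.Eaway x fun h => hs x h (mem_sphere_zero_iff_norm.mp hx)
    exact ⟨ε, hε, g.mono fun n hn y hy => (hn y hy).1⟩

theorem Fr_diff (n : ℕ) : Differentiable ℂ (σ.Fr n) := iter_diff _

/-- The limit vector field in the chart at the base point. -/
theorem field (hρ : Tendsto (fun n => (σ.Y n).ρ) σ.𝒰 (𝓝 1)) :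
    ∃ W V : ℂ → ℂ, Differentiable ℂ W ∧ Differentiable ℂ V ∧ deriv W 0 = 1 ∧ deriv V 0 = 0 ∧
      (∀ L η : ℝ, 0 < η → ∀ᶠ n in (σ.𝒰 : Filter ℕ), ∀ y ∈ ball (0 : ℂ) L,
        ‖(σ.Fr n (σ.A n y) - σ.A n y) / σ.r n / ((σ.Y n).ρ - 1) - W y‖ ≤ η) ∧
      ∀ L η : ℝ, 0 < η → ∀ᶠ n in (σ.𝒰 : Filter ℕ), ∀ y ∈ ball (0 : ℂ) L,
        ‖(σ.Ψ n).eval (σ.A n y) - V y‖ ≤ η := by
  set h : ℕ → ℂ → ℂ := fun n y => (σ.Fr n (σ.A n y) - σ.A n y) / σ.r n with hh
  have hd : ∀ n y, HasDerivAt (h n) (Pd (σ.Y n).T (σ.A n y) (σ.Y n).B.card - 1) y :=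
    fun n y => by
      have := ((((iter_deriv (T := (σ.Y n).T) (σ.Y n).B.card (σ.A n y)).comp y
        (σ.A_deriv n y)).sub (σ.A_deriv n y)).div_const (σ.r n : ℂ))
      refine this.congr_deriv ?_
      have := σ.r_ne n
      field_simp
  have hA : ∀ n y, σ.A n (y + h n y) = σ.Fr n (σ.A n y) := fun n y => by
    have := σ.r_ne n
    simp only [hh, A]
    field_simp
    ring
  have h0 : ∀ n, h n 0 = 0 := fun n => by
    simp only [hh, σ.A_zero, Fr, (σ.Y n).fix _ (σ.pmem n 0), sub_self, zero_div]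
  have h1 : ∀ n, deriv (h n) 0 = (σ.Y n).ρ - 1 := fun n => by
    rw [(hd n 0).deriv, σ.A_zero, (σ.Y n).mult _ (σ.pmem n 0)]
  have hτ : ∀ n, (σ.Y n).ρ - 1 ≠ 0 := fun n => sub_ne_zero.mpr (σ.ρne n)
  obtain ⟨W, hW, c1⟩ := vector_field_bd σ.𝒰 σ.Ecl σ.Enull σ.E0 (h := h) (u := σ.u) hτ
    (fun n y => (hd n y).differentiableAt) h0 h1 (fun L η hη => σ.near_id hρ L hη) σ.u_zero
    (fun x hx => by
      obtain ⟨ε₁, hε₁, m, hm, b1⟩ := σ.u_bounds x hx
      set R := 8 * ‖x‖ + 9 with hR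
      have hex : ∀ n, ∃ G : ℂ → ℂ, (∀ k ≤ (σ.Y n).B.card, ∃ h,
          Br (σ.Y n).T k h (ball (σ.p n 0) (R * σ.r n)) ∧ h (σ.p n 0) = σ.p n k) →
          (σ.Y n).B.card - 1 < (σ.Y n).B.card ∧
            Br (σ.Y n).T ((σ.Y n).B.card - 1 + 1) G (ball (σ.p n 0) (R * σ.r n)) ∧
            G (σ.p n 0) = σ.p n ((σ.Y n).B.card - 1 + 1) := fun n => by
        have hP := (σ.Y n).ne.card_pos
        by_cases hn : ∀ k ≤ (σ.Y n).B.card, ∃ h,
          Br (σ.Y n).T k h (ball (σ.p n 0) (R * σ.r n)) ∧ h (σ.p n 0) = σ.p n k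
        · obtain ⟨G, hG⟩ := hn ((σ.Y n).B.card - 1 + 1) (by omega)
          exact ⟨G, fun _ => ⟨by omega, hG⟩⟩
        · exact ⟨0, fun h => absurd h hn⟩
      choose G hG using hex
      have hev := (σ.branches R).mono hG
      obtain ⟨ε₂, hε₂, C, b2⟩ := σ.unbranched hev x hx (by linarith [norm_nonneg x])
      obtain ⟨ε, hε, e1, e2, e3⟩ : ∃ ε > 0, 2 * ε ≤ ε₁ ∧ 2 * ε ≤ ε₂ ∧ ε ≤ 1 :=
        ⟨min (min (ε₁ / 2) (ε₂ / 2)) 1, by positivity,
          by linarith [min_le_left (min (ε₁ / 2) (ε₂ / 2)) 1, min_le_left (ε₁ / 2) (ε₂ / 2)],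
          by linarith [min_le_left (min (ε₁ / 2) (ε₂ / 2)) 1, min_le_right (ε₁ / 2) (ε₂ / 2)],
          min_le_right _ _⟩
      refine ⟨ε, hε, m, hm, C, ?_⟩
      filter_upwards [b1, b2, hev, σ.near_id hρ (‖x‖ + 1) hε] with n g1 g2 ⟨_, g3, g4⟩ g5
      have hsub : ball x ε ⊆ ball x ε₁ := ball_subset_ball (by linarith)
      refine ⟨fun y hy => (σ.u_diff (g1 y (hsub hy)).1).differentiableWithinAt,
        fun y hy => ⟨(g1 y (hsub hy)).2.1, (g1 y (hsub hy)).2.2, fun hy0 => ?_⟩⟩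
      have hP := (σ.Y n).ne.card_pos
      have hyx : ‖y - x‖ < ε := by rwa [mem_ball, dist_eq_norm] at hy
      have hy1 : ‖y‖ < ‖x‖ + 1 := by linarith [norm_le_norm_add_norm_sub' y x]
      have hy2 : ‖y + h n y - x‖ < 2 * ε := by
        have := g5 y (mem_ball_zero_iff.mpr hy1)
        have h2 := norm_add_le (y - x) (h n y)
        rw [show y - x + h n y = y + h n y - x by ring] at h2
        change ‖h n y‖ ≤ ε at this
        linarith
      have hu0 : σ.u n (y + h n y) ≠ 0 := norm_pos_iff.mp ((inv_pos.mpr hm).trans_le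
        (g1 _ (by rw [mem_ball, dist_eq_norm]; linarith)).2.1)
      have g3' := g3
      have g4' := g4
      rw [Nat.sub_add_cancel hP] at g3' g4'
      rw [σ.p_card] at g4'
      obtain ⟨k1, k2⟩ := σ.ret_inv le_rfl g3' g4' (y := y) (by linarith)
      have hy3 : y + h n y ≠ 0 := fun h3 => hy0 (σ.A_inj n (by
        rw [← k2, ← hA, h3, σ.A_zero, g4']))
      obtain ⟨-, k3⟩ := σ.α_eq g3 g4 hy3 (σ.A_mem0.mp (hA n y ▸ k1)) hu0
      have k4 := g3'.mul_deriv isOpen_ball k1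
      rw [Nat.sub_add_cancel hP, σ.p_card, hA, k2, show σ.A n y - σ.p n 0 = σ.r n * y by
        simp [A]] at k3
      rw [k2] at k4
      refine ⟨_, g2 _ (by rw [mem_ball, dist_eq_norm]; linarith), ?_⟩
      rw [(hd n y).deriv, add_sub_cancel]
      change _ = σ.u n y * _ * _ at k3
      have := σ.r_ne n
      field_simp
      field_simp at k3
      linear_combination (-Pd (σ.Y n).T (σ.A n y) (σ.Y n).B.card ^ 2) * k3 -
        (σ.u n y * (y + h n y) ^ 2 * (1 + Pd (σ.Y n).T (σ.A n y) (σ.Y n).B.card *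
          deriv (G n) (σ.Fr n (σ.A n y)))) * k4)
  have dΨ : ∀ n, Differentiable ℂ fun y => (σ.Ψ n).eval (σ.A n y) := fun n y =>
    (σ.Ψ n).differentiableAt.comp y (σ.A_deriv n y).differentiableAt
  obtain ⟨V, hV, c2⟩ := montel σ.𝒰 (u := fun n y => (σ.Ψ n).eval (σ.A n y)) fun L => by
    obtain ⟨s, ⟨s1, s2⟩, hs⟩ := good_radius σ.Enull (lt_add_one (max L 0))
    have hs0 : 0 < s := (le_max_right _ _).trans_lt s1
    obtain ⟨m, hm⟩ := σ.u_sphere hs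
    obtain ⟨m', hm'⟩ := (isCompact_sphere (0 : ℂ) s).exists_bound_of_continuousOn
      hW.continuous.continuousOn
    refine ⟨(m' + 1) ^ 2 * (m / s ^ 2), ?_⟩
    filter_upwards [hm, c1 (s + 1) 1 one_pos, σ.sphere_B hs] with n g1 g2 g3
    refine ⟨(dΨ n).differentiableOn, fun y hy => max_disc (x := 0) hs0 (lt_add_one s)
      (dΨ n).differentiableOn (fun y hy => ?_) y ?_⟩
    · rw [sub_zero] at hy
      have y1 := mem_sphere_zero_iff_norm.mpr hy
      have y3 : y ≠ 0 := norm_pos_iff.mp (hy ▸ hs0)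
      have hB : σ.A n y ∉ (σ.Y n).B := fun hB => y3 (σ.A_inj n (by
        rw [σ.A_zero]
        exact g3 y y1 hB))
      have e1 : (σ.Ψ n).eval (σ.A n y) = (h n y / ((σ.Y n).ρ - 1)) ^ 2 * (σ.u n y / y ^ 2) := by
        rw [σ.Ψ_eq n hB, (σ.Y n).q_eq (σ.pmem n 0) hB,
          show σ.A n y - σ.p n 0 = σ.r n * y by simp [A]]
        change _ = (_ / _ / _) ^ 2 * ((σ.Y n).U _ (σ.A n y) / _)
        have := σ.r_ne n
        field_simp
      have e2 : ‖h n y / ((σ.Y n).ρ - 1)‖ ≤ m' + 1 := by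
        linarith [norm_le_norm_add_norm_sub' (h n y / ((σ.Y n).ρ - 1)) (W y), hm' y y1,
          g2 y (mem_ball_zero_iff.mpr (by linarith))]
      rw [e1, norm_mul, norm_pow, norm_div (σ.u n y), norm_pow, hy]
      have := g1 y y1
      gcongr
    · rw [sub_zero]
      linarith [mem_ball_zero_iff.mp hy, le_max_left L 0]
  refine ⟨W, V, hW, hV, ?_, ?_, c1, c2⟩
  · refine eq_of_norm_sub_le_zero (le_of_forall_pos_le_add fun η hη => ?_)
    obtain ⟨n, hn⟩ := (c1 2 η hη).exists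
    have := deriv_close (fun y => (hd n y).differentiableAt.div_const _) hW hn
    rw [deriv_div_const, h1, div_self (hτ n), norm_sub_rev] at this
    linarith
  · obtain ⟨ε, hε, m, hm, b1⟩ := σ.u_bounds 0 σ.E0
    have ht : Tendsto (fun n => ‖1 - (σ.Y n).ρ‖ * (m / (ε / 2))) σ.𝒰 (𝓝 0) := by
      simpa using ((hρ.const_sub 1).norm.mul_const (m / (ε / 2)))
    refine norm_le_zero_iff.mp (le_of_forall_pos_le_add fun η hη => ?_)
    obtain ⟨n, g1, g2, g3⟩ := ((c2 2 (η / 2) (half_pos hη)).and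
      (b1.and (ht.eventually (gt_mem_nhds (half_pos hη))))).exists
    have k1 := deriv_close (dΨ n) hV g1
    have k2 := Complex.norm_deriv_le_of_forall_mem_sphere_norm_le (c := 0) (R := ε / 2) (C := m)
      (f := σ.u n) (half_pos hε)
      (DifferentiableOn.diffContOnCl_ball (U := ball 0 ε)
        (fun y hy => (σ.u_diff (g2 y hy).1).differentiableWithinAt)
        (closedBall_subset_ball (half_lt_self hε)))
      (fun y hy => (g2 y (sphere_subset_ball (half_lt_self hε) hy)).2.2)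
    have k3 : deriv (fun y => (σ.Ψ n).eval (σ.A n y)) 0 = (1 - (σ.Y n).ρ) * deriv (σ.u n) 0 := by
      have a1 := ((σ.Ψ n).differentiableAt (x := σ.A n 0)).hasDerivAt.comp 0 (σ.A_deriv n 0)
      have a2 := (((σ.Y n).U_diff (b := σ.p n 0) (z := σ.A n 0)
        fun _ => σ.A_zero n).hasDerivAt.comp 0 (σ.A_deriv n 0))
      rw [σ.A_zero] at a1 a2
      refine a1.deriv.trans ?_
      rw [((σ.Y n).psi_at (σ.ρne n) (fun z hz => σ.Ψ_eq n hz) (σ.pmem n 0)).2,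
        mul_assoc]
      exact congrArg _ a2.deriv.symm
    have k4 := norm_le_norm_add_norm_sub (deriv (fun y => (σ.Ψ n).eval (σ.A n y)) 0) (deriv V 0)
    rw [k3, norm_mul] at k4
    rw [k3] at k1
    have : ‖1 - (σ.Y n).ρ‖ * ‖deriv (σ.u n) 0‖ ≤ ‖1 - (σ.Y n).ρ‖ * (m / (ε / 2)) := by gcongr
    linarith

theorem all_α {s R a : ℝ} (hs : ∀ x ∈ σ.E, ‖x‖ ≠ s) (hsR : s < R) (ha : 0 < a) :
    ∀ᶠ n in (σ.𝒰 : Filter ℕ), ∀ k < (σ.Y n).B.card, ∀ h,
      Br (σ.Y n).T (k + 1) h (ball (σ.p n 0) (R * σ.r n)) → h (σ.p n 0) = σ.p n (k + 1) →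
      ∀ x ∈ sphere (0 : ℂ) s, ‖1 - σ.α n k h x‖ ≤ a := by
  by_contra hc
  rw [← Ultrafilter.eventually_not] at hc
  have hex : ∀ n, ∃ (k : ℕ) (h : ℂ → ℂ), (¬∀ k < (σ.Y n).B.card, ∀ h,
      Br (σ.Y n).T (k + 1) h (ball (σ.p n 0) (R * σ.r n)) → h (σ.p n 0) = σ.p n (k + 1) →
      ∀ x ∈ sphere (0 : ℂ) s, ‖1 - σ.α n k h x‖ ≤ a) →
      (k < (σ.Y n).B.card ∧ Br (σ.Y n).T (k + 1) h (ball (σ.p n 0) (R * σ.r n)) ∧
        h (σ.p n 0) = σ.p n (k + 1)) ∧ ¬∀ x ∈ sphere (0 : ℂ) s, ‖1 - σ.α n k h x‖ ≤ a := by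
    intro n
    by_contra hn
    push Not at hn
    obtain ⟨⟨k, hk, h, g1, g2, x, g3, g4⟩, -⟩ := hn 0 0
    exact absurd ((hn k h).2 ⟨hk, g1, g2⟩ x g3) (not_le.mpr g4)
  choose k h hx using hex
  have hev := hc.mono hx
  have hα : ∀ᶠ n in (σ.𝒰 : Filter ℕ), ∀ x ∈ sphere (0 : ℂ) s, ‖1 - σ.α n (k n) (h n) x‖ ≤ a := by
    refine ev_compact (isCompact_sphere _ _) fun x hx => ?_
    have hxs := mem_sphere_zero_iff_norm.mp hx
    obtain ⟨ε, hε, g⟩ := σ.unbranched' (hev.mono fun n hn => hn.1) x (fun h => hs x h hxs)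
      (hxs ▸ hsR)
    exact ⟨ε, hε, g a ha⟩
  obtain ⟨n, g1, g2⟩ := (hev.and hα).exists
  exact g1.2 g2

/-- Inverse branches commute with the return map. -/
theorem comm {n k : ℕ} {G h : ℂ → ℂ} {R : ℝ}
    (hG : Br (σ.Y n).T (σ.Y n).B.card G (ball (σ.p n 0) (R * σ.r n)))
    (hG0 : G (σ.p n 0) = σ.p n 0) (hb : Br (σ.Y n).T k h (ball (σ.p n 0) (R * σ.r n)))
    (h0 : h (σ.p n 0) = σ.p n k) {x : ℂ} (hx : 8 * ‖x‖ < R / 34) :
    σ.Fr n (h (σ.A n x)) = h (σ.Fr n (σ.A n x)) := by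
  have hr := σ.rpos n
  have hR : 0 < R := by linarith [norm_nonneg x]
  have hsub : ball (σ.p n 0) (R / 34 * σ.r n) ⊆ ball (σ.p n 0) (R * σ.r n) :=
    ball_subset_ball (by nlinarith)
  obtain ⟨-, -, d3⟩ := σ.G_deriv (mul_pos hR hr) hG hG0
  have hm : MapsTo G (ball (σ.p n 0) (R / 34 * σ.r n)) (ball (σ.p n 0) (R * σ.r n)) :=
    fun z hz => by
      rw [mem_ball, dist_eq_norm] at hz ⊢
      have := lin_val_le (mul_pos hR hr) (hG.univ isOpen_ball) (z := z) (by linarith)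
      rw [hG0] at this
      nlinarith [norm_nonneg (z - σ.p n 0)]
  have b1 : Br (σ.Y n).T k (fun z => σ.Fr n (h (G z))) (ball (σ.p n 0) (R / 34 * σ.r n)) :=
    ⟨(σ.Fr_diff n).comp_differentiableOn (hb.diff.comp (hG.diff.mono hsub) hm), fun z hz => by
      rw [Fr, ← Function.iterate_add_apply, add_comm, Function.iterate_add_apply,
        hb.inv _ (hm hz), hG.inv _ (hsub hz)]⟩
  have b2 : Br (σ.Y n).T k h (ball (σ.p n 0) (R / 34 * σ.r n)) :=
    ⟨hb.diff.mono hsub, fun z hz => hb.inv z (hsub hz)⟩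
  obtain ⟨k1, k2⟩ := σ.ret_inv (s := R / 34) (by linarith) hG hG0 hx
  have := b1.unique b2 (mem_ball_self (by positivity))
    (by rw [hG0, h0, Fr, (σ.Y n).fix _ (σ.pmem n k)]) k1
  simpa only [k2] using this

end Setup

end Pool.Agent.MP_28f8a1_an.G42

end
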