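import Pool.Agent.MP_28f8a1_an.Mg.H42_Core
import Pool.Agent.Lib.PlaneTop.HasLog
import Pool.Agent.MP_28f8a1_an.H42.Defs
import Pool.Agent.MP_28f8a1_an.H42.Schottky

-- part MP_28f8a1_an.H42.Levin
section

/-! Moving a multiplier close to the unit circle into the disc. -/

set_option autoImplicit false

namespace Pool.Agent.MP_28f8a1_an.H42

theorem seg_norm {ρ ρ' r : ℂ} (hr : r ∈ segment ℝ ρ ρ') : ‖r - ρ‖ ≤ ‖ρ' - ρ‖ := by
  have := (convex_closedBall ρ ‖ρ' - ρ‖).segment_subset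
    (Metric.mem_closedBall_self (norm_nonneg _)) (by rw [Metric.mem_closedBall, dist_eq_norm]) hr
  rwa [Metric.mem_closedBall, dist_eq_norm] at this

/-- A segment from `ρ` into the disc that stays away from `1`. -/
theorem detour {ρ : ℂ} (h0 : ρ ≠ 1) (h : ‖ρ - 1‖ ≤ 1 / 10) : ∃ ρ' : ℂ, ‖ρ'‖ < 1 ∧
    ‖ρ' - ρ‖ ≤ 4 * ‖ρ - 1‖ ∧ ∀ r ∈ segment ℝ ρ ρ', ‖ρ - 1‖ / 2 ≤ ‖r - 1‖ := by
  obtain ⟨t, ht⟩ : ∃ t, t = ‖ρ - 1‖ := ⟨_, rfl⟩
  have t0 : 0 < t := ht ▸ norm_pos_iff.mpr (sub_ne_zero.mpr h0)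
  have t2 : t ^ 2 = (ρ.re - 1) ^ 2 + ρ.im ^ 2 := by
    rw [ht, Complex.sq_norm, Complex.normSq_apply]
    simp [sq]
  rw [← ht] at h ⊢
  obtain ⟨s, s1, s2⟩ : ∃ s : ℝ, s ^ 2 = 1 ∧ 0 ≤ s * ρ.im := by
    rcases le_total 0 ρ.im with h | h
    · exact ⟨1, by norm_num, by linarith⟩
    · exact ⟨-1, by norm_num, by linarith⟩
  have x1 : ρ.re - 1 ≤ t := le_of_sq_le_sq (by nlinarith) t0.le
  have x2 : -t ≤ ρ.re - 1 := (abs_le_of_sq_le_sq' (by nlinarith) t0.le).1
  have y1 : s * ρ.im ≤ t := le_of_sq_le_sq (by rw [mul_pow, s1]; nlinarith) t0.le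
  refine ⟨⟨ρ.re - 2 * t, ρ.im + 2 * t * s⟩, ?_, ?_, ?_⟩
  · rw [← sq_lt_one_iff₀ (norm_nonneg _), Complex.sq_norm, Complex.normSq_apply]
    nlinarith
  · refine le_of_sq_le_sq ?_ (by positivity)
    rw [Complex.sq_norm, Complex.normSq_apply]
    simp only [Complex.sub_re, Complex.sub_im]
    nlinarith
  · rintro r ⟨a, b, ha, hb, hab, rfl⟩
    refine le_of_sq_le_sq ?_ (norm_nonneg _)
    rw [Complex.sq_norm, Complex.normSq_apply]
    obtain rfl : a = 1 - b := by linarith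
    simp only [Complex.sub_re, Complex.sub_im, Complex.add_re, Complex.add_im, Complex.smul_re,
      Complex.smul_im, smul_eq_mul, Complex.one_re, Complex.one_im]
    have k1 : (1 - b) * ρ.re + b * (ρ.re - 2 * t) - 1 = (ρ.re - 1) - 2 * (b * t) := by ring
    have k2 : (1 - b) * ρ.im + b * (ρ.im + 2 * t * s) - 0 = ρ.im + 2 * (b * t) * s := by ring
    have k3 : 0 ≤ b * t := by positivity
    rw [k1, k2]
    generalize b * t = v at k3
    generalize ρ.re - 1 = x at t2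
    have k4 : (ρ.im + 2 * v * s) * (ρ.im + 2 * v * s) =
        ρ.im ^ 2 + 4 * (v * (s * ρ.im)) + 4 * v ^ 2 * s ^ 2 := by ring
    rw [k4, s1]
    nlinarith [mul_nonneg k3 s2, sq_nonneg (3 * x - 8 * v), sq_nonneg v, sq_nonneg ρ.im]

/-- The quantitative form of the uniform multiplier gap. -/
theorem gapq {e : ℕ} (he : 1 ≤ e) {η : ℝ} (hη : 0 < η) : ∃ δ : ℝ, 0 < δ ∧ ∃ K : ℝ, 0 < K ∧
    ∀ (c z : ℂ) (n : ℕ), 0 < n → Function.minimalPeriod (fq e c) z = n → Pd e c z n ≠ 1 →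
    1 ≤ ‖Pd e c z n‖ → ‖Pd e c z n‖ ≤ 1 + δ → ∀ ε : ℝ, 0 < ε → ∃ c' z' : ℂ,
      ‖c' - c‖ ≤ K * (‖Pd e c z n‖ - 1) + η * ((‖Pd e c z n‖ - 1) / ‖Pd e c z n - 1‖) + ε ∧
      Function.minimalPeriod (fq e c') z' = n ∧ ‖Pd e c' z' n‖ < 1 := by
  obtain ⟨M, hM, hMη⟩ : ∃ M > 0, 128 / M = η := ⟨128 / η, by positivity, by field_simp⟩
  obtain ⟨κ, hκ, hcore⟩ := core he hM.le
  obtain ⟨t, ht, t1, t2, t3⟩ : ∃ t > 0, t ≤ 1 / 10 ∧ 5 * t ≤ κ ∧ M * t ≤ κ :=
    ⟨min (1 / 10) (min (κ / 5) (κ / M)), by positivity, min_le_left _ _,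
      (le_div_iff₀' (by norm_num)).mp ((min_le_right _ _).trans (min_le_left _ _)),
      (le_div_iff₀' hM).mp ((min_le_right _ _).trans (min_le_right _ _))⟩
  refine ⟨t / 4, by positivity, 4 / κ, by positivity, fun c z n hn hper h0 h1 h2 ε hε => ?_⟩
  set ρ := Pd e c z n
  have hτ : 0 < ‖ρ - 1‖ := norm_pos_iff.mpr (sub_ne_zero.mpr h0)
  obtain ⟨k, hk, k0, k1, k2⟩ : ∃ k > 0, k = min κ (M * (‖ρ - 1‖ / 2)) ∧ k ≤ κ ∧
      k ≤ M * (‖ρ - 1‖ / 2) := ⟨_, by positivity, rfl, min_le_left _ _, min_le_right _ _⟩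
  have hh : 0 ≤ ‖ρ‖ - 1 := by linarith
  obtain ⟨ρ', a2, a3, a4⟩ : ∃ ρ' : ℂ, ‖ρ'‖ < 1 ∧ 4 / k * ‖ρ' - ρ‖ ≤
      4 / κ * (‖ρ‖ - 1) + η * ((‖ρ‖ - 1) / ‖ρ - 1‖) + ε ∧
      ∀ r ∈ segment ℝ ρ ρ', ‖ρ - 1‖ / 2 ≤ ‖r - 1‖ ∧ ‖r‖ ≤ 1 + κ ∧ 1 / 2 ≤ ‖r‖ := by
    by_cases h3 : ‖ρ - 1‖ ≤ 4 * (‖ρ‖ - 1)
    · obtain ⟨ρ', b1, b2, b3⟩ := detour h0 (by linarith)
      refine ⟨ρ', b1, ?_, fun r hr => ?_⟩
      · have b4 : 1 / 4 ≤ (‖ρ‖ - 1) / ‖ρ - 1‖ := by
          rw [le_div_iff₀ hτ]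
          linarith
        have b5 : 0 ≤ 4 / κ * (‖ρ‖ - 1) := by positivity
        rw [k0, min_eq_right (le_trans (by gcongr; linarith) t3)]
        calc _ ≤ 4 / (M * (‖ρ - 1‖ / 2)) * (4 * ‖ρ - 1‖) := by gcongr
          _ = η * (1 / 4) := by
            rw [← hMη]
            field_simp
            norm_num
          _ ≤ η * ((‖ρ‖ - 1) / ‖ρ - 1‖) := by gcongr
          _ ≤ _ := by linarith
      · have b4 := seg_norm hr
        have b5 := norm_le_norm_add_norm_sub' r ρ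
        have b6 := norm_le_norm_add_norm_sub r ρ
        exact ⟨b3 r hr, by linarith, by linarith⟩
    · rw [not_le] at h3
      obtain ⟨a, ha, a1, a2, a3⟩ : ∃ a > 0, a ≤ ‖ρ - 1‖ / 4 ∧ a ≤ 1 / 4 ∧ 4 / k * a ≤ ε :=
        ⟨min (min (‖ρ - 1‖ / 4) (1 / 4)) (ε * k / 4), by positivity,
          (min_le_left _ _).trans (min_le_left _ _), (min_le_left _ _).trans (min_le_right _ _),
          (mul_le_mul_of_nonneg_left (min_le_right _ _) (by positivity)).trans_eq (by field_simp)⟩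
      have hρ : 0 < ‖ρ‖ := by linarith
      have hn1 : ‖(((1 - a) / ‖ρ‖ : ℝ) : ℂ) * ρ‖ = 1 - a := by
        rw [norm_mul, Complex.norm_real, Real.norm_eq_abs, abs_of_pos (div_pos (by linarith) hρ),
          div_mul_cancel₀ _ hρ.ne']
      have hn2 : ‖(((1 - a) / ‖ρ‖ : ℝ) : ℂ) * ρ - ρ‖ = ‖ρ‖ - 1 + a := by
        rw [← sub_one_mul, norm_mul, ← Complex.ofReal_one, ← Complex.ofReal_sub, Complex.norm_real,
          Real.norm_eq_abs, abs_of_nonpos (sub_nonpos.mpr ((div_le_one hρ).mpr (by linarith)))]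
        field_simp
        ring
      refine ⟨_, by rw [hn1]; linarith, ?_, fun r hr => ?_⟩
      · have b1 : 0 ≤ 4 / κ := by positivity
        have b2 : 0 ≤ η / ‖ρ - 1‖ := by positivity
        have b3 : 4 / k ≤ 4 / κ + η / ‖ρ - 1‖ := by
          rcases min_choice κ (M * (‖ρ - 1‖ / 2)) with h | h
          · rw [k0, h]
            linarith
          · have : 4 / (M * (‖ρ - 1‖ / 2)) = η / ‖ρ - 1‖ / 16 := by
              rw [← hMη]
              field_simp
              norm_num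
            rw [k0, h]
            linarith
        have b4 := mul_le_mul_of_nonneg_right b3 hh
        rw [add_mul, div_mul_comm η, mul_comm _ η] at b4
        rw [hn2, mul_add]
        linarith
      · have b4 := seg_norm hr
        rw [hn2] at b4
        have b5 := mem_closedBall_zero_iff.mp ((convex_closedBall (0 : ℂ) ‖ρ‖).segment_subset
          (mem_closedBall_zero_iff.mpr le_rfl)
          (mem_closedBall_zero_iff.mpr (by rw [hn1]; linarith)) hr)
        have b6 := norm_le_norm_add_norm_sub r ρ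
        have b7 := norm_sub_le_norm_sub_add_norm_sub ρ r 1
        rw [norm_sub_rev ρ r] at b7
        exact ⟨by linarith, by linarith, by linarith⟩
  obtain ⟨c', z', g1, g2, g3⟩ := move he hn hper (ρ' := ρ') hk (m := 1 / 2) (by norm_num)
    fun r hr => by
      obtain ⟨b1, b2, b3⟩ := a4 r hr
      have b5 : r ≠ 1 := sub_ne_zero.mp (norm_pos_iff.mp (by linarith))
      refine ⟨b3, b5, fun Y hY => le_trans (le_min k1 (k2.trans ?_))
        (hcore Y (hY ▸ b3) (hY ▸ b5) (hY ▸ b2))⟩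
      rw [hY]
      gcongr
  refine ⟨c', z', g3.trans (le_trans (le_of_eq ?_) a3), g1, g2 ▸ a2⟩
  congr 1
  field_simp
  norm_num

theorem gap_ne {e : ℕ} (he : 1 ≤ e) {ε : ℝ} (hε : 0 < ε) : ∃ δ : ℝ, 0 < δ ∧ ∀ (c z : ℂ) (n : ℕ),
    0 < n → Function.minimalPeriod (fq e c) z = n → Pd e c z n ≠ 1 → ‖Pd e c z n‖ ≤ 1 + δ →
    ∃ c' z' : ℂ, ‖c' - c‖ ≤ ε ∧ Function.minimalPeriod (fq e c') z' = n ∧ ‖Pd e c' z' n‖ < 1 := by
  obtain ⟨δ, hδ, K, hK, h⟩ := gapq he (η := ε / 3) (by positivity)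
  refine ⟨min δ (ε / 3 / K), by positivity, fun c z n hn hper h0 h2 => ?_⟩
  by_cases h1 : ‖Pd e c z n‖ < 1
  · exact ⟨c, z, by simpa using hε.le, hper, h1⟩
  obtain ⟨c', z', g1, g2⟩ := h c z n hn hper h0 (not_lt.mp h1)
    (by linarith [min_le_left δ (ε / 3 / K)]) (ε / 3) (by positivity)
  refine ⟨c', z', g1.trans ?_, g2⟩
  have b1 : K * (‖Pd e c z n‖ - 1) ≤ ε / 3 :=
    (le_div_iff₀' hK).mp (by linarith [min_le_right δ (ε / 3 / K)])
  have b2 : (‖Pd e c z n‖ - 1) / ‖Pd e c z n - 1‖ ≤ 1 :=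
    div_le_one_of_le₀ (by simpa using norm_sub_norm_le (Pd e c z n) 1) (norm_nonneg _)
  nlinarith

/-- The uniform multiplier gap. -/
theorem gap {e : ℕ} (he : 1 ≤ e) {ε : ℝ} (hε : 0 < ε) : ∃ δ : ℝ, 0 < δ ∧ ∀ (c z : ℂ) (n : ℕ),
    0 < n → Function.minimalPeriod (fq e c) z = n → ‖Pd e c z n‖ ≤ 1 + δ →
    ∃ c' z' : ℂ, ‖c' - c‖ ≤ ε ∧ Function.minimalPeriod (fq e c') z' = n ∧ ‖Pd e c' z' n‖ < 1 ∧
      Filter.Tendsto (fun k : ℕ => (fq e c')^[n * k] 0) Filter.atTop (nhds z') := by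
  obtain ⟨δ, hδ, h⟩ := gap_ne he (half_pos hε)
  refine ⟨δ / 2, half_pos hδ, fun c z n hn hper h1 => ?_⟩
  obtain ⟨c₁, z₁, a1, a2, a3, a4⟩ := perturb_one he hn hper (lt_min (half_pos hε) (half_pos hδ))
  obtain ⟨c₂, z₂, b1, b2, b3⟩ := h c₁ z₁ n hn a2 a3 (by
    linarith [norm_le_norm_add_norm_sub' (Pd e c₁ z₁ n) (Pd e c z n), min_le_right (ε / 2) (δ / 2)])
  obtain ⟨z', k1, k2, k3⟩ := fatou' he hn b2 b3
  refine ⟨c₂, z', ?_, k1, k2 ▸ b3, k3⟩
  linarith [norm_sub_le_norm_sub_add_norm_sub c₂ c₁ c, min_le_left (ε / 2) (δ / 2)]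

end Pool.Agent.MP_28f8a1_an.H42

end

-- part MP_28f8a1_an.H42.YocA
section

/-! External rays in a logarithmic coordinate and their cyclic order. -/

set_option autoImplicit false

namespace Pool.Agent.MP_28f8a1_an.H42

open MeasureTheory Metric Set Real Filter Topology
open Complex (I)
open scoped ENNReal

/-- The logarithmic lift of a parametrisation of a neighbourhood of infinity. -/
theorem log_lift {ψ : ℂ → ℂ} (dψ : DifferentiableOn ℂ ψ {w | 1 < ‖w‖})
    (iψ : InjOn ψ {w | 1 < ‖w‖})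
    (aψ : Tendsto (fun w => ψ w / w) (Bornology.cobounded ℂ) (𝓝 1)) {z : ℂ}
    (hz : ∀ w, 1 < ‖w‖ → ψ w ≠ z) :
    ∃ G : ℂ → ℂ, DifferentiableOn ℂ G {ζ | 0 < ζ.re} ∧ InjOn G {ζ | 0 < ζ.re} ∧
      (∀ ζ : ℂ, 0 < ζ.re → Complex.exp (G ζ) = ψ (Complex.exp ζ) - z) ∧
      (∀ ζ : ℂ, 0 < ζ.re → G (ζ + 2 * π * I) = G ζ + 2 * π * I) ∧
      ∀ η > 0, ∃ S : ℝ, ∀ ζ : ℂ, S ≤ ζ.re → ‖G ζ - ζ‖ ≤ η := by
  obtain ⟨u, hu⟩ : ∃ u : ℂ → ℂ, u = fun ζ => (ψ (Complex.exp ζ) - z) / Complex.exp ζ := ⟨_, rfl⟩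
  have hm : ∀ ζ : ℂ, 0 < ζ.re → 1 < ‖Complex.exp ζ‖ := fun ζ h => by
    rw [Complex.norm_exp]; exact Real.one_lt_exp_iff.2 h
  have hcv : ∀ S : ℝ, Convex ℝ {ζ : ℂ | S < ζ.re} := convex_halfSpace_re_gt
  have hO : IsOpen {ζ : ℂ | 0 < ζ.re} := isOpen_lt continuous_const Complex.continuous_re
  have du : DifferentiableOn ℂ u {ζ | 0 < ζ.re} := by
    rw [hu]
    exact ((dψ.comp Complex.differentiable_exp.differentiableOn hm).sub_const z).div
      Complex.differentiable_exp.differentiableOn fun ζ _ => Complex.exp_ne_zero ζ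
  have u0 : ∀ ζ : ℂ, 0 < ζ.re → u ζ ≠ 0 := fun ζ h => by
    rw [hu]
    exact div_ne_zero (sub_ne_zero.2 (hz _ (hm ζ h))) (Complex.exp_ne_zero ζ)
  have up : ∀ ζ, u (ζ + 2 * π * I) = u ζ := fun ζ => by
    simp only [hu, Complex.exp_add, Complex.exp_two_pi_mul_I, mul_one]
  have ut : Tendsto u (comap Complex.re atTop) (𝓝 1) := by
    have h1 : Tendsto Complex.exp (comap Complex.re atTop) (Bornology.cobounded ℂ) :=
      Complex.tendsto_exp_comap_re_atTop
    have h2 := (aψ.sub ((tendsto_inv₀_cobounded (α := ℂ)).const_mul z)).comp h1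
    rw [mul_zero, sub_zero] at h2
    refine h2.congr fun ζ => ?_
    simp only [hu, Function.comp_apply, sub_div, div_eq_mul_inv z]
  have ev : ∀ {P : ℂ → Prop}, (∀ᶠ ζ in comap Complex.re atTop, P ζ) →
      ∃ S : ℝ, 0 < S ∧ ∀ ζ : ℂ, S ≤ ζ.re → P ζ := by
    intro P h
    obtain ⟨S, hS⟩ := eventually_atTop.1 (eventually_comap.1 h)
    exact ⟨max S 1, one_pos.trans_le (le_max_right _ _),
      fun ζ hζ => hS _ ((le_max_left _ _).trans hζ) ζ rfl⟩
  obtain ⟨S0, hS0, hsl⟩ := ev (ut.eventually (Complex.isOpen_slitPlane.mem_nhds Complex.one_mem_slitPlane))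
  obtain ⟨ω, cω, eω⟩ := Lib.PlaneTop.hasLogOn_of_convex (hcv 0) du.continuousOn u0
  have hsub : {ζ : ℂ | S0 < ζ.re} ⊆ {ζ : ℂ | 0 < ζ.re} := fun ζ h => hS0.trans h
  have hx : ((S0 + 1 : ℝ) : ℂ) ∈ {ζ : ℂ | S0 < ζ.re} := by simp
  have hlog : ∀ ζ ∈ {ζ : ℂ | S0 < ζ.re}, Complex.exp (ω ζ) = Complex.exp (Complex.log (u ζ)) :=
    fun ζ h => by rw [eω ζ (hsub h), Complex.exp_log (u0 ζ (hsub h))]
  obtain ⟨c, hc⟩ : ∃ c : ℂ, c = ω (S0 + 1 : ℝ) - Complex.log (u (S0 + 1 : ℝ)) := ⟨_, rfl⟩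
  have ec : Complex.exp c = 1 := by
    rw [hc, Complex.exp_sub, hlog _ hx, div_self (Complex.exp_ne_zero _)]
  have far : ∀ ζ : ℂ, S0 < ζ.re → ω ζ - c = Complex.log (u ζ) := fun ζ h => by
    have h1 := Lib.PlaneTop.log_sub_const (hcv S0).isPreconnected (cω.mono hsub)
      ((du.continuousOn.mono hsub).clog fun ζ h => hsl ζ (le_of_lt h)) hlog h hx
    rw [hc]
    linear_combination h1
  have dω : DifferentiableOn ℂ ω {ζ | 0 < ζ.re} := by
    intro ζ0 h0
    have h1 : ContinuousAt (fun ζ => (ω ζ - ω ζ0).im) ζ0 :=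
      Complex.continuous_im.continuousAt.comp
        ((cω.continuousAt (hO.mem_nhds h0)).sub continuousAt_const)
    have h2 : ∀ᶠ ζ in 𝓝 ζ0, (ω ζ - ω ζ0).im ∈ Ioo (-π) π :=
      h1.eventually (isOpen_Ioo.mem_nhds (by simpa using pi_pos))
    have h3 : DifferentiableAt ℂ (fun ζ => ω ζ0 + Complex.log (u ζ / u ζ0)) ζ0 :=
      (((du.differentiableAt (hO.mem_nhds h0)).div_const _).clog (by
        rw [div_self (u0 ζ0 h0)]; exact Complex.one_mem_slitPlane)).const_add _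
    refine (h3.congr_of_eventuallyEq ?_).differentiableWithinAt
    filter_upwards [h2, hO.mem_nhds h0] with ζ h4 h5
    rw [← eω ζ h5, ← eω ζ0 h0, ← Complex.exp_sub, Complex.log_exp h4.1 h4.2.le, add_sub_cancel]
  have per : ∀ ζ : ℂ, 0 < ζ.re → ω (ζ + 2 * π * I) = ω ζ := by
    intro ζ h
    have hre : ∀ ζ : ℂ, (ζ + 2 * π * I).re = ζ.re := fun ζ => by simp
    have h1 := Lib.PlaneTop.log_sub_const (ω := fun ζ => ω (ζ + 2 * π * I)) (hcv 0).isPreconnected
      (cω.comp (by fun_prop) fun ζ h => by rwa [mem_ofPred_eq, hre]) cω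
      (fun ζ h => by rw [eω ζ h, eω _ (by rwa [mem_ofPred_eq, hre]), up]) h (hsub hx)
    have h2 := far _ hx
    have h3 := far ((S0 + 1 : ℝ) + 2 * π * I) (by rw [hre]; exact hx)
    rw [up] at h3
    linear_combination h1 + h3 - h2
  have eG : ∀ ζ : ℂ, 0 < ζ.re → Complex.exp (ζ + (ω ζ - c)) = ψ (Complex.exp ζ) - z := fun ζ h => by
    rw [Complex.exp_add, Complex.exp_sub, ec, div_one, eω ζ h, hu]
    exact mul_div_cancel₀ _ (Complex.exp_ne_zero ζ)
  refine ⟨fun ζ => ζ + (ω ζ - c), differentiableOn_id.add (dω.sub_const c), fun x hx y hy h => ?_,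
    eG, fun ζ h => ?_, fun η hη => ?_⟩
  · have h1 : x + (ω x - c) = y + (ω y - c) := h
    have h2 : Complex.exp x = Complex.exp y := by
      refine iψ (hm x hx) (hm y hy) (sub_left_injective (b := z) ?_)
      exact (eG x hx).symm.trans ((congrArg Complex.exp h1).trans (eG y hy))
    obtain ⟨n, hn⟩ := Complex.exp_eq_exp_iff_exists_int.1 h2
    have h3 : ∀ n : ℤ, ω (y + n * (2 * π * I)) = ω y := by
      intro n
      have hre : ∀ m : ℤ, 0 < (y + m * (2 * π * I)).re := fun m => by simpa using hy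
      induction n using Int.induction_on with
      | zero => simp
      | succ n ih =>
        rw [← ih, ← per _ (hre n)]
        congr 1
        push_cast
        ring
      | pred n ih =>
        rw [← ih, ← per _ (hre (-n - 1))]
        congr 1
        push_cast
        ring
    have h4 := h3 n
    rw [← hn] at h4
    linear_combination h1 - h4
  · simp only [per ζ h]
    ring
  · have h1 : Tendsto (fun ζ => Complex.log (u ζ)) (comap Complex.re atTop) (𝓝 (Complex.log 1)) :=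
      ut.clog Complex.one_mem_slitPlane
    rw [Complex.log_one] at h1
    obtain ⟨S, -, hS⟩ := ev (h1.eventually (closedBall_mem_nhds 0 hη))
    refine ⟨max S (S0 + 1), fun ζ h => ?_⟩
    rw [add_sub_cancel_left, far ζ ((lt_add_one S0).trans_le ((le_max_right _ _).trans h))]
    exact mem_closedBall_zero_iff.1 (hS ζ ((le_max_left _ _).trans h))

/-- A curve that crosses the plane from left to right. -/
def Cross (A : ℝ → ℂ) : Prop :=
  ContinuousOn A (Ioi 0) ∧ Tendsto (fun s => (A s).re) (𝓝[>] 0) atBot ∧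
    Tendsto (fun s => (A s).re) atTop atTop

/-- Everything of `A` beyond `s` lies to the right of everything of `B` before `t`. -/
def t1289_U (A B : ℝ → ℂ) (s t : ℝ) : Prop :=
  0 < s ∧ 0 < t ∧ ∀ s' ≥ s, ∀ t' ∈ Ioc 0 t, (B t').re < (A s').re

lemma t1289_const {X : Type*} [TopologicalSpace X] {Om E : X → ℂ} {K : Set X} {c : ℂ}
    (hc : c ≠ 0) (hK : IsPreconnected K) (hOm : ContinuousOn Om K) (hE : ContinuousOn E K)
    (hs : ∀ x ∈ K, E x ∈ Complex.slitPlane) (he : ∀ x ∈ K, Complex.exp (Om x) = c * E x)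
    {x y : X} (hx : x ∈ K) (hy : y ∈ K) :
    Om x - Complex.log (E x) = Om y - Complex.log (E y) := by
  have := Pool.Agent.Lib.PlaneTop.log_sub_const (ω := Om)
    (ω' := fun x => Complex.log c + Complex.log (E x)) hK hOm
    (continuousOn_const.add (hE.clog hs)) (fun z hz => by
      rw [he z hz, Complex.exp_add, Complex.exp_log hc,
        Complex.exp_log (Complex.slitPlane_ne_zero (hs z hz))]) hx hy
  linear_combination this

lemma t1289_bdd_above {B : ℝ → ℂ} (cB : Cross B) (t : ℝ) :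
    ∃ M : ℝ, ∀ t' ∈ Ioc 0 t, (B t').re ≤ M := by
  have h0 : ∀ᶠ s in 𝓝[>] (0 : ℝ), (B s).re ≤ 0 := cB.2.1.eventually (eventually_le_atBot 0)
  obtain ⟨δ, hδ, hδ'⟩ := (mem_nhdsGT_iff_exists_Ioo_subset).1 h0
  have hδ0 : 0 < δ := hδ
  have hc : ContinuousOn (fun s => (B s).re) (Icc δ t) :=
    Complex.continuous_re.comp_continuousOn
      (cB.1.mono fun x hx => lt_of_lt_of_le hδ0 hx.1)
  obtain ⟨M, hM⟩ := (isCompact_Icc.image_of_continuousOn hc).bddAbove
  refine ⟨max M 0, fun t' ht' => ?_⟩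
  by_cases h : t' < δ
  · exact le_max_of_le_right (hδ' ⟨ht'.1, h⟩)
  · exact le_max_of_le_left (hM ⟨t', ⟨not_lt.1 h, ht'.2⟩, rfl⟩)

lemma t1289_bdd_below {A : ℝ → ℂ} (cA : Cross A) {s : ℝ} (hs : 0 < s) :
    ∃ m : ℝ, ∀ s' ≥ s, m ≤ (A s').re := by
  obtain ⟨S, hS⟩ := eventually_atTop.1 (cA.2.2.eventually (eventually_ge_atTop 0))
  have hc : ContinuousOn (fun s => (A s).re) (Icc s S) :=
    Complex.continuous_re.comp_continuousOn
      (cA.1.mono fun x hx => lt_of_lt_of_le hs hx.1)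
  obtain ⟨m, hm⟩ := (isCompact_Icc.image_of_continuousOn hc).bddBelow
  refine ⟨min m 0, fun s' hs' => ?_⟩
  by_cases h : S ≤ s'
  · exact min_le_of_right_le (hS s' h)
  · exact min_le_of_left_le (hm ⟨s', ⟨hs', (not_le.1 h).le⟩, rfl⟩)

lemma t1289_large {A B : ℝ → ℂ} (cA : Cross A) (cB : Cross B) {t : ℝ} (ht : 0 < t) :
    ∀ᶠ s in atTop, t1289_U A B s t := by
  obtain ⟨M, hM⟩ := t1289_bdd_above cB t
  obtain ⟨S, hS⟩ := eventually_atTop.1 (cA.2.2.eventually (eventually_gt_atTop M))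
  filter_upwards [eventually_ge_atTop S, eventually_gt_atTop 0] with s hs hs0
  exact ⟨hs0, ht, fun s' hs' t' ht' => (hM t' ht').trans_lt (hS s' (hs.trans hs'))⟩

lemma t1289_small {A B : ℝ → ℂ} (cA : Cross A) (cB : Cross B) {s : ℝ} (hs : 0 < s) :
    ∀ᶠ t in 𝓝[>] (0 : ℝ), t1289_U A B s t := by
  obtain ⟨m, hm⟩ := t1289_bdd_below cA hs
  have h0 : ∀ᶠ t in 𝓝[>] (0 : ℝ), (B t).re < m := cB.2.1.eventually (eventually_lt_atBot m)
  obtain ⟨δ, hδ, hδ'⟩ := (mem_nhdsGT_iff_exists_Ioo_subset).1 h0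
  filter_upwards [Ioo_mem_nhdsGT hδ] with t ht
  exact ⟨hs, ht.1, fun s' hs' t' ht' =>
    lt_of_lt_of_le (hδ' ⟨ht'.1, ht'.2.trans_lt ht.2⟩) (hm s' hs')⟩

lemma t1289_contD {A B : ℝ → ℂ} (cA : Cross A) (cB : Cross B) :
    ContinuousOn (fun p : ℝ × ℝ => A p.1 - B p.2) (Ioi 0 ×ˢ Ioi 0) :=
  (cA.1.comp continuousOn_fst fun _ hp => hp.1).sub (cB.1.comp continuousOn_snd fun _ hp => hp.2)

lemma t1289_constU {A B : ℝ → ℂ} (cA : Cross A) (cB : Cross B) {Om : ℝ × ℝ → ℂ} {c : ℂ}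
    (hc : c ≠ 0) (hOm : ContinuousOn Om (Ioi 0 ×ˢ Ioi 0))
    (he : ∀ p ∈ Ioi (0 : ℝ) ×ˢ Ioi (0 : ℝ), Complex.exp (Om p) = c * (A p.1 - B p.2)) :
    ∃ u : ℂ, ∀ s t, t1289_U A B s t → Om (s, t) = u + Complex.log (A s - B t) := by
  have key : ∀ s t, t1289_U A B s t → ∀ s' ≥ s, ∀ t' ∈ Ioc 0 t,
      Om (s, t) - Complex.log (A s - B t) = Om (s', t') - Complex.log (A s' - B t') := by
    intro s t h s' hs' t' ht'
    have hsub : Ici s ×ˢ Ioc 0 t ⊆ Ioi (0 : ℝ) ×ˢ Ioi (0 : ℝ) :=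
      fun p hp => ⟨lt_of_lt_of_le h.1 hp.1, hp.2.1⟩
    exact t1289_const (K := Ici s ×ˢ Ioc 0 t) (E := fun p : ℝ × ℝ => A p.1 - B p.2) hc
      (isPreconnected_Ici.prod isPreconnected_Ioc) (hOm.mono hsub)
      ((t1289_contD cA cB).mono hsub)
      (fun p hp => Or.inl (by
        have := h.2.2 p.1 hp.1 p.2 hp.2
        rw [Complex.sub_re]; linarith))
      (fun p hp => he p (hsub hp)) (x := (s, t)) (y := (s', t'))
      ⟨le_refl s, h.2.1, le_refl t⟩ ⟨hs', ht'⟩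
  obtain ⟨s₀, h₀⟩ := (t1289_large cA cB one_pos).exists
  refine ⟨Om (s₀, 1) - Complex.log (A s₀ - B 1), fun s t h => ?_⟩
  have hm : 0 < min t 1 := lt_min h.2.1 one_pos
  have e1 := key s t h (max s s₀) (le_max_left _ _) (min t 1) ⟨hm, min_le_left _ _⟩
  have e2 := key s₀ 1 h₀ (max s s₀) (le_max_right _ _) (min t 1) ⟨hm, min_le_right _ _⟩
  linear_combination e1 - e2

lemma t1289_log_neg {x : ℂ} (hx : 0 < x.im) :
    Complex.log x = Complex.log (-x) + π * I := by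
  apply Complex.ext
  · simp [Complex.log_re]
  · simp [Complex.log_im, Complex.arg_neg_eq_arg_sub_pi_of_im_pos hx]

lemma t1289_log_div {x y : ℂ} (hx : 0 < x.re) (hy : 0 < y.re) :
    Complex.log (y / x) = Complex.log y - Complex.log x := by
  have hx0 : x ≠ 0 := fun h => by simp [h] at hx
  have hy0 : y ≠ 0 := fun h => by simp [h] at hy
  have a1 := abs_lt.1 (Complex.abs_arg_lt_pi_div_two_iff.2 (Or.inl hx))
  have a2 := abs_lt.1 (Complex.abs_arg_lt_pi_div_two_iff.2 (Or.inl hy))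
  have e : y / x = Complex.exp (Complex.log y - Complex.log x) := by
    rw [Complex.exp_sub, Complex.exp_log hx0, Complex.exp_log hy0]
  rw [e, Complex.log_exp]
  · rw [Complex.sub_im, Complex.log_im, Complex.log_im]; linarith [a1.1, a1.2, a2.1, a2.2]
  · rw [Complex.sub_im, Complex.log_im, Complex.log_im]; linarith [a1.1, a1.2, a2.1, a2.2]

lemma t1289_key {A B : ℝ → ℂ} (cA : Cross A) (cB : Cross B)
    (hne : ∀ s > 0, ∀ t > 0, A s ≠ B t) :
    ∃ (Om : ℝ × ℝ → ℂ) (u v : ℂ), ContinuousOn Om (Ioi 0 ×ˢ Ioi 0) ∧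
      (∀ p ∈ Ioi (0 : ℝ) ×ˢ Ioi (0 : ℝ), Complex.exp (Om p) = A p.1 - B p.2) ∧
      (∀ s t, t1289_U A B s t → Om (s, t) = u + Complex.log (A s - B t)) ∧
      (∀ s t, t1289_U B A t s → Om (s, t) = v + Complex.log (B t - A s)) ∧
      ((∃ S : ℝ, ∀ s ≥ S, ∀ t ≥ S, (B t).im < (A s).im) → v - u = π * I) ∧
      ((∃ S : ℝ, ∀ s ≥ S, ∀ t ≥ S, (A s).im < (B t).im) → v - u = -(π * I)) := by
  obtain ⟨Om, hOm, he⟩ := Pool.Agent.Lib.PlaneTop.hasLogOn_of_convex
    (F := fun p : ℝ × ℝ => A p.1 - B p.2) ((convex_Ioi (0 : ℝ)).prod (convex_Ioi (0 : ℝ)))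
    (t1289_contD cA cB) (fun p hp => sub_ne_zero.2 (hne p.1 hp.1 p.2 hp.2))
  obtain ⟨u, hu⟩ := t1289_constU cA cB one_ne_zero hOm (fun p hp => by rw [he p hp, one_mul])
  obtain ⟨v, hv⟩ := t1289_constU cB cA (Om := fun p => Om p.swap) (c := -1) (by norm_num)
    (hOm.comp continuous_swap.continuousOn fun p hp => ⟨hp.2, hp.1⟩)
    (fun p hp => by
      rw [he p.swap ⟨hp.2, hp.1⟩]
      simp)
  have hv' : ∀ s t, t1289_U B A t s → Om (s, t) = v + Complex.log (B t - A s) :=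
    fun s t h => hv t s h
  have main : ∀ S : ℝ, (∀ s ≥ S, ∀ t ≥ S, (A s - B t).im ≠ 0) →
      ∃ s ≥ S, ∃ t ≥ S, v - u = Complex.log (A s - B t) - Complex.log (B t - A s) := by
    intro S hS
    have hT : 0 < max S 1 := lt_max_of_lt_right one_pos
    obtain ⟨s, hs, hs'⟩ := ((t1289_large cA cB hT).and (eventually_ge_atTop (max S 1))).exists
    obtain ⟨t, ht, ht'⟩ := ((t1289_large cB cA hT).and (eventually_ge_atTop (max S 1))).exists
    have hsub : Ici (max S 1) ×ˢ Ici (max S 1) ⊆ Ioi (0 : ℝ) ×ˢ Ioi (0 : ℝ) :=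
      fun p hp => ⟨lt_of_lt_of_le hT hp.1, lt_of_lt_of_le hT hp.2⟩
    have e := t1289_const (K := Ici (max S 1) ×ˢ Ici (max S 1))
      (E := fun p : ℝ × ℝ => A p.1 - B p.2) one_ne_zero
      (isPreconnected_Ici.prod isPreconnected_Ici) (hOm.mono hsub)
      ((t1289_contD cA cB).mono hsub)
      (fun p hp => Or.inr (hS p.1 ((le_max_left _ _).trans hp.1) p.2
        ((le_max_left _ _).trans hp.2)))
      (fun p hp => by rw [he p (hsub hp), one_mul]) (x := (s, max S 1)) (y := (max S 1, t))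
      ⟨hs', le_refl (max S 1)⟩ ⟨le_refl (max S 1), ht'⟩
    refine ⟨max S 1, le_max_left _ _, t, (le_max_left _ _).trans ht', ?_⟩
    have e1 := hu _ _ hs
    have e2 := hv' _ _ ht
    simp only at e
    linear_combination e1 - e2 - e
  refine ⟨Om, u, v, hOm, he, hu, hv', ?_, ?_⟩
  · rintro ⟨S, hS⟩
    have hp : ∀ s ≥ S, ∀ t ≥ S, 0 < (A s - B t).im := fun s hs t ht => by
      rw [Complex.sub_im]; linarith [hS s hs t ht]
    obtain ⟨s, hs, t, ht, e⟩ := main S fun s hs t ht => (hp s hs t ht).ne'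
    rw [e, t1289_log_neg (hp s hs t ht), neg_sub]
    ring
  · rintro ⟨S, hS⟩
    have hp : ∀ s ≥ S, ∀ t ≥ S, 0 < (B t - A s).im := fun s hs t ht => by
      rw [Complex.sub_im]; linarith [hS s hs t ht]
    obtain ⟨s, hs, t, ht, e⟩ := main S fun s hs t ht => by
      rw [Complex.sub_im]
      exact (sub_neg.2 (hS s hs t ht)).ne
    rw [e, t1289_log_neg (hp s hs t ht), neg_sub]
    ring

/-- The order of two disjoint crossing curves can be read off at either end. -/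
theorem order_pres {A B A' B' : ℝ → ℂ} {κ : ℝ} (hκ : 0 < κ) (cA : Cross A) (cB : Cross B)
    (cA' : Cross A') (cB' : Cross B') (hne : ∀ s > 0, ∀ t > 0, A s ≠ B t)
    (hne' : ∀ s > 0, ∀ t > 0, A' s ≠ B' t)
    (hS : ∃ S : ℝ, ∀ s ≥ S, ∀ t ≥ S, (B t).im < (A s).im)
    (hS' : ∃ S : ℝ, ∀ s ≥ S, ∀ t ≥ S, (A' s).im < (B' t).im)
    (hr : ∃ ε > 0, ∀ s ∈ Ioo (0 : ℝ) ε, ∀ t ∈ Ioo (0 : ℝ) ε,
      0 < ((A' (κ * s) - B' (κ * t)) / (A s - B t)).re) : False := by
  obtain ⟨Om, u, v, hOm, he, hu, hv, h1, -⟩ := t1289_key cA cB hne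
  obtain ⟨Om', u', v', hOm', he', hu', hv', -, h2⟩ := t1289_key cA' cB' hne'
  have e1 := h1 hS
  have e2 := h2 hS'
  obtain ⟨ε, hε, hr⟩ := hr
  have hκt : Tendsto (fun t : ℝ => κ * t) (𝓝[>] 0) (𝓝[>] 0) := by
    refine tendsto_nhdsWithin_iff.2 ⟨?_, ?_⟩
    · have : Tendsto (fun t : ℝ => κ * t) (𝓝 0) (𝓝 (κ * 0)) :=
        (continuous_const.mul continuous_id).tendsto 0
      rw [mul_zero] at this
      exact this.mono_left nhdsWithin_le_nhds
    · filter_upwards [self_mem_nhdsWithin] with t ht using mul_pos hκ ht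
  have hh : ε / 2 ∈ Ioo (0 : ℝ) ε := ⟨half_pos hε, half_lt_self hε⟩
  obtain ⟨t, ⟨ht1, ht2⟩, ht3⟩ := (((t1289_small cA cB hh.1).and
    (hκt.eventually (t1289_small cA' cB' (mul_pos hκ hh.1)))).and (Ioo_mem_nhdsGT hε)).exists
  obtain ⟨s, ⟨hs1, hs2⟩, hs3⟩ := (((t1289_small cB cA hh.1).and
    (hκt.eventually (t1289_small cB' cA' (mul_pos hκ hh.1)))).and (Ioo_mem_nhdsGT hε)).exists
  have hsub : Ioo (0 : ℝ) ε ×ˢ Ioo (0 : ℝ) ε ⊆ Ioi (0 : ℝ) ×ˢ Ioi (0 : ℝ) :=
    fun p hp => ⟨hp.1.1, hp.2.1⟩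
  have hmap : MapsTo (fun p : ℝ × ℝ => (κ * p.1, κ * p.2)) (Ioo (0 : ℝ) ε ×ˢ Ioo (0 : ℝ) ε)
      (Ioi (0 : ℝ) ×ˢ Ioi (0 : ℝ)) := fun p hp => ⟨mul_pos hκ hp.1.1, mul_pos hκ hp.2.1⟩
  have hcm : ContinuousOn (fun p : ℝ × ℝ => (κ * p.1, κ * p.2))
      (Ioo (0 : ℝ) ε ×ˢ Ioo (0 : ℝ) ε) := by fun_prop
  have e := t1289_const (K := Ioo (0 : ℝ) ε ×ˢ Ioo (0 : ℝ) ε)
    (Om := fun p : ℝ × ℝ => Om' (κ * p.1, κ * p.2) - Om p)
    (E := fun p : ℝ × ℝ => (A' (κ * p.1) - B' (κ * p.2)) / (A p.1 - B p.2)) one_ne_zero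
    (isPreconnected_Ioo.prod isPreconnected_Ioo) ((hOm'.comp hcm hmap).sub (hOm.mono hsub))
    (((t1289_contD cA' cB').comp hcm hmap).div ((t1289_contD cA cB).mono hsub)
      fun p hp => sub_ne_zero.2 (hne p.1 hp.1.1 p.2 hp.2.1))
    (fun p hp => Or.inl (hr p.1 hp.1 p.2 hp.2))
    (fun p hp => by rw [Complex.exp_sub, he p (hsub hp), he' _ (hmap hp), one_mul])
    (x := (ε / 2, t)) (y := (s, ε / 2)) ⟨hh, ht3⟩ ⟨hs3, hh⟩
  have pos : ∀ {C D : ℝ → ℂ} {a b : ℝ}, t1289_U C D a b → 0 < (C a - D b).re := fun h => by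
    have := h.2.2 _ (le_refl _) _ ⟨h.2.1, le_refl _⟩
    rw [Complex.sub_re]; linarith
  have f1 := t1289_log_div (pos ht1) (pos ht2)
  have f2 := t1289_log_div (pos hs1) (pos hs2)
  have f3 : (A' (κ * s) - B' (κ * (ε / 2))) / (A s - B (ε / 2)) =
      (B' (κ * (ε / 2)) - A' (κ * s)) / (B (ε / 2) - A s) := by
    rw [← neg_div_neg_eq, neg_sub, neg_sub]
  simp only at e
  rw [f3, f1, f2, hu _ _ ht1, hu' _ _ ht2, hv _ _ hs1, hv' _ _ hs2] at e
  have z : (2 : ℂ) * (π * I) = 0 := by linear_combination e2 - e1 + e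
  simp [Real.pi_ne_zero] at z

theorem t1290_per {Γ : ℤ → ℝ → ℂ} {q : ℕ}
    (hper : ∀ j, ∀ s > 0, Γ (j + q) s = Γ j s + 2 * π * I) (m j : ℤ) {s : ℝ} (hs : 0 < s) :
    Γ (j + q * m) s = Γ j s + 2 * π * I * m := by
  induction m using Int.induction_on with
  | zero => simp
  | succ m ih =>
    rw [show j + q * ((m : ℤ) + 1) = j + q * m + q by ring, hper _ s hs, ih]
    push_cast; ring
  | pred m ih =>
    have := hper (j + q * (-(m : ℤ) - 1)) s hs
    rw [show j + q * (-(m : ℤ) - 1) + q = j + q * (-(m : ℤ)) by ring, ih] at this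
    push_cast at this ⊢
    linear_combination -this

theorem t1290_unif {Γ : ℤ → ℝ → ℂ} {q : ℕ} (hq : 0 < q) (hc : ∀ j, Cross (Γ j))
    (hper : ∀ j, ∀ s > 0, Γ (j + q) s = Γ j s + 2 * π * I) (R : ℝ) :
    ∃ ε > 0, ∀ s ∈ Ioo (0 : ℝ) ε, ∀ j, (Γ j s).re ≤ -R := by
  have h1 : ∀ᶠ s in 𝓝[>] (0 : ℝ), ∀ j ∈ Finset.Ico (0 : ℤ) q, (Γ j s).re ≤ -R :=
    (eventually_all_finset _).2 fun j _ => (hc j).2.1.eventually (eventually_le_atBot _)
  obtain ⟨ε, hε, h2⟩ := mem_nhdsGT_iff_exists_Ioo_subset.1 h1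
  refine ⟨ε, hε, fun s hs j => ?_⟩
  have q0 : (0 : ℤ) < q := by exact_mod_cast hq
  have h3 := h2 hs (j % q) (Finset.mem_Ico.2 ⟨Int.emod_nonneg _ q0.ne', Int.emod_lt_of_pos _ q0⟩)
  have h4 := t1290_per hper (j / q) (j % q) hs.1
  rw [Int.emod_add_mul_ediv] at h4
  rw [h4]
  simpa using h3

theorem t1290_exp {R : ℝ} {a b : ℂ} (ha : a.re ≤ -R) (hb : b.re ≤ -R) :
    ‖Complex.exp a - Complex.exp b‖ ≤ Real.exp (-R) * ‖a - b‖ :=
  (convex_halfSpace_re_le (-R)).norm_image_sub_le_of_norm_hasDerivWithin_le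
    (f := Complex.exp) (f' := Complex.exp)
    (fun x _ => (Complex.hasDerivAt_exp x).hasDerivWithinAt)
    (fun x hx => by rw [Complex.norm_exp]; exact Real.exp_le_exp.2 hx) hb ha

theorem t1290_tend : Tendsto Complex.exp (comap Complex.re atBot) (𝓝 0) := by
  rw [tendsto_zero_iff_norm_tendsto_zero]
  simp only [Complex.norm_exp]
  exact Real.tendsto_exp_atBot.comp tendsto_comap

theorem t1290_half {p : ℂ → Prop} (h : ∀ᶠ y in 𝓝 (0 : ℂ), p y) :
    ∃ R : ℝ, ∀ R' ≥ R, ∀ a : ℂ, a.re ≤ -R' → p (Complex.exp a) := by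
  obtain ⟨r, hr⟩ := eventually_atBot.1 (eventually_comap.1 (t1290_tend.eventually h))
  exact ⟨-r, fun R' hR a ha => hr a.re (by linarith) a rfl⟩

/-- The lift of the map near the fixed point. -/
theorem t1290_loc {φ : ℂ → ℂ} (hφ : Differentiable ℂ φ) (h0 : φ 0 ≠ 0) :
    ∃ (h : ℂ → ℂ) (R : ℝ),
      (∀ a : ℂ, a.re ≤ -R →
        Complex.exp (a + Complex.log (φ 0) + h a) = Complex.exp a * φ (Complex.exp a)) ∧
      (∀ a b : ℂ, a.re ≤ -R → b.re ≤ -R → ‖h a - h b‖ ≤ 1 / 2 * ‖a - b‖) ∧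
      Tendsto h (comap Complex.re atBot) (𝓝 0) ∧ ∀ a, h (a + 2 * π * I) = h a := by
  have an : AnalyticAt ℂ (fun y => Complex.log (φ y / φ 0)) 0 :=
    ((hφ.analyticAt 0).div_const).clog (by rw [div_self h0]; exact Complex.one_mem_slitPlane)
  obtain ⟨K, t, ht, hK⟩ := (an.contDiffAt (n := 1)).exists_lipschitzOnWith
  obtain ⟨R, hR⟩ := t1290_half ((hφ.continuous.continuousAt.eventually_ne h0).and ht)
  have k0 : (0 : ℝ) ≤ K := K.2
  refine ⟨fun a => Complex.log (φ (Complex.exp a) / φ 0), max R (2 * K), fun a ha => ?_,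
    fun a b ha hb => ?_, ?_, fun a => ?_⟩
  · rw [Complex.exp_add, Complex.exp_add, Complex.exp_log h0,
      Complex.exp_log (div_ne_zero (hR _ (le_max_left _ _) a ha).1 h0)]
    field_simp
  · have k1 := hK.norm_sub_le (hR _ (le_max_left _ _) a ha).2 (hR _ (le_max_left _ _) b hb).2
    have k2 := mul_le_mul_of_nonneg_left (t1290_exp ha hb) k0
    have k3 : (K : ℝ) * Real.exp (-max R (2 * K)) ≤ 1 / 2 := by
      rw [Real.exp_neg, ← div_eq_mul_inv, div_le_iff₀ (Real.exp_pos _)]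
      have := Real.add_one_le_exp (max R (2 * K))
      have := le_max_right R (2 * K)
      linarith
    have k4 := mul_le_mul_of_nonneg_right k3 (norm_nonneg (a - b))
    rw [← mul_assoc] at k2
    exact k1.trans (k2.trans k4)
  · have := an.continuousAt.tendsto.comp t1290_tend
    rwa [div_self h0, Complex.log_one] at this
  · simp only [Complex.exp_add, Complex.exp_two_pi_mul_I, mul_one]

theorem t1290_zero {Γ : ℤ → ℝ → ℂ} {p : ℕ} {κ : ℝ} (hκ : 1 < κ) {ε : ℝ} (hε : 0 < ε)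
    (h : ∀ s ∈ Ioo (0 : ℝ) ε, ∀ j, (Γ (j + p) (κ * s)).re ≤ (Γ j s).re)
    (hu : ∀ R : ℝ, ∃ ε > 0, ∀ s ∈ Ioo (0 : ℝ) ε, ∀ j, (Γ j s).re ≤ -R) : False := by
  have κ0 : 0 < κ := by linarith
  have h1 : ∀ i : ℕ, (Γ 0 (ε / 2)).re ≤ (Γ (-(p * i)) (ε / 2 / κ ^ i)).re := by
    intro i
    induction i with
    | zero => simp
    | succ i ih =>
      have := h (ε / 2 / κ ^ (i + 1)) ⟨by positivity, by
        have := div_le_self (by linarith : 0 ≤ ε / 2) (one_le_pow₀ (n := i + 1) hκ.le)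
        linarith⟩ (-(p * (i + 1 : ℕ)))
      rw [show -((p : ℤ) * (i + 1 : ℕ)) + p = -(p * i) by push_cast; ring,
        show κ * (ε / 2 / κ ^ (i + 1)) = ε / 2 / κ ^ i by rw [pow_succ]; field_simp] at this
      exact ih.trans this
  obtain ⟨δ, hδ, h2⟩ := hu (1 - (Γ 0 (ε / 2)).re)
  obtain ⟨i, hi⟩ := pow_unbounded_of_one_lt (ε / 2 / δ) hκ
  have := h2 (ε / 2 / κ ^ i) ⟨by positivity, by
    rw [div_lt_iff₀ (by positivity)]
    rw [div_lt_iff₀ hδ] at hi
    linarith⟩ (-(p * i))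
  linarith [h1 i]

theorem t1290_step {σ : ℤ → ℤ} (hσ : StrictMono σ) {q : ℕ} (hq : 0 < q)
    (h : ∀ j, σ (j + q) = σ j + q) (j : ℤ) : σ (j + 1) = σ j + 1 := by
  have h1 : ∀ (k : ℕ) (j : ℤ), σ j + k ≤ σ (j + k) := by
    intro k j
    induction k with
    | zero => simp
    | succ k ih =>
      have := hσ (show j + k < j + (k + 1 : ℕ) by push_cast; linarith)
      push_cast at this ⊢
      omega
  obtain ⟨k, rfl⟩ : ∃ k, q = k + 1 := ⟨q - 1, by omega⟩
  have h2 := h1 k (j + 1)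
  have h3 := h j
  have h4 := hσ (show j < j + 1 by linarith)
  rw [show j + 1 + k = j + (k + 1 : ℕ) by push_cast; ring] at h2
  push_cast at h2 h3
  omega

theorem t1290_im {Γ : ℤ → ℝ → ℂ} {θ : ℤ → ℝ} (hθ : StrictMono θ)
    (him : ∀ j, Tendsto (fun s => (Γ j s).im) atTop (𝓝 (θ j))) {i j : ℤ} (h : i < j) :
    ∃ S : ℝ, ∀ s ≥ S, ∀ t ≥ S, (Γ i s).im < (Γ j t).im := by
  obtain ⟨m, h1, h2⟩ := exists_between (hθ h)
  obtain ⟨S, hS⟩ := eventually_atTop.1
    (((him i).eventually_lt_const h1).and ((him j).eventually_const_lt h2))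
  exact ⟨S, fun s hs t ht => (hS s hs).1.trans (hS t ht).2⟩

theorem t1290_re {u v : ℂ} (hu : u ≠ 0) (h : ‖v‖ ≤ 1 / 2 * ‖u‖) : 0 < ((u + v) / u).re := by
  have h1 : ‖v / u‖ ≤ 1 / 2 := by rwa [norm_div, div_le_iff₀ (norm_pos_iff.2 hu)]
  have h2 := (abs_le.1 ((Complex.abs_re_le_norm _).trans h1)).1
  rw [add_div, div_self hu, Complex.add_re, Complex.one_re]
  linarith

theorem t1290_mul {c : ℝ} (hc : 0 < c) : Tendsto (fun s => c * s) (𝓝[>] (0 : ℝ)) (𝓝[>] 0) := by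
  refine tendsto_nhdsWithin_iff.2 ⟨?_, eventually_nhdsWithin_of_forall fun s hs => mul_pos hc hs⟩
  have := (tendsto_id.const_mul c : Tendsto (fun s => c * s) (𝓝 (0 : ℝ)) (𝓝 (c * 0)))
  rw [mul_zero] at this
  exact this.mono_left nhdsWithin_le_nhds

theorem t1290_tele {Γ : ℤ → ℝ → ℂ} {p : ℕ} {κ : ℝ} (hκ : 0 < κ) {L : ℂ}
    (h : ∀ j, Tendsto (fun s => Γ (j + p) (κ * s) - Γ j s) (𝓝[>] 0) (𝓝 L)) (j : ℤ) (k : ℕ) :
    Tendsto (fun s => Γ (j + k * p) (κ ^ k * s) - Γ j s) (𝓝[>] 0) (𝓝 (k * L)) := by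
  induction k with
  | zero => simp
  | succ k ih =>
    have := ((h (j + k * p)).comp (t1290_mul (pow_pos hκ k))).add ih
    rw [show L + k * L = (k + 1 : ℕ) * L by push_cast; ring] at this
    refine this.congr fun s => ?_
    rw [show j + (k + 1 : ℕ) * (p : ℤ) = j + k * p + p by push_cast; ring,
      show κ ^ (k + 1) * s = κ * (κ ^ k * s) by ring]
    simp only [Function.comp]
    ring

/-- The rotation number selects a branch of the logarithm of the multiplier. -/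
theorem rot_lift {F : ℂ → ℂ} (hF : Differentiable ℂ F) {z : ℂ} (hz : F z = z) {Γ : ℤ → ℝ → ℂ}
    {θ : ℤ → ℝ} {p q : ℕ} (hq : 0 < q) {κ : ℝ} (hκ : 1 < κ) (hθ : StrictMono θ)
    (hc : ∀ j, Cross (Γ j)) (him : ∀ j, Tendsto (fun s => (Γ j s).im) atTop (𝓝 (θ j)))
    (hne : ∀ i j, i ≠ j → ∀ s > 0, ∀ t > 0, Γ i s ≠ Γ j t)
    (hper : ∀ j, ∀ s > 0, Γ (j + q) s = Γ j s + 2 * π * I)
    (hsemi : ∀ j, ∀ s > 0, z + Complex.exp (Γ (j + p) (κ * s)) = F (z + Complex.exp (Γ j s))) :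
    ∃ L : ℂ, Complex.exp L = deriv F z ∧ ∀ j,
      Tendsto (fun s => Γ j (κ ^ q * s) - Γ j s) (𝓝[>] 0) (𝓝 (q * L - 2 * π * I * p)) := by
  have κ0 : 0 < κ := by linarith
  obtain ⟨φ, dφ, φ0, hφ⟩ : ∃ φ : ℂ → ℂ, Differentiable ℂ φ ∧ φ 0 = deriv F z ∧
      ∀ y, F (z + y) = z + y * φ y := by
    refine ⟨fun y => dslope F z (z + y), ?_, by simp, fun y => ?_⟩
    · exact (differentiableOn_univ.1 ((Complex.differentiableOn_dslope univ_mem).2
        hF.differentiableOn)).comp (differentiable_id.const_add z)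
    · have := sub_smul_dslope F z (z + y)
      rw [add_sub_cancel_left, smul_eq_mul, hz] at this
      linear_combination -this
  have hs : ∀ j, ∀ s > 0, Complex.exp (Γ (j + p) (κ * s)) =
      Complex.exp (Γ j s) * φ (Complex.exp (Γ j s)) := fun j s hs =>
    add_left_cancel ((hsemi j s hs).trans (hφ _))
  have hu := t1290_unif hq hc hper
  have h0 : φ 0 ≠ 0 := by
    intro h0
    obtain ⟨R, hR⟩ := t1290_half (dφ.continuous.norm.continuousAt.eventually_lt_const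
      (show ‖φ 0‖ < 1 by rw [h0, norm_zero]; exact one_pos))
    obtain ⟨ε, hε, h1⟩ := hu R
    refine t1290_zero (p := p) hκ hε (fun s hs' j => ?_) hu
    rw [← Real.exp_le_exp, ← Complex.norm_exp, ← Complex.norm_exp, hs j s hs'.1, norm_mul]
    exact mul_le_of_le_one_right (norm_nonneg _) (hR R le_rfl _ (h1 s hs' j)).le
  obtain ⟨h, R, e1, e2, e3, e4⟩ := t1290_loc dφ h0
  obtain ⟨ε, hε, h1⟩ := hu R
  have hm : ε / 2 ∈ Ioo (0 : ℝ) ε := ⟨by linarith, by linarith⟩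
  have ch : ContinuousOn h {a | a.re ≤ -R} :=
    (LipschitzOnWith.of_dist_le_mul (K := 1 / 2) fun a ha b hb => by
      rw [dist_eq_norm, dist_eq_norm]; exact_mod_cast e2 a b ha hb).continuousOn
  have key : ∀ j, ∃ n : ℤ, ∀ s ∈ Ioo (0 : ℝ) ε,
      Γ (j + p) (κ * s) = Γ j s + Complex.log (φ 0) + h (Γ j s) + 2 * π * I * n := by
    intro j
    have he : ∀ s ∈ Ioo (0 : ℝ) ε, Complex.exp (Γ (j + p) (κ * s)) =
        Complex.exp (Γ j s + Complex.log (φ 0) + h (Γ j s)) := fun s hs' => by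
      rw [hs j s hs'.1, e1 _ (h1 s hs' j)]
    obtain ⟨n, hn⟩ := Complex.exp_eq_exp_iff_exists_int.1 (he _ hm)
    have c1 : ContinuousOn (Γ j) (Ioo 0 ε) := (hc j).1.mono Ioo_subset_Ioi_self
    refine ⟨n, fun s hs' => ?_⟩
    have := Pool.Agent.Lib.PlaneTop.log_sub_const isPreconnected_Ioo
      ((hc (j + p)).1.comp (continuous_const.mul continuous_id).continuousOn
        fun s hs => mul_pos κ0 hs.1)
      ((c1.add continuousOn_const).add (ch.comp c1 fun s hs => h1 s hs j)) he hs' hm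
    simp only [Function.comp, Pi.add_apply, Pi.mul_apply, id] at this
    linear_combination this + hn
  choose n hn using key
  have tp : (2 * π * I : ℂ) ≠ 0 := Complex.two_pi_I_ne_zero
  have nq : ∀ j, n (j + q) = n j := fun j => by
    have a1 := hn (j + q) _ hm
    rw [add_right_comm, hper _ _ (mul_pos κ0 hm.1), hper _ _ hm.1, e4, hn j _ hm] at a1
    have : (n (j + q) : ℂ) = n j := mul_left_cancel₀ tp (by linear_combination -a1)
    exact_mod_cast this
  have sg : ∀ j, ∀ s ∈ Ioo (0 : ℝ) ε,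
      Γ (j + p + q * -n j) (κ * s) = Γ j s + Complex.log (φ 0) + h (Γ j s) := fun j s hs' => by
    rw [t1290_per hper _ _ (mul_pos κ0 hs'.1), hn j s hs']
    push_cast; ring
  have hr : ∀ i j, i < j → ∀ s ∈ Ioo (0 : ℝ) ε, ∀ t ∈ Ioo (0 : ℝ) ε,
      0 < ((Γ (j + p + q * -n j) (κ * s) - Γ (i + p + q * -n i) (κ * t)) /
        (Γ j s - Γ i t)).re := fun i j hij s hs' t ht => by
    have := t1290_re (sub_ne_zero.2 (hne j i hij.ne' s hs'.1 t ht.1))
      (e2 _ _ (h1 s hs' j) (h1 t ht i))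
    rw [sg j s hs', sg i t ht]
    rwa [show Γ j s - Γ i t + (h (Γ j s) - h (Γ i t)) = Γ j s + Complex.log (φ 0) + h (Γ j s) -
      (Γ i t + Complex.log (φ 0) + h (Γ i t)) by ring] at this
  have mono : StrictMono fun j => j + p + q * -n j := by
    intro i j hij
    rcases lt_trichotomy (i + p + q * -n i) (j + p + q * -n j) with h2 | h2 | h2
    · exact h2
    · have := hr i j hij _ hm _ hm
      rw [h2, sub_self, zero_div] at this
      exact absurd this (lt_irrefl _)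
    · obtain ⟨S, hS⟩ := t1290_im hθ him hij
      exact (order_pres κ0 (hc j) (hc i) (hc _) (hc _) (hne j i hij.ne') (hne _ _ h2.ne)
        ⟨S, fun s hs t ht => hS t ht s hs⟩ (t1290_im hθ him h2) ⟨ε, hε, hr i j hij⟩).elim
  have q0 : (q : ℤ) ≠ 0 := by exact_mod_cast hq.ne'
  have n1 : ∀ j, n (j + 1) = n j := fun j => by
    have := t1290_step mono hq (fun j => by simp only [nq]; ring) j
    exact mul_left_cancel₀ q0 (by linear_combination -this)
  have n0 : ∀ j, n j = n 0 := fun j => by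
    induction j using Int.induction_on with
    | zero => rfl
    | succ m ih => rw [n1, ih]
    | pred m ih => rw [← n1, sub_add_cancel, ih]
  refine ⟨Complex.log (φ 0) + 2 * π * I * n 0, ?_, fun j => ?_⟩
  · rw [Complex.exp_add, Complex.exp_log h0, mul_comm (2 * π * I : ℂ),
      Complex.exp_int_mul_two_pi_mul_I, mul_one, φ0]
  · have lim : ∀ j, Tendsto (fun s => Γ (j + p) (κ * s) - Γ j s) (𝓝[>] 0)
        (𝓝 (Complex.log (φ 0) + 2 * π * I * n 0)) := fun j => by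
      have := (e3.comp (tendsto_comap_iff.2 (hc j).2.1)).const_add
        (Complex.log (φ 0) + 2 * π * I * n 0)
      rw [add_zero] at this
      refine this.congr' ?_
      filter_upwards [Ioo_mem_nhdsGT hε] with s hs'
      rw [hn j s hs', n0 j]
      simp only [Function.comp]
      ring
    refine ((t1290_tele κ0 lim j q).sub_const (2 * π * I * p)).congr' ?_
    filter_upwards [self_mem_nhdsWithin] with s hs'
    rw [t1290_per hper _ _ (mul_pos (pow_pos κ0 q) hs')]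
    push_cast; ring

end Pool.Agent.MP_28f8a1_an.H42

end

-- part MP_28f8a1_an.H42.YocB
section

/-! The length-area estimate behind the Pommerenke-Levin-Yoccoz inequality. -/

set_option autoImplicit false

namespace Pool.Agent.MP_28f8a1_an.H42

open MeasureTheory Metric Set Real Filter Topology
open Complex (I)
open scoped ENNReal

theorem t1291_deriv {G : ℂ → ℂ} (dG : DifferentiableOn ℂ G {ζ | 0 < ζ.re})
    (iG : InjOn G {ζ | 0 < ζ.re})
    (pG : ∀ ζ : ℂ, 0 < ζ.re → G (ζ + 2 * π * I) = G ζ + 2 * π * I) {x : ℂ} {R : ℝ} (hR : 0 < R)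
    (h1 : R ≤ x.re) (h2 : R ≤ π) : ‖deriv G x‖ ≤ 384 / (R / 2) := by
  have hs : ball x R ⊆ {ζ | 0 < ζ.re} := fun z hz => by
    have := (abs_le.1 (Complex.abs_re_le_norm (z - x))).1
    rw [mem_ball, dist_eq_norm] at hz
    rw [Complex.sub_re] at this
    show 0 < z.re
    linarith
  have hn : ‖(π * I : ℂ)‖ < 4 := by
    rw [norm_mul, Complex.norm_I, mul_one, Complex.norm_real, Real.norm_of_nonneg pi_pos.le]
    exact pi_lt_four
  have h3 := t33_bloch hR (dG.mono hs) fun w => by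
    by_contra hc
    push Not at hc
    obtain ⟨u, hu, e1⟩ := hc (w - π * I) (by rw [mem_ball, dist_eq_norm]; simpa using hn)
    obtain ⟨v, hv, e2⟩ := hc (w + π * I) (by rw [mem_ball, dist_eq_norm]; simpa using hn)
    have e3 : u + 2 * π * I = v := iG (by simpa using hs hu) (hs hv) (by
      rw [pG u (hs hu), e1, e2]; ring)
    have e4 := dist_triangle_right v u x
    rw [← e3, dist_eq_norm, add_sub_cancel_left, e3, norm_mul, Complex.norm_I, norm_mul,
      Complex.norm_real, Real.norm_of_nonneg pi_pos.le, Complex.norm_ofNat] at e4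
    linarith [mem_ball.1 hu, mem_ball.1 hv]
  exact Complex.norm_deriv_le_div_of_mapsTo_ball
    (dG.mono ((ball_subset_ball (by linarith)).trans hs))
    (fun z hz => mem_closedBall_iff_norm.2 (h3 z hz)) (by linarith)

/-- Oscillation in a sector at a boundary point. -/
theorem sector_osc {G : ℂ → ℂ} (dG : DifferentiableOn ℂ G {ζ | 0 < ζ.re})
    (iG : InjOn G {ζ | 0 < ζ.re})
    (pG : ∀ ζ : ℂ, 0 < ζ.re → G (ζ + 2 * π * I) = G ζ + 2 * π * I) {β : ℝ} (hβ : β < π / 2) :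
    ∃ C : ℝ, ∀ (θ : ℝ) (w : ℂ), w.re ≤ 0 → |w.im| ≤ β →
      ‖G (Complex.exp w + θ * I) - G (Real.exp w.re + θ * I)‖ ≤ C := by
  refine ⟨1536 / Real.cos β, fun θ w h1 h2 => ?_⟩
  have b0 : 0 ≤ β := (abs_nonneg _).trans h2
  have c0 : 0 < Real.cos β := cos_pos_of_mem_Ioo ⟨by linarith [pi_pos], hβ⟩
  have s0 := Real.exp_pos w.re
  have s1 : Real.exp w.re ≤ 1 := Real.exp_le_one_iff.2 h1
  have r0 : 0 < Real.exp w.re * Real.cos β := mul_pos s0 c0
  have r1 : Real.exp w.re * Real.cos β ≤ Real.exp w.re := mul_le_of_le_one_right s0.le (cos_le_one β)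
  have c1 : Real.cos β ≤ Real.cos w.im := by
    rw [← Real.cos_abs w.im]
    exact cos_le_cos_of_nonneg_of_le_pi (abs_nonneg _) (by linarith [pi_pos]) h2
  have h3 := (convex_halfSpace_re_ge (Real.exp w.re * Real.cos β)).norm_image_sub_le_of_norm_deriv_le
    (𝕜 := ℂ) (f := G) (x := Real.exp w.re + θ * I) (y := Complex.exp w + θ * I)
    (fun z hz => dG.differentiableAt ((isOpen_lt continuous_const Complex.continuous_re).mem_nhds
      (lt_of_lt_of_le r0 hz)))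
    (fun z hz => t1291_deriv dG iG pG r0 hz (by linarith [pi_gt_three]))
    (show _ ≤ Complex.re _ by simpa [-Complex.ofReal_exp] using r1)
    (show _ ≤ Complex.re _ by
      simpa [Complex.exp_re] using (mul_le_mul_of_nonneg_left c1 s0.le))
  refine h3.trans ?_
  have h4 : ‖Complex.exp w + θ * I - (Real.exp w.re + θ * I)‖ ≤ 2 * Real.exp w.re := by
    rw [add_sub_add_right_eq_sub]
    refine (norm_sub_le _ _).trans ?_
    rw [Complex.norm_exp, Complex.norm_real, Real.norm_of_nonneg s0.le, two_mul]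
  refine (mul_le_mul_of_nonneg_left h4 (by positivity)).trans (le_of_eq ?_)
  field_simp
  norm_num

/-- Lower bound for the area of the image of a rectangle. -/
theorem rect_lower {H : ℂ → ℂ} {O : Set ℂ} (hO : IsOpen O) (dH : DifferentiableOn ℂ H O)
    {a b β l μ : ℝ} (hab : a ≤ b) (hβ : 0 ≤ β) (hμ : 0 ≤ μ)
    (hsub : {w : ℂ | w.re ∈ Icc a b ∧ |w.im| ≤ β} ⊆ O)
    (iH : InjOn H {w : ℂ | w.re ∈ Icc a b ∧ |w.im| ≤ β})
    (hl : ∀ α : ℝ, |α| ≤ β → l ≤ ‖H (b + α * I) - H (a + α * I)‖) :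
    ENNReal.ofReal (2 * β * (2 * μ * l - μ ^ 2 * (b - a))) ≤
      volume (H '' {w : ℂ | w.re ∈ Icc a b ∧ |w.im| ≤ β}) := by
  have e0 : {w : ℂ | w.re ∈ Icc a b ∧ |w.im| ≤ β} =
      Complex.measurableEquivRealProd ⁻¹' (Icc a b ×ˢ Icc (-β) β) := by
    ext w
    simp only [mem_ofPred_eq, abs_le, mem_preimage, mem_prod, mem_Icc,
      Complex.measurableEquivRealProd_apply]
  have hm : MeasurableSet {w : ℂ | w.re ∈ Icc a b ∧ |w.im| ≤ β} := by
    rw [e0]
    exact Complex.measurableEquivRealProd.measurable (measurableSet_Icc.prod measurableSet_Icc)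
  have hd : ∀ z ∈ O, HasDerivAt H (deriv H z) z := fun z hz =>
    (dH.differentiableAt (hO.mem_nhds hz)).hasDerivAt
  have h1 := LI_image hm (fun z hz => hd z (hsub hz)) iH fun _ => 1
  rw [LI_const, ENNReal.ofReal_one, one_mul] at h1
  have h2 := Complex.volume_preserving_equiv_real_prod.setLIntegral_comp_preimage_emb
    Complex.measurableEquivRealProd.measurableEmbedding
    (fun p => ENNReal.ofReal (‖deriv H (p.1 + p.2 * I)‖ ^ 2)) (Icc a b ×ˢ Icc (-β) β)
  simp only [Complex.measurableEquivRealProd_apply, Complex.re_add_im] at h2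
  have mH := measurable_deriv H
  rw [h1, LI, e0]
  simp only [mul_one]
  rw [h2, Measure.volume_eq_prod, ← Measure.prod_restrict, lintegral_prod_symm' _ (by fun_prop)]
  have h3 : ∀ α ∈ Icc (-β) β, ENNReal.ofReal (2 * μ * l - μ ^ 2 * (b - a)) ≤
      ∫⁻ t in Icc a b, ENNReal.ofReal (‖deriv H (t + α * I)‖ ^ 2) := fun α hα => by
    have k0 : ∀ t ∈ uIcc a b, (t : ℂ) + α * I ∈ O := fun t ht =>
      hsub ⟨by simpa [uIcc_of_le hab] using ht, by simpa [abs_le] using hα⟩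
    have k1 : ContinuousOn (fun t : ℝ => deriv H (t + α * I)) (uIcc a b) :=
      (dH.deriv hO).continuousOn.comp (by fun_prop) k0
    have k2 : ∫ t in a..b, deriv H (t + α * I) = H (b + α * I) - H (a + α * I) :=
      intervalIntegral.integral_eq_sub_of_hasDerivAt (f := fun t : ℝ => H (t + α * I))
        (fun t ht => ((hd _ (k0 t ht)).comp_add_const (t : ℂ) (α * I)).comp_ofReal)
        k1.intervalIntegrable
    have k3 := (hl α (abs_le.2 hα)).trans
      (k2 ▸ intervalIntegral.norm_integral_le_integral_norm hab)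
    have k4 := intervalIntegral.integral_mono_on (μ := volume) hab
      (f := fun t => 2 * μ * ‖deriv H (t + α * I)‖ - μ ^ 2)
      (g := fun t => ‖deriv H (t + α * I)‖ ^ 2)
      ((continuousOn_const.mul k1.norm).sub continuousOn_const).intervalIntegrable
      (k1.norm.pow 2).intervalIntegrable
      fun t _ => by nlinarith [sq_nonneg (‖deriv H (t + α * I)‖ - μ)]
    rw [intervalIntegral.integral_sub (k1.norm.intervalIntegrable.const_mul _)
      intervalIntegrable_const, intervalIntegral.integral_const_mul,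
      intervalIntegral.integral_const, smul_eq_mul] at k4
    rw [uIcc_of_le hab] at k1
    have k5 : Integrable (fun t : ℝ => ‖deriv H (t + α * I)‖ ^ 2) (volume.restrict (Icc a b)) :=
      (k1.norm.pow 2).integrableOn_Icc
    rw [← ofReal_integral_eq_lintegral_ofReal k5
      (Eventually.of_forall fun _ => sq_nonneg _), integral_Icc_eq_integral_Ioc,
      ← intervalIntegral.integral_of_le hab]
    exact ENNReal.ofReal_le_ofReal (by nlinarith [mul_le_mul_of_nonneg_left k3 hμ])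
  refine le_trans (le_of_eq ?_) (setLIntegral_mono' measurableSet_Icc h3)
  rw [setLIntegral_const, Real.volume_Icc, mul_comm (2 * β), mul_comm (ENNReal.ofReal _),
    ← ENNReal.ofReal_mul (by linarith)]
  congr 1
  ring

/-- Upper bound for the area of a set that injects into a cylinder. -/
theorem strip_upper {S : Set ℂ} (hS : MeasurableSet S) (hi : InjOn Complex.exp S) {a b : ℝ}
    (h : ∀ w ∈ S, w.re ∈ Icc a b) : volume S ≤ ENNReal.ofReal (2 * π * (b - a)) := by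
  rcases S.eq_empty_or_nonempty with rfl | ⟨w₀, hw₀⟩
  · simp
  have hab : Real.exp a ≤ Real.exp b := Real.exp_le_exp.2 ((h w₀ hw₀).1.trans (h w₀ hw₀).2)
  have h1 := LI_image hS (fun z _ => Complex.hasDerivAt_exp z) hi fun z => (‖z - 0‖ ^ 2)⁻¹
  simp only [sub_zero (Complex.exp _), mul_inv_cancel₀ (pow_ne_zero 2
    (norm_ne_zero_iff.2 (Complex.exp_ne_zero _))), LI_const, ENNReal.ofReal_one, one_mul] at h1
  have h0 : Icc (Real.exp a) (Real.exp b) ⊆ Ioi 0 := fun r hr => (Real.exp_pos a).trans_le hr.1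
  have h2 := LI_radial (G := fun r => (r ^ 2)⁻¹) (by fun_prop) 0 measurableSet_Icc h0
  have h3 : Complex.exp '' S ⊆ {z | ‖z - 0‖ ∈ Icc (Real.exp a) (Real.exp b)} := by
    rintro _ ⟨w, hw, rfl⟩
    simpa [Complex.norm_exp] using h w hw
  rw [← h1]
  refine (LI_mono_set h3 _).trans (le_of_eq (h2.trans ?_))
  have h4 : ContinuousOn (fun r : ℝ => 2 * π * r⁻¹) (Icc (Real.exp a) (Real.exp b)) :=
    continuousOn_const.mul (continuousOn_id.inv₀ fun r hr => (h0 hr).ne')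
  rw [setLIntegral_congr_fun (g := fun r => ENNReal.ofReal (2 * π * r⁻¹)) measurableSet_Icc
    fun r hr => by
      have : r ≠ 0 := (h0 hr).ne'
      simp only
      congr 2
      field_simp,
    ← ofReal_integral_eq_lintegral_ofReal h4.integrableOn_Icc
      ((ae_restrict_iff' measurableSet_Icc).2 (Eventually.of_forall fun r hr => by
        have : 0 < r := h0 hr
        show 0 ≤ 2 * π * r⁻¹
        positivity)),
    integral_Icc_eq_integral_Ioc, ← intervalIntegral.integral_of_le hab,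
    intervalIntegral.integral_const_mul, integral_inv_of_pos (Real.exp_pos a) (Real.exp_pos b),
    ← Real.exp_sub, Real.log_exp]

theorem t1292_per {G : ℂ → ℂ}
    (pG : ∀ ζ : ℂ, 0 < ζ.re → G (ζ + 2 * π * I) = G ζ + 2 * π * I) (ζ : ℂ) (hζ : 0 < ζ.re)
    (n : ℤ) : G (ζ + n * (2 * π * I)) = G ζ + n * (2 * π * I) := by
  induction n using Int.induction_on with
  | zero => simp
  | succ n ih =>
    have h := pG (ζ + ((n : ℤ) : ℂ) * (2 * π * I)) (by simpa using hζ)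
    rw [ih] at h
    push_cast at h ⊢
    rw [show ζ + ((n : ℂ) + 1) * (2 * π * I) = ζ + (n : ℂ) * (2 * π * I) + 2 * π * I by ring, h]
    ring
  | pred n ih =>
    have h := pG (ζ + ((-(n : ℤ) - 1 : ℤ) : ℂ) * (2 * π * I)) (by simpa using hζ)
    push_cast at h ih ⊢
    rw [show ζ + (-(n : ℂ) - 1) * (2 * π * I) + 2 * π * I = ζ + -(n : ℂ) * (2 * π * I) by ring,
      ih] at h
    linear_combination -h

theorem t1292_tel {g : ℝ → ℂ} {L x0 η : ℝ} {μ : ℂ} (hL : 0 ≤ L)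
    (h : ∀ x ≤ x0, ‖g (x + L) - g x - μ‖ ≤ η) {x : ℝ} (hx : x ≤ x0) (i : ℕ) :
    ‖g x - g (x - i * L) - i * μ‖ ≤ i * η := by
  induction i with
  | zero => simp
  | succ i ih =>
    have h1 := h (x - (i + 1 : ℕ) * L) (by
      have : (0 : ℝ) ≤ (i + 1 : ℕ) * L := by positivity
      linarith)
    have e : x - (i + 1 : ℕ) * L + L = x - i * L := by push_cast; ring
    rw [e] at h1
    have e2 : g x - g (x - (i + 1 : ℕ) * L) - ((i + 1 : ℕ) : ℂ) * μ =
        (g x - g (x - i * L) - i * μ) + (g (x - i * L) - g (x - (i + 1 : ℕ) * L) - μ) := by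
      push_cast; ring
    rw [e2]
    refine (norm_add_le _ _).trans ?_
    push_cast at h1 ⊢
    linarith

theorem t1292_gap {q : ℕ} {θ : ℕ → ℝ} (hθ : ∀ j < q, θ j ∈ Ico 0 (2 * π))
    (hinj : ∀ i < q, ∀ j < q, θ i = θ j → i = j) :
    ∀ᶠ δ in 𝓝[>] (0 : ℝ), ∀ i ∈ Finset.range q, ∀ j ∈ Finset.range q, ∀ n : ℤ,
      |θ i - θ j - 2 * π * n| ≤ 2 * δ → n = 0 ∧ i = j := by
  rw [Filter.eventually_all_finset]
  intro i hi
  rw [Filter.eventually_all_finset]
  intro j hj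
  have hi' := Finset.mem_range.1 hi
  have hj' := Finset.mem_range.1 hj
  have key : ∀ c : ℝ, 0 < c → ∀ᶠ δ in 𝓝[>] (0 : ℝ), 2 * δ < c := by
    intro c hc
    have : ∀ᶠ δ in 𝓝 (0 : ℝ), δ < c / 2 := eventually_lt_nhds (by linarith)
    filter_upwards [nhdsWithin_le_nhds this] with δ hδ
    linarith
  have h1 : 0 < 2 * π - |θ i - θ j| := by
    have a := hθ i hi'
    have b := hθ j hj'
    have : |θ i - θ j| < 2 * π := abs_lt.2 ⟨by linarith [a.1, b.2], by linarith [a.2, b.1]⟩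
    linarith
  have hn : ∀ δ : ℝ, 2 * δ < 2 * π - |θ i - θ j| → ∀ n : ℤ,
      |θ i - θ j - 2 * π * n| ≤ 2 * δ → n = 0 := by
    intro δ hδ n h
    by_contra hn
    have h2 : (1 : ℝ) ≤ |(n : ℝ)| := by
      have : (1 : ℤ) ≤ |n| := Int.one_le_abs hn
      exact_mod_cast this
    have h3 : |2 * π * (n : ℝ)| ≤ |θ i - θ j| + |θ i - θ j - 2 * π * n| := by
      have := abs_sub (θ i - θ j) (θ i - θ j - 2 * π * n)
      rwa [show θ i - θ j - (θ i - θ j - 2 * π * n) = 2 * π * n by ring] at this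
    rw [abs_mul, abs_of_pos (by positivity : (0 : ℝ) < 2 * π)] at h3
    nlinarith [Real.pi_pos]
  by_cases hij : i = j
  · filter_upwards [key _ h1] with δ hδ n h
    exact ⟨hn δ hδ n h, hij⟩
  · have h4 : 0 < |θ i - θ j| := abs_pos.2 (fun h => hij (hinj i hi' j hj' (by linarith)))
    filter_upwards [key _ h1, key _ h4] with δ hδ hδ' n h
    have := hn δ hδ n h
    subst this
    simp at h
    linarith

theorem t1292_re {g : ℝ → ℂ} {κ : ℝ} (hκ : 1 < κ) {μ : ℂ}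
    (lo : Tendsto (fun s : ℝ => (g s).re) (𝓝[>] 0) atBot)
    (hl : Tendsto (fun s : ℝ => g (κ * s) - g s) (𝓝[>] 0) (𝓝 μ)) : 0 ≤ μ.re := by
  by_contra hneg
  push Not at hneg
  have h1 : ∀ᶠ s in 𝓝[>] (0 : ℝ), (g (κ * s) - g s).re < 0 :=
    ((Complex.continuous_re.tendsto μ).comp hl).eventually (eventually_lt_nhds hneg)
  obtain ⟨u, hu, hsub⟩ := mem_nhdsGT_iff_exists_Ioc_subset.1 h1
  have hu0 : 0 < u := hu
  have hk0 : 0 < κ := by linarith
  have hmem : ∀ n : ℕ, u * κ⁻¹ ^ n ∈ Ioc 0 u := fun n =>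
    ⟨by positivity, mul_le_of_le_one_right hu0.le
      (pow_le_one₀ (by positivity) (inv_le_one_of_one_le₀ hκ.le))⟩
  have hmono : ∀ n : ℕ, (g u).re ≤ (g (u * κ⁻¹ ^ n)).re := by
    intro n
    induction n with
    | zero => simp
    | succ n ih =>
      have h2 : (g (κ * (u * κ⁻¹ ^ (n + 1))) - g (u * κ⁻¹ ^ (n + 1))).re < 0 := hsub (hmem (n + 1))
      rw [show κ * (u * κ⁻¹ ^ (n + 1)) = u * κ⁻¹ ^ n by
        rw [pow_succ]; field_simp, Complex.sub_re] at h2
      linarith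
  have ht : Tendsto (fun n : ℕ => u * κ⁻¹ ^ n) atTop (𝓝[>] 0) := by
    refine tendsto_nhdsWithin_iff.2 ⟨?_, Eventually.of_forall fun n => (hmem n).1⟩
    have := (tendsto_pow_atTop_nhds_zero_of_lt_one (r := κ⁻¹) (by positivity)
      (inv_lt_one_of_one_lt₀ hκ)).const_mul u
    simpa using this
  obtain ⟨n, hn⟩ := ((lo.comp ht).eventually (eventually_lt_atBot (g u).re)).exists
  exact absurd (hmono n) (not_le.2 hn)

theorem t1292_pos {w : ℂ} (hw : |w.im| < π / 2) (θ : ℝ) : 0 < (Complex.exp w + θ * I).re := by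
  have : 0 < Real.cos w.im := Real.cos_pos_of_mem_Ioo ⟨by linarith [(abs_lt.1 hw).1], (abs_lt.1 hw).2⟩
  have h2 : (Complex.exp w + θ * I).re = Real.exp w.re * Real.cos w.im := by
    simp [Complex.exp_re]
  rw [h2]
  positivity

theorem t1292_fin {G : ℂ → ℂ} (dG : DifferentiableOn ℂ G {ζ | 0 < ζ.re})
    (iG : InjOn G {ζ | 0 < ζ.re})
    (pG : ∀ ζ : ℂ, 0 < ζ.re → G (ζ + 2 * π * I) = G ζ + 2 * π * I) {q : ℕ}
    {θ : ℕ → ℝ} {L : ℝ} (hL : 0 < L) {μ : ℂ} (hre : 0 ≤ μ.re) {β η x0 : ℝ} (hβ0 : 0 ≤ β)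
    (hβ : β < π / 2) (hη : 0 ≤ η) (hx0 : x0 ≤ 0)
    (gap : ∀ i ∈ Finset.range q, ∀ j ∈ Finset.range q, ∀ n : ℤ,
      |θ i - θ j - 2 * π * n| ≤ 2 * Real.exp x0 → n = 0 ∧ i = j)
    (hl : ∀ j ∈ Finset.range q, ∀ x ≤ x0,
      ‖G (Real.exp (x + L) + θ j * I) - G (Real.exp x + θ j * I) - μ‖ ≤ η) :
    q * (2 * β * (‖μ‖ ^ 2 - 2 * ‖μ‖ * η)) ≤ 2 * π * L * (μ.re + 2 * η) := by
  obtain ⟨C, hC⟩ := sector_osc dG iG pG hβ
  set g : ℕ → ℝ → ℂ := fun j x => G (Real.exp x + θ j * I) with hg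
  set H : ℕ → ℂ → ℂ := fun j w => G (Complex.exp w + θ j * I) with hH
  set O : Set ℂ := {w | |w.im| < π / 2} with hO
  have oO : IsOpen O := isOpen_lt (by fun_prop) continuous_const
  have dH : ∀ j, DifferentiableOn ℂ (H j) O := fun j =>
    dG.comp (by fun_prop) (fun w hw => t1292_pos hw (θ j))
  have cg : ∀ j, Continuous (g j) := fun j =>
    dG.continuousOn.comp_continuous (by fun_prop) (fun x => by
      simpa [Complex.exp_ofReal_re] using Real.exp_pos x)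
  have hb : ∀ j, ∃ c : ℝ, ∀ x ∈ Icc (x0 - L) x0, ‖g j x‖ ≤ c := fun j =>
    isCompact_Icc.exists_bound_of_continuousOn (cg j).continuousOn
  choose c hc using hb
  set C' : ℝ := ∑ j ∈ Finset.range q, |c j| with hC'
  have hc' : ∀ j ∈ Finset.range q, ∀ x ∈ Icc (x0 - L) x0, ‖g j x‖ ≤ C' := fun j hj x hx =>
    (hc j x hx).trans ((le_abs_self _).trans
      (Finset.single_le_sum (f := fun j => |c j|) (fun _ _ => abs_nonneg _) hj))
  have hC0 : 0 ≤ C := (norm_nonneg _).trans (hC 0 0 (by simp) (by simpa using hβ0))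
  have hC'0 : 0 ≤ C' := Finset.sum_nonneg fun _ _ => abs_nonneg _
  have main : ∀ N : ℕ, q * (2 * β * (2 * (‖μ‖ / L) * (N * (‖μ‖ - η) - 2 * C) -
      (‖μ‖ / L) ^ 2 * (x0 - (x0 - N * L)))) ≤
      2 * π * ((C' + C + N * η) - (-C' - C - N * μ.re - N * η)) := by
    intro N
    set R : Set ℂ := {w : ℂ | w.re ∈ Icc (x0 - N * L) x0 ∧ |w.im| ≤ β} with hR
    have hNL : (0 : ℝ) ≤ N * L := by positivity
    have RO : R ⊆ O := fun w hw => lt_of_le_of_lt hw.2 hβ
    have cR : IsCompact R := by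
      have : R = Icc (x0 - N * L) x0 ×ℂ Icc (-β) β := by
        ext w
        simp only [hR, mem_ofPred_eq, Complex.mem_reProdIm, abs_le, mem_Icc]
      rw [this]
      exact isCompact_Icc.reProdIm isCompact_Icc
    have cH : ∀ j, IsCompact (H j '' R) := fun j =>
      cR.image_of_continuousOn ((dH j).continuousOn.mono RO)
    have him : ∀ w ∈ R, |(Complex.exp w).im| ≤ Real.exp x0 := fun w hw =>
      (Complex.abs_im_le_norm _).trans (by
        rw [Complex.norm_exp]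
        exact Real.exp_le_exp.2 hw.1.2)
    have key : ∀ i ∈ Finset.range q, ∀ j ∈ Finset.range q, ∀ w ∈ R, ∀ w' ∈ R, ∀ n : ℤ,
        H i w = H j w' + n * (2 * π * I) → n = 0 ∧ i = j ∧ w = w' := by
      intro i hi j hj w hw w' hw' n h
      have p1 := t1292_pos (RO hw) (θ i)
      have p2 := t1292_pos (RO hw') (θ j)
      have h1 : G (Complex.exp w + θ i * I) = G (Complex.exp w' + θ j * I + n * (2 * π * I)) := by
        rw [t1292_per pG _ p2]
        exact h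
      have h2 := iG p1 (by simpa using p2) h1
      have h3 := congrArg Complex.im h2
      simp only [Complex.add_im, Complex.mul_im, Complex.ofReal_re, Complex.I_im, Complex.ofReal_im,
        Complex.I_re, Complex.intCast_re, Complex.intCast_im, Complex.mul_re, Complex.re_ofNat,
        Complex.im_ofNat] at h3
      have h4 : |θ i - θ j - 2 * π * n| ≤ 2 * Real.exp x0 := by
        have a := abs_le.1 (him w hw)
        have b := abs_le.1 (him w' hw')
        exact abs_le.2 ⟨by linarith [a.1, a.2, b.1, b.2], by linarith [a.1, a.2, b.1, b.2]⟩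
      obtain ⟨hn, hij⟩ := gap i hi j hj n h4
      subst hn hij
      refine ⟨rfl, rfl, ?_⟩
      have h5 : Complex.exp w = Complex.exp w' := by simpa using h2
      have a := abs_lt.1 (show |w.im| < π / 2 from RO hw)
      have b := abs_lt.1 (show |w'.im| < π / 2 from RO hw')
      exact Complex.exp_inj_of_neg_pi_lt_of_le_pi (by linarith [a.1, Real.pi_pos])
        (by linarith [a.2, Real.pi_pos]) (by linarith [b.1, Real.pi_pos])
        (by linarith [b.2, Real.pi_pos]) h5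
    have low : ∀ j ∈ Finset.range q, ENNReal.ofReal (2 * β * (2 * (‖μ‖ / L) *
        (N * (‖μ‖ - η) - 2 * C) - (‖μ‖ / L) ^ 2 * (x0 - (x0 - N * L)))) ≤ volume (H j '' R) := by
      intro j hj
      refine rect_lower oO (dH j) (by linarith) hβ0 (by positivity) RO
        (fun w hw w' hw' h => (key j hj j hj w hw w' hw' 0 (by simpa using h)).2.2) ?_
      intro α hα
      have a := hC (θ j) (x0 + α * I) (by simpa using hx0) (by simpa using hα)
      have b := hC (θ j) (((x0 - N * L : ℝ) : ℂ) + α * I) (by simp; linarith) (by simpa using hα)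
      have e1 : ((x0 : ℂ) + α * I).re = x0 := by simp
      have e2 : (((x0 - N * L : ℝ) : ℂ) + α * I).re = x0 - N * L := by simp
      rw [e1] at a
      rw [e2] at b
      have d := t1292_tel (g := g j) hL.le (hl j hj) le_rfl N
      have e : (N : ℂ) * μ = (H j (x0 + α * I) - H j (((x0 - N * L : ℝ) : ℂ) + α * I)) -
          (H j (x0 + α * I) - g j x0) + (H j (((x0 - N * L : ℝ) : ℂ) + α * I) - g j (x0 - N * L)) -
          (g j x0 - g j (x0 - N * L) - N * μ) := by ring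
      have f : ‖(N : ℂ) * μ‖ = N * ‖μ‖ := by simp
      rw [e] at f
      have f1 := norm_sub_le ((H j (x0 + α * I) - H j (((x0 - N * L : ℝ) : ℂ) + α * I)) -
          (H j (x0 + α * I) - g j x0) + (H j (((x0 - N * L : ℝ) : ℂ) + α * I) - g j (x0 - N * L)))
          (g j x0 - g j (x0 - N * L) - N * μ)
      have f2 := norm_add_le ((H j (x0 + α * I) - H j (((x0 - N * L : ℝ) : ℂ) + α * I)) -
          (H j (x0 + α * I) - g j x0)) (H j (((x0 - N * L : ℝ) : ℂ) + α * I) - g j (x0 - N * L))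
      have f3 := norm_sub_le (H j (x0 + α * I) - H j (((x0 - N * L : ℝ) : ℂ) + α * I))
          (H j (x0 + α * I) - g j x0)
      have a' : ‖H j (x0 + α * I) - g j x0‖ ≤ C := a
      have b' : ‖H j (((x0 - N * L : ℝ) : ℂ) + α * I) - g j (x0 - N * L)‖ ≤ C := b
      linarith
    have up : volume (⋃ j ∈ Finset.range q, H j '' R) ≤
        ENNReal.ofReal (2 * π * ((C' + C + N * η) - (-C' - C - N * μ.re - N * η))) := by
      refine strip_upper (Finset.measurableSet_biUnion _ fun j _ => (cH j).measurableSet) ?_ ?_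
      · intro u hu v hv h
        simp only [mem_iUnion, mem_image] at hu hv
        obtain ⟨i, hi, w, hw, rfl⟩ := hu
        obtain ⟨j, hj, w', hw', rfl⟩ := hv
        obtain ⟨n, hn⟩ := Complex.exp_eq_exp_iff_exists_int.1 h
        obtain ⟨-, rfl, rfl⟩ := key i hi j hj w hw w' hw' n hn
        rfl
      · intro u hu
        simp only [mem_iUnion, mem_image] at hu
        obtain ⟨j, hj, w, hw, rfl⟩ := hu
        have a : ‖H j w - g j w.re‖ ≤ C := hC (θ j) w (hw.1.2.trans hx0) hw.2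
        set i : ℕ := ⌊(x0 - w.re) / L⌋₊ with hi
        have i1 : (i : ℝ) ≤ (x0 - w.re) / L :=
          Nat.floor_le (div_nonneg (by linarith [hw.1.2]) hL.le)
        have i2 : (x0 - w.re) / L < i + 1 := Nat.lt_floor_add_one _
        rw [le_div_iff₀ hL] at i1
        rw [div_lt_iff₀ hL] at i2
        have i3 : (i : ℝ) ≤ N := le_of_mul_le_mul_right (by linarith [hw.1.1]) hL
        have d := t1292_tel (g := g j) hL.le (hl j hj) (x := w.re + i * L) (by linarith) i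
        rw [add_sub_cancel_right] at d
        have b := hc' j hj (w.re + i * L) ⟨by linarith, by linarith⟩
        have a1 := abs_le.1 ((Complex.abs_re_le_norm _).trans a)
        have b1 := abs_le.1 ((Complex.abs_re_le_norm _).trans b)
        have d1 := abs_le.1 ((Complex.abs_re_le_norm _).trans d)
        simp only [Complex.sub_re, Complex.mul_re, Complex.natCast_re, Complex.natCast_im,
          zero_mul, sub_zero] at a1 d1
        have m1 : i * η ≤ N * η := mul_le_mul_of_nonneg_right i3 hη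
        have m2 : i * μ.re ≤ N * μ.re := mul_le_mul_of_nonneg_right i3 hre
        have m3 : 0 ≤ i * μ.re := by positivity
        exact ⟨by linarith [a1.1, b1.1, d1.2], by linarith [a1.2, b1.2, d1.1]⟩
    rw [measure_biUnion_finset (fun i hi j hj hij => by
      refine Set.disjoint_left.2 ?_
      rintro _ ⟨w, hw, rfl⟩ ⟨w', hw', h⟩
      exact hij (key i hi j hj w hw w' hw' 0 (by simpa using h.symm)).2.1)
      (fun j _ => (cH j).measurableSet)] at up
    have tot := (Finset.card_nsmul_le_sum _ _ _ low).trans up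
    rw [Finset.card_range, nsmul_eq_mul, ← ENNReal.ofReal_natCast,
      ← ENNReal.ofReal_mul (Nat.cast_nonneg q)] at tot
    refine (ENNReal.ofReal_le_ofReal_iff ?_).1 tot
    have : 0 ≤ N * η := by positivity
    have : 0 ≤ N * μ.re := by positivity
    have : 0 ≤ C' + C + N * η - (-C' - C - N * μ.re - N * η) := by linarith
    positivity
  by_contra hcon
  push Not at hcon
  set A : ℝ := q * (2 * β * (‖μ‖ ^ 2 - 2 * ‖μ‖ * η)) - 2 * π * L * (μ.re + 2 * η) with hA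
  have hA0 : 0 < A := by linarith
  obtain ⟨N, hN⟩ := exists_nat_gt ((q * (8 * β * ‖μ‖ * C) + 2 * π * L * (2 * C' + 2 * C)) / A)
  rw [div_lt_iff₀ hA0] at hN
  have h := mul_le_mul_of_nonneg_left (main N) hL.le
  have e : L * (q * (2 * β * (2 * (‖μ‖ / L) * (N * (‖μ‖ - η) - 2 * C) -
      (‖μ‖ / L) ^ 2 * (x0 - (x0 - N * L))))) =
      N * (q * (2 * β * (‖μ‖ ^ 2 - 2 * ‖μ‖ * η))) - q * (8 * β * ‖μ‖ * C) := by
    field_simp
    ring
  rw [e] at h
  rw [hA] at hN
  nlinarith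

theorem length_area {G : ℂ → ℂ} (dG : DifferentiableOn ℂ G {ζ | 0 < ζ.re})
    (iG : InjOn G {ζ | 0 < ζ.re})
    (pG : ∀ ζ : ℂ, 0 < ζ.re → G (ζ + 2 * π * I) = G ζ + 2 * π * I) {q : ℕ} (hq : 0 < q)
    {θ : ℕ → ℝ} (hθ : ∀ j < q, θ j ∈ Ico 0 (2 * π)) (hinj : ∀ i < q, ∀ j < q, θ i = θ j → i = j)
    {κ : ℝ} (hκ : 1 < κ) {μ : ℂ}
    (lo : ∀ j < q, Tendsto (fun s : ℝ => (G (s + θ j * I)).re) (𝓝[>] 0) atBot)
    (hl : ∀ j < q, Tendsto (fun s : ℝ => G ((κ * s : ℝ) + θ j * I) - G (s + θ j * I)) (𝓝[>] 0)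
      (𝓝 μ)) :
    q * ‖μ‖ ^ 2 ≤ 2 * Real.log κ * μ.re := by
  have hre : 0 ≤ μ.re := t1292_re (g := fun s : ℝ => G (s + θ 0 * I)) hκ (lo 0 hq) (hl 0 hq)
  have hL : 0 < Real.log κ := Real.log_pos hκ
  have hfin : ∀ t ∈ Ioo (0 : ℝ) (π / 2), q * (2 * (π / 2 - t) * (‖μ‖ ^ 2 - 2 * ‖μ‖ * t)) ≤
      2 * π * Real.log κ * (μ.re + 2 * t) := by
    intro t ht
    have e1 : ∀ᶠ s : ℝ in 𝓝[>] 0, ∀ j ∈ Finset.range q,
        ‖G ((κ * s : ℝ) + θ j * I) - G (s + θ j * I) - μ‖ ≤ t := by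
      rw [Filter.eventually_all_finset]
      intro j hj
      have := (hl j (Finset.mem_range.1 hj)).eventually (Metric.closedBall_mem_nhds μ ht.1)
      filter_upwards [this] with s hs
      rwa [dist_eq_norm] at hs
    have e2 : ∀ᶠ s : ℝ in 𝓝[>] 0, s ≤ 1 :=
      nhdsWithin_le_nhds (eventually_le_nhds (zero_lt_one' ℝ))
    obtain ⟨u, hu, hsub⟩ :=
      mem_nhdsGT_iff_exists_Ioc_subset.1 (e1.and (e2.and (t1292_gap hθ hinj)))
    have hu0 : 0 < u := hu
    have hP := hsub (right_mem_Ioc.2 hu0)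
    refine t1292_fin dG iG pG (θ := θ) (x0 := Real.log u) hL hre (by linarith [ht.2])
      (by linarith [ht.1]) ht.1.le (Real.log_nonpos hu0.le hP.2.1) ?_ ?_
    · rw [Real.exp_log hu0]
      exact hP.2.2
    · intro j hj x hx
      have hm : Real.exp x ∈ Ioc 0 u :=
        ⟨Real.exp_pos x, (Real.exp_le_exp.2 hx).trans (Real.exp_log hu0).le⟩
      have := (hsub hm).1 j hj
      rwa [Real.exp_add, Real.exp_log (by linarith), mul_comm (Real.exp x)]
  have lim : q * (2 * (π / 2 - 0) * (‖μ‖ ^ 2 - 2 * ‖μ‖ * 0)) ≤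
      2 * π * Real.log κ * (μ.re + 2 * 0) := by
    refine le_of_tendsto_of_tendsto (b := 𝓝[>] (0 : ℝ))
      (f := fun t : ℝ => q * (2 * (π / 2 - t) * (‖μ‖ ^ 2 - 2 * ‖μ‖ * t)))
      (g := fun t : ℝ => 2 * π * Real.log κ * (μ.re + 2 * t)) ?_ ?_ ?_
    · exact (Continuous.tendsto (by fun_prop) 0).mono_left nhdsWithin_le_nhds
    · exact (Continuous.tendsto (by fun_prop) 0).mono_left nhdsWithin_le_nhds
    · filter_upwards [Ioo_mem_nhdsGT (show (0 : ℝ) < π / 2 by positivity)] with t ht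
      exact hfin t ht
  refine le_of_mul_le_mul_left ?_ Real.pi_pos
  linarith

end Pool.Agent.MP_28f8a1_an.H42

end

-- part MP_28f8a1_an.H42.Yoc
section

/-! The Pommerenke-Levin-Yoccoz inequality. -/

set_option autoImplicit false

namespace Pool.Agent.MP_28f8a1_an.H42

open MeasureTheory Metric Set Real Filter Topology
open Complex (I)
open scoped ENNReal

/-- The angles of the lifted rays. -/
noncomputable def t1293_th (q : ℕ) (θ : ℕ → ℝ) (j : ℤ) : ℝ :=
  2 * π * (θ (j % q).toNat + ((j / q : ℤ) : ℝ))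

theorem t1293_lt {q : ℕ} (hq : 0 < q) (j : ℤ) : (j % q).toNat < q := by
  have h1 : 0 ≤ j % (q : ℤ) := Int.emod_nonneg _ (by omega)
  have h2 : j % (q : ℤ) < q := Int.emod_lt_of_pos _ (by omega)
  omega

theorem t1293_mono {q : ℕ} (hq : 0 < q) {θ : ℕ → ℝ} (hθ : ∀ j < q, 0 ≤ θ j ∧ θ j < 1)
    (mono : ∀ i j, i < j → j < q → θ i < θ j) : StrictMono (t1293_th q θ) := by
  refine strictMono_int_of_lt_succ fun j => ?_
  have hq' : (0 : ℤ) < q := by omega
  have h1 : 0 ≤ j % (q : ℤ) := Int.emod_nonneg _ (by omega)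
  have h2 : j % (q : ℤ) < q := Int.emod_lt_of_pos _ hq'
  have h3 : (q : ℤ) * (j / q) + j % q = j := Int.mul_ediv_add_emod j q
  unfold t1293_th
  refine mul_lt_mul_of_pos_left ?_ (by positivity)
  by_cases h : j % (q : ℤ) + 1 < q
  · have h4 : (j + 1) / (q : ℤ) = j / q ∧ (j + 1) % (q : ℤ) = j % q + 1 :=
      (Int.ediv_emod_unique hq').2 ⟨by linarith, by omega, h⟩
    rw [h4.1, h4.2]
    have := mono (j % q).toNat (j % q + 1).toNat (by omega) (by omega)
    linarith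
  · have h4 : (j + 1) / (q : ℤ) = j / q + 1 ∧ (j + 1) % (q : ℤ) = 0 :=
      (Int.ediv_emod_unique hq').2 ⟨by rw [mul_add]; omega, le_rfl, hq'⟩
    rw [h4.1, h4.2]
    have a1 := (hθ _ (t1293_lt hq j)).2
    have a2 := (hθ 0 hq).1
    simp only [Int.toNat_zero]
    push_cast
    linarith

theorem t1293_per {q : ℕ} (hq : 0 < q) (θ : ℕ → ℝ) (j : ℤ) :
    t1293_th q θ (j + q) = t1293_th q θ j + 2 * π := by
  unfold t1293_th
  have hq' : (q : ℤ) ≠ 0 := by omega
  have h : (j + q) / (q : ℤ) = j / q + 1 := by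
    simpa using Int.add_mul_ediv_right j 1 hq'
  rw [Int.add_emod_right, h]
  push_cast
  ring

theorem t1293_nat {q : ℕ} (θ : ℕ → ℝ) {j : ℕ} (hj : j < q) :
    t1293_th q θ j = 2 * π * θ j := by
  unfold t1293_th
  have h1 : (j : ℤ) % (q : ℤ) = j := Int.emod_eq_of_lt (by omega) (by omega)
  have h2 : (j : ℤ) / (q : ℤ) = 0 := Int.ediv_eq_zero_of_lt (by omega) (by omega)
  rw [h1, h2]
  simp

theorem t1293_exp {q : ℕ} (θ : ℕ → ℝ) (j : ℤ) (s : ℝ) :
    Complex.exp (s + t1293_th q θ j * I) =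
      (Real.exp s : ℝ) * Complex.exp (2 * π * I * θ (j % q).toNat) := by
  unfold t1293_th
  rw [Complex.ofReal_exp, ← Complex.exp_add, Complex.exp_eq_exp_iff_exists_int]
  refine ⟨j / q, ?_⟩
  push_cast
  ring

theorem t1293_semi {p q D : ℕ} (hq : 0 < q) {θ : ℕ → ℝ}
    (rot : ∀ j < q, ∃ m : ℤ, D * θ j = θ ((j + p) % q) + m) (j : ℤ) (s : ℝ) :
    Complex.exp (((D : ℝ) * s : ℝ) + t1293_th q θ (j + p) * I) =
      Complex.exp (s + t1293_th q θ j * I) ^ D := by
  obtain ⟨m, hm⟩ := rot _ (t1293_lt hq j)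
  have h1 : 0 ≤ j % (q : ℤ) := Int.emod_nonneg _ (by omega)
  have h2 : ((j + p) % (q : ℤ)).toNat = ((j % q).toNat + p) % q := by
    have : (j + p) % (q : ℤ) = ((((j % q).toNat + p) % q : ℕ) : ℤ) := by
      push_cast
      rw [Int.toNat_of_nonneg h1, Int.emod_add_emod]
    rw [this, Int.toNat_natCast]
  have hm' : (D : ℂ) * (θ (j % q).toNat : ℂ) = (θ (((j % q).toNat + p) % q) : ℂ) + m := by
    exact_mod_cast hm
  unfold t1293_th
  rw [← Complex.exp_nat_mul, Complex.exp_eq_exp_iff_exists_int, h2]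
  refine ⟨(j + p) / q - m - D * (j / q), ?_⟩
  push_cast
  linear_combination (-(2 * π * I)) * hm'

theorem yoccoz {F ψ : ℂ → ℂ} (hF : Differentiable ℂ F) {D : ℕ} (hD : 2 ≤ D)
    (dψ : DifferentiableOn ℂ ψ {w | 1 < ‖w‖}) (iψ : InjOn ψ {w | 1 < ‖w‖})
    (sψ : ∀ w, 1 < ‖w‖ → ψ (w ^ D) = F (ψ w))
    (aψ : Tendsto (fun w => ψ w / w) (Bornology.cobounded ℂ) (𝓝 1)) {z : ℂ} (hz : F z = z)
    {p q : ℕ} (hpq : p < q) {θ : ℕ → ℝ} (hθ : ∀ j < q, 0 ≤ θ j ∧ θ j < 1)
    (mono : ∀ i j, i < j → j < q → θ i < θ j)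
    (land : ∀ j < q, Tendsto (fun r : ℝ => ψ (r * Complex.exp (2 * π * I * θ j))) (𝓝[>] 1) (𝓝 z))
    (rot : ∀ j < q, ∃ m : ℤ, D * θ j = θ ((j + p) % q) + m) :
    ∃ L : ℂ, Complex.exp L = deriv F z ∧
      q * ‖L - 2 * π * I * p / q‖ ^ 2 ≤ 2 * Real.log D * L.re := by
  have hq : 0 < q := by omega
  have hD1 : (1 : ℝ) < D := by exact_mod_cast (by omega : 1 < D)
  have hpow : ∀ w : ℂ, 1 < ‖w‖ → ‖w‖ < ‖w ^ D‖ := fun w hw => by
    rw [norm_pow]
    calc ‖w‖ = ‖w‖ ^ 1 := (pow_one _).symm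
      _ < ‖w‖ ^ D := pow_lt_pow_right₀ hw (by omega)
  have hne : ∀ w : ℂ, 1 < ‖w‖ → ψ w ≠ z := fun w hw h => by
    have h1 := hpow w hw
    have h2 : w ^ D = w := iψ (hw.trans h1) hw (by rw [sψ w hw, h, hz])
    rw [h2] at h1
    exact lt_irrefl _ h1
  obtain ⟨G, dG, iG, eG, pG, aG⟩ := log_lift dψ iψ aψ hne
  set th := t1293_th q θ with hth
  have hre : ∀ (s a : ℝ), ((s : ℂ) + a * I).re = s := fun s a => by simp
  have him' : ∀ (s a : ℝ), ((s : ℂ) + a * I).im = a := fun s a => by simp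
  have hmono : StrictMono th := t1293_mono hq hθ mono
  have hc : ∀ j : ℤ, Cross fun s : ℝ => G (s + th j * I) := fun j => by
    refine ⟨?_, ?_, ?_⟩
    · refine dG.continuousOn.comp (by fun_prop) fun s hs => ?_
      simpa using hs
    · rw [← Real.tendsto_exp_comp_nhds_zero]
      have h1 : Tendsto Real.exp (𝓝[>] 0) (𝓝[>] 1) := by
        refine tendsto_nhdsWithin_iff.2 ⟨?_, ?_⟩
        · have := Real.continuous_exp.tendsto 0
          rw [Real.exp_zero] at this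
          exact this.mono_left nhdsWithin_le_nhds
        · filter_upwards [self_mem_nhdsWithin] with s hs
          exact Real.one_lt_exp_iff.2 hs
      have h2 := (((land _ (t1293_lt hq j)).comp h1).sub_const z).norm
      rw [sub_self, norm_zero] at h2
      refine h2.congr' ?_
      filter_upwards [self_mem_nhdsWithin] with s hs
      rw [← Complex.norm_exp, eG _ (by rw [hre]; exact hs), hth, t1293_exp]
      rfl
    · obtain ⟨S, hS⟩ := aG 1 one_pos
      refine tendsto_atTop_mono' atTop ?_ (tendsto_atTop_add_const_right atTop (-1) tendsto_id)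
      filter_upwards [eventually_ge_atTop S] with s hs
      have h1 := hS (s + th j * I) (by rw [hre]; exact hs)
      have h2 := (Complex.abs_re_le_norm _).trans h1
      rw [Complex.sub_re, hre] at h2
      have := (abs_le.1 h2).1
      simp only [id]
      linarith
  have him : ∀ j : ℤ, Tendsto (fun s : ℝ => (G (s + th j * I)).im) atTop (𝓝 (th j)) := fun j => by
    rw [Metric.tendsto_atTop]
    intro ε hε
    obtain ⟨S, hS⟩ := aG (ε / 2) (by positivity)
    refine ⟨S, fun s hs => ?_⟩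
    have h1 := hS (s + th j * I) (by rw [hre]; exact hs)
    have h2 := (Complex.abs_im_le_norm _).trans h1
    rw [Complex.sub_im, him'] at h2
    rw [Real.dist_eq]
    linarith
  obtain ⟨L, hL, hlim⟩ := rot_lift hF hz (Γ := fun j (s : ℝ) => G (s + th j * I)) (θ := th) (p := p)
    hq hD1 hmono hc him
    (fun i j hij s hs t ht h => by
      have h1 := iG (show 0 < ((s : ℂ) + th i * I).re by rw [hre]; exact hs)
        (show 0 < ((t : ℂ) + th j * I).re by rw [hre]; exact ht) h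
      have h2 := congrArg Complex.im h1
      rw [him', him'] at h2
      exact hij (hmono.injective h2))
    (fun j s hs => by
      rw [← pG _ (by rw [hre]; exact hs), hth, t1293_per hq]
      congr 1
      push_cast
      ring)
    (fun j s hs => by
      have hs' : 0 < (D : ℝ) * s := by positivity
      rw [eG _ (by rw [hre]; exact hs'), eG _ (by rw [hre]; exact hs), hth, t1293_semi hq rot,
        add_sub_cancel, add_sub_cancel]
      refine sψ _ ?_
      rw [Complex.norm_exp, hre]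
      exact Real.one_lt_exp_iff.2 hs)
  refine ⟨L, hL, ?_⟩
  have key := length_area dG iG pG hq (θ := fun j => 2 * π * θ j)
    (fun j hj => ⟨by have := (hθ j hj).1; positivity, by
      have := (hθ j hj).2
      have := Real.pi_pos
      nlinarith⟩)
    (fun i hi j hj h => by
      have h1 : th i = th j := by rw [hth, t1293_nat θ hi, t1293_nat θ hj]; exact h
      exact_mod_cast hmono.injective h1)
    (κ := (D : ℝ) ^ q) (one_lt_pow₀ hD1 hq.ne') (μ := q * L - 2 * π * I * p)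
    (fun j hj => by
      have := (hc j).2.1
      rwa [hth, t1293_nat θ hj] at this)
    (fun j hj => by
      have := hlim j
      rwa [hth, t1293_nat θ hj] at this)
  have hqc : (q : ℂ) ≠ 0 := by exact_mod_cast hq.ne'
  have hqr : (0 : ℝ) < q := by exact_mod_cast hq
  have e1 : (q : ℂ) * L - 2 * π * I * p = q * (L - 2 * π * I * p / q) := by
    field_simp
  have e2 : ((q : ℂ) * L - 2 * π * I * p).re = q * L.re := by simp
  rw [e2, e1, norm_mul, Complex.norm_natCast, Real.log_pow] at key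
  have : (q : ℝ) ^ 2 * (q * ‖L - 2 * π * I * p / q‖ ^ 2) ≤
      (q : ℝ) ^ 2 * (2 * Real.log D * L.re) := by
    calc _ = q * (q * ‖L - 2 * π * I * p / q‖) ^ 2 := by ring
      _ ≤ _ := key
      _ = _ := by ring
  exact le_of_mul_le_mul_left this (by positivity)

/-- The multiplier lies in a cusp at the unit circle. -/
theorem cusp {L : ℂ} {p q : ℕ} (hp : 0 < p) (hpq : p < q) {a : ℝ} (ha : 0 ≤ a)
    (h : q * ‖L - 2 * π * I * p / q‖ ^ 2 ≤ a * L.re) (ham : a ≤ (min p (q - p) : ℕ)) :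
    Complex.exp L ≠ 1 ∧ 1 ≤ ‖Complex.exp L‖ ∧
      (‖Complex.exp L‖ - 1) * (min p (q - p) : ℕ) ≤ a * ‖Complex.exp L - 1‖ := by
  obtain ⟨m, hm⟩ : ∃ m : ℕ, m = min p (q - p) := ⟨_, rfl⟩
  rw [← hm] at ham ⊢
  have hq : (0 : ℝ) < q := by exact_mod_cast hp.trans hpq
  have hm0 : (0 : ℝ) < m := by exact_mod_cast (show 0 < m by omega)
  have hm2 : 2 * (m : ℝ) ≤ q := by exact_mod_cast (show 2 * m ≤ q by omega)
  have e0 : (2 * π * I * p / q : ℂ) = I * (2 * π * p / q : ℝ) := by push_cast; ring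
  rw [e0] at h
  obtain ⟨x, hx⟩ : ∃ x : ℝ, x = ‖L - I * (2 * π * p / q : ℝ)‖ := ⟨_, rfl⟩
  rw [← hx] at h
  have hx0 : 0 ≤ x := hx ▸ norm_nonneg _
  have hre : |L.re| ≤ x := by
    have h1 := Complex.abs_re_le_norm (L - I * (2 * π * p / q : ℝ))
    rwa [Complex.sub_re, Complex.I_mul_re, Complex.ofReal_im, neg_zero, sub_zero, ← hx] at h1
  have hxa : q * x ≤ a := by
    rcases hx0.eq_or_lt with h0 | h0
    · rw [← h0, mul_zero]; exact ha
    · refine le_of_mul_le_mul_right ?_ h0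
      have h1 := mul_le_mul_of_nonneg_left ((le_abs_self _).trans hre) ha
      linarith
  have hL : 0 ≤ L.re := by
    rcases ha.eq_or_lt with h0 | h0
    · have h1 : x ≤ 0 := by
        refine le_of_mul_le_mul_left ?_ hq
        linarith
      linarith [(abs_le.1 hre).1]
    · exact (mul_nonneg_iff_of_pos_left h0).1 (le_trans (by positivity) h)
  have hx1 : x ≤ 1 := by
    refine le_of_mul_le_mul_left ?_ hq
    linarith
  have hn : ‖Complex.exp (I * (2 * π * p / q : ℝ))‖ = 1 := Complex.norm_exp_I_mul_ofReal _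
  have h1 : ‖Complex.exp L - Complex.exp (I * (2 * π * p / q : ℝ))‖ ≤ 2 * x := by
    have h2 := Complex.norm_exp_sub_one_le (x := L - I * (2 * π * p / q : ℝ)) (hx ▸ hx1)
    rw [← hx, Complex.exp_sub, div_sub_one (Complex.exp_ne_zero _), norm_div, hn, div_one] at h2
    exact h2
  have h3 : 4 * m / q ≤ ‖Complex.exp (I * (2 * π * p / q : ℝ)) - 1‖ := by
    have h4 : sin (2 * π * p / q / 2) = sin (π * m / q) := by
      rcases le_total p (q - p) with h5 | h5
      · rw [hm, min_eq_left h5]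
        congr 1
        ring
      · rw [hm, min_eq_right h5, ← sin_pi_sub, Nat.cast_sub hpq.le]
        congr 1
        field_simp
    have h5 := mul_le_sin (x := π * m / q) (by positivity) (by
      rw [div_le_div_iff₀ hq two_pos]
      nlinarith [pi_pos])
    have h6 : 2 / π * (π * m / q) = 2 * m / q := by field_simp
    rw [Complex.norm_exp_I_mul_ofReal_sub_one, h4, Real.norm_eq_abs]
    refine le_trans ?_ (le_abs_self _)
    have h7 : (4 * m / q : ℝ) = 2 * (2 * m / q) := by ring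
    linarith
  have h8 : x ≤ m / q := by
    rw [le_div_iff₀ hq]
    linarith
  have h9 : 2 * (m / q) ≤ ‖Complex.exp L - 1‖ := by
    have h10 := norm_sub_le_norm_sub_add_norm_sub (Complex.exp (I * (2 * π * p / q : ℝ)))
      (Complex.exp L) 1
    rw [norm_sub_rev _ (Complex.exp L)] at h10
    have h7 : (4 * m / q : ℝ) = 4 * (m / q) := by ring
    linarith
  refine ⟨fun h0 => ?_, ?_, ?_⟩
  · rw [h0, sub_self, norm_zero] at h9
    exact absurd h9 (not_le.2 (by positivity))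
  · rw [Complex.norm_exp]
    exact one_le_exp hL
  · have h10 := norm_sub_norm_le (Complex.exp L) (Complex.exp (I * (2 * π * p / q : ℝ)))
    rw [hn] at h10
    calc (‖Complex.exp L‖ - 1) * m ≤ 2 * x * m := mul_le_mul_of_nonneg_right (h10.trans h1) hm0.le
      _ = q * x * (2 * (m / q)) := by field_simp
      _ ≤ a * ‖Complex.exp L - 1‖ := mul_le_mul hxa h9 (by positivity) ha

theorem near_circle {L : ℂ} {p q : ℕ} (hp : 0 < p) (hpq : p < q) {a : ℝ} (ha : 0 ≤ a)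
    (h : q * ‖L - 2 * π * I * p / q‖ ^ 2 ≤ a * L.re) (haq : a ≤ q) :
    Complex.exp L ≠ 1 ∧ 1 ≤ ‖Complex.exp L‖ ∧ ‖Complex.exp L‖ - 1 ≤ 2 * (a / q) := by
  have hq : (0 : ℝ) < q := by exact_mod_cast hp.trans hpq
  have h1 : |L.re| ≤ ‖L - 2 * π * I * p / q‖ := by
    have := Complex.abs_re_le_norm (L - ((2 * π * p / q : ℝ) : ℂ) * I)
    rw [Complex.sub_re, Complex.re_ofReal_mul, Complex.I_re, mul_zero, sub_zero] at this
    refine this.trans_eq ?_
    congr 2
    push_cast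
    ring
  have h2 : q * L.re ^ 2 ≤ a * L.re := le_trans (by
    rw [← sq_abs]
    gcongr) h
  have h3 : 0 ≤ L.re := by
    by_contra h3
    nlinarith [mul_pos hq (sq_pos_of_neg (not_le.mp h3))]
  have h4 : L.re ≤ a / q := by
    rw [le_div_iff₀ hq]
    rcases h3.eq_or_lt with h4 | h4
    · rwa [← h4, zero_mul]
    · nlinarith
  have h5 : a / q ≤ 1 := (div_le_one hq).mpr haq
  refine ⟨fun h0 => ?_, ?_, ?_⟩
  · have h6 : L.re = 0 := by
      rw [← Real.exp_eq_one_iff, ← Complex.norm_exp, h0, norm_one]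
    rw [h6, mul_zero, ← zero_mul L.re] at h
    exact (cusp hp hpq le_rfl h (Nat.cast_nonneg _)).1 h0
  · rw [Complex.norm_exp]
    exact one_le_exp h3
  · rw [Complex.norm_exp]
    have := Real.abs_exp_sub_one_le (x := L.re) (by rw [abs_of_nonneg h3]; linarith)
    rw [abs_of_nonneg h3] at this
    linarith [le_abs_self (rexp L.re - 1)]

end Pool.Agent.MP_28f8a1_an.H42

end
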