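import Pool.Agent.MP_28f8a1_an.LemmaU
import Pool.Agent.MP_28f8a1_an.Transfer
import Pool.Agent.MP_28f8a1_an.Weights

-- part MP_28f8a1_an.Tame
section

/-! An almost invariant differential is tame near the critical value. -/

set_option autoImplicit false

namespace Pool.Agent.MP_28f8a1_an

open MeasureTheory Metric Set Real Filter Topology
open scoped ENNReal

variable {e : ℕ} {c : ℂ}

theorem pre_finite (m : ℕ) : {x : ℂ | (fq e c)^[m] x = 0}.Finite := by
  induction m with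
  | zero => simp
  | succ m ih =>
    refine ih.preimage' (f := fq e c) fun b _ => ?_
    refine (((finite_Iio (e + 1)).image fun k => rt e c k b).insert 0).subset fun w hw => ?_
    by_cases h : w = 0
    · exact Or.inl h
    · obtain ⟨i, hi, h1⟩ := exists_rt (e := e) (c := c) h
      rw [show fq e c w = b from hw] at h1
      exact Or.inr ⟨i, hi, h1⟩

theorem lt_three (he : 1 ≤ e) (hc : ‖c‖ ≤ 2) {y : ℂ} (h : ‖fq e c y‖ < 3) : ‖y‖ < 3 := by
  by_contra h1
  have h2 : (3 : ℝ) ^ 2 ≤ ‖y‖ ^ (e + 1) :=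
    (pow_le_pow_left₀ (by norm_num) (not_lt.mp h1) 2).trans
      (pow_le_pow_right₀ (by linarith) (by omega))
  have h3 := norm_sub_le (fq e c y) c
  rw [fq, add_sub_cancel_right, norm_pow, ← fq] at h3
  linarith

theorem iter_lt_three (he : 1 ≤ e) (hc : ‖c‖ ≤ 2) (m : ℕ) :
    ∀ y : ℂ, ‖(fq e c)^[m] y‖ < 3 → ‖y‖ < 3 := by
  induction m with
  | zero => exact fun _ h => h
  | succ m ih => exact fun y h => lt_three he hc (ih _ h)

theorem pack_sum (he : 1 ≤ e) {t : ℝ} (ht : 0 < t) {G : ℕ → ℂ → Prop}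
    (hG : ∀ m x, G m x → Idx e c t (1 / 10 ^ 9) m x) {S : ℕ → Set ℂ}
    (hS : ∀ m, ∀ y ∈ S m, ∃ x, G m x ∧ y ∈ ball x (scl e c t m x / 500000)) {u v : ℂ → ℝ}
    {C : ℝ≥0∞} (hdbl : ∀ m x, G m x → LI (ball x (scl e c t m x / 500000)) u ≤
      C * LI (ball x (1 / 10 ^ 9 * scl e c t m x / 16)) v) {Ω : Set ℂ}
    (hΩ : ∀ m x, G m x → ball x (1 / 10 ^ 9 * scl e c t m x / 16) ⊆ Ω) (M : ℕ) :
    ∑ m ∈ Finset.range M, LI (S m) u ≤ C * LI Ω v := by
  have hfin : ∀ m, {x | G m x}.Finite := fun m => (pre_finite m).subset fun x hx => by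
    obtain ⟨h, hb, rfl, -⟩ := hG m x hx
    exact hb.inv 0 (mem_ball_self (by positivity))
  have h1 : ∀ m, LI (S m) u ≤ ∑ x ∈ (hfin m).toFinset,
      C * LI (ball x (1 / 10 ^ 9 * scl e c t m x / 16)) v := by
    intro m
    refine le_trans (LI_mono_set (T := ⋃ x ∈ (hfin m).toFinset, ball x (scl e c t m x / 500000))
      (fun y hy => ?_) u) ((LI_biUnion_le _ _ _).trans (Finset.sum_le_sum fun x hx => ?_))
    · obtain ⟨x, hx, hy⟩ := hS m y hy
      exact mem_biUnion ((hfin m).mem_toFinset.mpr hx) hy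
    · exact hdbl m x ((hfin m).mem_toFinset.mp hx)
  refine (Finset.sum_le_sum fun m _ => h1 m).trans ?_
  rw [Finset.sum_sigma', ← Finset.mul_sum]
  refine mul_le_mul_right (sum_LI_le _ ?_ (fun _ _ => measurableSet_ball) (fun p hp => ?_) v) _
  · intro p hp q hq hpq
    have hp' := (hfin _).mem_toFinset.mp (Finset.mem_sigma.mp hp).2
    have hq' := (hfin _).mem_toFinset.mp (Finset.mem_sigma.mp hq).2
    refine disjoint_left.mpr fun y hy hy' => hpq ?_
    obtain ⟨h2, h3⟩ := small_disj he ht (by norm_num) (by norm_num) (hG _ _ hp') (hG _ _ hq') hy hy'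
    exact Sigma.ext h2 (heq_of_eq h3)
  · exact hΩ _ _ ((hfin _).mem_toFinset.mp (Finset.mem_sigma.mp hp).2)

theorem cover (he : 1 ≤ e) {t K : ℝ} (ht : 0 < t)
    (hK : 10 ^ 6 * (e + 1 : ℕ) ≤ K * (1 / 10 ^ 9) ^ (e + 2)) (hLD : LDs e c t K) {m : ℕ} {y : ℂ}
    (hy : ‖(fq e c)^[m] y‖ < t / 10 ^ 6) (hfar : ∀ j < m, 1 / 10 ^ 9 * t ≤ ‖(fq e c)^[j] y‖) :
    ∃ x, Idx e c t (1 / 10 ^ 9) m x ∧ y ∈ ball x (scl e c t m x / 500000) ∧ 0 < scl e c t m x ∧
      scl e c t m x ≤ 16384 * max ‖x - c‖ ((1 / 10 ^ 9 * t) ^ (e + 1)) := by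
  have hy' : ‖(fq e c)^[m] y‖ ≤ t / 2048 := by linarith
  obtain ⟨h, hb, hh⟩ := lemmaU he ht (by norm_num) (by norm_num) hK hLD hy' hfar
  have h0 : 0 < ‖deriv h 0‖ :=
    norm_pos_iff.mpr ((hb.univ isOpen_ball).ne 0 (mem_ball_self (by positivity)))
  refine ⟨h 0, ⟨h, hb, rfl, fun j hj => ?_⟩, ?_, ?_, ?_⟩
  · have h1 := (hb.iter hj.le).near he ht (by omega) hy'
    simp only [hh] at h1
    linarith [norm_sub_norm_le ((fq e c)^[j] y) ((fq e c)^[j] (h 0)), hfar j hj]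
  · have h1 := hb.val_le ht hy'
    rw [hh] at h1
    rw [mem_ball, dist_eq_norm, hb.scl_eq ht]
    nlinarith
  · rw [hb.scl_eq ht]
    positivity
  · rw [hb.scl_eq ht]
    by_cases hc : c ∈ h '' ball 0 (t / 4096)
    · obtain ⟨ζ, hζ, hζc⟩ := hc
      rw [mem_ball_zero_iff] at hζ
      have hζ' : ζ ∈ ball (0 : ℂ) (t / 32) := mem_ball_zero_iff.mpr (by linarith)
      have h1 := hb.inv ζ hζ'
      rw [hζc] at h1
      have h2 := hLD m (by rw [h1]; linarith)
      have h3 := hb.mul_deriv isOpen_ball hζ'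
      rw [hζc] at h3
      have h4 := congrArg norm h3
      rw [norm_mul, norm_one] at h4
      have h5 := lin_deriv (by positivity) (hb.univ isOpen_ball) (z := ζ) (η := 1 / 2)
        (by norm_num) (by rw [sub_zero]; linarith)
      have h6 := norm_sub_norm_le (deriv h 0) (deriv h ζ)
      rw [norm_sub_rev] at h6
      have hd1 : (1 : ℝ) ≤ (e + 1 : ℕ) := by exact_mod_cast Nat.le_add_left 1 e
      have hθ : (0 : ℝ) < (1 / 10 ^ 9) ^ (e + 1) := by positivity
      have h7 : 1 ≤ K * (1 / 10 ^ 9) ^ (e + 1) := by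
        rw [pow_succ _ (e + 1)] at hK
        nlinarith
      have hK0 : 0 < K := (mul_pos_iff_of_pos_right hθ).mp (by linarith)
      have h8 : ‖deriv h ζ‖ * K ≤ t ^ e := by
        calc ‖deriv h ζ‖ * K ≤ ‖deriv h ζ‖ * (‖Pd e c c m‖ * t ^ e) := by gcongr
          _ = t ^ e := by linear_combination t ^ e * h4
      have h9 : t * ‖deriv h ζ‖ ≤ (1 / 10 ^ 9 * t) ^ (e + 1) := by
        calc t * ‖deriv h ζ‖ ≤ t * ‖deriv h ζ‖ * (K * (1 / 10 ^ 9) ^ (e + 1)) :=
              le_mul_of_one_le_right (by positivity) h7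
          _ = t * (‖deriv h ζ‖ * K) * (1 / 10 ^ 9) ^ (e + 1) := by ring
          _ ≤ t * t ^ e * (1 / 10 ^ 9) ^ (e + 1) := by gcongr
          _ = _ := by ring
      have h10 := le_max_right ‖h 0 - c‖ ((1 / 10 ^ 9 * t) ^ (e + 1))
      have h11 : 0 ≤ t * ‖deriv h ζ‖ := by positivity
      nlinarith
    · have h1 := koebe_omit (by positivity)
        ((hb.univ isOpen_ball).mono (ball_subset_ball (by linarith))) hc
      have h10 := le_max_left ‖h 0 - c‖ ((1 / 10 ^ 9 * t) ^ (e + 1))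
      linarith

theorem Idx.lt_three (he : 1 ≤ e) (hc : ‖c‖ ≤ 2) {t θ : ℝ} (ht : 0 < t) {m : ℕ} {x : ℂ}
    (hx : Idx e c t θ m x) : ‖x‖ < 3 := by
  obtain ⟨h, hb, rfl, -⟩ := hx
  refine iter_lt_three he hc m _ ?_
  rw [hb.inv 0 (mem_ball_self (by positivity))]
  simp

theorem pre_ball {s : ℝ} (hs : 0 < s) : fq e c ⁻¹' ball c (s ^ (e + 1)) = ball 0 s := by
  ext w
  rw [mem_preimage, mem_ball, dist_eq_norm, fq, add_sub_cancel_right, norm_pow, mem_ball_zero_iff,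
    pow_lt_pow_iff_left₀ (norm_nonneg _) hs.le (Nat.succ_ne_zero e)]

theorem tame_int (he : 1 ≤ e) (hc : ‖c‖ ≤ 2) {t K : ℝ} (ht : 0 < t) (htc : t ≤ ‖c‖)
    (hK : 10 ^ 6 * (e + 1 : ℕ) ≤ K * (1 / 10 ^ 9) ^ (e + 2)) (hLD : LDs e c t K)
    {φ E : ℂ → ℂ} (hφ : Measurable φ) (hφ1 : LI (ball 0 3) (fun y => ‖φ y‖) ≠ ∞) {B : Set ℂ}
    (hB : volume B = 0) (hid : ∀ y ∉ B, φ y = Tr e c φ y + E y) {M0 : ℝ} (hM0 : 0 ≤ M0)
    (hφZ : ∀ y ∈ ball c ((1 / 10 ^ 9 * t) ^ (e + 1)), y ∉ B → ‖φ y‖ ≤ M0 * gk c y) {w : ℂ → ℝ}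
    (hw : Wt c w) (hEw : ∀ y ∉ B, ‖E y‖ ≤ w y) :
    LI (ball 0 (t / 10 ^ 6)) (fun y => ‖φ y‖) ≤
      ENNReal.ofReal (M0 * (6 * 32000 ^ 2) * (2 * π * (2 * (1 / 10 ^ 9 * t) ^ (e + 1)))) +
        ENNReal.ofReal (54 * 32000 ^ 2) *
          LI ({y | (1 / 10 ^ 9 * t) ^ (e + 1) / 2 ≤ ‖y - c‖} ∩ ball 0 4) w := by
  set a := (1 / 10 ^ 9 * t) ^ (e + 1) with ha
  have ha0 : 0 < a := by positivity
  have ha1 : a ≤ 1 / 10 ^ 9 * t := pow_le_of_le_one (by positivity) (by linarith) (by omega)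
  set Bs : ℕ → Set ℂ := fun m => {y | (fq e c)^[m] y ∈ ball 0 (t / 10 ^ 6) ∧
    ∀ j < m, (fq e c)^[j] y ∉ ball c a} with hBs
  set As : ℕ → Set ℂ := fun m => fq e c ⁻¹' Bs m ∩ ball c a with hAs
  have hmeas : ∀ m, MeasurableSet (Bs m) := fun m => by
    have h1 : ∀ j, Measurable (fq e c)^[j] := fun j => (iter_diff j).continuous.measurable
    refine (h1 m measurableSet_ball).inter ?_
    have : MeasurableSet (⋂ j ∈ Iio m, ((fq e c)^[j] ⁻¹' ball c a)ᶜ) :=
      MeasurableSet.biInter (to_countable _) fun j _ => (h1 j measurableSet_ball).compl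
    refine this.congr ?_
    ext y
    simp only [mem_iInter]
    rfl
  have hWZ : ∀ y ∈ ball (0 : ℂ) (t / 10 ^ 6), y ∉ ball c a := fun y hy hy' => by
    rw [mem_ball_zero_iff] at hy
    rw [mem_ball, dist_eq_norm, norm_sub_rev] at hy'
    linarith [norm_sub_norm_le c y]
  have hfar : ∀ m y, (fq e c)^[m] y ∈ ball (0 : ℂ) (t / 10 ^ 6) →
      (∀ j, 0 < j → j < m → (fq e c)^[j] y ∉ ball c a) →
      ∀ j < m, 1 / 10 ^ 9 * t ≤ ‖(fq e c)^[j] y‖ := by
    intro m y h1 h2 j hj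
    by_contra h3
    have h4 : (fq e c)^[j + 1] y ∈ ball c a := by
      rw [Function.iterate_succ_apply', ← mem_preimage, ha, pre_ball (by positivity),
        mem_ball_zero_iff]
      exact not_le.mp h3
    rcases (Nat.succ_le_of_lt hj).eq_or_lt with h5 | h5
    · exact hWZ _ h1 (h5 ▸ h4)
    · exact h2 _ (Nat.succ_pos j) h5 h4
  have hrec : ∀ M, LI (Bs 0) (fun y => ‖φ y‖) ≤
      ∑ m ∈ Finset.range M, LI (As m) (fun y => ‖φ y‖) +
        ∑ m ∈ Finset.range M, LI (Bs m) (fun y => ‖E y‖) + LI (Bs M) (fun y => ‖φ y‖) := by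
    intro M
    induction M with
    | zero => simp
    | succ M ih =>
      have h1 := le_self_add.trans (transfer hφ hB hid (hmeas M))
      have h2 : fq e c ⁻¹' Bs M ⊆ As M ∪ Bs (M + 1) := by
        intro y hy
        by_cases h : y ∈ ball c a
        · exact Or.inl ⟨hy, h⟩
        · refine Or.inr ⟨hy.1, fun j hj => ?_⟩
          cases j with
          | zero => exact h
          | succ j => exact hy.2 j (by omega)
      have h3 := h1.trans (add_le_add ((LI_mono_set h2 _).trans (LI_union_le _ _ _)) le_rfl)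
      refine (ih.trans (add_le_add le_rfl h3)).trans_eq ?_
      rw [Finset.sum_range_succ, Finset.sum_range_succ]
      ring
  have hratio : ∀ s : ℝ, 0 < s → s / 500000 / (1 / 10 ^ 9 * s / 16) = 32000 := fun s hs => by
    field_simp
    norm_num
  have hA : ∀ M, ∑ m ∈ Finset.range M, LI (As m) (fun y => ‖φ y‖) ≤
      ENNReal.ofReal (M0 * (6 * 32000 ^ 2) * (2 * π * (2 * a))) := by
    intro M
    set S : ℕ → Set ℂ := fun m => Nat.casesOn m ∅ As with hS
    have h1 := pack_sum he ht (c := c) (G := fun m x => Idx e c t (1 / 10 ^ 9) m x ∧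
      0 < scl e c t m x ∧ ball x (1 / 10 ^ 9 * scl e c t m x / 16) ⊆ ball c (2 * a))
      (fun _ _ h => h.1) (S := S) ?_ (u := gk c) (v := gk c) (C := ENNReal.ofReal (6 * 32000 ^ 2))
      (fun m x h => ?_) (fun _ _ h => h.2.2) (M + 1)
    · rw [Finset.sum_range_succ'] at h1
      calc _ ≤ ∑ m ∈ Finset.range M, ENNReal.ofReal M0 * LI (As m) (gk c) := by
            refine Finset.sum_le_sum fun m _ => ?_
            rw [← LI_const_mul _ hM0]
            exact LI_mono_ae ((fq_diff.continuous.measurable (hmeas m)).inter measurableSet_ball) hB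
              fun y hy hyB => hφZ y hy.2 hyB
        _ ≤ ENNReal.ofReal M0 * (ENNReal.ofReal (6 * 32000 ^ 2) *
              ENNReal.ofReal (2 * π * (2 * a))) := by
            rw [← Finset.mul_sum, ← LI_gk_self c]
            exact mul_le_mul_right (le_self_add.trans h1) _
        _ = _ := by
            rw [← mul_assoc, ← ENNReal.ofReal_mul hM0, ← ENNReal.ofReal_mul (by positivity)]
    · intro m y hy
      cases m with
      | zero => exact absurd hy (notMem_empty y)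
      | succ m =>
        obtain ⟨x, hx, hyx, hs0, hs⟩ := cover he ht hK hLD (m := m + 1) (y := y)
          (mem_ball_zero_iff.mp hy.1.1) (hfar (m + 1) y hy.1.1 fun j hj hjm => by
            obtain ⟨j, rfl⟩ := Nat.exists_eq_succ_of_ne_zero hj.ne'
            exact hy.1.2 j (by omega))
        refine ⟨x, ⟨hx, hs0, ball_subset_ball' ?_⟩, hyx⟩
        have h2 := hy.2
        rw [mem_ball, dist_eq_norm] at h2 hyx
        have h3 := norm_sub_le_norm_sub_add_norm_sub x y c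
        rw [norm_sub_rev x y] at h3
        rw [dist_eq_norm]
        rcases max_cases ‖x - c‖ a with h4 | h4 <;> rw [← ha, h4.1] at hs <;> linarith [h4.2]
    · rw [← hratio _ h.2.1]
      exact gk_dbl c x (by linarith [h.2.1]) (by linarith [h.2.1])
  set GB : ℕ → ℂ → Prop := fun m x => Idx e c t (1 / 10 ^ 9) m x ∧ 0 < scl e c t m x ∧
    2 * (scl e c t m x / 500000) ≤ ‖x - c‖ ∧
      ball x (1 / 10 ^ 9 * scl e c t m x / 16) ⊆ {y | a / 2 ≤ ‖y - c‖} ∩ ball 0 4 with hGB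
  have hcov : ∀ m, ∀ y ∈ Bs m, ∃ x, GB m x ∧ y ∈ ball x (scl e c t m x / 500000) := by
    intro m y hy
    obtain ⟨x, hx, hyx, hs0, hs⟩ := cover he ht hK hLD (m := m) (y := y)
      (mem_ball_zero_iff.mp hy.1) (hfar m y hy.1 fun j _ hjm => hy.2 j hjm)
    have h2 : y ∉ ball c a := by
      cases m with
      | zero => exact hWZ y hy.1
      | succ m => exact hy.2 0 (by omega)
    have hyx' := hyx
    rw [mem_ball, dist_eq_norm] at h2 hyx'
    have h3 := norm_sub_le_norm_sub_add_norm_sub y x c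
    have h5 : scl e c t m x ≤ 20000 * ‖x - c‖ ∧ 9 / 10 * a ≤ ‖x - c‖ := by
      rcases max_cases ‖x - c‖ a with h4 | h4 <;> rw [← ha, h4.1] at hs <;> constructor <;>
        linarith [h4.2]
    have h6 := hx.lt_three he hc ht
    have h7 := norm_sub_le x c
    refine ⟨x, ⟨hx, hs0, by linarith [h5.1], fun v hv => ⟨?_, ?_⟩⟩, hyx⟩
    · rw [mem_ball, dist_eq_norm] at hv
      have h8 := norm_sub_le_norm_sub_add_norm_sub x v c
      rw [norm_sub_rev x v] at h8
      change a / 2 ≤ ‖v - c‖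
      linarith [h5.1, h5.2]
    · rw [mem_ball, dist_eq_norm] at hv
      rw [mem_ball_zero_iff]
      linarith [norm_sub_norm_le v x, h5.1]
  have hBE : ∀ M, ∑ m ∈ Finset.range M, LI (Bs m) (fun y => ‖E y‖) ≤
      ENNReal.ofReal (54 * 32000 ^ 2) * LI ({y | a / 2 ≤ ‖y - c‖} ∩ ball 0 4) w := by
    intro M
    refine le_trans (Finset.sum_le_sum fun m _ => LI_mono_ae (hmeas m) hB fun y _ hy => hEw y hy)
      (pack_sum he ht (G := GB) (fun _ _ h => h.1) hcov (fun m x h => ?_) (fun _ _ h => h.2.2.2) M)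
    rw [← hratio _ h.2.1]
    exact hw.dbl x _ _ (by linarith [h.2.1]) (by linarith [h.2.1]) h.2.2.1
  have hvol : Tendsto (fun M => volume (Bs M)) atTop (𝓝 0) := by
    refine ENNReal.tendsto_atTop_zero_of_tsum_ne_top (ne_top_of_le_ne_top ?_
      (ENNReal.tsum_le_of_sum_range_le (c := ENNReal.ofReal (32000 ^ 2) * LI (ball 0 4) fun _ => 1)
        fun M => ?_))
    · rw [LI_ball_const _ (by norm_num) (by norm_num)]
      exact ENNReal.mul_ne_top ENNReal.ofReal_ne_top ENNReal.ofReal_ne_top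
    · refine le_trans (le_of_eq ?_) (pack_sum he ht (G := GB) (fun _ _ h => h.1) hcov
        (u := fun _ => 1) (fun m x h => ?_) (fun _ _ h => h.2.2.2.trans inter_subset_right) M)
      · simp [LI_const]
      · have := h.2.1
        rw [LI_ball_const _ (by positivity) (by norm_num),
          LI_ball_const _ (by positivity) (by norm_num), ← ENNReal.ofReal_mul (by norm_num)]
        refine le_of_eq ?_
        congr 1
        ring
  have htail : Tendsto (fun M => LI (Bs M) (fun y => ‖φ y‖)) atTop (𝓝 0) := by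
    have h1 := tendsto_setLIntegral_zero (μ := volume.restrict (ball 0 3)) hφ1 (s := Bs)
      (l := atTop) (tendsto_of_tendsto_of_tendsto_of_le_of_le tendsto_const_nhds hvol
        (fun _ => zero_le) fun M => Measure.restrict_le_self _)
    refine h1.congr fun M => ?_
    rw [Measure.restrict_restrict (hmeas M), inter_eq_left.mpr]
    · rfl
    · intro y hy
      refine mem_ball_zero_iff.mpr (iter_lt_three he hc M y ?_)
      linarith [mem_ball_zero_iff.mp hy.1]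
  have h0 : Bs 0 = ball 0 (t / 10 ^ 6) := by
    ext y
    simp [hBs]
  rw [← h0]
  have hlim := htail.const_add (ENNReal.ofReal (M0 * (6 * 32000 ^ 2) * (2 * π * (2 * a))) +
    ENNReal.ofReal (54 * 32000 ^ 2) * LI ({y | a / 2 ≤ ‖y - c‖} ∩ ball 0 4) w)
  rw [add_zero] at hlim
  exact ge_of_tendsto' hlim fun M => (hrec M).trans (add_le_add (add_le_add (hA M) (hBE M)) le_rfl)

/-- Near the critical value the differential is comparable to a simple pole. -/
theorem tame (he : 1 ≤ e) (hc : ‖c‖ ≤ 2) {t K : ℝ} (ht : 0 < t) (htc : t ≤ ‖c‖)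
    (hK : 10 ^ 6 * (e + 1 : ℕ) ≤ K * (1 / 10 ^ 9) ^ (e + 2)) (hLD : LDs e c t K)
    {φ E : ℂ → ℂ} (hφ : Measurable φ) (hφ1 : LI (ball 0 3) (fun y => ‖φ y‖) ≠ ∞) {B : Set ℂ}
    (hB : volume B = 0) (hid : ∀ y ∉ B, φ y = Tr e c φ y + E y) {Ψ : ℂ → ℂ} (hΨm : Measurable Ψ)
    (hΨ : DifferentiableOn ℂ Ψ (ball c (t ^ (e + 1)))) (hΨφ : ∀ y ≠ c, φ y = Ψ y / (y - c))
    (hΨc : ‖Ψ c‖ ≤ 2) {w : ℂ → ℝ} (hw : Wt c w) (hEw : ∀ y ∉ B, ‖E y‖ ≤ w y) {ε0 ε1 : ℝ}
    (hε0 : 0 ≤ ε0) (hε1 : 0 ≤ ε1) (hE : LI (ball 0 3) (fun y => ‖E y‖) ≤ ENNReal.ofReal ε0)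
    (hw1 : LI ({y | (1 / 10 ^ 9 * t) ^ (e + 1) / 2 ≤ ‖y - c‖} ∩ ball 0 4) w ≤ ENNReal.ofReal ε1)
    (hsmall : ε0 + 54 * 32000 ^ 2 * ε1 ≤ (t / 10 ^ 6) ^ (e + 1)) :
    ∀ y ∈ ball c ((t / 10 ^ 6) ^ (e + 1) / 2),
      ‖Ψ y - Ψ c‖ ≤ 2000000 * ‖y - c‖ / (t / 10 ^ 6) ^ (e + 1) := by
  set a := (1 / 10 ^ 9 * t) ^ (e + 1) with ha
  set b := (t / 10 ^ 6) ^ (e + 1) with hb
  have ha0 : 0 < a := by positivity
  have hb0 : 0 < b := by positivity
  have hab : a ≤ b / 10 ^ 6 := by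
    have h1 : a = (1 / 1000) ^ (e + 1) * b := by
      rw [ha, hb, ← mul_pow]
      congr 1
      ring
    have h2 : ((1 : ℝ) / 1000) ^ (e + 1) ≤ (1 / 1000) ^ 2 :=
      pow_le_pow_of_le_one (by norm_num) (by norm_num) (by omega)
    rw [h1]
    nlinarith
  have hbt : b ≤ t ^ (e + 1) := by
    rw [hb]
    gcongr
    linarith
  have hb1 : b ≤ 1 := pow_le_one₀ (by positivity) (by linarith)
  obtain ⟨y0, hy0, hmax⟩ := (isCompact_closedBall c a).exists_isMaxOn (nonempty_closedBall.mpr ha0.le)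
    (hΨ.continuousOn.mono (closedBall_subset_ball (by linarith))).norm
  set M0 := ‖Ψ y0‖ with hM0
  have hM00 : 0 ≤ M0 := norm_nonneg _
  have hint := tame_int he hc ht htc hK hLD hφ hφ1 (B := B ∪ {c})
    (measure_union_null hB (measure_singleton c)) (fun y hy => hid y fun h => hy (Or.inl h)) hM00
    (fun y hy hyB => by
      rw [hΨφ y fun h => hyB (Or.inr h), norm_div, div_eq_mul_inv]
      exact mul_le_mul_of_nonneg_right (hmax (ball_subset_closedBall hy)) (gk_nonneg c y))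
    hw (fun y hy => hEw y fun h => hy (Or.inl h))
  have hZ1 : LI (ball c b) (fun y => ‖φ y‖) ≤ ENNReal.ofReal (M0 * 24576 * π * b + b) := by
    have h1 := le_self_add.trans (transfer hφ hB hid (measurableSet_ball (x := c) (ε := b)))
    rw [hb, pre_ball (by positivity), ← hb] at h1
    have h2 : LI (ball c b) (fun y => ‖E y‖) ≤ ENNReal.ofReal ε0 :=
      (LI_mono_set (ball_subset_ball' (by rw [dist_zero_right]; linarith)) _).trans hE
    refine (h1.trans (add_le_add (hint.trans (add_le_add le_rfl (mul_le_mul_right hw1 _))) h2)).trans ?_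
    rw [← ENNReal.ofReal_mul (by positivity), ← ENNReal.ofReal_add (by positivity) (by positivity),
      ← ENNReal.ofReal_add (by positivity) (by positivity)]
    refine ENNReal.ofReal_le_ofReal ?_
    have : M0 * π * a ≤ M0 * π * (b / 10 ^ 6) := by gcongr
    rw [← ha]
    linarith
  have hM1 : ∀ y ∈ ball c (b / 2), ‖Ψ y‖ ≤ 98304 * M0 + 2 := by
    intro y hy
    have hsub : ball y (b / 2) ⊆ ball c b := ball_subset_ball' (by linarith [mem_ball.mp hy])
    have h1 := LI_mean (x := y) (R := b / 2) (by positivity)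
      (hΨ.mono (hsub.trans (ball_subset_ball hbt))) hΨm.norm (fun _ _ _ => le_rfl)
    have h2 : LI (ball y (b / 2)) (fun z => ‖Ψ z‖) ≤ LI (ball c b) (fun z => b * ‖φ z‖) := by
      refine (LI_mono_set hsub _).trans (LI_mono_ae measurableSet_ball (measure_singleton c)
        fun z hz hzc => ?_)
      rw [mem_ball, dist_eq_norm] at hz
      have h3 : 0 < ‖z - c‖ := norm_pos_iff.mpr (sub_ne_zero.mpr hzc)
      rw [hΨφ z hzc, norm_div, ← mul_div_assoc, le_div_iff₀ h3, mul_comm]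
      gcongr
    rw [LI_const_mul _ hb0.le] at h2
    have h3 := (h1.trans h2).trans (mul_le_mul_right hZ1 _)
    rw [← ENNReal.ofReal_mul hb0.le, ENNReal.ofReal_le_ofReal_iff (by positivity)] at h3
    refine le_of_mul_le_mul_left (a := π * (b / 2) ^ 2) (h3.trans ?_) (by positivity)
    nlinarith [pi_gt_three, mul_pos hb0 hb0]
  have hS : ∀ y ∈ ball c (b / 2), ‖Ψ y - Ψ c‖ ≤ 4 * (98304 * M0 + 2) * ‖y - c‖ / b := by
    intro y hy
    have h1 := Complex.dist_le_div_mul_dist_of_mapsTo_ball (f := Ψ) (c := c) (R₁ := b / 2)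
      (R₂ := 2 * (98304 * M0 + 2)) (hΨ.mono (ball_subset_ball (by linarith))) (fun z hz => by
        rw [mem_closedBall, dist_eq_norm]
        linarith [norm_sub_le (Ψ z) (Ψ c), hM1 z hz, hM1 c (mem_ball_self (by positivity))]) hy
    rw [dist_eq_norm, dist_eq_norm] at h1
    refine h1.trans_eq ?_
    field_simp
    ring
  have hM4 : M0 ≤ 4 := by
    have h1 := hS y0 (closedBall_subset_ball (by linarith) hy0)
    rw [mem_closedBall, dist_eq_norm] at hy0
    have h2 : 4 * (98304 * M0 + 2) * ‖y0 - c‖ / b ≤ 4 * (98304 * M0 + 2) * (b / 10 ^ 6) / b := by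
      gcongr
      linarith
    have h3 : 4 * (98304 * M0 + 2) * (b / 10 ^ 6) / b = 4 * (98304 * M0 + 2) / 10 ^ 6 := by
      field_simp
    linarith [norm_sub_norm_le (Ψ y0) (Ψ c)]
  intro y hy
  refine (hS y hy).trans ?_
  gcongr
  linarith

end Pool.Agent.MP_28f8a1_an

end

-- part MP_28f8a1_an.Chain
section

/-! Transport along the critical orbit and the fold at the critical point. -/

set_option autoImplicit false

namespace Pool.Agent.MP_28f8a1_an

open MeasureTheory Metric Set Real Filter Topology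
open scoped ENNReal

variable {e : ℕ} {c : ℂ}

theorem norm_om (e : ℕ) : ‖om e‖ = 1 := (om_prim e).norm'_eq_one (Nat.succ_ne_zero e)

theorem unit_lt {u : ℂ} (hu : ‖u‖ = 1) (h1 : u ≠ 1) : 0 < 1 + ‖u‖ - ‖1 + u‖ := by
  have h2 := parallelogram_law_with_norm ℝ (1 : ℂ) u
  have h3 : 0 < ‖1 - u‖ := norm_pos_iff.mpr (sub_ne_zero.mpr h1.symm)
  rw [hu, norm_one] at h2
  nlinarith [norm_nonneg (1 + u)]

/-- The ratio of two contributions at the fold. -/
noncomputable def rat (e : ℕ) (τ μ : ℂ) : ℂ := μ * (om e ^ 2 * (τ - 1) / (om e * τ - 1))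

theorem rat_cont (e : ℕ) {τ : ℂ} (hτ : ‖τ‖ ≤ 1 / 4) (μ : ℂ) :
    ContinuousAt (fun q : ℂ × ℂ => 1 + ‖rat e q.1 q.2‖ - ‖1 + rat e q.1 q.2‖) (τ, μ) := by
  have h : om e * τ - 1 ≠ 0 := by
    intro h
    have := congrArg norm (sub_eq_zero.mp h)
    rw [norm_mul, norm_om, norm_one] at this
    linarith
  unfold rat
  fun_prop (disch := exact h)

theorem fold_const (he : 1 ≤ e) : ∃ (τ0 : ℂ) (η : ℝ), 0 < η ∧ η ≤ 1 / 8 ∧ ‖τ0‖ ≤ 1 / 4 ∧
    InjOn (fun z : ℂ => z ^ (e + 1)) (ball τ0 η) ∧ (∀ τ ∈ ball τ0 η, τ ≠ 0) ∧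
    ∀ τ ∈ ball τ0 η, ∀ μ ∈ ball (1 : ℂ) η, η ≤ 1 + ‖rat e τ μ‖ - ‖1 + rat e τ μ‖ := by
  have hom : om e ≠ 1 := (om_prim e).ne_one (by omega)
  obtain ⟨τ0, h0, h1, h2⟩ : ∃ τ0 : ℂ, τ0 ≠ 0 ∧ ‖τ0‖ ≤ 1 / 4 ∧
      0 < 1 + ‖rat e τ0 1‖ - ‖1 + rat e τ0 1‖ := by
    by_cases h : om e ^ 2 = 1
    · have h3 : om e = -1 := (sq_eq_one_iff.mp h).resolve_left hom
      refine ⟨Complex.I / 4, by simp, by simp, unit_lt ?_ ?_⟩
      · rw [rat, h3, one_mul, norm_div, div_eq_one_iff_eq]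
        · rw [← pow_left_inj₀ (norm_nonneg _) (norm_nonneg _) two_ne_zero]
          simp only [← Complex.normSq_eq_norm_sq, Complex.normSq_apply]
          simp
        · refine norm_ne_zero_iff.mpr fun h => ?_
          simpa using congrArg Complex.re h
      · rw [rat, h3, one_mul]
        intro h4
        have h5 := congrArg Complex.im (eq_of_div_eq_one h4)
        norm_num at h5
    · have h3 : 0 < 1 + ‖rat e 0 1‖ - ‖1 + rat e 0 1‖ := by
        have : rat e 0 1 = om e ^ 2 := by simp [rat]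
        rw [this]
        exact unit_lt (by rw [norm_pow, norm_om, one_pow]) h
      have h4 : ContinuousAt (fun τ : ℂ => 1 + ‖rat e τ 1‖ - ‖1 + rat e τ 1‖) 0 :=
        (rat_cont e (τ := 0) (by simp) 1).comp (f := fun τ : ℂ => (τ, (1 : ℂ))) (by fun_prop)
      have h5 := (h4.eventually (lt_mem_nhds h3)).and
        (closedBall_mem_nhds (0 : ℂ) (show (0 : ℝ) < 1 / 4 by norm_num))
      obtain ⟨τ0, h6, h7⟩ := ((h5.filter_mono (nhdsWithin_le_nhds (s := {0}ᶜ))).and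
        self_mem_nhdsWithin).exists
      exact ⟨τ0, h7, by simpa using h6.2, h6.1⟩
  set m0 := 1 + ‖rat e τ0 1‖ - ‖1 + rat e τ0 1‖
  obtain ⟨r1, hr1, h3⟩ := Metric.eventually_nhds_iff_ball.mp
    ((rat_cont e h1 1).eventually (lt_mem_nhds (half_lt_self h2)))
  have h4 : HasStrictDerivAt (fun z : ℂ => z ^ (e + 1)) ((e + 1 : ℕ) * τ0 ^ (e + 1 - 1)) τ0 :=
    hasStrictDerivAt_pow (e + 1) τ0
  obtain ⟨ι, h5⟩ : ∃ ι : ℂ → ℂ, ∀ᶠ v in 𝓝 τ0, ι (v ^ (e + 1)) = v :=
    ⟨_, (h4.hasStrictFDerivAt_equiv (mul_ne_zero (Nat.cast_ne_zero.mpr (Nat.succ_ne_zero e))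
      (pow_ne_zero _ h0))).eventually_left_inverse⟩
  obtain ⟨r2, hr2, h6⟩ := Metric.eventually_nhds_iff_ball.mp (h5.and (eventually_ne_nhds h0))
  refine ⟨τ0, min (min r1 r2) (min (1 / 8) (m0 / 2)), by positivity,
    (min_le_right _ _).trans (min_le_left _ _), h1, fun u hu v hv huv => ?_, fun τ hτ => ?_,
    fun τ hτ μ hμ => ?_⟩
  · have h7 : min (min r1 r2) (min (1 / 8) (m0 / 2)) ≤ r2 :=
      (min_le_left _ _).trans (min_le_right _ _)
    rw [← (h6 u (ball_subset_ball h7 hu)).1, ← (h6 v (ball_subset_ball h7 hv)).1]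
    exact congrArg ι huv
  · exact (h6 τ (ball_subset_ball ((min_le_left _ _).trans (min_le_right _ _)) hτ)).2
  · have h7 : min (min r1 r2) (min (1 / 8) (m0 / 2)) ≤ r1 :=
      (min_le_left _ _).trans (min_le_left _ _)
    refine ((min_le_right _ _).trans (min_le_right _ _)).trans (h3 (τ, μ) ?_).le
    rw [← ball_prod_same]
    exact ⟨ball_subset_ball h7 hτ, ball_subset_ball h7 hμ⟩

theorem loss_total (he : 1 ≤ e) (hc : ‖c‖ ≤ 2) {φ E : ℂ → ℂ} (hφ : Measurable φ)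
    (hφ1 : LI (ball 0 3) (fun y => ‖φ y‖) ≠ ∞) {B : Set ℂ} (hB : volume B = 0)
    (hid : ∀ y ∉ B, φ y = Tr e c φ y + E y) :
    LI (ball 0 3) (loss e c φ) ≤ LI (ball 0 3) (fun y => ‖E y‖) := by
  refine ENNReal.le_of_add_le_add_left hφ1 ((transfer hφ hB hid measurableSet_ball).trans ?_)
  refine add_le_add (LI_mono_set (fun y hy => ?_) _) le_rfl
  exact mem_ball_zero_iff.mpr (lt_three he hc (mem_ball_zero_iff.mp hy))

theorem chain_pt {φ E : ℂ → ℂ} {x : ℂ} (n : ℕ) (h0 : ∀ j < n, (fq e c)^[j] x ≠ 0)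
    (hid : ∀ j < n, φ ((fq e c)^[j + 1] x) =
      Tr e c φ ((fq e c)^[j + 1] x) + E ((fq e c)^[j + 1] x)) :
    ‖φ x‖ + ‖φ ((fq e c)^[n] x) * Pd e c x n ^ 2 - φ x‖ - ‖φ ((fq e c)^[n] x) * Pd e c x n ^ 2‖ ≤
      ∑ j ∈ Finset.range n, ‖Pd e c x (j + 1)‖ ^ 2 *
        (loss e c φ ((fq e c)^[j + 1] x) + 2 * ‖E ((fq e c)^[j + 1] x)‖) := by
  induction n with
  | zero => simp [Pd_zero]
  | succ n ih =>
    have h1 := ih (fun j hj => h0 j (by omega)) (fun j hj => hid j (by omega))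
    obtain ⟨S, hS1, hS2⟩ := loss_one (e := e) (c := c) φ (h0 n (by omega))
    have h2 := hid n (by omega)
    rw [← Function.iterate_succ_apply' (fq e c)] at hS1 hS2
    have h3 : φ ((fq e c)^[n] x) * Pd e c x n ^ 2 =
        tm e φ ((fq e c)^[n] x) * Pd e c x (n + 1) ^ 2 := by
      have : ((e + 1 : ℕ) : ℂ) ≠ 0 := Nat.cast_ne_zero.mpr (Nat.succ_ne_zero e)
      have := h0 n (by omega)
      rw [tm, Pd_succ']
      field_simp
    rw [Finset.sum_range_succ]
    rw [h3] at h1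
    set P := Pd e c x (n + 1)
    set y := (fq e c)^[n + 1] x
    set T := tm e φ ((fq e c)^[n] x)
    have h4 : ‖φ y - T‖ ≤ S + ‖E y‖ := by
      rw [h2, add_sub_right_comm]
      exact (norm_add_le _ _).trans (add_le_add hS1 le_rfl)
    have h5 : ‖Tr e c φ y‖ ≤ ‖φ y‖ + ‖E y‖ := by
      rw [eq_sub_of_add_eq h2.symm]
      exact norm_sub_le _ _
    have h6 := norm_sub_le_norm_sub_add_norm_sub (φ y * P ^ 2) (T * P ^ 2) (φ x)
    rw [← sub_mul, norm_mul, norm_pow] at h6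
    rw [norm_mul, norm_pow] at h1 ⊢
    have h7 : ‖P‖ ^ 2 * (‖T‖ + ‖φ y - T‖ - ‖φ y‖) ≤ ‖P‖ ^ 2 * (loss e c φ y + 2 * ‖E y‖) := by
      gcongr
      linarith
    linarith

theorem chain_int (he : 1 ≤ e) (hc : ‖c‖ ≤ 2) {ρ t : ℝ} (hρ : 0 < ρ) (hρ1 : ρ ≤ 1)
    (ht : 4096 * ρ ≤ t) {n : ℕ} {h : ℂ → ℂ} (hb : Br e c n h (ball 0 (t / 32))) {p : ℂ}
    (hp : ‖p‖ < 2 * ρ) (hhp : h p = c) (hfar : ∀ j < n, 2 * ρ ≤ ‖(fq e c)^[j] c‖)
    {φ E : ℂ → ℂ} (hφ : Measurable φ) (hE : Measurable E)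
    (hφ1 : LI (ball 0 3) (fun y => ‖φ y‖) ≠ ∞) {B : Set ℂ} (hB : B.Countable)
    (hid : ∀ y ∉ B, φ y = Tr e c φ y + E y) :
    LI (ball 0 ρ) (fun z => ‖φ (h z) * deriv h z ^ 2‖ + ‖φ z - φ (h z) * deriv h z ^ 2‖ - ‖φ z‖) ≤
      3 * LI (ball 0 3) (fun y => ‖E y‖) := by
  have ht0 : 0 < t := by linarith
  have hsub : ball (0 : ℂ) ρ ⊆ ball 0 (t / 32) := ball_subset_ball (by linarith)
  have hU : MeasurableSet (h '' ball 0 ρ) := measurableSet_ball.image_of_continuousOn_injOn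
    (hb.diff.continuousOn.mono hsub) ((hb.univ isOpen_ball).inj.mono hsub)
  have hout : ∀ k < n, ∀ z ∈ ball (0 : ℂ) ρ, ρ ≤ ‖(fq e c)^[k] (h z)‖ := by
    intro k hk z hz
    have h1 := (hb.iter hk.le).near he ht0 (by omega) (u := z)
      (by linarith [mem_ball_zero_iff.mp hz])
    have h2 := (hb.iter hk.le).near he ht0 (by omega) (u := p) (by linarith)
    simp only [hhp] at h1 h2
    have h3 := norm_sub_norm_le ((fq e c)^[k] (h 0)) ((fq e c)^[k] (h z))
    rw [norm_sub_rev] at h3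
    linarith [hfar k hk, norm_sub_norm_le ((fq e c)^[k] c) ((fq e c)^[k] (h 0))]
  have hinj : ∀ j ≤ n, InjOn (fq e c)^[j] (h '' ball 0 ρ) := by
    rintro j hj _ ⟨u, hu, rfl⟩ _ ⟨v, hv, rfl⟩ huv
    rw [((hb.iter hj).univ isOpen_ball).inj (hsub hu) (hsub hv) huv]
  have himg : (fq e c)^[n] '' (h '' ball 0 ρ) = ball 0 ρ := by
    rw [image_image, image_congr fun z hz => hb.inv z (hsub hz), image_id']
  have hnull : volume (⋃ j ∈ Iio n, h '' ball 0 ρ ∩ (fq e c)^[j + 1] ⁻¹' B) = 0 :=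
    (Countable.biUnion (to_countable _) fun j hj =>
      countable_of_injective_of_countable_image ((hinj (j + 1) hj).mono inter_subset_left)
        (hB.mono (by rintro _ ⟨x, hx, rfl⟩; exact hx.2))).measure_zero _
  set u : ℂ → ℝ := fun y => loss e c φ y + 2 * ‖E y‖ with hu
  have hum : Measurable u := (measurable_loss hφ).add (hE.norm.const_mul 2)
  rw [← himg, LI_image hU (fun x _ => iter_deriv n x) (hinj n le_rfl)]
  calc _ ≤ LI (h '' ball 0 ρ) (fun x => ∑ j ∈ Finset.range n,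
        ‖Pd e c x (j + 1)‖ ^ 2 * u ((fq e c)^[j + 1] x)) := by
        refine LI_mono_ae hU hnull ?_
        rintro _ ⟨z, hz, rfl⟩ hx
        refine le_trans (le_of_eq ?_) (chain_pt n (fun j hj h0 => ?_) fun j hj => hid _ fun h1 => ?_)
        · have h1 := hb.mul_deriv isOpen_ball (hsub hz)
          rw [hb.inv z (hsub hz), ← norm_pow, mul_sub, mul_add, ← norm_mul, ← norm_mul, ← norm_mul]
          congr 2
          · congr 1
            linear_combination (φ (h z) * (Pd e c (h z) n * deriv h z + 1)) * h1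
          · congr 1
            linear_combination (-φ (h z) * (Pd e c (h z) n * deriv h z + 1)) * h1
          · ring
        · have := hout j hj z hz
          rw [h0, norm_zero] at this
          linarith
        · exact hx (mem_biUnion hj ⟨⟨z, hz, rfl⟩, h1⟩)
    _ ≤ ∑ j ∈ Finset.range n, LI ((fq e c)^[j + 1] '' (h '' ball 0 ρ)) u := by
        refine (LI_sum_le _ _ fun j _ => ?_).trans (Finset.sum_le_sum fun j hj => ?_)
        · exact ((measurable_deriv _).norm.pow_const 2).mul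
            (hum.comp (iter_diff _).continuous.measurable)
        · rw [LI_image hU (fun x _ => iter_deriv (j + 1) x) (hinj _ (Finset.mem_range.mp hj))]
    _ ≤ LI (ball 0 3) u := by
        have key : ∀ i j, i < j → j ≤ n → Disjoint ((fq e c)^[i] '' (h '' ball 0 ρ))
            ((fq e c)^[j] '' (h '' ball 0 ρ)) := by
          intro i j hij hj
          refine disjoint_left.mpr ?_
          rintro _ ⟨_, ⟨z, hz, rfl⟩, rfl⟩ ⟨_, ⟨z', hz', rfl⟩, h1⟩
          have h2 := hout (n - j + i) (by omega) z hz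
          rw [Function.iterate_add_apply, ← h1, (hb.iter hj).inv z' (hsub hz')] at h2
          linarith [mem_ball_zero_iff.mp hz']
        refine sum_LI_le _ (fun i hi j hj hij => ?_) (fun j hj => hU.image_of_continuousOn_injOn
          (iter_diff _).continuous.continuousOn (hinj _ (Finset.mem_range.mp hj))) ?_ u
        · have hi' := Finset.mem_range.mp hi
          have hj' := Finset.mem_range.mp hj
          rcases lt_or_gt_of_ne hij with h1 | h1
          · exact key _ _ (by omega) hj'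
          · exact (key _ _ (by omega) hi').symm
        · rintro j hj _ ⟨_, ⟨z, hz, rfl⟩, rfl⟩
          refine mem_ball_zero_iff.mpr (iter_lt_three he hc (n - (j + 1)) _ ?_)
          rw [(hb.iter (Finset.mem_range.mp hj)).inv z (hsub hz)]
          linarith [mem_ball_zero_iff.mp hz]
    _ ≤ _ := by
        refine (LI_add_le _ (measurable_loss hφ) _).trans ?_
        rw [LI_const_mul _ (by norm_num), ENNReal.ofReal_ofNat,
          show (3 : ℝ≥0∞) = 1 + 2 by norm_num, add_mul, one_mul]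
        exact add_le_add (loss_total he hc hφ hφ1 (hB.measure_zero _) hid) le_rfl

theorem mul_close {x y : ℂ} {a b : ℝ} (hx : ‖x - 1‖ ≤ a) (hy : ‖y - 1‖ ≤ b) :
    ‖x * y - 1‖ ≤ a + b + a * b := by
  rw [show x * y - 1 = (x - 1) + (y - 1) + (x - 1) * (y - 1) by ring]
  refine norm_add₃_le.trans ?_
  rw [norm_mul]
  have := (norm_nonneg _).trans hx
  gcongr

theorem div_close {x y : ℂ} {a b : ℝ} (hx : ‖x - 1‖ ≤ a) (hy : ‖y - 1‖ ≤ b) (hb : b ≤ 1 / 2) :
    ‖x / y - 1‖ ≤ 2 * (a + b) := by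
  have h1 := norm_sub_norm_le (1 : ℂ) y
  rw [norm_sub_rev, norm_one] at h1
  have h2 : y ≠ 0 := norm_pos_iff.mp (by linarith)
  rw [div_sub_one h2, norm_div, div_le_iff₀ (by linarith)]
  have h3 := norm_sub_le (x - 1) (y - 1)
  rw [sub_sub_sub_cancel_right] at h3
  nlinarith [norm_nonneg (x - 1), norm_nonneg (y - 1)]

theorem div_close' {x y : ℂ} {a : ℝ} (hy : y ≠ 0) (h : ‖x - y‖ ≤ a * ‖y‖) : ‖x / y - 1‖ ≤ a := by
  rwa [div_sub_one hy, norm_div, div_le_iff₀ (norm_pos_iff.mpr hy)]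

/-- The chain and fold estimate. -/
theorem chain_fold (he : 1 ≤ e) : ∃ η : ℝ, 0 < η ∧ η ≤ 1 / 8 ∧ ∀ {c : ℂ}, ‖c‖ ≤ 2 →
    ∀ {ρ t : ℝ}, 0 < ρ → ρ ≤ 1 → 326400 * ρ ≤ η * t → ∀ {n : ℕ} {h : ℂ → ℂ},
    Br e c n h (ball 0 (t / 32)) → ∀ {p : ℂ}, ρ ≤ ‖p‖ → ‖p‖ < 2 * ρ → h p = c →
    (∀ j < n, 2 * ρ ≤ ‖(fq e c)^[j] c‖) → ∀ {φ E : ℂ → ℂ}, Measurable φ → Measurable E →
    LI (ball 0 3) (fun y => ‖φ y‖) ≠ ∞ → ∀ {B : Set ℂ}, B.Countable →
    (∀ y ∉ B, φ y = Tr e c φ y + E y) → ∀ {Ψ : ℂ → ℂ}, (∀ y ≠ c, φ y = Ψ y / (y - c)) →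
    1 / 2 ≤ ‖Ψ c‖ → (∀ y, ‖y - c‖ ≤ 6 * ρ * ‖an e c n‖ → ‖Ψ y - Ψ c‖ ≤ η / 100) →
    ∀ {ε : ℝ}, 0 ≤ ε → LI (ball 0 3) (fun y => ‖E y‖) ≤ ENNReal.ofReal ε →
    η ^ 3 * (‖an e c n‖ * ρ) ≤ 28 * ε := by
  obtain ⟨τ0, η, hη, hη1, hτ0, hinj, hne, hmis⟩ := fold_const he
  refine ⟨η, hη, hη1, ?_⟩
  intro c hc ρ t hρ hρ1 ht n h hb p hp1 hp2 hhp hfar φ E hφ hE hφ1 B hB hid Ψ hΨφ hΨc hΨ ε hε hEε
  have ht0 : 0 < t := (mul_pos_iff_of_pos_left hη).mp (by linarith)
  have ht1 : 4096 * ρ ≤ t := by nlinarith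
  have hch := chain_int he hc hρ hρ1 ht1 hb hp2 hhp hfar hφ hE hφ1 hB hid
  set χ : ℂ → ℂ := fun z => φ (h z) * deriv h z ^ 2 with hχ
  set ms : ℂ → ℝ := fun z => ‖χ z‖ + ‖φ z - χ z‖ - ‖φ z‖ with hms
  have hp0 : p ≠ 0 := norm_pos_iff.mp (by linarith)
  have hpb : p ∈ ball (0 : ℂ) (t / 32) := mem_ball_zero_iff.mpr (by linarith)
  have hU : Univ h (ball p (t / 64)) :=
    (hb.univ isOpen_ball).mono (ball_subset_ball' (by rw [dist_zero_right]; linarith))
  have hα : deriv h p = an e c n := by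
    have h1 := hb.mul_deriv isOpen_ball hpb
    rw [hhp] at h1
    exact eq_inv_of_mul_eq_one_right h1
  set α := an e c n with hαd
  have hα0 : α ≠ 0 := hα ▸ (hb.univ isOpen_ball).ne p hpb
  have hΨ0 : Ψ c ≠ 0 := norm_pos_iff.mp (by linarith)
  have hfac : ∀ w ∈ ball (0 : ℂ) ρ, w - p ≠ 0 ∧ ‖w - p‖ ≤ 3 * ρ ∧
      ∃ μ : ℂ, ‖μ - 1‖ ≤ 12 * (η / 50) ∧ χ w = μ * (Ψ c * α / (w - p)) := by
    intro w hw
    rw [mem_ball_zero_iff] at hw
    have h1 : w - p ≠ 0 := fun h => by rw [sub_eq_zero.mp h] at hw; linarith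
    have h2 : ‖w - p‖ ≤ 3 * ρ := by linarith [norm_sub_le w p]
    have h3 := lin_deriv (by positivity) hU (z := w) (η := η / 50) (by linarith) (by linarith)
    have h4 := lin_val (by positivity) hU (z := w) (η := η / 50) (by linarith) (by linarith)
    have h5 := lin_val_le (by positivity) hU (z := w) (by nlinarith)
    rw [hα] at h3 h4 h5
    rw [hhp] at h4 h5
    have h6 := hΨ (h w) (h5.trans (by nlinarith [norm_nonneg α]))
    have h7 := div_close' hα0 h3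
    have h8 := div_close' (x := h w - c) (a := η / 50) (mul_ne_zero hα0 h1)
      (by rwa [norm_mul, ← mul_assoc])
    have h9 := div_close' (x := Ψ (h w)) (a := η / 50) hΨ0 (h6.trans (by nlinarith))
    have h10 : h w - c ≠ 0 := by
      intro h0
      rw [h0, zero_div, zero_sub, norm_neg, norm_one] at h8
      linarith
    refine ⟨h1, h2, Ψ (h w) / Ψ c * (deriv h w / α * (deriv h w / α)) / ((h w - c) / (α * (w - p))),
      (div_close (mul_close h9 (mul_close h7 h7)) h8 (by linarith)).trans ?_, ?_⟩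
    · have : η / 50 * (η / 50) ≤ η / 50 * (1 / 400) :=
        mul_le_mul_of_nonneg_left (by linarith) (by positivity)
      nlinarith
    · simp only [hχ]
      rw [hΨφ _ (sub_ne_zero.mp h10)]
      field_simp
  set V := ball (p * τ0) (η * ‖p‖) with hV
  have hp0' : 0 < ‖p‖ := by linarith
  have hVτ : ∀ w ∈ V, w / p ∈ ball τ0 η := by
    intro w hw
    rw [mem_ball, dist_eq_norm] at hw ⊢
    rwa [show w / p - τ0 = (w - p * τ0) / p by field_simp, norm_div, div_lt_iff₀ hp0']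
  have hVW : V ⊆ ball 0 ρ := ball_subset_ball' (by
    rw [dist_zero_right, norm_mul]
    nlinarith)
  have hVW' : ∀ w ∈ V, om e * w ∈ ball (0 : ℂ) ρ := fun w hw => by
    rw [mem_ball_zero_iff, norm_mul, norm_om, one_mul]
    exact mem_ball_zero_iff.mp (hVW hw)
  have hpt : ∀ w ∈ V, η * ‖α‖ / (12 * ρ) ≤
      ‖((e + 1 : ℕ) : ℂ) * w ^ e‖ ^ 2 * loss e c φ (fq e c w) + (ms w + ms (om e * w)) := by
    intro w hw
    obtain ⟨h1, h2, μ, hμ, hχ1⟩ := hfac w (hVW hw)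
    obtain ⟨h1', -, μ', hμ', hχ2⟩ := hfac _ (hVW' w hw)
    have hw0 : w ≠ 0 := fun h0 => hne _ (hVτ w hw) (by simp [h0])
    have hμ1 := norm_sub_norm_le (1 : ℂ) μ
    rw [norm_sub_rev, norm_one] at hμ1
    have hμ0 : μ ≠ 0 := norm_pos_iff.mp (by linarith)
    have h3 := hmis _ (hVτ w hw) (μ' / μ) (by
      rw [mem_ball, dist_eq_norm]
      linarith [div_close hμ' hμ (by linarith)])
    have h4 : om e ^ 2 * χ (om e * w) = χ w * rat e (w / p) (μ' / μ) := by
      have : om e * (w / p) - 1 = (om e * w - p) / p := by field_simp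
      rw [hχ1, hχ2, rat, this]
      field_simp
    have h5 : ‖α‖ / (12 * ρ) ≤ ‖χ w‖ := by
      rw [hχ1, norm_mul, norm_div, norm_mul, ← mul_div_assoc,
        div_le_div_iff₀ (by positivity) (norm_pos_iff.mpr h1)]
      have h6 : 1 / 2 * (1 / 2 * ‖α‖) ≤ ‖μ‖ * (‖Ψ c‖ * ‖α‖) := by
        gcongr
        linarith
      nlinarith [norm_nonneg α]
    have h6 : η * ‖α‖ / (12 * ρ) ≤ ‖χ w‖ + ‖om e ^ 2 * χ (om e * w)‖ -
        ‖χ w + om e ^ 2 * χ (om e * w)‖ := by
      rw [h4, ← mul_one_add, norm_mul (χ w), norm_mul (χ w), mul_div_assoc]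
      calc η * (‖α‖ / (12 * ρ)) ≤ (1 + ‖rat e (w / p) (μ' / μ)‖ -
          ‖1 + rat e (w / p) (μ' / μ)‖) * ‖χ w‖ := mul_le_mul h3 h5 (by positivity) (by linarith)
        _ = _ := by ring
    have hom := (om_prim e).pow_eq_one
    have h7 := loss_two (e := e) (c := c) φ hw0 (mul_ne_zero (om_ne e) hw0)
      (fun h0 => (om_prim e).ne_one (by omega) (mul_right_cancel₀ hw0 (by rw [← h0, one_mul])))
      (by rw [fq, fq, mul_pow, hom, one_mul])
    set D : ℂ := ((e + 1 : ℕ) : ℂ) * w ^ e with hD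
    have hD0 : D ≠ 0 := mul_ne_zero (Nat.cast_ne_zero.mpr (Nat.succ_ne_zero e)) (pow_ne_zero _ hw0)
    have h8 : φ w = D ^ 2 * tm e φ w := by
      rw [tm, ← hD]
      field_simp
    have h9 : om e ^ 2 * φ (om e * w) = D ^ 2 * tm e φ (om e * w) := by
      have h10 : ((e + 1 : ℕ) : ℂ) * (om e * w) ^ e = D / om e := by
        rw [eq_div_iff (om_ne e), hD]
        linear_combination ((e + 1 : ℕ) : ℂ) * w ^ e * hom
      have := om_ne e
      rw [tm, h10]
      field_simp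
    have h10 : ‖φ w‖ + ‖om e ^ 2 * φ (om e * w)‖ - ‖φ w + om e ^ 2 * φ (om e * w)‖ ≤
        ‖D‖ ^ 2 * loss e c φ (fq e c w) := by
      rw [h9, h8, ← mul_add, norm_mul (D ^ 2), norm_mul (D ^ 2), norm_mul (D ^ 2), norm_pow,
        ← mul_add, ← mul_sub]
      gcongr
    have h11 : ‖φ w + om e ^ 2 * φ (om e * w)‖ ≤ ‖χ w + om e ^ 2 * χ (om e * w)‖ + ‖φ w - χ w‖ +
        ‖om e ^ 2 * (φ (om e * w) - χ (om e * w))‖ := by
      refine le_trans (le_of_eq ?_) norm_add₃_le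
      congr 1
      ring
    rw [norm_mul (om e ^ 2), norm_pow, norm_om, one_pow, one_mul] at h6 h10 h11
    simp only [hms]
    linarith
  have hVm : MeasurableSet V := measurableSet_ball
  have hI1 : LI V (fun w => ‖((e + 1 : ℕ) : ℂ) * w ^ e‖ ^ 2 * loss e c φ (fq e c w)) ≤
      ENNReal.ofReal ε := by
    rw [← LI_image hVm (fun w _ => fq_deriv w)]
    · refine le_trans (LI_mono_set ?_ _)
        ((loss_total he hc hφ hφ1 (hB.measure_zero _) hid).trans hEε)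
      rintro _ ⟨w, hw, rfl⟩
      have h1 := mem_ball_zero_iff.mp (hVW hw)
      have h2 : ‖w‖ ^ (e + 1) < 1 := pow_lt_one₀ (norm_nonneg _) (by linarith) (by omega)
      have h3 := norm_add_le (w ^ (e + 1)) c
      rw [norm_pow] at h3
      rw [mem_ball_zero_iff, fq]
      linarith
    · intro u hu v hv huv
      have h1 := hinj (hVτ u hu) (hVτ v hv) (by
        simp only [div_pow]
        rw [add_right_cancel huv])
      exact (div_left_inj' hp0).mp h1
  have hI2 : LI V (fun w => ms (om e * w)) ≤ 3 * ENNReal.ofReal ε := by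
    have h1 := LI_image hVm (h := fun w => om e * w) (h' := fun _ => om e)
      (fun w _ => by simpa using (hasDerivAt_id w).const_mul (om e))
      (fun u _ v _ h => mul_left_cancel₀ (om_ne e) h) ms
    simp only [norm_om, one_pow, one_mul] at h1
    rw [← h1]
    refine le_trans (LI_mono_set ?_ _) (hch.trans (mul_le_mul_right hEε _))
    rintro _ ⟨w, hw, rfl⟩
    exact hVW' w hw
  have hI3 : LI V ms ≤ 3 * ENNReal.ofReal ε :=
    (LI_mono_set hVW _).trans (hch.trans (mul_le_mul_right hEε _))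
  have hmsm : AEMeasurable ms (volume.restrict V) := by
    have h1 : AEMeasurable h (volume.restrict V) :=
      (hb.diff.continuousOn.mono (hVW.trans (ball_subset_ball (by linarith)))).aemeasurable hVm
    have h2 : AEMeasurable χ (volume.restrict V) :=
      (hφ.comp_aemeasurable h1).mul ((measurable_deriv h).pow_const 2).aemeasurable
    exact (h2.norm.add (hφ.aemeasurable.sub h2).norm).sub hφ.norm.aemeasurable
  have hI4 : LI V (fun w => ms w + ms (om e * w)) ≤ LI V ms + LI V (fun w => ms (om e * w)) := by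
    unfold LI
    rw [← lintegral_add_left' hmsm.ennreal_ofReal]
    exact lintegral_mono fun z => ENNReal.ofReal_add_le
  have hfin := (LI_mono hVm hpt).trans ((LI_add_le V (((measurable_const.mul
    (measurable_id.pow_const e)).norm.pow_const 2).mul
    ((measurable_loss hφ).comp fq_diff.continuous.measurable)) _).trans
    (add_le_add hI1 (hI4.trans (add_le_add hI3 hI2))))
  rw [hV, LI_ball_const _ (by positivity) (by positivity), ← ENNReal.ofReal_ofNat 3,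
    ← ENNReal.ofReal_mul (by norm_num), ← ENNReal.ofReal_add (by positivity) (by positivity),
    ← ENNReal.ofReal_add hε (by positivity), ENNReal.ofReal_le_ofReal_iff (by positivity)] at hfin
  have h1 : η * ‖α‖ / (12 * ρ) * (3 * (η * ρ) ^ 2) ≤ η * ‖α‖ / (12 * ρ) * (π * (η * ‖p‖) ^ 2) := by
    gcongr
    exact pi_gt_three.le
  have h2 : η * ‖α‖ / (12 * ρ) * (3 * (η * ρ) ^ 2) = η ^ 3 * (‖α‖ * ρ) / 4 := by
    field_simp
    ring
  linarith

end Pool.Agent.MP_28f8a1_an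

end

-- part MP_28f8a1_an.NonRec
section

/-! The differentials attached to the critical orbit, and the non-recurrent case. -/

set_option autoImplicit false

namespace Pool.Agent.MP_28f8a1_an

open MeasureTheory Metric Set Real Filter Topology
open scoped ENNReal

variable {e : ℕ} {c : ℂ}

theorem phi_L1 (N : ℕ) : LI (ball 0 3) (fun y => ‖phi e c N y‖) ≠ ∞ := by
  refine ne_top_of_le_ne_top ?_ ((LI_mono (v := fun y => ∑ j ∈ Finset.range (N + 1),
    ‖an e c j‖ * gk (cn e c j) y) measurableSet_ball fun y _ => ?_).trans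
    (LI_sum_le _ _ fun j _ => by fun_prop))
  · refine ENNReal.sum_ne_top.mpr fun j _ => ?_
    rw [LI_const_mul _ (norm_nonneg _)]
    exact ENNReal.mul_ne_top ENNReal.ofReal_ne_top
      (ne_top_of_le_ne_top ENNReal.ofReal_ne_top (LI_gk_le _ _ _))
  · refine (norm_sum_le _ _).trans_eq (Finset.sum_congr rfl fun j _ => ?_)
    rw [norm_mul, norm_inv, gk]

/-- The differential multiplied by the distance to the critical value. -/
noncomputable def psi (e : ℕ) (c : ℂ) (N : ℕ) (y : ℂ) : ℂ :=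
  1 + (y - c) * ∑ j ∈ Finset.range N, an e c (j + 1) * (y - cn e c (j + 1))⁻¹

@[fun_prop]
theorem measurable_psi (N : ℕ) : Measurable (psi e c N) := by
  unfold psi
  fun_prop

theorem psi_self (N : ℕ) : psi e c N c = 1 := by simp [psi]

theorem phi_eq_psi (N : ℕ) {y : ℂ} (hy : y ≠ c) : phi e c N y = psi e c N y / (y - c) := by
  have := sub_ne_zero.mpr hy
  rw [phi, psi, Finset.sum_range_succ', an_zero, show cn e c 0 = c from rfl]
  field_simp
  ring

theorem psi_diff {N : ℕ} {ρ : ℝ} (hρ : 0 < ρ) (h : ∀ j < N, ρ ≤ ‖cn e c j‖) :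
    DifferentiableOn ℂ (psi e c N) (ball c (ρ ^ (e + 1))) := by
  refine (((differentiableOn_id.sub_const c).mul (DifferentiableOn.fun_sum fun j hj =>
    ((differentiableOn_id.sub_const _).inv fun y hy h0 => ?_).const_mul _)).const_add 1)
  rw [mem_ball, dist_eq_norm, show y = cn e c (j + 1) from sub_eq_zero.mp h0, cn_succ, fq,
    add_sub_cancel_right, norm_pow] at hy
  exact absurd (pow_le_pow_left₀ hρ.le (h j (Finset.mem_range.mp hj)) _) (not_le.mpr hy)

theorem mul_log_le {x : ℝ} (hx : 0 < x) : x * Real.log (3 / x) ≤ 3 := by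
  have h := Real.log_le_sub_one_of_pos (show 0 < 3 / x by positivity)
  calc x * Real.log (3 / x) ≤ x * (3 / x - 1) := by gcongr
    _ = 3 - x := by field_simp
    _ ≤ 3 := by linarith

theorem non_rec (he : 1 ≤ e) (hc : ‖c‖ ≤ 2) {ρ : ℝ} (hρ : 0 < ρ) (hfar : ∀ n, ρ ≤ ‖cn e c n‖)
    {C : ℝ} (hC : 0 ≤ C)
    (hq : ∀ n, ‖Sn e c n‖ ≤ C * ‖an e c n‖ * (‖cn e c n‖ * Real.log (3 / ‖cn e c n‖))) :
    ∃ M : ℝ, ∀ n, ‖Pd e c c n‖ ≤ M := by
  set b := (ρ / 10 ^ 6) ^ (e + 1) with hb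
  have hb0 : 0 < b := by positivity
  have hρc : ρ ≤ ‖c‖ := hfar 0
  have hb1 : b ≤ 1 := pow_le_one₀ (by positivity) (by linarith)
  set s := b / 4000000 with hs
  have hs0 : 0 < s := by positivity
  by_cases hesc : ∀ y ∈ ball c s, ∀ k, ‖(fq e c)^[k] y‖ ≤ 3
  · refine ⟨6 / s, fun n => Complex.norm_deriv_le_div_of_mapsTo_ball
      (iter_diff n).differentiableOn (fun y hy => ?_) hs0⟩
    rw [mem_closedBall, dist_eq_norm]
    linarith [norm_sub_le ((fq e c)^[n] y) ((fq e c)^[n] c), hesc y hy n,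
      hesc c (mem_ball_self hs0) n]
  push Not at hesc
  obtain ⟨y0, hy0, k, hk⟩ := hesc
  obtain ⟨r, hr, hV⟩ := Metric.isOpen_iff.mp (isOpen_ball.inter
    (isOpen_lt continuous_const (iter_diff (e := e) (c := c) k).continuous.norm)) y0 ⟨hy0, hk⟩
  have h0 : ∀ n, cn e c n ≠ 0 := fun n => norm_pos_iff.mp (hρ.trans_le (hfar n))
  set C1 := (3 * C + 1) * (8 * π) with hC1
  have hC10 : 0 < C1 := by positivity
  have key : ∀ N, ‖an e c (N + 1)‖ * C1 * (1 + 54 * 32000 ^ 2) ≤ b →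
      (2 * s)⁻¹ * (π * r ^ 2) ≤ k * (‖an e c (N + 1)‖ * C1) := by
    intro N hN
    set ε := ‖an e c (N + 1)‖ * C1 with hε
    have hε0 : 0 ≤ ε := by positivity
    set w : ℂ → ℝ := fun y => ‖Sn e c (N + 1)‖ * gk c y +
      ‖an e c (N + 1)‖ * gk (cn e c (N + 1)) y with hw
    have hwt : Wt c w := ((wt_gk c).smul (norm_nonneg _)).add ((wt_gk _).smul (norm_nonneg _))
    have hEw : ∀ y, ‖Er e c N y‖ ≤ w y := fun y => by
      refine (norm_sub_le _ _).trans_eq ?_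
      simp only [hw, norm_mul, norm_inv, gk]
    have hw4 : LI (ball 0 4) w ≤ ENNReal.ofReal ε := by
      refine (LI_add_le _ (by fun_prop) _).trans ?_
      rw [LI_const_mul _ (norm_nonneg _), LI_const_mul _ (norm_nonneg _)]
      refine (add_le_add (mul_le_mul_right (LI_gk_le _ _ _) _)
        (mul_le_mul_right (LI_gk_le _ _ _) _)).trans ?_
      rw [← add_mul, ← ENNReal.ofReal_add (norm_nonneg _) (norm_nonneg _),
        ← ENNReal.ofReal_mul (by positivity)]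
      refine ENNReal.ofReal_le_ofReal ?_
      have h1 := (hq (N + 1)).trans (mul_le_mul_of_nonneg_left
        (mul_log_le (hρ.trans_le (hfar (N + 1)))) (by positivity))
      rw [hε, hC1]
      nlinarith [pi_pos]
    have hE3 : ∀ X ⊆ ball (0 : ℂ) 3, LI X (fun y => ‖Er e c N y‖) ≤ ENNReal.ofReal ε := fun X hX =>
      (LI_mono_set (hX.trans (ball_subset_ball (by norm_num))) _).trans
        ((LI_mono measurableSet_ball fun y _ => hEw y).trans hw4)
    have hB : volume (range (cn e c)) = 0 := (countable_range _).measure_zero _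
    have hid : ∀ y ∉ range (cn e c), phi e c N y = Tr e c (phi e c N) y + Er e c N y :=
      fun y hy => phi_id he h0 N fun n h => hy ⟨n, h.symm⟩
    have ht := tame he hc hρ hρc (K := 10 ^ 6 * (e + 1 : ℕ) / (1 / 10 ^ 9) ^ (e + 2))
      (by rw [div_mul_cancel₀ _ (by positivity)]) (fun n hn => absurd (hfar n) (not_le.mpr hn))
      (measurable_phi N) (phi_L1 N) hB hid (measurable_psi N) (psi_diff hρ fun j _ => hfar j)
      (fun y hy => phi_eq_psi N hy) (by simp [psi_self]) hwt (fun y _ => hEw y) hε0 hε0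
      (hE3 _ subset_rfl) ((LI_mono_set inter_subset_right _).trans hw4) (by linarith)
    have hlow : ENNReal.ofReal ((2 * s)⁻¹ * (π * r ^ 2)) ≤ LI (ball y0 r) (fun y => ‖phi e c N y‖) := by
      rw [← LI_ball_const y0 hr.le (by positivity)]
      refine LI_mono_ae measurableSet_ball (measure_singleton c) fun y hy hyc => ?_
      have h1 := (hV hy).1
      have h2 := ht y (ball_subset_ball (by linarith) h1)
      rw [mem_ball, dist_eq_norm] at h1
      have h3 : 0 < ‖y - c‖ := norm_pos_iff.mpr (sub_ne_zero.mpr hyc)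
      rw [psi_self, le_div_iff₀ hb0] at h2
      have h4 := norm_sub_norm_le 1 (psi e c N y)
      rw [norm_sub_rev, norm_one] at h4
      have h5 : 1 / 2 ≤ ‖psi e c N y‖ := by nlinarith
      rw [phi_eq_psi N hyc, norm_div, inv_eq_one_div, div_le_div_iff₀ (by positivity) h3]
      nlinarith
    have hm : ∀ m, MeasurableSet ((fq e c)^[m] ⁻¹' ball 0 3) := fun m =>
      (iter_diff m).continuous.measurable measurableSet_ball
    have hsub : ∀ m, (fq e c)^[m] ⁻¹' ball 0 3 ⊆ ball 0 3 := fun m y hy =>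
      mem_ball_zero_iff.mpr (iter_lt_three he hc m y (mem_ball_zero_iff.mp hy))
    have hrec : ∀ m : ℕ, LI (ball 0 3) (fun y => ‖phi e c N y‖) ≤
        LI ((fq e c)^[m] ⁻¹' ball 0 3) (fun y => ‖phi e c N y‖) + ENNReal.ofReal (m * ε) := by
      intro m
      induction m with
      | zero => simp
      | succ m ih =>
        have h1 := le_self_add.trans (transfer (measurable_phi N) hB hid (hm m))
        refine (ih.trans (add_le_add (h1.trans (add_le_add le_rfl (hE3 _ (hsub m)))) le_rfl)).trans_eq ?_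
        rw [add_assoc, ← ENNReal.ofReal_add hε0 (by positivity)]
        congr 2
        push_cast
        ring
    have hun : LI ((fq e c)^[k] ⁻¹' ball 0 3) (fun y => ‖phi e c N y‖) +
        LI (ball y0 r) (fun y => ‖phi e c N y‖) ≤ LI (ball 0 3) (fun y => ‖phi e c N y‖) := by
      unfold LI
      rw [← lintegral_union measurableSet_ball]
      · refine lintegral_mono_set (union_subset (hsub k) fun y hy => ?_)
        have h1 := (hV hy).1
        rw [mem_ball, dist_eq_norm] at h1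
        rw [mem_ball_zero_iff]
        linarith [norm_sub_norm_le y c]
      · refine disjoint_left.mpr fun y hy hy' => ?_
        have h1 : 3 < ‖(fq e c)^[k] y‖ := (hV hy').2
        linarith [mem_ball_zero_iff.mp hy]
    have h1 := hlow.trans (ENNReal.le_of_add_le_add_left
      (ne_top_of_le_ne_top (phi_L1 N) (LI_mono_set (hsub k) _)) (hun.trans (hrec k)))
    rwa [ENNReal.ofReal_le_ofReal_iff (by positivity)] at h1
  set m := min (b / (C1 * (1 + 54 * 32000 ^ 2))) ((2 * s)⁻¹ * (π * r ^ 2) / ((k + 1) * C1)) with hm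
  have hm0 : 0 < m := by positivity
  refine ⟨max 1 m⁻¹, fun n => ?_⟩
  cases n with
  | zero => simp [Pd_zero]
  | succ N =>
    refine le_max_of_le_right ?_
    by_contra hcon
    have h1 : ‖an e c (N + 1)‖ ≤ m := by
      rw [an, norm_inv]
      exact inv_le_of_inv_le₀ hm0 (not_le.mp hcon).le
    have h2 := h1.trans (min_le_left _ _)
    have h3 := h1.trans (min_le_right _ _)
    rw [le_div_iff₀ (by positivity)] at h2 h3
    have h4 := key N (by linarith)
    have h5 : 0 < ‖an e c (N + 1)‖ := by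
      rw [an, norm_inv]
      exact inv_pos.mpr ((inv_pos.mpr hm0).trans (not_le.mp hcon))
    nlinarith [mul_pos h5 hC10]

end Pool.Agent.MP_28f8a1_an

end

-- part MP_28f8a1_an.Rec
section

/-! The recurrent case: three consecutive closest returns. -/

set_option autoImplicit false

namespace Pool.Agent.MP_28f8a1_an

open MeasureTheory Metric Set Real Filter Topology
open scoped ENNReal

variable {e : ℕ} {c : ℂ}

/-- Large derivatives at all returns to the disc of radius `ρ0`. -/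
def LDn (e : ℕ) (c : ℂ) (ρ0 K : ℝ) : Prop :=
  ∀ n, ‖cn e c n‖ < ρ0 → K ≤ ‖Pd e c c n‖ * ‖cn e c n‖ ^ e

theorem LDn.lds {ρ0 K t : ℝ} (h : LDn e c ρ0 K) (ht : t ≤ ρ0) : LDs e c t K := fun n hn =>
  (h n (hn.trans_le ht)).trans (by
    have : ‖cn e c n‖ ≤ t := hn.le
    gcongr)

theorem LDn.an_le {ρ0 K : ℝ} (h : LDn e c ρ0 K) {n : ℕ} (hn : ‖cn e c n‖ < ρ0) :
    ‖an e c n‖ * K ≤ ‖cn e c n‖ ^ e := by
  have h1 := h n hn
  rw [an, norm_inv]
  rcases (norm_nonneg (Pd e c c n)).eq_or_lt with h2 | h2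
  · rw [← h2, inv_zero, zero_mul]
    positivity
  · rwa [inv_mul_le_iff₀ h2]

theorem an_ne (h0 : ∀ n, cn e c n ≠ 0) (n : ℕ) : an e c n ≠ 0 := by
  induction n with
  | zero => simp [an_zero]
  | succ n ih =>
    rw [an_succ]
    exact mul_ne_zero ih (inv_ne_zero (mul_ne_zero (Nat.cast_ne_zero.mpr (Nat.succ_ne_zero e))
      (pow_ne_zero _ (h0 n))))

theorem an_cmp (he : 1 ≤ e) (h0 : ∀ n, cn e c n ≠ 0) {t θ K : ℝ} (ht : 0 < t) (hθ : 0 < θ)
    (hθ1 : θ ≤ 1 / 512) (hK : 10 ^ 6 * (e + 1 : ℕ) ≤ K * θ ^ (e + 2)) (hLD : LDs e c t K) {N : ℕ}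
    (hN : ‖cn e c N‖ ≤ t / 2048) (hfar : ∀ j < N, θ * t ≤ ‖cn e c j‖) {j : ℕ} (hj : j < N) :
    ‖an e c N‖ * t ≤ 256 * (‖cn e c j‖ * ‖an e c j‖) := by
  obtain ⟨h, hb, hh⟩ := lemmaU he ht hθ hθ1 hK hLD (m := N) (z := c) hN hfar
  have hb' := hb.iter (j := j + 1) hj
  have hsub : ball (cn e c N) (t / 64) ⊆ ball 0 (t / 32) :=
    ball_subset_ball' (by rw [dist_zero_right]; linarith)
  have h1 := koebe_omit (by positivity) ((hb'.univ isOpen_ball).mono hsub) (w := c) (by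
    rintro ⟨z, hz, h1⟩
    simp only [Function.iterate_succ_apply', fq, add_eq_right] at h1
    exact (hb.iter hj.le).ne_zero he isOpen_ball (by omega) (hsub hz) (eq_zero_of_pow_eq_zero h1))
  rw [hb'.norm_deriv isOpen_ball (hsub (mem_ball_self (by positivity)))] at h1
  have hh' : h (cn e c N) = c := hh
  simp only [hh'] at h1
  have h2 := Pd_add (e := e) (c := c) c (N - (j + 1)) (j + 1)
  rw [Nat.sub_add_cancel hj] at h2
  have h3 : ‖an e c N‖ = ‖Pd e c ((fq e c)^[j + 1] c) (N - (j + 1))‖⁻¹ * ‖an e c (j + 1)‖ := by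
    rw [an, an, h2, mul_inv, norm_mul, norm_inv]
  have h4 : ‖(fq e c)^[j + 1] c - c‖ = ‖cn e c j‖ ^ (e + 1) := by
    rw [Function.iterate_succ_apply', fq, add_sub_cancel_right, norm_pow]
    rfl
  have hd1 : (1 : ℝ) ≤ (e + 1 : ℕ) := by exact_mod_cast Nat.le_add_left 1 e
  have h5 : ‖cn e c j‖ ^ (e + 1) * ‖an e c (j + 1)‖ ≤ ‖cn e c j‖ * ‖an e c j‖ := by
    have := norm_pos_iff.mpr (h0 j)
    rw [an_succ, norm_mul, norm_inv, norm_mul, norm_pow, Complex.norm_natCast]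
    calc _ = ‖cn e c j‖ * ‖an e c j‖ / (e + 1 : ℕ) := by field_simp; ring
      _ ≤ _ := div_le_self (by positivity) hd1
  rw [h4] at h1
  rw [h3]
  nlinarith [norm_nonneg (an e c (j + 1))]

/-- The coefficient of the double-pole part of the defect. -/
noncomputable def bn (e : ℕ) (c : ℂ) (N : ℕ) : ℂ := an e c (N + 1) * cn e c N ^ (e + 1)

theorem norm_bn (h0 : ∀ n, cn e c n ≠ 0) (N : ℕ) :
    ‖bn e c N‖ = ‖an e c N‖ * ‖cn e c N‖ / (e + 1 : ℕ) := by
  have := norm_pos_iff.mpr (h0 N)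
  rw [bn, an_succ, norm_mul, norm_mul, norm_inv, norm_mul, norm_pow, norm_pow, Complex.norm_natCast]
  field_simp
  ring

theorem bn_ne (h0 : ∀ n, cn e c n ≠ 0) (N : ℕ) : bn e c N ≠ 0 :=
  mul_ne_zero (an_ne h0 _) (pow_ne_zero _ (h0 N))

theorem Er_eq (h0 : ∀ n, cn e c n ≠ 0) (N : ℕ) {y : ℂ} (hy : ∀ n, y ≠ cn e c n) :
    Er e c N y = bn e c N * (Sn e c N / bn e c N * (y - c)⁻¹ -
      ((y - c) * (y - c - cn e c N ^ (e + 1)))⁻¹) := by
  have h1 : y - c ≠ 0 := sub_ne_zero.mpr (hy 0)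
  have h2 : y - cn e c (N + 1) = y - c - cn e c N ^ (e + 1) := by rw [cn_succ, fq]; ring
  have h3 : y - c - cn e c N ^ (e + 1) ≠ 0 := h2 ▸ sub_ne_zero.mpr (hy _)
  rw [mul_sub, ← mul_assoc, mul_div_cancel₀ _ (bn_ne h0 N), Er, h2, Sn, Finset.sum_range_succ, ← Sn,
    bn]
  field_simp
  ring

theorem Tr_comb (u v w : ℂ → ℂ) (κ κ' y : ℂ) : Tr e c (fun z => u z + κ * v z + κ' * w z) y =
    Tr e c u y + κ * Tr e c v y + κ' * Tr e c w y := by
  simp only [Tr, tm, add_div, Finset.sum_add_distrib, Finset.mul_sum, mul_div_assoc]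

theorem two_mul_pow_le {r k s : ℝ} (hr : 0 ≤ r) (h : 2 * r ≤ k * s) :
    2 * r ^ (e + 1) ≤ k ^ (e + 1) * s ^ (e + 1) := by
  rw [← mul_pow]
  refine le_trans ?_ (pow_le_pow_left₀ (by positivity) h _)
  rw [mul_pow]
  gcongr
  exact le_self_pow₀ (by norm_num) (Nat.succ_ne_zero e)

theorem rec_step (he : 1 ≤ e) : ∃ A K : ℝ, 2 ≤ A ∧ ∀ {c : ℂ}, ‖c‖ ≤ 2 → (∀ n, cn e c n ≠ 0) →
    ∀ {ρ0 : ℝ}, LDn e c ρ0 K → ∀ {N0 N1 N2 : ℕ}, N2 < N1 → N1 < N0 →
    ‖cn e c N0‖ ≤ ‖cn e c N1‖ → (∀ j < N0, ‖cn e c N1‖ ≤ ‖cn e c j‖) → A * ‖cn e c N1‖ ≤ ρ0 →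
    ‖cn e c N1‖ ≤ 1 → ∀ β2 : ℂ, ‖β2‖ * (‖cn e c N2‖ / ‖cn e c N1‖) ≤
      4 * ‖bn e c N0‖ * (‖cn e c N1‖ / ‖cn e c N0‖) →
    bn e c N0 * (Sn e c N0 / bn e c N0 - Sn e c N1 / bn e c N1) +
      β2 * (Sn e c N2 / bn e c N2 - Sn e c N1 / bn e c N1) = 0 → False := by
  obtain ⟨η, hη, hη1, hcf⟩ := chain_fold he
  have hη3 : η ^ 3 ≤ η := pow_le_of_le_one hη.le (by linarith) (by norm_num)
  set A : ℝ := 10 ^ 7 / η ^ 3 with hA
  have hAη : η ^ 3 * A = 10 ^ 7 := by rw [hA]; field_simp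
  have hA0 : 0 < A := by positivity
  have hA1 : 10 ^ 7 ≤ η * A := by nlinarith
  have hA2 : 10 ^ 7 ≤ A := by nlinarith
  set K : ℝ := max (max (10 ^ 6 * (e + 1 : ℕ) / (1 / A) ^ (e + 2))
    (10 ^ 6 * (e + 1 : ℕ) / (1 / 10 ^ 9) ^ (e + 2))) (10 ^ 23 * (2 * 10 ^ 6) ^ (e + 1) / η) with hK
  have hK1 : 10 ^ 6 * (e + 1 : ℕ) ≤ K * (1 / A) ^ (e + 2) :=
    (div_le_iff₀ (by positivity)).mp ((le_max_left _ _).trans (le_max_left _ _))
  have hK2 : 10 ^ 6 * (e + 1 : ℕ) ≤ K * (1 / 10 ^ 9) ^ (e + 2) :=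
    (div_le_iff₀ (by positivity)).mp ((le_max_right _ _).trans (le_max_left _ _))
  have hK3 : 10 ^ 23 * (2 * 10 ^ 6) ^ (e + 1) ≤ K * η := (div_le_iff₀ hη).mp (le_max_right _ _)
  have hK0 : 0 < K := (mul_pos_iff_of_pos_right hη).mp (lt_of_lt_of_le (by positivity) hK3)
  clear_value K A
  clear hK hA
  refine ⟨A, K, by linarith only [hA2], ?_⟩
  intro c hc h0 ρ0 hLD N0 N1 N2 h21 h10 hr01 hfar hAρ hρ1 β2 hβ2 hq
  set ρ := ‖cn e c N1‖ with hρd
  set r0 := ‖cn e c N0‖ with hr0d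
  set r2 := ‖cn e c N2‖ with hr2d
  have hρ : 0 < ρ := norm_pos_iff.mpr (h0 _)
  have hr0 : 0 < r0 := norm_pos_iff.mpr (h0 _)
  have hr2 : ρ ≤ r2 := hfar N2 (by omega)
  have hr2' : 0 < r2 := hρ.trans_le hr2
  have hρA : 10 ^ 7 * ρ ≤ A * ρ := by gcongr
  have hθ : 1 / A * (A * ρ) = ρ := by field_simp
  have hθ1 : 1 / A ≤ 1 / 512 := one_div_le_one_div_of_le (by norm_num) (by linarith only [hA2])
  have hcmp : ∀ j < N0, ‖an e c N0‖ * (A * ρ) ≤ 256 * (‖cn e c j‖ * ‖an e c j‖) := fun j hj =>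
    an_cmp he h0 (by positivity) (by positivity) hθ1 hK1 (hLD.lds hAρ) (by linarith only [hr01, hρA, hρ])
      (by rwa [hθ]) hj
  set d : ℝ := ((e + 1 : ℕ) : ℝ) with hd
  have hd2 : 2 ≤ d := by
    rw [hd]
    exact_mod_cast Nat.succ_le_succ he
  set X := ‖an e c N0‖ * ρ with hX
  have hX0 : 0 < X := mul_pos (norm_pos_iff.mpr (an_ne h0 _)) hρ
  have hb0 : ‖bn e c N0‖ * (ρ / r0) = X / d := by
    rw [norm_bn h0, hX, ← hd, ← hr0d]
    field_simp
  have hb0' : ‖bn e c N0‖ ≤ X / d := by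
    rw [← hb0]
    exact le_mul_of_one_le_right (norm_nonneg _) ((one_le_div hr0).mpr hr01)
  have hk2 : 1 ≤ r2 / ρ := (one_le_div hρ).mpr hr2
  have hβ2a : ‖β2‖ * (r2 / ρ) ≤ 4 * (X / d) := by linarith only [hβ2, hb0]
  have hβ2b : ‖β2‖ ≤ 4 * (X / d) := (le_mul_of_one_le_right (norm_nonneg _) hk2).trans hβ2a
  have hbl : ∀ j < N0, A / 256 * (X / d) ≤ ‖bn e c j‖ := fun j hj => by
    rw [norm_bn h0, ← mul_div_assoc, ← hd]
    refine div_le_div_of_nonneg_right ?_ (by linarith only [hd2])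
    rw [hX]
    linarith only [hcmp j hj]
  set Y := X / d with hY
  have hY0 : 0 < Y := by positivity
  have hXY : X = d * Y := by rw [hY]; field_simp
  have hAY : 10 ^ 7 * Y ≤ A * Y := mul_le_mul_of_nonneg_right hA2 hY0.le
  set β1 := -bn e c N0 - β2 with hβ1
  set κ1 := β1 / bn e c N1 with hκ1
  set κ2 := β2 / bn e c N2 with hκ2
  have hκ1n : ‖κ1‖ ≤ 1 / 4 := by
    rw [hκ1, norm_div, div_le_iff₀ (norm_pos_iff.mpr (bn_ne h0 _))]
    have h1 := norm_sub_le (-bn e c N0) β2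
    rw [norm_neg] at h1
    linarith only [h1, hb0', hβ2b, hbl N1 h10, hAY, hY0]
  have hκ2n : ‖κ2‖ ≤ 1 / 4 := by
    rw [hκ2, norm_div, div_le_iff₀ (norm_pos_iff.mpr (bn_ne h0 _))]
    linarith only [hβ2b, hbl N2 (by omega), hAY, hY0]
  set φ : ℂ → ℂ := fun z => phi e c N0 z + κ1 * phi e c N1 z + κ2 * phi e c N2 z with hφ
  set Ψ : ℂ → ℂ := fun z => psi e c N0 z + κ1 * psi e c N1 z + κ2 * psi e c N2 z with hΨ
  set δ0 := cn e c N0 ^ (e + 1) with hδ0
  set δ1 := cn e c N1 ^ (e + 1) with hδ1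
  set δ2 := cn e c N2 ^ (e + 1) with hδ2
  set E : ℂ → ℂ := fun y => -bn e c N0 * Gd δ0 δ1 (y - c) + β2 * Gd δ1 δ2 (y - c) with hE
  set w : ℂ → ℝ := fun y => ‖bn e c N0‖ * wG c δ0 δ1 y + ‖β2‖ * wG c δ1 δ2 y with hw
  have hφm : Measurable φ := by fun_prop
  have hEm : Measurable E := by
    simp only [hE, Gd]
    fun_prop
  have hφ1 : LI (ball 0 3) (fun y => ‖φ y‖) ≠ ∞ := by
    refine ne_top_of_le_ne_top ?_ ((LI_mono (v := fun y => ‖phi e c N0 y‖ +
      (‖κ1‖ * ‖phi e c N1 y‖ + ‖κ2‖ * ‖phi e c N2 y‖)) measurableSet_ball fun y _ => ?_).trans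
      ((LI_add_le _ (by fun_prop) _).trans (add_le_add le_rfl (LI_add_le _ (by fun_prop) _))))
    · rw [LI_const_mul _ (norm_nonneg _), LI_const_mul _ (norm_nonneg _)]
      exact ENNReal.add_ne_top.mpr ⟨phi_L1 _, ENNReal.add_ne_top.mpr
        ⟨ENNReal.mul_ne_top ENNReal.ofReal_ne_top (phi_L1 _),
          ENNReal.mul_ne_top ENNReal.ofReal_ne_top (phi_L1 _)⟩⟩
    · rw [← add_assoc, ← norm_mul, ← norm_mul]
      exact norm_add₃_le
  have hid : ∀ y ∉ range (cn e c), φ y = Tr e c φ y + E y := by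
    intro y hy
    have hy' : ∀ n, y ≠ cn e c n := fun n h => hy ⟨n, h.symm⟩
    have h1 : κ1 * bn e c N1 = -bn e c N0 - β2 := div_mul_cancel₀ _ (bn_ne h0 _)
    have h2 : κ2 * bn e c N2 = β2 := div_mul_cancel₀ _ (bn_ne h0 _)
    rw [hφ, Tr_comb]
    simp only [hE, Gd]
    rw [phi_id he h0 N0 hy', phi_id he h0 N1 hy', phi_id he h0 N2 hy', Er_eq h0 N0 hy',
      Er_eq h0 N1 hy', Er_eq h0 N2 hy']
    linear_combination (Sn e c N1 / bn e c N1 * (y - c)⁻¹ - ((y - c) * (y - c - δ1))⁻¹) * h1 +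
      (Sn e c N2 / bn e c N2 * (y - c)⁻¹ - ((y - c) * (y - c - δ2))⁻¹) * h2 + (y - c)⁻¹ * hq
  have hΨφ : ∀ y ≠ c, φ y = Ψ y / (y - c) := fun y hy => by
    simp only [hφ, hΨ, phi_eq_psi _ hy]
    ring
  have hΨc : Ψ c = 1 + (κ1 + κ2) := by
    simp only [hΨ, psi_self]
    ring
  have hΨc1 : 1 / 2 ≤ ‖Ψ c‖ ∧ ‖Ψ c‖ ≤ 2 := by
    have h1 := abs_le.mp (abs_norm_sub_norm_le (Ψ c) 1)
    rw [norm_one, hΨc, add_sub_cancel_left, ← hΨc] at h1
    constructor <;> linarith only [norm_add_le κ1 κ2, h1.1, h1.2, hκ1n, hκ2n]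
  have hΨd : DifferentiableOn ℂ Ψ (ball c (ρ ^ (e + 1))) :=
    ((psi_diff hρ hfar).add ((psi_diff hρ fun j hj => hfar j (by omega)).const_mul _)).add
      ((psi_diff hρ fun j hj => hfar j (by omega)).const_mul _)
  have hn01 : ‖δ0‖ ≤ ‖δ1‖ := by
    rw [hδ0, hδ1, norm_pow, norm_pow]
    gcongr
  have hn12 : ‖δ1‖ ≤ ‖δ2‖ := by
    rw [hδ2, hδ1, norm_pow, norm_pow]
    gcongr
  have hwt : Wt c w := ((wt_wG _ _).smul (norm_nonneg _)).add ((wt_wG _ _).smul (norm_nonneg _))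
  have hEw : ∀ y ∉ range (cn e c), ‖E y‖ ≤ w y := fun y hy => by
    have hyc : y ≠ c := fun h => hy ⟨0, h.symm⟩
    refine (norm_add_le _ _).trans ?_
    rw [norm_mul, norm_mul, norm_neg]
    exact add_le_add (mul_le_mul_of_nonneg_left (Gd_le hn01 hyc) (norm_nonneg _))
      (mul_le_mul_of_nonneg_left (Gd_le hn12 hyc) (norm_nonneg _))
  have hπ : π ≤ 4 := pi_le_four
  have hEε : LI (ball 0 3) (fun y => ‖E y‖) ≤ ENNReal.ofReal (640 * X) := by
    have h1 := LI_Gd (c := c) (pow_ne_zero _ (h0 N0)) hn01 (k := 2 * (ρ / r0))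
      (by linarith only [(one_le_div hr0).mpr hr01]) (n := e + 1) (by
        rw [hδ1, norm_pow, norm_pow]
        exact two_mul_pow_le hρ.le (le_of_eq (by field_simp; rfl)))
    have h2 := LI_Gd (c := c) (pow_ne_zero _ (h0 N1)) hn12 (k := 2 * (r2 / ρ))
      (by linarith only [hk2]) (n := e + 1) (by
        rw [hδ2, norm_pow, norm_pow]
        exact two_mul_pow_le hr2'.le (le_of_eq (by field_simp; rfl)))
    refine (LI_mono_set (subset_univ _) _).trans ((LI_mono (v := fun y => ‖bn e c N0‖ *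
      ‖Gd δ0 δ1 (y - c)‖ + ‖β2‖ * ‖Gd δ1 δ2 (y - c)‖) MeasurableSet.univ fun y _ => ?_).trans
      ((LI_add_le _ (by unfold Gd; fun_prop) _).trans ?_))
    · refine (norm_add_le _ _).trans_eq ?_
      rw [norm_mul, norm_mul, norm_neg]
    · rw [LI_const_mul _ (norm_nonneg _), LI_const_mul _ (norm_nonneg _)]
      refine (add_le_add (mul_le_mul_right h1 _) (mul_le_mul_right h2 _)).trans ?_
      rw [← ENNReal.ofReal_mul (norm_nonneg _), ← ENNReal.ofReal_mul (norm_nonneg _),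
        ← ENNReal.ofReal_add (by positivity) (by positivity)]
      refine ENNReal.ofReal_le_ofReal ?_
      have h3 : (4 * d + 24) * π ≤ 16 * d * 4 :=
        mul_le_mul (by linarith only [hd2]) hπ pi_pos.le (by linarith only [hd2])
      calc _ = 2 * ((4 * d + 24) * π) * (‖bn e c N0‖ * (ρ / r0) + ‖β2‖ * (r2 / ρ)) := by ring
        _ ≤ 2 * (16 * d * 4) * (Y + 4 * Y) := by gcongr; exact hb0.le
        _ = _ := by rw [hXY]; ring
  have hw1 : LI ({y | (1 / 10 ^ 9 * ρ) ^ (e + 1) / 2 ≤ ‖y - c‖} ∩ ball 0 4) w ≤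
      ENNReal.ofReal (10 ^ 12 * X) := by
    have h3 : ∀ r k : ℝ, 0 ≤ r → 4 * r ≤ k * (1 / 10 ^ 9 * ρ) →
        2 * r ^ (e + 1) ≤ k ^ (e + 1) * ((1 / 10 ^ 9 * ρ) ^ (e + 1) / 2) := fun r k hr h => by
      have h4 := two_mul_pow_le (e := e) (r := 2 * r) (k := k) (s := 1 / 10 ^ 9 * ρ)
        (by positivity) (by linarith only [h])
      have h5 := two_mul_pow_le (e := e) (k := 2) (s := r) hr le_rfl
      rw [mul_pow 2 r] at h4
      linarith only [h4, h5]
    have h1 := LI_wG (c := c) hn01 (k := 4 * 10 ^ 9) (a := (1 / 10 ^ 9 * ρ) ^ (e + 1) / 2)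
      (by norm_num) (by positivity) (n := e + 1) (by
        rw [hδ1, norm_pow]
        exact h3 _ _ hρ.le (le_of_eq (by ring)))
    have h2 := LI_wG (c := c) hn12 (k := 4 * 10 ^ 9 * (r2 / ρ)) (a := (1 / 10 ^ 9 * ρ) ^ (e + 1) / 2)
      (by linarith only [hk2]) (by positivity) (n := e + 1) (by
        rw [hδ2, norm_pow]
        exact h3 r2 _ hr2'.le (le_of_eq (by field_simp)))
    refine (LI_mono_set inter_subset_left _).trans
      ((LI_add_le _ ((wt_wG _ _).meas.const_mul _) _).trans ?_)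
    rw [LI_const_mul _ (norm_nonneg _), LI_const_mul _ (norm_nonneg _)]
    refine (add_le_add (mul_le_mul_right h1 _) (mul_le_mul_right h2 _)).trans ?_
    rw [← ENNReal.ofReal_mul (norm_nonneg _), ← ENNReal.ofReal_mul (norm_nonneg _),
      ← ENNReal.ofReal_add (by positivity) (by positivity)]
    refine ENNReal.ofReal_le_ofReal ?_
    have h4 : (4 * d + 16) * π ≤ 12 * d * 4 :=
      mul_le_mul (by linarith only [hd2]) hπ pi_pos.le (by linarith only [hd2])
    calc _ = 4 * 10 ^ 9 * ((4 * d + 16) * π) * (‖bn e c N0‖ + ‖β2‖ * (r2 / ρ)) := by ring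
      _ ≤ 4 * 10 ^ 9 * (12 * d * 4) * (Y + 4 * Y) := by gcongr
      _ ≤ _ := by
        rw [hXY]
        linarith only [mul_pos (by linarith only [hd2] : (0 : ℝ) < d) hY0]
  set b := (ρ / 10 ^ 6) ^ (e + 1) with hb
  have hb0' : 0 < b := by positivity
  have hbK : ∀ n, ‖cn e c n‖ < 2 * ρ → 10 ^ 23 * (‖an e c n‖ * ρ) ≤ η * b := by
    intro n hn
    have h1 := hLD.an_le (n := n) (by linarith only [hn, hρA, hAρ, hρ])
    have h2 : ‖cn e c n‖ ^ e * ρ ≤ (2 * 10 ^ 6) ^ (e + 1) * b := by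
      rw [hb, ← mul_pow, show 2 * 10 ^ 6 * (ρ / 10 ^ 6) = 2 * ρ by ring, pow_succ]
      gcongr
      linarith only [hρ]
    refine le_of_mul_le_mul_left ?_ hK0
    calc K * (10 ^ 23 * (‖an e c n‖ * ρ)) = 10 ^ 23 * (‖an e c n‖ * K * ρ) := by ring
      _ ≤ 10 ^ 23 * (‖cn e c n‖ ^ e * ρ) := by gcongr
      _ ≤ 10 ^ 23 * (2 * 10 ^ 6) ^ (e + 1) * b := by rw [mul_assoc]; gcongr
      _ ≤ K * η * b := by gcongr
      _ = _ := by ring
  have hηb : η * b ≤ b := mul_le_of_le_one_left hb0'.le (by linarith only [hη1])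
  have htame := tame he hc hρ (hfar 0 (by omega)) hK2
    (hLD.lds (by linarith only [hρA, hAρ, hρ])) hφm hφ1
    ((countable_range _).measure_zero _) hid (by fun_prop) hΨd hΨφ hΨc1.2 hwt hEw
    (by positivity) (by positivity) hEε hw1
    (by linarith only [hbK N0 (by linarith only [hr01, hρ]), hηb, hX, hX0, hb])
  have hex : ∃ n, ‖cn e c n‖ < 2 * ρ := ⟨N1, by linarith only [hρ, hρd]⟩
  classical
  set n := Nat.find hex with hn
  have hn1 : ‖cn e c n‖ < 2 * ρ := Nat.find_spec hex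
  have hn2 : n ≤ N1 := Nat.find_min' hex (by linarith only [hρ, hρd])
  obtain ⟨h, hbr, hh⟩ := lemmaU he (t := A * ρ) (by positivity) (by positivity) hθ1 hK1
    (hLD.lds hAρ) (m := n) (z := c) (le_trans hn1.le (by linarith only [hρA, hρ]))
    (fun j hj => by rw [hθ]; exact hfar j (by omega))
  have hfin := hcf hc hρ hρ1 (t := A * ρ)
    (by linarith only [mul_le_mul_of_nonneg_right hA1 hρ.le, hρ]) hbr (hfar n (by omega)) hn1 hh
    (fun j hj => not_lt.mp (Nat.find_min hex hj)) hφm hEm hφ1 (countable_range _) hid hΨφ hΨc1.1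
    (fun y hy => ?_) (by positivity) hEε
  · have h1 := hcmp n (by omega)
    have h2 : ‖cn e c n‖ * ‖an e c n‖ ≤ 2 * ρ * ‖an e c n‖ := by gcongr
    have h3 : η ^ 3 * (A * X) ≤ η ^ 3 * (512 * (‖an e c n‖ * ρ)) := by
      refine mul_le_mul_of_nonneg_left ?_ (by positivity)
      rw [hX]
      linarith only [h1, h2]
    rw [← mul_assoc, hAη] at h3
    linarith only [h3, hfin, hX0]
  · have h1 := hbK n hn1
    have h2 : 0 ≤ ‖an e c n‖ * ρ := by positivity
    refine (htame y (by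
      rw [mem_ball, dist_eq_norm]
      linarith only [hy, h1, h2, hηb, hb0', hb])).trans ?_
    rw [div_le_iff₀ hb0']
    linarith only [hy, h1, h2]

end Pool.Agent.MP_28f8a1_an

end

-- part MP_28f8a1_an.Core
section

/-! Selection of closest returns and the dynamical core of the argument. -/

set_option autoImplicit false

namespace Pool.Agent.MP_28f8a1_an

open Metric Set Real Filter Topology

variable {e : ℕ}

theorem select {ρ : ℕ → ℝ} (h0 : ∀ i, 0 < ρ i) (h2 : ∀ i, ρ i ≤ 2) (hanti : ∀ i, ρ (i + 1) ≤ ρ i)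
    {q : ℕ → ℂ} {C : ℝ} (hC : 0 < C) (hq : ∀ i, ‖q i‖ ≤ C * Real.log (3 / ρ i)) (i0 : ℕ) :
    ∃ i, i0 ≤ i ∧ ‖q (i + 2) - q (i + 1)‖ * (ρ (i + 2) / ρ (i + 1)) ≤
      4 * (‖q (i + 1) - q i‖ * (ρ (i + 1) / ρ i)) := by
  by_contra hcon
  push Not at hcon
  set u : ℕ → ℝ := fun i => ‖q (i + 1) - q i‖ * (ρ (i + 1) / ρ i) with hu
  set L : ℕ → ℝ := fun i => Real.log (3 / ρ i) with hL
  have hu0 : ∀ i, 0 ≤ u i := fun i => by
    have := h0 i
    have := h0 (i + 1)
    positivity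
  have hL0 : ∀ i, 0 ≤ L i := fun i => Real.log_nonneg ((one_le_div (h0 i)).mpr (by linarith [h2 i]))
  have hLs : ∀ i, L i ≤ L (i + 1) ∧ L (i + 1) ≤ L i + ρ i / ρ (i + 1) := fun i => by
    have h1 := h0 i
    have h3 := h0 (i + 1)
    have h4 : L (i + 1) = L i + Real.log (ρ i / ρ (i + 1)) := by
      rw [hL]
      simp only
      rw [← Real.log_mul (by positivity) (by positivity)]
      congr 1
      field_simp
    have h5 := Real.log_nonneg ((one_le_div h3).mpr (hanti i))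
    have h6 := Real.log_le_sub_one_of_pos (div_pos h1 h3)
    constructor <;> linarith
  have huL : ∀ i, u i * (ρ i / ρ (i + 1)) ≤ 2 * C * L (i + 1) := fun i => by
    have h1 := h0 i
    have h3 := h0 (i + 1)
    have h4 : u i * (ρ i / ρ (i + 1)) = ‖q (i + 1) - q i‖ := by
      rw [hu]
      field_simp
    have h5 := mul_le_mul_of_nonneg_left (hLs i).1 hC.le
    linarith [norm_sub_le (q (i + 1)) (q i), hq i, hq (i + 1)]
  have hgrow : ∀ j, i0 ≤ j → ∀ k, 4 ^ k * u j ≤ u (j + k) := fun j hj k => by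
    induction k with
    | zero => simp
    | succ k ih =>
      have : 4 * u (j + k) < u (j + k + 1) := hcon (j + k) (by omega)
      rw [pow_succ, ← add_assoc]
      linarith
  have hpos : 0 < u (i0 + 1) := lt_of_le_of_lt (by linarith [hu0 i0]) (hcon i0 le_rfl)
  obtain ⟨k0, hk0⟩ := pow_unbounded_of_one_lt (4 * C / u (i0 + 1)) (show (1 : ℝ) < 4 by norm_num)
  rw [div_lt_iff₀ hpos] at hk0
  set j0 := i0 + 1 + k0 with hj0
  have hj : ∀ k, 4 ^ k * (4 * C) ≤ u (j0 + k) := fun k =>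
    le_trans (by gcongr; exact hk0.le.trans (hgrow _ (by omega) k0)) (hgrow j0 (by omega) k)
  have hLg : ∀ k, L (j0 + k) ≤ 2 ^ k * L j0 := fun k => by
    induction k with
    | zero => simp
    | succ k ih =>
      have h1 := huL (j0 + k)
      have h3 : 4 * C ≤ u (j0 + k) :=
        (le_mul_of_one_le_left (by positivity) (one_le_pow₀ (by norm_num))).trans (hj k)
      have h4 : 0 < ρ (j0 + k) / ρ (j0 + k + 1) := div_pos (h0 _) (h0 _)
      have h5 : C * (2 * (ρ (j0 + k) / ρ (j0 + k + 1))) ≤ C * L (j0 + k + 1) := by nlinarith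
      have h6 := le_of_mul_le_mul_left h5 hC
      rw [pow_succ, ← add_assoc]
      linarith [(hLs (j0 + k)).2]
  obtain ⟨k, hk⟩ := pow_unbounded_of_one_lt (L j0) (show (1 : ℝ) < 2 by norm_num)
  have h1 := huL (j0 + k)
  have h3 : u (j0 + k) ≤ u (j0 + k) * (ρ (j0 + k) / ρ (j0 + k + 1)) :=
    le_mul_of_one_le_right (hu0 _) ((one_le_div (h0 _)).mpr (hanti _))
  have h4 := mul_le_mul_of_nonneg_left (hLg (k + 1)) (show 0 ≤ 2 * C by positivity)
  have h5 := hj k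
  rw [show (4 : ℝ) ^ k = 2 ^ k * 2 ^ k by rw [← mul_pow]; norm_num] at h5
  rw [pow_succ, ← add_assoc] at h4
  have h6 : (0 : ℝ) < 2 ^ k * C := by positivity
  nlinarith

theorem core (he : 1 ≤ e) : ∃ K : ℝ, ∀ {c : ℂ}, (∀ n, ‖cn e c n‖ ≤ 2) → (∀ n, cn e c n ≠ 0) →
    ∀ {ρ0 : ℝ}, 0 < ρ0 → LDn e c ρ0 K → ∀ {C : ℝ}, 0 < C →
    (∀ n, ‖Sn e c n‖ ≤ C * ‖an e c n‖ * (‖cn e c n‖ * Real.log (3 / ‖cn e c n‖))) →
    (∃ ρ, 0 < ρ ∧ ∀ n, ρ ≤ ‖cn e c n‖) ∧ ∃ M : ℝ, ∀ n, ‖Pd e c c n‖ ≤ M := by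
  obtain ⟨A, K, hA, hstep⟩ := rec_step he
  refine ⟨K, ?_⟩
  intro c hb h0 ρ0 hρ0 hLD C hC hq
  have hc : ‖c‖ ≤ 2 := hb 0
  suffices h : ∃ ρ, 0 < ρ ∧ ∀ n, ρ ≤ ‖cn e c n‖ from
    ⟨h, let ⟨_, h1, h2⟩ := h; non_rec he hc h1 h2 hC.le hq⟩
  by_contra hrec
  push Not at hrec
  have hpos : ∀ n, 0 < ‖cn e c n‖ := fun n => norm_pos_iff.mpr (h0 n)
  classical
  set nxt : ℕ → ℕ := fun n => Nat.find (hrec _ (hpos n)) with hnxt
  set N : ℕ → ℕ := fun i => nxt^[i] 0 with hN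
  have hNs : ∀ i, N (i + 1) = nxt (N i) := fun i => Function.iterate_succ_apply' _ _ _
  have h1 : ∀ i, ‖cn e c (N (i + 1))‖ < ‖cn e c (N i)‖ := fun i => by
    rw [hNs]
    exact Nat.find_spec (hrec _ (hpos (N i)))
  have h2 : ∀ i, ∀ j < N (i + 1), ‖cn e c (N i)‖ ≤ ‖cn e c j‖ := fun i j hj => by
    rw [hNs] at hj
    exact not_lt.mp (Nat.find_min (hrec _ (hpos (N i))) hj)
  have h3 : ∀ i, ∀ j ≤ N i, ‖cn e c (N i)‖ ≤ ‖cn e c j‖ := fun i j hj => by
    rcases hj.eq_or_lt with rfl | hj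
    · exact le_rfl
    · cases i with
      | zero => exact absurd hj (Nat.not_lt_zero j)
      | succ i => exact (h1 i).le.trans (h2 i j hj)
  have h4 : StrictMono N := strictMono_nat_of_lt_succ fun i =>
    not_le.mp fun h => absurd (h3 i _ h) (not_le.mpr (h1 i))
  obtain ⟨n, hn⟩ := hrec (min (ρ0 / A) 1) (by positivity)
  have hd : (0 : ℝ) < (e + 1 : ℕ) := by positivity
  obtain ⟨i, hi, hsel⟩ := select (ρ := fun i => ‖cn e c (N i)‖) (fun i => hpos _) (fun i => hb _)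
    (fun i => (h1 i).le) (q := fun i => Sn e c (N i) / bn e c (N i)) (C := C * (e + 1 : ℕ))
    (by positivity) (fun i => by
      rw [norm_div, div_le_iff₀ (norm_pos_iff.mpr (bn_ne h0 _)), norm_bn h0]
      refine (hq _).trans_eq ?_
      field_simp) n
  have h5 : ‖cn e c (N (i + 1))‖ < min (ρ0 / A) 1 :=
    (h3 (i + 1) n ((hi.trans (Nat.le_succ i)).trans (h4.id_le _))).trans_lt hn
  set q0 := Sn e c (N (i + 2)) / bn e c (N (i + 2))
  set q1 := Sn e c (N (i + 1)) / bn e c (N (i + 1))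
  set q2 := Sn e c (N i) / bn e c (N i)
  have hr0 := hpos (N (i + 2))
  have hr1 := hpos (N (i + 1))
  have hr2 := hpos (N i)
  refine hstep hc h0 hLD (h4 (Nat.lt_succ_self i)) (h4 (Nat.lt_succ_self (i + 1))) (h1 (i + 1)).le
    (h2 (i + 1)) ?_ (h5.le.trans (min_le_right _ _))
    (bn e c (N (i + 2)) * ((q0 - q1) / (q1 - q2))) ?_ ?_
  · have := h5.le.trans (min_le_left _ _)
    rw [le_div_iff₀ (by linarith)] at this
    linarith
  · by_cases h : q1 - q2 = 0
    · rw [h, div_zero, mul_zero, norm_zero, zero_mul]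
      positivity
    · have h6 := norm_pos_iff.mpr h
      rw [norm_mul, norm_div]
      calc _ = ‖bn e c (N (i + 2))‖ * (‖cn e c (N i)‖ / (‖cn e c (N (i + 2))‖ * ‖q1 - q2‖)) *
            (‖q0 - q1‖ * (‖cn e c (N (i + 2))‖ / ‖cn e c (N (i + 1))‖)) := by field_simp
        _ ≤ ‖bn e c (N (i + 2))‖ * (‖cn e c (N i)‖ / (‖cn e c (N (i + 2))‖ * ‖q1 - q2‖)) *
            (4 * (‖q1 - q2‖ * (‖cn e c (N (i + 1))‖ / ‖cn e c (N i)‖))) := by gcongr
        _ = _ := by field_simp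
  · change bn e c (N (i + 2)) * (q0 - q1) + _ * (q2 - q1) = 0
    by_cases h : q1 - q2 = 0
    · rw [h, norm_zero, zero_mul, mul_zero] at hsel
      have h6 : ‖q0 - q1‖ ≤ 0 := nonpos_of_mul_nonpos_left hsel (div_pos hr0 hr1)
      rw [norm_le_zero_iff.mp h6]
      simp
    · field_simp
      ring

end Pool.Agent.MP_28f8a1_an

end

-- part MP_28f8a1_an.Param
section

/-! From the dynamical core to the parameter plane. -/

set_option autoImplicit false

namespace Pool.Agent.MP_28f8a1_an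

open Metric Set Real Filter Topology

variable {e : ℕ} {c : ℂ}

theorem escape_aux (he : 1 ≤ e) {z : ℂ} (hz : 2 < ‖z‖) (hcz : ‖c‖ ≤ ‖z‖) (k : ℕ) :
    (‖z‖ - 1) ^ k * ‖z‖ ≤ ‖(fq e c)^[k] z‖ := by
  induction k with
  | zero => simp
  | succ k ih =>
    set w := (fq e c)^[k] z
    have h1 : ‖z‖ ≤ ‖w‖ :=
      (le_mul_of_one_le_left (norm_nonneg _) (one_le_pow₀ (by linarith))).trans ih
    have h2 : ‖w‖ ^ 2 ≤ ‖w‖ ^ (e + 1) := pow_le_pow_right₀ (by linarith) (by omega)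
    have h3 := norm_sub_le (fq e c w) c
    rw [fq, add_sub_cancel_right, norm_pow, ← fq] at h3
    rw [Function.iterate_succ_apply', pow_succ, mul_right_comm]
    have h4 : (‖z‖ - 1) ^ k * ‖z‖ * (‖z‖ - 1) ≤ ‖w‖ * (‖w‖ - 1) :=
      mul_le_mul ih (by linarith) (by linarith) (norm_nonneg _)
    change _ ≤ ‖fq e c w‖
    nlinarith

theorem escape (he : 1 ≤ e) {n : ℕ} (hn : 2 < ‖cn e c n‖) :
    Tendsto (fun k : ℕ => ‖(fq e c)^[k] 0‖) atTop atTop := by
  obtain ⟨m, hm, hcm⟩ : ∃ m, 2 < ‖cn e c m‖ ∧ ‖c‖ ≤ ‖cn e c m‖ := by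
    rcases le_or_gt ‖c‖ 2 with h | h
    · exact ⟨n, hn, by linarith⟩
    · exact ⟨0, h, le_rfl⟩
  rw [← tendsto_add_atTop_iff_nat (m + 1)]
  refine tendsto_atTop_mono (fun k => ?_) ((tendsto_pow_atTop_atTop_of_one_lt
    (show 1 < ‖cn e c m‖ - 1 by linarith)).atTop_mul_const (show 0 < ‖cn e c m‖ by linarith))
  have : (fq e c)^[k + (m + 1)] 0 = (fq e c)^[k] (cn e c m) := by
    rw [Function.iterate_add_apply, Function.iterate_succ_apply, cn]
    simp [fq]
  rw [this]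
  exact escape_aux he hm hcm k

theorem cn_diff (n : ℕ) : Differentiable ℂ fun c => cn e c n := by
  induction n with
  | zero => exact differentiable_id
  | succ n ih =>
    simp only [cn_succ, fq]
    exact (ih.pow _).add differentiable_id

theorem cn_deriv (h0 : ∀ n, cn e c n ≠ 0) (n : ℕ) :
    HasDerivAt (fun c => cn e c n) (Pd e c c n * Sn e c n) c := by
  induction n with
  | zero =>
    rw [Pd_zero, Sn, Finset.sum_range_one, an_zero, one_mul]
    exact hasDerivAt_id c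
  | succ n ih =>
    simp only [cn_succ, fq]
    refine ((ih.pow (e + 1)).add (hasDerivAt_id c)).congr_deriv ?_
    have h1 : Pd e c c (n + 1) * an e c (n + 1) = 1 :=
      mul_inv_cancel₀ (mt inv_eq_zero.mpr (an_ne h0 (n + 1)))
    rw [Sn, Sn, Finset.sum_range_succ _ (n + 1), mul_add, h1, Pd_succ', Nat.add_sub_cancel, cn]
    ring

theorem stable_bound {R : ℝ} (hR : 0 < R) (hb : ∀ c' ∈ ball c R, ∀ n, ‖cn e c' n‖ ≤ 2)
    (h0 : ∀ c' ∈ ball c R, ∀ n, cn e c' n ≠ 0) (n : ℕ) :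
    ‖Sn e c n‖ ≤ 4 / R * ‖an e c n‖ * (‖cn e c n‖ * Real.log (3 / ‖cn e c n‖)) := by
  have hc := mem_ball_self (x := c) hR
  obtain ⟨L, hL, hLe⟩ := exists_log (F := fun c => cn e c n) (x := c) (R := R)
    (cn_diff n).differentiableOn fun c' hc' => h0 c' hc' n
  set M := Real.log (3 / ‖cn e c n‖) with hM
  have hp := norm_pos_iff.mpr (h0 c hc n)
  have hM0 : 0 < M := Real.log_pos ((one_lt_div hp).mpr (by linarith [hb c hc n]))
  have hre : ∀ c' ∈ ball c R, (L c').re = Real.log ‖cn e c' n‖ := fun c' hc' => by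
    rw [← hLe c' hc', Complex.norm_exp, Real.log_exp]
  have hmap : ∀ u ∈ ball (0 : ℂ) R, c + u ∈ ball c R := fun u hu => by simpa using hu
  have hF : DifferentiableOn ℂ (fun u => L (c + u) - L c) (ball 0 R) :=
    (hL.comp (by fun_prop) hmap).sub_const _
  have h1 : ∀ u ∈ ball (0 : ℂ) (R / 2), ‖L (c + u) - L c‖ ≤ 2 * M := by
    intro u hu
    rw [mem_ball_zero_iff] at hu
    refine (Complex.borelCaratheodory_zero hM0 hF (fun v hv => ?_) hR
      (mem_ball_zero_iff.mpr (by linarith)) (by simp)).trans ?_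
    · rw [mem_ofPred_eq, Complex.sub_re, hre _ (hmap v hv), hre c hc, hM,
        Real.log_div (by norm_num) hp.ne']
      have := Real.log_le_log (norm_pos_iff.mpr (h0 _ (hmap v hv) n))
        ((hb _ (hmap v hv) n).trans (show (2 : ℝ) ≤ 3 by norm_num))
      linarith
    · rw [div_le_iff₀ (by linarith)]
      nlinarith
  have h2 := Complex.norm_deriv_le_div_of_mapsTo_ball (R₁ := R / 2) (R₂ := 2 * M)
    (hF.mono (ball_subset_ball (by linarith))) (fun u hu => by simpa using h1 u hu) (by positivity)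
  have h3 : HasDerivAt (fun u => L (c + u) - L c) (deriv L c) 0 := by
    have h4 : HasDerivAt L (deriv L c) (c + 0) := by
      rw [add_zero]
      exact hL.hasDerivAt (ball_mem_nhds c hR)
    exact (h4.comp_const_add c 0).sub_const _
  have h4 : Pd e c c n * Sn e c n = cn e c n * deriv L c := by
    have h5 := (hL.hasDerivAt (ball_mem_nhds c hR)).cexp
    rw [hLe c hc] at h5
    refine (cn_deriv (h0 c hc) n).unique (h5.congr_of_eventuallyEq ?_)
    filter_upwards [ball_mem_nhds c hR] with v hv using (hLe v hv).symm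
  have h5 : Sn e c n = an e c n * (cn e c n * deriv L c) := by
    rw [← h4, an, inv_mul_cancel_left₀ (mt inv_eq_zero.mpr (an_ne (h0 c hc) n))]
  rw [h3.deriv] at h2
  rw [h5, norm_mul, norm_mul]
  calc _ ≤ ‖an e c n‖ * (‖cn e c n‖ * (2 * M / (R / 2))) := by gcongr
    _ = _ := by
      field_simp
      ring

/-- The theorem in the normal form `z ^ (e+1) + c`. -/
theorem normal_form (he : 1 ≤ e) : ∃ K : ℝ, ∀ c : ℂ, ∀ ρ0 : ℝ, 0 < ρ0 →
    (∀ n, ‖cn e c n‖ < ρ0 → K ≤ ‖Pd e c c (n + 1)‖) →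
    ((∀ η, 0 < η → ∃ n, ‖cn e c n‖ < η) ∨ ∀ M : ℝ, ∃ n, M < ‖Pd e c c n‖) →
    ∀ ε, 0 < ε → ∃ c' ∈ ball c ε, Tendsto (fun k : ℕ => ‖(fq e c')^[k] 0‖) atTop atTop ∨
      ∃ n, 0 < n ∧ (fq e c')^[n] 0 = 0 := by
  obtain ⟨K, hK⟩ := core he
  refine ⟨K * (e + 1 : ℕ), fun c ρ0 hρ0 hLD hrec ε hε => ?_⟩
  by_contra hcon
  push Not at hcon
  have hb : ∀ c' ∈ ball c ε, ∀ n, ‖cn e c' n‖ ≤ 2 := fun c' hc' n =>
    not_lt.mp fun h => (hcon c' hc').1 (escape he h)
  have h0 : ∀ c' ∈ ball c ε, ∀ n, cn e c' n ≠ 0 := fun c' hc' n h =>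
    (hcon c' hc').2 (n + 1) (Nat.succ_pos n) (by
      rw [Function.iterate_succ_apply]
      simpa [fq, cn] using h)
  have hc := mem_ball_self (x := c) hε
  obtain ⟨⟨ρ, h1, h2⟩, M, hM⟩ := hK (hb c hc) (h0 c hc) hρ0 (fun n hn => by
    have h1 := hLD n hn
    rw [Pd_succ', norm_mul, norm_mul, norm_pow, Complex.norm_natCast] at h1
    refine le_of_mul_le_mul_right (h1.trans_eq ?_) (show (0 : ℝ) < (e + 1 : ℕ) by positivity)
    rw [cn]
    ring) (show 0 < 4 / ε by positivity) (stable_bound hε hb h0)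
  rcases hrec with h | h
  · obtain ⟨n, hn⟩ := h ρ h1
    exact absurd (h2 n) (not_le.mpr hn)
  · obtain ⟨n, hn⟩ := h M
    exact absurd (hM n) (not_le.mpr hn)

open Polynomial in
theorem unicritical_form {T : ℂ[X]} (hT : T.natDegree = e + 1) {ω : ℂ}
    (hω : ∀ z, T.derivative.eval z = 0 → z = ω) :
    ∃ a b : ℂ, a ≠ 0 ∧ ∀ z, T.eval z = a * (z - ω) ^ (e + 1) + b := by
  have hd : ((e + 1 : ℕ) : ℂ) ≠ 0 := Nat.cast_ne_zero.mpr (Nat.succ_ne_zero e)
  have hdeg : T.derivative.natDegree = e := by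
    rw [natDegree_derivative, hT, Nat.add_sub_cancel]
  have hne : T.derivative ≠ 0 := fun h => by
    have := derivative_eq_zero.mp h
    omega
  have hsp := IsAlgClosed.splits T.derivative
  have hroots : T.derivative.roots = Multiset.replicate e ω :=
    Multiset.eq_replicate.mpr ⟨by rw [← hsp.natDegree_eq_card_roots, hdeg],
      fun z hz => hω z (isRoot_of_mem_roots hz)⟩
  have h1 := hsp.eq_prod_roots
  rw [hroots, Multiset.map_replicate, Multiset.prod_replicate] at h1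
  set l := T.derivative.leadingCoeff with hl
  have hl0 : l ≠ 0 := leadingCoeff_ne_zero.mpr hne
  have h2 : derivative (T - C (l / (e + 1 : ℕ)) * (X - C ω) ^ (e + 1)) = 0 := by
    rw [derivative_sub, derivative_C_mul, derivative_X_sub_C_pow, Nat.add_sub_cancel, ← mul_assoc,
      ← C_mul, div_mul_cancel₀ _ hd, ← h1, sub_self]
  have h3 := eq_C_of_derivative_eq_zero h2
  refine ⟨l / (e + 1 : ℕ), (T - C (l / (e + 1 : ℕ)) * (X - C ω) ^ (e + 1)).coeff 0,
    div_ne_zero hl0 hd, fun z => ?_⟩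
  have h4 := congrArg (eval z) h3
  rw [eval_C, eval_sub, eval_mul, eval_C, eval_pow, eval_sub, eval_X, eval_C] at h4
  rw [← h4]
  ring

theorem conj_iter {g : ℂ → ℂ} {α ω b : ℂ} (hg : ∀ z, g z = α ^ e * (z - ω) ^ (e + 1) + b) (n : ℕ)
    (z : ℂ) : α * (g^[n] z - ω) = (fq e (α * (b - ω)))^[n] (α * (z - ω)) := by
  refine Function.Semiconj.iterate_right (f := fun z => α * (z - ω)) (fun z => ?_) n z
  rw [hg, fq, mul_pow]
  ring

theorem conj_deriv {g : ℂ → ℂ} {α ω b : ℂ} (hα : α ≠ 0)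
    (hg : ∀ z, g z = α ^ e * (z - ω) ^ (e + 1) + b) (n : ℕ) (z : ℂ) :
    deriv g^[n] z = Pd e (α * (b - ω)) (α * (z - ω)) n := by
  have h1 : g^[n] = fun z => α⁻¹ * (fq e (α * (b - ω)))^[n] (α * (z - ω)) + ω := by
    ext z
    rw [← conj_iter hg, inv_mul_cancel_left₀ hα, sub_add_cancel]
  have h2 := (((iter_deriv (e := e) (c := α * (b - ω)) n (α * (z - ω))).comp z
    (((hasDerivAt_id z).sub_const ω).const_mul α)).const_mul α⁻¹).add_const ω
  rw [h1]
  refine h2.deriv.trans ?_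
  field_simp

end Pool.Agent.MP_28f8a1_an

end
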